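import Pool.Agent.HKD.Defs

set_option autoImplicit false

namespace Pool.Agent.HFT

open Pool.Agent.HK

variable {H : Type} [NormedAddCommGroup H] [InnerProductSpace ℂ H] [CompleteSpace H]

/-- For a central projection `z` of `M`: the summand `zM` is the hyperfinite factor of type
II-one. There are vectors `ξ i` of `zH` with `∑ ‖ξ i‖² = 1` such that
`τ x = ∑ ⟪ξ i, x (ξ i)⟫` is a trace (`τ (x* x) = τ (x x*)` for `x ∈ M`), faithful on `zM`, and
there are self-adjoint unitaries `X n`, `Z n` of `zM` such that `X n`, `Z n` anticommute, all other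
pairs commute, and the algebra generated by them is dense in `zM` for the norm
`‖x‖₂ = τ (x* x)^(1/2)`. -/
def IsHyperfinite (M : Set (H →L[ℂ] H)) (z : H →L[ℂ] H) : Prop :=
  ∃ (ξ : ℕ → H) (X Z : ℕ → (H →L[ℂ] H)),
    HasSum (fun i => ‖ξ i‖ ^ 2) 1 ∧ (∀ i, z (ξ i) = ξ i) ∧
    (∀ x ∈ M, ∑' i, ‖x (ξ i)‖ ^ 2 = ∑' i, ‖(star x) (ξ i)‖ ^ 2) ∧
    (∀ x ∈ M, z * x = x → (∀ i, x (ξ i) = 0) → x = 0) ∧
    (∀ n, X n ∈ M ∧ star (X n) = X n ∧ X n * X n = z) ∧
    (∀ n, Z n ∈ M ∧ star (Z n) = Z n ∧ Z n * Z n = z) ∧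
    (∀ n, X n * Z n = -(Z n * X n)) ∧
    (∀ m n, X m * X n = X n * X m ∧ Z m * Z n = Z n * Z m ∧ (m ≠ n → X m * Z n = Z n * X m)) ∧
    ∀ x ∈ M, ∀ ε : ℝ, 0 < ε →
      ∃ y ∈ Algebra.adjoin ℂ (Set.range X ∪ Set.range Z), ∑' i, ‖(x - y) (ξ i)‖ ^ 2 < ε

/-- `M` is a countable direct sum of properly infinite algebras, of homogeneous algebras of finite
type I, of algebras with diffuse centre and of hyperfinite factors of type II-one: there is a
sequence of pairwise orthogonal central projections of `M` with strong sum `1`, each of which is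
properly infinite (or zero), or finite homogeneous of type I, or diffuse, or hyperfinite. -/
def IsPieceSumH (M : VonNeumannAlgebra H) : Prop :=
  ∃ z : ℕ → (H →L[ℂ] H),
    (∀ j, IsCentralProj (M : Set (H →L[ℂ] H)) (z j)) ∧ (∀ i j, i ≠ j → z i * z j = 0) ∧
    SumsToOne z ∧
    ∀ j, IsPropInf (M : Set (H →L[ℂ] H)) (z j) ∨ IsHomFin (M : Set (H →L[ℂ] H)) (z j) ∨
      IsDiffuse (M : Set (H →L[ℂ] H)) (z j) ∨ IsHyperfinite (M : Set (H →L[ℂ] H)) (z j)

/-- The compact operators. -/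
def Cpt (H : Type) [NormedAddCommGroup H] [InnerProductSpace ℂ H] : Set (H →L[ℂ] H) :=
  {x | IsCompactOperator x}

end Pool.Agent.HFT
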