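import Pool.Agent.HFT.Defs
import Pool.Agent.HFT.DefsF

set_option autoImplicit false
set_option linter.unusedSectionVars false

/-! # Module C1 (4 points): the corner `zM` as a von Neumann algebra on `zH`

`Kz z` = `{v | z v = v}` (closed, so a Hilbert space), `Vz z : Kz z →L H` the inclusion,
`Wz z` its adjoint. For a projection `z`: `Wz ∘ Vz = 1` (`⟪W V u, v⟫ = ⟪V u, V v⟫ = ⟪u, v⟫`) and
`Vz ∘ Wz = z` (`z` is the orthogonal projection onto `Kz z`: check `⟪V W u, v⟫ = ⟪W u, W v⟫`... for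
`v = z v + (1 - z) v`, `W (1 - z) v = 0` since `⟪W (1-z) v, u⟫ = ⟪(1-z) v, V u⟫ = ⟪v, (1-z) u⟫ = 0`,
and `W (z v) = ⟨z v, _⟩`).
`ez z y = V y W` (from `B(zH)` to `B(H)`), `cz z x = W x V`. `cz (ez y) = y`, `ez (cz x) = z x z`,
`ez` is multiplicative, `ez (star y) = star (ez y)`, `ez 1 = z`, linear; `‖ez y‖ ≤ ‖y‖`, `‖cz x‖ ≤ ‖x‖`
(`‖V‖ ≤ 1`, `‖W‖ ≤ 1`).

`corner_vn`: the carrier `{y | ez z y ∈ M}` is a star subalgebra (`ez 1 = z ∈ M`; the algebra map:
`ez (c 1) = c z`), and equals its bicommutant: let `x` commute with everything commuting with the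
carrier. For `y ∈ M.commutant` the operator `cz y` commutes with the carrier: for `n` with
`ez n ∈ M`: `(W y V) n = W y V n W V = W y (ez n) V = W (ez n) y V = n W y V` (`W V = 1`). So
`x (W y V) = (W y V) x`, hence `(V x W) y = V x W y`; since `y` commutes with `z = V W`:
`V x W y = V x W V W y = V x W y V W = V (x W y V) W = V (W y V x) W = V W y V x W = y V x W`. So
`ez x` commutes with `M.commutant`: `ez x ∈ M` (`vn_mem_iff`).
`VonNeumannAlgebra.mk` needs `centralizer (centralizer carrier) = carrier`.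

`corner_hyp`: with `ξ' i = W (ξ i)` (`V ξ' i = z ξ i = ξ i`, `‖ξ' i‖ = ‖ξ i‖`), `X' n = cz (X n)`,
`Z' n = cz (Z n)` (`ez (X' n) = z X n z = X n` as `X n = X n X n X n = z X n`: from `X n X n = z`,
`z X n = X n X n X n = X n z`, and `(1 - z) X n = 0` because `((1-z) X n) ((1-z) X n)* = (1-z) z (1-z) = 0`).
For `y ∈ N`: `‖y (ξ' i)‖ = ‖V y W ξ i‖ = ‖ez y (ξ i)‖`. So all fields of `Hyp` follow:
`faith`: `ez y ∈ M`, `z ez y = ez y`; `dense`: given `x ∈ N` and `ε`, take `y ∈ adjoin` with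
`∑ ‖(ez x - y) ξ i‖² < ε²`; `cz y ∈ adjoin (range X' ∪ range Z')`: `cz` is multiplicative on
operators commuting with `z` and `y` commutes with `z`; by `Algebra.adjoin_induction` show for
`y ∈ adjoin (range X ∪ range Z)`: `z y = y z` and `cz y ∈ adjoin (range X' ∪ range Z')`. And
`‖(x - cz y) ξ' i‖ = ‖W (ez x - y) ξ i‖ ≤ ‖(ez x - y) ξ i‖`. -/

namespace Pool.Agent.HFT

open Pool.Agent.HK Filter Topology

variable {H : Type} [NormedAddCommGroup H] [InnerProductSpace ℂ H] [CompleteSpace H]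

/-- the range of a projection -/
noncomputable def Kz (z : H →L[ℂ] H) : Submodule ℂ H :=
  LinearMap.ker ((z - 1 : H →L[ℂ] H) : H →ₗ[ℂ] H)

theorem mem_Kz {z : H →L[ℂ] H} {v : H} : v ∈ Kz z ↔ z v = v := by
  unfold Kz
  rw [LinearMap.mem_ker]
  show (z - 1 : H →L[ℂ] H) v = 0 ↔ z v = v
  simp [sub_eq_zero]

theorem Kz_closed (z : H →L[ℂ] H) : IsClosed (Kz z : Set H) := by
  have h : (Kz z : Set H) = {v | z v = v} := by
    ext v
    exact mem_Kz
  rw [h]
  exact isClosed_eq z.continuous continuous_id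

instance (z : H →L[ℂ] H) : CompleteSpace (Kz z) := (Kz_closed z).completeSpace_coe

/-- inclusion -/
noncomputable def Vz (z : H →L[ℂ] H) : Kz z →L[ℂ] H := (Kz z).subtypeL

/-- its adjoint -/
noncomputable def Wz (z : H →L[ℂ] H) : H →L[ℂ] Kz z := ContinuousLinearMap.adjoint (Vz z)

/-- extension of an operator of the corner -/
noncomputable def ez (z : H →L[ℂ] H) (y : Kz z →L[ℂ] Kz z) : H →L[ℂ] H :=
  (Vz z).comp (y.comp (Wz z))

/-- compression to the corner -/
noncomputable def cz (z : H →L[ℂ] H) (x : H →L[ℂ] H) : Kz z →L[ℂ] Kz z :=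
  (Wz z).comp (x.comp (Vz z))

section proj

variable {z : H →L[ℂ] H} (hz : IsStarProjection z)

include hz

theorem WV (u : Kz z) : Wz z (Vz z u) = u := by
  have _ := hz
  refine ext_inner_right ℂ fun v => ?_
  unfold Wz
  rw [ContinuousLinearMap.adjoint_inner_left]
  rfl

theorem VW (u : H) : Vz z (Wz z u) = z u := by
  have hzz : z * z = z := hz.isIdempotentElem
  have hm : z u ∈ Kz z := by
    rw [mem_Kz]
    exact congrArg (fun T : H →L[ℂ] H => T u) hzz
  have hw : Wz z u = ⟨z u, hm⟩ := by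
    refine ext_inner_right ℂ fun v => ?_
    unfold Wz
    rw [ContinuousLinearMap.adjoint_inner_left]
    show inner ℂ u (v : H) = inner ℂ (z u) (v : H)
    have h1 : inner ℂ (z u) (v : H) = inner ℂ u (z (v : H)) := by
      have h2 := ContinuousLinearMap.adjoint_inner_left z (v : H) u
      rwa [hz.isSelfAdjoint.adjoint_eq] at h2
    rw [h1, mem_Kz.mp v.2]
  rw [hw]
  rfl

theorem cz_ez (y : Kz z →L[ℂ] Kz z) : cz z (ez z y) = y := by
  ext u
  show ((Wz z (Vz z (y (Wz z (Vz z u)))) : Kz z) : H) = (y u : H)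
  rw [WV hz, WV hz]

theorem ez_cz (x : H →L[ℂ] H) : ez z (cz z x) = z * x * z := by
  ext u
  show Vz z (Wz z (x (Vz z (Wz z u)))) = z (x (z u))
  rw [VW hz, VW hz]

theorem ez_mul (x y : Kz z →L[ℂ] Kz z) : ez z (x * y) = ez z x * ez z y := by
  ext u
  show Vz z (x (y (Wz z u))) = Vz z (x (Wz z (Vz z (y (Wz z u)))))
  rw [WV hz]

theorem ez_one : ez z 1 = z := by
  ext u
  show Vz z (Wz z u) = z u
  exact VW hz u

theorem cz_mul (x y : H →L[ℂ] H) (h : z * y = y * z) : cz z (x * y) = cz z x * cz z y := by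
  ext u
  have h1 : z (y (Vz z u)) = y (Vz z u) := by
    have h2 : z (y (Vz z u)) = y (z (Vz z u)) := congrArg (fun T : H →L[ℂ] H => T (Vz z u)) h
    rw [h2]
    have h3 : z (Vz z u) = Vz z u := mem_Kz.mp u.2
    rw [h3]
  show ((Wz z (x (y (Vz z u))) : Kz z) : H) = ((Wz z (x (Vz z (Wz z (y (Vz z u))))) : Kz z) : H)
  rw [VW hz, h1]

theorem z_ez (y : Kz z →L[ℂ] Kz z) : z * ez z y = ez z y ∧ ez z y * z = ez z y := by
  constructor
  · ext u
    show z (Vz z (y (Wz z u))) = Vz z (y (Wz z u))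
    exact mem_Kz.mp (y (Wz z u)).2
  · ext u
    show Vz z (y (Wz z (z u))) = Vz z (y (Wz z u))
    rw [← VW hz u, WV hz]

end proj

theorem ez_star (z : H →L[ℂ] H) (y : Kz z →L[ℂ] Kz z) : ez z (star y) = star (ez z y) := by
  unfold ez
  rw [ContinuousLinearMap.star_eq_adjoint, ContinuousLinearMap.star_eq_adjoint,
    ContinuousLinearMap.adjoint_comp, ContinuousLinearMap.adjoint_comp]
  unfold Wz
  rw [ContinuousLinearMap.adjoint_adjoint, ContinuousLinearMap.comp_assoc]

theorem ez_norm (z : H →L[ℂ] H) (y : Kz z →L[ℂ] Kz z) : ‖ez z y‖ ≤ ‖y‖ := by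
  have hV : ‖Vz z‖ ≤ 1 := Submodule.norm_subtypeL_le _
  have hW : ‖Wz z‖ ≤ 1 := by
    unfold Wz
    rw [LinearIsometryEquiv.norm_map]
    exact hV
  calc ‖ez z y‖ ≤ ‖Vz z‖ * ‖y.comp (Wz z)‖ := ContinuousLinearMap.opNorm_comp_le _ _
    _ ≤ ‖Vz z‖ * (‖y‖ * ‖Wz z‖) := by
        gcongr
        exact ContinuousLinearMap.opNorm_comp_le _ _
    _ ≤ 1 * (‖y‖ * 1) := by gcongr
    _ = ‖y‖ := by ring

theorem cz_norm (z : H →L[ℂ] H) (x : H →L[ℂ] H) : ‖cz z x‖ ≤ ‖x‖ := by
  have hV : ‖Vz z‖ ≤ 1 := Submodule.norm_subtypeL_le _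
  have hW : ‖Wz z‖ ≤ 1 := by
    unfold Wz
    rw [LinearIsometryEquiv.norm_map]
    exact hV
  calc ‖cz z x‖ ≤ ‖Wz z‖ * ‖x.comp (Vz z)‖ := ContinuousLinearMap.opNorm_comp_le _ _
    _ ≤ ‖Wz z‖ * (‖x‖ * ‖Vz z‖) := by
        gcongr
        exact ContinuousLinearMap.opNorm_comp_le _ _
    _ ≤ 1 * (‖x‖ * 1) := by gcongr
    _ = ‖x‖ := by ring

theorem ez_compact (z : H →L[ℂ] H) (y : Kz z →L[ℂ] Kz z) (h : IsCompactOperator y) :
    IsCompactOperator (ez z y) := by
  exact (h.comp_clm (Wz z)).clm_comp (Vz z)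

theorem cz_compact (z : H →L[ℂ] H) (x : H →L[ℂ] H) (h : IsCompactOperator x) :
    IsCompactOperator (cz z x) := by
  exact (h.comp_clm (Vz z)).clm_comp (Wz z)

private theorem C1_add (z : H →L[ℂ] H) (a b : Kz z →L[ℂ] Kz z) :
    ez z (a + b) = ez z a + ez z b := by
  ext u
  show Vz z (a (Wz z u) + b (Wz z u)) = Vz z (a (Wz z u)) + Vz z (b (Wz z u))
  rw [map_add]

private theorem C1_neg (z : H →L[ℂ] H) (a : Kz z →L[ℂ] Kz z) : ez z (-a) = -ez z a := by
  ext u
  show Vz z (-(a (Wz z u))) = -Vz z (a (Wz z u))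
  rw [map_neg]

private theorem C1_smul (z : H →L[ℂ] H) (r : ℂ) (a : Kz z →L[ℂ] Kz z) :
    ez z (r • a) = r • ez z a := by
  ext u
  show Vz z (r • a (Wz z u)) = r • Vz z (a (Wz z u))
  rw [map_smul]

private theorem C1_smul_mem (M : VonNeumannAlgebra H) (r : ℂ) {x : H →L[ℂ] H} (hx : x ∈ M) :
    r • x ∈ M := by
  rw [vn_mem_iff]
  intro y hy
  rw [mul_smul_comm, smul_mul_assoc, vn_commute hx hy]

theorem corner_vn (M : VonNeumannAlgebra H) (z : H →L[ℂ] H)
    (hz : IsCentralProj (M : Set (H →L[ℂ] H)) z) :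
    ∃ N : VonNeumannAlgebra (Kz z), ∀ y, y ∈ N ↔ ez z y ∈ M := by
  obtain ⟨hzM, hzp, hzc⟩ := hz
  have hinj : ∀ a b : Kz z →L[ℂ] Kz z, ez z a = ez z b → a = b := by
    intro a b hab
    rw [← cz_ez hzp a, ← cz_ez hzp b, hab]
  let S : StarSubalgebra ℂ (Kz z →L[ℂ] Kz z) :=
    { carrier := {y | ez z y ∈ M}
      mul_mem' := by
        intro a b ha hb
        show ez z (a * b) ∈ M
        rw [ez_mul hzp]
        exact mul_mem ha hb
      add_mem' := by
        intro a b ha hb
        show ez z (a + b) ∈ M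
        rw [C1_add]
        exact add_mem ha hb
      algebraMap_mem' := by
        intro r
        show ez z (algebraMap ℂ (Kz z →L[ℂ] Kz z) r) ∈ M
        rw [Algebra.algebraMap_eq_smul_one, C1_smul, ez_one hzp]
        exact C1_smul_mem M r hzM
      star_mem' := by
        intro a ha
        show ez z (star a) ∈ M
        rw [ez_star]
        exact star_mem ha }
  have hcc : Set.centralizer (Set.centralizer S.carrier) = S.carrier := by
    apply Set.Subset.antisymm _ Set.subset_centralizer_centralizer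
    intro x hx
    show ez z x ∈ M
    rw [vn_mem_iff]
    intro y hy
    have hyz : y * z = z * y := vn_commute hzM hy
    have hzz : z * z = z := hzp.isIdempotentElem
    have hcy : cz z y ∈ Set.centralizer S.carrier := by
      rw [Set.mem_centralizer_iff]
      intro n hn
      have hn' : ez z n ∈ M := hn
      have h1 : y * ez z n = ez z n * y := vn_commute hn' hy
      apply hinj
      rw [ez_mul hzp, ez_mul hzp, ez_cz hzp]
      have e1 : ez z n * (z * y * z) = y * ez z n := by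
        calc ez z n * (z * y * z) = ez z n * (z * (y * z)) := by rw [mul_assoc z y z]
          _ = ez z n * z * (y * z) := by rw [mul_assoc]
          _ = ez z n * (y * z) := by rw [(z_ez hzp n).2]
          _ = (ez z n * y) * z := by rw [mul_assoc]
          _ = (y * ez z n) * z := by rw [h1]
          _ = y * (ez z n * z) := by rw [mul_assoc]
          _ = y * ez z n := by rw [(z_ez hzp n).2]
      have e2 : z * y * z * ez z n = y * ez z n := by
        calc z * y * z * ez z n = z * y * (z * ez z n) := by rw [mul_assoc]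
          _ = z * y * ez z n := by rw [(z_ez hzp n).1]
          _ = y * z * ez z n := by rw [hyz]
          _ = y * (z * ez z n) := by rw [mul_assoc]
          _ = y * ez z n := by rw [(z_ez hzp n).1]
      rw [e1, e2]
    have h2 := (Set.mem_centralizer_iff.mp hx) (cz z y) hcy
    have h3 := congrArg (ez z) h2
    rw [ez_mul hzp, ez_mul hzp, ez_cz hzp] at h3
    have e3 : z * y * z * ez z x = y * ez z x := by
      calc z * y * z * ez z x = z * y * (z * ez z x) := by rw [mul_assoc]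
        _ = z * y * ez z x := by rw [(z_ez hzp x).1]
        _ = y * z * ez z x := by rw [hyz]
        _ = y * (z * ez z x) := by rw [mul_assoc]
        _ = y * ez z x := by rw [(z_ez hzp x).1]
    have e4 : ez z x * (z * y * z) = ez z x * y := by
      calc ez z x * (z * y * z) = ez z x * (z * y * z) := rfl
        _ = ez z x * (z * (y * z)) := by rw [mul_assoc z y z]
        _ = ez z x * (z * (z * y)) := by rw [hyz]
        _ = ez z x * ((z * z) * y) := by rw [mul_assoc z z y]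
        _ = ez z x * (z * y) := by rw [hzz]
        _ = (ez z x * z) * y := by rw [mul_assoc]
        _ = ez z x * y := by rw [(z_ez hzp x).2]
    rw [e3, e4] at h3
    exact h3
  exact ⟨{ S with centralizer_centralizer' := hcc }, fun y => Iff.rfl⟩

theorem corner_hyp (M : VonNeumannAlgebra H) (z : H →L[ℂ] H)
    (hz : IsCentralProj (M : Set (H →L[ℂ] H)) z)
    (hh : IsHyperfinite (M : Set (H →L[ℂ] H)) z) (N : VonNeumannAlgebra (Kz z))
    (hN : ∀ y, y ∈ N ↔ ez z y ∈ M) : ∃ (ξ : ℕ → Kz z) (X Z : ℕ → (Kz z →L[ℂ] Kz z)),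
      Hyp N ξ X Z := by
  obtain ⟨hzM, hzp, hzc⟩ := hz
  obtain ⟨ξ, X, Z, hone, hzξ, htr, hfaith, hX, hZ, hanti, hcomm, hdense⟩ := hh
  have hzz : z * z = z := hzp.isIdempotentElem
  have hinj : ∀ a b : Kz z →L[ℂ] Kz z, ez z a = ez z b → a = b := by
    intro a b hab
    rw [← cz_ez hzp a, ← cz_ez hzp b, hab]
  have hgen : ∀ a : H →L[ℂ] H, a ∈ M → star a = a → a * a = z → ez z (cz z a) = a := by
    intro a haM hsa haa
    have h1 : (a - z * a) * star (a - z * a) = 0 := by
      have hsz : star z = z := hzp.isSelfAdjoint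
      rw [star_sub, star_mul, hsa, hsz]
      have hza : z * a = a * z := hzc a haM
      calc (a - z * a) * (a - a * z) = a * a - a * a * z - z * (a * a) + z * (a * a) * z := by
            noncomm_ring
        _ = 0 := by
            rw [haa, hzz, hzz]
            noncomm_ring
    have h2 : a - z * a = 0 := CStarRing.mul_star_self_eq_zero_iff _ |>.mp h1
    have h3 : z * a = a := (sub_eq_zero.mp h2).symm
    rw [ez_cz hzp, h3, ← hzc a haM, h3]
  have hgX : ∀ n, ez z (cz z (X n)) = X n := fun n => hgen _ (hX n).1 (hX n).2.1 (hX n).2.2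
  have hgZ : ∀ n, ez z (cz z (Z n)) = Z n := fun n => hgen _ (hZ n).1 (hZ n).2.1 (hZ n).2.2
  have hap : ∀ (y : Kz z →L[ℂ] Kz z) (i : ℕ), ‖y (Wz z (ξ i))‖ = ‖ez z y (ξ i)‖ := by
    intro y i
    rfl
  have hcz1 : cz z 1 = 1 := by
    ext u
    show ((Wz z (Vz z u) : Kz z) : H) = (u : H)
    rw [WV hzp]
  refine ⟨fun i => Wz z (ξ i), fun n => cz z (X n), fun n => cz z (Z n), ⟨?_, ?_, ?_⟩, ?_, ?_⟩
  · -- one
    have h1 : ∀ i, ‖Wz z (ξ i)‖ = ‖ξ i‖ := by
      intro i
      have h2 : ‖Wz z (ξ i)‖ = ‖Vz z (Wz z (ξ i))‖ := rfl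
      rw [h2, VW hzp, hzξ]
    simpa only [h1] using hone
  · -- trace
    intro x hx
    have h1 := htr (ez z x) ((hN x).mp hx)
    rw [← ez_star] at h1
    exact h1
  · -- faithful
    intro x hx h0
    have h1 : ez z x = 0 := by
      refine hfaith (ez z x) ((hN x).mp hx) (z_ez hzp x).1 fun i => ?_
      show Vz z (x (Wz z (ξ i))) = 0
      rw [h0 i, map_zero]
    rw [← cz_ez hzp x, h1]
    ext u
    show ((Wz z ((0 : H →L[ℂ] H) (Vz z u)) : Kz z) : H) = 0
    simp
  · -- spin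
    constructor
    · intro i
      rw [hN, hgX]
      exact (hX i).1
    · intro i
      rw [hN, hgZ]
      exact (hZ i).1
    · intro i
      apply hinj
      rw [ez_star, hgX]
      exact (hX i).2.1
    · intro i
      apply hinj
      rw [ez_star, hgZ]
      exact (hZ i).2.1
    · intro i
      apply hinj
      rw [ez_mul hzp, hgX, ez_one hzp]
      exact (hX i).2.2
    · intro i
      apply hinj
      rw [ez_mul hzp, hgZ, ez_one hzp]
      exact (hZ i).2.2
    · intro i
      apply hinj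
      rw [ez_mul hzp, hgX, hgZ, C1_neg, ez_mul hzp, hgX, hgZ]
      exact hanti i
    · intro i j
      apply hinj
      rw [ez_mul hzp, ez_mul hzp, hgX, hgX]
      exact (hcomm i j).1
    · intro i j
      apply hinj
      rw [ez_mul hzp, ez_mul hzp, hgZ, hgZ]
      exact (hcomm i j).2.1
    · intro i j hij
      apply hinj
      rw [ez_mul hzp, ez_mul hzp, hgX, hgZ]
      exact (hcomm i j).2.2 hij
  · -- dense
    intro x hx ε hε
    obtain ⟨y, hy, hlt⟩ := hdense (ez z x) ((hN x).mp hx) (ε ^ 2) (by positivity)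
    have hadj : z * y = y * z ∧ cz z y ∈ Algebra.adjoin ℂ
        (Set.range (fun n => cz z (X n)) ∪ Set.range (fun n => cz z (Z n))) := by
      clear hlt
      induction hy using Algebra.adjoin_induction with
      | mem a ha =>
        rcases ha with ⟨n, rfl⟩ | ⟨n, rfl⟩
        · exact ⟨hzc _ (hX n).1, Algebra.subset_adjoin (Or.inl ⟨n, rfl⟩)⟩
        · exact ⟨hzc _ (hZ n).1, Algebra.subset_adjoin (Or.inr ⟨n, rfl⟩)⟩
      | algebraMap r =>
        refine ⟨(Algebra.commutes r z).symm, ?_⟩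
        have h1 : cz z (algebraMap ℂ (H →L[ℂ] H) r) = algebraMap ℂ (Kz z →L[ℂ] Kz z) r := by
          rw [Algebra.algebraMap_eq_smul_one, Algebra.algebraMap_eq_smul_one, ← hcz1]
          ext u
          show ((Wz z (r • Vz z u) : Kz z) : H) = ((r • Wz z (Vz z u) : Kz z) : H)
          rw [map_smul]
        rw [h1]
        exact Subalgebra.algebraMap_mem _ r
      | add a b _ _ iha ihb =>
        refine ⟨by rw [mul_add, add_mul, iha.1, ihb.1], ?_⟩
        have h1 : cz z (a + b) = cz z a + cz z b := by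
          ext u
          show ((Wz z (a (Vz z u) + b (Vz z u)) : Kz z) : H) =
            ((Wz z (a (Vz z u)) + Wz z (b (Vz z u)) : Kz z) : H)
          rw [map_add]
        rw [h1]
        exact add_mem iha.2 ihb.2
      | mul a b _ _ iha ihb =>
        refine ⟨by rw [← mul_assoc, iha.1, mul_assoc, ihb.1, mul_assoc], ?_⟩
        rw [cz_mul hzp a b ihb.1]
        exact mul_mem iha.2 ihb.2
    refine ⟨cz z y, hadj.2, ?_⟩
    unfold n2
    rw [Real.sqrt_lt' hε]
    have hsum : Summable fun i => ‖(ez z x - y) (ξ i)‖ ^ 2 := by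
      refine Summable.of_nonneg_of_le (fun i => by positivity) (fun i => ?_)
        (hone.summable.mul_left (‖ez z x - y‖ ^ 2))
      calc ‖(ez z x - y) (ξ i)‖ ^ 2 ≤ (‖ez z x - y‖ * ‖ξ i‖) ^ 2 := by
            gcongr
            exact ContinuousLinearMap.le_opNorm _ _
        _ = ‖ez z x - y‖ ^ 2 * ‖ξ i‖ ^ 2 := by ring
    have hW : ‖Wz z‖ ≤ 1 := by
      unfold Wz
      rw [LinearIsometryEquiv.norm_map]
      exact Submodule.norm_subtypeL_le _
    have hle : ∀ i, ‖(x - cz z y) (Wz z (ξ i))‖ ^ 2 ≤ ‖(ez z x - y) (ξ i)‖ ^ 2 := by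
      intro i
      have h1 : (x - cz z y) (Wz z (ξ i)) = Wz z ((ez z x - y) (ξ i)) := by
        show x (Wz z (ξ i)) - Wz z (y (Vz z (Wz z (ξ i)))) =
          Wz z (Vz z (x (Wz z (ξ i))) - y (ξ i))
        rw [map_sub, WV hzp, VW hzp, hzξ]
      rw [h1]
      gcongr
      calc ‖Wz z ((ez z x - y) (ξ i))‖ ≤ ‖Wz z‖ * ‖(ez z x - y) (ξ i)‖ :=
            ContinuousLinearMap.le_opNorm _ _
        _ ≤ 1 * ‖(ez z x - y) (ξ i)‖ := by gcongr
        _ = ‖(ez z x - y) (ξ i)‖ := one_mul _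
    have hsum' : Summable fun i => ‖(x - cz z y) (Wz z (ξ i))‖ ^ 2 :=
      Summable.of_nonneg_of_le (fun i => by positivity) hle hsum
    exact lt_of_le_of_lt (hsum'.tsum_le_tsum hle hsum) hlt

end Pool.Agent.HFT
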