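import Pool.Agent.HFT.Cut

set_option autoImplicit false
set_option linter.unusedSectionVars false

/-! # Module Dn (2 points): bounded derivations are normal

`der_tendsto`: `y m` bounded by `C`, `n2 (y m) → 0`; claim `⟪b, θ (y m) a⟫ → 0`. Let `ε > 0`
and `η > 0` with `2 η ‖θ‖ ‖a‖ ‖b‖ ≤ ε / 2`. `TrF.cut` gives for each `m` a projection `q m ∈ N` with
`‖y m - q y m q‖ ≤ 2 η`, `η² n2 (q m)² ≤ 2 n2 (y m)²`, so `n2 (q m) → 0` and `q m v → 0` for all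
`v` (`TrF.sot`, `‖q m‖ ≤ 1`). Let `u m = q m y m q m`, `‖u m‖ ≤ C`, `u = q u q`. The derivation
identity gives `θ u = θ (q * (u * q)) = q θ(u q) + θ(q) u q = q u θ(q) + q θ(u) q + θ(q) u q`. So
`⟪b, θ(u) a⟫ = ⟪q b, u θ(q) a⟫ + ⟪q b, θ(u) q a⟫ + ⟪b, θ(q) u q a⟫`, bounded by
`‖q b‖ C ‖θ‖ ‖a‖ + ‖q b‖ ‖θ‖ C ‖a‖ + ‖b‖ ‖θ‖ C ‖q a‖ → 0`.

`der_zero`: if `θ (y m) = 0` for all `m`, `y m` bounded, `n2 (y m - x) → 0`, then
`⟪b, θ x a⟫ = -⟪b, θ (y m - x) a⟫ → 0`, so `θ x = 0`. -/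

namespace Pool.Agent.HFT

open Pool.Agent.HK Filter Topology

variable {H : Type} [NormedAddCommGroup H] [InnerProductSpace ℂ H] [CompleteSpace H]
variable {N : VonNeumannAlgebra H} {ξ : ℕ → H}

private theorem dn_sq {a b : ℝ} (ha : 0 ≤ a) (hb : 0 ≤ b) (h : a ^ 2 ≤ 2 * b ^ 2) :
    a ≤ 2 * b := by
  have h1 : a ^ 2 ≤ (2 * b) ^ 2 := by nlinarith [sq_nonneg b]
  exact (pow_le_pow_iff_left₀ ha (by positivity) two_ne_zero).mp h1

private theorem dn_op {A : H →L[ℂ] H} {c : ℝ} (h : ‖A‖ ≤ c) (v : H) : ‖A v‖ ≤ c * ‖v‖ :=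
  le_trans (A.le_opNorm v) (mul_le_mul_of_nonneg_right h (norm_nonneg _))

theorem der_tendsto (T : TrF N ξ) (θ : RA N →L[ℂ] (H →L[ℂ] H))
    (hθ : ∀ x y, θ (x * y) = x.1 * θ y + θ x * y.1) (y : ℕ → RA N) (C : ℝ)
    (hC : ∀ m, ‖y m‖ ≤ C) (hy : Tendsto (fun m => n2 ξ (y m).1) atTop (𝓝 0)) (a b : H) :
    Tendsto (fun m => (inner ℂ b (θ (y m) a) : ℂ)) atTop (𝓝 0) := by
  have hC0 : 0 ≤ C := le_trans (norm_nonneg _) (hC 0)
  obtain ⟨K, hK⟩ : ∃ K : ℝ, K = ‖θ‖ * ‖a‖ * ‖b‖ := ⟨_, rfl⟩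
  have hK0 : 0 ≤ K := by rw [hK]; positivity
  rw [Metric.tendsto_atTop]
  intro ε hε
  obtain ⟨η, hη, hη2⟩ : ∃ η : ℝ, 0 < η ∧ 2 * η * K ≤ ε / 2 := by
    refine ⟨ε / (4 * (K + 1)), by positivity, ?_⟩
    have h0 : 2 * (ε / (4 * (K + 1))) * K = (ε / 2) * (K / (K + 1)) := by field_simp; ring
    rw [h0]
    have h1 : K / (K + 1) ≤ 1 := by rw [div_le_one (by positivity)]; linarith
    nlinarith
  have hcut : ∀ m, ∃ q, PJ N q ∧ ‖(y m).1 - q * (y m).1 * q‖ ≤ 2 * η ∧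
      η ^ 2 * n2 ξ q ^ 2 ≤ 2 * n2 ξ (y m).1 ^ 2 := fun m => T.cut (y m).1 (y m).2 η hη
  choose q hq hq1 hq2 using hcut
  have hQn : ∀ m, ‖q m‖ ≤ 1 := fun m => IsStarProjection.norm_le _ (hq m).2
  have hn2 : Tendsto (fun m => n2 ξ (q m)) atTop (𝓝 0) := by
    have h1 : ∀ m, n2 ξ (q m) ≤ 2 / η * n2 ξ (y m).1 := by
      intro m
      have h2 := dn_sq (a := η * n2 ξ (q m)) (b := n2 ξ (y m).1)
        (mul_nonneg hη.le (n2_nonneg _ _)) (n2_nonneg _ _) (by rw [mul_pow]; exact hq2 m)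
      rw [div_mul_eq_mul_div, le_div_iff₀ hη]
      linarith
    have h3 : Tendsto (fun m => 2 / η * n2 ξ (y m).1) atTop (𝓝 0) := by
      simpa using hy.const_mul (2 / η)
    exact squeeze_zero (fun m => n2_nonneg _ _) h1 h3
  have hqb := T.sot q (fun m => (hq m).1) 1 hQn hn2 b
  have hqa := T.sot q (fun m => (hq m).1) 1 hQn hn2 a
  have hstar : ∀ m (v w : H), (inner ℂ v (q m w) : ℂ) = inner ℂ (q m v) w := by
    intro m v w
    have h1 : star (q m) = q m := (hq m).2.isSelfAdjoint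
    rw [← ContinuousLinearMap.adjoint_inner_left, ← ContinuousLinearMap.star_eq_adjoint, h1]
  obtain ⟨Q, hQ⟩ : ∃ Q : ℕ → RA N, ∀ m, (Q m).1 = q m := ⟨fun m => ⟨q m, (hq m).1⟩, fun m => rfl⟩
  obtain ⟨U, hU⟩ : ∃ U : ℕ → RA N, ∀ m, U m = Q m * (y m * Q m) := ⟨_, fun m => rfl⟩
  have hU1 : ∀ m, (U m).1 = q m * ((y m).1 * q m) := by
    intro m
    rw [hU]
    show (Q m).1 * ((y m).1 * (Q m).1) = _
    rw [hQ]
  have hidem : ∀ m, q m * q m = q m := fun m => (hq m).2.isIdempotentElem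
  have hQQ : ∀ m, Q m * Q m = Q m := by
    intro m
    apply Subtype.ext
    show (Q m).1 * (Q m).1 = (Q m).1
    rw [hQ]; exact hidem m
  have hUQ : ∀ m, U m * Q m = U m := by
    intro m
    rw [hU, mul_assoc, mul_assoc, hQQ]
  have hQU : ∀ m, Q m * U m = U m := by
    intro m
    rw [hU, ← mul_assoc, hQQ]
  have hUn : ∀ m, ‖(U m).1‖ ≤ C := by
    intro m
    rw [hU1]
    have h1 : ‖(y m).1‖ ≤ C := hC m
    calc ‖q m * ((y m).1 * q m)‖ ≤ ‖q m‖ * ‖(y m).1 * q m‖ := norm_mul_le _ _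
      _ ≤ ‖q m‖ * (‖(y m).1‖ * ‖q m‖) := by gcongr; exact norm_mul_le _ _
      _ ≤ 1 * (C * 1) := by
        have h2 := hQn m
        gcongr
      _ = C := by ring
  have hθQ : ∀ m, ‖θ (Q m)‖ ≤ ‖θ‖ := by
    intro m
    have h1 : ‖Q m‖ ≤ 1 := by
      have : ‖Q m‖ = ‖(Q m).1‖ := rfl
      rw [this, hQ]; exact hQn m
    calc ‖θ (Q m)‖ ≤ ‖θ‖ * ‖Q m‖ := θ.le_opNorm _
      _ ≤ ‖θ‖ * 1 := by gcongr
      _ = ‖θ‖ := mul_one _
  have hθU : ∀ m, ‖θ (U m)‖ ≤ ‖θ‖ * C := by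
    intro m
    have h1 : ‖U m‖ ≤ C := hUn m
    calc ‖θ (U m)‖ ≤ ‖θ‖ * ‖U m‖ := θ.le_opNorm _
      _ ≤ ‖θ‖ * C := by gcongr
  have hexp : ∀ m, θ (U m) a = q m ((U m).1 (θ (Q m) a)) + q m (θ (U m) (q m a)) +
      θ (Q m) ((U m).1 (q m a)) := by
    intro m
    have e1 : θ (U m) = q m * θ (U m) + θ (Q m) * (U m).1 := by
      have := hθ (Q m) (U m)
      rw [hQU, hQ] at this
      exact this
    have e2 : θ (U m) = (U m).1 * θ (Q m) + θ (U m) * q m := by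
      have := hθ (U m) (Q m)
      rw [hUQ, hQ] at this
      exact this
    have e3 : (U m).1 = (U m).1 * q m := by
      have := congrArg Subtype.val (hUQ m)
      have h4 : (U m * Q m).1 = (U m).1 * (Q m).1 := rfl
      rw [h4, hQ] at this
      exact this.symm
    have s1 : θ (U m) a = q m (θ (U m) a) + θ (Q m) ((U m).1 a) := by
      have := congrArg (fun A : H →L[ℂ] H => A a) e1
      simpa using this
    have s2 : θ (U m) a = (U m).1 (θ (Q m) a) + θ (U m) (q m a) := by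
      have := congrArg (fun A : H →L[ℂ] H => A a) e2
      simpa using this
    have s3 : (U m).1 a = (U m).1 (q m a) := by
      have := congrArg (fun A : H →L[ℂ] H => A a) e3
      simpa using this
    calc θ (U m) a = q m (θ (U m) a) + θ (Q m) ((U m).1 a) := s1
      _ = q m ((U m).1 (θ (Q m) a) + θ (U m) (q m a)) + θ (Q m) ((U m).1 (q m a)) := by
        rw [← s2, s3]
      _ = _ := by rw [map_add]
  have hbd : ∀ m, ‖(inner ℂ b (θ (U m) a) : ℂ)‖ ≤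
      ‖q m b‖ * (2 * (C * (‖θ‖ * ‖a‖))) + ‖b‖ * (‖θ‖ * C) * ‖q m a‖ := by
    intro m
    rw [hexp, inner_add_right, inner_add_right, hstar, hstar]
    have n1 : ‖(inner ℂ (q m b) ((U m).1 (θ (Q m) a)) : ℂ)‖ ≤ ‖q m b‖ * (C * (‖θ‖ * ‖a‖)) := by
      refine le_trans (norm_inner_le_norm _ _) ?_
      have h1 := dn_op (hUn m) (θ (Q m) a)
      have h2 := dn_op (hθQ m) a
      have h3 : ‖(U m).1 (θ (Q m) a)‖ ≤ C * (‖θ‖ * ‖a‖) := le_trans h1 (by gcongr)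
      gcongr
    have n2' : ‖(inner ℂ (q m b) (θ (U m) (q m a)) : ℂ)‖ ≤ ‖q m b‖ * (C * (‖θ‖ * ‖a‖)) := by
      refine le_trans (norm_inner_le_norm _ _) ?_
      have h1 := dn_op (hθU m) (q m a)
      have h2 := dn_op (hQn m) a
      have h3 : ‖θ (U m) (q m a)‖ ≤ C * (‖θ‖ * ‖a‖) := by
        calc ‖θ (U m) (q m a)‖ ≤ ‖θ‖ * C * ‖q m a‖ := h1
          _ ≤ ‖θ‖ * C * (1 * ‖a‖) := by gcongr
          _ = C * (‖θ‖ * ‖a‖) := by ring
      gcongr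
    have n3 : ‖(inner ℂ b (θ (Q m) ((U m).1 (q m a))) : ℂ)‖ ≤ ‖b‖ * (‖θ‖ * C) * ‖q m a‖ := by
      refine le_trans (norm_inner_le_norm _ _) ?_
      have h1 := dn_op (hθQ m) ((U m).1 (q m a))
      have h2 := dn_op (hUn m) (q m a)
      have h3 : ‖θ (Q m) ((U m).1 (q m a))‖ ≤ ‖θ‖ * (C * ‖q m a‖) := le_trans h1 (by gcongr)
      calc ‖b‖ * ‖θ (Q m) ((U m).1 (q m a))‖ ≤ ‖b‖ * (‖θ‖ * (C * ‖q m a‖)) := by gcongr
        _ = ‖b‖ * (‖θ‖ * C) * ‖q m a‖ := by ring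
    refine le_trans (norm_add_le _ _) ?_
    have n4 := norm_add_le (inner ℂ (q m b) ((U m).1 (θ (Q m) a)) : ℂ)
      (inner ℂ (q m b) (θ (U m) (q m a)) : ℂ)
    linarith
  have hlim : Tendsto (fun m => ‖q m b‖ * (2 * (C * (‖θ‖ * ‖a‖))) +
      ‖b‖ * (‖θ‖ * C) * ‖q m a‖) atTop (𝓝 0) := by
    have l1 : Tendsto (fun m => ‖q m b‖) atTop (𝓝 0) := by simpa using hqb.norm
    have l2 : Tendsto (fun m => ‖q m a‖) atTop (𝓝 0) := by simpa using hqa.norm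
    have := (l1.mul_const (2 * (C * (‖θ‖ * ‖a‖)))).add (l2.const_mul (‖b‖ * (‖θ‖ * C)))
    simpa using this
  obtain ⟨m₀, hm₀⟩ := (Metric.tendsto_atTop.mp hlim) (ε / 2) (by positivity)
  refine ⟨m₀, fun m hm => ?_⟩
  have f1 := hm₀ m hm
  rw [Real.dist_eq, sub_zero] at f1
  have f2 := lt_of_le_of_lt (hbd m) (lt_of_le_of_lt (le_abs_self _) f1)
  rw [dist_zero_right]
  have f3 : (inner ℂ b (θ (y m) a) : ℂ) = inner ℂ b (θ (y m - U m) a) +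
      inner ℂ b (θ (U m) a) := by
    rw [← inner_add_right]
    congr 1
    rw [map_sub]
    simp
  have f4 : ‖y m - U m‖ ≤ 2 * η := by
    have e : ‖y m - U m‖ = ‖(y m).1 - (U m).1‖ := rfl
    rw [e, hU1, ← mul_assoc]
    exact hq1 m
  have f5 : ‖(inner ℂ b (θ (y m - U m) a) : ℂ)‖ ≤ ε / 2 := by
    refine le_trans (norm_inner_le_norm _ _) ?_
    have g1 : ‖θ (y m - U m)‖ ≤ ‖θ‖ * (2 * η) := le_trans (θ.le_opNorm _) (by gcongr)
    have g2 := dn_op g1 a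
    calc ‖b‖ * ‖θ (y m - U m) a‖ ≤ ‖b‖ * (‖θ‖ * (2 * η) * ‖a‖) := by gcongr
      _ = 2 * η * K := by rw [hK]; ring
      _ ≤ ε / 2 := hη2
  rw [f3]
  refine lt_of_le_of_lt (norm_add_le _ _) ?_
  linarith

theorem der_zero (T : TrF N ξ) (θ : RA N →L[ℂ] (H →L[ℂ] H))
    (hθ : ∀ x y, θ (x * y) = x.1 * θ y + θ x * y.1) (y : ℕ → RA N) (x : RA N) (C : ℝ)
    (hC : ∀ m, ‖y m‖ ≤ C) (hy : Tendsto (fun m => n2 ξ ((y m).1 - x.1)) atTop (𝓝 0))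
    (h0 : ∀ m, θ (y m) = 0) : θ x = 0 := by
  have hT := der_tendsto T θ hθ (fun m => y m - x) (C + ‖x‖)
    (fun m => le_trans (norm_sub_le _ _) (by have := hC m; linarith)) hy
  ext a
  show θ x a = 0
  have h1 := hT a (θ x a)
  have h2 : (fun m => (inner ℂ (θ x a) (θ (y m - x) a) : ℂ)) =
      fun _ => -(inner ℂ (θ x a) (θ x a) : ℂ) := by
    funext m
    rw [map_sub, h0]
    simp
  simp only [h2] at h1
  have h3 := tendsto_nhds_unique h1 tendsto_const_nhds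
  have h4 : (inner ℂ (θ x a) (θ x a) : ℂ) = 0 := by
    have := h3.symm
    simpa using this
  exact inner_self_eq_zero.mp h4

end Pool.Agent.HFT
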