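import Pool.Agent.HFT.Cv

set_option autoImplicit false
set_option linter.unusedSectionVars false

/-! # Module H1 (3 points): the theorem of squads HK, HKD for commutative algebras

`pieceSum_of_comm`: take `z 0 = 1` and `z (j+1) = 0`: `1` is homogeneous of finite type I with
`k = 1`, `e = 1` (all `a, b ∈ D` commute); `0` is properly infinite (`v = w = 0`). The sum `∑ z j x`
is `x` (`hasSum_single 0`). `IsCentralProj`: `D` is commutative.

`ab_split`: apply `hkd_vn_main` (HKD/Final2) with `M := D`, `X := KK H`, `n = 0`, to the list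
cochain `φ [z] = z b - b z`, `φ l = 0` for other lengths: `Coch (KK H) 1 (2 ‖b‖) φ`; it is a cocycle
since it is `D ψ₀` on all lists, `ψ₀ [] = b`, `ψ₀ l = 0` otherwise (`D_D`). Get `ψ` of degree zero with
`D ψ = φ`: `κ = ψ []` is compact, `z κ - κ z = z b - b z`.

`ab_h2`: `hkd_vn_main` with `n = 1` for `fl2 φ` (`fl2_coch`, `fl2_cocycle`), then `clm1`, `D_one`. -/

namespace Pool.Agent.HFT

open Pool.Agent.HK Filter Topology

variable {H : Type} [NormedAddCommGroup H] [InnerProductSpace ℂ H] [CompleteSpace H]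

theorem pieceSum_of_comm (D : VonNeumannAlgebra H) (hD : ∀ x ∈ D, ∀ y ∈ D, x * y = y * x) :
    IsPieceSum D := by
  refine ⟨fun j => if j = 0 then 1 else 0, ?_, ?_, ?_, ?_⟩
  · intro j
    by_cases hj : j = 0
    · simp only [hj, if_true]
      exact ⟨one_mem D, IsStarProjection.one _, fun a _ => by rw [one_mul, mul_one]⟩
    · simp only [hj, if_false]
      exact ⟨zero_mem D, IsStarProjection.zero _, fun a _ => by rw [zero_mul, mul_zero]⟩
  · intro i j hij
    by_cases hi : i = 0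
    · have hj : j ≠ 0 := fun h => hij (hi.trans h.symm)
      simp [hi, hj]
    · simp [hi]
  · intro x
    have h := hasSum_single (f := fun j : ℕ => (if j = 0 then (1 : H →L[ℂ] H) else 0) x) 0
      (fun j hj => by simp [hj])
    simpa using h
  · intro j
    by_cases hj : j = 0
    · right; left
      simp only [hj, if_true]
      refine ⟨1, fun _ _ => 1, fun _ _ => one_mem D, fun _ _ => star_one _, ?_, by simp, ?_⟩
      · intro i j l m
        simp [Subsingleton.elim j l]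
      · intro i a ha b hb
        simp only [one_mul, mul_one]
        exact hD a ha b hb
    · left
      simp only [hj, if_false]
      exact ⟨0, zero_mem D, 0, zero_mem D, by simp, by simp, by simp⟩

/-- the cochain of degree zero with value `b` -/
noncomputable def H1z {D : VonNeumannAlgebra H} (b : H →L[ℂ] H) : List (RA D) → (H →L[ℂ] H)
  | [] => b
  | _ => 0

theorem H1_D {D : VonNeumannAlgebra H} (b : H →L[ℂ] H) (l : List (RA D)) :
    fl1 (cR b (iL D) - cL b (iL D)) l = Pool.Agent.HK.D (io D) (H1z b) l := by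
  match l with
  | [] => rfl
  | [x] =>
    rw [D_cons, E_one]
    rfl
  | x :: y :: t =>
    rw [D_supp (io D) 0 (H1z b) (fun l hl => ?_) _ (by simp)]
    · rfl
    · match l with
      | [] => exact absurd rfl hl
      | _ :: _ => rfl

theorem H1_KT (n : ℕ) : 0 ≤ KT n := by
  have h1 := KN_nonneg n
  have h2 := C1_nonneg n
  have h3 := KH_nonneg n
  unfold KT
  positivity

theorem H1_K (D : VonNeumannAlgebra H) : ∀ a ∈ D, ∀ x ∈ KK H, a * x ∈ KK H ∧ x * a ∈ KK H :=
  fun a _ x hx => KK_mul a x hx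

theorem ab_split (D : VonNeumannAlgebra H) (hD : ∀ x ∈ D, ∀ y ∈ D, x * y = y * x)
    (b : H →L[ℂ] H) (hb : ∀ z ∈ D, IsCompactOperator (z * b - b * z)) :
    ∃ κ : H →L[ℂ] H, IsCompactOperator κ ∧ ∀ z ∈ D, z * (b - κ) = (b - κ) * z := by
  have hc : Coch (KK H) 1 ‖cR b (iL D) - cL b (iL D)‖ (fl1 (cR b (iL D) - cL b (iL D))) :=
    fl1_coch _ fun x => hb x.1 x.2
  have hcy : ∀ l, Pool.Agent.HK.D (io D) (fl1 (cR b (iL D) - cL b (iL D))) l = 0 := by
    have e : (fl1 (cR b (iL D) - cL b (iL D)) : List (RA D) → (H →L[ℂ] H)) =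
        Pool.Agent.HK.D (io D) (H1z b) := funext (H1_D b)
    intro l
    rw [e, D_D]
  obtain ⟨ψ, h1, h2⟩ := hkd_vn_main (n := 0) D (pieceSum_of_comm D hD) (KK H) KK_closed
    (fun x hx => hx) (H1_K D) (norm_nonneg _) hc hcy
  refine ⟨ψ [], h1.val [], fun z hz => ?_⟩
  have h3 := h2 [⟨z, hz⟩]
  rw [D_cons, E_one] at h3
  have h4 : z * ψ [] - ψ [] * z = z * b - b * z := h3
  rw [mul_sub, sub_mul]
  have h5 : z * b = z * ψ [] - ψ [] * z + b * z := by rw [h4]; abel
  rw [h5]; abel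

theorem ab_h2 (D : VonNeumannAlgebra H) (hD : ∀ x ∈ D, ∀ y ∈ D, x * y = y * x)
    (φ : RA D →L[ℂ] RA D →L[ℂ] (H →L[ℂ] H)) (hK : ∀ x y, IsCompactOperator (φ x y))
    (h : ∀ x y z, x.1 * φ y z - φ (x * y) z + φ x (y * z) - φ x y * z.1 = 0) :
    ∃ ψ : RA D →L[ℂ] (H →L[ℂ] H), (∀ x, IsCompactOperator (ψ x)) ∧ ‖ψ‖ ≤ 2 * KT 1 * ‖φ‖ ∧
      ∀ x y, φ x y = x.1 * ψ y - ψ (x * y) + ψ x * y.1 := by
  obtain ⟨ψ, h1, h2⟩ := hkd_vn_main (n := 1) D (pieceSum_of_comm D hD) (KK H) KK_closed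
    (fun x hx => hx) (H1_K D) (norm_nonneg φ) (fl2_coch φ hK) (fl2_cocycle φ h)
  have hK1 : 0 ≤ KT 1 * ‖φ‖ * 2 := by
    have := H1_KT 1
    have := norm_nonneg φ
    positivity
  obtain ⟨Ψ, h3, h4⟩ := clm1 hK1 h1
  refine ⟨Ψ, fun x => ?_, h4.trans (le_of_eq (by ring)), fun x y => ?_⟩
  · rw [h3]; exact h1.val _
  · rw [h3, h3, h3, ← D_one, h2]
    rfl

end Pool.Agent.HFT
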