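import Pool.Agent.HFT.Defs

set_option autoImplicit false
set_option linter.unusedSectionVars false

/-! # Module Lim (3 points): ultralimits of bounded sequences of operators

`U = Filter.hyperfilter ℕ` (an ultrafilter, `≤ atTop`/cofinite: `Filter.hyperfilter_le_atTop` or
`Nat.hyperfilter_le_atTop`). A bounded sequence `f` of complex numbers converges along `U`
(compactness of the closed ball: `IsCompact.ultrafilter_le_nhds` applied to `U.map f`).
For a sequence `S` of operators with `‖S k‖ ≤ C` the limit of `⟪b, S k a⟫` along `U` is a bounded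
sesquilinear form, which defines the operator `uL S` (Riesz, as in module Op). For unbounded `S`
put `uL S = 0`. The definition is by choice from `uL_exists`; prove the other statements from
uniqueness of limits along `U` (`tendsto_nhds_unique`, `U` is `NeBot`), comparing matrix
elements (`ext_inner_left`). `uL_norm`: `|⟪b, uL S a⟫| ≤ C ‖a‖ ‖b‖` as a limit of such
numbers; `ContinuousLinearMap.opNorm_le_bound` with `b = uL S a`. `uL_congr`: sequences which are
eventually equal have the same limits, as `U ≤ atTop`. -/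

namespace Pool.Agent.HFT

open Pool.Agent.HK Filter Topology

variable {H : Type} [NormedAddCommGroup H] [InnerProductSpace ℂ H] [CompleteSpace H]

private theorem lim_aux (f : ℕ → ℂ) (C : ℝ) (h : ∀ k, ‖f k‖ ≤ C) :
    ∃ l : ℂ, Tendsto f (hyperfilter ℕ : Filter ℕ) (𝓝 l) := by
  have hc : IsCompact (Metric.closedBall (0 : ℂ) C) := isCompact_closedBall 0 C
  have hm : ((hyperfilter ℕ).map f : Filter ℂ) ≤ 𝓟 (Metric.closedBall (0 : ℂ) C) := by
    rw [le_principal_iff, Ultrafilter.coe_map, mem_map]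
    refine Filter.univ_mem' fun k => ?_
    simpa using h k
  obtain ⟨l, -, hl⟩ := hc.ultrafilter_le_nhds _ hm
  exact ⟨l, hl⟩

private theorem lim_bd {f : ℕ → ℂ} {l : ℂ} {C : ℝ} (h : ∀ k, ‖f k‖ ≤ C)
    (hl : Tendsto f (hyperfilter ℕ : Filter ℕ) (𝓝 l)) : ‖l‖ ≤ C :=
  le_of_tendsto hl.norm (Filter.Eventually.of_forall h)

private theorem lim_inner_bd {S : ℕ → H →L[ℂ] H} {C : ℝ} (h : ∀ k, ‖S k‖ ≤ C) (a b : H) (k : ℕ) :
    ‖(inner ℂ b (S k a) : ℂ)‖ ≤ C * ‖b‖ * ‖a‖ := by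
  calc ‖(inner ℂ b (S k a) : ℂ)‖ ≤ ‖b‖ * ‖S k a‖ := norm_inner_le_norm _ _
    _ ≤ ‖b‖ * (C * ‖a‖) := by
        refine mul_le_mul_of_nonneg_left ?_ (norm_nonneg _)
        exact ((S k).le_opNorm a).trans (mul_le_mul_of_nonneg_right (h k) (norm_nonneg _))
    _ = C * ‖b‖ * ‖a‖ := by ring

theorem uL_exists (S : ℕ → H →L[ℂ] H) : ∃ L : H →L[ℂ] H, ∀ C : ℝ, (∀ k, ‖S k‖ ≤ C) →
    ∀ a b : H, Tendsto (fun k => (inner ℂ b (S k a) : ℂ)) (hyperfilter ℕ : Filter ℕ)
      (𝓝 (inner ℂ b (L a))) := by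
  by_cases hS : ∃ C : ℝ, ∀ k, ‖S k‖ ≤ C
  · obtain ⟨C, hC⟩ := hS
    have h1 : ∀ b a : H, ∃ l : ℂ, Tendsto (fun k => (inner ℂ b (S k a) : ℂ))
        (hyperfilter ℕ : Filter ℕ) (𝓝 l) := fun b a =>
      lim_aux _ (C * ‖b‖ * ‖a‖) (fun k => lim_inner_bd hC a b k)
    choose g hg using h1
    let f : H →ₗ⋆[ℂ] H →ₗ[ℂ] ℂ := LinearMap.mk₂'ₛₗ (starRingEnd ℂ) (RingHom.id ℂ) g
      (fun b b' a => by
        refine tendsto_nhds_unique (hg (b + b') a) ?_
        simpa only [inner_add_left] using (hg b a).add (hg b' a))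
      (fun c b a => by
        refine tendsto_nhds_unique (hg (c • b) a) ?_
        simpa only [inner_smul_left, smul_eq_mul] using (hg b a).const_mul (starRingEnd ℂ c))
      (fun b a a' => by
        refine tendsto_nhds_unique (hg b (a + a')) ?_
        simpa only [map_add, inner_add_right] using (hg b a).add (hg b a'))
      (fun c b a => by
        refine tendsto_nhds_unique (hg b (c • a)) ?_
        simpa only [map_smul, inner_smul_right, smul_eq_mul, RingHom.id_apply] using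
          (hg b a).const_mul c)
    have hf : ∀ b a, ‖f b a‖ ≤ C * ‖b‖ * ‖a‖ := fun b a =>
      lim_bd (fun k => lim_inner_bd hC a b k) (hg b a)
    let B : H →L⋆[ℂ] H →L[ℂ] ℂ := LinearMap.mkContinuous₂ f C hf
    refine ⟨ContinuousLinearMap.adjoint (InnerProductSpace.continuousLinearMapOfBilin B),
      fun _ _ a b => ?_⟩
    rw [ContinuousLinearMap.adjoint_inner_right,
      InnerProductSpace.continuousLinearMapOfBilin_apply]
    exact hg b a
  · exact ⟨0, fun C hC => absurd ⟨C, hC⟩ hS⟩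

/-- the ultralimit, in the weak operator topology, of a bounded sequence of operators -/
noncomputable def uL (S : ℕ → H →L[ℂ] H) : H →L[ℂ] H := (uL_exists S).choose

theorem uL_tendsto {S : ℕ → H →L[ℂ] H} {C : ℝ} (h : ∀ k, ‖S k‖ ≤ C) (a b : H) :
    Tendsto (fun k => (inner ℂ b (S k a) : ℂ)) (hyperfilter ℕ : Filter ℕ)
      (𝓝 (inner ℂ b (uL S a))) := (uL_exists S).choose_spec C h a b

private theorem lim_ext {S : ℕ → H →L[ℂ] H} {C : ℝ} (h : ∀ k, ‖S k‖ ≤ C) {L : H →L[ℂ] H}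
    (hL : ∀ a b : H, Tendsto (fun k => (inner ℂ b (S k a) : ℂ)) (hyperfilter ℕ : Filter ℕ)
      (𝓝 (inner ℂ b (L a)))) : uL S = L := by
  ext a
  refine ext_inner_left ℂ fun b => ?_
  exact tendsto_nhds_unique (uL_tendsto h a b) (hL a b)

theorem uL_norm {S : ℕ → H →L[ℂ] H} {C : ℝ} (h : ∀ k, ‖S k‖ ≤ C) : ‖uL S‖ ≤ C := by
  have hC : 0 ≤ C := (norm_nonneg _).trans (h 0)
  refine ContinuousLinearMap.opNorm_le_bound _ hC fun a => ?_
  have h1 : ‖(inner ℂ (uL S a) (uL S a) : ℂ)‖ ≤ C * ‖uL S a‖ * ‖a‖ :=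
    lim_bd (fun k => lim_inner_bd h a (uL S a) k) (uL_tendsto h a (uL S a))
  rw [inner_self_eq_norm_sq_to_K] at h1
  have h2 : ‖((‖uL S a‖ : ℂ)) ^ 2‖ = ‖uL S a‖ * ‖uL S a‖ := by
    rw [norm_pow, Complex.norm_real, norm_norm, sq]
  have h3 : ‖uL S a‖ * ‖uL S a‖ ≤ (C * ‖a‖) * ‖uL S a‖ := by
    rw [← h2]
    refine h1.trans_eq ?_
    ring
  rcases (norm_nonneg (uL S a)).eq_or_lt with h4 | h4
  · rw [← h4]
    positivity
  · exact le_of_mul_le_mul_right h3 h4

theorem uL_add {S S' : ℕ → H →L[ℂ] H} {C : ℝ} (h : ∀ k, ‖S k‖ ≤ C) (h' : ∀ k, ‖S' k‖ ≤ C) :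
    uL (fun k => S k + S' k) = uL S + uL S' := by
  refine lim_ext (C := C + C) (fun k => (norm_add_le _ _).trans (add_le_add (h k) (h' k)))
    fun a b => ?_
  simpa only [add_apply, inner_add_right] using
    (uL_tendsto h a b).add (uL_tendsto h' a b)

theorem uL_sub {S S' : ℕ → H →L[ℂ] H} {C : ℝ} (h : ∀ k, ‖S k‖ ≤ C) (h' : ∀ k, ‖S' k‖ ≤ C) :
    uL (fun k => S k - S' k) = uL S - uL S' := by
  refine lim_ext (C := C + C) (fun k => (norm_sub_le _ _).trans (add_le_add (h k) (h' k)))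
    fun a b => ?_
  simpa only [sub_apply, inner_sub_right] using
    (uL_tendsto h a b).sub (uL_tendsto h' a b)

theorem uL_smul {S : ℕ → H →L[ℂ] H} {C : ℝ} (h : ∀ k, ‖S k‖ ≤ C) (c : ℂ) :
    uL (fun k => c • S k) = c • uL S := by
  refine lim_ext (C := ‖c‖ * C) (fun k => ?_) fun a b => ?_
  · rw [norm_smul]
    exact mul_le_mul_of_nonneg_left (h k) (norm_nonneg _)
  · simpa only [smul_apply, inner_smul_right] using
      (uL_tendsto h a b).const_mul c

theorem uL_mul_left {S : ℕ → H →L[ℂ] H} {C : ℝ} (h : ∀ k, ‖S k‖ ≤ C) (c : H →L[ℂ] H) :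
    uL (fun k => c * S k) = c * uL S := by
  refine lim_ext (C := ‖c‖ * C) (fun k => ?_) fun a b => ?_
  · exact (norm_mul_le _ _).trans (mul_le_mul_of_nonneg_left (h k) (norm_nonneg _))
  · have h1 := uL_tendsto h a (ContinuousLinearMap.adjoint c b)
    simp only [ContinuousLinearMap.adjoint_inner_left] at h1
    exact h1

theorem uL_mul_right {S : ℕ → H →L[ℂ] H} {C : ℝ} (h : ∀ k, ‖S k‖ ≤ C) (c : H →L[ℂ] H) :
    uL (fun k => S k * c) = uL S * c := by
  refine lim_ext (C := C * ‖c‖) (fun k => ?_) fun a b => ?_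
  · exact (norm_mul_le _ _).trans (mul_le_mul_of_nonneg_right (h k) (norm_nonneg _))
  · exact uL_tendsto h (c a) b

theorem uL_congr {S S' : ℕ → H →L[ℂ] H} {C : ℝ} (h : ∀ k, ‖S k‖ ≤ C) (h' : ∀ k, ‖S' k‖ ≤ C)
    (k₀ : ℕ) (he : ∀ k, k₀ ≤ k → S k = S' k) : uL S = uL S' := by
  refine lim_ext h fun a b => ?_
  refine (uL_tendsto h' a b).congr' ?_
  have h1 : ∀ᶠ k in atTop, k₀ ≤ k := eventually_ge_atTop k₀
  have h2 : ∀ᶠ k in (hyperfilter ℕ : Filter ℕ), k₀ ≤ k := Nat.hyperfilter_le_atTop h1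
  filter_upwards [h2] with k hk
  rw [he k hk]

theorem uL_const (c : H →L[ℂ] H) : uL (fun _ => c) = c :=
  lim_ext (C := ‖c‖) (fun _ => le_rfl) fun _ _ => tendsto_const_nhds

end Pool.Agent.HFT
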