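import Pool.Agent.HFT.W4

set_option autoImplicit false
set_option linter.unusedSectionVars false

/-! # Module W5 (3 points): relative commutants

`relc M S` is the von Neumann algebra of all `x ∈ M` commuting with all `s ∈ S` and all
`star s`: it is the centralizer of `M.commutant ∪ S` (see `cen` in `HK/VN3` for the same
construction; `vn_mem_iff`).

Coefficients: if `x ∈ M` commutes with `X i` and `i ∈ s.2` then `ip (wd s) x = 0`:
`ip (wd s) x = ip (wd s) (X i x X i) = ip (X i wd s X i) x` (`ip_mul_left`, `TrF.ip_mul_right`)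
`= - ip (wd s) x` (`Spin.commX`). Same for `Z i` and `i ∈ s.1`.

* `Ek_commX`: `Ek k x` is a combination of words with nonzero coefficient, and these have
  `i ∉ s.2`, so commute with `X i`. `Ek_commZ` same.
* `eq_Ek_of_CP`: if `x` commutes with `X i`, `Z i` for all `i ≥ n`, then all coefficients outside
  `Qk n` vanish: `Hyp.eq_Ek`.
* `CP_comm`: `x ∈ M` commuting with all `X i`, `Z i`, `i ≥ n`, is a combination of words in `Qk n`
  (`eq_Ek_of_CP`); `y` commuting with `X i`, `Z i`, `i < n` commutes with the words of `Qk n`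
  (`pr_comm`).
* `diag_comm` (J arbitrary): `d ∈ M` commutes with all `Z i` and with `X i` for `i ∉ J`;
  `x` commutes with `Z j` for `j ∈ J`. Then `d x = x d`: the coefficient of `d` at `s` vanishes
  unless `s.1 = ∅` and `s.2 ⊆ J`; `wd (∅, b) = pr Z b` commutes with `x` for `b ⊆ J` (`pr_comm`);
  so `Ek k d` commutes with `x`; `Ek k d v → d v` strongly (`Hyp.Ek_sot`), pass to the limit.
* `D_comm`: the algebra of the elements commuting with all `Z i` is commutative: `diag_comm`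
  with `J = univ`. -/

namespace Pool.Agent.HFT

open Pool.Agent.HK Filter Topology

variable {H : Type} [NormedAddCommGroup H] [InnerProductSpace ℂ H] [CompleteSpace H]

/-- relative commutant of `S ∪ star S` in `M` -/
noncomputable def relc (M : VonNeumannAlgebra H) (S : Set (H →L[ℂ] H)) : VonNeumannAlgebra H where
  toStarSubalgebra := StarSubalgebra.centralizer ℂ (S ∪ M.commutant)
  centralizer_centralizer' := by simp

theorem mem_relc {M : VonNeumannAlgebra H} {S : Set (H →L[ℂ] H)} {x : H →L[ℂ] H} :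
    x ∈ relc M S ↔ x ∈ M ∧ ∀ s ∈ S, s * x = x * s ∧ star s * x = x * star s := by
  have h1 : x ∈ relc M S ↔ ∀ g ∈ (S ∪ M.commutant), g * x = x * g ∧
      star g * x = x * star g := StarSubalgebra.mem_centralizer_iff ℂ
  rw [h1]
  constructor
  · intro h
    constructor
    · rw [vn_mem_iff]
      intro y hy
      exact (h y (Or.inr hy)).1
    · intro s hs
      exact h s (Or.inl hs)
  · rintro ⟨h1, h2⟩ g (hg | hg)
    · exact h2 g hg
    · exact ⟨vn_commute h1 hg, vn_commute h1 (star_mem (hg : g ∈ M.commutant))⟩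

variable {M : VonNeumannAlgebra H} {ξ : ℕ → H} {X Z : ℕ → H →L[ℂ] H}

/-- vanishing of coefficients -/
private theorem W5_coef (T : TrF M ξ) {V w x : H →L[ℂ] H} (hV : V ∈ M) (hs : star V = V)
    (h2 : V * V = 1) (hw : w ∈ M) (hx : x ∈ M) (ha : V * w = -(w * V)) (hc : V * x = x * V) :
    ip ξ w x = 0 := by
  have e1 : V * (x * V) = x := by
    rw [← hc, ← mul_assoc, h2, one_mul]
  have h3 : ip ξ w x = ip ξ w (V * (x * V)) := by rw [e1]
  have h4 : ip ξ w (V * (x * V)) = ip ξ (V * w) (x * V) := by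
    rw [ip_mul_left, hs]
  have h5 : ip ξ (V * w) (x * V) = ip ξ (V * w * V) x := by
    rw [T.ip_mul_right (mul_mem hV hw) hx hV, hs]
  have h6 : V * w * V = (-1 : ℂ) • w := by
    rw [ha, neg_mul, mul_assoc, h2, mul_one, neg_smul, one_smul]
  have h7 : ip ξ ((-1 : ℂ) • w) x = -1 * ip ξ w x := by
    rw [← ip_conj, ip_smul, map_mul, ip_conj]
    simp
  have h8 : ip ξ w x = -1 * ip ξ w x := by
    rw [← h7, ← h6, ← h5, ← h4, ← h3]
  have h9 : (2 : ℂ) * ip ξ w x = 0 := by linear_combination h8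
  exact (mul_eq_zero.1 h9).resolve_left two_ne_zero

private theorem W5_coefX (A : Hyp M ξ X Z) {x : H →L[ℂ] H} (hx : x ∈ M) {i : ℕ}
    (h : X i * x = x * X i) {s : Finset ℕ × Finset ℕ} (hi : i ∈ s.2) :
    ip ξ (wd X Z s) x = 0 :=
  W5_coef A.trf (A.spin.Xm i) (A.spin.Xs i) (A.spin.X2 i) (A.spin.mem_wd s) hx
    ((A.spin.commX i s).2 hi) h

private theorem W5_coefZ (A : Hyp M ξ X Z) {x : H →L[ℂ] H} (hx : x ∈ M) {i : ℕ}
    (h : Z i * x = x * Z i) {s : Finset ℕ × Finset ℕ} (hi : i ∈ s.1) :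
    ip ξ (wd X Z s) x = 0 :=
  W5_coef A.trf (A.spin.Zm i) (A.spin.Zs i) (A.spin.Z2 i) (A.spin.mem_wd s) hx
    ((A.spin.commZ i s).2 hi) h

/-- commutation with a combination of words -/
private theorem W5_sum (k : ℕ) (x V : H →L[ℂ] H)
    (h : ∀ s ∈ Qk k, ip ξ (wd X Z s) x ≠ 0 → V * wd X Z s = wd X Z s * V) :
    V * Ek ξ X Z k x = Ek ξ X Z k x * V := by
  unfold Ek
  rw [Finset.mul_sum, Finset.sum_mul]
  refine Finset.sum_congr rfl fun s hs => ?_
  by_cases h0 : ip ξ (wd X Z s) x = 0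
  · rw [h0, zero_smul, mul_zero, zero_mul]
  · rw [mul_smul_comm, smul_mul_assoc, h s hs h0]

theorem Hyp.Ek_commX (A : Hyp M ξ X Z) (k i : ℕ) (x : H →L[ℂ] H) (hx : x ∈ M)
    (h : X i * x = x * X i) : X i * Ek ξ X Z k x = Ek ξ X Z k x * X i := by
  refine W5_sum k x (X i) fun s _ h0 => (A.spin.commX i s).1 fun hi => h0 ?_
  exact W5_coefX A hx h hi

theorem Hyp.Ek_commZ (A : Hyp M ξ X Z) (k i : ℕ) (x : H →L[ℂ] H) (hx : x ∈ M)
    (h : Z i * x = x * Z i) : Z i * Ek ξ X Z k x = Ek ξ X Z k x * Z i := by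
  refine W5_sum k x (Z i) fun s _ h0 => (A.spin.commZ i s).1 fun hi => h0 ?_
  exact W5_coefZ A hx h hi

theorem Hyp.eq_Ek_of_CP (A : Hyp M ξ X Z) (n : ℕ) (x : H →L[ℂ] H) (hx : x ∈ M)
    (h : ∀ i, n ≤ i → CP X Z i x) : x = Ek ξ X Z n x := by
  refine A.eq_Ek x hx n fun s hs => ?_
  rw [mem_Qk, not_and_or] at hs
  rcases hs with hs | hs
  · push Not at hs
    obtain ⟨i, hi, hn⟩ := hs
    exact W5_coefZ A hx (h i hn).2 hi
  · push Not at hs
    obtain ⟨i, hi, hn⟩ := hs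
    exact W5_coefX A hx (h i hn).1 hi

theorem Spin.Ek_CP (S : Spin M X Z) (n i : ℕ) (hi : n ≤ i) (x : H →L[ℂ] H) :
    CP X Z i (Ek ξ X Z n x) := by
  constructor
  · refine W5_sum n x (X i) fun s hs _ => (S.commX i s).1 fun h => ?_
    have := (mem_Qk.1 hs).2 i h
    omega
  · refine W5_sum n x (Z i) fun s hs _ => (S.commZ i s).1 fun h => ?_
    have := (mem_Qk.1 hs).1 i h
    omega

theorem Hyp.CP_comm (A : Hyp M ξ X Z) (n : ℕ) (x y : H →L[ℂ] H) (hx : x ∈ M)
    (h : ∀ i, n ≤ i → CP X Z i x) (h' : ∀ i, i < n → CP X Z i y) : x * y = y * x := by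
  rw [A.eq_Ek_of_CP n x hx h]
  symm
  refine W5_sum n x y fun s hs _ => ?_
  have hs' := mem_Qk.1 hs
  have h1 : y * pr X s.1 = pr X s.1 * y :=
    pr_comm X y s.1 fun i hi => ((h' i (hs'.1 i hi)).1).symm
  have h2 : y * pr Z s.2 = pr Z s.2 * y :=
    pr_comm Z y s.2 fun i hi => ((h' i (hs'.2 i hi)).2).symm
  unfold wd
  rw [← mul_assoc, h1, mul_assoc, h2, mul_assoc]

theorem Hyp.diag_comm (A : Hyp M ξ X Z) (J : Set ℕ) (d x : H →L[ℂ] H) (hd : d ∈ M)
    (h1 : ∀ i, Z i * d = d * Z i) (h2 : ∀ i, i ∉ J → X i * d = d * X i)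
    (h3 : ∀ j ∈ J, Z j * x = x * Z j) : d * x = x * d := by
  have hk : ∀ k, x * Ek ξ X Z k d = Ek ξ X Z k d * x := by
    intro k
    refine W5_sum k d x fun s _ h0 => ?_
    have hs1 : s.1 = ∅ := by
      by_contra hne
      obtain ⟨i, hi⟩ := Finset.nonempty_iff_ne_empty.2 hne
      exact h0 (W5_coefZ A hd (h1 i) hi)
    have hs2 : ∀ i ∈ s.2, i ∈ J := by
      intro i hi
      by_contra hn
      exact h0 (W5_coefX A hd (h2 i hn) hi)
    unfold wd
    rw [hs1, pr_empty, one_mul]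
    exact pr_comm Z x s.2 fun i hi => (h3 i (hs2 i hi)).symm
  ext v
  have t1 : Tendsto (fun k => Ek ξ X Z k d (x v)) atTop (𝓝 (d (x v))) := A.Ek_sot d hd (x v)
  have t2 : Tendsto (fun k => x (Ek ξ X Z k d v)) atTop (𝓝 (x (d v))) :=
    (x.continuous.tendsto _).comp (A.Ek_sot d hd v)
  have he : (fun k => x (Ek ξ X Z k d v)) = fun k => Ek ξ X Z k d (x v) := by
    funext k
    have := congrArg (fun f : H →L[ℂ] H => f v) (hk k)
    exact this
  rw [he] at t2
  exact tendsto_nhds_unique t1 t2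

/-- the diagonal subalgebra -/
noncomputable def DD (M : VonNeumannAlgebra H) (Z : ℕ → H →L[ℂ] H) : VonNeumannAlgebra H :=
  relc M (Set.range Z)

theorem Hyp.mem_DD (A : Hyp M ξ X Z) {x : H →L[ℂ] H} :
    x ∈ DD M Z ↔ x ∈ M ∧ ∀ i, Z i * x = x * Z i := by
  unfold DD
  rw [mem_relc]
  constructor
  · rintro ⟨h, h'⟩
    exact ⟨h, fun i => (h' (Z i) ⟨i, rfl⟩).1⟩
  · rintro ⟨h, h'⟩
    refine ⟨h, ?_⟩
    rintro _ ⟨i, rfl⟩
    rw [A.spin.Zs i]
    exact ⟨h' i, h' i⟩

theorem Hyp.DD_comm (A : Hyp M ξ X Z) : ∀ x ∈ DD M Z, ∀ y ∈ DD M Z, x * y = y * x := by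
  intro x hx y hy
  have hx' := A.mem_DD.1 hx
  have hy' := A.mem_DD.1 hy
  exact A.diag_comm Set.univ x y hx'.1 hx'.2 (fun i hi => absurd (Set.mem_univ i) hi)
    fun j _ => hy'.2 j

/-- for `x` in the diagonal the element `Ek k x` is a combination of products of the `Z i` -/
theorem Hyp.Ek_DD (A : Hyp M ξ X Z) (k : ℕ) {x : H →L[ℂ] H} (hx : x ∈ DD M Z) :
    ∃ c : Finset ℕ → ℂ, Ek ξ X Z k x = ∑ b ∈ (Finset.range k).powerset, c b • pr Z b := by
  classical
  have hx' := A.mem_DD.1 hx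
  refine ⟨fun b => ip ξ (wd X Z (∅, b)) x, ?_⟩
  unfold Ek Qk
  rw [Finset.sum_product, Finset.sum_eq_single (∅ : Finset ℕ)]
  · refine Finset.sum_congr rfl fun b _ => ?_
    have : wd X Z (∅, b) = pr Z b := by
      unfold wd
      rw [pr_empty, one_mul]
    show ip ξ (wd X Z (∅, b)) x • wd X Z (∅, b) = ip ξ (wd X Z (∅, b)) x • pr Z b
    rw [this]
  · intro a _ ha
    refine Finset.sum_eq_zero fun b _ => ?_
    obtain ⟨i, hi⟩ := Finset.nonempty_iff_ne_empty.2 ha
    rw [W5_coefZ A hx'.1 (hx'.2 i) (s := (a, b)) hi, zero_smul]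
  · intro h
    exact absurd (Finset.empty_mem_powerset _) h

end Pool.Agent.HFT
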