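import Pool.Agent.HFT.P2
import Pool.Agent.HFT.H1
import Pool.Agent.HFT.Dn
import Pool.Agent.HFT.Lim
import Pool.Agent.HFT.W5

set_option autoImplicit false
set_option linter.unusedSectionVars false

/-! # Module P3 (4 points): correction on the diagonal

`D = DD M Z` is a commutative von Neumann algebra (`Hyp.DD_comm`) contained in `M`. Let
`inc : RA D →L[ℂ] RA M` be the inclusion and `φ x y = x ψ y - ψ (x y) + ψ x y` on `RA D`
(with `ψ ∘ inc`), a bounded bilinear map of norm `≤ 3 ‖ψ‖`, compact valued, satisfying the cocycle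
identity. `ab_h2` gives `η : RA D →L[ℂ] _` compact valued with `‖η‖ ≤ 2 KT 1 (3 ‖ψ‖)` and
`φ x y = x η y - η (x y) + η x y`. So `θ = ψ ∘ inc - η` is a bounded derivation on `RA D`:
`θ (x y) = x θ y + θ x y`, `‖θ‖ ≤ (1 + 6 KT 1) ‖ψ‖`.
For a finite set `b` let `z_b = pr Z b ∈ D` (self-adjoint unitary, `pr_mul`, `pr_star`). For `c` fixed:
`z_b θ (z_b z_c) = θ (z_c) + z_b θ (z_b) z_c`, and with `z_b z_c = z_{b Δ c}`, `z_b = z_c z_{b Δ c}`:
`z_c (z_{bΔc} θ (z_{bΔc})) = θ (z_c) + (z_b θ (z_b)) z_c`. Average over `b ⊆ range k` (`k` with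
`c ⊆ range k`; `b ↦ b Δ c` is a permutation), `a_k = (2^k)⁻¹ ∑ z_b θ (z_b)`: `θ (z_c) = z_c a_k - a_k z_c`.
`T0 = uL a` (`‖a_k‖ ≤ ‖θ‖`): `θ (z_c) = z_c T0 - T0 z_c` for every `c`.
`θ' x = θ x - (x T0 - T0 x)` is a bounded derivation of `RA D` vanishing at all `z_c`, hence at
`Ek k x` for `x ∈ D` (`Hyp.Ek_DD`; `Ek k x ∈ D` because it commutes with all `Z i`,
`Hyp.Ek_commZ`), and `Ek k x → x` boundedly in `2`-norm. By `der_zero` (with `TrF D ξ` from
`TrF.mono`) `θ' = 0`. So for `x ∈ D`: `ψ x - (x T0 - T0 x) = η x` is compact. -/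

namespace Pool.Agent.HFT

open Pool.Agent.HK Filter Topology

variable {H : Type} [NormedAddCommGroup H] [InnerProductSpace ℂ H] [CompleteSpace H]
variable {M : VonNeumannAlgebra H} {ξ : ℕ → H} {X Z : ℕ → H →L[ℂ] H}

private theorem p3_KT : 0 ≤ KT 1 := by
  have h1 := KN_nonneg 1
  have h2 := C1_nonneg 1
  have h3 := KH_nonneg 1
  unfold KT
  positivity

/-- the inclusion of the diagonal algebra -/
private noncomputable def p3_inc (A : Hyp M ξ X Z) : RA (DD M Z) →L[ℂ] RA M :=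
  LinearMap.mkContinuous
    { toFun := fun x => ⟨x.1, (A.mem_DD.1 x.2).1⟩
      map_add' := fun _ _ => rfl
      map_smul' := fun _ _ => rfl } 1 (fun x => by rw [one_mul]; exact le_rfl)

private theorem p3_inc_val (A : Hyp M ξ X Z) (x : RA (DD M Z)) : (p3_inc A x).1 = x.1 := rfl

private theorem p3_inc_mul (A : Hyp M ξ X Z) (x y : RA (DD M Z)) :
    p3_inc A (x * y) = p3_inc A x * p3_inc A y := rfl

private theorem p3_inc_norm (A : Hyp M ξ X Z) (x : RA (DD M Z)) : ‖p3_inc A x‖ = ‖x‖ := rfl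

/-- the coboundary on the diagonal algebra -/
private theorem p3_phi (A : Hyp M ξ X Z) (ψ : RA M →L[ℂ] (H →L[ℂ] H)) :
    ∃ φ : RA (DD M Z) →L[ℂ] RA (DD M Z) →L[ℂ] (H →L[ℂ] H),
      (∀ x y, φ x y = x.1 * ψ (p3_inc A y) - ψ (p3_inc A x * p3_inc A y) +
        ψ (p3_inc A x) * y.1) ∧ ‖φ‖ ≤ 3 * ‖ψ‖ := by
  have hb : ∀ x y : RA (DD M Z), ‖x.1 * ψ (p3_inc A y) - ψ (p3_inc A x * p3_inc A y) +
        ψ (p3_inc A x) * y.1‖ ≤ 3 * ‖ψ‖ * ‖x‖ * ‖y‖ := by
    intro x y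
    have n1 : ‖x.1 * ψ (p3_inc A y)‖ ≤ ‖x‖ * (‖ψ‖ * ‖y‖) :=
      (norm_mul_le _ _).trans (mul_le_mul_of_nonneg_left (ψ.le_opNorm _) (norm_nonneg _))
    have n2 : ‖ψ (p3_inc A x * p3_inc A y)‖ ≤ ‖ψ‖ * (‖x‖ * ‖y‖) :=
      (ψ.le_opNorm _).trans (mul_le_mul_of_nonneg_left (norm_mul_le _ _) (norm_nonneg _))
    have n3 : ‖ψ (p3_inc A x) * y.1‖ ≤ (‖ψ‖ * ‖x‖) * ‖y‖ :=
      (norm_mul_le _ _).trans (mul_le_mul_of_nonneg_right (ψ.le_opNorm _) (norm_nonneg _))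
    calc _ ≤ ‖x.1 * ψ (p3_inc A y) - ψ (p3_inc A x * p3_inc A y)‖ + ‖ψ (p3_inc A x) * y.1‖ :=
          norm_add_le _ _
      _ ≤ ‖x.1 * ψ (p3_inc A y)‖ + ‖ψ (p3_inc A x * p3_inc A y)‖ + ‖ψ (p3_inc A x) * y.1‖ := by
          gcongr
          exact norm_sub_le _ _
      _ ≤ ‖x‖ * (‖ψ‖ * ‖y‖) + ‖ψ‖ * (‖x‖ * ‖y‖) + (‖ψ‖ * ‖x‖) * ‖y‖ := by
          gcongr
      _ = 3 * ‖ψ‖ * ‖x‖ * ‖y‖ := by ring
  let f : RA (DD M Z) →ₗ[ℂ] RA (DD M Z) →ₗ[ℂ] (H →L[ℂ] H) := LinearMap.mk₂ ℂ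
    (fun x y => x.1 * ψ (p3_inc A y) - ψ (p3_inc A x * p3_inc A y) + ψ (p3_inc A x) * y.1)
    (fun x x' y => by
      have e : ((x + x').1 : H →L[ℂ] H) = x.1 + x'.1 := rfl
      rw [map_add, add_mul (p3_inc A x), map_add, map_add, e]
      noncomm_ring)
    (fun c x y => by
      have e : ((c • x).1 : H →L[ℂ] H) = c • x.1 := rfl
      rw [map_smul, smul_mul_assoc, map_smul, map_smul, e, smul_mul_assoc, smul_mul_assoc,
        smul_add, smul_sub])
    (fun x y y' => by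
      have e : ((y + y').1 : H →L[ℂ] H) = y.1 + y'.1 := rfl
      rw [map_add, mul_add (p3_inc A x), map_add, map_add, e]
      noncomm_ring)
    (fun c x y => by
      have e : ((c • y).1 : H →L[ℂ] H) = c • y.1 := rfl
      rw [map_smul, mul_smul_comm, map_smul, map_smul, e, mul_smul_comm, mul_smul_comm,
        smul_add, smul_sub])
  exact ⟨f.mkContinuous₂ (3 * ‖ψ‖) hb, fun x y => rfl,
    LinearMap.mkContinuous₂_norm_le _ (by positivity) hb⟩

/-- the products of the `Z i` as elements of the diagonal algebra -/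
private noncomputable def p3_z (A : Hyp M ξ X Z) (b : Finset ℕ) : RA (DD M Z) :=
  ⟨pr Z b, A.mem_DD.2 ⟨pr_mem M Z b (fun i _ => A.spin.Zm i),
    fun i => pr_comm Z (Z i) b (fun j _ => A.spin.cZZ i j)⟩⟩

private theorem p3_z_mul (A : Hyp M ξ X Z) (b c : Finset ℕ) :
    p3_z A b * p3_z A c = p3_z A (symmDiff b c) :=
  Subtype.ext (pr_mul A.spin.cmZ b c)

private theorem p3_z_sq (A : Hyp M ξ X Z) (b : Finset ℕ) : (p3_z A b).1 * (p3_z A b).1 = 1 := by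
  have := pr_mul A.spin.cmZ b b
  rw [symmDiff_self] at this
  show pr Z b * pr Z b = 1
  rw [this]
  exact pr_empty Z

private theorem p3_z_norm (A : Hyp M ξ X Z) (b : Finset ℕ) : ‖p3_z A b‖ ≤ 1 := by
  have h := A.spin.norm_wd (∅, b)
  have e : wd X Z (∅, b) = pr Z b := by
    unfold wd
    rw [pr_empty, one_mul]
  rw [e] at h
  exact h

/-- a bounded derivation of the diagonal algebra is inner on the products of the `Z i` -/
private theorem p3_avg (A : Hyp M ξ X Z) (θ : RA (DD M Z) →L[ℂ] (H →L[ℂ] H))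
    (hθ : ∀ x y, θ (x * y) = x.1 * θ y + θ x * y.1) :
    ∃ T0 : H →L[ℂ] H, ‖T0‖ ≤ ‖θ‖ ∧
      ∀ c, θ (p3_z A c) = (p3_z A c).1 * T0 - T0 * (p3_z A c).1 := by
  classical
  let f : Finset ℕ → H →L[ℂ] H := fun b => (p3_z A b).1 * θ (p3_z A b)
  let a : ℕ → H →L[ℂ] H := fun k => ((2 : ℂ) ^ k)⁻¹ • ∑ b ∈ (Finset.range k).powerset, f b
  have hf : ∀ b, ‖f b‖ ≤ ‖θ‖ := by
    intro b
    calc ‖f b‖ ≤ ‖p3_z A b‖ * ‖θ (p3_z A b)‖ := norm_mul_le _ _
      _ ≤ 1 * (‖θ‖ * 1) := by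
          apply mul_le_mul (p3_z_norm A b) _ (norm_nonneg _) zero_le_one
          exact (θ.le_opNorm _).trans (mul_le_mul_of_nonneg_left (p3_z_norm A b) (norm_nonneg _))
      _ = ‖θ‖ := by ring
  have ha : ∀ k, ‖a k‖ ≤ ‖θ‖ := by
    intro k
    have h1 : ‖∑ b ∈ (Finset.range k).powerset, f b‖ ≤ 2 ^ k * ‖θ‖ := by
      refine (norm_sum_le _ _).trans ?_
      refine (Finset.sum_le_sum (fun b _ => hf b)).trans ?_
      rw [Finset.sum_const, Finset.card_powerset, Finset.card_range, nsmul_eq_mul]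
      push_cast
      exact le_rfl
    show ‖((2 : ℂ) ^ k)⁻¹ • ∑ b ∈ (Finset.range k).powerset, f b‖ ≤ ‖θ‖
    rw [norm_smul, norm_inv, norm_pow]
    have h2 : ‖(2 : ℂ)‖ = 2 := by norm_num
    rw [h2, inv_mul_le_iff₀ (by positivity)]
    exact h1
  have hc : ∀ (c : Finset ℕ) (k : ℕ), c ⊆ Finset.range k →
      (p3_z A c).1 * a k - a k * (p3_z A c).1 = θ (p3_z A c) := by
    intro c k hck
    have key : ∀ b, (p3_z A c).1 * f (symmDiff b c) = θ (p3_z A c) + f b * (p3_z A c).1 := by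
      intro b
      have e1 : θ (p3_z A b * p3_z A c) = (p3_z A b).1 * θ (p3_z A c) +
        θ (p3_z A b) * (p3_z A c).1 := hθ _ _
      rw [p3_z_mul] at e1
      have e2 : (p3_z A c).1 * (p3_z A (symmDiff b c)).1 = (p3_z A b).1 := by
        have e3 := congrArg Subtype.val (p3_z_mul A c (symmDiff b c))
        rw [symmDiff_comm b c, symmDiff_symmDiff_cancel_left] at e3
        rw [symmDiff_comm b c]
        exact e3
      show (p3_z A c).1 * ((p3_z A (symmDiff b c)).1 * θ (p3_z A (symmDiff b c))) = _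
      rw [← mul_assoc, e2, e1, mul_add, ← mul_assoc, p3_z_sq, one_mul, ← mul_assoc]
    have hsum : ∑ b ∈ (Finset.range k).powerset, f (symmDiff b c) =
        ∑ b ∈ (Finset.range k).powerset, f b := by
      apply Finset.sum_nbij' (fun b => symmDiff b c) (fun b => symmDiff b c)
      · intro b hb
        rw [Finset.mem_powerset] at hb ⊢
        intro i hi
        rw [Finset.mem_symmDiff] at hi
        rcases hi with hi | hi
        · exact hb hi.1
        · exact hck hi.1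
      · intro b hb
        rw [Finset.mem_powerset] at hb ⊢
        intro i hi
        rw [Finset.mem_symmDiff] at hi
        rcases hi with hi | hi
        · exact hb hi.1
        · exact hck hi.1
      · intro b _
        exact symmDiff_symmDiff_cancel_right _ _
      · intro b _
        exact symmDiff_symmDiff_cancel_right _ _
      · intro b _
        rfl
    have hs2 : (p3_z A c).1 * ∑ b ∈ (Finset.range k).powerset, f b =
        (2 : ℂ) ^ k • θ (p3_z A c) + (∑ b ∈ (Finset.range k).powerset, f b) * (p3_z A c).1 := by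
      rw [← hsum, Finset.mul_sum, Finset.sum_congr rfl (fun b _ => key b), Finset.sum_add_distrib,
        Finset.sum_const, Finset.card_powerset, Finset.card_range, hsum, Finset.sum_mul]
      congr 1
      rw [← Nat.cast_smul_eq_nsmul ℂ]
      push_cast
      rfl
    show (p3_z A c).1 * (((2 : ℂ) ^ k)⁻¹ • ∑ b ∈ (Finset.range k).powerset, f b) -
      (((2 : ℂ) ^ k)⁻¹ • ∑ b ∈ (Finset.range k).powerset, f b) * (p3_z A c).1 = _
    rw [mul_smul_comm, smul_mul_assoc, hs2, smul_add, add_sub_cancel_right, smul_smul,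
      inv_mul_cancel₀ (pow_ne_zero k two_ne_zero), one_smul]
  refine ⟨uL a, uL_norm ha, fun c => ?_⟩
  have hz : ‖(p3_z A c).1‖ ≤ 1 := p3_z_norm A c
  have h1 : ∀ k, ‖(p3_z A c).1 * a k‖ ≤ ‖θ‖ := fun k =>
    (norm_mul_le _ _).trans (by nlinarith [ha k, norm_nonneg (a k), norm_nonneg (p3_z A c).1])
  have h2 : ∀ k, ‖a k * (p3_z A c).1‖ ≤ ‖θ‖ := fun k =>
    (norm_mul_le _ _).trans (by nlinarith [ha k, norm_nonneg (a k), norm_nonneg (p3_z A c).1])
  have h3 : uL (fun k => (p3_z A c).1 * a k - a k * (p3_z A c).1) =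
      (p3_z A c).1 * uL a - uL a * (p3_z A c).1 := by
    rw [uL_sub h1 h2, uL_mul_left ha, uL_mul_right ha]
  rw [← h3]
  obtain ⟨k0, hk0⟩ : ∃ k0, c ⊆ Finset.range k0 := ⟨c.sup id + 1, fun i hi => by
    rw [Finset.mem_range]
    exact Nat.lt_succ_of_le (Finset.le_sup (f := id) hi)⟩
  have h4 : ∀ k, ‖(p3_z A c).1 * a k - a k * (p3_z A c).1‖ ≤ ‖θ‖ + ‖θ‖ := fun k =>
    (norm_sub_le _ _).trans (add_le_add (h1 k) (h2 k))
  have h5 : ∀ _k : ℕ, ‖θ (p3_z A c)‖ ≤ ‖θ‖ + ‖θ‖ := fun _ => by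
    have := θ.le_opNorm (p3_z A c)
    nlinarith [p3_z_norm A c, norm_nonneg θ, norm_nonneg (p3_z A c)]
  rw [uL_congr h4 h5 k0 (fun k hk => hc c k (hk0.trans (Finset.range_subset_range.2 hk))),
    uL_const]

theorem dstep (A : Hyp M ξ X Z) (ψ : RA M →L[ℂ] (H →L[ℂ] H)) (h : Cb ψ) :
    ∃ T0 : H →L[ℂ] H, ‖T0‖ ≤ (1 + 6 * KT 1) * ‖ψ‖ ∧
      ∀ x : RA M, x.1 ∈ DD M Z → IsCompactOperator (ψ x - (x.1 * T0 - T0 * x.1)) := by
  obtain ⟨φ, hφ, hφn⟩ := p3_phi A ψ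
  obtain ⟨η, hη, hηn, hηc⟩ := ab_h2 (DD M Z) A.DD_comm φ
    (fun x y => by rw [hφ]; exact h (p3_inc A x) (p3_inc A y))
    (fun x y z => by
      have e1 : ((x * y : RA (DD M Z)).1 : H →L[ℂ] H) = x.1 * y.1 := rfl
      have e2 : ((y * z : RA (DD M Z)).1 : H →L[ℂ] H) = y.1 * z.1 := rfl
      rw [hφ, hφ, hφ, hφ, e1, e2, p3_inc_mul, p3_inc_mul, mul_assoc (p3_inc A x)]
      noncomm_ring)
  let θ : RA (DD M Z) →L[ℂ] (H →L[ℂ] H) := ψ.comp (p3_inc A) - η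
  have hθv : ∀ x, θ x = ψ (p3_inc A x) - η x := fun x => rfl
  have hθ : ∀ x y, θ (x * y) = x.1 * θ y + θ x * y.1 := by
    intro x y
    have e := (hφ x y).symm.trans (hηc x y)
    rw [hθv, hθv, hθv, p3_inc_mul]
    have e' : ψ (p3_inc A x * p3_inc A y) - η (x * y) =
      (x.1 * ψ (p3_inc A y) + ψ (p3_inc A x) * y.1) - (x.1 * η y + η x * y.1) := by
      have e2 := congrArg (fun t => (x.1 * ψ (p3_inc A y) + ψ (p3_inc A x) * y.1) - t - η (x * y)) e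
      calc ψ (p3_inc A x * p3_inc A y) - η (x * y) =
          (x.1 * ψ (p3_inc A y) + ψ (p3_inc A x) * y.1) - (x.1 * ψ (p3_inc A y) -
            ψ (p3_inc A x * p3_inc A y) + ψ (p3_inc A x) * y.1) - η (x * y) := by abel
        _ = _ := e2
        _ = _ := by abel
    rw [e']
    noncomm_ring
  have hθn : ‖θ‖ ≤ (1 + 6 * KT 1) * ‖ψ‖ := by
    have n1 : ‖ψ.comp (p3_inc A)‖ ≤ ‖ψ‖ := by
      refine (ContinuousLinearMap.opNorm_comp_le _ _).trans ?_
      have : ‖p3_inc A‖ ≤ 1 := LinearMap.mkContinuous_norm_le _ zero_le_one _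
      nlinarith [norm_nonneg ψ]
    have n2 : ‖η‖ ≤ 6 * KT 1 * ‖ψ‖ := by
      refine hηn.trans ?_
      have := mul_le_mul_of_nonneg_left hφn (mul_nonneg zero_le_two p3_KT)
      linarith
    calc ‖θ‖ ≤ ‖ψ.comp (p3_inc A)‖ + ‖η‖ := norm_sub_le _ _
      _ ≤ ‖ψ‖ + 6 * KT 1 * ‖ψ‖ := add_le_add n1 n2
      _ = (1 + 6 * KT 1) * ‖ψ‖ := by ring
  obtain ⟨T0, hT0, hT0z⟩ := p3_avg A θ hθ
  refine ⟨T0, hT0.trans hθn, ?_⟩
  let θ' : RA (DD M Z) →L[ℂ] (H →L[ℂ] H) := θ - (cR T0 (iL (DD M Z)) - cL T0 (iL (DD M Z)))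
  have hθ'v : ∀ x, θ' x = θ x - (x.1 * T0 - T0 * x.1) := fun x => rfl
  have hθ' : ∀ x y, θ' (x * y) = x.1 * θ' y + θ' x * y.1 := by
    intro x y
    have e1 : ((x * y : RA (DD M Z)).1 : H →L[ℂ] H) = x.1 * y.1 := rfl
    rw [hθ'v, hθ'v, hθ'v, hθ, e1]
    noncomm_ring
  have hz0 : ∀ c, θ' (p3_z A c) = 0 := by
    intro c
    rw [hθ'v, hT0z, sub_self]
  have hall : ∀ x, θ' x = 0 := by
    intro x
    have hxM : x.1 ∈ M := (A.mem_DD.1 x.2).1
    have hxc := (A.mem_DD.1 x.2).2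
    let y : ℕ → RA (DD M Z) := fun k => ⟨Ek ξ X Z k x.1, A.mem_DD.2 ⟨Ek_mem A.spin k x.1,
      fun i => A.Ek_commZ k i x.1 hxM (hxc i)⟩⟩
    refine der_zero (A.trf.mono (fun x hx => (A.mem_DD.1 hx).1)) θ' hθ' y x ‖x‖
      (fun k => A.norm_Ek_le k x.1 hxM) (A.Ek_tendsto x.1 hxM) ?_
    intro k
    obtain ⟨c, hc⟩ := A.Ek_DD k (x := x.1) x.2
    have e : y k = ∑ b ∈ (Finset.range k).powerset, c b • p3_z A b := by
      apply Subtype.ext
      have e2 : ((∑ b ∈ (Finset.range k).powerset, c b • p3_z A b : RA (DD M Z)).1 : H →L[ℂ] H) =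
          ∑ b ∈ (Finset.range k).powerset, c b • pr Z b := by
        have := map_sum (io (DD M Z)) (fun b => c b • p3_z A b) (Finset.range k).powerset
        rw [io_apply] at this
        rw [this]
        rfl
      rw [e2]
      exact hc
    rw [e, map_sum]
    apply Finset.sum_eq_zero
    intro b _
    rw [map_smul, hz0, smul_zero]
  intro x hx
  have e := hall ⟨x.1, hx⟩
  rw [hθ'v, hθv] at e
  have e1 : p3_inc A ⟨x.1, hx⟩ = x := rfl
  rw [e1] at e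
  have e2 : ψ x - (x.1 * T0 - T0 * x.1) = η ⟨x.1, hx⟩ := by
    have : ψ x - (x.1 * T0 - T0 * x.1) - η ⟨x.1, hx⟩ = 0 := by
      rw [← e]
      abel
    exact sub_eq_zero.1 this
  rw [e2]
  exact hη _


end Pool.Agent.HFT
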