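import Pool.Agent.HFT.Defs

set_option autoImplicit false
set_option linter.unusedSectionVars false

/-! # Module W1 (3 points): words

`prk U a k` is the product of the `U i`, `i ∈ a`, `i < k`, in increasing order; `pr U a = prk U a
(a.sup id + 1)`. All statements about `pr` by induction on `k` for `prk`, using
`prk_eq : (∀ i ∈ a, i < k) → prk U a k = pr U a` (the factors with `i ∉ a` are `1`; `prk U a k` is
constant for `k > a.sup id`: induction). `Cm U` says: the `U i` commute, are self-adjoint, and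
`U i * U i = 1`.

* `pr_mul`: `prk U a k * prk U b k = prk U (symmDiff a b) k` by induction on `k`
  (`U k` commutes with `prk U b k`; four cases for `k ∈ a`, `k ∈ b`).
* `pr_star`: `star (prk U a k) = prk U a k`: induction, commutation.
* `pr_comm`: if `V` commutes with `U i` for all `i ∈ a` then it commutes with `pr U a`.
* `pr_anti`: if `V U i₀ = - U i₀ V`, `i₀ ∈ a`, and `V` commutes with `U i` for `i ∈ a`, `i ≠ i₀`,
  then `V * pr U a = - pr U a * V`: `prk`-induction (before `i₀`: commutes; after `i₀`: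
  anticommutes).
* `wd X Z s = pr X s.1 * pr Z s.2`. `pr Z b * pr X a = ± pr X a * pr Z b` (induction on the
  number of elements, or: for every `i`, `Z i` commutes or anticommutes with `pr X a`, then
  induction over `prk Z b k`). So `wd s * wd t = ± wd (sd s t)`, `star (wd s) = ± wd s`,
  `star (wd s) * wd s = 1`.
* `sd` is the addition of an elementary abelian group: `sd (sd s t) t = s`, so
  `s ↦ sd s t` is a permutation of `Qk k` for `t ∈ Qk k`: `sum_sd` (`Finset.sum_nbij'`). -/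

namespace Pool.Agent.HFT

open Pool.Agent.HK Filter Topology

variable {H : Type} [NormedAddCommGroup H] [InnerProductSpace ℂ H] [CompleteSpace H]

/-- commuting self-adjoint unitaries -/
structure Cm (U : ℕ → H →L[ℂ] H) : Prop where
  s : ∀ i, star (U i) = U i
  sq : ∀ i, U i * U i = 1
  c : ∀ i j, U i * U j = U j * U i

private theorem w1_const (U : ℕ → H →L[ℂ] H) (a : Finset ℕ) (k l : ℕ) (hkl : k ≤ l)
    (h : ∀ i ∈ a, i < k) : prk U a l = prk U a k := by
  induction l, hkl using Nat.le_induction with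
  | base => rfl
  | succ l hl ih =>
    have : l ∉ a := fun hla => absurd (h l hla) (not_lt.mpr hl)
    simp only [prk, if_neg this, mul_one, ih]

private theorem w1_lt (a : Finset ℕ) (i : ℕ) (hi : i ∈ a) : i < a.sup id + 1 :=
  Nat.lt_succ_of_le (Finset.le_sup (f := id) hi)

theorem prk_eq (U : ℕ → H →L[ℂ] H) (a : Finset ℕ) (k : ℕ) (h : ∀ i ∈ a, i < k) :
    prk U a k = pr U a := by
  unfold pr
  rcases le_total k (a.sup id + 1) with hk | hk
  · exact (w1_const U a k _ hk h).symm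
  · exact w1_const U a _ k hk (w1_lt a)

theorem pr_empty (U : ℕ → H →L[ℂ] H) : pr U ∅ = 1 := by
  rw [← prk_eq U ∅ 0 (by simp)]
  rfl

theorem pr_single (U : ℕ → H →L[ℂ] H) (i : ℕ) : pr U {i} = U i := by
  rw [← prk_eq U {i} (i + 1) (by simp)]
  have h : ∀ k, k ≤ i → prk U {i} k = 1 := by
    intro k
    induction k with
    | zero => intro _; rfl
    | succ k ih =>
      intro hk
      have : k ∉ ({i} : Finset ℕ) := by
        simp only [Finset.mem_singleton]; omega
      simp only [prk, if_neg this, mul_one]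
      exact ih (by omega)
  simp only [prk, Finset.mem_singleton, if_true, h i le_rfl, one_mul]

private theorem w1_comm (U : ℕ → H →L[ℂ] H) (V : H →L[ℂ] H) (a : Finset ℕ) (k : ℕ)
    (h : ∀ i ∈ a, i < k → V * U i = U i * V) : V * prk U a k = prk U a k * V := by
  induction k with
  | zero => simp [prk]
  | succ k ih =>
    have ih' := ih (fun i hi hk => h i hi (by omega))
    by_cases hk : k ∈ a
    · simp only [prk, if_pos hk]
      rw [← mul_assoc, ih', mul_assoc, h k hk (by omega), ← mul_assoc]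
    · simp only [prk, if_neg hk, mul_one, ih']

private theorem w1_mul {U : ℕ → H →L[ℂ] H} (h : Cm U) (a b : Finset ℕ) (k : ℕ) :
    prk U a k * prk U b k = prk U (symmDiff a b) k := by
  induction k with
  | zero => simp [prk]
  | succ k ih =>
    have hc : U k * prk U b k = prk U b k * U k := w1_comm U (U k) b k (fun i _ _ => h.c k i)
    by_cases ha : k ∈ a <;> by_cases hb : k ∈ b
    · have hs : k ∉ symmDiff a b := by simp [Finset.mem_symmDiff, ha, hb]
      simp only [prk, if_pos ha, if_pos hb, if_neg hs, mul_one]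
      rw [← ih, mul_assoc, ← mul_assoc (U k), hc, mul_assoc (prk U b k), h.sq, mul_one]
    · have hs : k ∈ symmDiff a b := by simp [Finset.mem_symmDiff, ha, hb]
      simp only [prk, if_pos ha, if_neg hb, if_pos hs, mul_one]
      rw [← ih, mul_assoc, hc, ← mul_assoc]
    · have hs : k ∈ symmDiff a b := by simp [Finset.mem_symmDiff, ha, hb]
      simp only [prk, if_neg ha, if_pos hb, if_pos hs, mul_one]
      rw [← ih, mul_assoc]
    · have hs : k ∉ symmDiff a b := by simp [Finset.mem_symmDiff, ha, hb]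
      simp only [prk, if_neg ha, if_neg hb, if_neg hs, mul_one]
      exact ih

theorem pr_mul {U : ℕ → H →L[ℂ] H} (h : Cm U) (a b : Finset ℕ) :
    pr U a * pr U b = pr U (symmDiff a b) := by
  have hk1 : ∀ i ∈ a, i < (a.sup id + 1) + (b.sup id + 1) := fun i hi =>
    lt_of_lt_of_le (w1_lt a i hi) (by omega)
  have hk2 : ∀ i ∈ b, i < (a.sup id + 1) + (b.sup id + 1) := fun i hi =>
    lt_of_lt_of_le (w1_lt b i hi) (by omega)
  have hk3 : ∀ i ∈ symmDiff a b, i < (a.sup id + 1) + (b.sup id + 1) := by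
    intro i hi
    rcases Finset.mem_symmDiff.mp hi with h | h
    · exact hk1 i h.1
    · exact hk2 i h.1
  rw [← prk_eq U a _ hk1, ← prk_eq U b _ hk2, ← prk_eq U _ _ hk3]
  exact w1_mul h a b _

private theorem w1_star {U : ℕ → H →L[ℂ] H} (h : Cm U) (a : Finset ℕ) (k : ℕ) :
    star (prk U a k) = prk U a k := by
  induction k with
  | zero => simp [prk]
  | succ k ih =>
    have hc : U k * prk U a k = prk U a k * U k := w1_comm U (U k) a k (fun i _ _ => h.c k i)
    by_cases ha : k ∈ a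
    · simp only [prk, if_pos ha]
      rw [star_mul, ih, h.s, hc]
    · simp only [prk, if_neg ha, mul_one, ih]

theorem pr_star {U : ℕ → H →L[ℂ] H} (h : Cm U) (a : Finset ℕ) : star (pr U a) = pr U a :=
  w1_star h a _

theorem pr_mem (M : VonNeumannAlgebra H) (U : ℕ → H →L[ℂ] H) (a : Finset ℕ)
    (h : ∀ i ∈ a, U i ∈ M) : pr U a ∈ M := by
  have : ∀ k, prk U a k ∈ M := by
    intro k
    induction k with
    | zero => exact one_mem _
    | succ k ih =>
      by_cases ha : k ∈ a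
      · simp only [prk, if_pos ha]
        exact mul_mem ih (h k ha)
      · simp only [prk, if_neg ha, mul_one]
        exact ih
  exact this _

theorem pr_comm (U : ℕ → H →L[ℂ] H) (V : H →L[ℂ] H) (a : Finset ℕ)
    (h : ∀ i ∈ a, V * U i = U i * V) : V * pr U a = pr U a * V :=
  w1_comm U V a _ (fun i hi _ => h i hi)

theorem pr_anti (U : ℕ → H →L[ℂ] H) (V : H →L[ℂ] H) (a : Finset ℕ) (i₀ : ℕ) (h0 : i₀ ∈ a)
    (h1 : V * U i₀ = -(U i₀ * V)) (h : ∀ i ∈ a, i ≠ i₀ → V * U i = U i * V) :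
    V * pr U a = -(pr U a * V) := by
  have key : ∀ k, i₀ + 1 ≤ k → V * prk U a k = -(prk U a k * V) := by
    intro k hk
    induction k, hk using Nat.le_induction with
    | base =>
      have hc : V * prk U a i₀ = prk U a i₀ * V :=
        w1_comm U V a i₀ (fun i hi hlt => h i hi (ne_of_lt hlt))
      simp only [prk, if_pos h0]
      rw [← mul_assoc, hc, mul_assoc, h1, mul_neg, ← mul_assoc]
    | succ k hk ih =>
      by_cases ha : k ∈ a
      · simp only [prk, if_pos ha]
        rw [← mul_assoc, ih, neg_mul, mul_assoc, h k ha (by omega), ← mul_assoc]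
      · simp only [prk, if_neg ha, mul_one]
        exact ih
  exact key _ (w1_lt a i₀ h0)

variable {M : VonNeumannAlgebra H} {X Z : ℕ → H →L[ℂ] H}

theorem Spin.cmX (S : Spin M X Z) : Cm X := ⟨S.Xs, S.X2, S.cXX⟩

theorem Spin.cmZ (S : Spin M X Z) : Cm Z := ⟨S.Zs, S.Z2, S.cZZ⟩

theorem Spin.mem_wd (S : Spin M X Z) (s : Finset ℕ × Finset ℕ) : wd X Z s ∈ M :=
  mul_mem (pr_mem M X s.1 (fun i _ => S.Xm i)) (pr_mem M Z s.2 (fun i _ => S.Zm i))

private theorem w1_sign (U : ℕ → H →L[ℂ] H) (V : H →L[ℂ] H) (a : Finset ℕ)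
    (h : ∀ i, ∃ ε : ℂ, (ε = 1 ∨ ε = -1) ∧ V * U i = ε • (U i * V)) :
    ∃ ε : ℂ, (ε = 1 ∨ ε = -1) ∧ V * pr U a = ε • (pr U a * V) := by
  have key : ∀ k, ∃ ε : ℂ, (ε = 1 ∨ ε = -1) ∧ V * prk U a k = ε • (prk U a k * V) := by
    intro k
    induction k with
    | zero => exact ⟨1, Or.inl rfl, by simp [prk]⟩
    | succ k ih =>
      obtain ⟨ε, hε, e⟩ := ih
      by_cases ha : k ∈ a
      · obtain ⟨δ, hδ, e'⟩ := h k
        refine ⟨ε * δ, ?_, ?_⟩
        · rcases hε with rfl | rfl <;> rcases hδ with rfl | rfl <;> simp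
        · simp only [prk, if_pos ha]
          rw [← mul_assoc, e, smul_mul_assoc, mul_assoc, e', mul_smul_comm, smul_smul, mul_assoc]
      · refine ⟨ε, hε, ?_⟩
        simp only [prk, if_neg ha, mul_one]
        exact e
  exact key _

private theorem w1_flip {A B : H →L[ℂ] H} {ε : ℂ} (hε : ε = 1 ∨ ε = -1) (h : A * B = ε • (B * A)) :
    B * A = ε • (A * B) := by
  rw [h, smul_smul]
  rcases hε with rfl | rfl <;> simp

private theorem w1_ZX (S : Spin M X Z) (a b : Finset ℕ) :
    ∃ ε : ℂ, (ε = 1 ∨ ε = -1) ∧ pr Z b * pr X a = ε • (pr X a * pr Z b) := by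
  have h1 : ∀ i, ∃ ε : ℂ, (ε = 1 ∨ ε = -1) ∧ pr X a * Z i = ε • (Z i * pr X a) := by
    intro i
    have : ∃ ε : ℂ, (ε = 1 ∨ ε = -1) ∧ Z i * pr X a = ε • (pr X a * Z i) := by
      apply w1_sign
      intro j
      by_cases hij : j = i
      · subst hij
        refine ⟨-1, Or.inr rfl, ?_⟩
        rw [S.anti j]
        simp
      · exact ⟨1, Or.inl rfl, by rw [one_smul, S.cXZ j i hij]⟩
    obtain ⟨ε, hε, e⟩ := this
    exact ⟨ε, hε, w1_flip hε e⟩
  obtain ⟨ε, hε, e⟩ := w1_sign Z (pr X a) b h1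
  exact ⟨ε, hε, w1_flip hε e⟩

theorem Spin.mul_wd (S : Spin M X Z) (s t : Finset ℕ × Finset ℕ) :
    ∃ ε : ℂ, (ε = 1 ∨ ε = -1) ∧ wd X Z s * wd X Z t = ε • wd X Z (sd s t) := by
  obtain ⟨ε, hε, e⟩ := w1_ZX S t.1 s.2
  refine ⟨ε, hε, ?_⟩
  have h1 := pr_mul S.cmX s.1 t.1
  have h2 := pr_mul S.cmZ s.2 t.2
  calc wd X Z s * wd X Z t = pr X s.1 * (pr Z s.2 * pr X t.1) * pr Z t.2 := by
        simp only [wd, mul_assoc]
    _ = ε • ((pr X s.1 * pr X t.1) * (pr Z s.2 * pr Z t.2)) := by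
        rw [e, mul_smul_comm, smul_mul_assoc]
        simp only [mul_assoc]
    _ = ε • wd X Z (sd s t) := by
        rw [h1, h2]; rfl

theorem Spin.star_wd (S : Spin M X Z) (s : Finset ℕ × Finset ℕ) :
    ∃ ε : ℂ, (ε = 1 ∨ ε = -1) ∧ star (wd X Z s) = ε • wd X Z s := by
  obtain ⟨ε, hε, e⟩ := w1_ZX S s.1 s.2
  refine ⟨ε, hε, ?_⟩
  unfold wd
  rw [star_mul, pr_star S.cmX, pr_star S.cmZ, e]

private theorem w1_sq {U : ℕ → H →L[ℂ] H} (h : Cm U) (a : Finset ℕ) : pr U a * pr U a = 1 := by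
  rw [pr_mul h, symmDiff_self]
  exact pr_empty U

theorem Spin.unit_wd (S : Spin M X Z) (s : Finset ℕ × Finset ℕ) :
    star (wd X Z s) * wd X Z s = 1 ∧ wd X Z s * star (wd X Z s) = 1 := by
  unfold wd
  rw [star_mul, pr_star S.cmX, pr_star S.cmZ]
  constructor
  · rw [mul_assoc, ← mul_assoc (pr X s.1), w1_sq S.cmX, one_mul, w1_sq S.cmZ]
  · rw [mul_assoc, ← mul_assoc (pr Z s.2), w1_sq S.cmZ, one_mul, w1_sq S.cmX]

theorem Spin.norm_wd (S : Spin M X Z) (s : Finset ℕ × Finset ℕ) : ‖wd X Z s‖ ≤ 1 := by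
  have h := CStarRing.norm_star_mul_self (x := wd X Z s)
  rw [(S.unit_wd s).1] at h
  have h1 : ‖(1 : H →L[ℂ] H)‖ ≤ 1 := ContinuousLinearMap.norm_id_le
  nlinarith [norm_nonneg (wd X Z s)]

theorem wd_empty : wd X Z (∅, ∅) = 1 := by
  simp only [wd, pr_empty, mul_one]

theorem wd_X (i : ℕ) : wd X Z ({i}, ∅) = X i := by
  simp only [wd, pr_empty, mul_one, pr_single]

theorem wd_Z (i : ℕ) : wd X Z (∅, {i}) = Z i := by
  simp only [wd, pr_empty, one_mul, pr_single]

/-- commutation of `X i` with words -/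
theorem Spin.commX (S : Spin M X Z) (i : ℕ) (s : Finset ℕ × Finset ℕ) :
    (i ∉ s.2 → X i * wd X Z s = wd X Z s * X i) ∧
      (i ∈ s.2 → X i * wd X Z s = -(wd X Z s * X i)) := by
  have hx : X i * pr X s.1 = pr X s.1 * X i := pr_comm X (X i) s.1 (fun j _ => S.cXX i j)
  constructor
  · intro hi
    have hz : X i * pr Z s.2 = pr Z s.2 * X i := by
      apply pr_comm
      intro j hj
      exact S.cXZ i j (fun h => hi (h ▸ hj))
    simp only [wd]
    rw [← mul_assoc, hx, mul_assoc, hz, ← mul_assoc]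
  · intro hi
    have hz : X i * pr Z s.2 = -(pr Z s.2 * X i) := by
      apply pr_anti Z (X i) s.2 i hi (S.anti i)
      intro j _ hj
      exact S.cXZ i j (fun h => hj h.symm)
    simp only [wd]
    rw [← mul_assoc, hx, mul_assoc, hz, mul_neg, ← mul_assoc]

/-- commutation of `Z i` with words -/
theorem Spin.commZ (S : Spin M X Z) (i : ℕ) (s : Finset ℕ × Finset ℕ) :
    (i ∉ s.1 → Z i * wd X Z s = wd X Z s * Z i) ∧
      (i ∈ s.1 → Z i * wd X Z s = -(wd X Z s * Z i)) := by
  have hz : Z i * pr Z s.2 = pr Z s.2 * Z i := pr_comm Z (Z i) s.2 (fun j _ => S.cZZ i j)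
  constructor
  · intro hi
    have hx : Z i * pr X s.1 = pr X s.1 * Z i := by
      apply pr_comm
      intro j hj
      exact (S.cXZ j i (fun h => hi (h ▸ hj))).symm
    simp only [wd]
    rw [← mul_assoc, hx, mul_assoc, hz, ← mul_assoc]
  · intro hi
    have hx : Z i * pr X s.1 = -(pr X s.1 * Z i) := by
      apply pr_anti X (Z i) s.1 i hi
      · rw [S.anti i, neg_neg]
      · intro j _ hj
        exact (S.cXZ j i hj).symm
    simp only [wd]
    rw [← mul_assoc, hx, neg_mul, mul_assoc, hz, ← mul_assoc]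

theorem sd_sd (s t : Finset ℕ × Finset ℕ) : sd (sd s t) t = s := by
  simp only [sd, symmDiff_assoc, symmDiff_self, symmDiff_bot]

theorem sd_self (s : Finset ℕ × Finset ℕ) : sd s s = (∅, ∅) := by
  simp only [sd, symmDiff_self]
  rfl

theorem mem_Qk {k : ℕ} {s : Finset ℕ × Finset ℕ} :
    s ∈ Qk k ↔ (∀ i ∈ s.1, i < k) ∧ ∀ i ∈ s.2, i < k := by
  simp only [Qk, Finset.mem_product, Finset.mem_powerset, Finset.subset_iff, Finset.mem_range]

theorem Qk_mono {k l : ℕ} (h : k ≤ l) : Qk k ⊆ Qk l := by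
  intro s hs
  rw [mem_Qk] at hs ⊢
  exact ⟨fun i hi => lt_of_lt_of_le (hs.1 i hi) h, fun i hi => lt_of_lt_of_le (hs.2 i hi) h⟩

theorem exists_Qk (s : Finset ℕ × Finset ℕ) : ∃ k, s ∈ Qk k := by
  refine ⟨(s.1.sup id + 1) + (s.2.sup id + 1), ?_⟩
  rw [mem_Qk]
  exact ⟨fun i hi => lt_of_lt_of_le (w1_lt _ i hi) (by omega),
    fun i hi => lt_of_lt_of_le (w1_lt _ i hi) (by omega)⟩

theorem card_Qk (k : ℕ) : (Qk k).card = 4 ^ k := by
  simp only [Qk, Finset.card_product, Finset.card_powerset, Finset.card_range]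
  rw [← mul_pow]
  norm_num

theorem sd_mem {k : ℕ} {s t : Finset ℕ × Finset ℕ} (hs : s ∈ Qk k) (ht : t ∈ Qk k) :
    sd s t ∈ Qk k := by
  rw [mem_Qk] at hs ht ⊢
  constructor
  · intro i hi
    rcases Finset.mem_symmDiff.mp hi with h | h
    · exact hs.1 i h.1
    · exact ht.1 i h.1
  · intro i hi
    rcases Finset.mem_symmDiff.mp hi with h | h
    · exact hs.2 i h.1
    · exact ht.2 i h.1

theorem sum_sd {V : Type} [AddCommMonoid V] {k : ℕ} {t : Finset ℕ × Finset ℕ} (ht : t ∈ Qk k)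
    (F : Finset ℕ × Finset ℕ → V) : ∑ s ∈ Qk k, F (sd s t) = ∑ s ∈ Qk k, F s := by
  apply Finset.sum_nbij' (fun s => sd s t) (fun s => sd s t)
  · intro s hs; exact sd_mem hs ht
  · intro s hs; exact sd_mem hs ht
  · intro s _; exact sd_sd s t
  · intro s _; exact sd_sd s t
  · intro s _; rfl

end Pool.Agent.HFT
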