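import Pool.Agent.HFT.Lim
import Pool.Agent.HFT.W1

set_option autoImplicit false
set_option linter.unusedSectionVars false

/-! # Module P1a (3 points): averaging over the words

`wA S s : RA M` is the word. Cocycle identity for `φ` at `(w_s, w_t, y)`:
`φ(w_t, y) = w_s* φ(w_s w_t, y) - w_s* φ(w_s, w_t y) + w_s* φ(w_s, w_t) y` (multiply by
`star w_s`). Let `a_k(y) = (4^k)⁻¹ ∑ s ∈ Qk k, star (w_s) * φ(w_s, y)`, `‖a_k(y)‖ ≤ ‖φ‖ ‖y‖`
(`card_Qk`, `Spin.norm_wd`). `star (w_s) φ(w_s w_t, y)`: `w_s w_t = ε w_{s+t}`, `ε = ± 1`, and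
`star w_s = w_t star(w_t) star(w_s) = w_t star (w_s w_t) = ε w_t star (w_{s+t})`, so
`star (w_s) φ(w_s w_t, y) = w_t (star (w_{s+t}) φ(w_{s+t}, y))` (`ε² = 1`). Sum over `s ∈ Qk k` for
`t ∈ Qk k`, `sum_sd`: `φ(w_t, y) = w_t a_k(y) - a_k(w_t y) + a_k(w_t) y` for all `k` with
`t ∈ Qk k`. `ψ y = uL (fun k => a_k y)` is linear in `y` (`uL_add`, `uL_smul`), bounded by `‖φ‖ ‖y‖`
(`uL_norm`), and the identity passes to the ultralimit (`uL_congr`, `uL_const`, `uL_mul_left`,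
`uL_mul_right`, `uL_add`, `uL_sub`; common bound `‖φ‖ (‖y‖ + ‖w_t y‖ + ...)`, take the maximum). -/

namespace Pool.Agent.HFT

open Pool.Agent.HK Filter Topology

variable {H : Type} [NormedAddCommGroup H] [InnerProductSpace ℂ H] [CompleteSpace H]
variable {M : VonNeumannAlgebra H} {X Z : ℕ → H →L[ℂ] H}

/-- the word as an element of the algebra -/
noncomputable def wA (S : Spin M X Z) (s : Finset ℕ × Finset ℕ) : RA M := ⟨wd X Z s, S.mem_wd s⟩

/-- the average of `star (w_s) * φ (w_s, y)` over the words in the first `k` positions -/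
private noncomputable def p1a_av (S : Spin M X Z)
    (φ : RA M →L[ℂ] RA M →L[ℂ] (H →L[ℂ] H)) (k : ℕ) (y : RA M) : H →L[ℂ] H :=
  ((4 : ℂ) ^ k)⁻¹ • ∑ s ∈ Qk k, star (wd X Z s) * φ (wA S s) y

private theorem p1a_norm (S : Spin M X Z) (φ : RA M →L[ℂ] RA M →L[ℂ] (H →L[ℂ] H)) (k : ℕ)
    (y : RA M) : ‖p1a_av S φ k y‖ ≤ ‖φ‖ * ‖y‖ := by
  have h1 : ∀ s ∈ Qk k, ‖star (wd X Z s) * φ (wA S s) y‖ ≤ ‖φ‖ * ‖y‖ := by
    intro s _
    have hw : ‖wA S s‖ ≤ 1 := S.norm_wd s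
    have h2 : ‖φ (wA S s) y‖ ≤ ‖φ‖ * ‖y‖ := by
      calc ‖φ (wA S s) y‖ ≤ ‖φ‖ * ‖wA S s‖ * ‖y‖ := φ.le_opNorm₂ _ _
        _ ≤ ‖φ‖ * 1 * ‖y‖ := by gcongr
        _ = ‖φ‖ * ‖y‖ := by ring
    calc ‖star (wd X Z s) * φ (wA S s) y‖ ≤ ‖star (wd X Z s)‖ * ‖φ (wA S s) y‖ :=
          norm_mul_le _ _
      _ ≤ 1 * (‖φ‖ * ‖y‖) := by
        have := S.norm_wd s
        rw [norm_star]
        gcongr
      _ = ‖φ‖ * ‖y‖ := one_mul _
  have h3 := norm_sum_le_of_le (Qk k) h1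
  rw [Finset.sum_const, card_Qk, nsmul_eq_mul] at h3
  have h4 : ‖((4 : ℂ) ^ k)⁻¹‖ = ((4 : ℝ) ^ k)⁻¹ := by
    rw [norm_inv, norm_pow]; norm_num
  rw [p1a_av, norm_smul, h4]
  have h5 : (0 : ℝ) < 4 ^ k := by positivity
  calc ((4 : ℝ) ^ k)⁻¹ * ‖∑ s ∈ Qk k, star (wd X Z s) * φ (wA S s) y‖
      ≤ ((4 : ℝ) ^ k)⁻¹ * (((4 ^ k : ℕ) : ℝ) * (‖φ‖ * ‖y‖)) := by gcongr
    _ = ‖φ‖ * ‖y‖ := by
      push_cast
      rw [← mul_assoc, inv_mul_cancel₀ h5.ne', one_mul]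

private theorem p1a_add (S : Spin M X Z) (φ : RA M →L[ℂ] RA M →L[ℂ] (H →L[ℂ] H)) (k : ℕ)
    (y z : RA M) : p1a_av S φ k (y + z) = p1a_av S φ k y + p1a_av S φ k z := by
  simp only [p1a_av, map_add, mul_add, Finset.sum_add_distrib, smul_add]

private theorem p1a_smul (S : Spin M X Z) (φ : RA M →L[ℂ] RA M →L[ℂ] (H →L[ℂ] H)) (k : ℕ)
    (c : ℂ) (y : RA M) : p1a_av S φ k (c • y) = c • p1a_av S φ k y := by
  simp only [p1a_av, map_smul, mul_smul_comm, ← Finset.smul_sum]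
  rw [smul_comm]

private theorem p1a_word (S : Spin M X Z) (φ : RA M →L[ℂ] RA M →L[ℂ] (H →L[ℂ] H))
    (h : ∀ x y z, x.1 * φ y z - φ (x * y) z + φ x (y * z) - φ x y * z.1 = 0)
    (s t : Finset ℕ × Finset ℕ) (y : RA M) :
    φ (wA S t) y = wd X Z t * (star (wd X Z (sd s t)) * φ (wA S (sd s t)) y) -
      star (wd X Z s) * φ (wA S s) (wA S t * y) +
      star (wd X Z s) * φ (wA S s) (wA S t) * y.1 := by
  obtain ⟨ε, hε, hm⟩ := S.mul_wd s t
  have hA : wA S s * wA S t = ε • wA S (sd s t) := Subtype.ext hm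
  have hεε : (starRingEnd ℂ) ε * ε = 1 := by
    rcases hε with rfl | rfl <;> simp
  have hst : star (wd X Z s) = (starRingEnd ℂ) ε • (wd X Z t * star (wd X Z (sd s t))) := by
    have h1 : star (wd X Z t) * star (wd X Z s) = (starRingEnd ℂ) ε • star (wd X Z (sd s t)) := by
      rw [← star_mul, hm, star_smul]; rfl
    have h2 := (S.unit_wd t).2
    calc star (wd X Z s) = wd X Z t * star (wd X Z t) * star (wd X Z s) := by rw [h2, one_mul]
      _ = wd X Z t * (star (wd X Z t) * star (wd X Z s)) := by rw [mul_assoc]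
      _ = _ := by rw [h1, mul_smul_comm]
  have e1 : star (wd X Z s) * φ (wA S s * wA S t) y =
      wd X Z t * (star (wd X Z (sd s t)) * φ (wA S (sd s t)) y) := by
    rw [hA, map_smul, smul_apply, hst, smul_mul_smul_comm, hεε, one_smul,
      mul_assoc]
  have e2 := h (wA S s) (wA S t) y
  have e3 : star (wd X Z s) * ((wA S s).1 * φ (wA S t) y) = φ (wA S t) y := by
    have : (wA S s).1 = wd X Z s := rfl
    rw [this, ← mul_assoc, (S.unit_wd s).1, one_mul]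
  have e4 : star (wd X Z s) * ((wA S s).1 * φ (wA S t) y - φ (wA S s * wA S t) y +
      φ (wA S s) (wA S t * y) - φ (wA S s) (wA S t) * y.1) = 0 := by rw [e2, mul_zero]
  rw [mul_sub, mul_add, mul_sub, e3, e1, ← mul_assoc (star (wd X Z s)) (φ (wA S s) (wA S t)) y.1]
    at e4
  rw [sub_eq_zero] at e4
  rw [← e4]
  abel

private theorem p1a_id (S : Spin M X Z) (φ : RA M →L[ℂ] RA M →L[ℂ] (H →L[ℂ] H))
    (h : ∀ x y z, x.1 * φ y z - φ (x * y) z + φ x (y * z) - φ x y * z.1 = 0)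
    (t : Finset ℕ × Finset ℕ) (y : RA M) (k : ℕ) (ht : t ∈ Qk k) :
    φ (wA S t) y = wd X Z t * p1a_av S φ k y - p1a_av S φ k (wA S t * y) +
      p1a_av S φ k (wA S t) * y.1 := by
  have h5 : (4 : ℂ) ^ k ≠ 0 := pow_ne_zero k (by norm_num)
  have e1 : ((4 : ℂ) ^ k) • φ (wA S t) y =
      wd X Z t * (∑ s ∈ Qk k, star (wd X Z s) * φ (wA S s) y) -
      (∑ s ∈ Qk k, star (wd X Z s) * φ (wA S s) (wA S t * y)) +
      (∑ s ∈ Qk k, star (wd X Z s) * φ (wA S s) (wA S t)) * y.1 := by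
    have e2 : ((4 : ℂ) ^ k) • φ (wA S t) y = ∑ s ∈ Qk k, φ (wA S t) y := by
      rw [Finset.sum_const, card_Qk, ← Nat.cast_smul_eq_nsmul ℂ]
      push_cast
      rfl
    rw [e2, ← sum_sd ht fun s => star (wd X Z s) * φ (wA S s) y, Finset.mul_sum, Finset.sum_mul,
      ← Finset.sum_sub_distrib, ← Finset.sum_add_distrib]
    exact Finset.sum_congr rfl fun s _ => p1a_word S φ h s t y
  have e3 : φ (wA S t) y = ((4 : ℂ) ^ k)⁻¹ • (((4 : ℂ) ^ k) • φ (wA S t) y) := by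
    rw [smul_smul, inv_mul_cancel₀ h5, one_smul]
  rw [e3, e1]
  simp only [p1a_av, smul_add, smul_sub, mul_smul_comm, smul_mul_assoc]

theorem prim0 (S : Spin M X Z) (φ : RA M →L[ℂ] RA M →L[ℂ] (H →L[ℂ] H))
    (h : ∀ x y z, x.1 * φ y z - φ (x * y) z + φ x (y * z) - φ x y * z.1 = 0) :
    ∃ ψ : RA M →L[ℂ] (H →L[ℂ] H), ‖ψ‖ ≤ ‖φ‖ ∧
      ∀ s (y : RA M), φ (wA S s) y = wd X Z s * ψ y - ψ (wA S s * y) + ψ (wA S s) * y.1 := by
  have hb := p1a_norm S φ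
  let ψ₀ : RA M →ₗ[ℂ] (H →L[ℂ] H) :=
    { toFun := fun y => uL fun k => p1a_av S φ k y
      map_add' := fun y z => by
        have e : (fun k => p1a_av S φ k (y + z)) =
            fun k => p1a_av S φ k y + p1a_av S φ k z := funext fun k => p1a_add S φ k y z
        rw [e]
        exact uL_add (C := max (‖φ‖ * ‖y‖) (‖φ‖ * ‖z‖))
          (fun k => (hb k y).trans (le_max_left _ _)) fun k => (hb k z).trans (le_max_right _ _)
      map_smul' := fun c y => by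
        have e : (fun k => p1a_av S φ k (c • y)) = fun k => c • p1a_av S φ k y :=
          funext fun k => p1a_smul S φ k c y
        rw [e]
        exact uL_smul (fun k => hb k y) c }
  let ψ : RA M →L[ℂ] (H →L[ℂ] H) := ψ₀.mkContinuous ‖φ‖ fun y => uL_norm fun k => hb k y
  refine ⟨ψ, ψ₀.mkContinuous_norm_le (norm_nonneg φ) _, fun t y => ?_⟩
  have hψ : ∀ y, ψ y = uL fun k => p1a_av S φ k y := fun _ => rfl
  obtain ⟨k₀, hk₀⟩ := exists_Qk t
  set C₁ := ‖wd X Z t‖ * (‖φ‖ * ‖y‖) with hC₁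
  set C₂ := ‖φ‖ * ‖wA S t * y‖ with hC₂
  set C₃ := ‖φ‖ * ‖wA S t‖ * ‖y.1‖ with hC₃
  have b1 : ∀ k, ‖wd X Z t * p1a_av S φ k y‖ ≤ C₁ := fun k =>
    (norm_mul_le _ _).trans (mul_le_mul_of_nonneg_left (hb k y) (norm_nonneg _))
  have b2 : ∀ k, ‖p1a_av S φ k (wA S t * y)‖ ≤ C₂ := fun k => hb k _
  have b3 : ∀ k, ‖p1a_av S φ k (wA S t) * y.1‖ ≤ C₃ := fun k =>
    (norm_mul_le _ _).trans (mul_le_mul_of_nonneg_right (hb k _) (norm_nonneg _))
  have hC₁0 : 0 ≤ C₁ := (norm_nonneg _).trans (b1 0)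
  have hC₂0 : 0 ≤ C₂ := (norm_nonneg _).trans (b2 0)
  have hC₃0 : 0 ≤ C₃ := (norm_nonneg _).trans (b3 0)
  have b12 : ∀ k, ‖wd X Z t * p1a_av S φ k y - p1a_av S φ k (wA S t * y)‖ ≤ C₁ + C₂ + C₃ :=
    fun k => by
      have := norm_sub_le (wd X Z t * p1a_av S φ k y) (p1a_av S φ k (wA S t * y))
      linarith [b1 k, b2 k]
  have b123 : ∀ k, ‖wd X Z t * p1a_av S φ k y - p1a_av S φ k (wA S t * y) +
      p1a_av S φ k (wA S t) * y.1‖ ≤ C₁ + C₂ + C₃ + ‖φ (wA S t) y‖ := fun k => by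
    have h1 := norm_add_le (wd X Z t * p1a_av S φ k y - p1a_av S φ k (wA S t * y))
      (p1a_av S φ k (wA S t) * y.1)
    have h2 := norm_sub_le (wd X Z t * p1a_av S φ k y) (p1a_av S φ k (wA S t * y))
    linarith [b1 k, b2 k, b3 k, norm_nonneg (φ (wA S t) y)]
  calc φ (wA S t) y = uL fun _ => φ (wA S t) y := (uL_const _).symm
    _ = uL (fun k => wd X Z t * p1a_av S φ k y - p1a_av S φ k (wA S t * y) +
          p1a_av S φ k (wA S t) * y.1) :=
        uL_congr (C := C₁ + C₂ + C₃ + ‖φ (wA S t) y‖) (fun _ => by linarith) b123 k₀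
          fun k hk => p1a_id S φ h t y k (Qk_mono hk hk₀)
    _ = uL (fun k => wd X Z t * p1a_av S φ k y - p1a_av S φ k (wA S t * y)) +
          uL (fun k => p1a_av S φ k (wA S t) * y.1) :=
        uL_add b12 fun k => (b3 k).trans (by linarith)
    _ = uL (fun k => wd X Z t * p1a_av S φ k y) - uL (fun k => p1a_av S φ k (wA S t * y)) +
          uL (fun k => p1a_av S φ k (wA S t) * y.1) := by
        rw [uL_sub (C := C₁ + C₂) (fun k => (b1 k).trans (by linarith))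
          fun k => (b2 k).trans (by linarith)]
    _ = wd X Z t * ψ y - ψ (wA S t * y) + ψ (wA S t) * y.1 := by
        rw [uL_mul_left (fun k => hb k y), uL_mul_right (fun k => hb k (wA S t)), hψ, hψ, hψ]

end Pool.Agent.HFT
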