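import Pool.Agent.HFT.W2

set_option autoImplicit false
set_option linter.unusedSectionVars false

/-! # Module W6 (2 points): weakly null sequences and essential norms

`wnull`: `‖Z j v‖ = ‖v‖`; enough to prove `⟪b, Z j a⟫ → 0` for `a, b` in a total set. As in
`TrF.sot` (Tr2) the vectors `c (ξ i)`, `c ∈ M.commutant`, are total. For `a = c (ξ i)`,
`b` arbitrary: `⟪b, Z j c ξ i⟫ = ⟪star c b, Z j (ξ i)⟫` (`vn_commute`). So enough: for every `u : H`
and `i`: `⟪u, Z j (ξ i)⟫ → 0` as `j → ∞`. The vectors `Z̃ j = (Z j (ξ l))_l` of `ℓ²(H)` are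
orthonormal (`ip_wd`, `wd_Z`), and `⟪u, Z j (ξ i)⟫ = ⟪ũ, Z̃ j⟫` for `ũ = (0, …, u, 0, …)` (`u` at
position `i`; `lp.single`), so the sum of `|⟪u, Z j (ξ i)⟫|²` converges (Bessel,
`Orthonormal.inner_products_summable`). Without `lp`: for complex numbers `c j` (`j ∈ F` finite) and
`y = ∑ c j • Z j`: `|∑ c j ⟪u, Z j (ξ i)⟫| = |⟪u, y (ξ i)⟫| ≤ ‖u‖ n2 y = ‖u‖ (∑ |c j|²)^(1/2)`; take
`c j = conj ⟪u, Z j (ξ i)⟫`: `∑_F |⟪u, Z j (ξ i)⟫|² ≤ ‖u‖²`.
To extract density from Tr2 either repeat its argument or prove `total` first.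

`ess`: `‖(T + κ) (U j v)‖ ≤ ‖T + κ‖ ‖v‖` and
`‖(T + κ) (U j v)‖ ≥ ‖T (U j v)‖ - ‖κ (U j v)‖ = ‖U j (T v)‖ - ‖κ (U j v)‖ = ‖T v‖ - ‖κ (U j v)‖`, and
`κ (U j v) → 0` in norm because `κ` is compact and `U j v → 0` weakly, bounded: otherwise a
subsequence of `κ (U j v)` has norm `≥ c`, a further one converges in norm
(`IsCompactOperator.isCompact_closure_image_closedBall`, as in `compact_orthonormal` in HK/Ros),
the limit `y` satisfies `⟪y, y⟫ = lim ⟪y, κ (U j v)⟫ = lim ⟪κ* y, U j v⟫ = 0`. -/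

namespace Pool.Agent.HFT

open Pool.Agent.HK Filter Topology

variable {H : Type} [NormedAddCommGroup H] [InnerProductSpace ℂ H] [CompleteSpace H]
variable {M : VonNeumannAlgebra H} {ξ : ℕ → H} {X Z : ℕ → H →L[ℂ] H}

private theorem w6_norm (S : Spin M X Z) (j : ℕ) (v : H) : ‖Z j v‖ = ‖v‖ := by
  have h1 : star (Z j) * Z j = 1 := by rw [S.Zs, S.Z2]
  have h2 : (inner ℂ (Z j v) (Z j v) : ℂ) = inner ℂ v v := by
    rw [← ContinuousLinearMap.adjoint_inner_right]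
    have h3 : (ContinuousLinearMap.adjoint (Z j)) (Z j v) = v := by
      have h4 := congrArg (fun T : H →L[ℂ] H => T v) h1
      exact h4
    rw [h3]
  rw [inner_self_eq_norm_sq_to_K, inner_self_eq_norm_sq_to_K] at h2
  have h3 : ‖Z j v‖ ^ 2 = ‖v‖ ^ 2 := by exact_mod_cast h2
  exact (sq_eq_sq₀ (norm_nonneg _) (norm_nonneg _)).1 h3

private theorem w6_ip (T : TrF M ξ) (S : Spin M X Z) (j k : ℕ) :
    ip ξ (Z j) (Z k) = if j = k then 1 else 0 := by
  have h := ip_wd T S (∅, {j}) (∅, {k})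
  rw [wd_Z, wd_Z] at h
  rw [h]
  by_cases hjk : j = k
  · simp [hjk]
  · simp [hjk]

private theorem w6_n2 (T : TrF M ξ) (S : Spin M X Z) (F : Finset ℕ) (c : ℕ → ℂ) :
    n2 ξ (∑ j ∈ F, c j • Z j) ^ 2 = ∑ j ∈ F, ‖c j‖ ^ 2 := by
  have h1 := ip_self T.summ (∑ j ∈ F, c j • Z j)
  have h2 : ∀ k ∈ F, ip ξ (∑ j ∈ F, c j • Z j) (Z k) = (starRingEnd ℂ) (c k) := by
    intro k hk
    rw [← ip_conj, ip_sum T.summ]
    congr 1
    simp only [ip_smul, w6_ip T S]
    simp [hk]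
  rw [ip_sum T.summ] at h1
  simp only [ip_smul] at h1
  rw [Finset.sum_congr rfl (fun k hk => by rw [h2 k hk])] at h1
  have h3 : (∑ k ∈ F, c k * (starRingEnd ℂ) (c k) : ℂ) = ((∑ k ∈ F, ‖c k‖ ^ 2 : ℝ) : ℂ) := by
    push_cast
    refine Finset.sum_congr rfl fun k _ => ?_
    rw [Complex.mul_conj, Complex.normSq_eq_norm_sq]
    push_cast
    rfl
  rw [h3] at h1
  exact_mod_cast h1.symm

private theorem w6_xi (T : TrF M ξ) (S : Spin M X Z) (u : H) (i : ℕ) :
    Tendsto (fun j => (inner ℂ u (Z j (ξ i)) : ℂ)) atTop (𝓝 0) := by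
  obtain ⟨a, ha⟩ : ∃ a : ℕ → ℂ, a = fun j => (inner ℂ u (Z j (ξ i)) : ℂ) := ⟨_, rfl⟩
  have hb : ∀ F : Finset ℕ, ∑ j ∈ F, ‖a j‖ ^ 2 ≤ ‖u‖ ^ 2 := by
    intro F
    have h1 : (inner ℂ u ((∑ j ∈ F, (starRingEnd ℂ) (a j) • Z j) (ξ i)) : ℂ) =
        ((∑ j ∈ F, ‖a j‖ ^ 2 : ℝ) : ℂ) := by
      rw [_root_.sum_apply, inner_sum]
      push_cast
      refine Finset.sum_congr rfl fun k _ => ?_
      have h2 : (inner ℂ u (Z k (ξ i)) : ℂ) = a k := by rw [ha]
      have h3 : (inner ℂ u (((starRingEnd ℂ) (a k) • Z k) (ξ i)) : ℂ) =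
          (starRingEnd ℂ) (a k) * a k := by
        rw [← h2]
        exact inner_smul_right _ _ _
      refine Eq.trans h3 ?_
      rw [mul_comm, Complex.mul_conj, Complex.normSq_eq_norm_sq]
      push_cast
      rfl
    have hs0 : 0 ≤ ∑ j ∈ F, ‖a j‖ ^ 2 := Finset.sum_nonneg fun _ _ => by positivity
    have h3 : ∑ j ∈ F, ‖a j‖ ^ 2 ≤
        ‖u‖ * n2 ξ (∑ j ∈ F, (starRingEnd ℂ) (a j) • Z j) := by
      have h4 := norm_inner_le_norm (𝕜 := ℂ) u
        ((∑ j ∈ F, (starRingEnd ℂ) (a j) • Z j) (ξ i))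
      rw [h1, Complex.norm_real, Real.norm_of_nonneg hs0] at h4
      exact h4.trans (mul_le_mul_of_nonneg_left (le_n2 T.summ _ i) (norm_nonneg _))
    have h5 := w6_n2 T S F (fun j => (starRingEnd ℂ) (a j))
    have h6 : ∑ j ∈ F, ‖(starRingEnd ℂ) (a j)‖ ^ 2 = ∑ j ∈ F, ‖a j‖ ^ 2 :=
      Finset.sum_congr rfl fun j _ => by rw [RCLike.norm_conj]
    rw [h6] at h5
    have hn := n2_nonneg ξ (∑ j ∈ F, (starRingEnd ℂ) (a j) • Z j)
    generalize n2 ξ (∑ j ∈ F, (starRingEnd ℂ) (a j) • Z j) = n at h3 h5 hn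
    rw [← h5] at h3 ⊢
    rcases hn.eq_or_lt with h | h
    · rw [← h, zero_pow two_ne_zero]
      exact pow_nonneg (norm_nonneg _) 2
    · have h7 : n ≤ ‖u‖ := by
        by_contra hc
        push Not at hc
        nlinarith [norm_nonneg u]
      exact pow_le_pow_left₀ hn h7 2
  have hsum : Summable fun j => ‖a j‖ ^ 2 :=
    summable_of_sum_le (fun _ => by positivity) hb
  have h0 := hsum.tendsto_atTop_zero
  have h1 : Tendsto (fun j => Real.sqrt (‖a j‖ ^ 2)) atTop (𝓝 0) := by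
    have := (Real.continuous_sqrt.tendsto 0).comp h0
    rw [Real.sqrt_zero] at this
    exact this
  have h2 : Tendsto a atTop (𝓝 0) := by
    rw [tendsto_zero_iff_norm_tendsto_zero]
    refine h1.congr fun n => ?_
    rw [Real.sqrt_sq (norm_nonneg _)]
  rw [ha] at h2
  exact h2

theorem wnull (T : TrF M ξ) (S : Spin M X Z) (a b : H) :
    Tendsto (fun j => (inner ℂ b (Z j a) : ℂ)) atTop (𝓝 0) := by
  let L : Submodule ℂ H :=
    { carrier := {a | ∀ b : H, Tendsto (fun j => (inner ℂ b (Z j a) : ℂ)) atTop (𝓝 0)}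
      zero_mem' := fun b => by simp
      add_mem' := fun {x y} hx hy b => by
        have h := (hx b).add (hy b)
        rw [add_zero] at h
        refine h.congr fun j => ?_
        rw [map_add, inner_add_right]
      smul_mem' := fun c x hx b => by
        have h := (hx b).const_mul c
        rw [mul_zero] at h
        refine h.congr fun j => ?_
        rw [map_smul, inner_smul_right] }
  have hL : ∀ y, y ∈ L ↔ ∀ b : H, Tendsto (fun j => (inner ℂ b (Z j y) : ℂ)) atTop (𝓝 0) :=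
    fun y => Iff.rfl
  have hLc : IsClosed (L : Set H) := by
    refine isClosed_of_closure_subset fun x hx => ?_
    show x ∈ L
    rw [hL]
    intro b
    rw [Metric.tendsto_atTop]
    intro ε hε
    obtain ⟨y, hy, hxy⟩ := Metric.mem_closure_iff.1 hx (ε / (2 * (‖b‖ + 1))) (by positivity)
    have hy' : y ∈ L := hy
    obtain ⟨N, hN⟩ := Metric.tendsto_atTop.1 ((hL y).1 hy' b) (ε / 2) (by positivity)
    refine ⟨N, fun n hn => ?_⟩
    have h1 := hN n hn
    rw [dist_zero_right] at h1 ⊢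
    have h2 : (inner ℂ b (Z n x) : ℂ) = inner ℂ b (Z n y) + inner ℂ b (Z n (x - y)) := by
      rw [← inner_add_right, ← map_add]
      congr 2
      abel
    have h3 : ‖(inner ℂ b (Z n (x - y)) : ℂ)‖ ≤ ε / 2 := by
      calc ‖(inner ℂ b (Z n (x - y)) : ℂ)‖ ≤ ‖b‖ * ‖Z n (x - y)‖ := norm_inner_le_norm _ _
        _ = ‖b‖ * dist x y := by rw [w6_norm S, dist_eq_norm]
        _ ≤ (‖b‖ + 1) * (ε / (2 * (‖b‖ + 1))) := by
            apply mul_le_mul (by linarith) hxy.le dist_nonneg (by positivity)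
        _ = ε / 2 := by field_simp
    rw [h2]
    calc ‖(inner ℂ b (Z n y) : ℂ) + inner ℂ b (Z n (x - y))‖
        ≤ ‖(inner ℂ b (Z n y) : ℂ)‖ + ‖(inner ℂ b (Z n (x - y)) : ℂ)‖ := norm_add_le _ _
      _ < ε := by linarith
  have : CompleteSpace L := hLc.completeSpace_coe
  have hr : IsStarProjection L.starProjection := isStarProjection_starProjection
  have hrN : L.starProjection ∈ M := by
    rw [VonNeumannAlgebra.IsStarProjection.mem_iff hr M]
    intro y hy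
    have hrange : (L.starProjection).range = L := Submodule.range_starProjection L
    rw [hrange, Module.End.mem_invtSubmodule]
    intro x hx
    show y x ∈ L
    rw [hL]
    intro b
    have h1 : ∀ j, (inner ℂ b (Z j (y x)) : ℂ) =
        inner ℂ (ContinuousLinearMap.adjoint y b) (Z j x) := by
      intro j
      rw [ContinuousLinearMap.adjoint_inner_left]
      have h2 : y (Z j x) = Z j (y x) :=
        congrArg (fun T : H →L[ℂ] H => T x) (vn_commute (S.Zm j) hy)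
      rw [h2]
    simp only [h1]
    exact (hL x).1 hx _
  have hz : (1 : H →L[ℂ] H) - L.starProjection = 0 := by
    refine T.faith _ (sub_mem (one_mem M) hrN) fun i => ?_
    show ξ i - L.starProjection (ξ i) = 0
    rw [Submodule.starProjection_eq_self_iff.mpr, sub_self]
    rw [hL]
    intro b
    exact w6_xi T S b i
  have ha : L.starProjection a = a := by
    have h1 := congrArg (fun T : H →L[ℂ] H => T a) hz
    have h2 : a - L.starProjection a = 0 := h1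
    exact (sub_eq_zero.1 h2).symm
  have ha' : a ∈ L := by
    rw [← ha]
    exact Submodule.starProjection_apply_mem L a
  exact (hL a).1 ha' b

private theorem w6_compact (κ : H →L[ℂ] H) (hκ : IsCompactOperator κ) (w : ℕ → H) (C : ℝ)
    (hC : ∀ j, ‖w j‖ ≤ C)
    (h4 : ∀ b, Tendsto (fun j => (inner ℂ b (w j) : ℂ)) atTop (𝓝 0)) :
    Tendsto (fun j => κ (w j)) atTop (𝓝 0) := by
  have hcpt := IsCompactOperator.isCompact_closure_image_closedBall (f := (κ : H →ₗ[ℂ] H)) hκ C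
  refine tendsto_of_subseq_tendsto fun ns hns => ?_
  have hmem : ∀ n, κ (w (ns n)) ∈ closure ((κ : H → H) '' Metric.closedBall 0 C) := by
    intro n
    apply subset_closure
    refine ⟨w (ns n), ?_, rfl⟩
    rw [mem_closedBall_zero_iff]
    exact hC _
  obtain ⟨y, _, φ, hφ, hy⟩ := hcpt.tendsto_subseq hmem
  refine ⟨φ, ?_⟩
  have h1 : Tendsto (fun n => (inner ℂ y (κ (w (ns (φ n)))) : ℂ)) atTop (𝓝 0) := by
    have h2 : ∀ n, (inner ℂ y (κ (w (ns (φ n)))) : ℂ) =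
        inner ℂ (ContinuousLinearMap.adjoint κ y) (w (ns (φ n))) := by
      intro n
      rw [ContinuousLinearMap.adjoint_inner_left]
    simp only [h2]
    exact (h4 _).comp (hns.comp hφ.tendsto_atTop)
  have h8 : Tendsto (fun n => (inner ℂ y (κ (w (ns (φ n)))) : ℂ)) atTop (𝓝 (inner ℂ y y)) :=
    (tendsto_const_nhds (x := y)).inner hy
  have h9 : (inner ℂ y y : ℂ) = 0 := tendsto_nhds_unique h8 h1
  rw [inner_self_eq_zero] at h9
  subst h9
  exact hy

theorem ess (T κ : H →L[ℂ] H) (hκ : IsCompactOperator κ) (v : H) (U : ℕ → H →L[ℂ] H)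
    (h1 : ∀ j, ‖U j v‖ ≤ ‖v‖) (h2 : ∀ j, ‖U j (T v)‖ = ‖T v‖)
    (h3 : ∀ j, T (U j v) = U j (T v))
    (h4 : ∀ b, Tendsto (fun j => (inner ℂ b (U j v) : ℂ)) atTop (𝓝 0)) :
    ‖T v‖ ≤ ‖T + κ‖ * ‖v‖ := by
  have h5 := w6_compact κ hκ (fun j => U j v) ‖v‖ h1 h4
  have h6 : Tendsto (fun j => ‖T + κ‖ * ‖v‖ + ‖κ (U j v)‖) atTop (𝓝 (‖T + κ‖ * ‖v‖ + 0)) := by
    have h7 := h5.norm
    rw [norm_zero] at h7
    exact tendsto_const_nhds.add h7
  rw [add_zero] at h6
  refine ge_of_tendsto' h6 fun j => ?_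
  have h8 : ‖T v‖ = ‖T (U j v)‖ := by rw [h3, h2]
  have h9 : T (U j v) = (T + κ) (U j v) - κ (U j v) := by
    rw [_root_.add_apply]
    abel
  rw [h8, h9]
  calc ‖(T + κ) (U j v) - κ (U j v)‖ ≤ ‖(T + κ) (U j v)‖ + ‖κ (U j v)‖ := norm_sub_le _ _
    _ ≤ ‖T + κ‖ * ‖v‖ + ‖κ (U j v)‖ := by
        have h10 : ‖(T + κ) (U j v)‖ ≤ ‖T + κ‖ * ‖U j v‖ := ContinuousLinearMap.le_opNorm _ _
        have h11 : ‖T + κ‖ * ‖U j v‖ ≤ ‖T + κ‖ * ‖v‖ :=
          mul_le_mul_of_nonneg_left (h1 j) (norm_nonneg _)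
        linarith

/-- an operator commuting with infinitely many of the `Z j` -/
theorem ess_Z (A : TrF M ξ) (S : Spin M X Z) (T κ : H →L[ℂ] H) (hκ : IsCompactOperator κ)
    (g : ℕ → ℕ) (hg : StrictMono g) (h : ∀ j, T * Z (g j) = Z (g j) * T) :
    ‖T‖ ≤ ‖T + κ‖ := by
  refine ContinuousLinearMap.opNorm_le_bound _ (norm_nonneg _) fun v => ?_
  refine ess T κ hκ v (fun j => Z (g j)) (fun j => (w6_norm S _ _).le)
    (fun j => w6_norm S _ _) (fun j => ?_) (fun b => ?_)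
  · exact congrArg (fun R : H →L[ℂ] H => R v) (h j)
  · exact (wnull A S v b).comp hg.tendsto_atTop

/-- a compact operator commuting with infinitely many of the `Z j` is zero -/
theorem compact_Z (A : TrF M ξ) (S : Spin M X Z) (T : H →L[ℂ] H) (hT : IsCompactOperator T)
    (g : ℕ → ℕ) (hg : StrictMono g) (h : ∀ j, T * Z (g j) = Z (g j) * T) : T = 0 := by
  have h1 := ess_Z A S T (-T) hT.neg g hg h
  rw [add_neg_cancel, norm_zero] at h1
  exact norm_le_zero_iff.1 h1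

end Pool.Agent.HFT
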