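import Pool.Agent.HFT.P2
import Pool.Agent.HFT.H1
import Pool.Agent.HFT.P1a
import Pool.Agent.HFT.W5
import Pool.Agent.HFT.W6

set_option autoImplicit false
set_option linter.unusedSectionVars false

/-! # Module P4 (5 points): correction on the words

`D = DD M Z`, commutative. `w = wd X Z s`, `D' = ` the operators commuting with `D`.

(a) `w x w* ∈ D` for `x ∈ D` and `w* x w ∈ D`: `Z i w = ± w Z i` (`Spin.commZ`), so conjugation by `w`
preserves the commutation with `Z i`. So `w c w* ∈ D'` and `w* c w ∈ D'` for `c ∈ D'`: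
`(w c w*) x = w c (w* x w) w* = w (w* x w) c w* = x (w c w*)`.
(b) `b_s = ψ (w_s) * star (w_s)`. For `x ∈ D`, `x' = w x w* ∈ D`, modulo compact operators:
`ψ (x' w) ≡ x' ψ w + ψ x' w ≡ x' ψ w` and `x' w = w x`: `ψ (w x) ≡ w ψ x + ψ w x ≡ ψ w x`. So
`ψ w x ≡ x' ψ w`; multiply by `w*` on the right: `ψ w x w* = (ψ w w*) (w x w*) = b_s x'` and
`x' ψ w w* = x' b_s`: `x' b_s - b_s x'` is compact for all `x'` of the form `w x w*`, `x ∈ D`, i.e. for
all `x' ∈ D` (take `x = w* x' w`). `ab_split` for `D`: `b_s = c_s + κ_s`, `c_s ∈ D'`, `κ_s` compact.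
Since `c_s` commutes with all `Z j` (`Z j ∈ D`): `‖c_s‖ ≤ ‖b_s‖ ≤ ‖ψ‖` (`ess_Z` with `g = id`), and a
compact operator in `D'` is zero (`compact_Z`).
(c) `c_{s+t} = c_s + w_s c_t w_s*`: with `w_s w_t = ε w_{s+t}` (`ε = ± 1`): `ψ (w_s w_t) ≡ w_s ψ (w_t) +
ψ (w_s) w_t`, times `(w_s w_t)* = w_t* w_s*`: `b_{s+t} = ψ(w_s w_t) (w_s w_t)* ≡ w_s b_t w_s* + b_s` (the signs
cancel: `ε²  = 1`). So `c_{s+t} - c_s - w_s c_t w_s*` is compact and lies in `D'`, so it is zero.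
(d) `τ_s = w_s* c_s w_s ∈ D'`, `‖τ_s‖ ≤ ‖ψ‖`. From (c): `w_s* c_{s+t} w_s = τ_s + c_t`, and
`w_{s+t} = ε w_s w_t`, `τ_{s+t} = w_t* (w_s* c_{s+t} w_s) w_t`, so `w_t τ_{s+t} w_t* = τ_s + c_t`. Average over
`s ∈ Qk k` (`t ∈ Qk k`, `sum_sd`), `S_k = (4^k)⁻¹ ∑ τ_s`: `w_t S_k w_t* = S_k + c_t`, i.e.
`c_t w_t = w_t S_k - S_k w_t`. `T1 = uL S`: `c_t w_t = w_t T1 - T1 w_t` for all `t`, `‖T1‖ ≤ ‖ψ‖`,
and `x T1 = T1 x` for `x ∈ D` (`uL_mul_left`, `uL_mul_right`).
(e) `ψ (w_t) - (w_t T1 - T1 w_t) = (b_t - c_t) w_t = κ_t w_t` is compact. -/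

namespace Pool.Agent.HFT

open Pool.Agent.HK Filter Topology

variable {H : Type} [NormedAddCommGroup H] [InnerProductSpace ℂ H] [CompleteSpace H]
variable {M : VonNeumannAlgebra H} {ξ : ℕ → H} {X Z : ℕ → H →L[ℂ] H}

private theorem p4_conj (S : Spin M X Z) (s : Finset ℕ × Finset ℕ) (x : H →L[ℂ] H) :
    star (wd X Z s) * x * wd X Z s = wd X Z s * x * star (wd X Z s) := by
  obtain ⟨ε, -, h⟩ := S.star_wd s
  rw [h]
  simp only [smul_mul_assoc, mul_smul_comm]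

private theorem p4_commZ (S : Spin M X Z) (s : Finset ℕ × Finset ℕ) (i : ℕ) (x : H →L[ℂ] H)
    (hx : Z i * x = x * Z i) :
    Z i * (wd X Z s * x * star (wd X Z s)) = wd X Z s * x * star (wd X Z s) * Z i := by
  have key : ∃ c : ℂ, (c = 1 ∨ c = -1) ∧ Z i * wd X Z s = c • (wd X Z s * Z i) := by
    by_cases hi : i ∈ s.1
    · exact ⟨-1, Or.inr rfl, by rw [(S.commZ i s).2 hi]; simp⟩
    · exact ⟨1, Or.inl rfl, by rw [(S.commZ i s).1 hi]; simp⟩
  obtain ⟨c, hc, h1⟩ := key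
  have h2 : star (wd X Z s) * Z i = c • (Z i * star (wd X Z s)) := by
    have h3 := congrArg star h1
    rw [star_mul, star_smul, star_mul, S.Zs i] at h3
    rcases hc with rfl | rfl
    · simpa using h3
    · simpa using h3
  calc Z i * (wd X Z s * x * star (wd X Z s))
      = (Z i * wd X Z s) * (x * star (wd X Z s)) := by simp only [mul_assoc]
    _ = c • (wd X Z s * Z i * (x * star (wd X Z s))) := by rw [h1, smul_mul_assoc]
    _ = c • (wd X Z s * ((Z i * x) * star (wd X Z s))) := by simp only [mul_assoc]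
    _ = c • (wd X Z s * ((x * Z i) * star (wd X Z s))) := by rw [hx]
    _ = wd X Z s * x * (c • (Z i * star (wd X Z s))) := by
        simp only [mul_smul_comm, mul_assoc]
    _ = wd X Z s * x * (star (wd X Z s) * Z i) := by rw [h2]
    _ = _ := by simp only [mul_assoc]

private theorem p4_DD (A : Hyp M ξ X Z) (s : Finset ℕ × Finset ℕ) {x : H →L[ℂ] H}
    (hx : x ∈ DD M Z) : wd X Z s * x * star (wd X Z s) ∈ DD M Z := by
  obtain ⟨h1, h2⟩ := A.mem_DD.1 hx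
  refine A.mem_DD.2 ⟨?_, fun i => p4_commZ A.spin s i x (h2 i)⟩
  exact mul_mem (mul_mem (A.spin.mem_wd s) h1) (star_mem (A.spin.mem_wd s))

/-- conjugation preserves the commutant of the diagonal -/
private theorem p4_Dc (A : Hyp M ξ X Z) (s : Finset ℕ × Finset ℕ) {c : H →L[ℂ] H}
    (hc : ∀ x ∈ DD M Z, x * c = c * x) :
    ∀ x ∈ DD M Z, x * (wd X Z s * c * star (wd X Z s)) =
      (wd X Z s * c * star (wd X Z s)) * x := by
  intro x hx
  have hw : wd X Z s * star (wd X Z s) = 1 := (A.spin.unit_wd s).2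
  have h1 := hc _ (p4_DD A s hx)
  rw [← p4_conj A.spin] at h1
  calc x * (wd X Z s * c * star (wd X Z s))
      = (wd X Z s * star (wd X Z s)) * x * (wd X Z s * c * star (wd X Z s)) := by
        rw [hw, one_mul]
    _ = wd X Z s * ((star (wd X Z s) * x * wd X Z s) * c) * star (wd X Z s) := by
        simp only [mul_assoc]
    _ = wd X Z s * (c * (star (wd X Z s) * x * wd X Z s)) * star (wd X Z s) := by rw [h1]
    _ = (wd X Z s * c * star (wd X Z s)) * x * (wd X Z s * star (wd X Z s)) := by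
        simp only [mul_assoc]
    _ = _ := by rw [hw, mul_one]

private theorem p4_cb (A : Hyp M ξ X Z) (ψ : RA M →L[ℂ] (H →L[ℂ] H)) (h : Cb ψ)
    (hD : ∀ x : RA M, x.1 ∈ DD M Z → IsCompactOperator (ψ x)) (s : Finset ℕ × Finset ℕ)
    (z : H →L[ℂ] H) (hz : z ∈ DD M Z) :
    z * (ψ (wA A.spin s) * star (wd X Z s)) - ψ (wA A.spin s) * star (wd X Z s) * z ∈ KK H := by
  have hw : wd X Z s * star (wd X Z s) = 1 := (A.spin.unit_wd s).2
  have hx0 : star (wd X Z s) * z * wd X Z s ∈ DD M Z := by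
    rw [p4_conj A.spin]; exact p4_DD A s hz
  have hzM : z ∈ M := (A.mem_DD.1 hz).1
  have hx0M : star (wd X Z s) * z * wd X Z s ∈ M := (A.mem_DD.1 hx0).1
  obtain ⟨z', hz'⟩ : ∃ z' : RA M, z'.1 = z := ⟨⟨z, hzM⟩, rfl⟩
  obtain ⟨x', hx'⟩ : ∃ x' : RA M, x'.1 = star (wd X Z s) * z * wd X Z s := ⟨⟨_, hx0M⟩, rfl⟩
  have e : z' * wA A.spin s = wA A.spin s * x' := by
    apply Subtype.ext
    change z'.1 * wd X Z s = wd X Z s * x'.1
    rw [hz', hx', ← mul_assoc, ← mul_assoc, hw, one_mul]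
  have h1 : z * ψ (wA A.spin s) - ψ (z' * wA A.spin s) + ψ z' * wd X Z s ∈ KK H := by
    have := h z' (wA A.spin s)
    rw [hz'] at this
    exact this
  have h2 : wd X Z s * ψ x' - ψ (wA A.spin s * x') +
      ψ (wA A.spin s) * (star (wd X Z s) * z * wd X Z s) ∈ KK H := by
    have := h (wA A.spin s) x'
    rw [hx'] at this
    exact this
  have h3 : ψ z' ∈ KK H := hD z' (by rw [hz']; exact hz)
  have h4 : ψ x' ∈ KK H := hD x' (by rw [hx']; exact hx0)
  have h5 : ψ z' * wd X Z s ∈ KK H := (KK_mul (wd X Z s) _ h3).2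
  have h6 : wd X Z s * ψ x' ∈ KK H := (KK_mul (wd X Z s) _ h4).1
  have h7 : z * ψ (wA A.spin s) - ψ (wA A.spin s) * (star (wd X Z s) * z * wd X Z s) ∈ KK H := by
    have h8 := (KK H).sub_mem ((KK H).sub_mem h1 h5) ((KK H).sub_mem h2 h6)
    rw [e] at h8
    have e3 : z * ψ (wA A.spin s) - ψ (wA A.spin s) * (star (wd X Z s) * z * wd X Z s) =
        (z * ψ (wA A.spin s) - ψ (wA A.spin s * x') + ψ z' * wd X Z s - ψ z' * wd X Z s) -
        (wd X Z s * ψ x' - ψ (wA A.spin s * x') +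
          ψ (wA A.spin s) * (star (wd X Z s) * z * wd X Z s) - wd X Z s * ψ x') := by abel
    rw [e3]
    exact h8
  have h8 : (z * ψ (wA A.spin s) - ψ (wA A.spin s) * (star (wd X Z s) * z * wd X Z s)) *
      star (wd X Z s) ∈ KK H := (KK_mul (star (wd X Z s)) _ h7).2
  have e2 : (z * ψ (wA A.spin s) - ψ (wA A.spin s) * (star (wd X Z s) * z * wd X Z s)) *
      star (wd X Z s) =
      z * (ψ (wA A.spin s) * star (wd X Z s)) - ψ (wA A.spin s) * star (wd X Z s) * z := by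
    rw [sub_mul]
    have e4 : ψ (wA A.spin s) * (star (wd X Z s) * z * wd X Z s) * star (wd X Z s) =
        ψ (wA A.spin s) * star (wd X Z s) * z * (wd X Z s * star (wd X Z s)) := by
      simp only [mul_assoc]
    rw [e4, hw, mul_one, mul_assoc]
  rw [← e2]
  exact h8

/-- the twisted cocycle identity -/
private theorem p4_coc (A : Hyp M ξ X Z) (ψ : RA M →L[ℂ] (H →L[ℂ] H)) (h : Cb ψ)
    (c κ : Finset ℕ × Finset ℕ → (H →L[ℂ] H)) (hκ : ∀ s, κ s ∈ KK H)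
    (hb : ∀ s, ψ (wA A.spin s) * star (wd X Z s) = c s + κ s)
    (hc : ∀ s, ∀ x ∈ DD M Z, x * c s = c s * x) (s t : Finset ℕ × Finset ℕ) :
    c (sd s t) = c s + wd X Z s * c t * star (wd X Z s) := by
  have hZ : ∀ j, Z j ∈ DD M Z := fun j => A.mem_DD.2 ⟨A.spin.Zm j, fun i => A.spin.cZZ i j⟩
  obtain ⟨ε, hε, hst⟩ := A.spin.mul_wd s t
  have hee : ε * ε = 1 := by rcases hε with rfl | rfl <;> norm_num
  have hes : star ε = ε := by rcases hε with rfl | rfl <;> simp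
  have hwt : wd X Z t * star (wd X Z t) = 1 := (A.spin.unit_wd t).2
  have e1 : wA A.spin s * wA A.spin t = ε • wA A.spin (sd s t) := by
    apply Subtype.ext
    exact hst
  have h1 : wd X Z s * ψ (wA A.spin t) - ψ (wA A.spin s * wA A.spin t) +
      ψ (wA A.spin s) * wd X Z t ∈ KK H := h (wA A.spin s) (wA A.spin t)
  have h2 : (wd X Z s * ψ (wA A.spin t) - ψ (wA A.spin s * wA A.spin t) +
      ψ (wA A.spin s) * wd X Z t) * (star (wd X Z t) * star (wd X Z s)) ∈ KK H :=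
    (KK_mul (star (wd X Z t) * star (wd X Z s)) _ h1).2
  have e2 : star (wd X Z t) * star (wd X Z s) = ε • star (wd X Z (sd s t)) := by
    rw [← star_mul, hst, star_smul, hes]
  have e3 : (wd X Z s * ψ (wA A.spin t) - ψ (wA A.spin s * wA A.spin t) +
      ψ (wA A.spin s) * wd X Z t) * (star (wd X Z t) * star (wd X Z s)) =
      wd X Z s * (ψ (wA A.spin t) * star (wd X Z t)) * star (wd X Z s) -
      ψ (wA A.spin (sd s t)) * star (wd X Z (sd s t)) +
      ψ (wA A.spin s) * star (wd X Z s) := by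
    rw [add_mul, sub_mul]
    have f1 : wd X Z s * ψ (wA A.spin t) * (star (wd X Z t) * star (wd X Z s)) =
        wd X Z s * (ψ (wA A.spin t) * star (wd X Z t)) * star (wd X Z s) := by
      simp only [mul_assoc]
    have f2 : ψ (wA A.spin s * wA A.spin t) * (star (wd X Z t) * star (wd X Z s)) =
        ψ (wA A.spin (sd s t)) * star (wd X Z (sd s t)) := by
      rw [e1, e2, map_smul, smul_mul_assoc, mul_smul_comm, smul_smul, hee, one_smul]
    have f3 : ψ (wA A.spin s) * wd X Z t * (star (wd X Z t) * star (wd X Z s)) =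
        ψ (wA A.spin s) * star (wd X Z s) := by
      have : ψ (wA A.spin s) * wd X Z t * (star (wd X Z t) * star (wd X Z s)) =
        ψ (wA A.spin s) * (wd X Z t * star (wd X Z t)) * star (wd X Z s) := by
        simp only [mul_assoc]
      rw [this, hwt, mul_one]
    rw [f1, f2, f3]
  rw [e3, hb, hb, hb] at h2
  have h3 : wd X Z s * κ t * star (wd X Z s) ∈ KK H :=
    (KK_mul (star (wd X Z s)) _ (KK_mul (wd X Z s) _ (hκ t)).1).2
  have h4 : c (sd s t) - c s - wd X Z s * c t * star (wd X Z s) ∈ KK H := by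
    have h5 := (KK H).sub_mem ((KK H).add_mem h3 (hκ s)) ((KK H).add_mem h2 (hκ (sd s t)))
    have e4 : c (sd s t) - c s - wd X Z s * c t * star (wd X Z s) =
        wd X Z s * κ t * star (wd X Z s) + κ s -
        (wd X Z s * (c t + κ t) * star (wd X Z s) - (c (sd s t) + κ (sd s t)) +
          (c s + κ s) + κ (sd s t)) := by
      rw [mul_add, add_mul]
      abel
    rw [e4]
    exact h5
  have h5 : c (sd s t) - c s - wd X Z s * c t * star (wd X Z s) = 0 := by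
    refine compact_Z A.trf A.spin _ h4 id strictMono_id fun j => ?_
    have g1 := hc (sd s t) _ (hZ j)
    have g2 := hc s _ (hZ j)
    have g3 := p4_Dc A s (hc t) _ (hZ j)
    simp only [id]
    rw [sub_mul, sub_mul, mul_sub, mul_sub, g1, g2, g3]
  have h6 : c (sd s t) = c s + wd X Z s * c t * star (wd X Z s) := by
    have h7 : c (sd s t) - (c s + wd X Z s * c t * star (wd X Z s)) = 0 := by
      rw [← sub_sub]; exact h5
    exact sub_eq_zero.1 h7
  exact h6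

theorem fstep (A : Hyp M ξ X Z) (ψ : RA M →L[ℂ] (H →L[ℂ] H)) (h : Cb ψ)
    (hD : ∀ x : RA M, x.1 ∈ DD M Z → IsCompactOperator (ψ x)) :
    ∃ T1 : H →L[ℂ] H, ‖T1‖ ≤ ‖ψ‖ ∧ (∀ x ∈ DD M Z, x * T1 = T1 * x) ∧
      ∀ s, IsCompactOperator (ψ (wA A.spin s) - (wd X Z s * T1 - T1 * wd X Z s)) := by
  have hZ : ∀ j, Z j ∈ DD M Z := fun j => A.mem_DD.2 ⟨A.spin.Zm j, fun i => A.spin.cZZ i j⟩
  have hw : ∀ s, wd X Z s * star (wd X Z s) = 1 := fun s => (A.spin.unit_wd s).2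
  have hw' : ∀ s, star (wd X Z s) * wd X Z s = 1 := fun s => (A.spin.unit_wd s).1
  have hwn : ∀ s, ‖wd X Z s‖ ≤ 1 := fun s => A.spin.norm_wd s
  have hwn' : ∀ s, ‖star (wd X Z s)‖ ≤ 1 := fun s => by rw [norm_star]; exact hwn s
  have hsp : ∀ s, ∃ κ : H →L[ℂ] H, IsCompactOperator κ ∧ ∀ z ∈ DD M Z,
      z * (ψ (wA A.spin s) * star (wd X Z s) - κ) =
        (ψ (wA A.spin s) * star (wd X Z s) - κ) * z := fun s =>
    ab_split (DD M Z) A.DD_comm _ fun z hz => p4_cb A ψ h hD s z hz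
  choose κ hκ hκc using hsp
  obtain ⟨c, hcdef⟩ : ∃ c : Finset ℕ × Finset ℕ → (H →L[ℂ] H),
      ∀ s, c s = ψ (wA A.spin s) * star (wd X Z s) - κ s := ⟨_, fun s => rfl⟩
  have hb : ∀ s, ψ (wA A.spin s) * star (wd X Z s) = c s + κ s := fun s => by
    rw [hcdef s, sub_add_cancel]
  have hc : ∀ s, ∀ x ∈ DD M Z, x * c s = c s * x := fun s x hx => by
    rw [hcdef s]; exact hκc s x hx
  have hcn : ∀ s, ‖c s‖ ≤ ‖ψ‖ := by
    intro s
    have h1 : ‖c s‖ ≤ ‖c s + κ s‖ :=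
      ess_Z A.trf A.spin (c s) (κ s) (hκ s) id strictMono_id fun j => (hc s _ (hZ j)).symm
    have h2 : ‖ψ (wA A.spin s)‖ ≤ ‖ψ‖ * 1 :=
      (ψ.le_opNorm _).trans (mul_le_mul_of_nonneg_left (hwn s) (norm_nonneg _))
    calc ‖c s‖ ≤ ‖c s + κ s‖ := h1
      _ = ‖ψ (wA A.spin s) * star (wd X Z s)‖ := by rw [hb s]
      _ ≤ ‖ψ (wA A.spin s)‖ * ‖star (wd X Z s)‖ := norm_mul_le _ _
      _ ≤ (‖ψ‖ * 1) * 1 :=
          mul_le_mul h2 (hwn' s) (norm_nonneg _) (by rw [mul_one]; exact norm_nonneg _)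
      _ = ‖ψ‖ := by rw [mul_one, mul_one]
  have hcoc : ∀ s t, c (sd s t) = c s + wd X Z s * c t * star (wd X Z s) := fun s t =>
    p4_coc A ψ h c κ hκ hb hc s t
  obtain ⟨τ, hτ⟩ : ∃ τ : Finset ℕ × Finset ℕ → (H →L[ℂ] H),
      ∀ s, τ s = star (wd X Z s) * c s * wd X Z s := ⟨_, fun s => rfl⟩
  have hτn : ∀ s, ‖τ s‖ ≤ ‖ψ‖ := by
    intro s
    rw [hτ s]
    calc ‖star (wd X Z s) * c s * wd X Z s‖
        ≤ ‖star (wd X Z s) * c s‖ * ‖wd X Z s‖ := norm_mul_le _ _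
      _ ≤ ‖star (wd X Z s) * c s‖ * 1 :=
          mul_le_mul_of_nonneg_left (hwn s) (norm_nonneg _)
      _ = ‖star (wd X Z s) * c s‖ := mul_one _
      _ ≤ ‖star (wd X Z s)‖ * ‖c s‖ := norm_mul_le _ _
      _ ≤ 1 * ‖ψ‖ := mul_le_mul (hwn' s) (hcn s) (norm_nonneg _) zero_le_one
      _ = ‖ψ‖ := one_mul _
  have hτc : ∀ s, ∀ x ∈ DD M Z, x * τ s = τ s * x := by
    intro s x hx
    rw [hτ s, p4_conj A.spin]
    exact p4_Dc A s (hc s) x hx
  have hτr : ∀ s t, wd X Z t * τ (sd s t) * star (wd X Z t) = τ s + c t := by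
    intro s t
    obtain ⟨ε, hε, hst⟩ := A.spin.mul_wd s t
    have hee : ε * ε = 1 := by rcases hε with rfl | rfl <;> norm_num
    have hes : star ε = ε := by rcases hε with rfl | rfl <;> simp
    have e1 : wd X Z (sd s t) = ε • (wd X Z s * wd X Z t) := by
      rw [hst, smul_smul, hee, one_smul]
    have e2 : τ (sd s t) = star (wd X Z t) * (star (wd X Z s) * c (sd s t) * wd X Z s) *
        wd X Z t := by
      rw [hτ, e1, star_smul, hes, star_mul]
      simp only [smul_mul_assoc, mul_smul_comm, smul_smul, hee, one_smul, mul_assoc]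
    have e3 : wd X Z t * τ (sd s t) * star (wd X Z t) =
        (wd X Z t * star (wd X Z t)) * (star (wd X Z s) * c (sd s t) * wd X Z s) *
          (wd X Z t * star (wd X Z t)) := by
      rw [e2]
      simp only [mul_assoc]
    rw [e3, hw, one_mul, mul_one, hcoc s t, mul_add, add_mul, ← hτ s]
    have e4 : star (wd X Z s) * (wd X Z s * c t * star (wd X Z s)) * wd X Z s =
        (star (wd X Z s) * wd X Z s) * c t * (star (wd X Z s) * wd X Z s) := by
      simp only [mul_assoc]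
    rw [e4, hw', one_mul, mul_one]
  obtain ⟨S, hS⟩ : ∃ S : ℕ → (H →L[ℂ] H),
      ∀ k, S k = ((4 : ℂ) ^ k)⁻¹ • ∑ s ∈ Qk k, τ s := ⟨_, fun k => rfl⟩
  have h4 : ∀ k : ℕ, ((4 : ℂ) ^ k) ≠ 0 := fun k => pow_ne_zero _ (by norm_num)
  have hSn : ∀ k, ‖S k‖ ≤ ‖ψ‖ := by
    intro k
    rw [hS k, norm_smul]
    have h5 : ‖∑ s ∈ Qk k, τ s‖ ≤ (4 : ℝ) ^ k * ‖ψ‖ := by
      refine (norm_sum_le_of_le _ fun s _ => hτn s).trans (le_of_eq ?_)
      rw [Finset.sum_const, card_Qk, nsmul_eq_mul]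
      push_cast
      rfl
    have h6 : ‖((4 : ℂ) ^ k)⁻¹‖ = ((4 : ℝ) ^ k)⁻¹ := by
      rw [norm_inv, norm_pow]
      norm_num
    rw [h6]
    calc ((4 : ℝ) ^ k)⁻¹ * ‖∑ s ∈ Qk k, τ s‖ ≤ ((4 : ℝ) ^ k)⁻¹ * ((4 : ℝ) ^ k * ‖ψ‖) :=
          mul_le_mul_of_nonneg_left h5 (by positivity)
      _ = ‖ψ‖ := by
          rw [← mul_assoc, inv_mul_cancel₀ (by positivity), one_mul]
  have hSc : ∀ k, ∀ x ∈ DD M Z, x * S k = S k * x := by
    intro k x hx
    rw [hS k, mul_smul_comm, smul_mul_assoc, Finset.mul_sum, Finset.sum_mul]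
    congr 1
    exact Finset.sum_congr rfl fun s _ => hτc s x hx
  have hSt : ∀ t k, t ∈ Qk k → wd X Z t * S k * star (wd X Z t) = S k + c t := by
    intro t k ht
    have e1 : wd X Z t * S k * star (wd X Z t) =
        ((4 : ℂ) ^ k)⁻¹ • ∑ s ∈ Qk k, wd X Z t * τ s * star (wd X Z t) := by
      rw [hS k, mul_smul_comm, smul_mul_assoc, Finset.mul_sum, Finset.sum_mul]
    rw [e1, ← sum_sd ht (fun s => wd X Z t * τ s * star (wd X Z t))]
    have e2 : ∑ s ∈ Qk k, wd X Z t * τ (sd s t) * star (wd X Z t) =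
        ∑ s ∈ Qk k, τ s + (4 : ℂ) ^ k • c t := by
      rw [Finset.sum_congr rfl fun s _ => hτr s t, Finset.sum_add_distrib, Finset.sum_const,
        card_Qk]
      congr 1
      rw [← Nat.cast_smul_eq_nsmul ℂ]
      push_cast
      rfl
    rw [e2, smul_add, ← hS k, smul_smul, inv_mul_cancel₀ (h4 k), one_smul]
  have hSt' : ∀ t k, t ∈ Qk k → wd X Z t * S k - S k * wd X Z t = c t * wd X Z t := by
    intro t k ht
    have e1 := congrArg (fun y => y * wd X Z t) (hSt t k ht)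
    rw [mul_assoc (wd X Z t * S k), hw', mul_one, add_mul] at e1
    rw [e1, add_sub_cancel_left]
  refine ⟨uL S, uL_norm hSn, ?_, ?_⟩
  · intro x hx
    rw [← uL_mul_left hSn x, ← uL_mul_right hSn x]
    congr 1
    funext k
    exact hSc k x hx
  · intro t
    obtain ⟨k₀, hk₀⟩ := exists_Qk t
    have hT : wd X Z t * uL S - uL S * wd X Z t = c t * wd X Z t := by
      rw [← uL_mul_left hSn (wd X Z t), ← uL_mul_right hSn (wd X Z t)]
      have b1 : ∀ k, ‖wd X Z t * S k‖ ≤ ‖ψ‖ := fun k => by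
        calc ‖wd X Z t * S k‖ ≤ ‖wd X Z t‖ * ‖S k‖ := norm_mul_le _ _
          _ ≤ 1 * ‖ψ‖ := mul_le_mul (hwn t) (hSn k) (norm_nonneg _) zero_le_one
          _ = ‖ψ‖ := one_mul _
      have b2 : ∀ k, ‖S k * wd X Z t‖ ≤ ‖ψ‖ := fun k => by
        calc ‖S k * wd X Z t‖ ≤ ‖S k‖ * ‖wd X Z t‖ := norm_mul_le _ _
          _ ≤ ‖ψ‖ * 1 := mul_le_mul (hSn k) (hwn t) (norm_nonneg _) (norm_nonneg _)
          _ = ‖ψ‖ := mul_one _
      rw [← uL_sub b1 b2]
      have b3 : ∀ k, ‖wd X Z t * S k - S k * wd X Z t‖ ≤ ‖ψ‖ + ‖ψ‖ := fun k =>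
        (norm_sub_le _ _).trans (add_le_add (b1 k) (b2 k))
      have b4 : ∀ k : ℕ, ‖c t * wd X Z t‖ ≤ ‖ψ‖ + ‖ψ‖ := fun _ => by
        calc ‖c t * wd X Z t‖ ≤ ‖c t‖ * ‖wd X Z t‖ := norm_mul_le _ _
          _ ≤ ‖ψ‖ * 1 := mul_le_mul (hcn t) (hwn t) (norm_nonneg _) (norm_nonneg _)
          _ ≤ ‖ψ‖ + ‖ψ‖ := by rw [mul_one]; exact le_add_of_nonneg_left (norm_nonneg _)
      rw [uL_congr b3 b4 k₀ fun k hk => hSt' t k (Qk_mono hk hk₀), uL_const]
    rw [hT]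
    have e1 : ψ (wA A.spin t) - c t * wd X Z t = κ t * wd X Z t := by
      have e2 : ψ (wA A.spin t) = (c t + κ t) * wd X Z t := by
        rw [← hb t, mul_assoc, hw', mul_one]
      rw [e2, add_mul, add_sub_cancel_left]
    rw [e1]
    exact (KK_mul (wd X Z t) _ (hκ t)).2

end Pool.Agent.HFT
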