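import Pool.Agent.HFT.P5
import Pool.Agent.HFT.P1a
import Pool.Agent.HFT.W6

set_option autoImplicit false
set_option linter.unusedSectionVars false

/-! # Module P6 (3 points): elements with infinitely many free positions

`HW ψ`: `ψ` is compact valued on the words, `HD ψ`: on the diagonal. `J = range g`.
`D0 = relc M (range Z ∪ {X i | i ∉ J})` : the `d ∈ M` commuting with all `Z i` and the `X i`,
`i ∉ J` (`mem_relc`; the `X i`, `Z i` are self-adjoint). `D0 ⊆ DD M Z`, so it is commutative and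
`ψ` is compact valued on it. `hess`: `Z (g j) ∈ D0`, so an operator commuting with `D0` commutes with all
`Z (g j)`: `ess_Z`. `x` commutes with `D0`: `Hyp.diag_comm`. `y m = Ek m x` (in `M`): commutes with
`Z (g j)` (`Hyp.Ek_commZ`), hence with `D0` (`Hyp.diag_comm`); a finite combination of words, so
`ψ (y m)` is compact (`wA`, linearity); `‖y m‖ ≤ ‖x‖` (`Hyp.norm_Ek_le`), `Hyp.Ek_tendsto`.
`closure_lemma`. -/

namespace Pool.Agent.HFT

open Pool.Agent.HK Filter Topology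

variable {H : Type} [NormedAddCommGroup H] [InnerProductSpace ℂ H] [CompleteSpace H]
variable {M : VonNeumannAlgebra H} {ξ : ℕ → H} {X Z : ℕ → H →L[ℂ] H}

/-- compact valued on the diagonal -/
def HD (Z : ℕ → H →L[ℂ] H) (ψ : RA M →L[ℂ] (H →L[ℂ] H)) : Prop :=
  ∀ x : RA M, x.1 ∈ DD M Z → IsCompactOperator (ψ x)

/-- compact valued on the words -/
def HW (S : Spin M X Z) (ψ : RA M →L[ℂ] (H →L[ℂ] H)) : Prop :=
  ∀ s, IsCompactOperator (ψ (wA S s))

theorem P6_sum {ι : Type} (F : Finset ι) (T : ι → (H →L[ℂ] H))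
    (h : ∀ i ∈ F, IsCompactOperator (T i)) :
    IsCompactOperator ((∑ i ∈ F, T i : H →L[ℂ] H)) := by
  classical
  induction F using Finset.induction_on with
  | empty =>
    rw [Finset.sum_empty]
    exact isCompactOperator_zero
  | insert a F ha ih =>
    rw [Finset.sum_insert ha]
    exact (h a (Finset.mem_insert_self a F)).add
      (ih fun i hi => h i (Finset.mem_insert_of_mem hi))

theorem HW.Ek (A : Hyp M ξ X Z) {ψ : RA M →L[ℂ] (H →L[ℂ] H)} (h : HW A.spin ψ) (k : ℕ)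
    (x : RA M) (hx : x.1 = HFT.Ek ξ X Z k x.1) : IsCompactOperator (ψ x) := by
  have e : x = ∑ s ∈ Qk k, ip ξ (wd X Z s) x.1 • wA A.spin s := by
    apply Subtype.ext
    have e2 : ((∑ s ∈ Qk k, ip ξ (wd X Z s) x.1 • wA A.spin s : RA M) : H →L[ℂ] H)
        = ∑ s ∈ Qk k, ip ξ (wd X Z s) x.1 • wd X Z s := by
      rw [AddSubmonoidClass.coe_finsetSum]
      rfl
    exact hx.trans e2.symm
  rw [e, map_sum]
  refine P6_sum (Qk k) (fun s => ψ (ip ξ (wd X Z s) x.1 • wA A.spin s)) fun s _ => ?_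
  rw [map_smul]
  have h2 : IsCompactOperator (ψ (wA A.spin s)) := h s
  exact h2.smul (ip ξ (wd X Z s) x.1)

theorem free_compact (A : Hyp M ξ X Z) (ψ : RA M →L[ℂ] (H →L[ℂ] H)) (h : Cb ψ) (hD : HD Z ψ)
    (hW : HW A.spin ψ) (g : ℕ → ℕ) (hg : StrictMono g) (x : RA M)
    (hx : ∀ j, Z (g j) * x.1 = x.1 * Z (g j)) : IsCompactOperator (ψ x) := by
  set Sx : Set (H →L[ℂ] H) := Set.range Z ∪ {y | ∃ i, i ∉ Set.range g ∧ y = X i} with hSx
  have hmem : ∀ d, d ∈ relc M Sx ↔ d ∈ M ∧ (∀ i, Z i * d = d * Z i) ∧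
      ∀ i, i ∉ Set.range g → X i * d = d * X i := by
    intro d
    rw [mem_relc]
    constructor
    · rintro ⟨h1, h2⟩
      exact ⟨h1, fun i => (h2 (Z i) (Or.inl ⟨i, rfl⟩)).1,
        fun i hi => (h2 (X i) (Or.inr ⟨i, hi, rfl⟩)).1⟩
    · rintro ⟨h1, h2, h3⟩
      refine ⟨h1, ?_⟩
      rintro s (⟨i, rfl⟩ | ⟨i, hi, rfl⟩)
      · rw [A.spin.Zs]
        exact ⟨h2 i, h2 i⟩
      · rw [A.spin.Xs]
        exact ⟨h3 i hi, h3 i hi⟩
  have hZD : ∀ j, Z (g j) ∈ relc M Sx := by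
    intro j
    rw [hmem]
    refine ⟨A.spin.Zm _, fun i => A.spin.cZZ _ _, fun i hi => A.spin.cXZ _ _ ?_⟩
    rintro rfl
    exact hi ⟨j, rfl⟩
  have hDD : ∀ d, d ∈ relc M Sx → d ∈ DD M Z := by
    intro d hd
    rw [hmem] at hd
    exact A.mem_DD.2 ⟨hd.1, hd.2.1⟩
  have hx' : ∀ j ∈ Set.range g, Z j * x.1 = x.1 * Z j := by
    rintro _ ⟨j, rfl⟩
    exact hx j
  refine closure_lemma A.trf ψ h (relc M Sx)
    (fun x hx y hy => A.DD_comm x (hDD x hx) y (hDD y hy))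
    (fun d hd => ((hmem d).1 hd).1)
    (fun d hd => hD d (hDD _ hd))
    (fun S κ hκ hS => ess_Z A.trf A.spin S κ hκ g hg fun j => (hS _ (hZD j)).symm)
    x (fun d hd => ?_) (fun m => ⟨HFT.Ek ξ X Z m x.1, Ek_mem A.spin m x.1⟩)
    (fun m d hd => ?_) (fun m => ?_) ‖x‖ (fun m => ?_) ?_
  · rw [hmem] at hd
    exact A.diag_comm (Set.range g) d x.1 hd.1 hd.2.1 hd.2.2 hx'
  · rw [hmem] at hd
    exact A.diag_comm (Set.range g) d _ hd.1 hd.2.1 hd.2.2
      (fun j hj => A.Ek_commZ m j x.1 x.2 (hx' j hj))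
  · refine HW.Ek A hW m _ ?_
    change HFT.Ek ξ X Z m x.1 = HFT.Ek ξ X Z m (HFT.Ek ξ X Z m x.1)
    conv_rhs => unfold HFT.Ek
    conv_lhs => unfold HFT.Ek
    refine Finset.sum_congr rfl fun s hs => ?_
    have := ip_Ek A.trf A.spin m x.1 s
    rw [if_pos hs] at this
    rw [← this]
    rfl
  · exact A.norm_Ek_le m x.1 x.2
  · exact A.Ek_tendsto x.1 x.2

end Pool.Agent.HFT
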