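import Pool.Agent.HFT.P7b
import Pool.Agent.HFT.P6

set_option autoImplicit false
set_option linter.unusedSectionVars false

/-! # Module P7c (5 points): `ψ` is compact at sparse products

Data of `Sp.exists_Y`; `p j = h j * t j`. `g = n` (strictly increasing): positions `n l`.
* `p j` and `t m` commute with `Z (n l)` for all `l` (`Sp.hc`, and `h 0 = 1`), so
  `ψ (t m)`, `ψ (p j)` are compact (`free_compact`).
* `S0` = the set of the operators `p j` (`j ∈ ℕ`) and `p j * Z (n l)` (`l ≥ j`). They commute pairwise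
  (`p i p j = 0` for `i ≠ j`, `Z`'s commute with each other and with the `p j`) and are self-adjoint.
  `D0` = the von Neumann algebra generated by `S0`: the elements commuting with the commutant
  `S0'`: `StarSubalgebra.centralizer ℂ (StarSubalgebra.centralizer ℂ S0)`; as a
  `VonNeumannAlgebra`: for instance `relc ⊤`-like construction: `toStarSubalgebra := centralizer of
  (centralizer of S0)`, `centralizer_centralizer' := by simp` as in `cen` of HK/VN3.
  An operator commutes with `D0` iff it commutes with `S0` (`S0` is closed under `star`).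
  `D0` is commutative: `S0 ⊆ centralizer S0`, so `D0 ⊆ centralizer S0 ...` (elements of `D0` commute with
  everything commuting with `S0`, in particular with `S0`, hence `D0 ⊆ S0'`, hence `D0`
  commutes with `D0`). `D0 ⊆ M` (`S0 ⊆ M`: everything in `M.commutant` commutes with `S0`;
  `vn_mem_iff`) and the elements of `D0` commute with `Z (n l)` (these commute with `S0`): so `ψ` is
  compact valued on `D0` by `free_compact`.
* `hess`: `R` commutes with `S0`, `κ` compact. Fix `v` and `m`, `v' = t m v`. `t m = ∑_{j ≤ m} p j`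
  commutes with `R`, and so does `t m * Z (n l) = ∑_{j ≤ m} p j Z (n l)` for `l ≥ m`. Apply `ess` (W6) to `R`,
  `κ`, the vector `v'` and `U l = Z (n (m + l))`: `R (Z v') = R (t m Z) v = (t m Z) R v = Z R v'`
  (everything commutes), `‖Z u‖ = ‖u‖`, weakly null by `wnull` (a subsequence). So
  `‖R t m v‖ ≤ ‖R + κ‖ ‖t m v‖ ≤ ‖R + κ‖ ‖v‖`; `m → ∞`.
* `Y` commutes with `D0`: with `p i` and `p i Z (n l)`, `l ≥ i`: by strong sums: `a j = s j t j`
  satisfies `a j = p j a j p j` (`h s h = s`), so `a j p i = 0 = p i a j` for `i ≠ j`, and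
  `a j` commutes with `p j`, and with `Z (n l)` for `l ≥ j` (`Sp.sc`: `s j` commutes with the
  positions `≥ n j`; `t j` with all positions `n l`). `x_m = Bs m * t m = Y t m` commutes with `D0`
  (`t m` does: it commutes with `S0`).
* `ψ (Bs m * t m)` is compact: `ψ (Bs m)` is compact because `Bs m` is a combination of words
  (`Sp.Bs_CP`, `Hyp.eq_Ek_of_CP`, `HW.Ek`), `ψ (t m)` compact, `Cb.mul`. `‖Y t m‖ ≤ C`,
  `n2 (Y t m - Y) ≤ ‖Y‖ n2 (1 - t m) → 0` (strong convergence of `t m`, `n2_tendsto`).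
  `closure_lemma` gives that `ψ Y` is compact. -/

namespace Pool.Agent.HFT

open Pool.Agent.HK Filter Topology

variable {H : Type} [NormedAddCommGroup H] [InnerProductSpace ℂ H] [CompleteSpace H]
variable {M : VonNeumannAlgebra H} {ξ : ℕ → H} {X Z : ℕ → H →L[ℂ] H}

/-- the von Neumann algebra generated by a set closed under `star` -/
private noncomputable def vgen (S : Set (H →L[ℂ] H)) : VonNeumannAlgebra H where
  toStarSubalgebra := StarSubalgebra.centralizer ℂ {R | ∀ s ∈ S, s * R = R * s}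
  centralizer_centralizer' := by simp

private theorem mem_vgen {S : Set (H →L[ℂ] H)} {x : H →L[ℂ] H} :
    x ∈ vgen S ↔ ∀ R : H →L[ℂ] H, (∀ s ∈ S, s * R = R * s) →
      R * x = x * R ∧ star R * x = x * star R := by
  have h1 : x ∈ vgen S ↔ ∀ g ∈ {R : H →L[ℂ] H | ∀ s ∈ S, s * R = R * s}, g * x = x * g ∧
      star g * x = x * star g := StarSubalgebra.mem_centralizer_iff ℂ
  rw [h1]
  exact Iff.rfl

private theorem sub_vgen {S : Set (H →L[ℂ] H)} (hS : ∀ s ∈ S, star s = s) {x : H →L[ℂ] H}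
    (hx : x ∈ S) : x ∈ vgen S := by
  rw [mem_vgen]
  intro R hR
  refine ⟨(hR x hx).symm, ?_⟩
  have h1 := congrArg star (hR x hx)
  rw [star_mul, star_mul, hS x hx] at h1
  exact h1

private theorem isom_Z {z : H →L[ℂ] H} (h1 : star z = z) (h2 : z * z = 1) (u : H) :
    ‖z u‖ = ‖u‖ := by
  have h3 : (inner ℂ (z u) (z u) : ℂ) = inner ℂ u u := by
    have h4 : (ContinuousLinearMap.adjoint z) = z := h1
    rw [← ContinuousLinearMap.adjoint_inner_right, h4]
    have h5 : z (z u) = u := congrArg (fun T : H →L[ℂ] H => T u) h2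
    rw [h5]
  rw [inner_self_eq_norm_sq_to_K, inner_self_eq_norm_sq_to_K] at h3
  have h6 : ‖z u‖ ^ 2 = ‖u‖ ^ 2 := by exact_mod_cast h3
  have h7 := (sq_eq_sq₀ (norm_nonneg _) (norm_nonneg _)).mp h6
  exact h7

theorem sparse_compact (A : Hyp M ξ X Z) (ψ : RA M →L[ℂ] (H →L[ℂ] H)) (hb : Cb ψ) (hD : HD Z ψ)
    (hW : HW A.spin ψ) {C : ℝ} {n : ℕ → ℕ} {h s : ℕ → RA M} {ρ : ℕ → ℝ}
    (S : Sp ξ X Z C n h s ρ) :
    ∃ Y : RA M, ‖Y‖ ≤ C ∧ IsCompactOperator (ψ Y) ∧
      ∀ m, n2 ξ (Y.1 - (Bs h s m).1) ≤ 2 * C * ρ m := by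
  classical
  obtain ⟨t, Y, tp, tle, tn, tht, tv, orth, psum, sct, Yn, Ysum, YB, Yn2⟩ := S.exists_Y A
  refine ⟨Y, Yn, ?_, Yn2⟩
  have hC0 : 0 ≤ C := (norm_nonneg _).trans Yn
  -- the projections `p j`
  obtain ⟨p, hpdef⟩ : ∃ p : ℕ → RA M, ∀ j, p j = h j * t j := ⟨fun j => h j * t j, fun _ => rfl⟩
  have tp1 : ∀ m, t m * t m = t m := fun m => Subtype.ext (tp m).isIdempotentElem.eq
  have tps : ∀ m, star (t m).1 = (t m).1 := fun m => (tp m).isSelfAdjoint.star_eq
  have hp1 : ∀ m, h m * h m = h m := fun m => Subtype.ext (S.hp m).isIdempotentElem.eq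
  have hps : ∀ m, star (h m).1 = (h m).1 := fun m => (S.hp m).isSelfAdjoint.star_eq
  have hZh : ∀ l j, Z (n l) * (h j).1 = (h j).1 * Z (n l) := by
    intro l j
    cases j with
    | zero => rw [S.h0]; show Z (n l) * 1 = 1 * Z (n l); rw [mul_one, one_mul]
    | succ j =>
      refine (S.hc j (n l) ?_).2
      rcases Nat.lt_or_ge j l with hlt | hge
      · exact Or.inr (S.mono.monotone hlt)
      · exact Or.inl (S.mono.monotone hge)
  have hZt : ∀ l m, Z (n l) * (t m).1 = (t m).1 * Z (n l) := fun l m => (tn m l).2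
  have hZp : ∀ l j, Z (n l) * (p j).1 = (p j).1 * Z (n l) := by
    intro l j
    rw [hpdef]
    show Z (n l) * ((h j).1 * (t j).1) = ((h j).1 * (t j).1) * Z (n l)
    rw [← mul_assoc, hZh, mul_assoc, hZt, mul_assoc]
  have hpst : ∀ j, star (p j).1 = (p j).1 := by
    intro j
    rw [hpdef]
    show star ((h j).1 * (t j).1) = (h j).1 * (t j).1
    rw [star_mul, tps, hps]
    exact congrArg Subtype.val (tht j j).symm
  have hpp : ∀ i j, i ≠ j → p i * p j = 0 := by
    intro i j hij
    rw [hpdef, hpdef]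
    exact orth i j hij
  have hppc : ∀ i j, (p i).1 * (p j).1 = (p j).1 * (p i).1 := by
    intro i j
    by_cases hij : i = j
    · rw [hij]
    · have h1 := congrArg Subtype.val (hpp i j hij)
      have h2 := congrArg Subtype.val (hpp j i (Ne.symm hij))
      exact h1.trans h2.symm
  have psum' : ∀ m, (t m).1 = ∑ j ∈ Finset.range (m + 1), (p j).1 := by
    intro m
    have h1 := congrArg (fun x : RA M => x.1) (psum m)
    have h1' : (∑ j ∈ Finset.range (m + 1), h j * t j : RA M).1 = (t m).1 := h1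
    rw [← h1']
    have h2 : ∀ F : ℕ → RA M, (∑ j ∈ Finset.range (m + 1), F j).1 =
        ∑ j ∈ Finset.range (m + 1), (F j).1 := by
      intro F
      exact AddSubmonoidClass.coe_finsetSum F (Finset.range (m + 1))
    rw [h2]
    exact Finset.sum_congr rfl (fun j _ => by rw [hpdef])
  -- the set `S0`
  obtain ⟨S0, hS0⟩ : ∃ S0 : Set (H →L[ℂ] H), S0 = {x | (∃ j, x = (p j).1) ∨
      ∃ j l, j ≤ l ∧ x = (p j).1 * Z (n l)} := ⟨_, rfl⟩
  have S0p : ∀ j, (p j).1 ∈ S0 := fun j => by rw [hS0]; exact Or.inl ⟨j, rfl⟩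
  have S0z : ∀ j l, j ≤ l → (p j).1 * Z (n l) ∈ S0 :=
    fun j l hjl => by rw [hS0]; exact Or.inr ⟨j, l, hjl, rfl⟩
  have S0star : ∀ s ∈ S0, star s = s := by
    intro s hs
    rw [hS0] at hs
    rcases hs with ⟨j, rfl⟩ | ⟨j, l, _, rfl⟩
    · exact hpst j
    · rw [star_mul, A.spin.Zs, hpst, hZp]
  have commP : ∀ j, ∀ s ∈ S0, s * (p j).1 = (p j).1 * s := by
    intro j s hs
    rw [hS0] at hs
    rcases hs with ⟨i, rfl⟩ | ⟨i, l, _, rfl⟩
    · exact hppc i j
    · rw [mul_assoc, hZp, ← mul_assoc, hppc, mul_assoc]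
  have commZ : ∀ l, ∀ s ∈ S0, s * Z (n l) = Z (n l) * s := by
    intro l s hs
    rw [hS0] at hs
    rcases hs with ⟨i, rfl⟩ | ⟨i, k, _, rfl⟩
    · exact (hZp l i).symm
    · rw [mul_assoc, A.spin.cZZ, ← mul_assoc, ← hZp, mul_assoc]
  have commS : ∀ s' ∈ S0, ∀ s ∈ S0, s * s' = s' * s := by
    intro s' hs' s hs
    rw [hS0] at hs'
    rcases hs' with ⟨i, rfl⟩ | ⟨i, k, _, rfl⟩
    · exact commP i s hs
    · rw [← mul_assoc, commP i s hs, mul_assoc, commZ k s hs, mul_assoc]
  have S0M : ∀ s ∈ S0, s ∈ M := by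
    intro s hs
    rw [hS0] at hs
    rcases hs with ⟨i, rfl⟩ | ⟨i, k, _, rfl⟩
    · exact (p i).2
    · exact mul_mem (p i).2 (A.spin.Zm _)
  -- the algebra `D0`
  have memD : ∀ {x : H →L[ℂ] H}, x ∈ vgen S0 → ∀ R : H →L[ℂ] H,
      (∀ s ∈ S0, s * R = R * s) → R * x = x * R := fun hx R hR => ((mem_vgen.mp hx) R hR).1
  have D0S : ∀ x ∈ vgen S0, ∀ s ∈ S0, s * x = x * s := by
    intro x hx s hs
    exact memD hx s (commS s hs)
  have D0c : ∀ x ∈ vgen S0, ∀ y ∈ vgen S0, x * y = y * x := by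
    intro x hx y hy
    exact memD hy x (D0S x hx)
  have D0M : ∀ d ∈ vgen S0, d ∈ M := by
    intro d hd
    rw [vn_mem_iff]
    intro y hy
    exact memD hd y (fun s hs => (vn_commute (S0M s hs) hy).symm)
  have D0Z : ∀ d ∈ vgen S0, ∀ l, Z (n l) * d = d * Z (n l) := by
    intro d hd l
    exact memD hd (Z (n l)) (commZ l)
  have tS : ∀ m, ∀ s ∈ S0, s * (t m).1 = (t m).1 * s := by
    intro m s hs
    rw [psum', Finset.mul_sum, Finset.sum_mul]
    exact Finset.sum_congr rfl (fun j _ => commP j s hs)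
  have tnorm : ∀ m, ‖(t m).1‖ ≤ 1 := fun m => IsStarProjection.norm_le _ (tp m)
  -- `Y` commutes with `S0`
  have ha1 : ∀ j, p j * (s j * t j) = s j * t j := by
    intro j
    rw [hpdef]
    have e1 : h j * s j = s j := by
      have h1 := S.hs j
      calc h j * s j = h j * (h j * s j * h j) := by rw [h1]
        _ = (h j * h j) * s j * h j := by simp only [mul_assoc]
        _ = h j * s j * h j := by rw [hp1]
        _ = s j := h1
    calc h j * t j * (s j * t j) = h j * (t j * s j) * t j := by simp only [mul_assoc]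
      _ = h j * (s j * t j) * t j := by rw [sct]
      _ = (h j * s j) * (t j * t j) := by simp only [mul_assoc]
      _ = s j * t j := by rw [e1, tp1]
  have ha2 : ∀ j, (s j * t j) * p j = s j * t j := by
    intro j
    rw [hpdef]
    have e1 : s j * h j = s j := by
      have h1 := S.hs j
      calc s j * h j = (h j * s j * h j) * h j := by rw [h1]
        _ = h j * s j * (h j * h j) := by simp only [mul_assoc]
        _ = h j * s j * h j := by rw [hp1]
        _ = s j := h1
    calc s j * t j * (h j * t j) = s j * (t j * h j) * t j := by simp only [mul_assoc]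
      _ = s j * (h j * t j) * t j := by rw [tht]
      _ = (s j * h j) * (t j * t j) := by simp only [mul_assoc]
      _ = s j * t j := by rw [e1, tp1]
  have ha3 : ∀ i j, p i * (s j * t j) = (s j * t j) * p i := by
    intro i j
    by_cases hij : i = j
    · rw [hij, ha1, ha2]
    · have e1 : p i * (s j * t j) = 0 := by
        rw [← ha1 j, ← mul_assoc, hpp i j hij, zero_mul]
      have e2 : (s j * t j) * p i = 0 := by
        rw [← ha2 j, mul_assoc, hpp j i (Ne.symm hij), mul_zero]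
      rw [e1, e2]
  have ha3' : ∀ i j, (p i).1 * (s j * t j).1 = (s j * t j).1 * (p i).1 :=
    fun i j => congrArg Subtype.val (ha3 i j)
  have ha0 : ∀ i j, i ≠ j → (s j * t j).1 * (p i).1 = 0 := by
    intro i j hij
    have e2 : (s j * t j) * p i = 0 := by
      rw [← ha2 j, mul_assoc, hpp j i (Ne.symm hij), mul_zero]
    exact congrArg Subtype.val e2
  have haZ : ∀ j l, j ≤ l → Z (n l) * (s j * t j).1 = (s j * t j).1 * Z (n l) := by
    intro j l hjl
    have e1 : Z (n l) * (s j).1 = (s j).1 * Z (n l) := (S.sc j (n l) (S.mono.monotone hjl)).2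
    show Z (n l) * ((s j).1 * (t j).1) = ((s j).1 * (t j).1) * Z (n l)
    rw [← mul_assoc, e1, mul_assoc, hZt, mul_assoc]
  have haS : ∀ j, ∀ s' ∈ S0, s' * (s j * t j).1 = (s j * t j).1 * s' := by
    intro j s' hs'
    rw [hS0] at hs'
    rcases hs' with ⟨i, rfl⟩ | ⟨i, k, hik, rfl⟩
    · exact ha3' i j
    · by_cases hij : i = j
      · subst hij
        rw [mul_assoc, haZ i k hik, ← mul_assoc, ha3', mul_assoc]
      · rw [← hZp, mul_assoc, ha3', ha0 i j hij, mul_zero, hZp, ← mul_assoc, ha0 i j hij, zero_mul]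
  have YS : ∀ s' ∈ S0, s' * Y.1 = Y.1 * s' := by
    intro s' hs'
    apply ContinuousLinearMap.ext
    intro v
    show s' (Y.1 v) = Y.1 (s' v)
    have h1 : HasSum (fun j => s' ((s j * t j).1 v)) (s' (Y.1 v)) := (Ysum v).mapL s'
    have h2 : HasSum (fun j => (s j * t j).1 (s' v)) (Y.1 (s' v)) := Ysum (s' v)
    have h3 : (fun j => s' ((s j * t j).1 v)) = fun j => (s j * t j).1 (s' v) := by
      funext j
      exact congrArg (fun T : H →L[ℂ] H => T v) (haS j s' hs')
    rw [h3] at h1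
    exact h1.unique h2
  have YtS : ∀ m, ∀ s' ∈ S0, s' * (Y * t m).1 = (Y * t m).1 * s' := by
    intro m s' hs'
    show s' * (Y.1 * (t m).1) = (Y.1 * (t m).1) * s'
    rw [← mul_assoc, YS s' hs', mul_assoc, tS m s' hs', mul_assoc]
  -- closure
  refine closure_lemma A.trf ψ hb (vgen S0) D0c D0M ?_ ?_ Y ?_ (fun m => Y * t m) ?_ ?_ C ?_ ?_
  · intro d hd
    exact free_compact A ψ hb hD hW n S.mono d (fun j => D0Z d.1 hd j)
  · intro R κ hκ hR
    have hRS : ∀ s ∈ S0, s * R = R * s := fun s hs => hR s (sub_vgen S0star hs)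
    have hRt : ∀ m, R * (t m).1 = (t m).1 * R := by
      intro m
      rw [psum', Finset.mul_sum, Finset.sum_mul]
      exact Finset.sum_congr rfl (fun j _ => (hRS _ (S0p j)).symm)
    have hRtZ : ∀ m l, m ≤ l → R * ((t m).1 * Z (n l)) = ((t m).1 * Z (n l)) * R := by
      intro m l hml
      rw [psum', Finset.sum_mul, Finset.mul_sum, Finset.sum_mul]
      refine Finset.sum_congr rfl (fun j hj => ?_)
      have hj' : j ≤ m := by
        rw [Finset.mem_range] at hj
        omega
      exact (hRS _ (S0z j l (hj'.trans hml))).symm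
    have key : ∀ m (v : H), ‖R ((t m).1 v)‖ ≤ ‖R + κ‖ * ‖v‖ := by
      intro m v
      have h1 : ‖R ((t m).1 v)‖ ≤ ‖R + κ‖ * ‖(t m).1 v‖ := by
        refine ess R κ hκ ((t m).1 v) (fun j => Z (n (m + j))) ?_ ?_ ?_ ?_
        · intro j
          exact (isom_Z (A.spin.Zs _) (A.spin.Z2 _) _).le
        · intro j
          exact isom_Z (A.spin.Zs _) (A.spin.Z2 _) _
        · intro j
          have e1 : R * (Z (n (m + j)) * (t m).1) = Z (n (m + j)) * (R * (t m).1) := by
            rw [hZt, hRtZ m (m + j) (Nat.le_add_right m j), hRt, ← hZt, mul_assoc]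
          exact congrArg (fun T : H →L[ℂ] H => T v) e1
        · intro b
          have h2 := wnull A.trf A.spin ((t m).1 v) b
          have h3 : Tendsto (fun j => n (m + j)) atTop atTop := by
            refine S.mono.tendsto_atTop.comp ?_
            exact tendsto_atTop_mono (fun j => Nat.le_add_left j m) tendsto_id
          exact h2.comp h3
      refine h1.trans (mul_le_mul_of_nonneg_left ?_ (norm_nonneg _))
      calc ‖(t m).1 v‖ ≤ ‖(t m).1‖ * ‖v‖ := (t m).1.le_opNorm v
        _ ≤ 1 * ‖v‖ := mul_le_mul_of_nonneg_right (tnorm m) (norm_nonneg _)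
        _ = ‖v‖ := one_mul _
    refine ContinuousLinearMap.opNorm_le_bound _ (norm_nonneg _) (fun v => ?_)
    have h4 : Tendsto (fun m => ‖R ((t m).1 v)‖) atTop (𝓝 ‖R v‖) :=
      ((R.continuous.tendsto _).comp (tv v)).norm
    exact le_of_tendsto h4 (Filter.Eventually.of_forall (fun m => key m v))
  · intro d hd
    exact (memD hd Y.1 YS).symm
  · intro m d hd
    exact (memD hd (Y * t m).1 (YtS m)).symm
  · intro m
    show IsCompactOperator (ψ (Y * t m))
    rw [YB m]
    refine hb.mul ?_ ?_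
    · refine hW.Ek A (n m) (Bs h s m) ?_
      exact A.eq_Ek_of_CP (n m) _ (Bs h s m).2 (fun i hi => S.Bs_CP A m i hi)
    · exact free_compact A ψ hb hD hW n S.mono (t m) (fun j => hZt j m)
  · intro m
    calc ‖Y * t m‖ ≤ ‖Y‖ * ‖t m‖ := norm_mul_le _ _
      _ ≤ C * 1 := mul_le_mul Yn (tnorm m) (norm_nonneg _) hC0
      _ = C := mul_one _
  · have hx : ∀ m, n2 ξ ((Y * t m).1 - Y.1) ≤ ‖Y.1‖ * n2 ξ (1 - (t m).1) := by
      intro m
      have e : (Y * t m).1 - Y.1 = -(Y.1 * (1 - (t m).1)) := by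
        show Y.1 * (t m).1 - Y.1 = -(Y.1 * (1 - (t m).1))
        rw [mul_sub, mul_one]
        abel
      rw [e, n2_neg]
      exact n2_mul_le A.trf.summ _ _
    have ht : Tendsto (fun m => n2 ξ (1 - (t m).1)) atTop (𝓝 0) := by
      refine n2_tendsto A.trf.summ _ 1 (fun m => ?_) (fun i => ?_)
      · exact IsStarProjection.norm_le _ (tp m).one_sub
      · have h1 := (tendsto_const_nhds (x := ξ i)).sub (tv (ξ i))
        rw [sub_self] at h1
        exact h1
    have ht2 : Tendsto (fun m => ‖Y.1‖ * n2 ξ (1 - (t m).1)) atTop (𝓝 0) := by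
      have := ht.const_mul ‖Y.1‖
      rwa [mul_zero] at this
    exact squeeze_zero (fun m => n2_nonneg ξ _) hx ht2

end Pool.Agent.HFT
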