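import Pool.Agent.HFT.Rng

set_option autoImplicit false
set_option linter.unusedSectionVars false

/-! # Module Join (3 points): suprema of projections and their traces

`TrF.join2`: `x = (1 - q) * p ∈ M`, `x * p = x`; `r` from `TrF.rng`. `P = q + r`.
`q x = 0`, and `r v ∈ closure (range x)`, so `q r = 0` (a closed condition), `r q = 0` by
adjoints: `P` is a projection of `M`, `P q = q`. `r (1 - q) p = (1 - q) p` gives
`r p = (1 - q) p` (as `r q = 0`), so `P p = q p + (1 - q) p = p`. `n2 P ^ 2 = n2 q ^ 2 + n2 r ^ 2`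
(`n2_orth`) `≤ n2 q ^ 2 + n2 p ^ 2`. Minimality: `p y = 0 = q y` implies
`⟪x v, y⟫ = ⟪v, p (1 - q) y⟫ = 0`, so `y ⊥ closure (range x) ∋ r y`, and
`‖r y‖² = ⟪r y, y⟫ = 0`, `P y = 0`.

`TrF.joinN`: recursively `P 0 = q 0`, `P (k+1)` = the `join2` of `P k` and `q (k+1)`
(choose). `P (k+1) * P k = P k`, `P (k+1) * q (k+1) = q (k+1)`, so `P l * q i = q i` for
`i ≤ l`, and `n2 (P k) ^ 2 ≤ ∑ i ∈ range (k+1), n2 (q i) ^ 2 ≤ s`; `P k y = 0` if all
`q i y = 0`. Apply `hkd_lim` (`HKD/Split`) to the decreasing sequence `1 - P k`: limit `R ∈ M`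
projection, `(1 - P k) v → R v`. `P = 1 - R`, `P k v → P v`. Closed conditions pass to the limit;
`n2 P ^ 2 ≤ s`: `n2 (P - P k) → 0` by `n2_tendsto`, and
`n2 P ≤ n2 (P k) + n2 (P - P k) ≤ √s + n2 (P - P k)`.

`TrF.incr`: from projections `g k` of `M` with `n2 (1 - g k) ≤ 2⁻ᵏ` get increasing
`e k ≤ g k`: `e k = 1 - (joinN of 1 - g l, l ≥ k)`. To make them increasing by construction take
the minimality: `P_k` = join of `(1 - g (k + i))_i`; `P_k * P_{k+1} = P_{k+1}` because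
`(1 - P_k) v` is killed by all `1 - g (k+i)` (as `(1-g) = (1-g) P_k` by adjoints), so by
minimality of `P_{k+1}`: `P_{k+1} (1 - P_k) v = 0`. `n2 (1 - e k) ^ 2 ≤ ∑_i 4^{-(k+i)} ≤ 2 · 4⁻ᵏ`.
`e k * g k = e k`: `(1 - P_k) (1 - g k) = 0`. -/

namespace Pool.Agent.HFT

open Pool.Agent.HK Filter Topology

variable {H : Type} [NormedAddCommGroup H] [InnerProductSpace ℂ H] [CompleteSpace H]
variable {M : VonNeumannAlgebra H} {ξ : ℕ → H}

theorem Join_st {p : H →L[ℂ] H} (hp : PJ M p) : star p = p := hp.2.isSelfAdjoint.star_eq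

theorem Join_id {p : H →L[ℂ] H} (hp : PJ M p) : p * p = p := hp.2.isIdempotentElem.eq

theorem Join_sub {p : H →L[ℂ] H} (hp : PJ M p) : PJ M (1 - p) :=
  ⟨sub_mem (one_mem M) hp.1, hp.2.one_sub⟩

/-- adjoints of a relation between projections -/
theorem Join_adj {p q : H →L[ℂ] H} (hp : PJ M p) (hq : PJ M q) {r : H →L[ℂ] H} (hr : PJ M r)
    (h : p * q = r) : q * p = r := by
  have h1 := congrArg star h
  rwa [star_mul, (Join_st hp), (Join_st hq), (Join_st hr)] at h1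

theorem Join_adj0 {p q : H →L[ℂ] H} (hp : PJ M p) (hq : PJ M q)
    (h : p * q = 0) : q * p = 0 := by
  have h1 := congrArg star h
  rwa [star_mul, (Join_st hp), (Join_st hq), star_zero] at h1

theorem TrF.join2 (T : TrF M ξ) {p q : H →L[ℂ] H} (hp : PJ M p) (hq : PJ M q) :
    ∃ P, PJ M P ∧ P * p = p ∧ P * q = q ∧ n2 ξ P ^ 2 ≤ n2 ξ p ^ 2 + n2 ξ q ^ 2 ∧
      ∀ y : H, p y = 0 → q y = 0 → P y = 0 := by
  have hx : (1 - q) * p ∈ M := mul_mem (Join_sub hq).1 hp.1
  have hxp : (1 - q) * p * p = (1 - q) * p := by rw [mul_assoc, (Join_id hp)]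
  obtain ⟨r, hr, h1, h2, h3⟩ := T.rng _ p hx hp hxp
  have hqr : q * r = 0 := by
    apply hkd_ext
    intro v
    show q (r v) = 0
    have hcl : IsClosed {w : H | q w = 0} := isClosed_eq q.continuous continuous_const
    refine hcl.closure_subset_iff.mpr ?_ (h2 v)
    rintro _ ⟨u, rfl⟩
    show q (((1 - q) * p) u) = 0
    have e : q * ((1 - q) * p) = 0 := by
      rw [← mul_assoc, mul_sub, mul_one, (Join_id hq), sub_self, zero_mul]
    exact hkd_app e u
  have hrq : r * q = 0 := Join_adj0 hq hr hqr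
  have hP : PJ M (q + r) := by
    refine ⟨add_mem hq.1 hr.1, ⟨?_, ?_⟩⟩
    · show (q + r) * (q + r) = q + r
      rw [mul_add, add_mul, add_mul, (Join_id hq), (Join_id hr), hqr, hrq, add_zero, zero_add]
    · show star (q + r) = q + r
      rw [star_add, (Join_st hq), (Join_st hr)]
  have hrp : r * p = (1 - q) * p := by
    have e : r * ((1 - q) * p) = r * p := by
      rw [← mul_assoc, mul_sub, mul_one, hrq, sub_zero]
    rw [← e, h1]
  refine ⟨q + r, hP, ?_, ?_, ?_, ?_⟩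
  · rw [add_mul, hrp, sub_mul, one_mul]; abel
  · rw [add_mul, hrq, (Join_id hq), add_zero]
  · rw [n2_orth T.summ q r (by rw [(Join_st hq), hqr])]
    have h4 : n2 ξ r ^ 2 ≤ n2 ξ p ^ 2 := pow_le_pow_left₀ (n2_nonneg ξ r) h3 2
    linarith
  · intro y hpy hqy
    have hcl : IsClosed {w : H | (inner ℂ w y : ℂ) = 0} :=
      isClosed_eq (continuous_id.inner continuous_const) continuous_const
    have h5 : (inner ℂ (r y) y : ℂ) = 0 := by
      refine hcl.closure_subset_iff.mpr ?_ (h2 y)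
      rintro _ ⟨u, rfl⟩
      show (inner ℂ ((1 - q) (p u)) y : ℂ) = 0
      rw [hkd_inner (Join_sub hq).2, hkd_inner hp.2]
      have e : (1 - q) y = y := by
        show y - q y = y
        rw [hqy, sub_zero]
      rw [e, hpy, inner_zero_right]
    have h6 : (inner ℂ (r y) (r y) : ℂ) = 0 := by
      rw [← hkd_inner hr.2, hkd_app_sq hr.2, h5]
    have h7 : r y = 0 := inner_self_eq_zero.mp h6
    show q y + r y = 0
    rw [hqy, h7, add_zero]

theorem Join_aux (T : TrF M ξ) (q : ℕ → H →L[ℂ] H) (hq : ∀ i, PJ M (q i)) :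
    ∃ P : ℕ → H →L[ℂ] H, (∀ k, PJ M (P k)) ∧ (∀ k, P (k + 1) * P k = P k) ∧
      (∀ k, P k * q k = q k) ∧
      (∀ k, n2 ξ (P k) ^ 2 ≤ ∑ i ∈ Finset.range (k + 1), n2 ξ (q i) ^ 2) ∧
      ∀ k, ∀ y : H, (∀ i, q i y = 0) → P k y = 0 := by
  choose J h1 h2 h3 h4 h5 using fun (a b : {p : H →L[ℂ] H // PJ M p}) =>
    T.join2 (p := b.1) (q := a.1) b.2 a.2
  let P : ℕ → {p : H →L[ℂ] H // PJ M p} := fun n =>
    Nat.rec ⟨q 0, hq 0⟩ (fun k a => ⟨J a ⟨q (k + 1), hq (k + 1)⟩, h1 _ _⟩) n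
  have hP0 : (P 0).1 = q 0 := rfl
  have hPs : ∀ k, (P (k + 1)).1 = J (P k) ⟨q (k + 1), hq (k + 1)⟩ := fun k => rfl
  refine ⟨fun k => (P k).1, fun k => (P k).2, ?_, ?_, ?_, ?_⟩
  · intro k
    show (P (k + 1)).1 * (P k).1 = (P k).1
    rw [hPs]
    exact h3 _ _
  · intro k
    show (P k).1 * q k = q k
    cases k with
    | zero => rw [hP0, (Join_id (hq 0))]
    | succ k =>
      rw [hPs]
      exact h2 (P k) ⟨q (k + 1), hq (k + 1)⟩
  · intro k
    show n2 ξ (P k).1 ^ 2 ≤ _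
    induction k with
    | zero => rw [hP0]; simp
    | succ k ih =>
      rw [Finset.sum_range_succ, hPs]
      have := h4 (P k) ⟨q (k + 1), hq (k + 1)⟩
      have h6 : n2 ξ (⟨q (k + 1), hq (k + 1)⟩ : {p : H →L[ℂ] H // PJ M p}).1 ^ 2 =
        n2 ξ (q (k + 1)) ^ 2 := rfl
      linarith
  · intro k y hy
    show (P k).1 y = 0
    induction k with
    | zero => rw [hP0]; exact hy 0
    | succ k ih =>
      rw [hPs]
      exact h5 _ _ y (hy (k + 1)) ih

theorem TrF.joinN (T : TrF M ξ) (q : ℕ → H →L[ℂ] H) (hq : ∀ i, PJ M (q i)) (s : ℝ)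
    (hs : ∀ n, ∑ i ∈ Finset.range n, n2 ξ (q i) ^ 2 ≤ s) :
    ∃ P, PJ M P ∧ (∀ i, P * q i = q i) ∧ n2 ξ P ^ 2 ≤ s ∧
      ∀ y : H, (∀ i, q i y = 0) → P y = 0 := by
  obtain ⟨P, hP, hinc, hPq, hn, hy⟩ := Join_aux T q hq
  have hle : ∀ i k, P (i + k) * q i = q i := by
    intro i k
    induction k with
    | zero => exact hPq i
    | succ k ih =>
      calc P (i + (k + 1)) * q i = P (i + k + 1) * (P (i + k) * q i) := by rw [ih]; rfl
        _ = P (i + k) * q i := by rw [← mul_assoc, hinc]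
        _ = q i := ih
  obtain ⟨R, hR, hlim, hPR⟩ := hkd_lim M (fun n => 1 - P n) (fun n => (Join_sub (hP n))) (by
    intro n
    have h1 : P n * P (n + 1) = P n := Join_adj (hP _) (hP _) (hP _) (hinc n)
    simp only [sub_mul, mul_sub, one_mul, mul_one, h1]
    abel)
  have hs0 : 0 ≤ s := by simpa using hs 0
  refine ⟨1 - R, (Join_sub hR), ?_, ?_, ?_⟩
  · intro i
    have h1 : R * q i = 0 := by
      apply hkd_ext
      intro v
      show R (q i v) = 0
      have h2 : Tendsto (fun n => (1 - P n) (q i v)) atTop (𝓝 0) := by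
        refine tendsto_const_nhds.congr' ?_
        filter_upwards [eventually_ge_atTop i] with n hn
        obtain ⟨k, rfl⟩ := Nat.exists_eq_add_of_le hn
        show 0 = q i v - P (i + k) (q i v)
        rw [hkd_app (hle i k), sub_self]
      exact tendsto_nhds_unique (hlim (q i v)) h2
    rw [sub_mul, h1, one_mul, sub_zero]
  · have h1 : Tendsto (fun n => n2 ξ ((1 - R) - P n)) atTop (𝓝 0) := by
      refine n2_tendsto T.summ _ 2 (fun n => ?_) (fun i => ?_)
      · have e : (1 - R) - P n = (1 - P n) - R := by abel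
        rw [e]
        calc ‖(1 - P n) - R‖ ≤ ‖1 - P n‖ + ‖R‖ := norm_sub_le _ _
          _ ≤ 1 + 1 := add_le_add (Join_sub (hP n)).2.norm_le hR.2.norm_le
          _ = 2 := by norm_num
      · have h2 := (hlim (ξ i)).sub_const (R (ξ i))
        rw [sub_self] at h2
        refine h2.congr fun n => ?_
        show ξ i - P n (ξ i) - R (ξ i) = ξ i - R (ξ i) - P n (ξ i)
        abel
    have h3 : ∀ n, n2 ξ (1 - R) ≤ Real.sqrt s + n2 ξ ((1 - R) - P n) := by
      intro n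
      have h4 : n2 ξ (P n) ≤ Real.sqrt s := Real.le_sqrt_of_sq_le ((hn n).trans (hs _))
      have h5 := n2_add_le T.summ (P n) ((1 - R) - P n)
      rw [add_sub_cancel] at h5
      linarith
    have h6 : n2 ξ (1 - R) ≤ Real.sqrt s := by
      have h7 := h1.const_add (Real.sqrt s)
      rw [add_zero] at h7
      exact ge_of_tendsto' h7 h3
    calc n2 ξ (1 - R) ^ 2 ≤ Real.sqrt s ^ 2 := pow_le_pow_left₀ (n2_nonneg _ _) h6 2
      _ = s := Real.sq_sqrt hs0
  · intro y h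
    have h1 : Tendsto (fun n => (1 - P n) y) atTop (𝓝 y) := by
      refine tendsto_const_nhds.congr fun n => ?_
      show y = y - P n y
      rw [hy n y h, sub_zero]
    have h2 : R y = y := tendsto_nhds_unique (hlim y) h1
    show y - R y = 0
    rw [h2, sub_self]

theorem TrF.incr (T : TrF M ξ) (g : ℕ → H →L[ℂ] H) (hg : ∀ i, PJ M (g i))
    (h : ∀ k, n2 ξ (1 - g k) ≤ (1 / 2) ^ k) :
    ∃ e : ℕ → H →L[ℂ] H, (∀ k, PJ M (e k)) ∧ (∀ k, e k * e (k + 1) = e k) ∧
      (∀ k, e (k + 1) * e k = e k) ∧ (∀ k, e k * g k = e k) ∧ (∀ k, g k * e k = e k) ∧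
      ∀ k, n2 ξ (1 - e k) ≤ 2 * (1 / 2) ^ k := by
  have hs : ∀ k n : ℕ, ∑ i ∈ Finset.range n, n2 ξ (1 - g (k + i)) ^ 2 ≤
      (2 * (1 / 2) ^ k) ^ 2 := by
    intro k n
    have h1 : ∀ m : ℕ, ∑ i ∈ Finset.range m, n2 ξ (1 - g (k + i)) ^ 2 ≤
        (1 / 4 : ℝ) ^ k * (4 / 3 - 4 / 3 * (1 / 4) ^ m) := by
      intro m
      induction m with
      | zero => simp
      | succ m ih =>
        rw [Finset.sum_range_succ]
        have h2 : n2 ξ (1 - g (k + m)) ^ 2 ≤ (1 / 4 : ℝ) ^ k * (1 / 4) ^ m := by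
          calc n2 ξ (1 - g (k + m)) ^ 2 ≤ ((1 / 2) ^ (k + m)) ^ 2 :=
                pow_le_pow_left₀ (n2_nonneg _ _) (h _) 2
            _ = (1 / 4 : ℝ) ^ k * (1 / 4) ^ m := by
                rw [← pow_add, ← pow_mul, mul_comm (k + m) 2, pow_mul]; norm_num
        have e : (1 / 4 : ℝ) ^ (m + 1) = (1 / 4) ^ m * (1 / 4) := pow_succ _ _
        rw [e]
        linarith [ih, h2]
    have h3 : (0 : ℝ) < (1 / 4) ^ k := by positivity
    have h4 : (0 : ℝ) < (1 / 4) ^ n := by positivity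
    have h5 : (2 * (1 / 2 : ℝ) ^ k) ^ 2 = 4 * (1 / 4) ^ k := by
      rw [mul_pow, ← pow_mul, mul_comm k 2, pow_mul]; norm_num
    rw [h5]
    refine (h1 n).trans ?_
    nlinarith [mul_pos h3 h4]
  choose P hP hPq hn hy using fun k => T.joinN (fun i => 1 - g (k + i))
    (fun i => (Join_sub (hg (k + i)))) ((2 * (1 / 2) ^ k) ^ 2) (hs k)
  have h1 : ∀ k, P (k + 1) * P k = P (k + 1) := by
    intro k
    apply hkd_ext
    intro v
    show P (k + 1) (P k v) = P (k + 1) v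
    have h2 := hy (k + 1) (v - P k v) (fun i => by
      have h3 : P k * (1 - g (k + 1 + i)) = 1 - g (k + 1 + i) := by
        have := hPq k (1 + i)
        rwa [← add_assoc] at this
      have h4 : (1 - g (k + 1 + i)) * P k = 1 - g (k + 1 + i) :=
        Join_adj (hP k) (Join_sub (hg _)) (Join_sub (hg _)) h3
      rw [map_sub, hkd_app h4, sub_self])
    rw [map_sub, sub_eq_zero] at h2
    exact h2.symm
  have h2 : ∀ k, P k * P (k + 1) = P (k + 1) := fun k =>
    Join_adj (hP _) (hP _) (hP _) (h1 k)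
  have h3 : ∀ k, (1 - P k) * g k = 1 - P k := by
    intro k
    have h4 : P k * (1 - g k) = 1 - g k := hPq k 0
    have h5 : (1 - P k) * (1 - g k) = 0 := by rw [sub_mul, one_mul, h4, sub_self]
    rw [mul_sub, mul_one, sub_eq_zero] at h5
    exact h5.symm
  refine ⟨fun k => 1 - P k, fun k => (Join_sub (hP k)), ?_, ?_, h3, ?_, ?_⟩
  · intro k
    simp only [sub_mul, mul_sub, one_mul, mul_one, h2]
    abel
  · intro k
    simp only [sub_mul, mul_sub, one_mul, mul_one, h1]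
    abel
  · intro k
    exact Join_adj (Join_sub (hP k)) (hg k) (Join_sub (hP k)) (h3 k)
  · intro k
    show n2 ξ (1 - (1 - P k)) ≤ _
    rw [sub_sub_cancel]
    exact le_of_sq_le_sq (hn k) (by positivity)

end Pool.Agent.HFT
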