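import Pool.Agent.HFT.Defs

set_option autoImplicit false
set_option linter.unusedSectionVars false

/-! # Module Nrm (2 points): norms of operators with orthogonal supports

Everything by `‖T‖ ≤ C` iff `‖T v‖ ≤ C ‖v‖` and Pythagoras (`hkd_inner`, `hkd_pyth` in
`HKD/Split`).
* `norm_orth`: `x v = f x f v`, `y v = (1-f) y (1-f) v` are orthogonal and
  `‖(x + y) v‖² = ‖x f v‖² + ‖y (1-f) v‖² ≤ ‖f v‖² + ‖(1-f) v‖² = ‖v‖²`.
* `norm_left`: `f x = x`, `f z = 0`: `‖(x + c z) v‖² = ‖x v‖² + c² ‖z v‖² ≤ (1 + c²) ‖v‖²`.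
* `norm_right`: `x f = x`, `z f = 0`: apply `norm_left` to the adjoints.
* `norm_bessel`: `g i` pairwise orthogonal projections, `‖y i‖ ≤ 1`:
  `‖∑ c i • g i y i v‖² = ∑ c i² ‖g i y i v‖² ≤ (∑ c i²) ‖v‖²`. -/

namespace Pool.Agent.HFT

open Pool.Agent.HK Filter Topology

variable {H : Type} [NormedAddCommGroup H] [InnerProductSpace ℂ H] [CompleteSpace H]

private theorem nrm_inner {p : H →L[ℂ] H} (hp : IsStarProjection p) (x y : H) :
    inner ℂ (p x) y = inner ℂ x (p y) := by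
  have h := hp.isSelfAdjoint
  rw [ContinuousLinearMap.isSelfAdjoint_iff'] at h
  rw [← ContinuousLinearMap.adjoint_inner_left, h]

private theorem nrm_app {p : H →L[ℂ] H} (hp : IsStarProjection p) (x : H) : p (p x) = p x := by
  have h := hp.isIdempotentElem.eq
  calc p (p x) = (p * p) x := rfl
    _ = p x := by rw [h]

/-- Pythagoras for two vectors separated by a projection -/
private theorem nrm_pyth2 {f : H →L[ℂ] H} (hf : IsStarProjection f) {u w : H} (hu : f u = u)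
    (hw : f w = 0) : ‖u + w‖ ^ 2 = ‖u‖ ^ 2 + ‖w‖ ^ 2 := by
  have e : inner ℂ u w = (0 : ℂ) := by
    rw [← hu, nrm_inner hf, hw, inner_zero_right]
  have h := norm_add_sq (𝕜 := ℂ) u w
  rw [e] at h
  simpa using h

private theorem nrm_le {T : H →L[ℂ] H} {C : ℝ} (hC : 0 ≤ C) (h : ∀ v, ‖T v‖ ^ 2 ≤ C * ‖v‖ ^ 2) :
    ‖T‖ ^ 2 ≤ C := by
  have h1 : ‖T‖ ≤ Real.sqrt C := by
    refine ContinuousLinearMap.opNorm_le_bound _ (Real.sqrt_nonneg _) fun v => ?_
    have h2 := h v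
    have h3 : ‖T v‖ ^ 2 ≤ (Real.sqrt C * ‖v‖) ^ 2 := by
      rw [mul_pow, Real.sq_sqrt hC]
      exact h2
    exact (pow_le_pow_iff_left₀ (norm_nonneg _) (by positivity) two_ne_zero).1 h3
  calc ‖T‖ ^ 2 ≤ (Real.sqrt C) ^ 2 := by gcongr
    _ = C := Real.sq_sqrt hC

private theorem nrm_ball {T : H →L[ℂ] H} (h : ‖T‖ ≤ 1) (v : H) : ‖T v‖ ^ 2 ≤ ‖v‖ ^ 2 := by
  have h1 : ‖T v‖ ≤ ‖v‖ := by
    calc ‖T v‖ ≤ ‖T‖ * ‖v‖ := T.le_opNorm v
      _ ≤ 1 * ‖v‖ := by gcongr
      _ = ‖v‖ := one_mul _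
  gcongr

theorem norm_orth {f x y : H →L[ℂ] H} (hf : IsStarProjection f) (hx : f * x * f = x)
    (hy : (1 - f) * y * (1 - f) = y) (hx1 : ‖x‖ ≤ 1) (hy1 : ‖y‖ ≤ 1) : ‖x + y‖ ≤ 1 := by
  have hff := hf.isIdempotentElem.eq
  have key : ‖x + y‖ ^ 2 ≤ 1 := by
    refine nrm_le zero_le_one fun v => ?_
    have e1 : f (x v) = x v := by
      have : f * x = x := by rw [← hx, ← mul_assoc, ← mul_assoc, hff]
      calc f (x v) = (f * x) v := rfl
        _ = x v := by rw [this]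
    have e2 : x (f v) = x v := by
      have : x * f = x := by rw [← hx, mul_assoc, hff]
      calc x (f v) = (x * f) v := rfl
        _ = x v := by rw [this]
    have e3 : f (y v) = 0 := by
      have h0 : f * (1 - f) = 0 := by rw [mul_sub, mul_one, hff, sub_self]
      have : f * y = 0 := by
        calc f * y = f * ((1 - f) * y * (1 - f)) := by rw [hy]
          _ = f * (1 - f) * y * (1 - f) := by simp only [mul_assoc]
          _ = 0 := by rw [h0, zero_mul, zero_mul]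
      calc f (y v) = (f * y) v := rfl
        _ = 0 := by rw [this]; rfl
    have e4 : y (v - f v) = y v := by
      have h0 : (1 - f) * (1 - f) = 1 - f := by
        rw [mul_sub, mul_one, sub_mul, one_mul, hff, sub_self, sub_zero]
      have : y * (1 - f) = y := by
        calc y * (1 - f) = (1 - f) * y * (1 - f) * (1 - f) := by rw [hy]
          _ = (1 - f) * y * ((1 - f) * (1 - f)) := by simp only [mul_assoc]
          _ = y := by rw [h0, hy]
      calc y (v - f v) = (y * (1 - f)) v := rfl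
        _ = y v := by rw [this]
    have h1 : ‖(x + y) v‖ ^ 2 = ‖x v‖ ^ 2 + ‖y v‖ ^ 2 := by
      show ‖x v + y v‖ ^ 2 = _
      exact nrm_pyth2 hf e1 e3
    have h2 : ‖v‖ ^ 2 = ‖f v‖ ^ 2 + ‖v - f v‖ ^ 2 := by
      have := nrm_pyth2 (u := f v) (w := v - f v) hf (nrm_app hf v)
        (by rw [map_sub, nrm_app hf, sub_self])
      rwa [add_sub_cancel] at this
    have h3 := nrm_ball hx1 (f v)
    have h4 := nrm_ball hy1 (v - f v)
    rw [e2] at h3
    rw [e4] at h4
    rw [h1, one_mul, h2]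
    linarith
  have h0 := norm_nonneg (x + y)
  nlinarith

theorem norm_left {f x z : H →L[ℂ] H} (hf : IsStarProjection f) (hx : f * x = x)
    (hz : f * z = 0) (hx1 : ‖x‖ ≤ 1) (hz1 : ‖z‖ ≤ 1) (c : ℝ) :
    ‖x + (c : ℂ) • z‖ ^ 2 ≤ 1 + c ^ 2 := by
  refine nrm_le (by positivity) fun v => ?_
  have e1 : f (x v) = x v := by
    calc f (x v) = (f * x) v := rfl
      _ = x v := by rw [hx]
  have e2 : f ((c : ℂ) • z v) = 0 := by
    rw [map_smul]
    have : f (z v) = 0 := by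
      calc f (z v) = (f * z) v := rfl
        _ = 0 := by rw [hz]; rfl
    rw [this, smul_zero]
  have h1 : ‖(x + (c : ℂ) • z) v‖ ^ 2 = ‖x v‖ ^ 2 + ‖(c : ℂ) • z v‖ ^ 2 := by
    show ‖x v + (c : ℂ) • z v‖ ^ 2 = _
    exact nrm_pyth2 hf e1 e2
  have h2 : ‖(c : ℂ) • z v‖ ^ 2 = c ^ 2 * ‖z v‖ ^ 2 := by
    rw [norm_smul, mul_pow]
    congr 1
    rw [Complex.norm_real, Real.norm_eq_abs, sq_abs]
  have h3 := nrm_ball hx1 v
  have h4 := nrm_ball hz1 v
  rw [h1, h2]
  nlinarith [sq_nonneg c, mul_le_mul_of_nonneg_left h4 (sq_nonneg c)]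

theorem norm_right {f x z : H →L[ℂ] H} (hf : IsStarProjection f) (hx : x * f = x)
    (hz : z * f = 0) (hx1 : ‖x‖ ≤ 1) (hz1 : ‖z‖ ≤ 1) (c : ℝ) :
    ‖x + (c : ℂ) • z‖ ^ 2 ≤ 1 + c ^ 2 := by
  have hfs := hf.isSelfAdjoint.star_eq
  have e1 : f * star x = star x := by
    have := congrArg star hx
    rwa [star_mul, hfs] at this
  have e2 : f * star z = 0 := by
    have := congrArg star hz
    rwa [star_mul, hfs, star_zero] at this
  have h := norm_left hf e1 e2 (by rwa [norm_star]) (by rwa [norm_star]) c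
  have e3 : star x + (c : ℂ) • star z = star (x + (c : ℂ) • z) := by
    rw [star_add, star_smul]
    congr 2
    simp
  rwa [e3, norm_star] at h

theorem norm_bessel {ι : Type} [DecidableEq ι] (s : Finset ι) (g y : ι → H →L[ℂ] H)
    (hg : ∀ i ∈ s, IsStarProjection (g i)) (horth : ∀ i ∈ s, ∀ j ∈ s, i ≠ j → g i * g j = 0)
    (hy : ∀ i ∈ s, ‖y i‖ ≤ 1) (c : ι → ℝ) :
    ‖∑ i ∈ s, (c i : ℂ) • (g i * y i)‖ ^ 2 ≤ ∑ i ∈ s, c i ^ 2 := by
  refine nrm_le (Finset.sum_nonneg fun i _ => sq_nonneg _) fun v => ?_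
  have key : ∀ t : Finset ι, t ⊆ s →
      ‖(∑ i ∈ t, (c i : ℂ) • (g i * y i)) v‖ ^ 2 ≤ (∑ i ∈ t, c i ^ 2) * ‖v‖ ^ 2 := by
    intro t
    induction t using Finset.induction_on with
    | empty => intro _; simp
    | insert a t ha ih =>
      intro hts
      have has : a ∈ s := hts (Finset.mem_insert_self a t)
      have hts' : t ⊆ s := (Finset.subset_insert a t).trans hts
      have e1 : g a ((c a : ℂ) • (g a (y a v))) = (c a : ℂ) • (g a (y a v)) := by
        rw [map_smul, nrm_app (hg a has)]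
      have e2 : g a ((∑ i ∈ t, (c i : ℂ) • (g i * y i)) v) = 0 := by
        rw [sum_apply, map_sum]
        refine Finset.sum_eq_zero fun i hi => ?_
        have hne : a ≠ i := fun h => ha (h ▸ hi)
        have h0 := horth a has i (hts' hi) hne
        calc g a (((c i : ℂ) • (g i * y i)) v) = (c i : ℂ) • g a (g i (y i v)) := by
              rw [← map_smul]; rfl
          _ = (c i : ℂ) • ((g a * g i) (y i v)) := rfl
          _ = 0 := by rw [h0]; simp
      have h1 : ‖(∑ i ∈ insert a t, (c i : ℂ) • (g i * y i)) v‖ ^ 2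
          = ‖(c a : ℂ) • (g a (y a v))‖ ^ 2 + ‖(∑ i ∈ t, (c i : ℂ) • (g i * y i)) v‖ ^ 2 := by
        rw [Finset.sum_insert ha]
        exact nrm_pyth2 (hg a has) e1 e2
      have h2 : ‖(c a : ℂ) • (g a (y a v))‖ ^ 2 ≤ c a ^ 2 * ‖v‖ ^ 2 := by
        rw [norm_smul, mul_pow, Complex.norm_real, Real.norm_eq_abs, sq_abs]
        have h3 := nrm_ball (hy a has) v
        have h4 : ‖g a (y a v)‖ ^ 2 ≤ ‖y a v‖ ^ 2 := by
          have := nrm_pyth2 (u := g a (y a v)) (w := y a v - g a (y a v)) (hg a has)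
            (nrm_app (hg a has) _) (by rw [map_sub, nrm_app (hg a has), sub_self])
          rw [add_sub_cancel] at this
          nlinarith [sq_nonneg ‖y a v - g a (y a v)‖]
        exact mul_le_mul_of_nonneg_left (h4.trans h3) (sq_nonneg _)
      rw [h1, Finset.sum_insert ha, add_mul]
      exact add_le_add h2 (ih hts')
  exact key s (Finset.Subset.refl s)

end Pool.Agent.HFT
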