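import Pool.Agent.HFT.W5
import Pool.Agent.HFT.Join
import Pool.Agent.HFT.Nrm

set_option autoImplicit false
set_option linter.unusedSectionVars false

/-! # Module P7a (4 points): sparse sequences of projections

`Sp`: `n` strictly increasing, `h 0 = 1`, `h (j+1)` is a projection of `M` commuting with `X i`, `Z i`
for `i ≤ n j` and for `i ≥ n (j+1)`; `s j` commutes with `X i`, `Z i` for `i ≥ n j`,
`h j * s j * h j = s j`, `‖s j‖ ≤ C`; `Bs h s j` is the sequence `B_0 = s 0`,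
`B_{j+1} = B_j (1 - h (j+1)) + s (j+1)`. `hρ`: `∑_{i<m} n2 (h (j+1+i))² ≤ (ρ j)²` for all `j, m`, `ρ j ≥ 0`, `ρ j → 0`.

(1) `h_comm`: `h i h j = h j h i`: for `1 ≤ i < j`, `h i` commutes with the positions `≥ n i` and
`h j` with the positions `≤ n (j-1)`, `n (j-1) ≥ n i`: `Hyp.CP_comm` (with `n := n i`).
(2) `Bs_CP`: `B_j` commutes with the positions `≥ n j` (induction). So `B_j h (j+1) = h (j+1) B_j`
(`Hyp.CP_comm`), and by induction `‖B_j‖ ≤ C`: `B_j (1 - h) = (1 - h) B_j (1 - h)` and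
`s = h s h`: `norm_orth` scaled by `C` (if `C = 0` everything vanishes; or use `norm_orth` with
`C⁻¹`). `norm_orth` is in module Nrm; import it if you want.
(3) `exists_t`: for fixed `m` let `P_l = ∏_{m < i ≤ m + l} (1 - h i)` (recursively
`P_{l+1} = P_l (1 - h (m+l+1))`), commuting projections, decreasing: `hkd_lim` (HKD/Split) gives the
strong limit `t m ∈ M`. `1 - P_{l+1} = (1 - P_l) + P_l h`, orthogonal: `n2 (1 - P_l)² ≤ ∑ n2 (h i)² ≤ ρ m ²`
(`n2_orth`, `TrF.n2_mul_le'`), and `n2 (1 - t m) ≤ ρ m` by `n2_tendsto`.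
`t m = (1 - h (m+1)) t (m+1) = t (m+1) (1 - h (m+1))`: the products for `m` and `m + 1` differ by
the factor `1 - h (m+1)`, pass to the strong limit. `CP X Z i (t m)` for `i ≤ n m` and for `i = n l`,
all `l`: every factor `h i'`, `i' ≥ m + 1`, commutes with the positions `≤ n (i'-1)`, and for
`l ≥ i'` with the position `n l ≥ n i'` : so with every position `n l`, `l` arbitrary, and with the
positions `≤ n m`; pass to the strong limit. `t m v → v`: `n2 (1 - t m) → 0` and `TrF.sot`. -/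

namespace Pool.Agent.HFT

open Pool.Agent.HK Filter Topology

variable {H : Type} [NormedAddCommGroup H] [InnerProductSpace ℂ H] [CompleteSpace H]
variable {M : VonNeumannAlgebra H} {ξ : ℕ → H} {X Z : ℕ → H →L[ℂ] H}

/-- the partial sums of a sparse product -/
noncomputable def Bs (h s : ℕ → RA M) : ℕ → RA M
  | 0 => s 0
  | j + 1 => Bs h s j * (1 - h (j + 1)) + s (j + 1)

/-- data of a sparse product -/
structure Sp (ξ : ℕ → H) (X Z : ℕ → H →L[ℂ] H) (C : ℝ) (n : ℕ → ℕ) (h s : ℕ → RA M)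
    (ρ : ℕ → ℝ) : Prop where
  mono : StrictMono n
  h0 : h 0 = 1
  hp : ∀ j, IsStarProjection (h j).1
  hc : ∀ j i, (i ≤ n j ∨ n (j + 1) ≤ i) → CP X Z i (h (j + 1)).1
  sc : ∀ j i, n j ≤ i → CP X Z i (s j).1
  hs : ∀ j, h j * s j * h j = s j
  sn : ∀ j, ‖s j‖ ≤ C
  ρ0 : ∀ j, 0 ≤ ρ j
  ρs : ∀ j m, ∑ i ∈ Finset.range m, n2 ξ (h (j + 1 + i)).1 ^ 2 ≤ ρ j ^ 2
  ρt : Tendsto ρ atTop (𝓝 0)


private theorem p7a_cp_mul {i : ℕ} {x y : H →L[ℂ] H} (hx : CP X Z i x) (hy : CP X Z i y) :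
    CP X Z i (x * y) := by
  refine ⟨?_, ?_⟩
  · rw [← mul_assoc, hx.1, mul_assoc, hy.1, mul_assoc]
  · rw [← mul_assoc, hx.2, mul_assoc, hy.2, mul_assoc]

private theorem p7a_cp_add {i : ℕ} {x y : H →L[ℂ] H} (hx : CP X Z i x) (hy : CP X Z i y) :
    CP X Z i (x + y) := by
  refine ⟨?_, ?_⟩
  · rw [mul_add, add_mul, hx.1, hy.1]
  · rw [mul_add, add_mul, hx.2, hy.2]

private theorem p7a_cp_one_sub {i : ℕ} {x : H →L[ℂ] H} (hx : CP X Z i x) :
    CP X Z i (1 - x) := by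
  refine ⟨?_, ?_⟩
  · rw [mul_sub, sub_mul, hx.1, mul_one, one_mul]
  · rw [mul_sub, sub_mul, hx.2, mul_one, one_mul]

private theorem p7a_comm_lt (A : Hyp M ξ X Z) {C : ℝ} {n : ℕ → ℕ} {h s : ℕ → RA M} {ρ : ℕ → ℝ}
    (S : Sp ξ X Z C n h s ρ) (a b : ℕ) (hab : a < b) :
    h (a + 1) * h (b + 1) = h (b + 1) * h (a + 1) := by
  apply Subtype.ext
  show (h (a + 1)).1 * (h (b + 1)).1 = (h (b + 1)).1 * (h (a + 1)).1
  refine A.CP_comm (n (a + 1)) _ _ (h (a + 1)).2 (fun i hi => S.hc a i (Or.inr hi)) ?_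
  intro i hi
  exact S.hc b i (Or.inl (hi.le.trans (S.mono.monotone hab)))

theorem Sp.h_comm (A : Hyp M ξ X Z) {C : ℝ} {n : ℕ → ℕ} {h s : ℕ → RA M} {ρ : ℕ → ℝ}
    (S : Sp ξ X Z C n h s ρ) (i j : ℕ) : h i * h j = h j * h i := by
  rcases i with _ | a
  · rw [S.h0, one_mul, mul_one]
  rcases j with _ | b
  · rw [S.h0, one_mul, mul_one]
  rcases lt_trichotomy a b with hab | hab | hab
  · exact p7a_comm_lt A S a b hab
  · rw [hab]
  · exact (p7a_comm_lt A S b a hab).symm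

theorem Sp.Bs_CP (A : Hyp M ξ X Z) {C : ℝ} {n : ℕ → ℕ} {h s : ℕ → RA M} {ρ : ℕ → ℝ}
    (S : Sp ξ X Z C n h s ρ) (j i : ℕ) (hi : n j ≤ i) : CP X Z i (Bs h s j).1 := by
  induction j with
  | zero => exact S.sc 0 i hi
  | succ j ih =>
    have h1 : CP X Z i (Bs h s j).1 := ih ((S.mono.monotone (Nat.le_succ j)).trans hi)
    have h2 : CP X Z i (h (j + 1)).1 := S.hc j i (Or.inr hi)
    have h3 : CP X Z i (s (j + 1)).1 := S.sc (j + 1) i hi
    exact p7a_cp_add (p7a_cp_mul h1 (p7a_cp_one_sub h2)) h3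

private theorem p7a_Bh (A : Hyp M ξ X Z) {C : ℝ} {n : ℕ → ℕ} {h s : ℕ → RA M} {ρ : ℕ → ℝ}
    (S : Sp ξ X Z C n h s ρ) (j : ℕ) :
    (Bs h s j).1 * (h (j + 1)).1 = (h (j + 1)).1 * (Bs h s j).1 := by
  refine A.CP_comm (n j) _ _ (Bs h s j).2 (fun i hi => S.Bs_CP A j i hi) ?_
  intro i hi
  exact S.hc j i (Or.inl hi.le)

theorem Sp.Bs_norm (A : Hyp M ξ X Z) {C : ℝ} {n : ℕ → ℕ} {h s : ℕ → RA M} {ρ : ℕ → ℝ}
    (S : Sp ξ X Z C n h s ρ) (j : ℕ) : ‖Bs h s j‖ ≤ C := by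
  have hC0 : 0 ≤ C := (norm_nonneg _).trans (S.sn 0)
  induction j with
  | zero => exact S.sn 0
  | succ j ih =>
    set f : H →L[ℂ] H := (h (j + 1)).1 with hf
    set B : H →L[ℂ] H := (Bs h s j).1 with hB
    set w : H →L[ℂ] H := (s (j + 1)).1 with hw
    have hfp : IsStarProjection f := S.hp (j + 1)
    have hfp' : IsStarProjection (1 - f) := hfp.one_sub
    have hff : (1 - f) * (1 - f) = 1 - f := hfp'.isIdempotentElem.eq
    have hBn : ‖B‖ ≤ C := ih
    have hwn : ‖w‖ ≤ C := S.sn (j + 1)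
    have hBf : B * f = f * B := p7a_Bh A S j
    have hBf' : (1 - f) * B = B * (1 - f) := by
      rw [sub_mul, mul_sub, one_mul, mul_one, hBf]
    have hws : f * w * f = w := congrArg Subtype.val (S.hs (j + 1))
    have hy : (1 - f) * (B * (1 - f)) * (1 - f) = B * (1 - f) := by
      rw [← mul_assoc (1 - f) B, hBf', mul_assoc B, hff, mul_assoc B, hff]
    have hBfn : ‖B * (1 - f)‖ ≤ C := by
      calc ‖B * (1 - f)‖ ≤ ‖B‖ * ‖1 - f‖ := norm_mul_le _ _
        _ ≤ C * 1 := mul_le_mul hBn (IsStarProjection.norm_le _ hfp') (norm_nonneg _) hC0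
        _ = C := mul_one C
    show ‖B * (1 - f) + w‖ ≤ C
    rcases hC0.eq_or_lt with h0 | h0
    · have e1 : B * (1 - f) = 0 := by
        rw [← norm_le_zero_iff, h0]; exact hBfn
      have e2 : w = 0 := by
        rw [← norm_le_zero_iff, h0]; exact hwn
      rw [e1, e2, add_zero, norm_zero]
      exact hC0
    · have hc : ‖((C : ℂ)⁻¹)‖ = C⁻¹ := by
        rw [norm_inv, Complex.norm_real, Real.norm_eq_abs, abs_of_pos h0]
      have h1 : ‖((C : ℂ)⁻¹) • w‖ ≤ 1 := by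
        rw [norm_smul, hc, inv_mul_le_iff₀ h0, mul_one]; exact hwn
      have h2 : ‖((C : ℂ)⁻¹) • (B * (1 - f))‖ ≤ 1 := by
        rw [norm_smul, hc, inv_mul_le_iff₀ h0, mul_one]; exact hBfn
      have h3 := norm_orth (f := f) (x := ((C : ℂ)⁻¹) • w) (y := ((C : ℂ)⁻¹) • (B * (1 - f))) hfp
        (by rw [mul_smul_comm, smul_mul_assoc, hws]) (by rw [mul_smul_comm, smul_mul_assoc, hy])
        h1 h2
      rw [← smul_add, norm_smul, hc, inv_mul_le_iff₀ h0, mul_one, add_comm] at h3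
      exact h3

private noncomputable def p7aP (h : ℕ → RA M) (m : ℕ) : ℕ → RA M
  | 0 => 1
  | l + 1 => p7aP h m l * (1 - h (m + l + 1))

private theorem p7a_hP {h : ℕ → RA M} (hc : ∀ i j, h i * h j = h j * h i) (m l j : ℕ) :
    h j * p7aP h m l = p7aP h m l * h j := by
  induction l with
  | zero => show h j * 1 = 1 * h j; rw [one_mul, mul_one]
  | succ l ih =>
    show h j * (p7aP h m l * (1 - h (m + l + 1))) = p7aP h m l * (1 - h (m + l + 1)) * h j
    rw [← mul_assoc, ih, mul_assoc, mul_assoc]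
    congr 1
    rw [mul_sub, sub_mul, hc, mul_one, one_mul]

private theorem p7a_proj_mul {p q : H →L[ℂ] H} (hp : IsStarProjection p) (hq : IsStarProjection q)
    (h : p * q = q * p) : IsStarProjection (p * q) := by
  refine ⟨?_, ?_⟩
  · show p * q * (p * q) = p * q
    rw [mul_assoc, ← mul_assoc q, ← h, mul_assoc p q q, hq.isIdempotentElem.eq, ← mul_assoc,
      hp.isIdempotentElem.eq]
  · show star (p * q) = p * q
    rw [star_mul, hp.isSelfAdjoint.star_eq, hq.isSelfAdjoint.star_eq, h]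

private theorem p7a_P_proj {h : ℕ → RA M} (hp : ∀ j, IsStarProjection (h j).1)
    (hc : ∀ i j, h i * h j = h j * h i) (m l : ℕ) : IsStarProjection (p7aP h m l).1 := by
  induction l with
  | zero =>
    show IsStarProjection (1 : H →L[ℂ] H)
    exact IsStarProjection.one _
  | succ l ih =>
    show IsStarProjection ((p7aP h m l).1 * (1 - (h (m + l + 1)).1))
    refine p7a_proj_mul ih (hp _).one_sub ?_
    have e := congrArg Subtype.val (p7a_hP hc m l (m + l + 1))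
    have e' : (h (m + l + 1)).1 * (p7aP h m l).1 = (p7aP h m l).1 * (h (m + l + 1)).1 := e
    rw [mul_sub, sub_mul, mul_one, one_mul, e']

private theorem p7a_P_dec {h : ℕ → RA M} (hp : ∀ j, IsStarProjection (h j).1)
    (hc : ∀ i j, h i * h j = h j * h i) (m l : ℕ) :
    (p7aP h m l).1 * (p7aP h m (l + 1)).1 = (p7aP h m (l + 1)).1 := by
  show (p7aP h m l).1 * ((p7aP h m l).1 * (1 - (h (m + l + 1)).1)) =
    (p7aP h m l).1 * (1 - (h (m + l + 1)).1)
  rw [← mul_assoc, (p7a_P_proj hp hc m l).isIdempotentElem.eq]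

private theorem p7a_P_shift {h : ℕ → RA M} (m l : ℕ) :
    p7aP h m (l + 1) = (1 - h (m + 1)) * p7aP h (m + 1) l := by
  induction l with
  | zero =>
    show 1 * (1 - h (m + 0 + 1)) = (1 - h (m + 1)) * 1
    rw [one_mul, mul_one, add_zero]
  | succ l ih =>
    show p7aP h m (l + 1) * (1 - h (m + (l + 1) + 1)) =
      (1 - h (m + 1)) * (p7aP h (m + 1) l * (1 - h (m + 1 + l + 1)))
    rw [ih, mul_assoc]
    have e : m + (l + 1) + 1 = m + 1 + l + 1 := by ring
    rw [e]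

private theorem p7a_P_n2 (T : TrF M ξ) {h : ℕ → RA M} (hp : ∀ j, IsStarProjection (h j).1)
    (hc : ∀ i j, h i * h j = h j * h i) (m l : ℕ) :
    n2 ξ (1 - (p7aP h m l).1) ^ 2 ≤ ∑ i ∈ Finset.range l, n2 ξ (h (m + 1 + i)).1 ^ 2 := by
  induction l with
  | zero =>
    show n2 ξ (1 - (1 : H →L[ℂ] H)) ^ 2 ≤ _
    rw [sub_self, n2_zero]
    simp
  | succ l ih =>
    have hP := p7a_P_proj hp hc m l
    have e : (1 : H →L[ℂ] H) - (p7aP h m (l + 1)).1 =
        (1 - (p7aP h m l).1) + (p7aP h m l).1 * (h (m + l + 1)).1 := by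
      show (1 : H →L[ℂ] H) - (p7aP h m l).1 * (1 - (h (m + l + 1)).1) = _
      rw [mul_sub, mul_one]
      abel
    have h0 : star (1 - (p7aP h m l).1) * ((p7aP h m l).1 * (h (m + l + 1)).1) = 0 := by
      rw [hP.one_sub.isSelfAdjoint.star_eq, ← mul_assoc, sub_mul, one_mul,
        hP.isIdempotentElem.eq, sub_self, zero_mul]
    rw [e, n2_orth T.summ _ _ h0, Finset.sum_range_succ]
    refine add_le_add ih ?_
    have e2 : m + l + 1 = m + 1 + l := by ring
    rw [e2]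
    refine pow_le_pow_left₀ (n2_nonneg _ _) ?_ 2
    calc n2 ξ ((p7aP h m l).1 * (h (m + 1 + l)).1)
        ≤ ‖(p7aP h m l).1‖ * n2 ξ (h (m + 1 + l)).1 := n2_mul_le T.summ _ _
      _ ≤ 1 * n2 ξ (h (m + 1 + l)).1 :=
          mul_le_mul_of_nonneg_right (IsStarProjection.norm_le _ hP) (n2_nonneg _ _)
      _ = n2 ξ (h (m + 1 + l)).1 := one_mul _

private theorem p7a_P_CP {C : ℝ} {n : ℕ → ℕ} {h s : ℕ → RA M} {ρ : ℕ → ℝ}
    (S : Sp ξ X Z C n h s ρ) (m i : ℕ) (hi : ∀ l, i ≤ n (m + l) ∨ n (m + l + 1) ≤ i) (l : ℕ) :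
    CP X Z i (p7aP h m l).1 := by
  induction l with
  | zero =>
    show CP X Z i (1 : H →L[ℂ] H)
    exact ⟨by rw [mul_one, one_mul], by rw [mul_one, one_mul]⟩
  | succ l ih =>
    show CP X Z i ((p7aP h m l).1 * (1 - (h (m + l + 1)).1))
    exact p7a_cp_mul ih (p7a_cp_one_sub (S.hc (m + l) i (hi l)))

/-- commutation passes to strong limits -/
private theorem p7a_lim_comm {P : ℕ → H →L[ℂ] H} {T : H →L[ℂ] H}
    (hT : ∀ x : H, Tendsto (fun n => P n x) atTop (𝓝 (T x))) (y : H →L[ℂ] H)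
    (h : ∀ n, y * P n = P n * y) : y * T = T * y := by
  ext v
  have h1 : Tendsto (fun n => y (P n v)) atTop (𝓝 (y (T v))) :=
    (y.continuous.tendsto _).comp (hT v)
  have h2 : Tendsto (fun n => P n (y v)) atTop (𝓝 (T (y v))) := hT (y v)
  have h3 : (fun n => y (P n v)) = fun n => P n (y v) := by
    funext n
    exact DFunLike.congr_fun (h n) v
  rw [h3] at h1
  exact tendsto_nhds_unique h1 h2

theorem Sp.exists_t (A : Hyp M ξ X Z) {C : ℝ} {n : ℕ → ℕ} {h s : ℕ → RA M} {ρ : ℕ → ℝ}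
    (S : Sp ξ X Z C n h s ρ) :
    ∃ t : ℕ → RA M, (∀ m, IsStarProjection (t m).1) ∧ (∀ m, n2 ξ (1 - (t m).1) ≤ ρ m) ∧
      (∀ m, t m = (1 - h (m + 1)) * t (m + 1)) ∧ (∀ m, t m = t (m + 1) * (1 - h (m + 1))) ∧
      (∀ m i, i ≤ n m → CP X Z i (t m).1) ∧ (∀ m l, CP X Z (n l) (t m).1) ∧
      (∀ m j, h j * t m = t m * h j) ∧
      ∀ v : H, Tendsto (fun m => (t m).1 v) atTop (𝓝 v) := by
  have hc : ∀ i j, h i * h j = h j * h i := fun i j => S.h_comm A i j
  have hlim : ∀ m, ∃ T, PJ M T ∧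
      (∀ x : H, Tendsto (fun l => (p7aP h m l).1 x) atTop (𝓝 (T x))) ∧
      ∀ l, (p7aP h m l).1 * T = T := by
    intro m
    exact hkd_lim M (fun l => (p7aP h m l).1)
      (fun l => ⟨(p7aP h m l).2, p7a_P_proj S.hp hc m l⟩) (fun l => p7a_P_dec S.hp hc m l)
  choose T hT1 hT2 hT3 using hlim
  have hn2P : ∀ m l, n2 ξ (1 - (p7aP h m l).1) ≤ ρ m := by
    intro m l
    have h1 := (p7a_P_n2 A.trf S.hp hc m l).trans (S.ρs m l)
    exact abs_le_of_sq_le_sq' h1 (S.ρ0 m) |>.2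
  have hn2T : ∀ m, n2 ξ (1 - T m) ≤ ρ m := by
    intro m
    have h1 : Tendsto (fun l => n2 ξ ((p7aP h m l).1 - T m)) atTop (𝓝 0) := by
      refine n2_tendsto A.trf.summ _ 2 ?_ ?_
      · intro l
        calc ‖(p7aP h m l).1 - T m‖ ≤ ‖(p7aP h m l).1‖ + ‖T m‖ := norm_sub_le _ _
          _ ≤ 1 + 1 := add_le_add (IsStarProjection.norm_le _ (p7a_P_proj S.hp hc m l))
              (IsStarProjection.norm_le _ (hT1 m).2)
          _ = 2 := by norm_num
      · intro i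
        have h2 := (hT2 m (ξ i)).sub_const (T m (ξ i))
        rw [sub_self] at h2
        exact h2
    have h2 : Tendsto (fun l => ρ m + n2 ξ ((p7aP h m l).1 - T m)) atTop (𝓝 (ρ m + 0)) :=
      tendsto_const_nhds.add h1
    rw [add_zero] at h2
    refine ge_of_tendsto' h2 ?_
    intro l
    have e : (1 : H →L[ℂ] H) - T m = (1 - (p7aP h m l).1) + ((p7aP h m l).1 - T m) := by abel
    rw [e]
    exact (n2_add_le A.trf.summ _ _).trans (add_le_add (hn2P m l) le_rfl)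
  have hshift1 : ∀ m, T m = (1 - (h (m + 1)).1) * T (m + 1) := by
    intro m
    ext v
    have h1 : Tendsto (fun l => (p7aP h m (l + 1)).1 v) atTop (𝓝 (T m v)) :=
      (hT2 m v).comp (tendsto_add_atTop_nat 1)
    have h2 : Tendsto (fun l => (1 - (h (m + 1)).1) ((p7aP h (m + 1) l).1 v)) atTop
        (𝓝 ((1 - (h (m + 1)).1) (T (m + 1) v))) :=
      (ContinuousLinearMap.continuous _).tendsto _ |>.comp (hT2 (m + 1) v)
    have h3 : (fun l => (p7aP h m (l + 1)).1 v) =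
        fun l => (1 - (h (m + 1)).1) ((p7aP h (m + 1) l).1 v) := by
      funext l
      rw [p7a_P_shift m l]
      rfl
    rw [h3] at h1
    exact tendsto_nhds_unique h1 h2
  have hTc : ∀ m j, (h j).1 * T m = T m * (h j).1 := by
    intro m j
    refine p7a_lim_comm (hT2 m) _ ?_
    intro l
    exact congrArg Subtype.val (p7a_hP hc m l j)
  have hTn : Tendsto (fun m => n2 ξ (1 - T m)) atTop (𝓝 0) :=
    squeeze_zero (fun m => n2_nonneg _ _) hn2T S.ρt
  refine ⟨fun m => ⟨T m, (hT1 m).1⟩, fun m => (hT1 m).2, hn2T, ?_, ?_, ?_, ?_, ?_, ?_⟩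
  · intro m
    exact Subtype.ext (hshift1 m)
  · intro m
    apply Subtype.ext
    show T m = T (m + 1) * (1 - (h (m + 1)).1)
    rw [hshift1 m, mul_sub, sub_mul, mul_one, one_mul, hTc (m + 1) (m + 1)]
  · intro m i hi
    have h1 : ∀ l, CP X Z i (p7aP h m l).1 :=
      p7a_P_CP S m i (fun l => Or.inl (hi.trans (S.mono.monotone (Nat.le_add_right m l))))
    exact ⟨p7a_lim_comm (hT2 m) _ fun l => (h1 l).1, p7a_lim_comm (hT2 m) _ fun l => (h1 l).2⟩
  · intro m k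
    have h1 : ∀ l, CP X Z (n k) (p7aP h m l).1 := by
      refine p7a_P_CP S m (n k) (fun l => ?_)
      rcases Nat.lt_or_ge (m + l) k with hk | hk
      · exact Or.inr (S.mono.monotone hk)
      · exact Or.inl (S.mono.monotone hk)
    exact ⟨p7a_lim_comm (hT2 m) _ fun l => (h1 l).1, p7a_lim_comm (hT2 m) _ fun l => (h1 l).2⟩
  · intro m j
    exact Subtype.ext (hTc m j)
  · intro v
    have h1 := A.trf.sot (fun m => 1 - T m) (fun m => (hT1 m).one_sub'.1) 1
      (fun m => IsStarProjection.norm_le _ (hT1 m).2.one_sub) hTn v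
    have h2 : Tendsto (fun m => v - (1 - T m) v) atTop (𝓝 (v - 0)) := tendsto_const_nhds.sub h1
    rw [sub_zero] at h2
    refine h2.congr ?_
    intro m
    show v - (v - T m v) = T m v
    abel

end Pool.Agent.HFT
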