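import Pool.Agent.HFT.P8a
import Pool.Agent.HFT.P7a

set_option autoImplicit false
set_option linter.unusedSectionVars false

/-! # Module P8b (4 points): the gliding hump sequence

Iterate `hump_step`. State after stage `j`: `(n j, B_j, F_j, δ_j)` : `n j : ℕ`, `B_j : RA M`, the
finite set `F_j` of the vectors `v 0, …, v (j-1)` chosen so far, and the admissible size `δ_j > 0` of
the next projection. Stage `0`: `n 0 = 0`, `h 0 = 1`, `s 0 = 0`, `B_0 = 0`, `F_0 = ∅`, `δ_0 = 1/2`.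
Stage `j → j+1`: `hump_step` with `k = n j`, `B = B_j`, `F = F_j`, `δ = δ_j` gives `n (j+1)`, `h (j+1)`,
`s (j+1)`, `v j`, `b j`; `B_{j+1} = B_j (1 - h (j+1)) + s (j+1)`, `F_{j+1} = insert (v j) F_j`. Let
`μ_j > 0` be a modulus of normality of `x ↦ ⟪b j, ψ x (v j)⟫`: `‖x‖ ≤ 4`, `n2 x ≤ 4 μ_j` imply
`‖⟪b j, ψ x (v j)⟫‖ ≤ c / 8` (scale `hN`). `δ_{j+1} = min (δ_j / 2) (μ_j / 2)`.
Then `n2 (h (i+1)) ≤ δ_i`, `δ_{i+1} ≤ δ_i / 2`, so `∑_{i} n2 (h (j+1+i))² ≤ ∑ (δ_j 2⁻ⁱ)² ≤ 2 δ_j²`.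
Put `ρ j = √2 δ_j` or simply `ρ j = 2 δ_j`. `ρ j → 0` (`δ_j ≤ 2⁻ʲ`), and for the functional number `j`:
`ρ (j+1) = 2 δ_{j+1} ≤ μ_j`. `v` is orthonormal since `v j ⊥ F_j`. The recursion: define a
structure/sigma type of states and a `next` function by choice (`Nat.rec`), or use
`exists_seq_of_forall_finset_exists`-like lemmas; all data are then projections. `Bs h s j = B_j`
by induction. -/

namespace Pool.Agent.HFT

open Pool.Agent.HK Filter Topology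

variable {H : Type} [NormedAddCommGroup H] [InnerProductSpace ℂ H] [CompleteSpace H]
variable {M : VonNeumannAlgebra H} {ξ : ℕ → H} {X Z : ℕ → H →L[ℂ] H}

/-- states of the recursion -/
structure HSt (M : VonNeumannAlgebra H) where
  n : ℕ
  B : RA M
  F : Finset H
  δ : ℝ
  hδ : 0 < δ

/-- output of one step -/
structure HOut (M : VonNeumannAlgebra H) where
  h : RA M
  s : RA M
  v : H
  b : H
  τ : HSt M

/-- the properties of one step -/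
def HRel (ξ : ℕ → H) (X Z : ℕ → H →L[ℂ] H) (ψ : RA M →L[ℂ] (H →L[ℂ] H)) (c : ℝ) (σ : HSt M)
    (o : HOut M) : Prop :=
  σ.n < o.τ.n ∧ IsStarProjection o.h.1 ∧ (∀ i, (i ≤ σ.n ∨ o.τ.n ≤ i) → CP X Z i o.h.1) ∧
    n2 ξ o.h.1 ≤ σ.δ ∧ (∀ i, o.τ.n ≤ i → CP X Z i o.s.1) ∧ o.h * o.s * o.h = o.s ∧ ‖o.s‖ ≤ 2 ∧
    ‖o.v‖ = 1 ∧ ‖o.b‖ = 1 ∧ (∀ x ∈ σ.F, inner ℂ x o.v = (0 : ℂ)) ∧
    c / 4 ≤ ‖(inner ℂ o.b (ψ o.τ.B o.v) : ℂ)‖ ∧ o.τ.B = σ.B * (1 - o.h) + o.s ∧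
    (∀ x, x ∈ o.τ.F ↔ x = o.v ∨ x ∈ σ.F) ∧ o.τ.δ ≤ σ.δ / 2 ∧
    ∀ x : RA M, ‖x‖ ≤ 4 → n2 ξ x.1 ≤ 8 * o.τ.δ → ‖(inner ℂ o.b (ψ x o.v) : ℂ)‖ ≤ c / 8

theorem normal_mod {ω : RA M →L[ℂ] ℂ} (h : NormalF ξ ω) {c : ℝ} (hc : 0 < c) :
    ∃ μ : ℝ, 0 < μ ∧ ∀ x : RA M, ‖x‖ ≤ 4 → n2 ξ x.1 ≤ 4 * μ → ‖ω x‖ ≤ c := by
  obtain ⟨μ, hμ, hx⟩ := h (c / 4) (by positivity)
  refine ⟨μ, hμ, fun x hx1 hx2 => ?_⟩
  have h4 : ‖(4 : ℂ)⁻¹‖ = 1 / 4 := by
    rw [norm_inv]; norm_num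
  have h1 : ‖(4 : ℂ)⁻¹ • x‖ ≤ 1 := by
    rw [norm_smul, h4]
    linarith
  have h2 : n2 ξ ((4 : ℂ)⁻¹ • x).1 ≤ μ := by
    have : ((4 : ℂ)⁻¹ • x).1 = (4 : ℂ)⁻¹ • x.1 := rfl
    rw [this, n2_smul, h4]
    linarith
  have h3 := hx _ h1 h2
  rw [map_smul, norm_smul, h4] at h3
  linarith

theorem hump_rel (A : Hyp M ξ X Z) (ψ : RA M →L[ℂ] (H →L[ℂ] H)) (hW : HW A.spin ψ)
    (hN : NormalT ξ ψ) (y : RA M) (hy : ‖y‖ ≤ 1) (c : ℝ) (hc : 0 < c)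
    (hnc : ∀ κ : H →L[ℂ] H, IsCompactOperator κ → ∀ F : Finset H,
      ∃ v : H, ‖v‖ = 1 ∧ (∀ x ∈ F, inner ℂ x v = (0 : ℂ)) ∧ c ≤ ‖(ψ y + κ) v‖) (σ : HSt M) :
    ∃ o : HOut M, HRel ξ X Z ψ c σ o := by
  classical
  obtain ⟨n, h, s, v, b, h1, h2, h3, h4, h5, h6, h7, h8, h9, h10, h11⟩ :=
    hump_step A ψ hW hN y hy c hc hnc σ.n σ.B σ.F σ.δ σ.hδ
  obtain ⟨μ, hμ, hx⟩ := normal_mod (hN v b) (c := c / 8) (by positivity)
  refine ⟨⟨h, s, v, b, ⟨n, σ.B * (1 - h) + s, insert v σ.F, min (σ.δ / 2) (μ / 2),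
    lt_min (half_pos σ.hδ) (half_pos hμ)⟩⟩, h1, h2, h3, h4, h5, h6, h7, h8, h9, h10, h11, rfl, ?_,
    min_le_left _ _, ?_⟩
  · intro x
    exact Finset.mem_insert
  · intro x hx1 hx2
    have h12 : min (σ.δ / 2) (μ / 2) ≤ μ / 2 := min_le_right _ _
    exact hx x hx1 (by
      have : n2 ξ x.1 ≤ 8 * min (σ.δ / 2) (μ / 2) := hx2
      linarith)

theorem hump_seq (A : Hyp M ξ X Z) (ψ : RA M →L[ℂ] (H →L[ℂ] H)) (hW : HW A.spin ψ)
    (hN : NormalT ξ ψ) (y : RA M) (hy : ‖y‖ ≤ 1) (c : ℝ) (hc : 0 < c)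
    (hnc : ∀ κ : H →L[ℂ] H, IsCompactOperator κ → ∀ F : Finset H,
      ∃ v : H, ‖v‖ = 1 ∧ (∀ x ∈ F, inner ℂ x v = (0 : ℂ)) ∧ c ≤ ‖(ψ y + κ) v‖) :
    ∃ (n : ℕ → ℕ) (h s : ℕ → RA M) (ρ : ℕ → ℝ) (v b : ℕ → H), Sp ξ X Z 2 n h s ρ ∧
      Orthonormal ℂ v ∧ (∀ j, ‖b j‖ = 1) ∧
      (∀ j, c / 4 ≤ ‖(inner ℂ (b j) (ψ (Bs h s (j + 1)) (v j)) : ℂ)‖) ∧
      ∀ j, ∀ x : RA M, ‖x‖ ≤ 4 → n2 ξ x.1 ≤ 4 * ρ (j + 1) →
        ‖(inner ℂ (b j) (ψ x (v j)) : ℂ)‖ ≤ c / 8 := by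
  classical
  choose f hf using hump_rel A ψ hW hN y hy c hc hnc
  let σ : ℕ → HSt M := fun j => Nat.rec ⟨0, 0, ∅, 1 / 2, by norm_num⟩ (fun _ τ => (f τ).τ) j
  have hσ0 : σ 0 = ⟨0, 0, ∅, 1 / 2, by norm_num⟩ := rfl
  have hσ : ∀ j, σ (j + 1) = (f (σ j)).τ := fun j => rfl
  let h : ℕ → RA M := fun j => match j with
    | 0 => 1
    | j + 1 => (f (σ j)).h
  let s : ℕ → RA M := fun j => match j with
    | 0 => 0
    | j + 1 => (f (σ j)).s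
  have hr : ∀ j, HRel ξ X Z ψ c (σ j) (f (σ j)) := fun j => hf (σ j)
  have hh : ∀ j, h (j + 1) = (f (σ j)).h := fun j => rfl
  have hs : ∀ j, s (j + 1) = (f (σ j)).s := fun j => rfl
  have hB : ∀ j, Bs h s j = (σ j).B := by
    intro j
    induction j with
    | zero => rfl
    | succ j ih =>
      obtain ⟨-, -, -, -, -, -, -, -, -, -, -, h12, -, -, -⟩ := hr j
      rw [hσ, h12, ← ih]
      rfl
  have hδ : ∀ j, (σ (j + 1)).δ ≤ (σ j).δ / 2 := by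
    intro j
    obtain ⟨-, -, -, -, -, -, -, -, -, -, -, -, -, h14, -⟩ := hr j
    exact h14
  have hδ2 : ∀ j i, (σ (j + i)).δ ≤ (σ j).δ * (1 / 2) ^ i := by
    intro j i
    induction i with
    | zero => simp
    | succ i ih =>
      have h1 := hδ (j + i)
      have h2 : (1 / 2 : ℝ) ^ (i + 1) = (1 / 2) ^ i / 2 := by rw [pow_succ]; ring
      rw [h2]
      have h3 : σ (j + (i + 1)) = σ (j + i + 1) := rfl
      rw [h3]
      linarith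
  have hpos : ∀ j, 0 < (σ j).δ := fun j => (σ j).hδ
  have hn2 : ∀ j i, n2 ξ (h (j + 1 + i)).1 ≤ (σ j).δ * (1 / 2) ^ i := by
    intro j i
    have h1 : j + 1 + i = (j + i) + 1 := by ring
    rw [h1, hh]
    obtain ⟨-, -, -, h4, -⟩ := hr (j + i)
    exact h4.trans (hδ2 j i)
  have hF : ∀ j x, x ∈ (σ j).F ↔ ∃ i < j, x = (f (σ i)).v := by
    intro j
    induction j with
    | zero =>
      intro x
      constructor
      · intro hx
        exact absurd hx (Finset.notMem_empty x)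
      · rintro ⟨i, hi, -⟩
        exact absurd hi (Nat.not_lt_zero i)
    | succ j ih =>
      intro x
      obtain ⟨-, -, -, -, -, -, -, -, -, -, -, -, h13, -⟩ := hr j
      rw [hσ, h13 x, ih x]
      constructor
      · rintro (hx | ⟨i, hi, hx⟩)
        · exact ⟨j, Nat.lt_succ_self j, hx⟩
        · exact ⟨i, Nat.lt_succ_of_lt hi, hx⟩
      · rintro ⟨i, hi, hx⟩
        rcases Nat.lt_succ_iff_lt_or_eq.mp hi with hi | rfl
        · exact Or.inr ⟨i, hi, hx⟩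
        · exact Or.inl hx
  refine ⟨fun j => (σ j).n, h, s, fun j => 2 * (σ j).δ, fun j => (f (σ j)).v,
    fun j => (f (σ j)).b, ?_, ?_, ?_, ?_, ?_⟩
  · refine ⟨?_, rfl, ?_, ?_, ?_, ?_, ?_, ?_, ?_, ?_⟩
    · refine strictMono_nat_of_lt_succ (fun j => ?_)
      exact (hr j).1
    · intro j
      rcases j with _ | j
      · exact IsStarProjection.one (H →L[ℂ] H)
      · exact (hr j).2.1
    · intro j i hi
      exact (hr j).2.2.1 i hi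
    · intro j i hi
      rcases j with _ | j
      · change CP X Z i (0 : H →L[ℂ] H)
        exact ⟨by simp, by simp⟩
      · exact (hr j).2.2.2.2.1 i hi
    · intro j
      rcases j with _ | j
      · change (1 : RA M) * 0 * 1 = 0
        simp
      · exact (hr j).2.2.2.2.2.1
    · intro j
      rcases j with _ | j
      · change ‖(0 : RA M)‖ ≤ 2
        simp
      · exact (hr j).2.2.2.2.2.2.1
    · intro j
      have := hpos j
      positivity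
    · intro j m
      have h1 : ∀ i ∈ Finset.range m, n2 ξ (h (j + 1 + i)).1 ^ 2 ≤
          (σ j).δ ^ 2 * (1 / 2) ^ i := by
        intro i _
        have h2 := hn2 j i
        have h3 := n2_nonneg ξ (h (j + 1 + i)).1
        have h4 : n2 ξ (h (j + 1 + i)).1 ^ 2 ≤ ((σ j).δ * (1 / 2) ^ i) ^ 2 :=
          pow_le_pow_left₀ h3 h2 2
        refine h4.trans ?_
        rw [mul_pow]
        refine mul_le_mul_of_nonneg_left ?_ (sq_nonneg _)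
        have h5 : (0 : ℝ) ≤ (1 / 2) ^ i := by positivity
        have h6 : (1 / 2 : ℝ) ^ i ≤ 1 := pow_le_one₀ (by norm_num) (by norm_num)
        rw [sq]
        exact mul_le_of_le_one_left h5 h6
      refine (Finset.sum_le_sum h1).trans ?_
      rw [← Finset.mul_sum]
      have h2 : ∑ i ∈ Finset.range m, (1 / 2 : ℝ) ^ i ≤ 2 := by
        have := sum_geometric_two_le m
        simpa using this
      have h3 : (σ j).δ ^ 2 * ∑ i ∈ Finset.range m, (1 / 2 : ℝ) ^ i ≤ (σ j).δ ^ 2 * 2 :=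
        mul_le_mul_of_nonneg_left h2 (sq_nonneg _)
      have h4 : (2 * (σ j).δ) ^ 2 = 4 * (σ j).δ ^ 2 := by ring
      change _ ≤ (2 * (σ j).δ) ^ 2
      rw [h4]
      have h5 := sq_nonneg (σ j).δ
      linarith
    · have h1 : Tendsto (fun j : ℕ => (1 / 2 : ℝ) ^ j) atTop (𝓝 0) :=
        tendsto_pow_atTop_nhds_zero_of_lt_one (by norm_num) (by norm_num)
      refine squeeze_zero (fun j => ?_) (fun j => ?_) h1
      · have := hpos j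
        positivity
      · have h2 := hδ2 0 j
        rw [zero_add, hσ0] at h2
        change (σ j).δ ≤ 1 / 2 * (1 / 2) ^ j at h2
        change 2 * (σ j).δ ≤ _
        linarith
  · rw [orthonormal_iff_ite]
    have hlt : ∀ i j, i < j → (inner ℂ ((f (σ i)).v) ((f (σ j)).v) : ℂ) = 0 := by
      intro i j hij
      obtain ⟨-, -, -, -, -, -, -, -, -, h10, -⟩ := hr j
      exact h10 _ ((hF j _).2 ⟨i, hij, rfl⟩)
    intro i j
    rcases lt_trichotomy i j with hij | hij | hij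
    · rw [if_neg hij.ne]
      exact hlt i j hij
    · subst hij
      rw [if_pos rfl]
      have h8 : ‖(f (σ i)).v‖ = 1 := (hr i).2.2.2.2.2.2.2.1
      rw [inner_self_eq_norm_sq_to_K, h8]
      simp
    · rw [if_neg hij.ne']
      exact inner_eq_zero_symm.1 (hlt j i hij)
  · intro j
    exact (hr j).2.2.2.2.2.2.2.2.1
  · intro j
    rw [hB, hσ]
    exact (hr j).2.2.2.2.2.2.2.2.2.2.1
  · intro j x hx1 hx2
    have h15 := (hr j).2.2.2.2.2.2.2.2.2.2.2.2.2.2 x hx1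
    refine h15 ?_
    change n2 ξ x.1 ≤ 4 * (2 * (σ (j + 1)).δ) at hx2
    rw [hσ] at hx2
    linarith

end Pool.Agent.HFT
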