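import Pool.Agent.HFT.P1b
import Pool.Agent.HFT.P3
import Pool.Agent.HFT.P4
import Pool.Agent.HFT.P7c
import Pool.Agent.HFT.P8b

set_option autoImplicit false
set_option linter.unusedSectionVars false

/-! # Module P9 (4 points): the core theorem

`all_compact`: by scaling assume `‖y‖ ≤ 1`. If `ψ y` is not compact: `not_compact` (Onc) gives `c`;
`hump_seq`; `sparse_compact` with `C = 2`: `Y`, `ψ Y` compact, `n2 (Y - Bs j) ≤ 4 ρ j`, and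
`‖Y - Bs j‖ ≤ 4` (`Sp.Bs_norm`). So `‖⟪b j, ψ (Y - Bs (j+1)) (v j)⟫‖ ≤ c / 8` and
`‖⟪b j, ψ Y (v j)⟫‖ ≥ c / 4 - c / 8 = c / 8`, so `‖ψ Y (v j)‖ ≥ c / 8` for all `j`, against
`compact_tendsto`.

`core`: `ψ` from `prim` (`‖ψ‖ ≤ 5 ‖φ‖`), `Cb ψ`. `σ = ψ - nT T ψ` is compact valued
(`sing_compact`), `‖σ‖ ≤ 10 ‖φ‖`. `ψn = nT T ψ`, `‖ψn‖ ≤ 5 ‖φ‖`, normal, `Cb ψn` (the coboundary of `ψn`
is that of `ψ` minus that of `σ`, `KK_mul`). `T0` from `dstep` for `ψn`: `ψ⁰ = ψn - ad T0`,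
where `ad T0 = cR T0 (iL M) - cL T0 (iL M)` (`x ↦ x T0 - T0 x`), a derivation, so the coboundary is
unchanged; `HD ψ⁰`; `‖ψ⁰‖ ≤ ‖ψn‖ + 2 ‖T0‖`. `T1` from `fstep` for `ψ⁰`: `ψ' = ψ⁰ - ad T1` has `Cb`, `HW`,
and `HD` (for `x ∈ DD`, `x T1 = T1 x`). It is normal (`NormalT.sub`, `normalT_cR_iL`,
`normalT_cL_iL`). `all_compact`: `ψ'` is compact valued. `ξ' = σ + ψ'` is compact valued, and its
coboundary is that of `σ + ψn = ψ`, i.e. `φ`. Norm: `‖T0‖ ≤ (1 + 6 K) 5 ‖φ‖`, `K = KT 1`,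
`‖ψ⁰‖ ≤ (15 + 60 K) ‖φ‖`, `‖T1‖ ≤ ‖ψ⁰‖`, `‖ψ'‖ ≤ 3 ‖ψ⁰‖`, `‖ξ'‖ ≤ (10 + 45 + 180 K) ‖φ‖`. -/

namespace Pool.Agent.HFT

open Pool.Agent.HK Filter Topology

variable {H : Type} [NormedAddCommGroup H] [InnerProductSpace ℂ H] [CompleteSpace H]
variable {M : VonNeumannAlgebra H} {ξ : ℕ → H} {X Z : ℕ → H →L[ℂ] H}

private theorem p9_sub_compact {a b : H →L[ℂ] H} (ha : IsCompactOperator a)
    (hb : IsCompactOperator b) : IsCompactOperator (a - b) := by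
  have : (a - b) ∈ KK H := Submodule.sub_mem _ ha hb
  exact this

private theorem p9_add_compact {a b : H →L[ℂ] H} (ha : IsCompactOperator a)
    (hb : IsCompactOperator b) : IsCompactOperator (a + b) := by
  have : (a + b) ∈ KK H := Submodule.add_mem _ ha hb
  exact this

private theorem p9_one (A : Hyp M ξ X Z) (ψ : RA M →L[ℂ] (H →L[ℂ] H)) (h : Cb ψ) (hD : HD Z ψ)
    (hW : HW A.spin ψ) (hN : NormalT ξ ψ) (y : RA M) (hy : ‖y‖ ≤ 1) :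
    IsCompactOperator (ψ y) := by
  by_contra hn
  obtain ⟨c, hc, hnc⟩ := not_compact (ψ y) hn
  obtain ⟨n, q, s, ρ, v, b, S, hv, hb, h1, h2⟩ := hump_seq A ψ hW hN y hy c hc hnc
  obtain ⟨Y, hY, hYc, hYn⟩ := sparse_compact A ψ h hD hW S
  have key : ∀ j, c / 8 ≤ ‖ψ Y (v j)‖ := by
    intro j
    have hx : ‖Y - Bs q s (j + 1)‖ ≤ 4 := by
      calc ‖Y - Bs q s (j + 1)‖ ≤ ‖Y‖ + ‖Bs q s (j + 1)‖ := norm_sub_le _ _
        _ ≤ 2 + 2 := add_le_add hY (S.Bs_norm A (j + 1))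
        _ = 4 := by norm_num
    have hx2 : n2 ξ (Y - Bs q s (j + 1)).1 ≤ 4 * ρ (j + 1) := by
      have := hYn (j + 1)
      have e : (Y - Bs q s (j + 1)).1 = Y.1 - (Bs q s (j + 1)).1 := rfl
      rw [e]
      linarith
    have h3 := h2 j _ hx hx2
    have h4 := h1 j
    have e : (inner ℂ (b j) (ψ (Bs q s (j + 1)) (v j)) : ℂ) =
        inner ℂ (b j) (ψ Y (v j)) - inner ℂ (b j) (ψ (Y - Bs q s (j + 1)) (v j)) := by
      rw [map_sub, sub_apply, inner_sub_right]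
      ring
    rw [e] at h4
    have h5 := norm_sub_le (inner ℂ (b j) (ψ Y (v j)) : ℂ)
      (inner ℂ (b j) (ψ (Y - Bs q s (j + 1)) (v j)))
    have h6 : ‖(inner ℂ (b j) (ψ Y (v j)) : ℂ)‖ ≤ ‖b j‖ * ‖ψ Y (v j)‖ := norm_inner_le_norm _ _
    rw [hb j, one_mul] at h6
    linarith
  have ht := compact_tendsto (ψ Y) hYc v hv
  have ht2 := ht.norm
  rw [norm_zero] at ht2
  have := ge_of_tendsto ht2 (Eventually.of_forall key)
  linarith

theorem all_compact (A : Hyp M ξ X Z) (ψ : RA M →L[ℂ] (H →L[ℂ] H)) (h : Cb ψ) (hD : HD Z ψ)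
    (hW : HW A.spin ψ) (hN : NormalT ξ ψ) (y : RA M) : IsCompactOperator (ψ y) := by
  by_cases hy : ‖y‖ ≤ 1
  · exact p9_one A ψ h hD hW hN y hy
  · have hy0 : 0 < ‖y‖ := by linarith
    set r : ℂ := ((‖y‖ : ℝ) : ℂ) with hr
    have hr0 : r ≠ 0 := by
      rw [hr]
      exact_mod_cast hy0.ne'
    have hn : ‖r⁻¹ • y‖ ≤ 1 := by
      rw [norm_smul, norm_inv, hr, Complex.norm_real, norm_norm, inv_mul_cancel₀ hy0.ne']
    have h1 := p9_one A ψ h hD hW hN (r⁻¹ • y) hn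
    have e : ψ y = r • ψ (r⁻¹ • y) := by
      rw [map_smul, smul_smul, mul_inv_cancel₀ hr0, one_smul]
    rw [e]
    have : (r • ψ (r⁻¹ • y)) ∈ KK H := Submodule.smul_mem _ _ h1
    exact this

/-- the constant -/
noncomputable def KH2 : ℝ := 55 + 180 * KT 1

/-- the inner derivation `x ↦ x T - T x` -/
private noncomputable def p9_ad (M : VonNeumannAlgebra H) (T : H →L[ℂ] H) :
    RA M →L[ℂ] (H →L[ℂ] H) := cR T (iL M) - cL T (iL M)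

private theorem p9_ad_apply (T : H →L[ℂ] H) (x : RA M) : p9_ad M T x = x.1 * T - T * x.1 := rfl

private theorem p9_ad_norm (T : H →L[ℂ] H) : ‖p9_ad M T‖ ≤ 2 * ‖T‖ := by
  apply ContinuousLinearMap.opNorm_le_bound _ (by positivity)
  intro x
  rw [p9_ad_apply]
  have e : ‖x.1‖ = ‖x‖ := rfl
  calc ‖x.1 * T - T * x.1‖ ≤ ‖x.1 * T‖ + ‖T * x.1‖ := norm_sub_le _ _
    _ ≤ ‖x.1‖ * ‖T‖ + ‖T‖ * ‖x.1‖ := add_le_add (norm_mul_le _ _) (norm_mul_le _ _)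
    _ = 2 * ‖T‖ * ‖x‖ := by rw [e]; ring

private theorem p9_ad_normal (T : TrF M ξ) (c : H →L[ℂ] H) : NormalT ξ (p9_ad M c) :=
  (normalT_cR_iL T c).sub (normalT_cL_iL T c)

private theorem p9_ad_der (T : H →L[ℂ] H) (x y : RA M) :
    x.1 * p9_ad M T y - p9_ad M T (x * y) + p9_ad M T x * y.1 = 0 := by
  simp only [p9_ad_apply]
  have e : (x * y).1 = x.1 * y.1 := rfl
  rw [e]
  noncomm_ring

private theorem p9_cb_ad {ψ : RA M →L[ℂ] (H →L[ℂ] H)} (h : Cb ψ) (T : H →L[ℂ] H) :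
    Cb (ψ - p9_ad M T) := by
  intro x y
  have e : x.1 * (ψ - p9_ad M T) y - (ψ - p9_ad M T) (x * y) + (ψ - p9_ad M T) x * y.1 =
      x.1 * ψ y - ψ (x * y) + ψ x * y.1 := by
    have h0 := p9_ad_der T x y
    simp only [sub_apply, mul_sub, sub_mul]
    calc x.1 * ψ y - x.1 * p9_ad M T y - (ψ (x * y) - p9_ad M T (x * y)) +
          (ψ x * y.1 - p9_ad M T x * y.1)
        = (x.1 * ψ y - ψ (x * y) + ψ x * y.1) -
          (x.1 * p9_ad M T y - p9_ad M T (x * y) + p9_ad M T x * y.1) := by abel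
      _ = x.1 * ψ y - ψ (x * y) + ψ x * y.1 := by rw [h0, sub_zero]
  rw [e]
  exact h x y

private theorem p9_KT : 0 ≤ KT 1 := by
  have h1 := KN_nonneg 1
  have h2 := C1_nonneg 1
  have h3 := KH_nonneg 1
  unfold KT
  positivity

theorem core (A : Hyp M ξ X Z) (φ : RA M →L[ℂ] RA M →L[ℂ] (H →L[ℂ] H))
    (hK : ∀ x y, IsCompactOperator (φ x y))
    (h : ∀ x y z, x.1 * φ y z - φ (x * y) z + φ x (y * z) - φ x y * z.1 = 0) :
    ∃ η : RA M →L[ℂ] (H →L[ℂ] H), (∀ x, IsCompactOperator (η x)) ∧ ‖η‖ ≤ KH2 * ‖φ‖ ∧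
      ∀ x y, φ x y = x.1 * η y - η (x * y) + η x * y.1 := by
  obtain ⟨ψ, hψn, hψ⟩ := prim A φ h
  have hCb : Cb ψ := by
    intro x y
    rw [← hψ]
    exact hK x y
  set T := A.trf with hT
  set N := nT T ψ with hN
  have hσc : ∀ y, IsCompactOperator (ψ y - N y) := fun y => sing_compact T ψ hCb y
  have hNn : ‖N‖ ≤ ‖ψ‖ := nT_norm T ψ
  have hNN : NormalT ξ N := nT_normal T ψ
  have hCN : Cb N := by
    intro x y
    have e : x.1 * N y - N (x * y) + N x * y.1 =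
        (x.1 * ψ y - ψ (x * y) + ψ x * y.1) -
          (x.1 * (ψ y - N y) - (ψ (x * y) - N (x * y)) + (ψ x - N x) * y.1) := by
      simp only [mul_sub, sub_mul]
      abel
    rw [e]
    exact p9_sub_compact (hCb x y) (p9_add_compact (p9_sub_compact (KK_mul x.1 _ (hσc y)).1
      (hσc (x * y))) (KK_mul y.1 _ (hσc x)).2)
  obtain ⟨T0, hT0, hT0c⟩ := dstep A N hCN
  set ψ0 := N - p9_ad M T0 with hψ0
  have hCb0 : Cb ψ0 := p9_cb_ad hCN T0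
  have hD0 : ∀ x : RA M, x.1 ∈ DD M Z → IsCompactOperator (ψ0 x) := by
    intro x hx
    exact hT0c x hx
  obtain ⟨T1, hT1, hT1c, hT1w⟩ := fstep A ψ0 hCb0 hD0
  set ψ1 := ψ0 - p9_ad M T1 with hψ1
  have hCb1 : Cb ψ1 := p9_cb_ad hCb0 T1
  have hD1 : HD Z ψ1 := by
    intro x hx
    have e : ψ1 x = ψ0 x := by
      rw [hψ1, sub_apply, p9_ad_apply, hT1c x.1 hx, sub_self, sub_zero]
    rw [e]
    exact hD0 x hx
  have hW1 : HW A.spin ψ1 := by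
    intro s
    exact hT1w s
  have hN1 : NormalT ξ ψ1 := (hNN.sub (p9_ad_normal T T0)).sub (p9_ad_normal T T1)
  have hc1 : ∀ y, IsCompactOperator (ψ1 y) := fun y => all_compact A ψ1 hCb1 hD1 hW1 hN1 y
  refine ⟨(ψ - N) + ψ1, ?_, ?_, ?_⟩
  · intro x
    exact p9_add_compact (hσc x) (hc1 x)
  · have hK0 : 0 ≤ KT 1 := p9_KT
    have b1 : ‖ψ - N‖ ≤ 10 * ‖φ‖ := by
      calc ‖ψ - N‖ ≤ ‖ψ‖ + ‖N‖ := norm_sub_le _ _
        _ ≤ 10 * ‖φ‖ := by linarith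
    have b2 : ‖T0‖ ≤ (1 + 6 * KT 1) * (5 * ‖φ‖) := by
      refine hT0.trans (mul_le_mul_of_nonneg_left (hNn.trans hψn) (by linarith))
    have b3 : ‖ψ0‖ ≤ (15 + 60 * KT 1) * ‖φ‖ := by
      calc ‖ψ0‖ ≤ ‖N‖ + ‖p9_ad M T0‖ := norm_sub_le _ _
        _ ≤ 5 * ‖φ‖ + 2 * ((1 + 6 * KT 1) * (5 * ‖φ‖)) := by
            have := p9_ad_norm (M := M) T0
            linarith
        _ = (15 + 60 * KT 1) * ‖φ‖ := by ring
    have b4 : ‖ψ1‖ ≤ 3 * ((15 + 60 * KT 1) * ‖φ‖) := by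
      calc ‖ψ1‖ ≤ ‖ψ0‖ + ‖p9_ad M T1‖ := norm_sub_le _ _
        _ ≤ 3 * ((15 + 60 * KT 1) * ‖φ‖) := by
            have := p9_ad_norm (M := M) T1
            linarith
    calc ‖(ψ - N) + ψ1‖ ≤ ‖ψ - N‖ + ‖ψ1‖ := norm_add_le _ _
      _ ≤ 10 * ‖φ‖ + 3 * ((15 + 60 * KT 1) * ‖φ‖) := add_le_add b1 b4
      _ = KH2 * ‖φ‖ := by unfold KH2; ring
  · intro x y
    have h0 := p9_ad_der T0 x y
    have h1 := p9_ad_der T1 x y
    have hs : ∀ z, ((ψ - N) + ψ1) z = ψ z - p9_ad M T0 z - p9_ad M T1 z := by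
      intro z
      rw [hψ1, hψ0]
      simp only [add_apply, sub_apply]
      abel
    rw [hψ x y, hs, hs, hs]
    have e : x.1 * (ψ y - p9_ad M T0 y - p9_ad M T1 y) -
        (ψ (x * y) - p9_ad M T0 (x * y) - p9_ad M T1 (x * y)) +
        (ψ x - p9_ad M T0 x - p9_ad M T1 x) * y.1 =
        (x.1 * ψ y - ψ (x * y) + ψ x * y.1) -
          (x.1 * p9_ad M T0 y - p9_ad M T0 (x * y) + p9_ad M T0 x * y.1) -
          (x.1 * p9_ad M T1 y - p9_ad M T1 (x * y) + p9_ad M T1 x * y.1) := by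
      simp only [mul_sub, sub_mul]
      abel
    rw [e, h0, h1, sub_zero, sub_zero]

end Pool.Agent.HFT
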