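import Pool.Agent.HFT.C2

set_option autoImplicit false
set_option linter.unusedSectionVars false

/-! # Module C3 (3 points): gluing the pieces

`hft_step`: copy the proof of `hkd_step` (HKD/Main2) with `n = 1` and a fourth kind of piece, for
which `Fine` is a hypothesis `HV` (applied to `φ₁`, `C1 1 * C`). Take
`K = (2 + KH 1 + KH2) * (C1 1 * C)` in `step`; the resulting constant is
`KN 1 * C + (KN 1 * (C1 1 * C) + (K + KN 1 * (C1 1 * C))) = (KN 1 + KF * C1 1) * C` (`ring`;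
`KH2 ≥ 0` is `KH2_nonneg`).
`hft_vanish`: `vanish` (HK/Vanish) as in `hkd_vanish`. `hft_main`: as `hkd_vn_main` (HKD/Final2) with
`X = KK H`, the fourth case from `hyp_fine`. -/

namespace Pool.Agent.HFT

open Pool.Agent.HK Filter Topology

variable {H : Type} [NormedAddCommGroup H] [InnerProductSpace ℂ H] [CompleteSpace H]

/-- the constant of the gluing -/
noncomputable def KF : ℝ := 2 * KN 1 + 2 + KH 1 + KH2

section abs

variable {Z R : Type} [NormedCommRing Z] [NormedAlgebra ℂ Z] [NormedRing R] [NormedAlgebra ℂ R]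
  {c : Z →ₐ[ℂ] R} {ι : R →ₐ[ℂ] (H →L[ℂ] H)}

/-- the piece `z` is fine in degree two -/
def HV (c : Z →ₐ[ℂ] R) (ι : R →ₐ[ℂ] (H →L[ℂ] H)) (X : Submodule ℂ (H →L[ℂ] H)) (z : Z) : Prop :=
  ∀ (C : ℝ) (φ : List R → (H →L[ℂ] H)), 0 ≤ C → Coch X 2 C φ → (∀ l, D ι φ l = 0) →
    ∀ δ : ℝ, 0 < δ → Fine ι X 1 (KH2 * C) δ φ (c z)

theorem hft_step [CompleteSpace Z] (hS : HasSums ι) (hc : ∀ z a, c z * a = a * c z)
    (hcn : ∀ z, ‖c z‖ = ‖z‖) (hι : ∀ a, ‖ι a‖ = ‖a‖)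
    (hP1 : ∀ χ : Z →ₐ[ℂ] ℂ, ∀ b, χ b = 0 → ∀ ε : ℝ, 0 < ε →
      ∃ r, Pr (ι.comp c) r ∧ χ r = 1 ∧ ‖b * r‖ ≤ ε)
    {X : Submodule ℂ (H →L[ℂ] H)} (hX : IsBimod ι X) (hXcl : IsClosed (X : Set (H →L[ℂ] H)))
    (hXc : ∀ x ∈ X, IsCompactOperator x)
    {z : ℕ → Z} (hz : OrthSeq (ι.comp c) z) (hsum : ∀ x : H, HasSum (fun j => ι (c (z j)) x) x)
    (hpiece : ∀ j, Nonempty (PInf c ι (z j)) ∨ Nonempty (Homog c (H →L[ℂ] H) (z j)) ∨
      Thin (ι.comp c) (z j) ∨ HV c ι X (z j))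
    {C : ℝ} (hC : 0 ≤ C) {φ : List R → (H →L[ℂ] H)} (h : Coch X 2 C φ)
    (hcy : ∀ l, D ι φ l = 0) (δ : ℝ) (hδ : 0 < δ) :
    ∃ ψ : List R → (H →L[ℂ] H), Coch X 1 ((KN 1 + KF * C1 1) * C) ψ ∧
      Coch X 2 δ (fun l => φ l - D ι ψ l) := by
  have hιle : ∀ a, ‖ι a‖ ≤ ‖a‖ := fun a => (hι a).le
  have hKC : 0 ≤ KN 1 * C := mul_nonneg (KN_nonneg 1) hC
  have hC1 : 0 ≤ C1 1 * C := mul_nonneg (C1_nonneg 1) hC
  have hKH := KH_nonneg 1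
  have hKH2 := KH2_nonneg
  have hA : 0 ≤ KH 1 * (C1 1 * C) := mul_nonneg hKH hC1
  have hB : 0 ≤ KH2 * (C1 1 * C) := mul_nonneg hKH2 hC1
  obtain ⟨ψ₀, hψ₀, hv1, hvz⟩ := inf_normalised hz hS hcn hι hX hXcl hXc 1 hC h hcy
  set φ₁ : List R → (H →L[ℂ] H) := fun l => φ l - D ι ψ₀ l with hφ₁
  have hc1 : ∀ l, D ι φ₁ l = 0 := cocycle_sub hcy
  have h1 : Coch X (1 + 1) (C1 1 * C) φ₁ :=
    (Coch.sub h (hψ₀.D ι hX hιle hKC)).mono (le_of_eq (by unfold C1; push_cast; ring))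
  obtain ⟨ψ', hψ', herr⟩ := step hc hcn hι hX hC1 h1 hc1 δ hδ
    ((2 + KH 1 + KH2) * (C1 1 * C)) (by positivity) (by
      intro χ
      by_cases hex : ∃ j, χ (z j) ≠ 0
      · obtain ⟨j, hj⟩ := hex
        have hj1 : χ (z j) = 1 := char_proj (hz.pr j) χ hj
        rcases hpiece j with ⟨⟨S⟩⟩ | ⟨⟨S⟩⟩ | S | S
        · refine ⟨z j, hz.pr j, hj1, ?_⟩
          refine (prism_fine hS hι hX hXc hC1 h1 hc1 (c (z j)) (hz.pr j).toR (hc _) S.v S.w S.wv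
            S.vz S.zw S.nv S.nw S.pr S.orth δ hδ).weak ?_
          push_cast
          nlinarith
        · obtain ⟨r, hr, hχr, hf⟩ := homog_fine hS hc hcn hι hP1 hX hXc (hz.pr j) S χ hj1 hC1 h1
            hc1 δ hδ
          refine ⟨r, hr, hχr, hf.weak ?_⟩
          nlinarith
        · obtain ⟨r, hr, hχr, hf⟩ := hkd_fine hS hc hcn hι hX hXcl hXc S χ hj1 hC1 h1
            hc1 δ hδ
          refine ⟨r, hr, hχr, hf.weak ?_⟩
          have e1 : KN 1 ≤ KH 1 := by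
            unfold KH
            have : 0 ≤ (1 + 2 ^ 1 : ℝ) * (KN 1 * C1 1) :=
              mul_nonneg (by positivity) (mul_nonneg (KN_nonneg 1) (C1_nonneg 1))
            linarith
          refine mul_le_mul_of_nonneg_right ?_ hC1
          linarith
        · refine ⟨z j, hz.pr j, hj1, ?_⟩
          refine (S (C1 1 * C) φ₁ hC1 h1 hc1 δ hδ).weak ?_
          nlinarith
      · push Not at hex
        obtain ⟨N, hN⟩ := tail_fine hz hS hc hι hX hXc hsum hC1 h1 hc1 hv1 hvz δ hδ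
        refine ⟨rZ z N, hz.rZ_pr N, ?_, hN.weak (by positivity)⟩
        unfold rZ sZ
        rw [map_sub, map_one, map_sum]
        simp [hex])
  refine ⟨fun l => ψ₀ l + ψ' l, (hψ₀.add hψ').mono (le_of_eq (by unfold KF; ring)), ?_⟩
  have hid : (fun l => φ l - D ι (fun l => ψ₀ l + ψ' l) l) = fun l => φ₁ l - D ι ψ' l := by
    funext l
    rw [D_add]
    simp only [hφ₁]
    abel
  rw [hid]
  exact herr

theorem hft_vanish [CompleteSpace Z] (hS : HasSums ι) (hc : ∀ z a, c z * a = a * c z)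
    (hcn : ∀ z, ‖c z‖ = ‖z‖) (hι : ∀ a, ‖ι a‖ = ‖a‖)
    (hP1 : ∀ χ : Z →ₐ[ℂ] ℂ, ∀ b, χ b = 0 → ∀ ε : ℝ, 0 < ε →
      ∃ r, Pr (ι.comp c) r ∧ χ r = 1 ∧ ‖b * r‖ ≤ ε)
    {X : Submodule ℂ (H →L[ℂ] H)} (hX : IsBimod ι X) (hXcl : IsClosed (X : Set (H →L[ℂ] H)))
    (hXc : ∀ x ∈ X, IsCompactOperator x)
    {z : ℕ → Z} (hz : OrthSeq (ι.comp c) z) (hsum : ∀ x : H, HasSum (fun j => ι (c (z j)) x) x)
    (hpiece : ∀ j, Nonempty (PInf c ι (z j)) ∨ Nonempty (Homog c (H →L[ℂ] H) (z j)) ∨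
      Thin (ι.comp c) (z j) ∨ HV c ι X (z j))
    {C : ℝ} (hC : 0 ≤ C) {φ : List R → (H →L[ℂ] H)} (h : Coch X 2 C φ)
    (hcy : ∀ l, D ι φ l = 0) :
    ∃ ψ : List R → (H →L[ℂ] H), Coch X 1 ((KN 1 + KF * C1 1) * C * 2) ψ ∧
      ∀ l, D ι ψ l = φ l :=
  vanish (n := 1) hXcl (KN 1 + KF * C1 1) (fun _ _ hC h hcy δ hδ =>
    hft_step hS hc hcn hι hP1 hX hXcl hXc hz hsum hpiece hC h hcy δ hδ) hC h hcy

end abs

theorem hft_main (M : VonNeumannAlgebra H) (hM : IsPieceSumH M) {C : ℝ} (hC : 0 ≤ C)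
    {φ : List (RA M) → (H →L[ℂ] H)} (h : Coch (KK H) 2 C φ)
    (hcy : ∀ l, D (io M) φ l = 0) :
    ∃ ψ : List (RA M) → (H →L[ℂ] H), Coch (KK H) 1 ((KN 1 + KF * C1 1) * C * 2) ψ ∧
      ∀ l, D (io M) ψ l = φ l := by
  obtain ⟨z, hz1, hz2, hz3, hz4⟩ := hM
  let z' : ℕ → ZA M := fun j => ⟨z j, mem_cen.mpr ⟨(hz1 j).1,
    VonNeumannAlgebra.mem_commutant_iff.mpr fun g hg => ((hz1 j).2.2 g hg).symm⟩⟩
  have hpr : ∀ j, Pr (inc _ (cen_comm M)) (z' j) := fun j =>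
    (pr_iff _ _).mpr (hz1 j).2.1
  have hseq : OrthSeq ((io M).comp (ic M)) z' := by
    refine ⟨hpr, fun i j hij => ?_⟩
    apply inc_inj
    rw [map_mul, map_zero]
    exact hz2 i j hij
  refine hft_vanish (c := ic M) (ι := io M) (vn_hasSums M) (ic_central M) (ic_norm M) (io_norm M)
    (vn_P1 _ (cen_comm M)) KK_bimod KK_closed (fun x hx => hx) hseq (fun x => hz3 x)
    (fun j => ?_) hC h hcy
  rcases hz4 j with h | h | h | h
  · exact Or.inl (pinf_of M (z' j) (hpr j) h)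
  · exact Or.inr (Or.inl (homog_of M (z' j) h))
  · exact Or.inr (Or.inr (Or.inl (hkd_thin M (z' j) (hpr j) h)))
  · exact Or.inr (Or.inr (Or.inr fun C φ hC hφ hcy δ hδ =>
      hyp_fine M (z' j) (hpr j) h hC hφ hcy δ hδ))

end Pool.Agent.HFT
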