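import Pool.Agent.HFT.C3

set_option autoImplicit false
set_option linter.unusedSectionVars false

/-! # Module C4 (2 points): final form

Copy the proof of `hkd_final` (HKD/Final2) with `m = 1` and of the theorem `result` of
`Pool/Agent/Results/MP_6abdaf_an/NoIIOneFactorSummand.lean`, using `hft_main` and `X = KK H`,
constant `(KN 1 + KF * C1 1) * 2`. (`Cpt H` is the carrier of `KK H`.) -/

namespace Pool.Agent.HFT

open Pool.Agent.HK Filter Topology

variable {H : Type} [NormedAddCommGroup H] [InnerProductSpace ℂ H] [CompleteSpace H]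

open Classical in
private theorem hft_final (M : VonNeumannAlgebra H) (hM : IsPieceSumH M)
    (φ : (Fin (1 + 1) → (H →L[ℂ] H)) → (H →L[ℂ] H)) (C : ℝ) (hC : 0 ≤ C)
    (h1 : ∀ a : Fin (1+1) → (H →L[ℂ] H), (∀ j, a j ∈ M) →
        ∀ (i : Fin (1+1)) (x y : H →L[ℂ] H), x ∈ M → y ∈ M → ∀ c : ℂ,
          φ (Function.update a i (c • x + y)) =
            c • φ (Function.update a i x) + φ (Function.update a i y))
    (h2 : ∀ a : Fin (1+1) → (H →L[ℂ] H), (∀ j, a j ∈ M) → ‖φ a‖ ≤ C * ∏ j, ‖a j‖)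
    (h3 : ∀ a : Fin (1+1) → (H →L[ℂ] H), (∀ j, a j ∈ M) → φ a ∈ KK H)
    (h4 : ∀ a : Fin (1+2) → (H →L[ℂ] H), (∀ j, a j ∈ M) →
        a 0 * φ (Fin.tail a)
          + ∑ i : Fin (1+1), ((-1 : ℂ) ^ ((i : ℕ) + 1)) •
              φ (fun j : Fin (1+1) => if (j : ℕ) < (i : ℕ) then a (Fin.castSucc j)
                else if j = i then a (Fin.castSucc j) * a (Fin.succ j) else a (Fin.succ j))
          + ((-1 : ℂ) ^ (1 + 2)) • (φ (Fin.init a) * a (Fin.last (1+1))) = 0) :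
    ∃ ψ : (Fin 1 → (H →L[ℂ] H)) → (H →L[ℂ] H),
        (∀ a : Fin 1 → (H →L[ℂ] H), (∀ j, a j ∈ M) →
          ∀ (i : Fin 1) (x y : H →L[ℂ] H), x ∈ M → y ∈ M → ∀ c : ℂ,
            ψ (Function.update a i (c • x + y)) =
              c • ψ (Function.update a i x) + ψ (Function.update a i y)) ∧
        (∀ a : Fin 1 → (H →L[ℂ] H), (∀ j, a j ∈ M) →
          ‖ψ a‖ ≤ (KN 1 + KF * C1 1) * C * 2 * ∏ j, ‖a j‖) ∧
        (∀ a : Fin 1 → (H →L[ℂ] H), (∀ j, a j ∈ M) → ψ a ∈ KK H) ∧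
        (∀ a : Fin (1+1) → (H →L[ℂ] H), (∀ j, a j ∈ M) →
          a 0 * ψ (Fin.tail a)
            + ∑ i : Fin 1, ((-1 : ℂ) ^ ((i : ℕ) + 1)) •
                ψ (fun j : Fin 1 => if (j : ℕ) < (i : ℕ) then a (Fin.castSucc j)
                  else if j = i then a (Fin.castSucc j) * a (Fin.succ j) else a (Fin.succ j))
            + ((-1 : ℂ) ^ (1 + 1)) • (ψ (Fin.init a) * a (Fin.last 1)) = φ a) := by
  obtain ⟨Ψ, hΨ, hD⟩ := hft_main M hM hC (toL_coch M φ (KK H) hC h1 h2 h3)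
    (toL_cocycle M φ h4)
  let ψ : (Fin 1 → (H →L[ℂ] H)) → (H →L[ℂ] H) := fun a =>
    if h : ∀ j, a j ∈ M then Ψ (List.ofFn fun j => (⟨a j, h j⟩ : RA M)) else 0
  have hψ : ∀ b : Fin 1 → RA M, ψ (fun j => io M (b j)) = Ψ (List.ofFn b) := by
    intro b
    have hb : ∀ j, io M (b j) ∈ M := fun j => (b j).2
    exact dif_pos hb
  have hlift : ∀ {k : ℕ} (a : Fin k → (H →L[ℂ] H)), (∀ j, a j ∈ M) →
      ∃ b : Fin k → RA M, a = fun j => io M (b j) := fun a ha =>
    ⟨fun j => ⟨a j, ha j⟩, rfl⟩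
  refine ⟨ψ, ?_, ?_, ?_, ?_⟩
  · intro a ha i x y hx hy t
    obtain ⟨b, rfl⟩ := hlift a ha
    let x' : RA M := ⟨x, hx⟩
    let y' : RA M := ⟨y, hy⟩
    have e : ∀ w : RA M, Function.update (fun j => io M (b j)) i (io M w) =
        fun j => io M (Function.update b i w j) := by
      intro w
      funext j
      by_cases hj : j = i
      · subst hj; simp
      · simp [Function.update_of_ne hj]
    have ex : x = io M x' := rfl
    have ey : y = io M y' := rfl
    rw [ex, ey, ← map_smul, ← map_add, e, e, e, hψ, hψ, hψ, ofFn_update, ofFn_update, ofFn_update]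
    exact hΨ.lin _ _ _ _ _
  · intro a ha
    obtain ⟨b, rfl⟩ := hlift a ha
    rw [hψ]
    refine (hΨ.bd _).trans (le_of_eq ?_)
    rw [nm_ofFn]
    rfl
  · intro a ha
    obtain ⟨b, rfl⟩ := hlift a ha
    rw [hψ]
    exact hΨ.val _
  · intro a ha
    obtain ⟨b, rfl⟩ := hlift a ha
    have h5 := hD (List.ofFn b)
    rw [toL_ofFn, D_ofFn] at h5
    rw [← h5]
    simp only [← hψ, io_contr]
    rfl

theorem final2 : ∃ K : ℝ,
    ∀ (H : Type) [NormedAddCommGroup H] [InnerProductSpace ℂ H] [CompleteSpace H]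
      (M : VonNeumannAlgebra H), IsPieceSumH M →
      CohomologyVanishes (M : Set (H →L[ℂ] H)) (Cpt H) 1 K := by
  refine ⟨(KN 1 + KF * C1 1) * 2, ?_⟩
  intro H _ _ _ M hM φ C hC h1 h4
  obtain ⟨ψ, k1, k2, k3, k4⟩ := hft_final M hM φ C hC h1.linear
    h1.bound h1.values (fun a ha => by
      have h5 := h4 a ha
      unfold coboundary at h5
      convert h5 using 5)
  refine ⟨ψ, ⟨k1, fun a ha => (k2 a ha).trans (le_of_eq ?_), k3⟩, fun a ha => ?_⟩
  · ring
  · have h5 := k4 a ha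
    unfold coboundary
    convert h5 using 5

end Pool.Agent.HFT
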