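import Pool.Agent.HFT.Spec
import Pool.Agent.HFT.Join

set_option autoImplicit false
set_option linter.unusedSectionVars false

/-! # Module Cut (1 point): two-sided cutting

`TrF.spec` for `x` gives `e` with `‖x (1 - e)‖ ≤ η`, `η n2 e ≤ n2 x`, and for `star x` gives `e'`
with `‖x* (1 - e')‖ ≤ η`, i.e. `‖(1 - e') x‖ ≤ η`, `η n2 e' ≤ n2 (x*) = n2 x`. `q` = `join2` of
`e, e'`: `q e = e = e q`, `q e' = e' = e' q`, `η² n2 q² ≤ 2 n2 x²`. `1 - q = (1 - e)(1 - q)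
= (1 - q)(1 - e')`. `x - q x q = (1 - q) x + q x (1 - q)` and
`‖(1 - q) x‖ = ‖(1 - q)(1 - e') x‖ ≤ η`, `‖q x (1 - q)‖ ≤ ‖x (1 - e)(1 - q)‖ ≤ η`. -/

namespace Pool.Agent.HFT

open Pool.Agent.HK Filter Topology

variable {H : Type} [NormedAddCommGroup H] [InnerProductSpace ℂ H] [CompleteSpace H]
variable {M : VonNeumannAlgebra H} {ξ : ℕ → H}

theorem TrF.cut (T : TrF M ξ) (x : H →L[ℂ] H) (hx : x ∈ M) (η : ℝ) (hη : 0 < η) :
    ∃ q, PJ M q ∧ ‖x - q * x * q‖ ≤ 2 * η ∧ η ^ 2 * n2 ξ q ^ 2 ≤ 2 * n2 ξ x ^ 2 := by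
  have hsx : star x ∈ M := star_mem hx
  obtain ⟨e, he, he1, he2⟩ := T.spec x hx η hη
  obtain ⟨f, hf, hf1, hf2⟩ := T.spec (star x) hsx η hη
  obtain ⟨q, hq, hqe, hqf, hq2, -⟩ := T.join2 he hf
  have hn : n2 ξ (star x) = n2 ξ x := by
    unfold n2
    rw [← T.tr x hx]
  have ne : 0 ≤ n2 ξ e := Real.sqrt_nonneg _
  have nf : 0 ≤ n2 ξ f := Real.sqrt_nonneg _
  have nx : 0 ≤ n2 ξ x := Real.sqrt_nonneg _
  have hes : star e = e := he.2.isSelfAdjoint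
  have hfs : star f = f := hf.2.isSelfAdjoint
  have hqs : star q = q := hq.2.isSelfAdjoint
  have heq : e * q = e := by
    have := congrArg star hqe
    rwa [star_mul, hes, hqs] at this
  have hfq : f * q = f := by
    have := congrArg star hqf
    rwa [star_mul, hfs, hqs] at this
  have hqn : ‖q‖ ≤ 1 := hq.2.norm_le
  have h1q : ‖(1 : H →L[ℂ] H) - q‖ ≤ 1 := hq.2.one_sub.norm_le
  have hA : (1 - q) = (1 - e) * (1 - q) := by
    rw [sub_mul, one_mul, mul_sub, mul_one, heq, sub_self, sub_zero]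
  have hB : (1 - q) = (1 - q) * (1 - f) := by
    rw [mul_sub, mul_one, sub_mul, one_mul, hqf, sub_self, sub_zero]
  have hf3 : ‖(1 - f) * x‖ ≤ η := by
    have h : star (star x * (1 - f)) = (1 - f) * x := by
      rw [star_mul, star_star, star_sub, star_one, hfs]
    rw [← h, norm_star]
    exact hf1
  refine ⟨q, hq, ?_, ?_⟩
  · have hd : x - q * x * q = (1 - q) * ((1 - f) * x) + q * ((x * (1 - e)) * (1 - q)) := by
      rw [mul_assoc x (1 - e) (1 - q), ← hA, ← mul_assoc (1 - q) (1 - f) x, ← hB]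
      noncomm_ring
    rw [hd, two_mul]
    refine (norm_add_le _ _).trans (add_le_add ?_ ?_)
    · calc ‖(1 - q) * ((1 - f) * x)‖ ≤ ‖(1 : H →L[ℂ] H) - q‖ * ‖(1 - f) * x‖ := norm_mul_le _ _
        _ ≤ 1 * η := mul_le_mul h1q hf3 (norm_nonneg _) zero_le_one
        _ = η := one_mul _
    · calc ‖q * ((x * (1 - e)) * (1 - q))‖ ≤ ‖q‖ * ‖(x * (1 - e)) * (1 - q)‖ := norm_mul_le _ _
        _ ≤ ‖q‖ * (‖x * (1 - e)‖ * ‖(1 : H →L[ℂ] H) - q‖) :=
            mul_le_mul_of_nonneg_left (norm_mul_le _ _) (norm_nonneg _)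
        _ ≤ 1 * (η * 1) := by
            refine mul_le_mul hqn (mul_le_mul he1 h1q (norm_nonneg _) hη.le) ?_ zero_le_one
            positivity
        _ = η := by ring
  · have a1 : η ^ 2 * n2 ξ e ^ 2 ≤ n2 ξ x ^ 2 := by
      rw [← mul_pow]
      exact pow_le_pow_left₀ (mul_nonneg hη.le ne) he2 2
    have a2 : η ^ 2 * n2 ξ f ^ 2 ≤ n2 ξ x ^ 2 := by
      rw [← mul_pow, ← hn]
      exact pow_le_pow_left₀ (mul_nonneg hη.le nf) hf2 2
    calc η ^ 2 * n2 ξ q ^ 2 ≤ η ^ 2 * (n2 ξ e ^ 2 + n2 ξ f ^ 2) :=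
          mul_le_mul_of_nonneg_left hq2 (sq_nonneg _)
      _ = η ^ 2 * n2 ξ e ^ 2 + η ^ 2 * n2 ξ f ^ 2 := by ring
      _ ≤ n2 ξ x ^ 2 + n2 ξ x ^ 2 := add_le_add a1 a2
      _ = 2 * n2 ξ x ^ 2 := by ring

end Pool.Agent.HFT
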