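import Pool.Agent.HFT.Defs

set_option autoImplicit false
set_option linter.unusedSectionVars false

/-! # Module Cv (3 points): list cochains and continuous linear maps

`fl1`, `fl2` turn a continuous (bi)linear map on `RA M` into a cochain on lists in the sense of
`HK/Coch` (`Coch X n C φ`: `supp`, `lin` for every position, `val`, `bd` with `nm l` = product of
norms), and `clm1`, `clm2` are the converse (`LinearMap.mkContinuous`, `LinearMap.mkContinuous₂`).
`D_fl1`, `D_fl2`: unfold with `D_cons`, `E_cons`, `E_one` of `HK/Alg`; `D_clm1`, `D_clm2` the same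
for a list cochain. For `lin` of `fl1`: the list `p ++ x :: post` has length one iff
`p = post = []`; do cases on `p` and `post`. For `fl2`: `p = [], post = [y]` or `p = [y],
post = []`. -/

namespace Pool.Agent.HFT

open Pool.Agent.HK Filter Topology

variable {H : Type} [NormedAddCommGroup H] [InnerProductSpace ℂ H] [CompleteSpace H]
variable {M : VonNeumannAlgebra H}

/-- the list cochain of a linear map -/
noncomputable def fl1 (ψ : RA M →L[ℂ] (H →L[ℂ] H)) : List (RA M) → (H →L[ℂ] H)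
  | [x] => ψ x
  | _ => 0

/-- the list cochain of a bilinear map -/
noncomputable def fl2 (φ : RA M →L[ℂ] RA M →L[ℂ] (H →L[ℂ] H)) : List (RA M) → (H →L[ℂ] H)
  | [x, y] => φ x y
  | _ => 0

/-- the submodule of compact operators -/
noncomputable def KK (H : Type) [NormedAddCommGroup H] [InnerProductSpace ℂ H] [CompleteSpace H] :
    Submodule ℂ (H →L[ℂ] H) := compactOperator (RingHom.id ℂ) H H

theorem mem_KK {x : H →L[ℂ] H} : x ∈ KK H ↔ IsCompactOperator x := Iff.rfl

theorem KK_closed : IsClosed (KK H : Set (H →L[ℂ] H)) :=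
  isClosed_setOfPred_isCompactOperator

theorem KK_mul (a x : H →L[ℂ] H) (hx : IsCompactOperator x) :
    IsCompactOperator (a * x) ∧ IsCompactOperator (x * a) :=
  ⟨hx.clm_comp a, hx.comp_clm a⟩

theorem KK_bimod : IsBimod (io M) (KK H) :=
  ⟨fun a x hx => (KK_mul a.1 x hx).1, fun a x hx => (KK_mul a.1 x hx).2⟩

theorem fl1_coch {X : Submodule ℂ (H →L[ℂ] H)} (ψ : RA M →L[ℂ] (H →L[ℂ] H))
    (h : ∀ x, ψ x ∈ X) : Coch X 1 ‖ψ‖ (fl1 ψ) where
  supp l hl := by
    rcases l with _ | ⟨a, _ | ⟨b, l⟩⟩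
    · rfl
    · simp at hl
    · rfl
  lin p post x y c := by
    rcases p with _ | ⟨a, p⟩
    · rcases post with _ | ⟨b, post⟩
      · simp [fl1]
      · simp [fl1]
    · rcases p with _ | ⟨a', p⟩ <;> simp [fl1]
  val l := by
    rcases l with _ | ⟨a, _ | ⟨b, l⟩⟩
    · exact X.zero_mem
    · exact h a
    · exact X.zero_mem
  bd l := by
    rcases l with _ | ⟨a, _ | ⟨b, l⟩⟩
    · simp [fl1]
    · simpa [fl1] using ψ.le_opNorm a
    · simp only [fl1, norm_zero]
      exact mul_nonneg (norm_nonneg _) (nm_nonneg _)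

theorem fl2_coch {X : Submodule ℂ (H →L[ℂ] H)} (φ : RA M →L[ℂ] RA M →L[ℂ] (H →L[ℂ] H))
    (h : ∀ x y, φ x y ∈ X) : Coch X 2 ‖φ‖ (fl2 φ) where
  supp l hl := by
    rcases l with _ | ⟨a, _ | ⟨b, _ | ⟨d, l⟩⟩⟩
    · rfl
    · rfl
    · simp at hl
    · rfl
  lin p post x y c := by
    rcases p with _ | ⟨a, p⟩
    · rcases post with _ | ⟨b, _ | ⟨d, post⟩⟩
      · simp [fl2]
      · simp [fl2]
      · simp [fl2]
    · rcases p with _ | ⟨a', p⟩
      · rcases post with _ | ⟨b, post⟩
        · simp [fl2]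
        · simp [fl2]
      · rcases p with _ | ⟨a'', p⟩ <;> simp [fl2]
  val l := by
    rcases l with _ | ⟨a, _ | ⟨b, _ | ⟨d, l⟩⟩⟩
    · exact X.zero_mem
    · exact X.zero_mem
    · exact h a b
    · exact X.zero_mem
  bd l := by
    rcases l with _ | ⟨a, _ | ⟨b, _ | ⟨d, l⟩⟩⟩
    · simp only [fl2, norm_zero]
      exact mul_nonneg φ.opNorm_nonneg (nm_nonneg _)
    · simp only [fl2, norm_zero]
      exact mul_nonneg φ.opNorm_nonneg (nm_nonneg _)
    · simpa [fl2, mul_assoc] using φ.le_opNorm₂ a b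
    · simp only [fl2, norm_zero]
      exact mul_nonneg φ.opNorm_nonneg (nm_nonneg _)

theorem D_one (ψ : List (RA M) → (H →L[ℂ] H)) (x y : RA M) :
    D (io M) ψ [x, y] = x.1 * ψ [y] - ψ [x * y] + ψ [x] * y.1 := by
  rw [D_cons, E_cons, E_one, io_apply, io_apply]
  abel

theorem D_two (φ : List (RA M) → (H →L[ℂ] H)) (x y z : RA M) :
    D (io M) φ [x, y, z] = x.1 * φ [y, z] - φ [x * y, z] + φ [x, y * z] - φ [x, y] * z.1 := by
  rw [D_cons, E_cons, E_cons, E_one, io_apply, io_apply]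
  abel

/-- a list cochain of degree 2 is a cocycle iff the identity holds on lists of length 3 -/
theorem fl2_cocycle (φ : RA M →L[ℂ] RA M →L[ℂ] (H →L[ℂ] H))
    (h : ∀ x y z, x.1 * φ y z - φ (x * y) z + φ x (y * z) - φ x y * z.1 = 0) (l : List (RA M)) :
    D (io M) (fl2 φ) l = 0 := by
  by_cases hl : l.length = 2 + 1
  · rcases l with _ | ⟨a, _ | ⟨b, _ | ⟨d, _ | ⟨e, l⟩⟩⟩⟩
    · simp at hl
    · simp at hl
    · simp at hl
    · rw [D_two]
      exact h a b d
    · simp at hl
  · exact D_supp (io M) 2 (fl2 φ) (fl2_coch (X := ⊤) φ (fun _ _ => trivial)).supp l hl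

theorem clm1 {X : Submodule ℂ (H →L[ℂ] H)} {C : ℝ} (hC : 0 ≤ C)
    {ψ : List (RA M) → (H →L[ℂ] H)} (h : Coch X 1 C ψ) :
    ∃ Ψ : RA M →L[ℂ] (H →L[ℂ] H), (∀ x, Ψ x = ψ [x]) ∧ ‖Ψ‖ ≤ C := by
  have h0 : ψ [0] = 0 := by
    have := h.lin [] [] 0 0 1
    simp only [List.nil_append, smul_zero, add_zero, one_smul] at this
    exact left_eq_add.mp this
  let L : RA M →ₗ[ℂ] (H →L[ℂ] H) :=
    { toFun := fun x => ψ [x]
      map_add' := fun x y => by
        have := h.lin [] [] x y 1
        simpa using this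
      map_smul' := fun c x => by
        have := h.lin [] [] x 0 c
        simp only [List.nil_append, add_zero, h0] at this
        simpa using this }
  refine ⟨L.mkContinuous C (fun x => ?_), fun x => rfl, LinearMap.mkContinuous_norm_le _ hC _⟩
  have := h.bd [x]
  show ‖ψ [x]‖ ≤ C * ‖x‖
  simpa using this

theorem clm2 {X : Submodule ℂ (H →L[ℂ] H)} {C : ℝ} (hC : 0 ≤ C)
    {φ : List (RA M) → (H →L[ℂ] H)} (h : Coch X 2 C φ) :
    ∃ Φ : RA M →L[ℂ] RA M →L[ℂ] (H →L[ℂ] H), (∀ x y, Φ x y = φ [x, y]) ∧ ‖Φ‖ ≤ C := by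
  have h0 : ∀ y, φ [0, y] = 0 := fun y => by
    have := h.lin [] [y] 0 0 1
    simp only [List.nil_append, smul_zero, add_zero, one_smul] at this
    exact left_eq_add.mp this
  have h1 : ∀ x, φ [x, 0] = 0 := fun x => by
    have := h.lin [x] [] 0 0 1
    simp only [List.cons_append, List.nil_append, smul_zero, add_zero, one_smul] at this
    exact left_eq_add.mp this
  have ha : ∀ x x' y, φ [x + x', y] = φ [x, y] + φ [x', y] := fun x x' y => by
    have := h.lin [] [y] x x' 1
    simpa using this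
  have hs : ∀ (c : ℂ) x y, φ [c • x, y] = c • φ [x, y] := fun c x y => by
    have := h.lin [] [y] x 0 c
    simp only [List.nil_append, add_zero, h0] at this
    simpa using this
  have ha' : ∀ x y y', φ [x, y + y'] = φ [x, y] + φ [x, y'] := fun x y y' => by
    have := h.lin [x] [] y y' 1
    simpa using this
  have hs' : ∀ (c : ℂ) x y, φ [x, c • y] = c • φ [x, y] := fun c x y => by
    have := h.lin [x] [] y 0 c
    simp only [List.cons_append, List.nil_append, add_zero, h1] at this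
    simpa using this
  let L : RA M →ₗ[ℂ] RA M →ₗ[ℂ] (H →L[ℂ] H) := LinearMap.mk₂ ℂ (fun x y => φ [x, y])
    ha hs ha' hs'
  refine ⟨L.mkContinuous₂ C (fun x y => ?_), fun x y => rfl,
    LinearMap.mkContinuous₂_norm_le _ hC _⟩
  have := h.bd [x, y]
  show ‖φ [x, y]‖ ≤ C * ‖x‖ * ‖y‖
  simpa [mul_assoc] using this

end Pool.Agent.HFT
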