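import Pool.Agent.HFT.Good

set_option autoImplicit false
set_option linter.unusedSectionVars false

/-! # Module Dec (4 points): normal part + singular part

For every `k` take `g k` from `good` with `ε = (1/2)^k` and `e k` from `TrF.incr`
(`g` = the operators `(g k).1`): `e k` increasing projections of `M`, `n2 (1 - e k) ≤ 2 (1/2)^k`,
`e k = g k e k = e k g k`. `ω (e k x) = ω (g k (e k x))` is normal in `x` (`NormalF.lft`:
`lft (e k) ω = lft (e k) (lft (g k) ω)`), and `ω (x e k) = ω (x e k g k)` is normal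
(`rgt (e k) (rgt (g k) ω)`).

Claim 1 (Bessel): for a strictly increasing `k : ℕ → ℕ` and `J`:
`∑ i ∈ range J, ‖lft (e (k (i+1)) - e (k i)) ω‖ ^ 2 ≤ ‖ω‖ ^ 2`. Proof: `G i = e (k (i+1)) - e (k i)`
are orthogonal projections. Let `c i = ‖lft (G i) ω‖`. For `θ < 1` take `y i`, `‖y i‖ ≤ 1`, with
`ω (G i * y i) ≥ θ c i` real (after a unimodular factor). `Y = ∑ c i • G i y i`, `‖Y‖² ≤ ∑ c i²`
(`norm_bessel`), so `θ ∑ c i² ≤ |ω Y| ≤ ‖ω‖ (∑ c i²)^(1/2)`; let `θ → 1`.

Claim 2: `ω_k = lft (e k) ω` is a Cauchy sequence in the dual: otherwise there is `b > 0` with: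
for every `N` there are `l > k ≥ N` with `‖ω_l - ω_k‖ ≥ b`; choose inductively
`k_0 < l_0 ≤ k_1 < l_1 ≤ ...` and use Claim 1 for the sequence `k_0, l_0, k_1, l_1, ...` made
strictly increasing (or prove Claim 1 directly for finitely many orthogonal projections `G i`):
`J b² ≤ ‖ω‖²` for all `J`, impossible.

Let `ν` be the limit (the dual is complete). `NormalF ν` by `NormalF.lim`, `‖ν‖ ≤ ‖ω‖` as
`‖ω_k‖ ≤ ‖ω‖` (`‖e k * x‖ ≤ ‖x‖`). `ν (e k x) = lim_l ω (e l e k x) = ω (e k x)` (`e l e k = e k` for `l ≥ k`). And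
`ν (x e k) = lim_l ω (e l x e k)`, while `ω (x e k) - ω (e l x e k) = ω ((1 - e l) x e k) → 0` as
`l → ∞` because `rgt (e k) ω` is normal and `n2 ((1 - e l) x) = n2 (x* (1 - e l)) ≤ ‖x‖ n2 (1 - e l)`
tends to zero (`NormalF.seq`). So `ω - ν` vanishes on `e k M` and `M e k`: it is singular. -/

namespace Pool.Agent.HFT

open Pool.Agent.HK Filter Topology

variable {H : Type} [NormedAddCommGroup H] [InnerProductSpace ℂ H] [CompleteSpace H]
variable {M : VonNeumannAlgebra H} {ξ : ℕ → H}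

theorem dec_bessel (ω : RA M →L[ℂ] ℂ) (G : ℕ → RA M) (hG : ∀ i, IsStarProjection (G i).1)
    (horth : ∀ i j, i ≠ j → (G i).1 * (G j).1 = 0) (b : ℝ) (hb : 0 < b)
    (h : ∀ i, b < ‖lft (G i) ω‖) : False := by
  have h1 : ∀ i, ∃ y : RA M, ‖y‖ ≤ 1 ∧ ∃ r : ℝ, b < r ∧ ω (G i * y) = (r : ℂ) := by
    intro i
    obtain ⟨x, hx1, hx2⟩ := (lft (G i) ω).exists_lt_apply_of_lt_opNorm (h i)
    rw [lft_apply] at hx2
    set w : ℂ := ω (G i * x) with hw
    have hw0 : (‖w‖ : ℂ) ≠ 0 := by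
      have : 0 < ‖w‖ := hb.trans hx2
      exact_mod_cast this.ne'
    refine ⟨((starRingEnd ℂ) w / ‖w‖) • x, ?_, ‖w‖, hx2, ?_⟩
    · rw [norm_smul, norm_div, RCLike.norm_conj]
      have : ‖w‖ / ‖(‖w‖ : ℂ)‖ = 1 := by
        rw [Complex.norm_real, norm_norm]
        exact div_self (hb.trans hx2).ne'
      rw [this, one_mul]
      exact hx1.le
    · rw [mul_smul_comm, map_smul, smul_eq_mul, ← hw, div_mul_eq_mul_div, mul_comm,
        Complex.mul_conj, Complex.normSq_eq_norm_sq]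
      rw [div_eq_iff hw0]
      push_cast
      ring
  choose y hy1 r hr1 hr2 using h1
  have key : ∀ J : ℕ, (J : ℝ) * b ^ 2 ≤ ‖ω‖ ^ 2 := by
    intro J
    have hB := norm_bessel (Finset.range J) (fun i => (G i).1) (fun i => (y i).1)
      (fun i _ => hG i) (fun i _ j _ hij => horth i j hij) (fun i _ => hy1 i) (fun _ => 1)
    let Y : RA M := ∑ i ∈ Finset.range J, G i * y i
    have hY : Y.1 = ∑ i ∈ Finset.range J, (((fun _ => 1 : ℕ → ℝ) i : ℝ) : ℂ) •
        ((G i).1 * (y i).1) := by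
      have : Y.1 = io M Y := rfl
      rw [this, map_sum]
      refine Finset.sum_congr rfl fun i _ => ?_
      simp [io_apply]
    rw [← hY] at hB
    have hYn : ‖Y‖ ^ 2 ≤ J := by
      have : ‖Y‖ = ‖Y.1‖ := rfl
      rw [this]
      simpa using hB
    have hωY : ω Y = ((∑ i ∈ Finset.range J, r i : ℝ) : ℂ) := by
      rw [map_sum]
      push_cast
      exact Finset.sum_congr rfl fun i _ => hr2 i
    have h3 : (J : ℝ) * b ≤ ∑ i ∈ Finset.range J, r i := by
      have := Finset.card_nsmul_le_sum (Finset.range J) r b (fun i _ => (hr1 i).le)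
      simpa using this
    have h4 : (∑ i ∈ Finset.range J, r i) ≤ ‖ω Y‖ := by
      rw [hωY, Complex.norm_real]
      exact le_abs_self _
    have h5 : (J : ℝ) * b ≤ ‖ω‖ * ‖Y‖ := (h3.trans h4).trans (ω.le_opNorm Y)
    have hJ : (0 : ℝ) ≤ J := Nat.cast_nonneg J
    rcases hJ.eq_or_lt with hJ0 | hJ0
    · rw [← hJ0, zero_mul]
      positivity
    · have h6 : ((J : ℝ) * b) ^ 2 ≤ (‖ω‖ * ‖Y‖) ^ 2 := by
        apply pow_le_pow_left₀ (by positivity) h5
      have h7 : (‖ω‖ * ‖Y‖) ^ 2 ≤ ‖ω‖ ^ 2 * J := by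
        rw [mul_pow]
        exact mul_le_mul_of_nonneg_left hYn (by positivity)
      have h8 : (J : ℝ) * (J * b ^ 2) ≤ J * ‖ω‖ ^ 2 := by
        nlinarith [h6, h7]
      exact le_of_mul_le_mul_left h8 hJ0
  obtain ⟨J, hJ⟩ := exists_nat_gt (‖ω‖ ^ 2 / b ^ 2)
  have hb2 : 0 < b ^ 2 := by positivity
  rw [div_lt_iff₀ hb2] at hJ
  exact absurd (key J) (not_le.mpr hJ)

theorem dec (T : TrF M ξ) (ω : RA M →L[ℂ] ℂ) :
    ∃ ν : RA M →L[ℂ] ℂ, NormalF ξ ν ∧ SingF ξ (ω - ν) ∧ ‖ν‖ ≤ ‖ω‖ := by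
  choose g hg1 hg2 hg3 hg4 using fun k : ℕ => good T ω ((1 / 2 : ℝ) ^ k) (by positivity)
  obtain ⟨E, hE1, hE2, hE3, hE4, hE5, hE6⟩ := T.incr (fun k => (g k).1)
    (fun k => ⟨(g k).2, hg1 k⟩) hg2
  let e : ℕ → RA M := fun k => ⟨E k, (hE1 k).1⟩
  have e_le : ∀ i d, e i * e (i + d) = e i ∧ e (i + d) * e i = e i := by
    intro i d
    induction d with
    | zero =>
      have : e i * e i = e i := Subtype.ext (hE1 i).2.isIdempotentElem.eq
      exact ⟨this, this⟩
    | succ d ih =>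
      have h2 : e (i + d) * e (i + d + 1) = e (i + d) := Subtype.ext (hE2 (i + d))
      have h3 : e (i + d + 1) * e (i + d) = e (i + d) := Subtype.ext (hE3 (i + d))
      constructor
      · calc e i * e (i + (d + 1)) = (e i * e (i + d)) * e (i + d + 1) := by
              rw [ih.1]; rfl
          _ = e i * (e (i + d) * e (i + d + 1)) := mul_assoc _ _ _
          _ = e i := by rw [h2, ih.1]
      · calc e (i + (d + 1)) * e i = e (i + d + 1) * (e (i + d) * e i) := by
              rw [ih.2]; rfl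
          _ = (e (i + d + 1) * e (i + d)) * e i := (mul_assoc _ _ _).symm
          _ = e i := by rw [h3, ih.2]
  have ele : ∀ i j, i ≤ j → e i * e j = e i := fun i j h => by
    obtain ⟨d, rfl⟩ := Nat.exists_eq_add_of_le h
    exact (e_le i d).1
  have ele' : ∀ i j, i ≤ j → e j * e i = e i := fun i j h => by
    obtain ⟨d, rfl⟩ := Nat.exists_eq_add_of_le h
    exact (e_le i d).2
  have eg : ∀ k, e k * g k = e k := fun k => Subtype.ext (hE4 k)
  have ge : ∀ k, g k * e k = e k := fun k => Subtype.ext (hE5 k)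
  have en : ∀ k, ‖e k‖ ≤ 1 := fun k => (hE1 k).2.norm_le
  have e1n : ∀ k, ‖1 - e k‖ ≤ 1 := fun k => (hE1 k).2.one_sub.norm_le
  let u : ℕ → RA M →L[ℂ] ℂ := fun k => lft (e k) ω
  have hu : ∀ k x, u k x = ω (e k * x) := fun k x => rfl
  have hun : ∀ k, NormalF ξ (u k) := by
    intro k
    have : u k = lft (e k) (lft (g k) ω) := by
      ext x
      rw [hu, lft_apply, lft_apply, ← mul_assoc, ge]
    rw [this]
    exact (hg3 k).lft T (e k)
  have hrn : ∀ k, NormalF ξ (rgt (e k) ω) := by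
    intro k
    have : rgt (e k) ω = rgt (e k) (rgt (g k) ω) := by
      ext x
      rw [rgt_apply, rgt_apply, rgt_apply, mul_assoc, eg]
    rw [this]
    exact (hg4 k).rgt T (e k)
  have hub : ∀ k, ‖u k‖ ≤ ‖ω‖ := by
    intro k
    refine ContinuousLinearMap.opNorm_le_bound _ (norm_nonneg _) fun x => ?_
    rw [hu]
    calc ‖ω (e k * x)‖ ≤ ‖ω‖ * ‖e k * x‖ := ω.le_opNorm _
      _ ≤ ‖ω‖ * (‖e k‖ * ‖x‖) := by gcongr; exact norm_mul_le _ _
      _ ≤ ‖ω‖ * (1 * ‖x‖) := by gcongr; exact en k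
      _ = ‖ω‖ * ‖x‖ := by rw [one_mul]
  have hcau : CauchySeq u := by
    rw [Metric.cauchySeq_iff']
    by_contra hcon
    push Not at hcon
    obtain ⟨b, hb, hcon⟩ := hcon
    choose f hf1 hf2 using hcon
    let N : ℕ → ℕ := fun i => f^[i] 0
    have hN : ∀ i, N (i + 1) = f (N i) := fun i => Function.iterate_succ_apply' f i 0
    have hN1 : ∀ i, N i ≤ N (i + 1) := fun i => by rw [hN]; exact hf1 _
    have hNm : Monotone N := monotone_nat_of_le_succ hN1
    let G : ℕ → RA M := fun i => e (N (i + 1)) - e (N i)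
    have hG : ∀ i, IsStarProjection (G i).1 := by
      intro i
      have h1 := ele (N i) (N (i + 1)) (hN1 i)
      have h2 := ele' (N i) (N (i + 1)) (hN1 i)
      have h3 : G i * G i = G i := by
        have h4 : e (N (i + 1)) * e (N (i + 1)) = e (N (i + 1)) := ele _ _ le_rfl
        have h5 : e (N i) * e (N i) = e (N i) := ele _ _ le_rfl
        show (e (N (i + 1)) - e (N i)) * (e (N (i + 1)) - e (N i)) = e (N (i + 1)) - e (N i)
        rw [sub_mul, mul_sub, mul_sub, h1, h2, h4, h5]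
        abel
      refine ⟨congrArg Subtype.val h3, ?_⟩
      show star (E (N (i + 1)) - E (N i)) = E (N (i + 1)) - E (N i)
      rw [star_sub, (hE1 _).2.isSelfAdjoint.star_eq, (hE1 _).2.isSelfAdjoint.star_eq]
    have horth' : ∀ i j, i < j → G i * G j = 0 ∧ G j * G i = 0 := by
      intro i j hij
      have a1 : N (i + 1) ≤ N j := hNm hij
      have a2 : N i ≤ N j := hNm hij.le
      have a3 : N (i + 1) ≤ N (j + 1) := a1.trans (hN1 j)
      have a4 : N i ≤ N (j + 1) := a2.trans (hN1 j)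
      constructor
      · show (e (N (i + 1)) - e (N i)) * (e (N (j + 1)) - e (N j)) = 0
        rw [sub_mul, mul_sub, mul_sub, ele _ _ a1, ele _ _ a2, ele _ _ a3, ele _ _ a4]
        abel
      · show (e (N (j + 1)) - e (N j)) * (e (N (i + 1)) - e (N i)) = 0
        rw [sub_mul, mul_sub, mul_sub, ele' _ _ a1, ele' _ _ a2, ele' _ _ a3, ele' _ _ a4]
        abel
    have horth : ∀ i j, i ≠ j → (G i).1 * (G j).1 = 0 := by
      intro i j hij
      rcases lt_or_gt_of_ne hij with h | h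
      · exact congrArg Subtype.val (horth' i j h).1
      · exact congrArg Subtype.val (horth' j i h).2
    refine dec_bessel ω G hG horth (b / 2) (by positivity) fun i => ?_
    have h1 : lft (G i) ω = u (N (i + 1)) - u (N i) := by
      ext x
      show ω ((e (N (i + 1)) - e (N i)) * x) = ω (e (N (i + 1)) * x) - ω (e (N i) * x)
      rw [sub_mul, map_sub]
    have h2 := hf2 (N i)
    rw [dist_eq_norm] at h2
    rw [h1, hN]
    linarith
  obtain ⟨ν, hν⟩ := cauchySeq_tendsto_of_complete hcau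
  have hνx : ∀ x, Tendsto (fun l => ω (e l * x)) atTop (𝓝 (ν x)) := by
    intro x
    have h1 := ((ContinuousLinearMap.apply ℂ ℂ x).continuous.tendsto ν).comp hν
    exact h1
  have c1 : ∀ k x, ν (e k * x) = ω (e k * x) := by
    intro k x
    refine tendsto_nhds_unique (hνx (e k * x)) ?_
    refine tendsto_const_nhds.congr' ?_
    filter_upwards [eventually_ge_atTop k] with l hl
    rw [← mul_assoc, ele' k l hl]
  have hn2 : Tendsto (fun l => n2 ξ (1 - (e l).1)) atTop (𝓝 0) := by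
    have h1 : Tendsto (fun l : ℕ => 2 * (1 / 2 : ℝ) ^ l) atTop (𝓝 0) := by
      have := (tendsto_pow_atTop_nhds_zero_of_lt_one (r := (1 / 2 : ℝ)) (by norm_num)
        (by norm_num)).const_mul 2
      simpa using this
    exact squeeze_zero (fun l => n2_nonneg ξ _) hE6 h1
  have c2 : ∀ k x, ν (x * e k) = ω (x * e k) := by
    intro k x
    refine tendsto_nhds_unique (hνx (x * e k)) ?_
    have h1 : Tendsto (fun l => (rgt (e k) ω) ((1 - e l) * x)) atTop (𝓝 0) := by
      refine (hrn k).seq (fun l => (1 - e l) * x) ‖x‖ (fun l => ?_) ?_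
      · calc ‖(1 - e l) * x‖ ≤ ‖1 - e l‖ * ‖x‖ := norm_mul_le _ _
          _ ≤ 1 * ‖x‖ := by gcongr; exact e1n l
          _ = ‖x‖ := one_mul _
      · have h2 : Tendsto (fun l => n2 ξ (1 - (e l).1) * ‖x.1‖) atTop (𝓝 0) := by
          have := hn2.mul_const ‖x.1‖
          simpa using this
        refine squeeze_zero (fun l => n2_nonneg ξ _) (fun l => ?_) h2
        show n2 ξ ((1 - (e l).1) * x.1) ≤ n2 ξ (1 - (e l).1) * ‖x.1‖
        exact T.n2_mul_le' (M.toStarSubalgebra.sub_mem (M.toStarSubalgebra.one_mem) (e l).2) x.2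
    have h3 : Tendsto (fun l => ω (x * e k) - (rgt (e k) ω) ((1 - e l) * x)) atTop
        (𝓝 (ω (x * e k) - 0)) := tendsto_const_nhds.sub h1
    rw [sub_zero] at h3
    refine h3.congr fun l => ?_
    rw [rgt_apply, ← map_sub]
    congr 1
    rw [sub_mul, sub_mul, one_mul, mul_assoc, sub_sub_cancel]
  refine ⟨ν, ?_, ?_, ?_⟩
  · refine NormalF.lim fun ε hε => ?_
    obtain ⟨k, hk⟩ := (Metric.tendsto_atTop.mp hν ε hε)
    refine ⟨u k, hun k, ?_⟩
    have := hk k le_rfl
    rw [dist_eq_norm, norm_sub_rev] at this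
    exact this.le
  · intro ε hε
    have h1 : Tendsto (fun l : ℕ => n2 ξ (1 - (e l).1)) atTop (𝓝 0) := hn2
    obtain ⟨k, hk⟩ := ((tendsto_order.mp h1).2 ε hε).exists
    refine ⟨e k, (hE1 k).2, hk.le, fun x => ⟨?_, ?_⟩⟩
    · show ω (e k * x) - ν (e k * x) = 0
      rw [c1, sub_self]
    · show ω (x * e k) - ν (x * e k) = 0
      rw [c2, sub_self]
  · exact le_of_tendsto hν.norm (Eventually.of_forall hub)

end Pool.Agent.HFT
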