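import Pool.Agent.HKD.Final2

set_option autoImplicit false
set_option linter.unusedSectionVars false

/-! Finite von Neumann algebras with a trace given by a family of vectors: definitions. -/

namespace Pool.Agent.HFT

open Pool.Agent.HK Filter Topology

variable {H : Type} [NormedAddCommGroup H] [InnerProductSpace ℂ H] [CompleteSpace H]

/-- the `2`-norm `(∑ ‖x ξ_i‖²)^(1/2)` -/
noncomputable def n2 (ξ : ℕ → H) (x : H →L[ℂ] H) : ℝ := Real.sqrt (∑' i, ‖x (ξ i)‖ ^ 2)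

/-- the inner product `∑ ⟪x ξ_i, y ξ_i⟫` -/
noncomputable def ip (ξ : ℕ → H) (x y : H →L[ℂ] H) : ℂ := ∑' i, inner ℂ (x (ξ i)) (y (ξ i))

/-- `x ↦ ∑ ⟪ξ_i, x ξ_i⟫` is a faithful normal tracial state of `M` -/
structure TrF (M : VonNeumannAlgebra H) (ξ : ℕ → H) : Prop where
  one : HasSum (fun i => ‖ξ i‖ ^ 2) 1
  tr : ∀ x ∈ M, ∑' i, ‖x (ξ i)‖ ^ 2 = ∑' i, ‖(star x) (ξ i)‖ ^ 2
  faith : ∀ x ∈ M, (∀ i, x (ξ i) = 0) → x = 0

/-- left multiplication of a functional -/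
noncomputable def lft {M : VonNeumannAlgebra H} (e : RA M) (ω : RA M →L[ℂ] ℂ) : RA M →L[ℂ] ℂ :=
  ω.comp (ContinuousLinearMap.mul ℂ (RA M) e)

/-- right multiplication of a functional -/
noncomputable def rgt {M : VonNeumannAlgebra H} (e : RA M) (ω : RA M →L[ℂ] ℂ) : RA M →L[ℂ] ℂ :=
  ω.comp ((ContinuousLinearMap.mul ℂ (RA M)).flip e)

@[simp] theorem lft_apply {M : VonNeumannAlgebra H} (e : RA M) (ω : RA M →L[ℂ] ℂ) (x : RA M) :
    lft e ω x = ω (e * x) := rfl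

@[simp] theorem rgt_apply {M : VonNeumannAlgebra H} (e : RA M) (ω : RA M →L[ℂ] ℂ) (x : RA M) :
    rgt e ω x = ω (x * e) := rfl

/-- the functional is continuous at zero for the `2`-norm on the unit ball (it is normal) -/
def NormalF {M : VonNeumannAlgebra H} (ξ : ℕ → H) (ω : RA M →L[ℂ] ℂ) : Prop :=
  ∀ ε : ℝ, 0 < ε → ∃ δ : ℝ, 0 < δ ∧ ∀ x : RA M, ‖x‖ ≤ 1 → n2 ξ x.1 ≤ δ → ‖ω x‖ ≤ ε

/-- the functional vanishes on `eM` and `Me` for projections `e` of trace close to one -/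
def SingF {M : VonNeumannAlgebra H} (ξ : ℕ → H) (ω : RA M →L[ℂ] ℂ) : Prop :=
  ∀ ε : ℝ, 0 < ε → ∃ e : RA M, IsStarProjection e.1 ∧ n2 ξ (1 - e.1) ≤ ε ∧
    ∀ x, ω (e * x) = 0 ∧ ω (x * e) = 0

/-- the inclusion of `M` in the bounded operators, as a continuous linear map -/
noncomputable def iL (M : VonNeumannAlgebra H) : RA M →L[ℂ] (H →L[ℂ] H) :=
  (io M).toLinearMap.mkContinuous 1 (fun x => by rw [one_mul]; exact (io_norm M x).le)

@[simp] theorem iL_apply (M : VonNeumannAlgebra H) (x : RA M) : iL M x = x.1 := rfl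

/-- the matrix element `x ↦ ⟪b, T x a⟫` -/
noncomputable def mel {M : VonNeumannAlgebra H} (T : RA M →L[ℂ] (H →L[ℂ] H)) (a b : H) :
    RA M →L[ℂ] ℂ :=
  (innerSL ℂ b).comp ((ContinuousLinearMap.apply ℂ H a).comp T)

@[simp] theorem mel_apply {M : VonNeumannAlgebra H} (T : RA M →L[ℂ] (H →L[ℂ] H)) (a b : H)
    (x : RA M) : mel T a b x = inner ℂ b (T x a) := rfl

/-- all matrix elements are normal -/
def NormalT {M : VonNeumannAlgebra H} (ξ : ℕ → H) (T : RA M →L[ℂ] (H →L[ℂ] H)) : Prop :=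
  ∀ a b : H, NormalF ξ (mel T a b)

/-- left multiplication of a map with values in the operators -/
noncomputable def cL {M : VonNeumannAlgebra H} (c : H →L[ℂ] H) (T : RA M →L[ℂ] (H →L[ℂ] H)) :
    RA M →L[ℂ] (H →L[ℂ] H) := (ContinuousLinearMap.mul ℂ (H →L[ℂ] H) c).comp T

/-- right multiplication of a map with values in the operators -/
noncomputable def cR {M : VonNeumannAlgebra H} (c : H →L[ℂ] H) (T : RA M →L[ℂ] (H →L[ℂ] H)) :
    RA M →L[ℂ] (H →L[ℂ] H) := ((ContinuousLinearMap.mul ℂ (H →L[ℂ] H)).flip c).comp T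

/-- the map `x ↦ T (y x)` -/
noncomputable def vL {M : VonNeumannAlgebra H} (y : RA M) (T : RA M →L[ℂ] (H →L[ℂ] H)) :
    RA M →L[ℂ] (H →L[ℂ] H) := T.comp (ContinuousLinearMap.mul ℂ (RA M) y)

/-- the map `x ↦ T (x y)` -/
noncomputable def vR {M : VonNeumannAlgebra H} (y : RA M) (T : RA M →L[ℂ] (H →L[ℂ] H)) :
    RA M →L[ℂ] (H →L[ℂ] H) := T.comp ((ContinuousLinearMap.mul ℂ (RA M)).flip y)

@[simp] theorem cL_apply {M : VonNeumannAlgebra H} (c : H →L[ℂ] H)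
    (T : RA M →L[ℂ] (H →L[ℂ] H)) (x : RA M) : cL c T x = c * T x := rfl

@[simp] theorem cR_apply {M : VonNeumannAlgebra H} (c : H →L[ℂ] H)
    (T : RA M →L[ℂ] (H →L[ℂ] H)) (x : RA M) : cR c T x = T x * c := rfl

@[simp] theorem vL_apply {M : VonNeumannAlgebra H} (y : RA M)
    (T : RA M →L[ℂ] (H →L[ℂ] H)) (x : RA M) : vL y T x = T (y * x) := rfl

@[simp] theorem vR_apply {M : VonNeumannAlgebra H} (y : RA M)
    (T : RA M →L[ℂ] (H →L[ℂ] H)) (x : RA M) : vR y T x = T (x * y) := rfl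

/-! ### Spin systems -/

/-- commuting pairs of anticommuting self-adjoint unitaries of `M` -/
structure Spin (M : VonNeumannAlgebra H) (X Z : ℕ → H →L[ℂ] H) : Prop where
  Xm : ∀ i, X i ∈ M
  Zm : ∀ i, Z i ∈ M
  Xs : ∀ i, star (X i) = X i
  Zs : ∀ i, star (Z i) = Z i
  X2 : ∀ i, X i * X i = 1
  Z2 : ∀ i, Z i * Z i = 1
  anti : ∀ i, X i * Z i = -(Z i * X i)
  cXX : ∀ i j, X i * X j = X j * X i
  cZZ : ∀ i j, Z i * Z j = Z j * Z i
  cXZ : ∀ i j, i ≠ j → X i * Z j = Z j * X i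

/-- `M` is the hyperfinite factor of type II-one: it has a faithful normal tracial state and a
spin system generating a dense subalgebra for the `2`-norm -/
structure Hyp (M : VonNeumannAlgebra H) (ξ : ℕ → H) (X Z : ℕ → H →L[ℂ] H) : Prop where
  trf : TrF M ξ
  spin : Spin M X Z
  dense : ∀ x ∈ M, ∀ ε : ℝ, 0 < ε →
    ∃ y ∈ Algebra.adjoin ℂ (Set.range X ∪ Set.range Z), n2 ξ (x - y) < ε

/-- product of the `U i` over `i ∈ a`, `i < k` -/
noncomputable def prk (U : ℕ → H →L[ℂ] H) (a : Finset ℕ) : ℕ → (H →L[ℂ] H)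
  | 0 => 1
  | k + 1 => prk U a k * (if k ∈ a then U k else 1)

/-- product of the `U i` over `i ∈ a`, in increasing order -/
noncomputable def pr (U : ℕ → H →L[ℂ] H) (a : Finset ℕ) : H →L[ℂ] H := prk U a (a.sup id + 1)

/-- the word `∏_{i ∈ s.1} X i * ∏_{i ∈ s.2} Z i` -/
noncomputable def wd (X Z : ℕ → H →L[ℂ] H) (s : Finset ℕ × Finset ℕ) : H →L[ℂ] H :=
  pr X s.1 * pr Z s.2

/-- addition of indices of words -/
def sd (s t : Finset ℕ × Finset ℕ) : Finset ℕ × Finset ℕ := (symmDiff s.1 t.1, symmDiff s.2 t.2)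

/-- the indices of the words in the first `k` positions -/
def Qk (k : ℕ) : Finset (Finset ℕ × Finset ℕ) :=
  (Finset.range k).powerset ×ˢ (Finset.range k).powerset

/-- the conditional expectation on the first `k` positions -/
noncomputable def Ek (ξ : ℕ → H) (X Z : ℕ → H →L[ℂ] H) (k : ℕ) (x : H →L[ℂ] H) : H →L[ℂ] H :=
  ∑ s ∈ Qk k, ip ξ (wd X Z s) x • wd X Z s

/-- `x` commutes with `X i` and `Z i` -/
def CP (X Z : ℕ → H →L[ℂ] H) (i : ℕ) (x : H →L[ℂ] H) : Prop :=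
  X i * x = x * X i ∧ Z i * x = x * Z i

end Pool.Agent.HFT
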