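import Pool.Agent.HFT.DefsF
import Pool.Agent.HFT.Defs

set_option autoImplicit false
set_option linter.unusedSectionVars false

/-! Property Gamma: definitions. -/

namespace Pool.Agent.HFT

open Pool.Agent.HK Filter Topology

variable {H : Type} [NormedAddCommGroup H] [InnerProductSpace ℂ H] [CompleteSpace H]

/-! ### Definitions used in the final statement -/

/-- For a central projection `z` of `M`: the summand `zM` is a factor of type II-one with separable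
predual and with property Gamma of Murray and von Neumann. There are vectors `ξ i` of `zH` with
`∑ ‖ξ i‖² = 1` such that `τ x = ∑ ⟪ξ i, x (ξ i)⟫` is a trace (`τ (x* x) = τ (x x*)` for `x ∈ M`),
faithful on `zM`; there is a sequence `d n` in `M` that is dense for the norm
`‖x‖₂ = τ (x* x)^(1/2)`; the centre of `zM` consists of the multiples of `z`; for every finite
subset `F` of `M` and `ε > 0` there is a unitary `u` of `zM` with `τ u = 0` and
`‖u x - x u‖₂² < ε` for all `x ∈ F`. -/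
def IsGammaFactor (M : Set (H →L[ℂ] H)) (z : H →L[ℂ] H) : Prop :=
  ∃ ξ : ℕ → H,
    HasSum (fun i => ‖ξ i‖ ^ 2) 1 ∧ (∀ i, z (ξ i) = ξ i) ∧
    (∀ x ∈ M, ∑' i, ‖x (ξ i)‖ ^ 2 = ∑' i, ‖(star x) (ξ i)‖ ^ 2) ∧
    (∀ x ∈ M, z * x = x → (∀ i, x (ξ i) = 0) → x = 0) ∧
    (∃ d : ℕ → (H →L[ℂ] H), (∀ n, d n ∈ M) ∧
      ∀ x ∈ M, ∀ ε : ℝ, 0 < ε → ∃ n, ∑' i, ‖(x - d n) (ξ i)‖ ^ 2 < ε) ∧
    (∀ x ∈ M, (∀ y ∈ M, x * y = y * x) → ∃ c : ℂ, z * x = c • z) ∧
    ∀ F : Finset (H →L[ℂ] H), (∀ x ∈ F, x ∈ M) → ∀ ε : ℝ, 0 < ε →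
      ∃ u ∈ M, star u * u = z ∧ u * star u = z ∧ ∑' i, (inner ℂ (ξ i) (u (ξ i)) : ℂ) = 0 ∧
        ∀ x ∈ F, ∑' i, ‖(u * x - x * u) (ξ i)‖ ^ 2 < ε

/-- `M` is a countable direct sum of properly infinite algebras, of homogeneous algebras of finite
type I, of algebras with diffuse centre and of factors of type II-one with separable predual and
property Gamma: there is a sequence of pairwise orthogonal central projections of `M` with strong
sum `1`, each of which is properly infinite (or zero), or finite homogeneous of type I, or diffuse,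
or a factor with property Gamma. -/
def IsPieceSumG (M : VonNeumannAlgebra H) : Prop :=
  ∃ z : ℕ → (H →L[ℂ] H),
    (∀ j, IsCentralProj (M : Set (H →L[ℂ] H)) (z j)) ∧ (∀ i j, i ≠ j → z i * z j = 0) ∧
    SumsToOne z ∧
    ∀ j, IsPropInf (M : Set (H →L[ℂ] H)) (z j) ∨ IsHomFin (M : Set (H →L[ℂ] H)) (z j) ∨
      IsDiffuse (M : Set (H →L[ℂ] H)) (z j) ∨ IsGammaFactor (M : Set (H →L[ℂ] H)) (z j)

/-! ### Auxiliary structures -/

/-- commuting self-adjoint unitaries of `M` -/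
structure SymS (M : VonNeumannAlgebra H) (Z : ℕ → H →L[ℂ] H) : Prop where
  Zm : ∀ i, Z i ∈ M
  Zs : ∀ i, star (Z i) = Z i
  Z2 : ∀ i, Z i * Z i = 1
  cZZ : ∀ i j, Z i * Z j = Z j * Z i

/-- `x` commutes with `Z j` for all `j ≥ m` -/
def CZ (Z : ℕ → H →L[ℂ] H) (m : ℕ) (x : H →L[ℂ] H) : Prop := ∀ j, m ≤ j → Z j * x = x * Z j

/-- commuting symmetries `Z j` of `M`, weakly null, such that the elements of `M` commuting with
some tail of `Z` are dense -/
structure Gam (M : VonNeumannAlgebra H) (ξ : ℕ → H) (Z : ℕ → H →L[ℂ] H) : Prop where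
  trf : TrF M ξ
  sym : SymS M Z
  wn : ∀ a b : H, Tendsto (fun j => (inner ℂ b (Z j a) : ℂ)) atTop (𝓝 0)
  dense : ∀ x ∈ M, ∀ ε : ℝ, 0 < ε → ∃ (m : ℕ) (y : H →L[ℂ] H), y ∈ M ∧ CZ Z m y ∧
    n2 ξ (x - y) < ε

/-- a factor with separable predual and property Gamma -/
structure GamF (N : VonNeumannAlgebra H) (ξ : ℕ → H) (d : ℕ → H →L[ℂ] H) : Prop where
  trf : TrF N ξ
  dm : ∀ n, d n ∈ N
  dd : ∀ x ∈ N, ∀ ε : ℝ, 0 < ε → ∃ n, n2 ξ (x - d n) < ε
  cen : ∀ x ∈ N, (∀ y ∈ N, x * y = y * x) → ∃ c : ℂ, x = c • (1 : H →L[ℂ] H)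
  gam : ∀ F : Finset (H →L[ℂ] H), (∀ x ∈ F, x ∈ N) → ∀ ε : ℝ, 0 < ε →
    ∃ u ∈ N, star u * u = 1 ∧ u * star u = 1 ∧ ip ξ 1 u = 0 ∧ ∀ x ∈ F, n2 ξ (u * x - x * u) < ε

/-- `Z j` as an element of the algebra -/
noncomputable def zA {M : VonNeumannAlgebra H} {Z : ℕ → H →L[ℂ] H} (S : SymS M Z) (j : ℕ) :
    RA M := ⟨Z j, S.Zm j⟩

@[simp] theorem zA_val {M : VonNeumannAlgebra H} {Z : ℕ → H →L[ℂ] H} (S : SymS M Z) (j : ℕ) :
    (zA S j).1 = Z j := rfl

/-- the average `(x + Z j x Z j) / 2` -/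
noncomputable def Th (Z : ℕ → H →L[ℂ] H) (j : ℕ) (x : H →L[ℂ] H) : H →L[ℂ] H :=
  (1 / 2 : ℂ) • (x + Z j * x * Z j)

/-- the average over the positions `m, …, m + k - 1` -/
noncomputable def Thk (Z : ℕ → H →L[ℂ] H) (m : ℕ) : ℕ → (H →L[ℂ] H) → (H →L[ℂ] H)
  | 0, x => x
  | k + 1, x => Th Z (m + k) (Thk Z m k x)

/-- the von Neumann algebra generated by `S ∪ star S` (the double commutant) -/
noncomputable def gen (S : Set (H →L[ℂ] H)) : VonNeumannAlgebra H where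
  toStarSubalgebra := StarSubalgebra.centralizer ℂ
    ((StarSubalgebra.centralizer ℂ S : StarSubalgebra ℂ (H →L[ℂ] H)) : Set (H →L[ℂ] H))
  centralizer_centralizer' := by simp

end Pool.Agent.HFT
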