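import Pool.Agent.HK.Defs

set_option autoImplicit false

namespace Pool.Agent.HFT

open Pool.Agent.HK Filter Topology

variable {H : Type} [NormedAddCommGroup H] [InnerProductSpace ℂ H]

/-- The bounded multilinear map `φ` on `M` is separately normal: for fixed values of the other
variables it is, in each variable, continuous from bounded strongly convergent sequences of `M` to
the weak operator topology (by linearity: for sequences converging to zero). -/
def IsNormalCochain (M : Set (H →L[ℂ] H)) {k : ℕ} (φ : (Fin k → (H →L[ℂ] H)) → (H →L[ℂ] H)) :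
    Prop :=
  ∀ a : Fin k → (H →L[ℂ] H), (∀ j, a j ∈ M) → ∀ (i : Fin k) (x : ℕ → (H →L[ℂ] H)),
    (∀ m, x m ∈ M) → (∀ m, ‖x m‖ ≤ 1) → (∀ v : H, Tendsto (fun m => x m v) atTop (𝓝 0)) →
    ∀ u v : H, Tendsto (fun m => inner ℂ u (φ (Function.update a i (x m)) v)) atTop (𝓝 (0 : ℂ))

variable [CompleteSpace H]

/-- For a central projection `z` of `M`: the summand `zM` is zero or has a faithful normal
tracial state: there are vectors `ξ i` of `zH` with `∑ ‖ξ i‖² = 1` such that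
`τ x = ∑ ⟪ξ i, x (ξ i)⟫` is a trace (`τ (x* x) = τ (x x*)` for `x ∈ M`), faithful on `zM`. -/
def HasTrace (M : Set (H →L[ℂ] H)) (z : H →L[ℂ] H) : Prop :=
  z = 0 ∨ ∃ ξ : ℕ → H, HasSum (fun i => ‖ξ i‖ ^ 2) 1 ∧ (∀ i, z (ξ i) = ξ i) ∧
    (∀ x ∈ M, ∑' i, ‖x (ξ i)‖ ^ 2 = ∑' i, ‖(star x) (ξ i)‖ ^ 2) ∧
    ∀ x ∈ M, z * x = x → (∀ i, x (ξ i) = 0) → x = 0

end Pool.Agent.HFT
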