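import Pool.Agent.HFT.DefsN
import Pool.Agent.HFT.DefsF

set_option autoImplicit false

namespace Pool.Agent.HFT

open Pool.Agent.HK

variable {H : Type} [NormedAddCommGroup H] [InnerProductSpace ℂ H] [CompleteSpace H]

/-- There is a central projection `z` of `M` such that `(1 - z)M` is properly infinite (or zero)
and `zM` has a faithful normal tracial state (or is zero). -/
def HasTracePart (M : Set (H →L[ℂ] H)) : Prop :=
  ∃ z : H →L[ℂ] H, IsCentralProj M z ∧ IsPropInf M (1 - z) ∧ HasTrace M z

/-- Reduction to normal cocycles in degree `m + 1`, with constant `K`: every `(m + 1)`-cocycle `φ`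
on `M` of norm at most `C`, whose values are compact operators, has the form
`coboundary ψ + ν`, where `ψ` and `ν` are cochains with compact values of norm at most `K * C` and
`ν` is separately normal. -/
def ReducesToNormal (M : Set (H →L[ℂ] H)) (m : ℕ) (K : ℝ) : Prop :=
  ∀ (φ : (Fin (m + 1) → (H →L[ℂ] H)) → (H →L[ℂ] H)) (C : ℝ), 0 ≤ C →
    IsCochain M (Cpt H) C φ → CoboundaryEq M φ (fun _ => 0) →
    ∃ (ψ : (Fin m → (H →L[ℂ] H)) → (H →L[ℂ] H))
      (ν : (Fin (m + 1) → (H →L[ℂ] H)) → (H →L[ℂ] H)),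
      IsCochain M (Cpt H) (K * C) ψ ∧ IsCochain M (Cpt H) (K * C) ν ∧
      IsNormalCochain M ν ∧ CoboundaryEq M ψ (fun a => φ a - ν a)

end Pool.Agent.HFT
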