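import Pool.Agent.HFT.Cut

set_option autoImplicit false
set_option linter.unusedSectionVars false

/-! # Module Fn (3 points): normal and singular functionals

`NormalF`, `SingF`, `lft`, `rgt` are in `Defs`. Coercions: for `x : RA M` the operator is `x.1`,
`(x * y).1 = x.1 * y.1` and `‖x‖ = ‖x.1‖` are `rfl` (`io_norm`), `(1 : RA M).1 = 1`.

* `NormalF.seq`: given `ε`, take `C' = max C 1` and `δ` for `ε / C'`; the elements
  `C'⁻¹ • y m` have norm `≤ 1` and small `2`-norm. `normal_of_seq`: by contradiction choose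
  `y m` with `‖y m‖ ≤ 1`, `n2 ≤ 1 / (m + 1)`, `‖ω (y m)‖ > ε`.
* `NormalF.add/smul/zero/lim`: immediate (`lim`: `‖ω x‖ ≤ ‖(ω - ω') x‖ + ‖ω' x‖`).
  `NormalF.lft`, `NormalF.rgt`: by `normal_of_seq` and `seq`: `‖y * x‖ ≤ ‖y‖ ‖x‖`, `n2_mul_le`,
  `TrF.n2_mul_le'`.
* `SingF.common`: for a sequence of singular functionals: for each `k` and each `j ≤ k` let
  `g_{j,k}` be a projection for `ω j` and a small number; more simply enumerate: for `(j, k)` take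
  `g` with `n2 (1 - g) ≤ (1/2)^(j+k+2)`, killing `ω j`; for fixed `k` let `q_k` = `1 -` the join
  (`TrF.joinN`) over `j` of `1 - g_{j,k}`: `n2 (1 - q_k)² ≤ ∑_j 4^{-(j+k+2)} ≤ 4^{-k}`, and
  `q_k g_{j,k} = q_k = g_{j,k} q_k` (as `P (1 - g) = 1 - g`). Then `TrF.incr` gives the increasing
  `e k` with `e k = g_{j,k} e k = e k g_{j,k}` for all `j`: `ω j (e k * x) = ω j (g * (e k * x)) = 0`
  and `ω j (x * e k) = ω j (x * e k * g) = 0`.
* `SingF.zero/smul` trivial; `SingF.add`: `common` for the sequence `ω, ω', ω', ...`.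
* `SingF.lft`: for `ω (y ·)` and `ε`: `e` for `ω` and `ε / 2`. `x₀ = y* (1 - e) ∈ M`,
  `x₀ (1 - e) = x₀`; `r` from `TrF.rng`: `n2 r ≤ n2 (1 - e)`, `r x₀ = x₀`. `P` = `join2` of
  `1 - e` and `r`, `e' = 1 - P`: `n2 P ≤ n2 (1 - e) + n2 r ≤ ε`. `e' x₀ = e' r x₀ = 0`, so
  `(1 - e) y e' = (e' x₀)* = 0`, `y e' = e y e'`: `ω (y e' x) = ω (e (y e' x)) = 0`. And
  `e' = e' e`, so `ω (y x e') = ω ((y x e') e) = 0`. `SingF.rgt` is symmetric
  (`x₀ = y (1 - e)`).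
* `normal_sing`: `ω x = ω (e x) + ω ((1 - e) x) = ω ((1 - e) x)`, `‖(1 - e) x‖ ≤ ‖x‖`,
  `n2 ((1 - e) x) = n2 (x* (1 - e))`, `≤ ‖x‖ n2 (1 - e)`. For `‖x‖ ≤ 1` get
  `‖ω x‖ ≤ ε` for all `ε`, so `ω x = 0` (scale). -/

namespace Pool.Agent.HFT

open Pool.Agent.HK Filter Topology

variable {H : Type} [NormedAddCommGroup H] [InnerProductSpace ℂ H] [CompleteSpace H]
variable {M : VonNeumannAlgebra H} {ξ : ℕ → H}

theorem NormalF.seq {ω : RA M →L[ℂ] ℂ} (h : NormalF ξ ω) (y : ℕ → RA M) (C : ℝ)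
    (hC : ∀ m, ‖y m‖ ≤ C) (hy : Tendsto (fun m => n2 ξ (y m).1) atTop (𝓝 0)) :
    Tendsto (fun m => ω (y m)) atTop (𝓝 0) := by
  rw [Metric.tendsto_atTop]
  intro ε hε
  set C' : ℝ := max C 1 with hC'
  have hC1 : 1 ≤ C' := le_max_right _ _
  have hC0 : 0 < C' := by linarith
  have hCi : C'⁻¹ ≤ 1 := inv_le_one_of_one_le₀ hC1
  obtain ⟨δ, hδ, hH⟩ := h (ε / 2 / C') (by positivity)
  rw [Metric.tendsto_atTop] at hy
  obtain ⟨N, hN⟩ := hy δ hδ
  refine ⟨N, fun m hm => ?_⟩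
  have h1 := hN m hm
  rw [Real.dist_eq, sub_zero, abs_of_nonneg (n2_nonneg _ _)] at h1
  have hn : ‖((C'⁻¹ : ℝ) : ℂ)‖ = C'⁻¹ := by
    rw [Complex.norm_real, Real.norm_of_nonneg (by positivity)]
  have h3 : ‖((C'⁻¹ : ℝ) : ℂ) • y m‖ ≤ 1 := by
    rw [norm_smul, hn]
    have h4 : ‖y m‖ ≤ C' := (hC m).trans (le_max_left _ _)
    calc C'⁻¹ * ‖y m‖ ≤ C'⁻¹ * C' := by gcongr
      _ = 1 := inv_mul_cancel₀ hC0.ne'
  have h4 : n2 ξ (((C'⁻¹ : ℝ) : ℂ) • y m).1 ≤ δ := by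
    change n2 ξ (((C'⁻¹ : ℝ) : ℂ) • (y m).1) ≤ δ
    rw [n2_smul, hn]
    have h5 := n2_nonneg ξ (y m).1
    nlinarith
  have h2 := hH _ h3 h4
  rw [map_smul, norm_smul, hn] at h2
  rw [dist_zero_right]
  have h5 : C'⁻¹ * ‖ω (y m)‖ * C' ≤ ε / 2 / C' * C' := by gcongr
  have h6 : C'⁻¹ * ‖ω (y m)‖ * C' = ‖ω (y m)‖ := by field_simp
  have h7 : ε / 2 / C' * C' = ε / 2 := by field_simp
  rw [h6, h7] at h5
  linarith

theorem normal_of_seq {ω : RA M →L[ℂ] ℂ}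
    (h : ∀ y : ℕ → RA M, (∀ m, ‖y m‖ ≤ 1) → Tendsto (fun m => n2 ξ (y m).1) atTop (𝓝 0) →
      Tendsto (fun m => ω (y m)) atTop (𝓝 0)) : NormalF ξ ω := by
  by_contra hc
  unfold NormalF at hc
  push Not at hc
  obtain ⟨ε, hε, hc⟩ := hc
  have hp : ∀ m : ℕ, (0 : ℝ) < 1 / ((m : ℝ) + 1) := fun m => by positivity
  choose y hy1 hy2 hy3 using fun m : ℕ => hc (1 / ((m : ℝ) + 1)) (hp m)
  have h1 := h y hy1 (squeeze_zero (fun m => n2_nonneg _ _) hy2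
    tendsto_one_div_add_atTop_nhds_zero_nat)
  rw [Metric.tendsto_atTop] at h1
  obtain ⟨N, hN⟩ := h1 ε hε
  have h2 := hN N le_rfl
  rw [dist_zero_right] at h2
  exact absurd (hy3 N) (not_lt.mpr h2.le)

theorem NormalF.zero : NormalF ξ (0 : RA M →L[ℂ] ℂ) := by
  intro ε hε
  exact ⟨1, one_pos, fun x _ _ => by simpa using hε.le⟩

theorem NormalF.add {ω ω' : RA M →L[ℂ] ℂ} (h : NormalF ξ ω) (h' : NormalF ξ ω') :
    NormalF ξ (ω + ω') := by
  intro ε hε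
  obtain ⟨δ, hδ, hH⟩ := h (ε / 2) (by positivity)
  obtain ⟨δ', hδ', hH'⟩ := h' (ε / 2) (by positivity)
  refine ⟨min δ δ', lt_min hδ hδ', fun x hx hn => ?_⟩
  have h1 := hH x hx (hn.trans (min_le_left _ _))
  have h2 := hH' x hx (hn.trans (min_le_right _ _))
  calc ‖(ω + ω') x‖ = ‖ω x + ω' x‖ := rfl
    _ ≤ ‖ω x‖ + ‖ω' x‖ := norm_add_le _ _
    _ ≤ ε := by linarith

theorem NormalF.smul {ω : RA M →L[ℂ] ℂ} (h : NormalF ξ ω) (c : ℂ) : NormalF ξ (c • ω) := by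
  intro ε hε
  have hp : 0 < ‖c‖ + 1 := by positivity
  obtain ⟨δ, hδ, hH⟩ := h (ε / (‖c‖ + 1)) (by positivity)
  refine ⟨δ, hδ, fun x hx hn => ?_⟩
  have h1 := hH x hx hn
  have h2 : ‖(c • ω) x‖ = ‖c‖ * ‖ω x‖ := by
    change ‖c • ω x‖ = _
    rw [norm_smul]
  rw [h2]
  calc ‖c‖ * ‖ω x‖ ≤ (‖c‖ + 1) * (ε / (‖c‖ + 1)) := by
        gcongr
        linarith
    _ = ε := by field_simp

theorem NormalF.lim {ω : RA M →L[ℂ] ℂ}
    (h : ∀ ε : ℝ, 0 < ε → ∃ ω' : RA M →L[ℂ] ℂ, NormalF ξ ω' ∧ ‖ω - ω'‖ ≤ ε) : NormalF ξ ω := by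
  intro ε hε
  obtain ⟨ω', h1, h2⟩ := h (ε / 2) (by positivity)
  obtain ⟨δ, hδ, hH⟩ := h1 (ε / 2) (by positivity)
  refine ⟨δ, hδ, fun x hx hn => ?_⟩
  have h3 := hH x hx hn
  have h4 : ‖(ω - ω') x‖ ≤ ε / 2 * 1 := (ContinuousLinearMap.le_opNorm _ _).trans (by gcongr)
  have h5 : ω x = (ω - ω') x + ω' x := by
    change ω x = ω x - ω' x + ω' x
    ring
  rw [h5]
  refine (norm_add_le _ _).trans ?_
  linarith

theorem NormalF.lft (T : TrF M ξ) {ω : RA M →L[ℂ] ℂ} (h : NormalF ξ ω) (y : RA M) :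
    NormalF ξ (lft y ω) := by
  refine normal_of_seq fun x hx hn => ?_
  refine h.seq (fun m => y * x m) ‖y‖ (fun m => ?_) ?_
  · refine (norm_mul_le _ _).trans ?_
    have := hx m
    nlinarith [norm_nonneg y]
  · have h1 : Tendsto (fun m => ‖y.1‖ * n2 ξ (x m).1) atTop (𝓝 0) := by
      simpa using hn.const_mul ‖y.1‖
    refine squeeze_zero (fun m => n2_nonneg _ _) (fun m => ?_) h1
    exact n2_mul_le T.summ y.1 (x m).1

theorem NormalF.rgt (T : TrF M ξ) {ω : RA M →L[ℂ] ℂ} (h : NormalF ξ ω) (y : RA M) :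
    NormalF ξ (rgt y ω) := by
  refine normal_of_seq fun x hx hn => ?_
  refine h.seq (fun m => x m * y) ‖y‖ (fun m => ?_) ?_
  · refine (norm_mul_le _ _).trans ?_
    have := hx m
    nlinarith [norm_nonneg y]
  · have h1 : Tendsto (fun m => n2 ξ (x m).1 * ‖y.1‖) atTop (𝓝 0) := by
      simpa using hn.mul_const ‖y.1‖
    refine squeeze_zero (fun m => n2_nonneg _ _) (fun m => ?_) h1
    exact T.n2_mul_le' (x m).2 y.2

private theorem pj_compl {p : H →L[ℂ] H} (hp : PJ M p) : PJ M (1 - p) :=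
  ⟨M.toStarSubalgebra.toSubalgebra.sub_mem (one_mem _) hp.1, hp.2.one_sub⟩

/-- `e * g = e` for projections gives `g * e = e` -/
private theorem pj_swap {e g : H →L[ℂ] H} (he : IsStarProjection e) (hg : IsStarProjection g)
    (h : e * g = e) : g * e = e := by
  have h1 := congrArg star h
  rw [star_mul, he.isSelfAdjoint.star_eq, hg.isSelfAdjoint.star_eq] at h1
  exact h1

theorem SingF.common (T : TrF M ξ) (ω : ℕ → RA M →L[ℂ] ℂ) (h : ∀ j, SingF ξ (ω j)) :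
    ∃ e : ℕ → RA M, (∀ k, IsStarProjection (e k).1) ∧ (∀ k, e k * e (k + 1) = e k) ∧
      (∀ k, e (k + 1) * e k = e k) ∧ Tendsto (fun k => n2 ξ (1 - (e k).1)) atTop (𝓝 0) ∧
      ∀ k j x, ω j (e k * x) = 0 ∧ ω j (x * e k) = 0 := by
  choose g hg1 hg2 hg3 using fun j k : ℕ => h j ((1 / 2 : ℝ) ^ (j + k + 2)) (by positivity)
  have hgP : ∀ j k, PJ M (g j k).1 := fun j k => ⟨(g j k).2, hg1 j k⟩
  have hs : ∀ k n, ∑ i ∈ Finset.range n, n2 ξ (1 - (g i k).1) ^ 2 ≤ ((1 / 2 : ℝ) ^ k) ^ 2 := by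
    intro k n
    have h1 : ∀ i, n2 ξ (1 - (g i k).1) ^ 2 ≤ ((1 / 2 : ℝ) ^ k) ^ 2 * ((1 / 2) ^ (i + 1)) := by
      intro i
      have h2 : n2 ξ (1 - (g i k).1) ^ 2 ≤ ((1 / 2 : ℝ) ^ (i + k + 2)) ^ 2 :=
        pow_le_pow_left₀ (n2_nonneg _ _) (hg2 i k) 2
      refine h2.trans ?_
      have h3 : ((1 / 2 : ℝ) ^ (i + k + 2)) ^ 2 =
          ((1 / 2 : ℝ) ^ k) ^ 2 * ((1 / 2) ^ (i + 1) * (1 / 2) ^ (i + 3)) := by
        rw [← pow_mul, ← pow_mul, ← pow_add, ← pow_add]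
        congr 1
        ring
      rw [h3]
      have h4 : (1 / 2 : ℝ) ^ (i + 3) ≤ 1 := pow_le_one₀ (by norm_num) (by norm_num)
      gcongr
      have h5 : (0 : ℝ) < (1 / 2) ^ (i + 1) := by positivity
      nlinarith
    have h2 : ∑ i ∈ Finset.range n, ((1 / 2 : ℝ) ^ (i + 1)) ≤ 1 := by
      have h3 : ∀ n : ℕ, ∑ i ∈ Finset.range n, ((1 / 2 : ℝ) ^ (i + 1)) = 1 - (1 / 2) ^ n := by
        intro n
        induction n with
        | zero => simp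
        | succ n ih => rw [Finset.sum_range_succ, ih]; ring
      rw [h3]
      have : (0 : ℝ) < (1 / 2) ^ n := by positivity
      linarith
    calc ∑ i ∈ Finset.range n, n2 ξ (1 - (g i k).1) ^ 2
        ≤ ∑ i ∈ Finset.range n, ((1 / 2 : ℝ) ^ k) ^ 2 * ((1 / 2) ^ (i + 1)) :=
          Finset.sum_le_sum fun i _ => h1 i
      _ = ((1 / 2 : ℝ) ^ k) ^ 2 * ∑ i ∈ Finset.range n, ((1 / 2 : ℝ) ^ (i + 1)) := by
          rw [Finset.mul_sum]
      _ ≤ ((1 / 2 : ℝ) ^ k) ^ 2 * 1 := by gcongr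
      _ = _ := mul_one _
  choose P hP1 hP2 hP3 _ using fun k : ℕ =>
    T.joinN (fun i => 1 - (g i k).1) (fun i => pj_compl (hgP i k)) _ (hs k)
  have hPn : ∀ k, n2 ξ (1 - (1 - P k)) ≤ (1 / 2) ^ k := by
    intro k
    rw [sub_sub_cancel]
    exact (pow_le_pow_iff_left₀ (n2_nonneg _ _) (by positivity) two_ne_zero).mp (hP3 k)
  obtain ⟨e, he1, he2, he3, he4, he5, he6⟩ := T.incr (fun k => 1 - P k)
    (fun k => pj_compl (hP1 k)) hPn
  have hk1 : ∀ k j, e k * (g j k).1 = e k := by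
    intro k j
    have h1 : (1 - P k) * (1 - (g j k).1) = 0 := by
      rw [sub_mul, one_mul, hP2 k j, sub_self]
    have h2 : e k * (1 - (g j k).1) = 0 := by
      rw [← he4 k, mul_assoc, h1, mul_zero]
    rw [mul_sub, mul_one, sub_eq_zero] at h2
    exact h2.symm
  have hk2 : ∀ k j, (g j k).1 * e k = e k := fun k j => pj_swap (he1 k).2 (hg1 j k) (hk1 k j)
  refine ⟨fun k => ⟨e k, (he1 k).1⟩, fun k => (he1 k).2, fun k => Subtype.ext (he2 k),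
    fun k => Subtype.ext (he3 k), ?_, ?_⟩
  · have h1 : Tendsto (fun k : ℕ => 2 * (1 / 2 : ℝ) ^ k) atTop (𝓝 0) := by
      simpa using (tendsto_pow_atTop_nhds_zero_of_lt_one (r := (1 / 2 : ℝ)) (by norm_num)
        (by norm_num)).const_mul 2
    exact squeeze_zero (fun k => n2_nonneg _ _) he6 h1
  · intro k j x
    have e1 : (⟨e k, (he1 k).1⟩ : RA M) = g j k * ⟨e k, (he1 k).1⟩ := Subtype.ext (hk2 k j).symm
    have e2 : (⟨e k, (he1 k).1⟩ : RA M) = ⟨e k, (he1 k).1⟩ * g j k := Subtype.ext (hk1 k j).symm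
    constructor
    · change ω j ((⟨e k, (he1 k).1⟩ : RA M) * x) = 0
      rw [e1, mul_assoc]
      exact (hg3 j k _).1
    · change ω j (x * (⟨e k, (he1 k).1⟩ : RA M)) = 0
      rw [e2, ← mul_assoc]
      exact (hg3 j k _).2

theorem SingF.zero : SingF ξ (0 : RA M →L[ℂ] ℂ) := by
  intro ε hε
  refine ⟨1, ?_, ?_, fun x => ⟨rfl, rfl⟩⟩
  · change IsStarProjection (1 : H →L[ℂ] H)
    exact IsStarProjection.one _
  · change n2 ξ (1 - (1 : H →L[ℂ] H)) ≤ ε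
    rw [sub_self, n2_zero]
    exact hε.le

theorem SingF.smul {ω : RA M →L[ℂ] ℂ} (h : SingF ξ ω) (c : ℂ) : SingF ξ (c • ω) := by
  intro ε hε
  obtain ⟨e, h1, h2, h3⟩ := h ε hε
  refine ⟨e, h1, h2, fun x => ⟨?_, ?_⟩⟩
  · change c • ω (e * x) = 0
    rw [(h3 x).1, smul_zero]
  · change c • ω (x * e) = 0
    rw [(h3 x).2, smul_zero]

theorem SingF.add (T : TrF M ξ) {ω ω' : RA M →L[ℂ] ℂ} (h : SingF ξ ω) (h' : SingF ξ ω') :
    SingF ξ (ω + ω') := by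
  intro ε hε
  obtain ⟨e, he1, _, _, he4, he5⟩ := SingF.common T (fun j : ℕ => if j = 0 then ω else ω')
    (fun j => by
      by_cases hj : j = 0
      · simpa [hj] using h
      · simpa [hj] using h')
  rw [Metric.tendsto_atTop] at he4
  obtain ⟨N, hN⟩ := he4 ε hε
  have h1 := hN N le_rfl
  rw [Real.dist_eq, sub_zero, abs_of_nonneg (n2_nonneg _ _)] at h1
  refine ⟨e N, he1 N, h1.le, fun x => ?_⟩
  have a0 := he5 N 0 x
  have a1 := he5 N 1 x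
  simp only [if_true, one_ne_zero, if_false] at a0 a1
  constructor
  · change ω (e N * x) + ω' (e N * x) = 0
    rw [a0.1, a1.1, add_zero]
  · change ω (x * e N) + ω' (x * e N) = 0
    rw [a0.2, a1.2, add_zero]

/-- the cutting projection: `e' ≤ e` and `e' x₀ (1 - e) = 0` -/
private theorem cutP (T : TrF M ξ) (e : RA M) (he : IsStarProjection e.1) (x : H →L[ℂ] H)
    (hx : x ∈ M) (ε : ℝ) (hε : 0 < ε) (hn : n2 ξ (1 - e.1) ≤ ε / 2) :
    ∃ e' : RA M, IsStarProjection e'.1 ∧ n2 ξ (1 - e'.1) ≤ ε ∧ e'.1 * e.1 = e'.1 ∧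
      e.1 * e'.1 = e'.1 ∧ e'.1 * (x * (1 - e.1)) = 0 := by
  have hp : PJ M (1 - e.1) := pj_compl ⟨e.2, he⟩
  have hx0 : x * (1 - e.1) ∈ M := mul_mem hx hp.1
  have hxx : x * (1 - e.1) * (1 - e.1) = x * (1 - e.1) := by
    rw [mul_assoc, hp.2.isIdempotentElem.eq]
  obtain ⟨r, hr1, hr2, _, hr4⟩ := T.rng _ _ hx0 hp hxx
  obtain ⟨P, hP1, hP2, hP3, hP4, _⟩ := T.join2 hp hr1
  have hq := pj_compl hP1
  have h1 : (1 - P) * (1 - e.1) = 0 := by rw [sub_mul, one_mul, hP2, sub_self]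
  have h2 : (1 - P) * e.1 = 1 - P := by
    rw [mul_sub, mul_one, sub_eq_zero] at h1
    exact h1.symm
  refine ⟨⟨1 - P, hq.1⟩, hq.2, ?_, h2, pj_swap hq.2 he h2, ?_⟩
  · change n2 ξ (1 - (1 - P)) ≤ ε
    rw [sub_sub_cancel]
    refine (pow_le_pow_iff_left₀ (n2_nonneg _ _) hε.le two_ne_zero).mp ?_
    have a1 := n2_nonneg ξ (1 - e.1)
    have a2 := n2_nonneg ξ r
    nlinarith
  · change (1 - P) * (x * (1 - e.1)) = 0
    have h3 : (1 - P) * r = 0 := by rw [sub_mul, one_mul, hP3, sub_self]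
    rw [← hr2, ← mul_assoc, h3, zero_mul]

theorem SingF.lft (T : TrF M ξ) {ω : RA M →L[ℂ] ℂ} (h : SingF ξ ω) (y : RA M) :
    SingF ξ (lft y ω) := by
  intro ε hε
  obtain ⟨e, he1, he2, he3⟩ := h (ε / 2) (by positivity)
  obtain ⟨e', h1, h2, h3, h4, h5⟩ := cutP T e he1 (star y.1) (star_mem y.2) ε hε he2
  have h6 : (1 - e.1) * y.1 * e'.1 = 0 := by
    have := congrArg star h5
    rw [star_mul, star_mul, star_star, h1.isSelfAdjoint.star_eq, star_zero, star_sub, star_one,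
      he1.isSelfAdjoint.star_eq] at this
    exact this
  have h7 : y * e' = e * (y * e') := by
    apply Subtype.ext
    change y.1 * e'.1 = e.1 * (y.1 * e'.1)
    rw [sub_mul, sub_mul, one_mul, sub_eq_zero] at h6
    exact h6.trans (mul_assoc _ _ _)
  have h8 : e' = e' * e := Subtype.ext h3.symm
  refine ⟨e', h1, h2, fun x => ⟨?_, ?_⟩⟩
  · rw [lft_apply, ← mul_assoc, h7, mul_assoc]
    exact (he3 _).1
  · rw [lft_apply, h8, ← mul_assoc, ← mul_assoc]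
    exact (he3 _).2

theorem SingF.rgt (T : TrF M ξ) {ω : RA M →L[ℂ] ℂ} (h : SingF ξ ω) (y : RA M) :
    SingF ξ (rgt y ω) := by
  intro ε hε
  obtain ⟨e, he1, he2, he3⟩ := h (ε / 2) (by positivity)
  obtain ⟨e', h1, h2, h3, h4, h5⟩ := cutP T e he1 y.1 y.2 ε hε he2
  have h7 : e' * y = e' * y * e := by
    apply Subtype.ext
    change e'.1 * y.1 = e'.1 * y.1 * e.1
    rw [mul_sub, mul_sub, mul_one, sub_eq_zero] at h5
    exact h5.trans (mul_assoc _ _ _).symm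
  have h8 : e' = e * e' := Subtype.ext h4.symm
  refine ⟨e', h1, h2, fun x => ⟨?_, ?_⟩⟩
  · rw [rgt_apply, h8, mul_assoc, mul_assoc]
    exact (he3 _).1
  · rw [rgt_apply, mul_assoc, h7, ← mul_assoc]
    exact (he3 _).2

theorem normal_sing (T : TrF M ξ) {ω : RA M →L[ℂ] ℂ} (h : NormalF ξ ω) (h' : SingF ξ ω) :
    ω = 0 := by
  have key : ∀ x : RA M, ‖x‖ ≤ 1 → ω x = 0 := by
    intro x hx
    rw [← norm_le_zero_iff]
    refine le_of_forall_pos_le_add fun ε hε => ?_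
    rw [zero_add]
    obtain ⟨δ, hδ, hH⟩ := h ε hε
    obtain ⟨e, he1, he2, he3⟩ := h' δ hδ
    have hp := pj_compl (M := M) ⟨e.2, he1⟩
    have h1 : ω x = ω ((1 - e) * x) := by
      have h2 : x = e * x + (1 - e) * x := by
        rw [sub_mul, one_mul]
        abel
      conv_lhs => rw [h2]
      rw [map_add, (he3 x).1, zero_add]
    rw [h1]
    have hn1 : ‖(1 - e : RA M)‖ ≤ 1 := by
      change ‖(1 - e.1 : H →L[ℂ] H)‖ ≤ 1
      exact hp.2.norm_le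
    refine hH _ ?_ ?_
    · refine (norm_mul_le _ _).trans ?_
      nlinarith [norm_nonneg x, norm_nonneg (1 - e : RA M)]
    · change n2 ξ ((1 - e.1) * x.1) ≤ δ
      have hm : (1 - e.1) * x.1 ∈ M := mul_mem hp.1 x.2
      rw [← T.n2_star hm, star_mul, hp.2.isSelfAdjoint.star_eq]
      refine (n2_mul_le T.summ _ _).trans ?_
      have h3 : ‖star x.1‖ ≤ 1 := by rw [norm_star]; exact hx
      have h4 := n2_nonneg ξ (1 - e.1)
      nlinarith [norm_nonneg (star x.1)]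
  ext x
  by_cases hx : ‖x‖ = 0
  · rw [norm_eq_zero] at hx
    rw [hx, map_zero, map_zero]
  · have h1 : ‖((‖x‖⁻¹ : ℝ) : ℂ) • x‖ ≤ 1 := by
      rw [norm_smul, Complex.norm_real, norm_inv, norm_norm, inv_mul_cancel₀ hx]
    have h2 := key _ h1
    rw [map_smul, smul_eq_zero] at h2
    rcases h2 with h2 | h2
    · exfalso
      rw [Complex.ofReal_eq_zero, inv_eq_zero] at h2
      exact hx h2
    · rw [h2]
      rfl

end Pool.Agent.HFT
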