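import Pool.Agent.HFT.Tr1

set_option autoImplicit false
set_option linter.unusedSectionVars false

/-! # Module Tr2 (2 points): `2`-norm convergence of bounded sequences is strong convergence

`TrF.sot`: let `V` be the closed linear span of all `c (ξ i)`, `c ∈ M.commutant`. The projection
`p` on the orthogonal complement of `V` lies in `M`: by `vn_mem_iff` it must commute with every
`c ∈ M.commutant`; `V` is invariant under `M.commutant` (an algebra closed under `star`), hence so
is its complement (see the proof of `vn_range_proj` in `HK/VN1` and `hkd_sup` in `HKD/Split`).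
`ξ i ∈ V` (take `c = 1`), so `p (ξ i) = 0` for all `i`, and `faith` gives `p = 0`: `V` is all of
`H`. For `v = c (ξ i)`: `x m v = c (x m (ξ i))` (`vn_commute`) and `‖x m (ξ i)‖ ≤ n2 ξ (x m)`
(`le_n2`) tends to zero. So `x m v → 0` for `v` in the linear span, and by the bound `C` for
every `v` (3 ε argument).

`n2_tendsto`: `n2 ξ (x m) ^ 2 = ∑' ‖x m (ξ i)‖²` tends to zero by dominated convergence
(`tendsto_tsum_of_dominated_convergence`, bound `C² ‖ξ i‖²`).

`TrF.norm_le_lim`: by `TrF.sot` applied to `x m - y` (bounded by `C + ‖y‖`) we have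
`x m v → y v`, so `‖y v‖ ≤ C ‖v‖`. -/

namespace Pool.Agent.HFT

open Pool.Agent.HK Filter Topology

variable {H : Type} [NormedAddCommGroup H] [InnerProductSpace ℂ H] [CompleteSpace H]
variable {M : VonNeumannAlgebra H} {ξ : ℕ → H}

theorem TrF.sot (T : TrF M ξ) (x : ℕ → H →L[ℂ] H) (hx : ∀ m, x m ∈ M) (C : ℝ)
    (hC : ∀ m, ‖x m‖ ≤ C) (h : Tendsto (fun m => n2 ξ (x m)) atTop (𝓝 0)) (v : H) :
    Tendsto (fun m => x m v) atTop (𝓝 0) := by
  have hC0 : 0 ≤ C := (norm_nonneg _).trans (hC 0)
  let S : Set H := {v | ∃ c ∈ M.commutant, ∃ i, v = c (ξ i)}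
  let K : Submodule ℂ H := (Submodule.span ℂ S).topologicalClosure
  have hKc : IsClosed (K : Set H) := Submodule.isClosed_topologicalClosure _
  have : CompleteSpace K := hKc.completeSpace_coe
  have hSK : ∀ v ∈ S, v ∈ K := fun v hv =>
    (Submodule.le_topologicalClosure _) (Submodule.subset_span hv)
  have hr : IsStarProjection K.starProjection := isStarProjection_starProjection
  have hrM : K.starProjection ∈ M := by
    rw [VonNeumannAlgebra.IsStarProjection.mem_iff hr M]
    intro y hy
    have hrange : (K.starProjection).range = K := by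
      exact Submodule.range_starProjection K
    rw [hrange, Module.End.mem_invtSubmodule]
    have hcl : IsClosed ((Submodule.comap (y : H →ₗ[ℂ] H) K : Submodule ℂ H) : Set H) :=
      hKc.preimage y.continuous
    refine Submodule.topologicalClosure_minimal _ ?_ hcl
    refine Submodule.span_le.2 ?_
    rintro _ ⟨c, hc, i, rfl⟩
    show y (c (ξ i)) ∈ K
    exact hSK _ ⟨y * c, mul_mem hy hc, i, rfl⟩
  have hfix : ∀ i, K.starProjection (ξ i) = ξ i := by
    intro i
    rw [Submodule.starProjection_eq_self_iff]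
    exact hSK _ ⟨1, one_mem _, i, rfl⟩
  have h1 : (1 - K.starProjection : H →L[ℂ] H) = 0 := by
    refine T.faith _ (sub_mem (one_mem _) hrM) ?_
    intro i
    show ξ i - K.starProjection (ξ i) = 0
    rw [hfix i, sub_self]
  have hv : v ∈ K := by
    rw [← Submodule.starProjection_eq_self_iff]
    have h2 := congrArg (fun S : H →L[ℂ] H => S v) h1
    have h3 : v - K.starProjection v = 0 := h2
    exact (sub_eq_zero.1 h3).symm
  let W : Submodule ℂ H :=
    { carrier := {v | Tendsto (fun m => x m v) atTop (𝓝 0)}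
      zero_mem' := by
        show Tendsto (fun m => x m 0) atTop (𝓝 0)
        simp
      add_mem' := by
        intro a b ha hb
        have ha' : Tendsto (fun m => x m a) atTop (𝓝 0) := ha
        have hb' : Tendsto (fun m => x m b) atTop (𝓝 0) := hb
        show Tendsto (fun m => x m (a + b)) atTop (𝓝 0)
        have := ha'.add hb'
        simpa only [map_add, add_zero] using this
      smul_mem' := by
        intro c a ha
        have ha' : Tendsto (fun m => x m a) atTop (𝓝 0) := ha
        show Tendsto (fun m => x m (c • a)) atTop (𝓝 0)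
        have := ha'.const_smul c
        simpa only [map_smul, smul_zero] using this }
  have hW : ∀ v, v ∈ W ↔ Tendsto (fun m => x m v) atTop (𝓝 0) := fun v => Iff.rfl
  have hWc : IsClosed (W : Set H) := by
    rw [← closure_subset_iff_isClosed]
    intro w hw
    show w ∈ W
    rw [hW, Metric.tendsto_atTop]
    intro ε hε
    rw [Metric.mem_closure_iff] at hw
    obtain ⟨u, hu, huw⟩ := hw (ε / (2 * (C + 1))) (by positivity)
    have hu' : Tendsto (fun m => x m u) atTop (𝓝 0) := hu
    rw [Metric.tendsto_atTop] at hu'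
    obtain ⟨N, hN⟩ := hu' (ε / 2) (by positivity)
    refine ⟨N, fun m hm => ?_⟩
    have e1 := hN m hm
    rw [dist_zero_right] at e1 ⊢
    rw [dist_eq_norm] at huw
    have e2 : x m w = x m (w - u) + x m u := by rw [map_sub]; abel
    have e3 : ‖x m (w - u)‖ ≤ C * ‖w - u‖ :=
      ((x m).le_opNorm _).trans (mul_le_mul_of_nonneg_right (hC m) (norm_nonneg _))
    have e4 : C * ‖w - u‖ ≤ (C + 1) * (ε / (2 * (C + 1))) := by
      have : (0 : ℝ) ≤ C + 1 := by linarith
      exact mul_le_mul (by linarith) huw.le (norm_nonneg _) this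
    have e5 : (C + 1) * (ε / (2 * (C + 1))) = ε / 2 := by
      have : C + 1 ≠ 0 := by positivity
      field_simp
    rw [e2]
    have e6 := norm_add_le (x m (w - u)) (x m u)
    linarith
  have hKW : K ≤ W := by
    refine Submodule.topologicalClosure_minimal _ ?_ hWc
    refine Submodule.span_le.2 ?_
    rintro _ ⟨c, hc, i, rfl⟩
    show Tendsto (fun m => x m (c (ξ i))) atTop (𝓝 0)
    refine squeeze_zero_norm (a := fun m => ‖c‖ * n2 ξ (x m)) ?_ ?_
    · intro m
      have e1 : x m (c (ξ i)) = c (x m (ξ i)) := by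
        have := vn_commute (hx m) hc
        exact (congrArg (fun T : H →L[ℂ] H => T (ξ i)) this).symm
      rw [e1]
      exact (c.le_opNorm _).trans (mul_le_mul_of_nonneg_left (le_n2 T.summ (x m) i)
        (norm_nonneg _))
    · have := h.const_mul ‖c‖
      simpa using this
  exact hKW hv

theorem n2_tendsto (hξ : Summable fun i => ‖ξ i‖ ^ 2) (x : ℕ → H →L[ℂ] H) (C : ℝ)
    (hC : ∀ m, ‖x m‖ ≤ C) (h : ∀ i, Tendsto (fun m => x m (ξ i)) atTop (𝓝 0)) :
    Tendsto (fun m => n2 ξ (x m)) atTop (𝓝 0) := by
  have h1 : Tendsto (fun m => ∑' i, ‖x m (ξ i)‖ ^ 2) atTop (𝓝 (∑' _ : ℕ, (0 : ℝ))) := by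
    refine tendsto_tsum_of_dominated_convergence (bound := fun i => C ^ 2 * ‖ξ i‖ ^ 2)
      (hξ.mul_left _) ?_ ?_
    · intro i
      have := ((h i).norm).pow 2
      simpa using this
    · refine Filter.Eventually.of_forall ?_
      intro m i
      have e1 : ‖x m (ξ i)‖ ≤ C * ‖ξ i‖ :=
        ((x m).le_opNorm _).trans (mul_le_mul_of_nonneg_right (hC m) (norm_nonneg _))
      rw [Real.norm_of_nonneg (by positivity), ← mul_pow]
      exact pow_le_pow_left₀ (norm_nonneg _) e1 2
  rw [tsum_zero] at h1
  have h2 := (Real.continuous_sqrt.tendsto 0).comp h1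
  rw [Real.sqrt_zero] at h2
  exact h2

theorem TrF.norm_le_lim (T : TrF M ξ) (x : ℕ → H →L[ℂ] H) (hx : ∀ m, x m ∈ M)
    (y : H →L[ℂ] H) (hy : y ∈ M) (C : ℝ) (hC : ∀ m, ‖x m‖ ≤ C)
    (h : Tendsto (fun m => n2 ξ (x m - y)) atTop (𝓝 0)) : ‖y‖ ≤ C := by
  have hC0 : 0 ≤ C := (norm_nonneg _).trans (hC 0)
  refine ContinuousLinearMap.opNorm_le_bound y hC0 (fun v => ?_)
  have h1 := T.sot (fun m => x m - y) (fun m => sub_mem (hx m) hy) (C + ‖y‖)
    (fun m => (norm_sub_le _ _).trans (by have := hC m; linarith)) h v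
  have h2 : Tendsto (fun m => x m v) atTop (𝓝 (y v)) := by
    have h3 := h1.add_const (y v)
    have h4 : (fun m => (x m - y) v + y v) = fun m => x m v := by
      funext m
      show x m v - y v + y v = x m v
      abel
    rw [h4, zero_add] at h3
    exact h3
  refine le_of_tendsto h2.norm (Filter.Eventually.of_forall fun m => ?_)
  exact ((x m).le_opNorm _).trans (mul_le_mul_of_nonneg_right (hC m) (norm_nonneg _))

end Pool.Agent.HFT
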