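import Pool.Agent.HFT.DefsG
import Pool.Agent.HFT.Tr2
import Pool.Agent.HFT.Lim
import Pool.Agent.HFT.W6

set_option autoImplicit false
set_option linter.unusedSectionVars false

/-! # Module G0 (3 points): preparations

* `kw`: a compact operator maps bounded weakly null sequences to null sequences. Look at the proof
  of `ess` (W6) or of `compact_tendsto` (Onc) : they need the same fact; or: every subsequence of
  `κ (w j)` has a convergent subsequence (compactness of the closure of the image of a ball,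
  `IsCompactOperator`), whose limit is weakly zero (`⟪b, κ (w j)⟫ = ⟪κ* b, w j⟫ → 0`).
* `uL_of_tendsto`: `uL_tendsto`, uniqueness of limits (`hyperfilter ℕ ≤ atTop`:
  `Filter.Nat.hyperfilter_le_atTop` or see Lim), `ext_inner_left`.
* `SymS.norm_vec`: `‖Z j v‖² = ⟪Z j v, Z j v⟫ = ⟪v, Z j Z j v⟫`.
* `kZ`: `⟪b, Z j κ Z j a⟫ = ⟪Z j b, κ (Z j a)⟫`, bounded by `‖b‖ ‖κ (Z j a)‖ → 0` (`kw`).
* `Gam.essZ`: `ess` with `U j = Z (g j)` for every vector (`ContinuousLinearMap.opNorm_le_bound`);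
  `wn` along the subsequence `g`. -/

namespace Pool.Agent.HFT

open Pool.Agent.HK Filter Topology

variable {H : Type} [NormedAddCommGroup H] [InnerProductSpace ℂ H] [CompleteSpace H]
variable {M : VonNeumannAlgebra H} {ξ : ℕ → H} {Z : ℕ → H →L[ℂ] H}

theorem kw (κ : H →L[ℂ] H) (hκ : IsCompactOperator κ) (w : ℕ → H) (C : ℝ) (hC : ∀ j, ‖w j‖ ≤ C)
    (hw : ∀ b, Tendsto (fun j => (inner ℂ b (w j) : ℂ)) atTop (𝓝 0)) :
    Tendsto (fun j => κ (w j)) atTop (𝓝 0) := by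
  have hcpt := IsCompactOperator.isCompact_closure_image_closedBall (f := (κ : H →ₗ[ℂ] H)) hκ C
  refine tendsto_of_subseq_tendsto fun ns hns => ?_
  have hmem : ∀ n, κ (w (ns n)) ∈ closure ((κ : H → H) '' Metric.closedBall 0 C) := by
    intro n
    apply subset_closure
    refine ⟨w (ns n), ?_, rfl⟩
    rw [mem_closedBall_zero_iff]
    exact hC _
  obtain ⟨y, _, φ, hφ, hy⟩ := hcpt.tendsto_subseq hmem
  refine ⟨φ, ?_⟩
  have h1 : Tendsto (fun n => (inner ℂ y (κ (w (ns (φ n)))) : ℂ)) atTop (𝓝 0) := by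
    have h2 : ∀ n, (inner ℂ y (κ (w (ns (φ n)))) : ℂ) =
        inner ℂ (ContinuousLinearMap.adjoint κ y) (w (ns (φ n))) := by
      intro n
      rw [ContinuousLinearMap.adjoint_inner_left]
    simp only [h2]
    exact (hw _).comp (hns.comp hφ.tendsto_atTop)
  have h8 : Tendsto (fun n => (inner ℂ y (κ (w (ns (φ n)))) : ℂ)) atTop (𝓝 (inner ℂ y y)) :=
    (tendsto_const_nhds (x := y)).inner hy
  have h9 : (inner ℂ y y : ℂ) = 0 := tendsto_nhds_unique h8 h1
  rw [inner_self_eq_zero] at h9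
  subst h9
  exact hy

theorem uL_of_tendsto {S : ℕ → H →L[ℂ] H} {C : ℝ} (h : ∀ k, ‖S k‖ ≤ C) (L : H →L[ℂ] H)
    (hL : ∀ a b, Tendsto (fun k => (inner ℂ b (S k a) : ℂ)) atTop (𝓝 (inner ℂ b (L a)))) :
    uL S = L := by
  ext a
  refine ext_inner_left ℂ fun b => ?_
  exact tendsto_nhds_unique (uL_tendsto h a b) ((hL a b).mono_left Nat.hyperfilter_le_atTop)

theorem SymS.norm_vec (S : SymS M Z) (j : ℕ) (v : H) : ‖Z j v‖ = ‖v‖ := by
  have h1 : star (Z j) * Z j = 1 := by rw [S.Zs, S.Z2]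
  have h2 : (inner ℂ (Z j v) (Z j v) : ℂ) = inner ℂ v v := by
    rw [← ContinuousLinearMap.adjoint_inner_right]
    have h3 : (ContinuousLinearMap.adjoint (Z j)) (Z j v) = v := by
      have h4 := congrArg (fun T : H →L[ℂ] H => T v) h1
      exact h4
    rw [h3]
  rw [inner_self_eq_norm_sq_to_K, inner_self_eq_norm_sq_to_K] at h2
  have h3 : ‖Z j v‖ ^ 2 = ‖v‖ ^ 2 := by exact_mod_cast h2
  exact (sq_eq_sq₀ (norm_nonneg _) (norm_nonneg _)).1 h3

theorem SymS.norm_le (S : SymS M Z) (j : ℕ) : ‖Z j‖ ≤ 1 := by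
  refine ContinuousLinearMap.opNorm_le_bound _ zero_le_one fun v => ?_
  rw [S.norm_vec, one_mul]

theorem SymS.inner_Z (S : SymS M Z) (j : ℕ) (a b : H) :
    (inner ℂ b (Z j a) : ℂ) = inner ℂ (Z j b) a := by
  have h1 : (inner ℂ b (Z j a) : ℂ) = inner ℂ ((ContinuousLinearMap.adjoint (Z j)) b) a := by
    rw [ContinuousLinearMap.adjoint_inner_left]
  have h2 : ContinuousLinearMap.adjoint (Z j) = Z j := S.Zs j
  rw [h1, h2]

theorem Gam.kZ (A : Gam M ξ Z) (κ : H →L[ℂ] H) (hκ : IsCompactOperator κ) (a b : H) :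
    Tendsto (fun j => (inner ℂ b ((Z j * κ * Z j) a) : ℂ)) atTop (𝓝 0) := by
  have h1 : Tendsto (fun j => κ (Z j a)) atTop (𝓝 0) :=
    kw κ hκ (fun j => Z j a) ‖a‖ (fun j => (A.sym.norm_vec j a).le) (fun c => A.wn a c)
  have h2 : Tendsto (fun j => ‖b‖ * ‖κ (Z j a)‖) atTop (𝓝 0) := by
    have h3 := h1.norm.const_mul ‖b‖
    rw [norm_zero, mul_zero] at h3
    exact h3
  refine squeeze_zero_norm (fun j => ?_) h2
  have h4 : (inner ℂ b ((Z j * κ * Z j) a) : ℂ) = inner ℂ (Z j b) (κ (Z j a)) := by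
    show (inner ℂ b (Z j (κ (Z j a))) : ℂ) = inner ℂ (Z j b) (κ (Z j a))
    rw [A.sym.inner_Z]
  rw [h4]
  calc ‖(inner ℂ (Z j b) (κ (Z j a)) : ℂ)‖ ≤ ‖Z j b‖ * ‖κ (Z j a)‖ := norm_inner_le_norm _ _
    _ = ‖b‖ * ‖κ (Z j a)‖ := by rw [A.sym.norm_vec]

theorem Gam.essZ (A : Gam M ξ Z) (T κ : H →L[ℂ] H) (hκ : IsCompactOperator κ)
    (g : ℕ → ℕ) (hg : StrictMono g) (h : ∀ j, T * Z (g j) = Z (g j) * T) :
    ‖T‖ ≤ ‖T + κ‖ := by
  refine ContinuousLinearMap.opNorm_le_bound _ (norm_nonneg _) fun v => ?_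
  refine ess T κ hκ v (fun j => Z (g j)) (fun j => (A.sym.norm_vec _ _).le)
    (fun j => A.sym.norm_vec _ _) (fun j => ?_) (fun b => ?_)
  · exact congrArg (fun R : H →L[ℂ] H => R v) (h j)
  · exact (A.wn v b).comp hg.tendsto_atTop

end Pool.Agent.HFT
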