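import Pool.Agent.HFT.DefsG

set_option autoImplicit false
set_option linter.unusedSectionVars false

/-! # Module G1 (2 points): the generated von Neumann algebra

`gen S` is the double commutant of `S ∪ star S`: `x ∈ gen S` iff `x` (and `x*`) commutes with every
`y` that commutes with `S ∪ star S`. Compare the construction of `D0` in the finished module P7c
and `mem_relc` in W5. (`StarSubalgebra.mem_centralizer_iff`, `VonNeumannAlgebra` coercions by
`Iff.rfl`/`show`.) `gen_comm`: `x` commutes with the self-adjoint set `S`, so it lies in the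
centralizer of `S ∪ star S`. `gen_abelian`: the elements of `S` commute with `S`, so (`gen_comm`) with
`gen S`; hence every `y ∈ gen S` commutes with `S`, so (`gen_comm` again) with `gen S`. `gen_le`: by
`vn_mem_iff` (HK/VN1): every `y ∈ M.commutant` commutes with `S`, so with `gen S`. -/

namespace Pool.Agent.HFT

open Pool.Agent.HK Filter Topology

variable {H : Type} [NormedAddCommGroup H] [InnerProductSpace ℂ H] [CompleteSpace H]

private theorem g1_mem {S : Set (H →L[ℂ] H)} {x : H →L[ℂ] H} :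
    x ∈ gen S ↔ ∀ g ∈ (StarSubalgebra.centralizer ℂ S : StarSubalgebra ℂ (H →L[ℂ] H)),
      g * x = x * g ∧ star g * x = x * star g := by
  have h1 : x ∈ gen S ↔
      ∀ g ∈ ((StarSubalgebra.centralizer ℂ S : StarSubalgebra ℂ (H →L[ℂ] H)) :
        Set (H →L[ℂ] H)), g * x = x * g ∧ star g * x = x * star g :=
    StarSubalgebra.mem_centralizer_iff ℂ
  rw [h1]
  exact Iff.rfl

private theorem g1_cen {S : Set (H →L[ℂ] H)} {x : H →L[ℂ] H} :
    x ∈ (StarSubalgebra.centralizer ℂ S : StarSubalgebra ℂ (H →L[ℂ] H)) ↔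
      ∀ s ∈ S, s * x = x * s ∧ star s * x = x * star s :=
  StarSubalgebra.mem_centralizer_iff ℂ

theorem gen_sub {S : Set (H →L[ℂ] H)} {s : H →L[ℂ] H} (hs : s ∈ S) : s ∈ gen S := by
  rw [g1_mem]
  intro g hg
  rw [g1_cen] at hg
  obtain ⟨h1, h2⟩ := hg s hs
  refine ⟨h1.symm, ?_⟩
  have h3 := congrArg star h2
  rw [star_mul, star_mul, star_star] at h3
  exact h3

theorem gen_comm {S : Set (H →L[ℂ] H)} (hS : ∀ s ∈ S, star s = s) {x : H →L[ℂ] H}
    (h : ∀ s ∈ S, s * x = x * s) : ∀ d ∈ gen S, d * x = x * d := by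
  intro d hd
  rw [g1_mem] at hd
  refine ((hd x ?_).1).symm
  rw [g1_cen]
  intro s hs
  refine ⟨h s hs, ?_⟩
  rw [hS s hs]
  exact h s hs

theorem gen_abelian {S : Set (H →L[ℂ] H)} (hS : ∀ s ∈ S, star s = s)
    (hc : ∀ s ∈ S, ∀ t ∈ S, s * t = t * s) : ∀ x ∈ gen S, ∀ y ∈ gen S, x * y = y * x := by
  intro x hx y hy
  refine gen_comm hS (fun s hs => ?_) x hx
  exact (gen_comm hS (fun t ht => hc t ht s hs) y hy).symm

theorem gen_le {S : Set (H →L[ℂ] H)} (hS : ∀ s ∈ S, star s = s) {M : VonNeumannAlgebra H}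
    (h : ∀ s ∈ S, s ∈ M) : ∀ d ∈ gen S, d ∈ M := by
  intro d hd
  rw [vn_mem_iff]
  intro y hy
  refine (gen_comm hS (fun s hs => ?_) d hd).symm
  exact (vn_commute (h s hs) hy).symm

theorem gen_mono {S T : Set (H →L[ℂ] H)} (h : S ⊆ T) : ∀ d ∈ gen S, d ∈ gen T := by
  intro d hd
  rw [g1_mem] at hd ⊢
  intro g hg
  refine hd g ?_
  rw [g1_cen] at hg ⊢
  exact fun s hs => hg s (h hs)

end Pool.Agent.HFT
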