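import Pool.Agent.HFT.G0
import Pool.Agent.HFT.Join

set_option autoImplicit false
set_option linter.unusedSectionVars false

/-! # Module G9 (3 points): joins of conjugates

* `proj_ker_unique`: projections with the same kernel are equal: `ker P ⊆ ker P'` gives
  `P' (1 - P) = 0` (`P (y - P y) = 0`), so `P' = P' P`, and `P = P P'`; take adjoints.
* `sym_join`: `W` self-adjoint, `W² = 1`; `P` a projection whose kernel is the intersection of the kernels of
  the `q i` (`i ∈ ι`), and every `W q_i W` is again one of the `q`'s, or more simply: if `W` commutes with each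
  `q i` then `W` commutes with `P`: `W P W` is a projection with kernel `W (ker P)`, and `ker P` is
  invariant under `W` (`q_i W y = W q_i y = 0`). Stated as `join_comm`.
* `gconj_join`: induction on `k`: `h₀ = q`, `h_{i+1}` = `join2` (Join) of `h_i` and `Z i h_i Z i` for
  `i = 0, …, k`. `Z i` exchanges `h_i` and `Z i h_i Z i`, so it leaves the kernel of the join invariant
  and commutes with it; `Z l` for `l < i` and `Z l` for `l ≥ n` commute with both, so with the join
  (`join_comm`). `n2² ` at most doubles (`n2 (Z h Z) ≤ n2 h`). `h q = q`: `h_{i+1} h_i = h_i`. -/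

namespace Pool.Agent.HFT

open Pool.Agent.HK Filter Topology

variable {H : Type} [NormedAddCommGroup H] [InnerProductSpace ℂ H] [CompleteSpace H]
variable {M : VonNeumannAlgebra H} {ξ : ℕ → H} {Z : ℕ → H →L[ℂ] H}

private theorem g9_app {a b c : H →L[ℂ] H} (h : a * b = c) (v : H) : a (b v) = c v :=
  congrArg (fun T : H →L[ℂ] H => T v) h

theorem proj_ker_le {P P' : H →L[ℂ] H} (hP : IsStarProjection P) (hP' : IsStarProjection P')
    (h : ∀ y : H, P y = 0 → P' y = 0) : P' * P = P' ∧ P * P' = P' := by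
  have h1 : P' * P = P' := by
    apply ContinuousLinearMap.ext
    intro v
    show P' (P v) = P' v
    have h2 : P (v - P v) = 0 := by
      rw [map_sub, g9_app hP.isIdempotentElem.eq, sub_self]
    have h3 := h _ h2
    rw [map_sub, sub_eq_zero] at h3
    exact h3.symm
  refine ⟨h1, ?_⟩
  have h2 := congrArg star h1
  rwa [star_mul, hP.isSelfAdjoint.star_eq, hP'.isSelfAdjoint.star_eq] at h2

theorem proj_ker_unique {P P' : H →L[ℂ] H} (hP : IsStarProjection P) (hP' : IsStarProjection P')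
    (h : ∀ y : H, P y = 0 ↔ P' y = 0) : P = P' := by
  have h1 := (proj_ker_le hP hP' (fun y => (h y).1)).1
  have h2 := (proj_ker_le hP' hP (fun y => (h y).2)).2
  rw [← h2, h1]

/-- a symmetry `W` leaving the kernel of `P` invariant commutes with `P` -/
theorem sym_comm {P W : H →L[ℂ] H} (hP : IsStarProjection P) (hW : star W = W) (hW2 : W * W = 1)
    (h : ∀ y : H, P y = 0 → P (W y) = 0) : W * P = P * W := by
  have hPP := hP.isIdempotentElem.eq
  have h1 : P * W * (1 - P) = 0 := by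
    apply ContinuousLinearMap.ext
    intro v
    show P (W ((1 - P) v)) = 0
    apply h
    have : P * (1 - P) = 0 := by rw [mul_sub, mul_one, hPP, sub_self]
    exact congrArg (fun T : H →L[ℂ] H => T v) this
  have h2 : (1 - P) * (W * P) = 0 := by
    have h3 := congrArg star h1
    rw [star_mul, star_mul, star_sub, star_one, hP.isSelfAdjoint.star_eq, hW, star_zero] at h3
    exact h3
  have e1 : P * W = P * W * P := by
    rw [mul_sub, mul_one, sub_eq_zero] at h1
    exact h1
  have e2 : W * P = P * (W * P) := by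
    rw [sub_mul, one_mul, sub_eq_zero] at h2
    exact h2
  rw [e1, e2, mul_assoc]

/-- a symmetry commuting with each `q i` commutes with their join `P` -/
theorem join_comm {ι : Type} {q : ι → H →L[ℂ] H} {P W : H →L[ℂ] H} (hP : IsStarProjection P)
    (hq : ∀ i, IsStarProjection (q i)) (h1 : ∀ i, P * q i = q i)
    (h2 : ∀ y : H, (∀ i, q i y = 0) → P y = 0) (hW : star W = W) (hW2 : W * W = 1)
    (h : ∀ i, W * q i = q i * W) : W * P = P * W := by
  apply sym_comm hP hW hW2
  intro y hy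
  apply h2
  intro i
  have e1 : q i * P = q i := by
    have h3 := congrArg star (h1 i)
    rwa [star_mul, hP.isSelfAdjoint.star_eq, (hq i).isSelfAdjoint.star_eq] at h3
  have e2 : q i y = 0 := by
    rw [← g9_app e1 y, hy, map_zero]
  have e3 : q i (W y) = W (q i y) := (g9_app (h i).symm y)
  rw [e3, e2, map_zero]

private theorem g9_conj_proj {h W : H →L[ℂ] H} (hh : IsStarProjection h) (hW : star W = W)
    (hW2 : W * W = 1) : IsStarProjection (W * h * W) := by
  refine ⟨?_, ?_⟩
  · show W * h * W * (W * h * W) = W * h * W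
    calc W * h * W * (W * h * W) = W * h * (W * W) * h * W := by simp only [mul_assoc]
      _ = W * (h * h) * W := by rw [hW2, mul_one, mul_assoc W h h]
      _ = W * h * W := by rw [hh.isIdempotentElem.eq]
  · show star (W * h * W) = W * h * W
    rw [star_mul, star_mul, hh.isSelfAdjoint.star_eq, hW, mul_assoc]

private theorem g9_norm {W : H →L[ℂ] H} (hW : star W = W) (hW2 : W * W = 1) : ‖W‖ ≤ 1 := by
  have h1 : ‖W‖ * ‖W‖ = ‖star W * W‖ := (CStarRing.norm_star_mul_self).symm
  rw [hW, hW2] at h1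
  have h2 : ‖(1 : H →L[ℂ] H)‖ ≤ 1 := ContinuousLinearMap.norm_id_le
  nlinarith [norm_nonneg W]

private theorem g9_aux (T : TrF M ξ) (S : SymS M Z) (n : ℕ) (q : H →L[ℂ] H) (hqM : q ∈ M)
    (hq : IsStarProjection q) (hc : CZ Z n q) (j : ℕ) (hj : j ≤ n) :
    ∃ h : H →L[ℂ] H, h ∈ M ∧ IsStarProjection h ∧ (∀ i, (i < j ∨ n ≤ i) → Z i * h = h * Z i) ∧
      h * q = q ∧ n2 ξ h ^ 2 ≤ 2 ^ j * n2 ξ q ^ 2 := by
  induction j with
  | zero =>
    refine ⟨q, hqM, hq, ?_, hq.isIdempotentElem.eq, by simp⟩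
    intro i hi
    rcases hi with hi | hi
    · omega
    · exact hc i hi
  | succ j ih =>
    obtain ⟨h, hM, hp, hcm, hhq, hn⟩ := ih (by omega)
    have hrM : Z j * h * Z j ∈ M := mul_mem (mul_mem (S.Zm j) hM) (S.Zm j)
    have hr : IsStarProjection (Z j * h * Z j) := g9_conj_proj hp (S.Zs j) (S.Z2 j)
    obtain ⟨P, hP, hPr, hPh, hPn, hPy⟩ := T.join2 (p := Z j * h * Z j) (q := h) ⟨hrM, hr⟩ ⟨hM, hp⟩
    have hn2 : n2 ξ (Z j * h * Z j) ≤ n2 ξ h := by
      have hZ : ‖Z j‖ ≤ 1 := g9_norm (S.Zs j) (S.Z2 j)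
      have e1 : n2 ξ (Z j * h * Z j) ≤ n2 ξ (Z j * h) * ‖Z j‖ :=
        T.n2_mul_le' (mul_mem (S.Zm j) hM) (S.Zm j)
      have e2 : n2 ξ (Z j * h) ≤ ‖Z j‖ * n2 ξ h := n2_mul_le T.summ _ _
      have e3 := n2_nonneg ξ h
      have e4 := n2_nonneg ξ (Z j * h)
      calc n2 ξ (Z j * h * Z j) ≤ n2 ξ (Z j * h) * ‖Z j‖ := e1
        _ ≤ n2 ξ (Z j * h) * 1 := mul_le_mul_of_nonneg_left hZ e4
        _ = n2 ξ (Z j * h) := mul_one _
        _ ≤ ‖Z j‖ * n2 ξ h := e2
        _ ≤ 1 * n2 ξ h := mul_le_mul_of_nonneg_right hZ e3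
        _ = n2 ξ h := one_mul _
    have hhP : h * P = h := Join_adj hP ⟨hM, hp⟩ ⟨hM, hp⟩ hPh
    have hrP : Z j * h * Z j * P = Z j * h * Z j := Join_adj hP ⟨hrM, hr⟩ ⟨hrM, hr⟩ hPr
    have ky : ∀ y : H, P y = 0 → h y = 0 ∧ (Z j * h * Z j) y = 0 := by
      intro y hy
      constructor
      · rw [← g9_app hhP y, hy, map_zero]
      · rw [← g9_app hrP y, hy, map_zero]
    have hZZ : ∀ v : H, Z j (Z j v) = v := fun v => g9_app (S.Z2 j) v
    refine ⟨P, hP.1, hP.2, ?_, ?_, ?_⟩
    · intro i hi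
      apply sym_comm hP.2 (S.Zs i) (S.Z2 i)
      intro y hy
      obtain ⟨k1, k2⟩ := ky y hy
      have k2' : Z j (h (Z j y)) = 0 := k2
      by_cases hij : i = j
      · subst hij
        apply hPy
        · show Z i (h (Z i (Z i y))) = 0
          rw [hZZ, k1, map_zero]
        · have := congrArg (Z i) k2'
          rw [hZZ, map_zero] at this
          exact this
      · have hi' : i < j ∨ n ≤ i := by omega
        have hc1 := hcm i hi'
        have c1 : ∀ v : H, h (Z i v) = Z i (h v) := fun v => g9_app hc1.symm v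
        have c2 : ∀ v : H, Z j (Z i v) = Z i (Z j v) := fun v => g9_app (S.cZZ j i) v
        apply hPy
        · show Z j (h (Z j (Z i y))) = 0
          rw [c2, c1, c2, k2', map_zero]
        · rw [c1, k1, map_zero]
    · calc P * q = P * (h * q) := by rw [hhq]
        _ = h * q := by rw [← mul_assoc, hPh]
        _ = q := hhq
    · have e5 : n2 ξ (Z j * h * Z j) ^ 2 ≤ n2 ξ h ^ 2 :=
        pow_le_pow_left₀ (n2_nonneg _ _) hn2 2
      have e6 : (2 : ℝ) ^ (j + 1) = 2 ^ j * 2 := pow_succ _ _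
      rw [e6]
      linarith

theorem gconj_join (T : TrF M ξ) (S : SymS M Z) (k n : ℕ) (hkn : k < n) (q : RA M)
    (hq : IsStarProjection q.1) (hc : CZ Z n q.1) :
    ∃ h : RA M, IsStarProjection h.1 ∧ (∀ i, (i ≤ k ∨ n ≤ i) → Z i * h.1 = h.1 * Z i) ∧
      h * q = q ∧ n2 ξ h.1 ^ 2 ≤ 2 ^ (k + 1) * n2 ξ q.1 ^ 2 := by
  obtain ⟨h, hM, hp, h1, h2, h3⟩ := g9_aux T S n q.1 q.2 hq hc (k + 1) (by omega)
  refine ⟨⟨h, hM⟩, hp, ?_, Subtype.ext h2, h3⟩
  intro i hi
  exact h1 i (by omega)

end Pool.Agent.HFT
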