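import Pool.Agent.HFT.NP

set_option autoImplicit false
set_option linter.unusedSectionVars false

/-! # Module Op (3 points): the normal part of an operator valued map

`nT_exists`: for fixed `x` the map `(b, a) ↦ nP T (mel S a b) x` is additive and conjugate
linear in `b`, linear in `a` (`mel` has these properties, `nP_add`, `nP_smul`), and bounded by
`‖S‖ ‖a‖ ‖b‖ ‖x‖` (`‖mel S a b‖ ≤ ‖S‖ ‖a‖ ‖b‖`, `nP_norm`). So there is a unique operator `N x`
with `⟪b, N x a⟫ = nP T (mel S a b) x` (for fixed `a` the conjugate of the form is a bounded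
linear functional of `b`: Riesz, `InnerProductSpace.toDual`; or
`InnerProductSpace.continuousLinearMapOfBilin`, or `LinearMap.mkContinuous₂`), of norm
`≤ ‖S‖ ‖x‖`, and `N` is linear in `x` (`ext_inner_left`). `LinearMap.mkContinuous`.

Everything else: compare matrix elements (`ext_inner_left`), using `nP_add`, `nP_smul`, `nP_lft`,
`nP_rgt`: `mel (cL c S) a b = mel S a (star c b)`, `mel (cR c S) a b = mel S (c a) b`,
`mel (vL y S) a b = lft y (mel S a b)`, `mel (vR y S) a b = rgt y (mel S a b)`.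
`normalT_cR_iL`: `⟪b, x c a⟫`: `‖x c a‖` tends to zero for bounded sequences with `n2 x → 0`
(`TrF.sot`), so the functional is normal (`normal_of_seq`). Same for `cL`:
`⟪b, c x a⟫ = ⟪c* b, x a⟫`. -/

namespace Pool.Agent.HFT

open Pool.Agent.HK Filter Topology

variable {H : Type} [NormedAddCommGroup H] [InnerProductSpace ℂ H] [CompleteSpace H]
variable {M : VonNeumannAlgebra H} {ξ : ℕ → H}

theorem mel_norm (S : RA M →L[ℂ] (H →L[ℂ] H)) (a b : H) :
    ‖mel S a b‖ ≤ ‖S‖ * (‖a‖ * ‖b‖) := by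
  refine ContinuousLinearMap.opNorm_le_bound _ (by positivity) (fun x => ?_)
  rw [mel_apply]
  calc ‖(inner ℂ b (S x a) : ℂ)‖ ≤ ‖b‖ * ‖S x a‖ := norm_inner_le_norm _ _
    _ ≤ ‖b‖ * (‖S x‖ * ‖a‖) := by gcongr; exact ContinuousLinearMap.le_opNorm _ _
    _ ≤ ‖b‖ * (‖S‖ * ‖x‖ * ‖a‖) := by gcongr; exact ContinuousLinearMap.le_opNorm _ _
    _ = ‖S‖ * (‖a‖ * ‖b‖) * ‖x‖ := by ring

private theorem mel_add_left (S : RA M →L[ℂ] (H →L[ℂ] H)) (a a' b : H) :
    mel S (a + a') b = mel S a b + mel S a' b := by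
  ext x; simp [mel_apply]

private theorem mel_add_right (S : RA M →L[ℂ] (H →L[ℂ] H)) (a b b' : H) :
    mel S a (b + b') = mel S a b + mel S a b' := by
  ext x; simp [mel_apply]

private theorem mel_smul_left (S : RA M →L[ℂ] (H →L[ℂ] H)) (c : ℂ) (a b : H) :
    mel S (c • a) b = c • mel S a b := by
  ext x; simp [mel_apply]

private theorem mel_smul_right (S : RA M →L[ℂ] (H →L[ℂ] H)) (c : ℂ) (a b : H) :
    mel S a (c • b) = (starRingEnd ℂ) c • mel S a b := by
  ext x; simp [mel_apply, mul_comm]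

private theorem mel_add (S S' : RA M →L[ℂ] (H →L[ℂ] H)) (a b : H) :
    mel (S + S') a b = mel S a b + mel S' a b := by
  ext x; simp [mel_apply]

private theorem mel_smul (S : RA M →L[ℂ] (H →L[ℂ] H)) (c : ℂ) (a b : H) :
    mel (c • S) a b = c • mel S a b := by
  ext x; simp [mel_apply]

private theorem op_sub_eq (S S' : RA M →L[ℂ] (H →L[ℂ] H)) : S - S' = S + (-1 : ℂ) • S' := by
  ext x a; simp [sub_eq_add_neg]

private theorem mel_ext {S S' : RA M →L[ℂ] (H →L[ℂ] H)}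
    (h : ∀ a b : H, mel S a b = mel S' a b) : S = S' := by
  ext x a
  refine ext_inner_left ℂ (fun b => ?_)
  exact congrArg (fun ω : RA M →L[ℂ] ℂ => ω x) (h a b)

private theorem mel_nP_le (T : TrF M ξ) (S : RA M →L[ℂ] (H →L[ℂ] H)) (a b : H) (x : RA M) :
    ‖nP T (mel S a b) x‖ ≤ ‖S‖ * ‖x‖ * ‖b‖ * ‖a‖ := by
  calc ‖nP T (mel S a b) x‖ ≤ ‖nP T (mel S a b)‖ * ‖x‖ := ContinuousLinearMap.le_opNorm _ _
    _ ≤ ‖mel S a b‖ * ‖x‖ := by gcongr; exact nP_norm T _
    _ ≤ ‖S‖ * (‖a‖ * ‖b‖) * ‖x‖ := by gcongr; exact mel_norm S a b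
    _ = ‖S‖ * ‖x‖ * ‖b‖ * ‖a‖ := by ring

/-- the sesquilinear form -/
private noncomputable def op_B (T : TrF M ξ) (S : RA M →L[ℂ] (H →L[ℂ] H)) (x : RA M) :
    H →L⋆[ℂ] H →L[ℂ] ℂ :=
  LinearMap.mkContinuous₂
    (LinearMap.mk₂'ₛₗ (starRingEnd ℂ) (RingHom.id ℂ) (fun b a => nP T (mel S a b) x)
      (fun b b' a => by rw [mel_add_right, nP_add]; rfl)
      (fun c b a => by rw [mel_smul_right, nP_smul]; rfl)
      (fun b a a' => by rw [mel_add_left, nP_add]; rfl)
      (fun c b a => by rw [mel_smul_left, nP_smul]; rfl))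
    (‖S‖ * ‖x‖) (fun b a => mel_nP_le T S a b x)

private theorem op_B_apply (T : TrF M ξ) (S : RA M →L[ℂ] (H →L[ℂ] H)) (x : RA M) (b a : H) :
    op_B T S x b a = nP T (mel S a b) x := rfl

/-- the operator -/
private noncomputable def op_N (T : TrF M ξ) (S : RA M →L[ℂ] (H →L[ℂ] H)) (x : RA M) :
    H →L[ℂ] H :=
  ContinuousLinearMap.adjoint (InnerProductSpace.continuousLinearMapOfBilin (op_B T S x))

private theorem op_N_inner (T : TrF M ξ) (S : RA M →L[ℂ] (H →L[ℂ] H)) (x : RA M) (a b : H) :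
    (inner ℂ b (op_N T S x a) : ℂ) = nP T (mel S a b) x := by
  rw [op_N, ContinuousLinearMap.adjoint_inner_right,
    InnerProductSpace.continuousLinearMapOfBilin_apply, op_B_apply]

private theorem op_N_norm (T : TrF M ξ) (S : RA M →L[ℂ] (H →L[ℂ] H)) (x : RA M) :
    ‖op_N T S x‖ ≤ ‖S‖ * ‖x‖ := by
  refine ContinuousLinearMap.opNorm_le_bound _ (by positivity) (fun a => ?_)
  by_cases h0 : op_N T S x a = 0
  · rw [h0, norm_zero]; positivity
  · have hp : 0 < ‖op_N T S x a‖ := norm_pos_iff.2 h0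
    have h1 : ‖(inner ℂ (op_N T S x a) (op_N T S x a) : ℂ)‖ = ‖op_N T S x a‖ * ‖op_N T S x a‖ := by
      rw [inner_self_eq_norm_sq_to_K, norm_pow, ← sq]
      simp
    have h2 := mel_nP_le T S a (op_N T S x a) x
    rw [← op_N_inner, h1] at h2
    have h3 : ‖op_N T S x a‖ * ‖op_N T S x a‖ ≤ (‖S‖ * ‖x‖ * ‖a‖) * ‖op_N T S x a‖ := by
      calc _ ≤ _ := h2
        _ = _ := by ring
    exact le_of_mul_le_mul_right h3 hp

theorem nT_exists (T : TrF M ξ) (S : RA M →L[ℂ] (H →L[ℂ] H)) :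
    ∃ N : RA M →L[ℂ] (H →L[ℂ] H), (∀ a b : H, mel N a b = nP T (mel S a b)) ∧ ‖N‖ ≤ ‖S‖ := by
  let L : RA M →ₗ[ℂ] (H →L[ℂ] H) :=
    { toFun := op_N T S
      map_add' := fun x y => by
        ext a
        refine ext_inner_left ℂ (fun b => ?_)
        rw [op_N_inner, add_apply, inner_add_right, op_N_inner, op_N_inner,
          map_add]
      map_smul' := fun c x => by
        ext a
        refine ext_inner_left ℂ (fun b => ?_)
        rw [op_N_inner, RingHom.id_apply, smul_apply, inner_smul_right,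
          op_N_inner, map_smul, smul_eq_mul] }
  refine ⟨L.mkContinuous ‖S‖ (fun x => op_N_norm T S x), fun a b => ?_,
    LinearMap.mkContinuous_norm_le _ (norm_nonneg _) _⟩
  ext x
  exact op_N_inner T S x a b

/-- the normal part of an operator valued map -/
noncomputable def nT (T : TrF M ξ) (S : RA M →L[ℂ] (H →L[ℂ] H)) : RA M →L[ℂ] (H →L[ℂ] H) :=
  (nT_exists T S).choose

theorem nT_mel (T : TrF M ξ) (S : RA M →L[ℂ] (H →L[ℂ] H)) (a b : H) :
    mel (nT T S) a b = nP T (mel S a b) := (nT_exists T S).choose_spec.1 a b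

theorem nT_norm (T : TrF M ξ) (S : RA M →L[ℂ] (H →L[ℂ] H)) : ‖nT T S‖ ≤ ‖S‖ :=
  (nT_exists T S).choose_spec.2

theorem nT_normal (T : TrF M ξ) (S : RA M →L[ℂ] (H →L[ℂ] H)) : NormalT ξ (nT T S) := by
  intro a b
  rw [nT_mel]
  exact nP_normal T _

theorem nT_of_normal (T : TrF M ξ) {S : RA M →L[ℂ] (H →L[ℂ] H)} (h : NormalT ξ S) :
    nT T S = S := by
  refine mel_ext (fun a b => ?_)
  rw [nT_mel, nP_of_normal T (h a b)]

theorem nT_add (T : TrF M ξ) (S S' : RA M →L[ℂ] (H →L[ℂ] H)) :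
    nT T (S + S') = nT T S + nT T S' := by
  refine mel_ext (fun a b => ?_)
  rw [nT_mel, mel_add, nP_add, mel_add, nT_mel, nT_mel]

theorem nT_sub (T : TrF M ξ) (S S' : RA M →L[ℂ] (H →L[ℂ] H)) :
    nT T (S - S') = nT T S - nT T S' := by
  refine mel_ext (fun a b => ?_)
  rw [nT_mel, op_sub_eq, mel_add, nP_add, mel_smul, nP_smul, op_sub_eq, mel_add, mel_smul,
    nT_mel, nT_mel]

theorem nT_smul (T : TrF M ξ) (c : ℂ) (S : RA M →L[ℂ] (H →L[ℂ] H)) :
    nT T (c • S) = c • nT T S := by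
  refine mel_ext (fun a b => ?_)
  rw [nT_mel, mel_smul, nP_smul, mel_smul, nT_mel]

theorem nT_cL (T : TrF M ξ) (c : H →L[ℂ] H) (S : RA M →L[ℂ] (H →L[ℂ] H)) :
    nT T (cL c S) = cL c (nT T S) := by
  have key : ∀ (R : RA M →L[ℂ] (H →L[ℂ] H)) (a b : H),
      mel (cL c R) a b = mel R a (star c b) := by
    intro R a b
    ext x
    rw [mel_apply, mel_apply, cL_apply, ContinuousLinearMap.mul_apply,
      ContinuousLinearMap.star_eq_adjoint, ContinuousLinearMap.adjoint_inner_left]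
  refine mel_ext (fun a b => ?_)
  rw [nT_mel, key, key, nT_mel]

theorem nT_cR (T : TrF M ξ) (c : H →L[ℂ] H) (S : RA M →L[ℂ] (H →L[ℂ] H)) :
    nT T (cR c S) = cR c (nT T S) := by
  have key : ∀ (R : RA M →L[ℂ] (H →L[ℂ] H)) (a b : H),
      mel (cR c R) a b = mel R (c a) b := by
    intro R a b
    ext x
    rfl
  refine mel_ext (fun a b => ?_)
  rw [nT_mel, key, key, nT_mel]

theorem nT_vL (T : TrF M ξ) (y : RA M) (S : RA M →L[ℂ] (H →L[ℂ] H)) :
    nT T (vL y S) = vL y (nT T S) := by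
  have key : ∀ (R : RA M →L[ℂ] (H →L[ℂ] H)) (a b : H),
      mel (vL y R) a b = lft y (mel R a b) := by
    intro R a b
    ext x
    rfl
  refine mel_ext (fun a b => ?_)
  rw [nT_mel, key, key, nP_lft, nT_mel]

theorem nT_vR (T : TrF M ξ) (y : RA M) (S : RA M →L[ℂ] (H →L[ℂ] H)) :
    nT T (vR y S) = vR y (nT T S) := by
  have key : ∀ (R : RA M →L[ℂ] (H →L[ℂ] H)) (a b : H),
      mel (vR y R) a b = rgt y (mel R a b) := by
    intro R a b
    ext x
    rfl
  refine mel_ext (fun a b => ?_)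
  rw [nT_mel, key, key, nP_rgt, nT_mel]

theorem NormalT.add {S S' : RA M →L[ℂ] (H →L[ℂ] H)} (h : NormalT ξ S) (h' : NormalT ξ S') :
    NormalT ξ (S + S') := by
  intro a b
  rw [mel_add]
  exact (h a b).add (h' a b)

theorem NormalT.sub {S S' : RA M →L[ℂ] (H →L[ℂ] H)} (h : NormalT ξ S) (h' : NormalT ξ S') :
    NormalT ξ (S - S') := by
  intro a b
  rw [op_sub_eq, mel_add, mel_smul]
  exact (h a b).add ((h' a b).smul _)

/-- `x ↦ x c` is normal -/
theorem normalT_cR_iL (T : TrF M ξ) (c : H →L[ℂ] H) : NormalT ξ (cR c (iL M)) := by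
  intro a b
  refine normal_of_seq (fun y hy hl => ?_)
  have h1 : Tendsto (fun m => (y m).1 (c a)) atTop (𝓝 0) :=
    T.sot (fun m => (y m).1) (fun m => (y m).2) 1 hy hl (c a)
  have h2 : Tendsto (fun m => (inner ℂ b ((y m).1 (c a)) : ℂ)) atTop (𝓝 (inner ℂ b (0 : H))) :=
    (tendsto_const_nhds).inner h1
  rw [inner_zero_right] at h2
  exact h2

/-- `x ↦ c x` is normal -/
theorem normalT_cL_iL (T : TrF M ξ) (c : H →L[ℂ] H) : NormalT ξ (cL c (iL M)) := by
  intro a b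
  refine normal_of_seq (fun y hy hl => ?_)
  have h1 : Tendsto (fun m => (y m).1 a) atTop (𝓝 0) :=
    T.sot (fun m => (y m).1) (fun m => (y m).2) 1 hy hl a
  have h3 : Tendsto (fun m => c ((y m).1 a)) atTop (𝓝 (c 0)) :=
    (c.continuous.tendsto 0).comp h1
  have h2 : Tendsto (fun m => (inner ℂ b (c ((y m).1 a)) : ℂ)) atTop (𝓝 (inner ℂ b (c 0))) :=
    (tendsto_const_nhds).inner h3
  rw [map_zero, inner_zero_right] at h2
  exact h2

/-- weak continuity of a normal map on bounded sequences -/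
theorem NormalT.seq {S : RA M →L[ℂ] (H →L[ℂ] H)} (h : NormalT ξ S) (T : TrF M ξ) (y : ℕ → RA M)
    (x : RA M) (C : ℝ) (hC : ∀ m, ‖y m‖ ≤ C)
    (hy : Tendsto (fun m => n2 ξ ((y m).1 - x.1)) atTop (𝓝 0)) (a b : H) :
    Tendsto (fun m => (inner ℂ b (S (y m) a) : ℂ)) atTop (𝓝 (inner ℂ b (S x a))) := by
  have h1 : Tendsto (fun m => mel S a b (y m - x)) atTop (𝓝 0) :=
    (h a b).seq (fun m => y m - x) (C + ‖x‖)
      (fun m => (norm_sub_le _ _).trans (by gcongr; exact hC m)) hy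
  have h2 : Tendsto (fun m => mel S a b (y m - x) + mel S a b x) atTop
      (𝓝 (0 + mel S a b x)) := h1.add tendsto_const_nhds
  rw [zero_add] at h2
  refine h2.congr (fun m => ?_)
  rw [map_sub, sub_add_cancel, mel_apply]

end Pool.Agent.HFT
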