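import Pool.Agent.HFT.G8
import Pool.Agent.HFT.G9
import Pool.Agent.HFT.Cut
import Pool.Agent.HFT.W5
import Pool.Agent.HFT.Op

set_option autoImplicit false
set_option linter.unusedSectionVars false

/-! # Module G10 (4 points): one hump

Compare the finished module P8a (`hump_step`). Let `y_m = Em Z m y` (in `M`, `‖y_m‖ ≤ 1`, commutes
with `Z j` for `j ≥ m`, `n2 (y_m - y) → 0`; `ψ (y_m)` compact by `hA`). Fix `η > 0` with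
`‖ψ‖ * (2 η) ≤ c/8` and choose `m > k` with `n2 (y_m - y)` tiny. `hnc` for the compact operator
`- ψ (y_m)`: `v` with `‖v‖ = 1`, `v ⊥ F`, `c ≤ ‖(ψ y - ψ y_m) v‖`. Let
`b = (ψ y - ψ y_m) v / ‖(ψ y - ψ y_m) v‖`, `‖b‖ = 1`, `c ≤ Re ⟪b, (ψ y - ψ y_m) v⟫`. By `NormalT.seq`
`⟪b, ψ (y_n) v⟫ → ⟪b, ψ y v⟫`: take `n > m` with `3c/4 ≤ ‖⟪b, ψ (y_n - y_m) v⟫‖` and `n2 (y_n - y)` tiny.
`s' = y_n - y_m ∈ N`, where `N = relc M {Z j | n ≤ j}` (W5: `mem_relc`; `n > m`), `‖s'‖ ≤ 2`. `TrF.cut` in `N`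
(`TrF.mono`) for `s'`, `η`: a projection `q ∈ N` with `‖s' - q s' q‖ ≤ 2 η`, `η² n2 (q)² ≤ 2 n2 (s')²`.
`s = q s' q`, `‖s‖ ≤ 2`, `CZ Z n s`, and `‖⟪b, ψ s v⟫‖ ≥ 3c/4 - ‖ψ‖ (2 η) ≥ c/2`. `gconj_join` for `q`, `k < n`:
`h` with `h q = q`, so `h s h = s`, `n2 (h)² ≤ 2^(k+1) n2 (q)² ≤ 2^(k+1) 2 n2 (s')²/η² ≤ δ²` if
`n2 (s') ≤ n2 (y_n - y) + n2 (y_m - y)` was chosen small enough. -/

namespace Pool.Agent.HFT

open Pool.Agent.HK Filter Topology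

variable {H : Type} [NormedAddCommGroup H] [InnerProductSpace ℂ H] [CompleteSpace H]
variable {M : VonNeumannAlgebra H} {ξ : ℕ → H} {Z : ℕ → H →L[ℂ] H}

/-- the positions `≥ n` -/
private def g10S (Z : ℕ → H →L[ℂ] H) (n : ℕ) : Set (H →L[ℂ] H) :=
  {x | ∃ i, n ≤ i ∧ x = Z i}

private theorem g10_mem (S : SymS M Z) {n : ℕ} {x : H →L[ℂ] H} :
    x ∈ relc M (g10S Z n) ↔ x ∈ M ∧ CZ Z n x := by
  rw [mem_relc]
  constructor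
  · rintro ⟨h1, h2⟩
    exact ⟨h1, fun i hi => (h2 _ ⟨i, hi, rfl⟩).1⟩
  · rintro ⟨h1, h2⟩
    refine ⟨h1, ?_⟩
    rintro s ⟨i, hi, rfl⟩
    rw [S.Zs]
    exact ⟨h2 i hi, h2 i hi⟩

private theorem g10_mul {n : ℕ} {x y : H →L[ℂ] H} (hx : CZ Z n x) (hy : CZ Z n y) :
    CZ Z n (x * y) := fun j hj => by
  rw [← mul_assoc, hx j hj, mul_assoc, hy j hj, mul_assoc]

private theorem g10_sub {n : ℕ} {x y : H →L[ℂ] H} (hx : CZ Z n x) (hy : CZ Z n y) :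
    CZ Z n (x - y) := fun j hj => by
  rw [mul_sub, sub_mul, hx j hj, hy j hj]

theorem ghump (A : Gam M ξ Z) (ψ : RA M →L[ℂ] (H →L[ℂ] H)) (hA : HA Z ψ)
    (hN : NormalT ξ ψ) (y : RA M) (hy : ‖y‖ ≤ 1) (c : ℝ) (hc : 0 < c)
    (hnc : ∀ κ : H →L[ℂ] H, IsCompactOperator κ → ∀ F : Finset H,
      ∃ v : H, ‖v‖ = 1 ∧ (∀ x ∈ F, inner ℂ x v = (0 : ℂ)) ∧ c ≤ ‖(ψ y + κ) v‖)
    (k : ℕ) (F : Finset H) (δ : ℝ) (hδ : 0 < δ) :
    ∃ (n : ℕ) (h s : RA M) (v b : H), k < n ∧ IsStarProjection h.1 ∧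
      (∀ i, (i ≤ k ∨ n ≤ i) → Z i * h.1 = h.1 * Z i) ∧ n2 ξ h.1 ≤ δ ∧ CZ Z n s.1 ∧
      h * s * h = s ∧ ‖s‖ ≤ 2 ∧ ‖v‖ = 1 ∧ ‖b‖ = 1 ∧ (∀ x ∈ F, inner ℂ x v = (0 : ℂ)) ∧
      c / 2 ≤ ‖(inner ℂ b (ψ s v) : ℂ)‖ := by
  classical
  have hSp := A.sym
  obtain ⟨L, hL⟩ : ∃ L : ℝ, L = ‖ψ‖ + 1 := ⟨_, rfl⟩
  have hL0 : 0 < L := by rw [hL]; positivity
  obtain ⟨η, hη⟩ : ∃ η : ℝ, η = c / (8 * L) := ⟨_, rfl⟩
  have hη0 : 0 < η := by rw [hη]; positivity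
  have hηψ : ‖ψ‖ * (2 * η) ≤ c / 4 := by
    have h1 : ‖ψ‖ ≤ L := by rw [hL]; linarith
    have h2 : L * (2 * η) = c / 4 := by rw [hη]; field_simp; ring
    calc ‖ψ‖ * (2 * η) ≤ L * (2 * η) := mul_le_mul_of_nonneg_right h1 (by positivity)
      _ = c / 4 := h2
  obtain ⟨τ, hτ⟩ : ∃ τ : ℝ, τ = δ * η / (8 * 2 ^ (k + 1)) := ⟨_, rfl⟩
  have hτ0 : 0 < τ := by rw [hτ]; positivity
  -- the expectations as elements of the algebra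
  obtain ⟨E, hE⟩ : ∃ E : ℕ → RA M, ∀ m, (E m).1 = Em Z m y.1 :=
    ⟨fun m => ⟨Em Z m y.1, Em_mem hSp m y.2⟩, fun _ => rfl⟩
  have hEt : Tendsto (fun m => n2 ξ ((E m).1 - y.1)) atTop (𝓝 0) := by
    have h1 := Em_tendsto A y.2
    refine h1.congr (fun m => ?_)
    rw [hE]
  have hEn : ∀ m, ‖E m‖ ≤ 1 := by
    intro m
    have h1 : ‖E m‖ = ‖(E m).1‖ := rfl
    rw [h1, hE]
    exact (Em_norm hSp m y.1).trans hy
  have hECP : ∀ m, CZ Z m (E m).1 := by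
    intro m
    rw [hE]
    exact Em_CZ hSp m y.1
  have hev : ∀ᶠ m in atTop, n2 ξ ((E m).1 - y.1) ≤ τ := hEt.eventually_le_const hτ0
  obtain ⟨m, hm1, hm2⟩ := (hev.and (Filter.eventually_gt_atTop k)).exists
  have hEc : IsCompactOperator (ψ (E m)) := hA m (E m) (hECP m)
  obtain ⟨v, hv1, hv2, hv3⟩ := hnc (-(ψ (E m))) hEc.neg F
  obtain ⟨w, hw⟩ : ∃ w : RA M, w = y - E m := ⟨_, rfl⟩
  have hψw : ψ w = ψ y + -(ψ (E m)) := by rw [hw, map_sub, sub_eq_add_neg]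
  rw [← hψw] at hv3
  have hpos : 0 < ‖ψ w v‖ := lt_of_lt_of_le hc hv3
  obtain ⟨b, hb⟩ : ∃ b : H, b = ((‖ψ w v‖⁻¹ : ℝ) : ℂ) • ψ w v := ⟨_, rfl⟩
  have hb1 : ‖b‖ = 1 := by
    rw [hb, norm_smul, Complex.norm_real, norm_inv, norm_norm]
    exact inv_mul_cancel₀ hpos.ne'
  have hbw : ‖(inner ℂ b (ψ w v) : ℂ)‖ = ‖ψ w v‖ := by
    rw [hb, inner_smul_left, inner_self_eq_norm_sq_to_K, norm_mul]
    simp only [Complex.conj_ofReal, Complex.norm_real, norm_inv, norm_norm]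
    rw [norm_pow]
    have h1 : ‖((‖ψ w v‖ : ℝ) : ℂ)‖ = ‖ψ w v‖ := by
      rw [Complex.norm_real, norm_norm]
    have h2 : (RCLike.ofReal ‖ψ w v‖ : ℂ) = ((‖ψ w v‖ : ℝ) : ℂ) := rfl
    rw [h2, h1]
    field_simp
  -- the second index
  have hseq : Tendsto (fun j => (inner ℂ b (ψ (E j - E m) v) : ℂ)) atTop
      (𝓝 (inner ℂ b (ψ w v))) := by
    refine hN.seq A.trf (fun j => E j - E m) w 2 (fun j => ?_) ?_ v b
    · calc ‖E j - E m‖ ≤ ‖E j‖ + ‖E m‖ := norm_sub_le _ _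
        _ ≤ 1 + 1 := add_le_add (hEn j) (hEn m)
        _ = 2 := by norm_num
    · refine hEt.congr (fun j => ?_)
      congr 1
      rw [hw]
      show (E j).1 - y.1 = ((E j).1 - (E m).1) - (y.1 - (E m).1)
      abel
  have hseq2 : ∀ᶠ j in atTop, 3 * c / 4 ≤ ‖(inner ℂ b (ψ (E j - E m) v) : ℂ)‖ := by
    have h1 := hseq.norm
    have h2 : 3 * c / 4 < ‖(inner ℂ b (ψ w v) : ℂ)‖ := by
      rw [hbw]
      linarith
    exact (h1.eventually_const_lt h2).mono (fun j hj => hj.le)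
  obtain ⟨n, ⟨hn1, hn2⟩, hn3⟩ := ((hseq2.and hev).and (Filter.eventually_gt_atTop m)).exists
  obtain ⟨V, hV⟩ : ∃ V : RA M, V = E n - E m := ⟨_, rfl⟩
  rw [← hV] at hn1
  have hVn : ‖V‖ ≤ 2 := by
    rw [hV]
    calc ‖E n - E m‖ ≤ ‖E n‖ + ‖E m‖ := norm_sub_le _ _
      _ ≤ 1 + 1 := add_le_add (hEn n) (hEn m)
      _ = 2 := by norm_num
  have hV2 : n2 ξ V.1 ≤ 2 * τ := by
    have e : V.1 = ((E n).1 - y.1) - ((E m).1 - y.1) := by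
      rw [hV]
      show (E n).1 - (E m).1 = _
      abel
    rw [e]
    refine (n2_sub_le A.trf.summ _ _).trans ?_
    linarith
  have hVCP : CZ Z n V.1 := by
    rw [hV]
    exact g10_sub (hECP n) (fun i hi => hECP m i (hn3.le.trans hi))
  have TF : TrF (relc M (g10S Z n)) ξ := A.trf.mono (fun x hx => ((g10_mem hSp).mp hx).1)
  have hVF : V.1 ∈ relc M (g10S Z n) := (g10_mem hSp).mpr ⟨V.2, hVCP⟩
  obtain ⟨q0, hq1, hq2, hq3⟩ := TF.cut V.1 hVF η hη0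
  have hq0m := (g10_mem hSp).mp hq1.1
  obtain ⟨q, hq⟩ : ∃ q : RA M, q.1 = q0 := ⟨⟨q0, hq0m.1⟩, rfl⟩
  rw [← hq] at hq1 hq2 hq3 hq0m
  have hkn : k < n := hm2.trans hn3
  obtain ⟨h, h1, h2, h3, h4⟩ := gconj_join A.trf hSp k n hkn q hq1.2 hq0m.2
  have hqs : star q.1 = q.1 := hq1.2.isSelfAdjoint.star_eq
  have hhs : star h.1 = h.1 := h1.isSelfAdjoint.star_eq
  have h3' : q * h = q := by
    apply Subtype.ext
    have e := congrArg star (congrArg Subtype.val h3)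
    have e2 : star (h.1 * q.1) = star q.1 := e
    rw [star_mul, hqs, hhs] at e2
    exact e2
  -- the size of `h`
  have hhn : n2 ξ h.1 ≤ δ := by
    have e1 : n2 ξ V.1 ^ 2 ≤ (2 * τ) ^ 2 := pow_le_pow_left₀ (n2_nonneg ξ _) hV2 2
    have e2 : η ^ 2 * n2 ξ q.1 ^ 2 ≤ 8 * τ ^ 2 := by nlinarith
    have e0 : (2 : ℝ) ^ (k + 1) ≤ 4 ^ (k + 1) := pow_le_pow_left₀ (by norm_num) (by norm_num) _
    have e3 : η ^ 2 * n2 ξ h.1 ^ 2 ≤ 4 ^ (k + 1) * (8 * τ ^ 2) := by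
      calc η ^ 2 * n2 ξ h.1 ^ 2 ≤ η ^ 2 * (2 ^ (k + 1) * n2 ξ q.1 ^ 2) :=
            mul_le_mul_of_nonneg_left h4 (by positivity)
        _ = 2 ^ (k + 1) * (η ^ 2 * n2 ξ q.1 ^ 2) := by ring
        _ ≤ 2 ^ (k + 1) * (8 * τ ^ 2) := mul_le_mul_of_nonneg_left e2 (by positivity)
        _ ≤ 4 ^ (k + 1) * (8 * τ ^ 2) := mul_le_mul_of_nonneg_right e0 (by positivity)
    have e4 : (4 : ℝ) ^ (k + 1) * (8 * τ ^ 2) = η ^ 2 * (δ ^ 2 / 8) := by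
      have e5 : (4 : ℝ) ^ (k + 1) = (2 ^ (k + 1)) ^ 2 := by
        rw [← pow_mul, mul_comm (k + 1) 2, pow_mul]
        norm_num
      rw [hτ, e5]
      field_simp
    rw [e4] at e3
    have e6 : n2 ξ h.1 ^ 2 ≤ δ ^ 2 / 8 := le_of_mul_le_mul_left e3 (by positivity)
    have e7 : n2 ξ h.1 ^ 2 ≤ δ ^ 2 := by nlinarith [sq_nonneg δ]
    exact (sq_le_sq₀ (n2_nonneg ξ _) hδ.le).mp e7
  -- the new piece
  obtain ⟨s', hs'⟩ : ∃ s' : RA M, s' = q * V * q := ⟨_, rfl⟩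
  have hs1 : h * s' * h = s' := by
    rw [hs']
    calc h * (q * V * q) * h = (h * q) * V * (q * h) := by simp only [mul_assoc]
      _ = q * V * q := by rw [h3, h3']
  have hqn : ‖q‖ ≤ 1 := IsStarProjection.norm_le q.1 hq1.2
  have hs2 : ‖s'‖ ≤ 2 := by
    rw [hs']
    calc ‖q * V * q‖ ≤ ‖q * V‖ * ‖q‖ := norm_mul_le _ _
      _ ≤ (‖q‖ * ‖V‖) * ‖q‖ := mul_le_mul_of_nonneg_right (norm_mul_le _ _) (norm_nonneg _)
      _ ≤ (1 * 2) * 1 := by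
          apply mul_le_mul _ hqn (norm_nonneg _) (by norm_num)
          exact mul_le_mul hqn hVn (norm_nonneg _) (by norm_num)
      _ = 2 := by norm_num
  have hs3 : CZ Z n s'.1 := by
    rw [hs']
    exact g10_mul (g10_mul hq0m.2 hVCP) hq0m.2
  have hβ : c / 2 ≤ ‖(inner ℂ b (ψ s' v) : ℂ)‖ := by
    have e1 : ψ s' = ψ V - ψ (V - s') := by rw [map_sub]; abel
    have e2 : (inner ℂ b (ψ s' v) : ℂ) = inner ℂ b (ψ V v) - inner ℂ b (ψ (V - s') v) := by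
      rw [e1, sub_apply, inner_sub_right]
    have e3 : ‖(inner ℂ b (ψ (V - s') v) : ℂ)‖ ≤ c / 4 := by
      have e4 : ‖V - s'‖ ≤ 2 * η := by
        rw [hs']
        exact hq2
      calc ‖(inner ℂ b (ψ (V - s') v) : ℂ)‖ ≤ ‖b‖ * ‖ψ (V - s') v‖ := norm_inner_le_norm _ _
        _ = ‖ψ (V - s') v‖ := by rw [hb1, one_mul]
        _ ≤ ‖ψ (V - s')‖ * ‖v‖ := ContinuousLinearMap.le_opNorm _ _
        _ = ‖ψ (V - s')‖ := by rw [hv1, mul_one]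
        _ ≤ ‖ψ‖ * ‖V - s'‖ := ContinuousLinearMap.le_opNorm _ _
        _ ≤ ‖ψ‖ * (2 * η) := mul_le_mul_of_nonneg_left e4 (norm_nonneg _)
        _ ≤ c / 4 := hηψ
    rw [e2]
    have e5 := norm_sub_norm_le (inner ℂ b (ψ V v) : ℂ) (inner ℂ b (ψ (V - s') v))
    linarith
  exact ⟨n, h, s', v, b, hkn, h1, h2, hhn, hs3, hs1, hs2, hv1, hb1, hv2, hβ⟩

end Pool.Agent.HFT
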