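import Pool.Agent.HFT.G10

set_option autoImplicit false
set_option linter.unusedSectionVars false

/-! # Module G11 (4 points): the sequence of humps

Compare the finished module P8b (`hump_seq`). Recursion with `ghump`: given
`n j`, the vectors `v i` (`i < j`) and `r j > 0`, take from `ghump` with `k = n j`, `F = {v i | i < j}`,
`δ = r j / 2`: `n (j+1)`, `h j`, `s j`, `v j`, `b j`. Then choose `r (j+1) > 0`, `r (j+1) ≤ r j / 2`, so small that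
`‖x‖ ≤ 4`, `n2 x ≤ 8 r (j+1)` imply `‖⟪b j, ψ x (v j)⟫‖ ≤ c/8` (`hN (v j) (b j)` : `NormalF`, scaled by `4`).
`ρ = r`: `∑_{i<m} n2 (h (j+i))² ≤ ∑ (r (j+i)/2)² ≤ (r j)²/4 ∑ 4^{-i} ≤ (r j)²`, `ρ j ≤ r 0 / 2^j → 0`.
`StrictMono n` from `n j < n (j+1)`. Orthonormal: `v j ⊥ v i` for `i < j` (`inner ℂ (v i) (v j) = 0`; the
other order by conjugation), norm one. -/

namespace Pool.Agent.HFT

open Pool.Agent.HK Filter Topology

variable {H : Type} [NormedAddCommGroup H] [InnerProductSpace ℂ H] [CompleteSpace H]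
variable {M : VonNeumannAlgebra H} {ξ : ℕ → H} {Z : ℕ → H →L[ℂ] H}

/-- data of a sequence of humps -/
structure Hs (ξ : ℕ → H) (Z : ℕ → H →L[ℂ] H) (n : ℕ → ℕ) (h s : ℕ → RA M) (ρ : ℕ → ℝ) :
    Prop where
  mono : StrictMono n
  hp : ∀ j, IsStarProjection (h j).1
  hc : ∀ j l, Z (n l) * (h j).1 = (h j).1 * Z (n l)
  sc : ∀ j, CZ Z (n (j + 1)) (s j).1
  hs : ∀ j, h j * s j * h j = s j
  sn : ∀ j, ‖s j‖ ≤ 2
  ρ0 : ∀ j, 0 ≤ ρ j
  ρs : ∀ j m, ∑ i ∈ Finset.range m, n2 ξ (h (j + i)).1 ^ 2 ≤ ρ j ^ 2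
  ρt : Tendsto ρ atTop (𝓝 0)

/-- states of the recursion -/
private structure G11St (M : VonNeumannAlgebra H) where
  n : ℕ
  F : Finset H
  r : ℝ
  hr : 0 < r

/-- output of one step -/
private structure G11Out (M : VonNeumannAlgebra H) where
  h : RA M
  s : RA M
  v : H
  b : H
  τ : G11St M

/-- the properties of one step -/
private def G11Rel (ξ : ℕ → H) (Z : ℕ → H →L[ℂ] H) (ψ : RA M →L[ℂ] (H →L[ℂ] H)) (c : ℝ)
    (σ : G11St M) (o : G11Out M) : Prop :=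
  σ.n < o.τ.n ∧ IsStarProjection o.h.1 ∧ (∀ i, (i ≤ σ.n ∨ o.τ.n ≤ i) → Z i * o.h.1 = o.h.1 * Z i) ∧
    n2 ξ o.h.1 ≤ σ.r / 2 ∧ CZ Z o.τ.n o.s.1 ∧ o.h * o.s * o.h = o.s ∧ ‖o.s‖ ≤ 2 ∧
    ‖o.v‖ = 1 ∧ ‖o.b‖ = 1 ∧ (∀ x ∈ σ.F, inner ℂ x o.v = (0 : ℂ)) ∧
    c / 2 ≤ ‖(inner ℂ o.b (ψ o.s o.v) : ℂ)‖ ∧
    (∀ x, x ∈ o.τ.F ↔ x = o.v ∨ x ∈ σ.F) ∧ o.τ.r ≤ σ.r / 2 ∧
    ∀ x : RA M, ‖x‖ ≤ 4 → n2 ξ x.1 ≤ 8 * o.τ.r → ‖(inner ℂ o.b (ψ x o.v) : ℂ)‖ ≤ c / 8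

private theorem G11_normal_mod {ω : RA M →L[ℂ] ℂ} (h : NormalF ξ ω) {c : ℝ} (hc : 0 < c) :
    ∃ μ : ℝ, 0 < μ ∧ ∀ x : RA M, ‖x‖ ≤ 4 → n2 ξ x.1 ≤ 4 * μ → ‖ω x‖ ≤ c := by
  obtain ⟨μ, hμ, hx⟩ := h (c / 4) (by positivity)
  refine ⟨μ, hμ, fun x hx1 hx2 => ?_⟩
  have h4 : ‖(4 : ℂ)⁻¹‖ = 1 / 4 := by
    rw [norm_inv]; norm_num
  have h1 : ‖(4 : ℂ)⁻¹ • x‖ ≤ 1 := by
    rw [norm_smul, h4]
    linarith
  have h2 : n2 ξ ((4 : ℂ)⁻¹ • x).1 ≤ μ := by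
    have : ((4 : ℂ)⁻¹ • x).1 = (4 : ℂ)⁻¹ • x.1 := rfl
    rw [this, n2_smul, h4]
    linarith
  have h3 := hx _ h1 h2
  rw [map_smul, norm_smul, h4] at h3
  linarith

private theorem G11_rel (A : Gam M ξ Z) (ψ : RA M →L[ℂ] (H →L[ℂ] H)) (hA : HA Z ψ)
    (hN : NormalT ξ ψ) (y : RA M) (hy : ‖y‖ ≤ 1) (c : ℝ) (hc : 0 < c)
    (hnc : ∀ κ : H →L[ℂ] H, IsCompactOperator κ → ∀ F : Finset H,
      ∃ v : H, ‖v‖ = 1 ∧ (∀ x ∈ F, inner ℂ x v = (0 : ℂ)) ∧ c ≤ ‖(ψ y + κ) v‖) (σ : G11St M) :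
    ∃ o : G11Out M, G11Rel ξ Z ψ c σ o := by
  classical
  obtain ⟨n, h, s, v, b, h1, h2, h3, h4, h5, h6, h7, h8, h9, h10, h11⟩ :=
    ghump A ψ hA hN y hy c hc hnc σ.n σ.F (σ.r / 2) (half_pos σ.hr)
  obtain ⟨μ, hμ, hx⟩ := G11_normal_mod (hN v b) (c := c / 8) (by positivity)
  refine ⟨⟨h, s, v, b, ⟨n, insert v σ.F, min (σ.r / 2) (μ / 2),
    lt_min (half_pos σ.hr) (half_pos hμ)⟩⟩, h1, h2, h3, h4, h5, h6, h7, h8, h9, h10, h11, ?_,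
    min_le_left _ _, ?_⟩
  · intro x
    exact Finset.mem_insert
  · intro x hx1 hx2
    have h12 : min (σ.r / 2) (μ / 2) ≤ μ / 2 := min_le_right _ _
    exact hx x hx1 (by
      have : n2 ξ x.1 ≤ 8 * min (σ.r / 2) (μ / 2) := hx2
      linarith)

theorem ghump_seq (A : Gam M ξ Z) (ψ : RA M →L[ℂ] (H →L[ℂ] H)) (hA : HA Z ψ)
    (hN : NormalT ξ ψ) (y : RA M) (hy : ‖y‖ ≤ 1) (c : ℝ) (hc : 0 < c)
    (hnc : ∀ κ : H →L[ℂ] H, IsCompactOperator κ → ∀ F : Finset H,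
      ∃ v : H, ‖v‖ = 1 ∧ (∀ x ∈ F, inner ℂ x v = (0 : ℂ)) ∧ c ≤ ‖(ψ y + κ) v‖) :
    ∃ (n : ℕ → ℕ) (h s : ℕ → RA M) (ρ : ℕ → ℝ) (v b : ℕ → H), Hs ξ Z n h s ρ ∧
      Orthonormal ℂ v ∧ (∀ j, ‖b j‖ = 1) ∧
      (∀ j, c / 2 ≤ ‖(inner ℂ (b j) (ψ (s j) (v j)) : ℂ)‖) ∧
      ∀ j, ∀ x : RA M, ‖x‖ ≤ 4 → n2 ξ x.1 ≤ 8 * ρ (j + 1) →
        ‖(inner ℂ (b j) (ψ x (v j)) : ℂ)‖ ≤ c / 8 := by
  classical
  choose f hf using G11_rel A ψ hA hN y hy c hc hnc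
  let σ : ℕ → G11St M := fun j => Nat.rec ⟨0, ∅, 1, one_pos⟩ (fun _ τ => (f τ).τ) j
  have hσ0 : σ 0 = ⟨0, ∅, 1, one_pos⟩ := rfl
  have hσ : ∀ j, σ (j + 1) = (f (σ j)).τ := fun j => rfl
  have hr : ∀ j, G11Rel ξ Z ψ c (σ j) (f (σ j)) := fun j => hf (σ j)
  have hδ : ∀ j, (σ (j + 1)).r ≤ (σ j).r / 2 := by
    intro j
    obtain ⟨-, -, -, -, -, -, -, -, -, -, -, -, h14, -⟩ := hr j
    exact h14
  have hpos : ∀ j, 0 < (σ j).r := fun j => (σ j).hr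
  have hδ2 : ∀ j i, (σ (j + i)).r ≤ (σ j).r * (1 / 2) ^ i := by
    intro j i
    induction i with
    | zero => simp
    | succ i ih =>
      have h1 := hδ (j + i)
      have h2 : (1 / 2 : ℝ) ^ (i + 1) = (1 / 2) ^ i / 2 := by rw [pow_succ]; ring
      rw [h2]
      have h3 : σ (j + (i + 1)) = σ (j + i + 1) := rfl
      rw [h3]
      linarith
  have hn2 : ∀ j i, n2 ξ ((f (σ (j + i))).h).1 ≤ (σ j).r / 2 * (1 / 2) ^ i := by
    intro j i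
    obtain ⟨-, -, -, h4, -⟩ := hr (j + i)
    have h5 := hδ2 j i
    linarith
  have hF : ∀ j x, x ∈ (σ j).F ↔ ∃ i < j, x = (f (σ i)).v := by
    intro j
    induction j with
    | zero =>
      intro x
      constructor
      · intro hx
        exact absurd hx (Finset.notMem_empty x)
      · rintro ⟨i, hi, -⟩
        exact absurd hi (Nat.not_lt_zero i)
    | succ j ih =>
      intro x
      obtain ⟨-, -, -, -, -, -, -, -, -, -, -, h13, -⟩ := hr j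
      rw [hσ, h13 x, ih x]
      constructor
      · rintro (hx | ⟨i, hi, hx⟩)
        · exact ⟨j, Nat.lt_succ_self j, hx⟩
        · exact ⟨i, Nat.lt_succ_of_lt hi, hx⟩
      · rintro ⟨i, hi, hx⟩
        rcases Nat.lt_succ_iff_lt_or_eq.mp hi with hi | rfl
        · exact Or.inr ⟨i, hi, hx⟩
        · exact Or.inl hx
  have hmono : StrictMono (fun j => (σ j).n) := strictMono_nat_of_lt_succ (fun j => (hr j).1)
  refine ⟨fun j => (σ j).n, fun j => (f (σ j)).h, fun j => (f (σ j)).s, fun j => (σ j).r,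
    fun j => (f (σ j)).v, fun j => (f (σ j)).b, ?_, ?_, ?_, ?_, ?_⟩
  · refine ⟨hmono, fun j => (hr j).2.1, ?_, fun j => (hr j).2.2.2.2.1, fun j => (hr j).2.2.2.2.2.1,
      fun j => (hr j).2.2.2.2.2.2.1, fun j => (hpos j).le, ?_, ?_⟩
    · intro j l
      refine (hr j).2.2.1 ((σ l).n) ?_
      rcases Nat.lt_or_ge j l with h1 | h1
      · right
        have h2 : (σ (j + 1)).n ≤ (σ l).n := hmono.monotone h1
        exact h2
      · left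
        exact hmono.monotone h1
    · intro j m
      have h1 : ∀ i ∈ Finset.range m, n2 ξ ((f (σ (j + i))).h).1 ^ 2 ≤
          ((σ j).r / 2) ^ 2 * (1 / 2) ^ i := by
        intro i _
        have h2 := hn2 j i
        have h3 := n2_nonneg ξ ((f (σ (j + i))).h).1
        have h4 : n2 ξ ((f (σ (j + i))).h).1 ^ 2 ≤ ((σ j).r / 2 * (1 / 2) ^ i) ^ 2 :=
          pow_le_pow_left₀ h3 h2 2
        refine h4.trans ?_
        rw [mul_pow]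
        refine mul_le_mul_of_nonneg_left ?_ (sq_nonneg _)
        have h5 : (0 : ℝ) ≤ (1 / 2) ^ i := by positivity
        have h6 : (1 / 2 : ℝ) ^ i ≤ 1 := pow_le_one₀ (by norm_num) (by norm_num)
        rw [sq]
        exact mul_le_of_le_one_left h5 h6
      refine (Finset.sum_le_sum h1).trans ?_
      rw [← Finset.mul_sum]
      have h2 : ∑ i ∈ Finset.range m, (1 / 2 : ℝ) ^ i ≤ 2 := by
        have := sum_geometric_two_le m
        simpa using this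
      have h3 : ((σ j).r / 2) ^ 2 * ∑ i ∈ Finset.range m, (1 / 2 : ℝ) ^ i ≤
          ((σ j).r / 2) ^ 2 * 2 :=
        mul_le_mul_of_nonneg_left h2 (sq_nonneg _)
      have h4 : ((σ j).r / 2) ^ 2 * 2 = (σ j).r ^ 2 / 2 := by ring
      have h5 := sq_nonneg (σ j).r
      change _ ≤ (σ j).r ^ 2
      rw [h4] at h3
      linarith
    · have h1 : Tendsto (fun j : ℕ => (1 / 2 : ℝ) ^ j) atTop (𝓝 0) :=
        tendsto_pow_atTop_nhds_zero_of_lt_one (by norm_num) (by norm_num)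
      refine squeeze_zero (fun j => ?_) (fun j => ?_) h1
      · exact (hpos j).le
      · have h2 := hδ2 0 j
        rw [zero_add, hσ0] at h2
        change (σ j).r ≤ 1 * (1 / 2) ^ j at h2
        change (σ j).r ≤ _
        linarith
  · rw [orthonormal_iff_ite]
    have hlt : ∀ i j, i < j → (inner ℂ ((f (σ i)).v) ((f (σ j)).v) : ℂ) = 0 := by
      intro i j hij
      obtain ⟨-, -, -, -, -, -, -, -, -, h10, -⟩ := hr j
      exact h10 _ ((hF j _).2 ⟨i, hij, rfl⟩)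
    intro i j
    rcases lt_trichotomy i j with hij | hij | hij
    · rw [if_neg hij.ne]
      exact hlt i j hij
    · subst hij
      rw [if_pos rfl]
      have h8 : ‖(f (σ i)).v‖ = 1 := (hr i).2.2.2.2.2.2.2.1
      rw [inner_self_eq_norm_sq_to_K, h8]
      simp
    · rw [if_neg hij.ne']
      exact inner_eq_zero_symm.1 (hlt j i hij)
  · intro j
    exact (hr j).2.2.2.2.2.2.2.2.1
  · intro j
    exact (hr j).2.2.2.2.2.2.2.2.2.2.1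
  · intro j x hx1 hx2
    exact (hr j).2.2.2.2.2.2.2.2.2.2.2.2.2 x hx1 hx2

end Pool.Agent.HFT
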