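import Pool.Agent.HFT.G11

set_option autoImplicit false
set_option linter.unusedSectionVars false

/-! # Module G12 (5 points): disjoint blocks

`Tj` = join of the `h i`, `i ≥ j`: `TrF.joinN` (Join) for `fun i => h (j + i)`, with `s = ρ j ^ 2`:
`T j ∈ M` projection, `T j * h i = h i` for `i ≥ j`, `n2 (T j) ≤ ρ j`, and `T j y = 0` if `h i y = 0` for all
`i ≥ j` (and conversely: `h i = h i T j`). So `ker (T j) ⊆ ker (T (j+1))` and `T (j+1) T j = T (j+1) = T j T (j+1)`
(`proj_ker_le`, G9). `T j` commutes with `Z (n l)` (`join_comm`, G9).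
`T j` is the join of `h j` and `T (j+1)`: `join2` gives `P` with the same kernel, `P = T j`
(`proj_ker_unique`), so `n2 (T j)² ≤ n2 (h j)² + n2 (T (j+1))²`; since `h j ≤ T j`,
`n2 (T j)² = n2 (h j)² + n2 (T j - h j)²` (`n2_orth`), so `n2 (T j - h j) ≤ n2 (T (j+1)) ≤ ρ (j+1)`.
`p 0 = 1 - T 0`, `p (j+1) = T j - T (j+1)`: projections, pairwise orthogonal, commuting with `Z (n l)`;
`∑_{j ≤ m} p j = 1 - T m`, and `T m v → 0` (`TrF.sot`), so `∑ p j v = v` (`HasSum` : for orthogonal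
projections; e.g. the partial sums over `range` converge and `‖p j v‖²` is summable; or use
`exists_sum` (HK/VN2) with `a = p` to get `HasSum (p j v) (T v)` and identify `T v = v` by the partial
sums).
`a 0 = 0`, `a (j+1) = p (j+1) * s j * p (j+1)`; `‖a j‖ ≤ 2`; `a (j+1)` commutes with `Z (n l)` for
`l ≥ j + 1` (`Hs.sc`, `n` monotone). With `p = p (j+1)`, `h = h j`, `p - h = (T j - h j) - T (j+1)`,
`n2 (p - h) ≤ 2 ρ (j+1)`; `a (j+1) - s j = p s p - h s h = (p - h) s p + h s (p - h)`: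
`n2 ≤ 2 * 2 * 2 ρ (j+1) = 8 ρ (j+1)` (`TrF.n2_mul_le'`, `n2_mul_le`; `‖s‖ ≤ 2`). -/

namespace Pool.Agent.HFT

open Pool.Agent.HK Filter Topology

variable {H : Type} [NormedAddCommGroup H] [InnerProductSpace ℂ H] [CompleteSpace H]
variable {M : VonNeumannAlgebra H} {ξ : ℕ → H} {Z : ℕ → H →L[ℂ] H}

/-- blocks along a subsequence of the `Z j` -/
structure Bk (Z : ℕ → H →L[ℂ] H) (C : ℝ) (n : ℕ → ℕ) (p a : ℕ → RA M) : Prop where
  mono : StrictMono n
  pp : ∀ j, IsStarProjection (p j).1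
  po : ∀ i j, i ≠ j → p i * p j = 0
  ps : ∀ v : H, HasSum (fun j => (p j).1 v) v
  pc : ∀ j l, Z (n l) * (p j).1 = (p j).1 * Z (n l)
  pa : ∀ j, p j * a j = a j
  ap : ∀ j, a j * p j = a j
  an : ∀ j, ‖a j‖ ≤ C
  ac : ∀ j l, j ≤ l → Z (n l) * (a j).1 = (a j).1 * Z (n l)

private theorem G12_norm {p : H →L[ℂ] H} (hp : IsStarProjection p) : ‖p‖ ≤ 1 := by
  have h1 : ‖p‖ = ‖p‖ * ‖p‖ := by
    have h2 : ‖star p * p‖ = ‖p‖ * ‖p‖ := CStarRing.norm_star_mul_self
    rw [hp.isSelfAdjoint.star_eq, hp.isIdempotentElem.eq] at h2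
    exact h2
  by_contra h
  push Not at h
  nlinarith [norm_nonneg p]

private theorem G12_pair (A : Gam M ξ Z) {n : ℕ → ℕ} {h s : ℕ → RA M} {ρ : ℕ → ℝ}
    (S : Hs ξ Z n h s ρ) :
    ∃ T : ℕ → H →L[ℂ] H, (∀ j, PJ M (T j)) ∧
      (∀ j y, T j y = 0 ↔ ∀ i, (h (j + i)).1 y = 0) ∧ (∀ j, T j * (h j).1 = (h j).1) ∧
      (∀ j, (h j).1 * T j = (h j).1) ∧
      (∀ j, n2 ξ (T j) ≤ ρ j) ∧ (∀ j l, Z (n l) * T j = T j * Z (n l)) := by
  have hPJ : ∀ i, PJ M (h i).1 := fun i => ⟨(h i).2, S.hp i⟩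
  choose T hT h1 h2 h3 using fun j : ℕ =>
    A.trf.joinN (fun i => (h (j + i)).1) (fun i => hPJ _) (ρ j ^ 2) (S.ρs j)
  have h4 : ∀ j i, (h (j + i)).1 * T j = (h (j + i)).1 := fun j i =>
    Join_adj (hT j) (hPJ _) (hPJ _) (h1 j i)
  refine ⟨T, hT, ?_, fun j => h1 j 0, fun j => h4 j 0, ?_, ?_⟩
  · intro j y
    refine ⟨fun hy i => ?_, h3 j y⟩
    have h5 := congrArg (fun R : H →L[ℂ] H => R y) (h4 j i)
    have h6 : (h (j + i)).1 (T j y) = (h (j + i)).1 y := h5
    rw [← h6, hy, map_zero]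
  · intro j
    exact (sq_le_sq₀ (n2_nonneg _ _) (S.ρ0 j)).mp (h2 j)
  · intro j l
    exact join_comm (q := fun i => (h (j + i)).1) (hT j).2 (fun i => S.hp _) (h1 j) (h3 j)
      (A.sym.Zs _) (A.sym.Z2 _) (fun i => S.hc _ _)

theorem Hs.blocks (A : Gam M ξ Z) {n : ℕ → ℕ} {h s : ℕ → RA M} {ρ : ℕ → ℝ}
    (S : Hs ξ Z n h s ρ) :
    ∃ p a : ℕ → RA M, Bk Z 2 n p a ∧
      ∀ j, ‖a (j + 1) - s j‖ ≤ 4 ∧ n2 ξ (a (j + 1) - s j).1 ≤ 8 * ρ (j + 1) := by
  obtain ⟨T, hT, hk, hTh, hhT, hTn, hTZ⟩ := G12_pair A S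
  have hsum := A.trf.summ
  have hPJ : ∀ i, PJ M (h i).1 := fun i => ⟨(h i).2, S.hp i⟩
  -- monotonicity
  have hmono : ∀ i j, i ≤ j → T j * T i = T j ∧ T i * T j = T j := by
    intro i j hij
    refine proj_ker_le (hT i).2 (hT j).2 fun y hy => ?_
    rw [hk] at hy ⊢
    intro k
    have h1 := hy (j - i + k)
    have h2 : i + (j - i + k) = j + k := by omega
    rwa [h2] at h1
  have hidem : ∀ j, T j * T j = T j := fun j => (hT j).2.isIdempotentElem.eq
  have hsa : ∀ j, star (T j) = T j := fun j => (hT j).2.isSelfAdjoint.star_eq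
  -- `T j` is the join of `h j` and `T (j+1)`
  have hgap : ∀ j, n2 ξ (T j - (h j).1) ≤ ρ (j + 1) := by
    intro j
    obtain ⟨P, hP, hP1, hP2, hP3, hP4⟩ := A.trf.join2 (hPJ j) (hT (j + 1))
    have hP5 : (h j).1 * P = (h j).1 := Join_adj hP (hPJ j) (hPJ j) hP1
    have hP6 : T (j + 1) * P = T (j + 1) := Join_adj hP (hT (j + 1)) (hT (j + 1)) hP2
    have hPT : P = T j := by
      refine proj_ker_unique hP.2 (hT j).2 fun y => ?_
      constructor
      · intro hy
        rw [hk]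
        have h1 : (h j).1 y = 0 := by
          have h5 : (h j).1 (P y) = (h j).1 y := congrArg (fun R : H →L[ℂ] H => R y) hP5
          rw [← h5, hy, map_zero]
        have h2 : T (j + 1) y = 0 := by
          have h5 : T (j + 1) (P y) = T (j + 1) y := congrArg (fun R : H →L[ℂ] H => R y) hP6
          rw [← h5, hy, map_zero]
        rw [hk] at h2
        intro i
        cases i with
        | zero => exact h1
        | succ i =>
          have h3 := h2 i
          have h4 : j + 1 + i = j + (i + 1) := by omega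
          rwa [h4] at h3
      · intro hy
        rw [hk] at hy
        refine hP4 y (hy 0) ?_
        rw [hk]
        intro i
        have h3 := hy (i + 1)
        have h4 : j + (i + 1) = j + 1 + i := by omega
        rwa [h4] at h3
    rw [hPT] at hP3
    have horth : star (h j).1 * (T j - (h j).1) = 0 := by
      rw [(S.hp j).isSelfAdjoint.star_eq, mul_sub, hhT, (S.hp j).isIdempotentElem.eq, sub_self]
    have h5 := n2_orth hsum (h j).1 (T j - (h j).1) horth
    rw [add_sub_cancel] at h5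
    have h6 : n2 ξ (T j - (h j).1) ^ 2 ≤ n2 ξ (T (j + 1)) ^ 2 := by linarith
    have h7 : n2 ξ (T j - (h j).1) ≤ n2 ξ (T (j + 1)) :=
      (sq_le_sq₀ (n2_nonneg _ _) (n2_nonneg _ _)).mp h6
    exact h7.trans (hTn (j + 1))
  -- the decreasing sequence `T'`
  obtain ⟨T', hT'0, hT's⟩ : ∃ T' : ℕ → H →L[ℂ] H, T' 0 = 1 ∧ ∀ j, T' (j + 1) = T j :=
    ⟨fun k => Nat.casesOn k 1 T, rfl, fun j => rfl⟩
  have hT'P : ∀ j, PJ M (T' j) := by
    intro j
    cases j with
    | zero => rw [hT'0]; exact ⟨one_mem M, IsStarProjection.one _⟩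
    | succ j => rw [hT's]; exact hT j
  have hT'm : ∀ i j, i ≤ j → T' j * T' i = T' j ∧ T' i * T' j = T' j := by
    intro i j hij
    cases i with
    | zero => rw [hT'0, mul_one, one_mul]; exact ⟨rfl, rfl⟩
    | succ i =>
      cases j with
      | zero => omega
      | succ j => rw [hT's, hT's]; exact hmono i j (by omega)
  have hT'Z : ∀ j l, Z (n l) * T' j = T' j * Z (n l) := by
    intro j l
    cases j with
    | zero => rw [hT'0, mul_one, one_mul]
    | succ j => rw [hT's]; exact hTZ j l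
  have hT'd : ∀ j, (T' j - T' (j + 1)) * (T' j - T' (j + 1)) = T' j - T' (j + 1) := by
    intro j
    have h1 := hT'm j (j + 1) (Nat.le_succ j)
    have h2 := (hT'm j j le_rfl).1
    have h3 := (hT'm (j + 1) (j + 1) le_rfl).1
    rw [sub_mul, mul_sub, mul_sub, h1.1, h1.2, h2, h3, sub_self, sub_zero]
  obtain ⟨p, hp⟩ : ∃ p : ℕ → RA M, ∀ j, (p j).1 = T' j - T' (j + 1) :=
    ⟨fun j => ⟨T' j - T' (j + 1), sub_mem (hT'P j).1 (hT'P (j + 1)).1⟩, fun j => rfl⟩
  have hpp : ∀ j, IsStarProjection (p j).1 := by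
    intro j
    rw [hp]
    refine ⟨hT'd j, ?_⟩
    exact (hT'P j).2.isSelfAdjoint.sub (hT'P (j + 1)).2.isSelfAdjoint
  have hpid : ∀ j, p j * p j = p j := fun j => Subtype.ext (hpp j).isIdempotentElem.eq
  have hlt : ∀ i j, i < j → (p i).1 * (p j).1 = 0 ∧ (p j).1 * (p i).1 = 0 := by
    intro i j hij
    rw [hp, hp]
    have a1 := hT'm i j hij.le
    have a2 := hT'm (i + 1) j hij
    have a3 := hT'm i (j + 1) (by omega)
    have a4 := hT'm (i + 1) (j + 1) (by omega)
    constructor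
    · rw [sub_mul, mul_sub, mul_sub, a1.2, a2.2, a3.2, a4.2]; abel
    · rw [sub_mul, mul_sub, mul_sub, a1.1, a2.1, a3.1, a4.1]; abel
  have hpo' : ∀ i j, i ≠ j → (p i).1 * (p j).1 = 0 := by
    intro i j hij
    rcases Nat.lt_or_gt_of_ne hij with h1 | h1
    · exact (hlt i j h1).1
    · exact (hlt j i h1).2
  have hpo : ∀ i j, i ≠ j → p i * p j = 0 := fun i j hij => Subtype.ext (hpo' i j hij)
  -- partial sums
  have hpart : ∀ m (v : H), ∑ j ∈ Finset.range m, (p j).1 v = v - T' m v := by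
    intro m v
    induction m with
    | zero => rw [Finset.sum_range_zero, hT'0]; simp
    | succ m ih =>
      rw [Finset.sum_range_succ, ih, hp]
      show v - T' m v + (T' m v - T' (m + 1) v) = v - T' (m + 1) v
      abel
  have hTlim : ∀ v : H, Tendsto (fun m => T m v) atTop (𝓝 0) := fun v =>
    A.trf.sot T (fun m => (hT m).1) 1 (fun m => G12_norm (hT m).2)
      (squeeze_zero (fun m => n2_nonneg _ _) hTn S.ρt) v
  have hT'lim : ∀ v : H, Tendsto (fun m => T' m v) atTop (𝓝 0) := by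
    intro v
    rw [← tendsto_add_atTop_iff_nat 1]
    simp only [hT's]
    exact hTlim v
  have hps : ∀ v : H, HasSum (fun j => (p j).1 v) v := by
    obtain ⟨R, _, hR⟩ := exists_sum (fun j => (p j).1) (fun j => (p j).1) hpp hpo'
      (fun j => (hpp j).isIdempotentElem.eq) (fun j => (hpp j).isIdempotentElem.eq)
      (fun j => G12_norm (hpp j))
    intro v
    have h1 := (hR v).tendsto_sum_nat
    have h2 : Tendsto (fun m => ∑ j ∈ Finset.range m, (p j).1 v) atTop (𝓝 v) := by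
      simp only [hpart]
      have h3 := (tendsto_const_nhds (x := v)).sub (hT'lim v)
      rwa [sub_zero] at h3
    have h3 : R v = v := tendsto_nhds_unique h1 h2
    have h4 := hR v
    rwa [h3] at h4
  have hpZ : ∀ j l, Z (n l) * (p j).1 = (p j).1 * Z (n l) := by
    intro j l
    rw [hp, mul_sub, sub_mul, hT'Z, hT'Z]
  obtain ⟨a, ha0, has⟩ : ∃ a : ℕ → RA M, a 0 = 0 ∧ ∀ j, a (j + 1) = p (j + 1) * s j * p (j + 1) :=
    ⟨fun k => Nat.casesOn k 0 fun j => p (j + 1) * s j * p (j + 1), rfl, fun j => rfl⟩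
  have hpn : ∀ j, ‖p j‖ ≤ 1 := fun j => G12_norm (hpp j)
  have han : ∀ j, ‖a j‖ ≤ 2 := by
    intro j
    cases j with
    | zero => rw [ha0, norm_zero]; norm_num
    | succ j =>
      rw [has]
      have h1 : ‖p (j + 1) * s j * p (j + 1)‖ ≤ ‖p (j + 1)‖ * ‖s j‖ * ‖p (j + 1)‖ :=
        (norm_mul_le _ _).trans (mul_le_mul_of_nonneg_right (norm_mul_le _ _) (norm_nonneg _))
      have h2 := hpn (j + 1)
      have h3 := S.sn j
      have h4 : ‖p (j + 1)‖ * ‖s j‖ ≤ 1 * 2 :=
        mul_le_mul h2 h3 (norm_nonneg _) (by norm_num)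
      have h5 : ‖p (j + 1)‖ * ‖s j‖ * ‖p (j + 1)‖ ≤ (1 * 2) * 1 :=
        mul_le_mul h4 h2 (norm_nonneg _) (by norm_num)
      linarith
  refine ⟨p, a, ⟨S.mono, hpp, hpo, hps, hpZ, ?_, ?_, han, ?_⟩, ?_⟩
  · intro j
    cases j with
    | zero => rw [ha0, mul_zero]
    | succ j => rw [has, ← mul_assoc, ← mul_assoc, hpid]
  · intro j
    cases j with
    | zero => rw [ha0, zero_mul]
    | succ j => rw [has, mul_assoc, hpid]
  · intro j l hjl
    cases j with
    | zero =>
      rw [ha0]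
      show Z (n l) * 0 = 0 * Z (n l)
      rw [mul_zero, zero_mul]
    | succ j =>
      rw [has]
      show Z (n l) * ((p (j + 1)).1 * (s j).1 * (p (j + 1)).1)
        = (p (j + 1)).1 * (s j).1 * (p (j + 1)).1 * Z (n l)
      have h1 : Z (n l) * (s j).1 = (s j).1 * Z (n l) := S.sc j (n l) (S.mono.monotone hjl)
      have h2 := hpZ (j + 1) l
      calc Z (n l) * ((p (j + 1)).1 * (s j).1 * (p (j + 1)).1)
          = (Z (n l) * (p (j + 1)).1) * (s j).1 * (p (j + 1)).1 := by simp only [mul_assoc]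
        _ = (p (j + 1)).1 * (Z (n l) * (s j).1) * (p (j + 1)).1 := by
            rw [h2]; simp only [mul_assoc]
        _ = (p (j + 1)).1 * (s j).1 * (Z (n l) * (p (j + 1)).1) := by
            rw [h1]; simp only [mul_assoc]
        _ = _ := by rw [h2]; simp only [mul_assoc]
  · intro j
    constructor
    · refine (norm_sub_le _ _).trans ?_
      have h1 := han (j + 1)
      have h2 := S.sn j
      linarith
    · have hPh : n2 ξ ((p (j + 1)).1 - (h j).1) ≤ 2 * ρ (j + 1) := by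
        have h1 : (p (j + 1)).1 - (h j).1 = (T j - (h j).1) - T (j + 1) := by
          rw [hp, hT's, hT's]; abel
        rw [h1]
        refine (n2_sub_le hsum _ _).trans ?_
        have h2 := hgap j
        have h3 := hTn (j + 1)
        linarith
      have hid : (a (j + 1) - s j).1 = ((p (j + 1)).1 - (h j).1) * ((s j).1 * (p (j + 1)).1)
          + ((h j).1 * (s j).1) * ((p (j + 1)).1 - (h j).1) := by
        have h1 : (h j).1 * (s j).1 * (h j).1 = (s j).1 := congrArg Subtype.val (S.hs j)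
        have h2 : (a (j + 1) - s j).1 = (p (j + 1)).1 * (s j).1 * (p (j + 1)).1 - (s j).1 := by
          rw [has]; rfl
        rw [h2, sub_mul, mul_sub, h1]
        simp only [mul_assoc]
        abel
      rw [hid]
      have hs2 : ‖(s j).1‖ ≤ 2 := S.sn j
      have hp1 : ‖(p (j + 1)).1‖ ≤ 1 := hpn (j + 1)
      have hh1 : ‖(h j).1‖ ≤ 1 := G12_norm (S.hp j)
      have hd0 := n2_nonneg ξ ((p (j + 1)).1 - (h j).1)
      have e1 : n2 ξ (((p (j + 1)).1 - (h j).1) * ((s j).1 * (p (j + 1)).1))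
          ≤ n2 ξ ((p (j + 1)).1 - (h j).1) * 2 := by
        refine (A.trf.n2_mul_le' (sub_mem (p (j + 1)).2 (h j).2)
          (mul_mem (s j).2 (p (j + 1)).2)).trans ?_
        refine mul_le_mul_of_nonneg_left ?_ hd0
        refine (norm_mul_le _ _).trans ?_
        have := mul_le_mul hs2 hp1 (norm_nonneg _) (by norm_num)
        linarith
      have e2 : n2 ξ (((h j).1 * (s j).1) * ((p (j + 1)).1 - (h j).1))
          ≤ 2 * n2 ξ ((p (j + 1)).1 - (h j).1) := by
        refine (n2_mul_le hsum _ _).trans ?_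
        refine mul_le_mul_of_nonneg_right ?_ hd0
        refine (norm_mul_le _ _).trans ?_
        have := mul_le_mul hh1 hs2 (norm_nonneg _) (by norm_num)
        linarith
      refine (n2_add_le hsum _ _).trans ?_
      linarith

end Pool.Agent.HFT
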