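import Pool.Agent.HFT.G8
import Pool.Agent.HFT.G12

set_option autoImplicit false
set_option linter.unusedSectionVars false

/-! # Module G13 (5 points): compactness at sums of blocks

Compare the finished module P7c (`sparse_compact`); this is simpler.
`S0 = {p j} ∪ {p j * Z (n l) | j ≤ l}` (as operators): self-adjoint (`p j` commutes with `Z (n l)`) and pairwise
commuting (`p i p j = 0` for `i ≠ j`). `D0 = gen S0` (G1): commutative, contained in `M`; its elements
commute with every `Z (n l)`, so `ψ` is compact valued on `D0` by `gfree` (G8) with `g = n`.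
`hess`: `R` commutes with `D0`, `κ` compact. For `m` let `P_m = ∑_{j ≤ m} p j`. Fix `v`. Apply `ess` (W6) to `R`,
`κ`, the vector `P_m v` and `U l = Z (n (m + l))`: `U l P_m = ∑_{j ≤ m} p j Z (n (m+l))` commutes with `R`, and so does
`P_m`, so `R (U P_m v) = U P_m R v = U (R (P_m v))`. `‖U w‖ = ‖w‖`, weakly null (`A.wn` along a
subsequence). So `‖R P_m v‖ ≤ ‖R + κ‖ ‖P_m v‖ ≤ ‖R + κ‖ ‖v‖`, and `P_m v → v` (`B.ps`).
`Y` commutes with `D0`: with `p i` and `p i Z (n l)`, `l ≥ i`, since each `a j` does (`a j p i = 0 = p i a j` for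
`i ≠ j`), by the strong sum. `x_m = ∑_{j ≤ m} a j = Y * P_m` commutes with `D0`; `ψ (a j)` is compact by
`gfree` with `g l = n (j + l)`, so `ψ (x_m)` is compact; `‖x_m‖ ≤ ‖Y‖`; `n2 (x_m - Y) → 0` by `n2_tendsto`
(`(x_m - Y) ξ_i → 0`, bounded). `closure_lemma` (P5). -/

namespace Pool.Agent.HFT

open Pool.Agent.HK Filter Topology

variable {H : Type} [NormedAddCommGroup H] [InnerProductSpace ℂ H] [CompleteSpace H]
variable {M : VonNeumannAlgebra H} {ξ : ℕ → H} {Z : ℕ → H →L[ℂ] H}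

theorem gsparse (A : Gam M ξ Z) (ψ : RA M →L[ℂ] (H →L[ℂ] H)) (hb : Cb ψ) (hA : HA Z ψ)
    {C : ℝ} {n : ℕ → ℕ} {p a : ℕ → RA M} (B : Bk Z C n p a) (Y : RA M)
    (hY : ∀ v : H, HasSum (fun j => (a j).1 v) (Y.1 v)) : IsCompactOperator (ψ Y) := by
  classical
  have hp1 : ∀ j, p j * p j = p j := fun j => Subtype.ext (B.pp j).isIdempotentElem.eq
  have hpst : ∀ j, star (p j).1 = (p j).1 := fun j => (B.pp j).isSelfAdjoint.star_eq
  have hZp : ∀ l j, Z (n l) * (p j).1 = (p j).1 * Z (n l) := fun l j => B.pc j l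
  have hpp : ∀ i j, i ≠ j → (p i).1 * (p j).1 = 0 := fun i j hij =>
    congrArg Subtype.val (B.po i j hij)
  have hppc : ∀ i j, (p i).1 * (p j).1 = (p j).1 * (p i).1 := by
    intro i j
    by_cases hij : i = j
    · rw [hij]
    · exact (hpp i j hij).trans (hpp j i (Ne.symm hij)).symm
  have hap' : ∀ j, (a j).1 * (p j).1 = (a j).1 := fun j => congrArg Subtype.val (B.ap j)
  have hpa' : ∀ j, (p j).1 * (a j).1 = (a j).1 := fun j => congrArg Subtype.val (B.pa j)
  have ha0 : ∀ i j, i ≠ j → (a j).1 * (p i).1 = 0 := by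
    intro i j hij
    rw [← hap' j, mul_assoc, hpp j i (Ne.symm hij), mul_zero]
  have ha0' : ∀ i j, i ≠ j → (p i).1 * (a j).1 = 0 := by
    intro i j hij
    rw [← hpa' j, ← mul_assoc, hpp i j hij, zero_mul]
  have ha3' : ∀ i j, (p i).1 * (a j).1 = (a j).1 * (p i).1 := by
    intro i j
    by_cases hij : i = j
    · rw [hij, hap', hpa']
    · rw [ha0 i j hij, ha0' i j hij]
  -- partial sums
  obtain ⟨t, ht0, hts, htv⟩ : ∃ t : ℕ → RA M, t 0 = p 0 ∧ (∀ m, t (m + 1) = t m + p (m + 1)) ∧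
      ∀ m, (t m).1 = ∑ j ∈ Finset.range (m + 1), (p j).1 := by
    refine ⟨fun m => ∑ j ∈ Finset.range (m + 1), p j, ?_, ?_, ?_⟩
    · show ∑ j ∈ Finset.range (0 + 1), p j = p 0
      rw [zero_add, Finset.sum_range_one]
    · intro m
      show ∑ j ∈ Finset.range (m + 1 + 1), p j = ∑ j ∈ Finset.range (m + 1), p j + p (m + 1)
      rw [Finset.sum_range_succ]
    · intro m
      exact AddSubmonoidClass.coe_finsetSum p (Finset.range (m + 1))
  have htp : ∀ m, IsStarProjection (t m).1 := by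
    intro m
    refine ⟨?_, ?_⟩
    · show (t m).1 * (t m).1 = (t m).1
      rw [htv, Finset.sum_mul_sum]
      refine Finset.sum_congr rfl fun i hi => ?_
      rw [Finset.sum_eq_single i]
      · exact congrArg Subtype.val (hp1 i)
      · intro k _ hk
        exact hpp i k (Ne.symm hk)
      · intro h
        exact absurd hi h
    · show star (t m).1 = (t m).1
      rw [htv, star_sum]
      exact Finset.sum_congr rfl fun i _ => hpst i
  have tnorm : ∀ m, ‖(t m).1‖ ≤ 1 := fun m => IsStarProjection.norm_le _ (htp m)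
  have tv : ∀ v : H, Tendsto (fun m => (t m).1 v) atTop (𝓝 v) := by
    intro v
    have h1 := (B.ps v).tendsto_sum_nat
    rw [← tendsto_add_atTop_iff_nat 1] at h1
    refine h1.congr fun m => ?_
    rw [htv]
    exact (sum_apply _ _ _).symm
  -- the set `S0`
  obtain ⟨S0, hS0⟩ : ∃ S0 : Set (H →L[ℂ] H), S0 = {x | (∃ j, x = (p j).1) ∨
      ∃ j l, j ≤ l ∧ x = (p j).1 * Z (n l)} := ⟨_, rfl⟩
  have S0p : ∀ j, (p j).1 ∈ S0 := fun j => by rw [hS0]; exact Or.inl ⟨j, rfl⟩
  have S0z : ∀ j l, j ≤ l → (p j).1 * Z (n l) ∈ S0 :=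
    fun j l hjl => by rw [hS0]; exact Or.inr ⟨j, l, hjl, rfl⟩
  have S0star : ∀ s ∈ S0, star s = s := by
    intro s hs
    rw [hS0] at hs
    rcases hs with ⟨j, rfl⟩ | ⟨j, l, _, rfl⟩
    · exact hpst j
    · rw [star_mul, A.sym.Zs, hpst, hZp]
  have commP : ∀ j, ∀ s ∈ S0, s * (p j).1 = (p j).1 * s := by
    intro j s hs
    rw [hS0] at hs
    rcases hs with ⟨i, rfl⟩ | ⟨i, l, _, rfl⟩
    · exact hppc i j
    · rw [mul_assoc, hZp, ← mul_assoc, hppc, mul_assoc]
  have commZ : ∀ l, ∀ s ∈ S0, s * Z (n l) = Z (n l) * s := by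
    intro l s hs
    rw [hS0] at hs
    rcases hs with ⟨i, rfl⟩ | ⟨i, k, _, rfl⟩
    · exact (hZp l i).symm
    · rw [mul_assoc, A.sym.cZZ, ← mul_assoc, ← hZp, mul_assoc]
  have commS : ∀ s ∈ S0, ∀ s' ∈ S0, s * s' = s' * s := by
    intro s hs s' hs'
    rw [hS0] at hs'
    rcases hs' with ⟨i, rfl⟩ | ⟨i, k, _, rfl⟩
    · exact commP i s hs
    · rw [← mul_assoc, commP i s hs, mul_assoc, commZ k s hs, mul_assoc]
  have S0M : ∀ s ∈ S0, s ∈ M := by
    intro s hs
    rw [hS0] at hs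
    rcases hs with ⟨i, rfl⟩ | ⟨i, k, _, rfl⟩
    · exact (p i).2
    · exact mul_mem (p i).2 (A.sym.Zm _)
  have tS : ∀ m, ∀ s ∈ S0, s * (t m).1 = (t m).1 * s := by
    intro m s hs
    rw [htv, Finset.mul_sum, Finset.sum_mul]
    exact Finset.sum_congr rfl (fun j _ => commP j s hs)
  have haS : ∀ j, ∀ s' ∈ S0, s' * (a j).1 = (a j).1 * s' := by
    intro j s' hs'
    rw [hS0] at hs'
    rcases hs' with ⟨i, rfl⟩ | ⟨i, k, hik, rfl⟩
    · exact ha3' i j
    · by_cases hij : i = j
      · subst hij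
        rw [mul_assoc, B.ac i k hik, ← mul_assoc, ha3', mul_assoc]
      · rw [← hZp, mul_assoc, ha3', ha0 i j hij, mul_zero, hZp, ← mul_assoc, ha0 i j hij, zero_mul]
  have YS : ∀ s' ∈ S0, s' * Y.1 = Y.1 * s' := by
    intro s' hs'
    apply ContinuousLinearMap.ext
    intro v
    show s' (Y.1 v) = Y.1 (s' v)
    have h1 : HasSum (fun j => s' ((a j).1 v)) (s' (Y.1 v)) := (hY v).mapL s'
    have h2 : HasSum (fun j => (a j).1 (s' v)) (Y.1 (s' v)) := hY (s' v)
    have h3 : (fun j => s' ((a j).1 v)) = fun j => (a j).1 (s' v) := by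
      funext j
      exact congrArg (fun T : H →L[ℂ] H => T v) (haS j s' hs')
    rw [h3] at h1
    exact h1.unique h2
  have YtS : ∀ m, ∀ s' ∈ S0, s' * (Y * t m).1 = (Y * t m).1 * s' := by
    intro m s' hs'
    show s' * (Y.1 * (t m).1) = (Y.1 * (t m).1) * s'
    rw [← mul_assoc, YS s' hs', mul_assoc, tS m s' hs', mul_assoc]
  -- `Y * p j = a j`
  have hYp : ∀ j, Y * p j = a j := by
    intro j
    refine Subtype.ext (ContinuousLinearMap.ext fun v => ?_)
    show Y.1 ((p j).1 v) = (a j).1 v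
    have h1 : HasSum (fun i => (a i).1 ((p j).1 v)) (Y.1 ((p j).1 v)) := hY ((p j).1 v)
    have h2 : HasSum (fun i => (a i).1 ((p j).1 v)) ((a j).1 ((p j).1 v)) := by
      refine hasSum_single j fun i hij => ?_
      exact congrArg (fun T : H →L[ℂ] H => T v) (ha0 j i (Ne.symm hij))
    have h3 : (a j).1 ((p j).1 v) = (a j).1 v :=
      congrArg (fun T : H →L[ℂ] H => T v) (hap' j)
    rw [← h3]
    exact h1.unique h2
  have hac : ∀ j, IsCompactOperator (ψ (a j)) := by
    intro j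
    refine gfree A ψ hb hA (fun l => n (j + l)) ?_ (a j) (fun l => B.ac j (j + l) (Nat.le_add_right _ _))
    intro l l' hl
    exact B.mono (Nat.add_lt_add_left hl j)
  have hYc : ∀ m, IsCompactOperator (ψ (Y * t m)) := by
    intro m
    induction m with
    | zero => rw [ht0, hYp]; exact hac 0
    | succ m ih =>
      rw [hts, mul_add, hYp, map_add]
      exact ih.add (hac (m + 1))
  -- closure
  refine closure_lemma A.trf ψ hb (gen S0) (gen_abelian S0star commS) (gen_le S0star S0M) ?_ ?_ Y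
    ?_ (fun m => Y * t m) ?_ hYc ‖Y‖ ?_ ?_
  · intro d hd
    exact gfree A ψ hb hA n B.mono d (fun j => (gen_comm S0star (commZ j) d.1 hd).symm)
  · intro R κ hκ hR
    have hRS : ∀ s ∈ S0, s * R = R * s := fun s hs => hR s (gen_sub hs)
    have hRt : ∀ m, R * (t m).1 = (t m).1 * R := by
      intro m
      rw [htv, Finset.mul_sum, Finset.sum_mul]
      exact Finset.sum_congr rfl (fun j _ => (hRS _ (S0p j)).symm)
    have hRtZ : ∀ m l, m ≤ l → R * ((t m).1 * Z (n l)) = ((t m).1 * Z (n l)) * R := by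
      intro m l hml
      rw [htv, Finset.sum_mul, Finset.mul_sum, Finset.sum_mul]
      refine Finset.sum_congr rfl (fun j hj => ?_)
      have hj' : j ≤ m := by
        rw [Finset.mem_range] at hj
        omega
      exact (hRS _ (S0z j l (hj'.trans hml))).symm
    have hZt : ∀ l m, Z (n l) * (t m).1 = (t m).1 * Z (n l) := by
      intro l m
      rw [htv, Finset.mul_sum, Finset.sum_mul]
      exact Finset.sum_congr rfl (fun j _ => hZp l j)
    have key : ∀ m (v : H), ‖R ((t m).1 v)‖ ≤ ‖R + κ‖ * ‖v‖ := by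
      intro m v
      have h1 : ‖R ((t m).1 v)‖ ≤ ‖R + κ‖ * ‖(t m).1 v‖ := by
        refine ess R κ hκ ((t m).1 v) (fun j => Z (n (m + j))) ?_ ?_ ?_ ?_
        · intro j
          exact (A.sym.norm_vec _ _).le
        · intro j
          exact A.sym.norm_vec _ _
        · intro j
          have e1 : R * (Z (n (m + j)) * (t m).1) = Z (n (m + j)) * (R * (t m).1) := by
            rw [hZt, hRtZ m (m + j) (Nat.le_add_right m j), hRt, ← hZt, mul_assoc]
          exact congrArg (fun T : H →L[ℂ] H => T v) e1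
        · intro b
          have h2 := A.wn ((t m).1 v) b
          have h3 : Tendsto (fun j => n (m + j)) atTop atTop := by
            refine B.mono.tendsto_atTop.comp ?_
            exact tendsto_atTop_mono (fun j => Nat.le_add_left j m) tendsto_id
          exact h2.comp h3
      refine h1.trans (mul_le_mul_of_nonneg_left ?_ (norm_nonneg _))
      calc ‖(t m).1 v‖ ≤ ‖(t m).1‖ * ‖v‖ := (t m).1.le_opNorm v
        _ ≤ 1 * ‖v‖ := mul_le_mul_of_nonneg_right (tnorm m) (norm_nonneg _)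
        _ = ‖v‖ := one_mul _
    refine ContinuousLinearMap.opNorm_le_bound _ (norm_nonneg _) (fun v => ?_)
    have h4 : Tendsto (fun m => ‖R ((t m).1 v)‖) atTop (𝓝 ‖R v‖) :=
      ((R.continuous.tendsto _).comp (tv v)).norm
    exact le_of_tendsto h4 (Filter.Eventually.of_forall (fun m => key m v))
  · intro d hd
    exact gen_comm S0star YS d hd
  · intro m d hd
    exact gen_comm S0star (YtS m) d hd
  · intro m
    calc ‖Y * t m‖ ≤ ‖Y‖ * ‖t m‖ := norm_mul_le _ _
      _ ≤ ‖Y‖ * 1 := mul_le_mul_of_nonneg_left (tnorm m) (norm_nonneg _)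
      _ = ‖Y‖ := mul_one _
  · have hx : ∀ m, n2 ξ ((Y * t m).1 - Y.1) ≤ ‖Y.1‖ * n2 ξ (1 - (t m).1) := by
      intro m
      have e : (Y * t m).1 - Y.1 = -(Y.1 * (1 - (t m).1)) := by
        show Y.1 * (t m).1 - Y.1 = -(Y.1 * (1 - (t m).1))
        rw [mul_sub, mul_one]
        abel
      rw [e, n2_neg]
      exact n2_mul_le A.trf.summ _ _
    have ht : Tendsto (fun m => n2 ξ (1 - (t m).1)) atTop (𝓝 0) := by
      refine n2_tendsto A.trf.summ _ 1 (fun m => ?_) (fun i => ?_)
      · exact IsStarProjection.norm_le _ (htp m).one_sub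
      · have h1 := (tendsto_const_nhds (x := ξ i)).sub (tv (ξ i))
        rw [sub_self] at h1
        exact h1
    have ht2 : Tendsto (fun m => ‖Y.1‖ * n2 ξ (1 - (t m).1)) atTop (𝓝 0) := by
      have := ht.const_mul ‖Y.1‖
      rwa [mul_zero] at this
    exact squeeze_zero (fun m => n2_nonneg ξ _) hx ht2

end Pool.Agent.HFT
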