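import Pool.Agent.HFT.Defs

set_option autoImplicit false
set_option linter.unusedSectionVars false

/-! # Module Onc (2 points): operators which are not compact

`not_compact`: `K` not compact. Claim: there is `c > 0` such that for every compact `κ` and every
finite set `F` there is a unit vector `v ⊥ F` with `c ≤ ‖(K + κ) v‖`. Proof by contradiction: for
every `n` (with `c = 1 / (n + 1)`) there are `κ` compact and `F` such that `‖(K + κ) v‖ ≤ c ‖v‖` for all
`v ⊥ F`. Let `V = span F` (finite dimensional) and `P` = `V.starProjection`. Then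
`(K + κ) (1 - P)` has norm `≤ c`, so `K - (-κ (1 - P) + K P)` has norm `≤ c`, where
`-κ (1 - P) + K P` is compact (`κ` compact composed with bounded; `K P` has finite rank). So
`K` is a norm limit of compact operators, so compact
(`isCompactOperator_of_tendsto`, or `isClosed_setOf_isCompactOperator`).

`exists_orthonormal`: choose by recursion (`exists_seq_of_forall_finset_exists`, see `select` in
`HK/Phil`) unit vectors `f i`, orthogonal to the previous ones, `c ≤ ‖K (f i)‖` (`κ = 0`).

`compact_tendsto`: a compact operator maps an orthonormal sequence to a null sequence: from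
`compact_orthonormal` in `HK/Ros` (if not, infinitely many `i` with `c ≤ ‖K (f i)‖`). -/

namespace Pool.Agent.HFT

open Pool.Agent.HK Filter Topology

variable {H : Type} [NormedAddCommGroup H] [InnerProductSpace ℂ H] [CompleteSpace H]

private theorem onc_norm_le (V : Submodule ℂ H) [V.HasOrthogonalProjection] (v : H) :
    ‖v - V.starProjection v‖ ≤ ‖v‖ := by
  have h0 : inner ℂ (V.starProjection v) (v - V.starProjection v) = (0 : ℂ) :=
    (V.mem_orthogonal _).1 (V.sub_starProjection_mem_orthogonal v) _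
      (V.starProjection_apply_mem v)
  have h1 : ‖V.starProjection v + (v - V.starProjection v)‖ * ‖V.starProjection v + (v - V.starProjection v)‖ =
      ‖V.starProjection v‖ * ‖V.starProjection v‖ +
        ‖v - V.starProjection v‖ * ‖v - V.starProjection v‖ :=
    norm_add_sq_eq_norm_sq_add_norm_sq_of_inner_eq_zero _ _ h0
  rw [add_sub_cancel] at h1
  nlinarith [norm_nonneg v, norm_nonneg (v - V.starProjection v),
    norm_nonneg (V.starProjection v)]

theorem not_compact (K : H →L[ℂ] H) (hK : ¬ IsCompactOperator K) :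
    ∃ c : ℝ, 0 < c ∧ ∀ κ : H →L[ℂ] H, IsCompactOperator κ → ∀ F : Finset H,
      ∃ v : H, ‖v‖ = 1 ∧ (∀ x ∈ F, inner ℂ x v = (0 : ℂ)) ∧ c ≤ ‖(K + κ) v‖ := by
  by_contra hcon
  push Not at hcon
  apply hK
  have hcl : IsClosed {f : H →L[ℂ] H | IsCompactOperator f} :=
    isClosed_setOfPred_isCompactOperator
  have hmem : K ∈ closure {f : H →L[ℂ] H | IsCompactOperator f} := by
    rw [Metric.mem_closure_iff]
    intro ε hε
    obtain ⟨κ, hκ, F, hF⟩ := hcon (ε / 2) (by linarith)
    let V : Submodule ℂ H := Submodule.span ℂ (F : Set H)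
    have : FiniteDimensional ℂ V := FiniteDimensional.span_finset ℂ F
    have : ProperSpace V := FiniteDimensional.proper ℂ V
    have : LocallyCompactSpace V := inferInstance
    have hu : ∀ u : H, u ∈ Vᗮ → ‖(K + κ) u‖ ≤ ε / 2 * ‖u‖ := by
      intro u hu
      by_cases hu0 : u = 0
      · rw [hu0]
        simp
      · have hn : 0 < ‖u‖ := norm_pos_iff.2 hu0
        have h1 := hF ((‖u‖⁻¹ : ℂ) • u) (by
          rw [norm_smul, norm_inv, Complex.norm_real, norm_norm]
          exact inv_mul_cancel₀ hn.ne') (by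
          intro x hx
          rw [inner_smul_right, (V.mem_orthogonal _).1 hu x (Submodule.subset_span hx), mul_zero])
        rw [map_smul, norm_smul, norm_inv, Complex.norm_real, norm_norm,
          inv_mul_lt_iff₀ hn] at h1
        rw [mul_comm]
        exact h1.le
    set P : H →L[ℂ] H := V.starProjection with hP
    have hPc : IsCompactOperator P := by
      have h1 : IsCompactOperator (V.subtypeL : V →L[ℂ] H) :=
        isCompactOperator_of_locallyCompactSpace_rng (V.subtypeL : V →L[ℂ] H)
      have h2 := h1.comp_clm V.orthogonalProjectionOnto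
      exact h2
    refine ⟨-(κ ∘L (1 - P)) + K ∘L P, ?_, ?_⟩
    · change IsCompactOperator ((-(κ ∘L (1 - P)) + K ∘L P : H →L[ℂ] H) : H → H)
      exact (hκ.comp_clm (1 - P)).neg.add (hPc.clm_comp K)
    · rw [dist_eq_norm]
      have e1 : K - (-(κ ∘L (1 - P)) + K ∘L P) = (K + κ) ∘L (1 - P) := by
        ext v
        simp
        abel
      rw [e1]
      refine lt_of_le_of_lt (ContinuousLinearMap.opNorm_le_bound _ (M := ε / 2) (by linarith)
        fun v => ?_) (by linarith : ε / 2 < ε)
      have h1 : (1 - P : H →L[ℂ] H) v ∈ Vᗮ := V.sub_starProjection_mem_orthogonal v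
      have h2 : ‖(1 - P : H →L[ℂ] H) v‖ ≤ ‖v‖ := onc_norm_le V v
      calc ‖((K + κ) ∘L (1 - P)) v‖ = ‖(K + κ) ((1 - P : H →L[ℂ] H) v)‖ := rfl
        _ ≤ ε / 2 * ‖(1 - P : H →L[ℂ] H) v‖ := hu _ h1
        _ ≤ ε / 2 * ‖v‖ := by gcongr
  rw [hcl.closure_eq] at hmem
  exact hmem

theorem exists_orthonormal (K : H →L[ℂ] H) (hK : ¬ IsCompactOperator K) :
    ∃ c : ℝ, 0 < c ∧ ∃ f : ℕ → H, Orthonormal ℂ f ∧ ∀ i, c ≤ ‖K (f i)‖ := by
  classical
  obtain ⟨c, hc, h⟩ := not_compact K hK
  refine ⟨c, hc, ?_⟩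
  obtain ⟨g, hg1, hg2⟩ := exists_seq_of_forall_finset_exists
    (fun x : H => ‖x‖ = 1 ∧ c ≤ ‖K x‖) (fun x y => inner ℂ x y = (0 : ℂ)) (by
      intro s _
      obtain ⟨v, h1, h2, h3⟩ := h 0 isCompactOperator_zero s
      rw [add_zero] at h3
      exact ⟨v, ⟨h1, h3⟩, h2⟩)
  refine ⟨g, ⟨fun i => (hg1 i).1, fun i j hij => ?_⟩, fun i => (hg1 i).2⟩
  rcases lt_or_gt_of_ne hij with h | h
  · exact hg2 i j h
  · have := hg2 j i h
    rw [← inner_conj_symm, this, map_zero]

theorem compact_tendsto (K : H →L[ℂ] H) (hK : IsCompactOperator K) (f : ℕ → H)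
    (hf : Orthonormal ℂ f) : Tendsto (fun i => K (f i)) atTop (𝓝 0) := by
  rw [Metric.tendsto_atTop]
  intro ε hε
  by_contra hcon
  push Not at hcon
  refine compact_orthonormal K hK f hf ε hε {i | ε ≤ ‖K (f i)‖} ?_ (fun i hi => hi)
  rw [← Nat.frequently_atTop_iff_infinite, Filter.frequently_atTop]
  intro n
  obtain ⟨m, hm, hm2⟩ := hcon n
  refine ⟨m, hm, ?_⟩
  rwa [dist_zero_right] at hm2

end Pool.Agent.HFT
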