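import Pool.Agent.HFT.G13
import Pool.Agent.HFT.Onc

set_option autoImplicit false
set_option linter.unusedSectionVars false

/-! # Module G14 (5 points): the values are compact

`blocks_sum`: `exists_sum` (HK/VN2) for `C⁻¹ • a j` (assume `C > 0` or use `max C 1`) restricted to the
indices in `S` (`Set.indicator`); the sum is in `M` (`vn_mem_iff` and strong limit; compare the proof of
`vn_sum` in HK/VN2). `Y (S ∪ S') = Y S + Y S'` for disjoint sets and `Y {j} = a j` by uniqueness of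
sums.
`gall`: suppose `ψ y` is not compact. Scaling, `‖y‖ ≤ 1` (`y ≠ 0`; `ψ (t • y) = t • ψ y`). `not_compact` (Onc)
gives `c` and `hnc` for `ghump_seq` (G11). Take `p, a` from `Hs.blocks` (G12), `Y` from `blocks_sum`.
For `j : ℕ` let `θ_j` be a complex number with `‖θ_j‖ = 1` (or `≤ 1`) and
`θ_j ⟪b j, ψ (a (j+1)) v_j⟫ = ‖⟪b j, ψ (a (j+1)) v_j⟫‖`;
`m j S = Re (θ_j ⟪b j, ψ (Y (succ '' S)) (v j)⟫)`, bounded by `2 ‖ψ‖`, additive on disjoint sets.
`rosenthal_real` (HK/Ros) with `ε = c/8`: an infinite `J` with `m j {j} - c/8 < m j J` for `j ∈ J`.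
`m j {j} = ‖⟪b j, ψ (a (j+1)) v_j⟫‖ ≥ c/2 - c/8` (modulus at `x = a (j+1) - s j`).
So `c/4 ≤ ‖ψ (Y (succ '' J)) (v j)‖` for all `j ∈ J`; but `ψ (Y (succ '' J))` is compact (`gsparse` for the
blocks `Set.indicator (succ '' J) a`) and `v` is orthonormal: `compact_orthonormal` (HK/Ros). -/

namespace Pool.Agent.HFT

open Pool.Agent.HK Filter Topology

variable {H : Type} [NormedAddCommGroup H] [InnerProductSpace ℂ H] [CompleteSpace H]
variable {M : VonNeumannAlgebra H} {ξ : ℕ → H} {Z : ℕ → H →L[ℂ] H}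

theorem Bk.indicator {C : ℝ} (hC : 0 ≤ C) {n : ℕ → ℕ} {p a : ℕ → RA M} (B : Bk Z C n p a)
    (S : Set ℕ) : Bk Z C n p (S.indicator a) where
  mono := B.mono
  pp := B.pp
  po := B.po
  ps := B.ps
  pc := B.pc
  pa := by
    intro j
    by_cases hj : j ∈ S
    · rw [Set.indicator_of_mem hj]; exact B.pa j
    · rw [Set.indicator_of_notMem hj, mul_zero]
  ap := by
    intro j
    by_cases hj : j ∈ S
    · rw [Set.indicator_of_mem hj]; exact B.ap j
    · rw [Set.indicator_of_notMem hj, zero_mul]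
  an := by
    intro j
    by_cases hj : j ∈ S
    · rw [Set.indicator_of_mem hj]; exact B.an j
    · rw [Set.indicator_of_notMem hj, norm_zero]; exact hC
  ac := by
    intro j l hjl
    by_cases hj : j ∈ S
    · rw [Set.indicator_of_mem hj]; exact B.ac j l hjl
    · rw [Set.indicator_of_notMem hj]
      show Z (n l) * 0 = 0 * Z (n l)
      rw [mul_zero, zero_mul]

private theorem g14_vn_sum (M : VonNeumannAlgebra H)
    (p a : ℕ → H →L[ℂ] H) (haM : ∀ j, a j ∈ M)
    (hp : ∀ j, IsStarProjection (p j))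
    (horth : ∀ i j, i ≠ j → p i * p j = 0) (hpa : ∀ j, p j * a j = a j)
    (hap : ∀ j, a j * p j = a j) (ha : ∀ j, ‖a j‖ ≤ 1) :
    ∃ A : Set ℕ → (H →L[ℂ] H), (∀ S, A S ∈ M) ∧
      (∀ S T, Disjoint S T → A (S ∪ T) = A S + A T) ∧ (∀ j, A {j} = a j) ∧ (∀ S, ‖A S‖ ≤ 1) ∧
      ∀ S x, HasSum (fun j => (S.indicator a j) x) (A S x) := by
  classical
  have hex : ∀ S : Set ℕ, ∃ T : H →L[ℂ] H, ‖T‖ ≤ 1 ∧
      ∀ x, HasSum (fun j => (S.indicator a j) x) (T x) := by
    intro S
    refine exists_sum p (S.indicator a) hp horth ?_ ?_ ?_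
    · intro j
      by_cases hj : j ∈ S
      · rw [Set.indicator_of_mem hj]; exact hpa j
      · rw [Set.indicator_of_notMem hj]; simp
    · intro j
      by_cases hj : j ∈ S
      · rw [Set.indicator_of_mem hj]; exact hap j
      · rw [Set.indicator_of_notMem hj]; simp
    · intro j
      by_cases hj : j ∈ S
      · rw [Set.indicator_of_mem hj]; exact ha j
      · rw [Set.indicator_of_notMem hj]; simp
  choose A hA1 hA2 using hex
  refine ⟨A, ?_, ?_, ?_, hA1, hA2⟩
  · intro S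
    rw [vn_mem_iff]
    intro y hy
    ext x
    show y (A S x) = A S (y x)
    have h1 := (hA2 S x).mapL y
    have h2 := hA2 S (y x)
    have h3 : (fun j => y ((S.indicator a j) x)) = fun j => (S.indicator a j) (y x) := by
      funext j
      by_cases hj : j ∈ S
      · rw [Set.indicator_of_mem hj]
        exact congrArg (fun T : H →L[ℂ] H => T x) (vn_commute (haM j) hy)
      · rw [Set.indicator_of_notMem hj]; simp
    rw [h3] at h1
    exact h1.unique h2
  · intro S T hST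
    ext x
    have h1 := (hA2 S x).add (hA2 T x)
    have h2 := hA2 (S ∪ T) x
    have h3 : (fun j => (S.indicator a j) x + (T.indicator a j) x) =
        fun j => ((S ∪ T).indicator a j) x := by
      funext j
      rw [Set.indicator_union_of_disjoint hST]
      rfl
    rw [h3] at h1
    exact h2.unique h1
  · intro j
    ext x
    have h2 := hA2 {j} x
    have h3 : HasSum (fun i => (({j} : Set ℕ).indicator a i) x) (a j x) := by
      have h4 := hasSum_single (f := fun i => (({j} : Set ℕ).indicator a i) x) j (by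
        intro i hi
        show (({j} : Set ℕ).indicator a i) x = 0
        rw [Set.indicator_of_notMem (by simpa using hi)]
        rfl)
      have h5 : (({j} : Set ℕ).indicator a j) x = a j x := by
        rw [Set.indicator_of_mem (by simp)]
      rw [h5] at h4
      exact h4
    exact h2.unique h3

theorem blocks_sum {C : ℝ} (hC : 0 ≤ C) {n : ℕ → ℕ} {p a : ℕ → RA M} (B : Bk Z C n p a) :
    ∃ Y : Set ℕ → RA M, (∀ S, ‖Y S‖ ≤ C) ∧
      (∀ S v, HasSum (fun j => (S.indicator a j).1 v) ((Y S).1 v)) ∧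
      (∀ S S', Disjoint S S' → Y (S ∪ S') = Y S + Y S') ∧ ∀ j, Y {j} = a j := by
  have hind : ∀ (S : Set ℕ) (f : ℕ → RA M) j,
      (S.indicator f j).1 = S.indicator (fun i => (f i).1) j := by
    intro S f j
    by_cases hj : j ∈ S
    · rw [Set.indicator_of_mem hj, Set.indicator_of_mem hj]
    · rw [Set.indicator_of_notMem hj, Set.indicator_of_notMem hj]; rfl
  rcases hC.eq_or_lt with h0 | h0
  · have ha : ∀ j, a j = 0 := by
      intro j
      have := B.an j
      rw [← h0] at this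
      exact norm_le_zero_iff.1 this
    refine ⟨fun _ => 0, fun S => ?_, fun S v => ?_, fun S S' _ => ?_, fun j => (ha j).symm⟩
    · rw [norm_zero]; exact hC
    · have e : (fun j => (S.indicator a j).1 v) = fun _ => (0 : H) := by
        funext j
        have : S.indicator a j = 0 := by
          by_cases hj : j ∈ S
          · rw [Set.indicator_of_mem hj]; exact ha j
          · rw [Set.indicator_of_notMem hj]
        rw [this]
        rfl
      rw [e]
      exact hasSum_zero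
    · show (0 : RA M) = 0 + 0
      rw [add_zero]
  · set r : ℂ := ((C : ℝ) : ℂ) with hr
    have hr0 : r ≠ 0 := by
      rw [hr]
      exact_mod_cast h0.ne'
    have hrn : ‖r‖ = C := by
      rw [hr, Complex.norm_real, Real.norm_eq_abs, abs_of_pos h0]
    obtain ⟨A, hA1, hA2, hA3, hA4, hA5⟩ := g14_vn_sum M (fun j => (p j).1)
      (fun j => (r⁻¹ • a j).1) (fun j => (r⁻¹ • a j).2) B.pp
      (fun i j hij => congrArg (fun x : RA M => x.1) (B.po i j hij))
      (fun j => by
        have h1 : p j * (r⁻¹ • a j) = r⁻¹ • a j := by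
          rw [mul_smul_comm, B.pa]
        exact congrArg (fun x : RA M => x.1) h1)
      (fun j => by
        have h1 : (r⁻¹ • a j) * p j = r⁻¹ • a j := by
          rw [smul_mul_assoc, B.ap]
        exact congrArg (fun x : RA M => x.1) h1)
      (fun j => by
        have h1 : ‖r⁻¹ • a j‖ ≤ 1 := by
          rw [norm_smul, norm_inv, hrn, inv_mul_le_iff₀ h0, mul_one]
          exact B.an j
        exact h1)
    refine ⟨fun S => r • ⟨A S, hA1 S⟩, fun S => ?_, fun S v => ?_, fun S S' hS => ?_,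
      fun j => ?_⟩
    · rw [norm_smul, hrn]
      have h1 : ‖(⟨A S, hA1 S⟩ : RA M)‖ ≤ 1 := hA4 S
      nlinarith
    · have h1 := (hA5 S v).const_smul r
      have e : (fun j => (S.indicator a j).1 v)
          = fun j => r • ((S.indicator (fun j => (r⁻¹ • a j).1) j) v) := by
        funext j
        rw [hind]
        by_cases hj : j ∈ S
        · rw [Set.indicator_of_mem hj, Set.indicator_of_mem hj]
          show (a j).1 v = r • (r⁻¹ • (a j).1 v)
          rw [smul_smul, mul_inv_cancel₀ hr0, one_smul]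
        · rw [Set.indicator_of_notMem hj, Set.indicator_of_notMem hj]
          simp
      rw [e]
      exact h1
    · have h1 : (⟨A (S ∪ S'), hA1 (S ∪ S')⟩ : RA M) = ⟨A S, hA1 S⟩ + ⟨A S', hA1 S'⟩ :=
        Subtype.ext (hA2 S S' hS)
      show r • (⟨A (S ∪ S'), hA1 (S ∪ S')⟩ : RA M) = r • ⟨A S, hA1 S⟩ + r • ⟨A S', hA1 S'⟩
      rw [h1, smul_add]
    · have h1 : (⟨A {j}, hA1 {j}⟩ : RA M) = r⁻¹ • a j := Subtype.ext (hA3 j)
      show r • (⟨A {j}, hA1 {j}⟩ : RA M) = a j
      rw [h1, smul_smul, mul_inv_cancel₀ hr0, one_smul]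

private theorem g14_one (A : Gam M ξ Z) (ψ : RA M →L[ℂ] (H →L[ℂ] H)) (hb : Cb ψ) (hA : HA Z ψ)
    (hN : NormalT ξ ψ) (y : RA M) (hy : ‖y‖ ≤ 1) : IsCompactOperator (ψ y) := by
  by_contra hn
  obtain ⟨c, hc, hnc⟩ := not_compact (ψ y) hn
  obtain ⟨n, h, s, ρ, v, b, S, hv, hb1, hlow, hup⟩ := ghump_seq A ψ hA hN y hy c hc hnc
  obtain ⟨p, a, B, hBa⟩ := S.blocks A
  obtain ⟨Y, hY1, hY2, hY3, hY4⟩ := blocks_sum (by norm_num) B
  have hθ : ∀ z : ℂ, ∃ θ : ℂ, ‖θ‖ = 1 ∧ (‖z‖ : ℂ) = θ * z := fun z =>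
    RCLike.exists_norm_eq_mul_self z
  choose θ hθ1 hθ2 using hθ
  let z : ℕ → ℂ := fun j => inner ℂ (b j) (ψ (a (j + 1)) (v j))
  let m : ℕ → Set ℕ → ℝ := fun j T =>
    (θ (z j) * inner ℂ (b j) (ψ (Y (Nat.succ '' T)) (v j))).re
  have hm : ∀ j T, |m j T| ≤ ‖ψ (Y (Nat.succ '' T)) (v j)‖ := by
    intro j T
    have h1 : |m j T| ≤ ‖θ (z j) * inner ℂ (b j) (ψ (Y (Nat.succ '' T)) (v j))‖ :=
      Complex.abs_re_le_norm _
    have h2 : ‖(inner ℂ (b j) (ψ (Y (Nat.succ '' T)) (v j)) : ℂ)‖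
        ≤ ‖b j‖ * ‖ψ (Y (Nat.succ '' T)) (v j)‖ := norm_inner_le_norm _ _
    rw [norm_mul, hθ1, one_mul] at h1
    rw [hb1 j, one_mul] at h2
    exact h1.trans h2
  have hvn : ∀ j, ‖v j‖ = 1 := hv.1
  have hmC : ∀ j T, |m j T| ≤ 2 * ‖ψ‖ := by
    intro j T
    refine (hm j T).trans ?_
    calc ‖ψ (Y (Nat.succ '' T)) (v j)‖ ≤ ‖ψ (Y (Nat.succ '' T))‖ * ‖v j‖ :=
          (ψ (Y (Nat.succ '' T))).le_opNorm _
      _ = ‖ψ (Y (Nat.succ '' T))‖ := by rw [hvn, mul_one]
      _ ≤ ‖ψ‖ * ‖Y (Nat.succ '' T)‖ := ψ.le_opNorm _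
      _ ≤ ‖ψ‖ * 2 := mul_le_mul_of_nonneg_left (hY1 _) (norm_nonneg _)
      _ = 2 * ‖ψ‖ := mul_comm _ _
  have hadd : ∀ j T T', Disjoint T T' → m j (T ∪ T') = m j T + m j T' := by
    intro j T T' hT
    have h1 : Disjoint (Nat.succ '' T) (Nat.succ '' T') :=
      (Set.disjoint_image_iff Nat.succ_injective).2 hT
    have h2 := hY3 _ _ h1
    show (θ (z j) * inner ℂ (b j) (ψ (Y (Nat.succ '' (T ∪ T'))) (v j))).re
      = (θ (z j) * inner ℂ (b j) (ψ (Y (Nat.succ '' T)) (v j))).re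
        + (θ (z j) * inner ℂ (b j) (ψ (Y (Nat.succ '' T')) (v j))).re
    rw [Set.image_union, h2, map_add, add_apply, inner_add_right, mul_add, Complex.add_re]
  obtain ⟨J, hJ, hJ2⟩ := rosenthal_real m (2 * ‖ψ‖) hmC hadd (c / 8) (by linarith)
  have hmj : ∀ j, c / 2 - c / 8 ≤ m j {j} := by
    intro j
    have e1 : m j {j} = ‖z j‖ := by
      show (θ (z j) * inner ℂ (b j) (ψ (Y (Nat.succ '' {j})) (v j))).re = ‖z j‖
      have e2 : (Nat.succ '' {j} : Set ℕ) = {j + 1} := by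
        rw [Set.image_singleton]
      rw [e2, hY4]
      have e3 := hθ2 (z j)
      show (θ (z j) * z j).re = ‖z j‖
      rw [← e3, Complex.ofReal_re]
    have h3 := hup j (a (j + 1) - s j) (hBa j).1 (hBa j).2
    have h4 := hlow j
    have e : (inner ℂ (b j) (ψ (s j) (v j)) : ℂ) =
        z j - inner ℂ (b j) (ψ (a (j + 1) - s j) (v j)) := by
      show (inner ℂ (b j) (ψ (s j) (v j)) : ℂ) = inner ℂ (b j) (ψ (a (j + 1)) (v j))
        - inner ℂ (b j) (ψ (a (j + 1) - s j) (v j))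
      rw [map_sub, sub_apply, inner_sub_right]
      ring
    rw [e] at h4
    have h5 := norm_sub_le (z j) (inner ℂ (b j) (ψ (a (j + 1) - s j) (v j)))
    rw [e1]
    linarith
  have hYc : IsCompactOperator (ψ (Y (Nat.succ '' J))) :=
    gsparse A ψ hb hA (B.indicator (by norm_num) (Nat.succ '' J)) (Y (Nat.succ '' J))
      (hY2 (Nat.succ '' J))
  refine compact_orthonormal (ψ (Y (Nat.succ '' J))) hYc v hv (c / 4) (by linarith) J hJ ?_
  intro j hj
  have h1 := hJ2 j hj
  have h2 := hmj j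
  have h3 := (le_abs_self _).trans (hm j J)
  linarith

theorem gall (A : Gam M ξ Z) (ψ : RA M →L[ℂ] (H →L[ℂ] H)) (hb : Cb ψ) (hA : HA Z ψ)
    (hN : NormalT ξ ψ) (y : RA M) : IsCompactOperator (ψ y) := by
  by_cases hy : ‖y‖ ≤ 1
  · exact g14_one A ψ hb hA hN y hy
  · have hy0 : 0 < ‖y‖ := by linarith
    set r : ℂ := ((‖y‖ : ℝ) : ℂ) with hr
    have hr0 : r ≠ 0 := by
      rw [hr]
      exact_mod_cast hy0.ne'
    have hn : ‖r⁻¹ • y‖ ≤ 1 := by
      rw [norm_smul, norm_inv, hr, Complex.norm_real, norm_norm, inv_mul_cancel₀ hy0.ne']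
    have h1 := g14_one A ψ hb hA hN (r⁻¹ • y) hn
    have e : ψ y = r • ψ (r⁻¹ • y) := by
      rw [map_smul, smul_smul, mul_inv_cancel₀ hr0, one_smul]
    rw [e]
    have : (r • ψ (r⁻¹ • y)) ∈ KK H := Submodule.smul_mem _ _ h1
    exact this

end Pool.Agent.HFT
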