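import Pool.Agent.HFT.Op

set_option autoImplicit false
set_option linter.unusedSectionVars false

/-! # Module G5 (2 points): the primitive is normal

`S_y = cR (ψ y) (iL M) - vR y ψ + cR y.1 ψ` is the map `x ↦ x ψ(y) - ψ(x y) + ψ(x) y`. Take `nT T` of both
sides: `nT S_y = S_y` (`nT_of_normal`), `nT (cR (ψ y) (iL M))` is itself (`normalT_cR_iL`), `nT_vR`,
`nT_cR`. So `σ = ψ - nT T ψ` satisfies `σ (x y) = σ x * y` for all `x, y`; with `x = 1`:
`σ = cL (σ 1) (iL M)`, normal (`normalT_cL_iL`), and `nT T σ = nT T ψ - nT T (nT T ψ) = 0`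
(`nT_sub`, `nT_normal`, `nT_of_normal`). So `σ = nT T σ = 0` and `ψ = nT T ψ` is normal. -/

namespace Pool.Agent.HFT

open Pool.Agent.HK Filter Topology

variable {H : Type} [NormedAddCommGroup H] [InnerProductSpace ℂ H] [CompleteSpace H]
variable {M : VonNeumannAlgebra H} {ξ : ℕ → H}

theorem prim_normal (T : TrF M ξ) (ψ : RA M →L[ℂ] (H →L[ℂ] H))
    (h : ∀ y : RA M, NormalT ξ (cR (ψ y) (iL M) - vR y ψ + cR y.1 ψ)) : NormalT ξ ψ := by
  have hσ : ∀ x y : RA M, (ψ - nT T ψ) (x * y) = (ψ - nT T ψ) x * y.1 := by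
    intro x y
    have h1 := nT_of_normal T (h y)
    rw [nT_add, nT_sub, nT_of_normal T (normalT_cR_iL T (ψ y)), nT_vR, nT_cR] at h1
    have h2 := congrArg (fun S : RA M →L[ℂ] (H →L[ℂ] H) => S x) h1
    have h3 : x.1 * ψ y - nT T ψ (x * y) + nT T ψ x * y.1 =
        x.1 * ψ y - ψ (x * y) + ψ x * y.1 := h2
    have h4 : ψ (x * y) - nT T ψ (x * y) = (ψ x - nT T ψ x) * y.1 := by
      rw [sub_mul]
      have h5 : ψ (x * y) - nT T ψ (x * y) - (ψ x * y.1 - nT T ψ x * y.1) =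
          (x.1 * ψ y - nT T ψ (x * y) + nT T ψ x * y.1) -
            (x.1 * ψ y - ψ (x * y) + ψ x * y.1) := by abel
      rw [h3, sub_self] at h5
      exact sub_eq_zero.mp h5
    exact h4
  have hn : ψ - nT T ψ = cL ((ψ - nT T ψ) 1) (iL M) := by
    apply ContinuousLinearMap.ext
    intro x
    have h1 := hσ 1 x
    rw [one_mul] at h1
    exact h1
  have h1 : NormalT ξ (ψ - nT T ψ) := by
    rw [hn]
    exact normalT_cL_iL T _
  have h2 := nT_of_normal T h1
  rw [nT_sub, nT_of_normal T (nT_normal T ψ), sub_self] at h2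
  have h3 : ψ = nT T ψ := sub_eq_zero.mp h2.symm
  rw [h3]
  exact nT_normal T ψ

end Pool.Agent.HFT
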