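import Pool.Agent.HFT.H1

set_option autoImplicit false
set_option linter.unusedSectionVars false

/-! # Module G6 (2 points): derivations of an abelian algebra into the compact operators

As `ab_h2` in the finished module H1 (and `ab_split` there), with `n = 0`: `hkd_vn_main` (HKD) for
`pieceSum_of_comm D hD`, degree `0 + 1`, the list cochain `fl1 δ` (`fl1_coch`, `D_one`; Cv). The
result is a 0-cochain, i.e. a compact operator `κ = ψ []` with `D ψ [x] = x κ - κ x = δ x`. -/

namespace Pool.Agent.HFT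

open Pool.Agent.HK Filter Topology

variable {H : Type} [NormedAddCommGroup H] [InnerProductSpace ℂ H] [CompleteSpace H]

private theorem G6_cocycle {D : VonNeumannAlgebra H} (δ : RA D →L[ℂ] (H →L[ℂ] H))
    (h : ∀ x y, δ (x * y) = x.1 * δ y + δ x * y.1) (l : List (RA D)) :
    Pool.Agent.HK.D (io D) (fl1 δ) l = 0 := by
  by_cases hl : l.length = 1 + 1
  · rcases l with _ | ⟨a, _ | ⟨b, _ | ⟨d, l⟩⟩⟩
    · simp at hl
    · simp at hl
    · rw [D_one]
      have h1 : a.1 * δ b - δ (a * b) + δ a * b.1 = 0 := by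
        rw [h]
        abel
      exact h1
    · simp at hl
  · exact D_supp (io D) 1 (fl1 δ) (fl1_coch (X := ⊤) δ (fun _ => trivial)).supp l hl

theorem ab_h1 (D : VonNeumannAlgebra H) (hD : ∀ x ∈ D, ∀ y ∈ D, x * y = y * x)
    (δ : RA D →L[ℂ] (H →L[ℂ] H)) (hK : ∀ x, IsCompactOperator (δ x))
    (h : ∀ x y, δ (x * y) = x.1 * δ y + δ x * y.1) :
    ∃ κ : H →L[ℂ] H, IsCompactOperator κ ∧ ∀ x : RA D, δ x = x.1 * κ - κ * x.1 := by
  obtain ⟨ψ, h1, h2⟩ := hkd_vn_main (n := 0) D (pieceSum_of_comm D hD) (KK H) KK_closed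
    (fun x hx => hx) (H1_K D) (norm_nonneg δ) (fl1_coch δ hK) (G6_cocycle δ h)
  refine ⟨ψ [], h1.val [], fun x => ?_⟩
  have h3 := h2 [x]
  rw [D_cons, E_one] at h3
  exact h3.symm

end Pool.Agent.HFT
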