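import Pool.Agent.HFT.G0
import Pool.Agent.HFT.G1
import Pool.Agent.HFT.G6

set_option autoImplicit false
set_option linter.unusedSectionVars false

/-! # Module G7 (5 points): the gauge

`D = gen (range Z) ⊆ M`, commutative (G1). Restrict `φ` to `D`:
`φD : RA D →L RA D →L _`, `φD z w = φ ⟨z, _⟩ ⟨w, _⟩`, norm `≤ ‖φ‖` (build with
`LinearMap.mkContinuous₂`, or compose with the isometric inclusion `RA D →L RA M`
(`LinearMap.mkContinuous` with constant `1`)). `ab_h2` (H1): `ζ : RA D →L _` compact valued,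
`‖ζ‖ ≤ 2 KT 1 ‖φD‖`, `φD z w = z ζ w - ζ (z w) + ζ z w`.
`s = uL (fun j => Z j * ζ (Z j))`, `‖s‖ ≤ ‖ζ‖` (`uL_norm`, `‖Z j‖ ≤ 1`).
Let `x : RA M` with `CZ Z m x.1`. `Dm = gen {Z j | m ≤ j} ⊆ D` (`gen_mono`), commutes with `x` (`gen_comm`).
`δ : RA Dm →L _`, `δ z = φ z x - φ x z - (ζ z * x - x * ζ z)`: compact valued, continuous linear, and a
derivation: let `γ z = φ z x - φ x z`. The cocycle identities at `(z, w, x)`, `(z, x, w)`, `(x, z, w)`,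
added with signs `+, -, +`, with `w x = x w`, `z x = x z`:
`z γ(w) - γ(z w) + γ(z) w = φ(z, w) x - x φ(z, w)`; and `η z = ζ z x - x ζ z` satisfies the same identity
(`z η(w) - η(z w) + η(z) w = (z ζ w - ζ(z w) + ζ z w) x - x (z ζ w - ζ(z w) + ζ z w)` using that `z`, `w` commute with
`x`).
`ab_h1` (G6): `δ z = z κ - κ z`, `κ` compact. For `j ≥ m`, with `z = Z j`:
`Z j δ(Z j) = κ - Z j κ Z j`, and
`Z j δ(Z j) = Z j (φ(Z j, x) - φ(x, Z j)) - Z j ζ(Z j) x + x Z j ζ(Z j)` (`Z j x = x Z j`). The ultralimits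
(`uL_congr` for `j ≥ m`, `uL_sub`, `uL_mul_left/right`, `uL_const`; `Z j κ Z j → 0` by `Gam.kZ` and
`uL_of_tendsto`): `κ = ψ x - s x + x s`. -/

namespace Pool.Agent.HFT

open Pool.Agent.HK Filter Topology

variable {H : Type} [NormedAddCommGroup H] [InnerProductSpace ℂ H] [CompleteSpace H]
variable {M : VonNeumannAlgebra H} {ξ : ℕ → H} {Z : ℕ → H →L[ℂ] H}

/-- the inclusion of algebras -/
private noncomputable def G7inc {D N : VonNeumannAlgebra H} (h : ∀ d ∈ D, d ∈ N) :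
    RA D →L[ℂ] RA N :=
  LinearMap.mkContinuous
    { toFun := fun d => ⟨d.1, h d.1 d.2⟩
      map_add' := fun _ _ => rfl
      map_smul' := fun _ _ => rfl } 1 (fun x => by rw [one_mul]; exact le_rfl)

private theorem G7inc_apply {D N : VonNeumannAlgebra H} (h : ∀ d ∈ D, d ∈ N) (d : RA D) :
    G7inc h d = ⟨d.1, h d.1 d.2⟩ := rfl

private theorem G7inc_mul {D N : VonNeumannAlgebra H} (h : ∀ d ∈ D, d ∈ N) (d e : RA D) :
    G7inc h (d * e) = G7inc h d * G7inc h e := rfl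

private theorem G7_alg {R : Type*} [Ring R] {a b c pwx pzwx pzwx' pzw pxw pzxw pzx pxz
    pxzw z1 z2 z3 : R} (hac : a * c = c * a) (hbc : b * c = c * b)
    (E1 : a * pwx - pzwx + pzwx' - pzw * c = 0)
    (E2 : a * pxw - pzxw + pzwx' - pzx * b = 0)
    (E3 : c * pzw - pzxw + pxzw - pxz * b = 0)
    (F : pzw = a * z2 - z3 + z1 * b) :
    pzwx - pxzw - (z3 * c - c * z3) =
      a * (pwx - pxw - (z2 * c - c * z2)) + (pzx - pxz - (z1 * c - c * z1)) * b := by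
  have h1 : pzwx - pxzw = a * pwx - a * pxw + pzx * b - pxz * b - (pzw * c - c * pzw) := by
    have e1 : pzwx = a * pwx + pzwx' - pzw * c := by
      rw [← sub_eq_zero, ← neg_eq_zero, ← E1]; abel
    have e2 : pzxw = a * pxw + pzwx' - pzx * b := by
      rw [← sub_eq_zero, ← neg_eq_zero, ← E2]; abel
    have e3 : pxzw = pxz * b + pzxw - c * pzw := by
      rw [← sub_eq_zero, ← E3]; abel
    rw [e3, e1, e2]; abel
  rw [h1, F]
  have h2 : z1 * b * c = z1 * c * b := by rw [mul_assoc, hbc, ← mul_assoc]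
  have h3 : c * (a * z2) = a * (c * z2) := by rw [← mul_assoc, ← hac, mul_assoc]
  simp only [mul_sub, sub_mul, mul_add, add_mul]
  rw [h2, h3]
  simp only [mul_assoc]
  abel

theorem ggauge (A : Gam M ξ Z) (φ : RA M →L[ℂ] RA M →L[ℂ] (H →L[ℂ] H))
    (hK : ∀ x y, IsCompactOperator (φ x y))
    (h : ∀ x y z, x.1 * φ y z - φ (x * y) z + φ x (y * z) - φ x y * z.1 = 0)
    (ψ : RA M →L[ℂ] (H →L[ℂ] H))
    (hψ : ∀ y, ψ y = uL (fun j => Z j * (φ (zA A.sym j) y - φ y (zA A.sym j)))) :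
    ∃ s : H →L[ℂ] H, ‖s‖ ≤ 2 * KT 1 * ‖φ‖ ∧
      ∀ (m : ℕ) (x : RA M), CZ Z m x.1 → IsCompactOperator (ψ x + (x.1 * s - s * x.1)) := by
  obtain ⟨D, hDdef⟩ : ∃ D : VonNeumannAlgebra H, D = gen (Set.range Z) := ⟨_, rfl⟩
  have hs : ∀ s ∈ Set.range Z, star s = s := by
    rintro _ ⟨i, rfl⟩
    exact A.sym.Zs i
  have hc : ∀ s ∈ Set.range Z, ∀ t ∈ Set.range Z, s * t = t * s := by
    rintro _ ⟨i, rfl⟩ _ ⟨j, rfl⟩
    exact A.sym.cZZ i j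
  have DM : ∀ d ∈ D, d ∈ M := by
    rw [hDdef]
    refine gen_le hs ?_
    rintro _ ⟨i, rfl⟩
    exact A.sym.Zm i
  have Dc : ∀ x ∈ D, ∀ y ∈ D, x * y = y * x := by
    rw [hDdef]
    exact gen_abelian hs hc
  have DZ : ∀ j, Z j ∈ D := by
    intro j
    rw [hDdef]
    exact gen_sub ⟨j, rfl⟩
  obtain ⟨φD, hφD⟩ : ∃ φD : RA D →L[ℂ] RA D →L[ℂ] (H →L[ℂ] H),
      ∀ z w, φD z w = φ (G7inc DM z) (G7inc DM w) :=
    ⟨φ.bilinearComp (G7inc DM) (G7inc DM), fun z w => rfl⟩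
  have hφDn : ‖φD‖ ≤ ‖φ‖ := by
    have nφ : 0 ≤ ‖φ‖ := norm_nonneg φ
    refine ContinuousLinearMap.opNorm_le_bound₂ _ nφ fun z w => ?_
    rw [hφD]
    exact φ.le_opNorm₂ _ _
  obtain ⟨ζ, ζK, ζn, hζ⟩ := ab_h2 D Dc φD (fun z w => by rw [hφD]; exact hK _ _)
    (fun z w v => by
      rw [hφD, hφD, hφD, hφD, G7inc_mul, G7inc_mul]
      exact h (G7inc DM z) (G7inc DM w) (G7inc DM v))
  have Zn : ∀ j, ‖Z j‖ ≤ 1 := fun j => A.sym.norm_le j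
  have ζZn : ∀ j, ‖ζ ⟨Z j, DZ j⟩‖ ≤ ‖ζ‖ := by
    intro j
    refine (ζ.le_opNorm _).trans ?_
    refine mul_le_of_le_one_right (norm_nonneg _) ?_
    exact Zn j
  have hζZ : ∀ j, ‖Z j * ζ ⟨Z j, DZ j⟩‖ ≤ ‖ζ‖ := by
    intro j
    refine (norm_mul_le _ _).trans ?_
    refine (mul_le_mul (Zn j) (ζZn j) (norm_nonneg _) zero_le_one).trans ?_
    rw [one_mul]
  have hKT : 0 ≤ 2 * KT 1 := by
    have := H1_KT 1
    positivity
  refine ⟨uL (fun j => Z j * ζ ⟨Z j, DZ j⟩), (uL_norm hζZ).trans (ζn.trans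
    (mul_le_mul_of_nonneg_left hφDn hKT)), ?_⟩
  intro m x hx
  -- the algebra generated by the tail
  obtain ⟨Sm, hSm⟩ : ∃ Sm : Set (H →L[ℂ] H), Sm = {a | ∃ j, m ≤ j ∧ Z j = a} := ⟨_, rfl⟩
  have hSs : ∀ s ∈ Sm, star s = s := by
    intro s hs'
    rw [hSm] at hs'
    obtain ⟨j, -, rfl⟩ := hs'
    exact A.sym.Zs j
  have hSsub : Sm ⊆ Set.range Z := by
    intro s hs'
    rw [hSm] at hs'
    obtain ⟨j, -, rfl⟩ := hs'
    exact ⟨j, rfl⟩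
  obtain ⟨Dm, hDm⟩ : ∃ Dm : VonNeumannAlgebra H, Dm = gen Sm := ⟨_, rfl⟩
  have DmD : ∀ d ∈ Dm, d ∈ D := by
    rw [hDm, hDdef]
    exact gen_mono hSsub
  have DmM : ∀ d ∈ Dm, d ∈ M := fun d hd => DM d (DmD d hd)
  have DmZ : ∀ j, m ≤ j → Z j ∈ Dm := by
    intro j hj
    rw [hDm]
    refine gen_sub ?_
    rw [hSm]
    exact ⟨j, hj, rfl⟩
  have Dmx : ∀ d ∈ Dm, d * x.1 = x.1 * d := by
    rw [hDm]
    refine gen_comm hSs ?_
    intro s hs'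
    rw [hSm] at hs'
    obtain ⟨j, hj, rfl⟩ := hs'
    exact hx j hj
  have Dmc : ∀ y ∈ Dm, ∀ z ∈ Dm, y * z = z * y :=
    fun y hy z hz => Dc y (DmD y hy) z (DmD z hz)
  obtain ⟨δ, hδ⟩ : ∃ δ : RA Dm →L[ℂ] (H →L[ℂ] H), ∀ z, δ z =
      φ (G7inc DmM z) x - φ x (G7inc DmM z) -
        (ζ (G7inc DmD z) * x.1 - x.1 * ζ (G7inc DmD z)) :=
    ⟨(φ.flip x).comp (G7inc DmM) - (φ x).comp (G7inc DmM) -
      (cR x.1 (ζ.comp (G7inc DmD)) - cL x.1 (ζ.comp (G7inc DmD))), fun z => rfl⟩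
  have hδK : ∀ z, IsCompactOperator (δ z) := by
    intro z
    rw [hδ]
    refine ((hK _ _).sub (hK _ _)).sub (IsCompactOperator.sub ?_ ?_)
    · exact (ζK _).comp_clm x.1
    · exact (ζK _).clm_comp x.1
  have hδd : ∀ z w, δ (z * w) = z.1 * δ w + δ z * w.1 := by
    intro z w
    rw [hδ, hδ, hδ]
    have hxz : x * G7inc DmM z = G7inc DmM z * x := Subtype.ext (Dmx z.1 z.2).symm
    have hxw : x * G7inc DmM w = G7inc DmM w * x := Subtype.ext (Dmx w.1 w.2).symm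
    have E1 := h (G7inc DmM z) (G7inc DmM w) x
    have E2 := h (G7inc DmM z) x (G7inc DmM w)
    have E3 := h x (G7inc DmM z) (G7inc DmM w)
    rw [hxw] at E2
    rw [hxz] at E3
    have F : φ (G7inc DmM z) (G7inc DmM w) = z.1 * ζ (G7inc DmD w) - ζ (G7inc DmD (z * w)) +
        ζ (G7inc DmD z) * w.1 := by
      have F1 := hζ (G7inc DmD z) (G7inc DmD w)
      rw [hφD] at F1
      exact F1
    exact G7_alg (Dmx z.1 z.2) (Dmx w.1 w.2) E1 E2 E3 F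
  obtain ⟨κ, κK, hκ⟩ := ab_h1 Dm Dmc δ hδK hδd
  -- the ultralimits
  have b0 : ∀ j, ‖κ - Z j * κ * Z j‖ ≤ ‖κ‖ + ‖κ‖ := by
    intro j
    refine (norm_sub_le _ _).trans (add_le_add le_rfl ?_)
    refine (norm_mul_le _ _).trans ?_
    refine (mul_le_mul ((norm_mul_le _ _).trans (mul_le_mul (Zn j) le_rfl (norm_nonneg _)
      zero_le_one)) (Zn j) (norm_nonneg _) (by positivity)).trans ?_
    rw [one_mul, mul_one]
  have u0 : uL (fun j => κ - Z j * κ * Z j) = κ := by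
    refine uL_of_tendsto b0 κ fun a b => ?_
    have t1 := A.kZ κ κK a b
    have t2 : Tendsto (fun j => (inner ℂ b (κ a) : ℂ) - inner ℂ b ((Z j * κ * Z j) a)) atTop
        (𝓝 (inner ℂ b (κ a) - 0)) := tendsto_const_nhds.sub t1
    rw [sub_zero] at t2
    refine t2.congr fun j => ?_
    rw [sub_apply, inner_sub_right]
  obtain ⟨C1, hC1⟩ : ∃ C1 : ℝ, C1 = (‖φ‖ * ‖x‖ + ‖φ‖ * ‖x‖) + ‖ζ‖ + ‖ζ‖ * ‖x.1‖ + (‖κ‖ + ‖κ‖) :=
    ⟨_, rfl⟩
  have zn : ∀ j, ‖zA A.sym j‖ ≤ 1 := fun j => Zn j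
  have b1 : ∀ j, ‖Z j * (φ (zA A.sym j) x - φ x (zA A.sym j))‖ ≤ ‖φ‖ * ‖x‖ + ‖φ‖ * ‖x‖ := by
    intro j
    refine (norm_mul_le _ _).trans ?_
    have n1 : ‖φ (zA A.sym j) x‖ ≤ ‖φ‖ * ‖x‖ := by
      refine (φ.le_opNorm₂ _ _).trans ?_
      refine mul_le_mul_of_nonneg_right ?_ (norm_nonneg _)
      exact mul_le_of_le_one_right (norm_nonneg φ) (zn j)
    have n2 : ‖φ x (zA A.sym j)‖ ≤ ‖φ‖ * ‖x‖ := by
      refine (φ.le_opNorm₂ _ _).trans ?_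
      exact mul_le_of_le_one_right (by positivity) (zn j)
    refine (mul_le_mul (Zn j) ((norm_sub_le _ _).trans (add_le_add n1 n2)) (norm_nonneg _)
      zero_le_one).trans ?_
    rw [one_mul]
  have b1' : ∀ j, ‖Z j * (φ (zA A.sym j) x - φ x (zA A.sym j))‖ ≤ C1 := by
    intro j
    refine (b1 j).trans ?_
    rw [hC1]
    have := norm_nonneg ζ
    have := norm_nonneg κ
    have : 0 ≤ ‖ζ‖ * ‖x.1‖ := by positivity
    linarith
  have b2 : ∀ j, ‖Z j * ζ ⟨Z j, DZ j⟩ * x.1‖ ≤ ‖ζ‖ * ‖x.1‖ := by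
    intro j
    exact (norm_mul_le _ _).trans (mul_le_mul_of_nonneg_right (hζZ j) (norm_nonneg _))
  have b2' : ∀ j, ‖Z j * ζ ⟨Z j, DZ j⟩ * x.1‖ ≤ C1 := by
    intro j
    refine (b2 j).trans ?_
    rw [hC1]
    have := norm_nonneg ζ
    have := norm_nonneg κ
    have : 0 ≤ ‖φ‖ * ‖x‖ := by positivity
    linarith
  have b3 : ∀ j, ‖x.1 * (Z j * ζ ⟨Z j, DZ j⟩)‖ ≤ ‖ζ‖ * ‖x.1‖ := by
    intro j
    refine (norm_mul_le _ _).trans ?_
    rw [mul_comm ‖ζ‖]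
    exact mul_le_mul_of_nonneg_left (hζZ j) (norm_nonneg _)
  have b12 : ∀ j, ‖Z j * (φ (zA A.sym j) x - φ x (zA A.sym j)) -
      Z j * ζ ⟨Z j, DZ j⟩ * x.1‖ ≤ C1 + C1 := fun j =>
    (norm_sub_le _ _).trans (add_le_add (b1' j) (b2' j))
  have hC10 : 0 ≤ C1 := (norm_nonneg _).trans (b1' 0)
  have b3' : ∀ j, ‖x.1 * (Z j * ζ ⟨Z j, DZ j⟩)‖ ≤ C1 + C1 := by
    intro j
    refine (b3 j).trans ?_
    have h1 : ‖ζ‖ * ‖x.1‖ ≤ C1 := by
      rw [hC1]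
      have := norm_nonneg ζ
      have := norm_nonneg κ
      have : 0 ≤ ‖φ‖ * ‖x‖ := by positivity
      linarith
    linarith
  have u1 : uL (fun j => (Z j * (φ (zA A.sym j) x - φ x (zA A.sym j)) -
      Z j * ζ ⟨Z j, DZ j⟩ * x.1) + x.1 * (Z j * ζ ⟨Z j, DZ j⟩)) =
      (ψ x - uL (fun j => Z j * ζ ⟨Z j, DZ j⟩) * x.1) +
        x.1 * uL (fun j => Z j * ζ ⟨Z j, DZ j⟩) := by
    rw [uL_add b12 b3', uL_sub b1' b2', uL_mul_left hζZ, uL_mul_right hζZ, ← hψ]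
  have u2 : uL (fun j => κ - Z j * κ * Z j) = uL (fun j => (Z j * (φ (zA A.sym j) x -
      φ x (zA A.sym j)) - Z j * ζ ⟨Z j, DZ j⟩ * x.1) + x.1 * (Z j * ζ ⟨Z j, DZ j⟩)) := by
    refine uL_congr (C := C1 + C1 + (C1 + C1) + (‖κ‖ + ‖κ‖)) (fun j => (b0 j).trans ?_)
      (fun j => ((norm_add_le _ _).trans (add_le_add (b12 j) (b3' j))).trans ?_) m
      fun j hj => ?_
    · linarith
    · have := norm_nonneg κ
      linarith
    · have e1 := hκ ⟨Z j, DmZ j hj⟩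
      rw [hδ] at e1
      have e2 : φ (zA A.sym j) x - φ x (zA A.sym j) -
          (ζ ⟨Z j, DZ j⟩ * x.1 - x.1 * ζ ⟨Z j, DZ j⟩) = Z j * κ - κ * Z j := e1
      have e3 := congrArg (fun T => Z j * T) e2
      simp only [mul_sub] at e3
      have e4 : Z j * (Z j * κ) = κ := by rw [← mul_assoc, A.sym.Z2, one_mul]
      have e5 : Z j * (x.1 * ζ ⟨Z j, DZ j⟩) = x.1 * (Z j * ζ ⟨Z j, DZ j⟩) := by
        rw [← mul_assoc, hx j hj, mul_assoc]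
      rw [e4, e5] at e3
      rw [mul_assoc (Z j) κ (Z j), ← e3, mul_sub, mul_assoc (Z j) _ x.1]
      abel
  have u3 : ψ x + (x.1 * uL (fun j => Z j * ζ ⟨Z j, DZ j⟩) -
      uL (fun j => Z j * ζ ⟨Z j, DZ j⟩) * x.1) = κ := by
    rw [← u0, u2, u1]
    abel
  rw [u3]
  exact κK

end Pool.Agent.HFT
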