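import Pool.Agent.HFT.N2

set_option autoImplicit false
set_option linter.unusedSectionVars false

/-! # Module N3 (4 points): normality in one more variable

`nstep`: `φ` is a compact valued cocycle of degree `n + 1`, normal in the positions `< k`, `k ≤ n`.
`σ = sgk T k φ` (`sgk_coch`, `sgk_NAt`). For `p.length = k` and every `l`, `a`:
`E ι (curs σ p) (a :: l) = 0` (1): by `E_sgk` it is `L a - nT T L a`, where `L a = E ι (curs φ p) (a :: l)`; by
`D_near` and `D ι φ = 0` the sequence `(-1)^k • L (y m)` is weakly null for bounded `y m` with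
`n2 (y m) → 0`, so `L` is normal (`normal_of_seq` for `mel L a b`) and `nT T L = L`.
Define `g l = σ (l.take k ++ 1 :: l.drop k)` if `k ≤ l.length`, and `0` otherwise; so
`g (p ++ t) = σ (p ++ 1 :: t)` for `p.length = k`. `Coch (KK H) n (2 C) g` (`‖1‖ ≤ 1`; write a list
`p₀ ++ x :: post` of length `≥ k` according to whether the position of `x` is `< k` or `≥ k`),
`NAt j g` for `j < k` (from `NAt j σ`; for lists shorter than `k`, `g = 0`).
(1) with `a = 1`, `l = b :: l'` and `E_cons`: `σ (p ++ b :: l') = E ι (curs g p) (b :: l')` (2)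
(`1 * b = b`, `curs σ p (1 :: t) = curs g p t`).
`ψ = - (-1)^k • g`, `φ - D ψ = φ + (-1)^k • D g`. Positions `i < k`: `NAt i φ` and `NAt.D`. Position `k`:
`φ + (-1)^k D g = (φ - σ) + (-1)^k (D g + (-1)^k σ)` and by (2)
`D g (p ++ y m :: l') + (-1)^k σ (p ++ y m :: l') = D g (..) + (-1)^k E ι (curs g p) (y m :: l')` is
weakly null by `D_near`; `φ - σ` by `sub_sgk_NAt`.

`nred`: iterate `nstep` for `k = 0, …, n`; after each step the constant is multiplied by
`1 + 2 (n + 2)` (`Coch.sub`, `Coch.D`: `φ - D ψ` is `Coch (KK H) (n+1) (C + (n+2) (2 C))`), it is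
again a cocycle (`cocycle_sub`). Sum of the `ψ`: norm `≤ ∑_{k ≤ n} 2 (2 n + 5)^k C ≤ KR n * C`.
Positions `j > n`: lists `p ++ y :: post` with `p.length = j > n` have length `> n + 1`: zero. -/

namespace Pool.Agent.HFT

open Pool.Agent.HK Filter Topology

variable {H : Type} [NormedAddCommGroup H] [InnerProductSpace ℂ H] [CompleteSpace H]
variable {M : VonNeumannAlgebra H} {ξ : ℕ → H}

private theorem n3_wn_zero {F : ℕ → H →L[ℂ] H} (h : ∀ m, F m = 0) : WN F := by
  intro a b
  have : (fun m => (inner ℂ b (F m a) : ℂ)) = fun _ => 0 := by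
    funext m
    rw [h m]
    simp
  rw [this]
  exact tendsto_const_nhds

private theorem n3_coch_smul {R : Type} [NormedRing R] [NormedAlgebra ℂ R]
    {X : Submodule ℂ (H →L[ℂ] H)} {n : ℕ} {C : ℝ}
    {φ : List R → (H →L[ℂ] H)} (h : Coch X n C φ) (c : ℂ) (hc : ‖c‖ = 1) :
    Coch X n C (fun l => c • φ l) where
  supp l hl := by simp [h.supp l hl]
  lin p post x y d := by
    show c • φ _ = d • (c • φ _) + c • φ _
    rw [h.lin, smul_add, smul_comm]
  val l := X.smul_mem _ (h.val l)
  bd l := by rw [norm_smul, hc, one_mul]; exact h.bd l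

/-- insertion of the unit in the position `k` -/
private noncomputable def n3g (k : ℕ) (σ : List (RA M) → (H →L[ℂ] H)) (l : List (RA M)) :
    H →L[ℂ] H :=
  if k ≤ l.length then σ (l.take k ++ 1 :: l.drop k) else 0

private theorem n3g_append (k : ℕ) (σ : List (RA M) → (H →L[ℂ] H)) (p t : List (RA M))
    (hp : p.length = k) : n3g k σ (p ++ t) = σ (p ++ 1 :: t) := by
  unfold n3g
  rw [if_pos (by rw [List.length_append]; omega), List.take_left' hp, List.drop_left' hp]

private theorem n3g_before (k : ℕ) (σ : List (RA M) → (H →L[ℂ] H)) (p post : List (RA M))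
    (hp : p.length < k) (hl : k ≤ p.length + 1 + post.length) (w : RA M) :
    n3g k σ (p ++ w :: post) =
      σ (p ++ w :: (post.take (k - p.length - 1) ++ 1 :: post.drop (k - p.length - 1))) := by
  have e1 : p ++ w :: post =
      (p ++ w :: post.take (k - p.length - 1)) ++ post.drop (k - p.length - 1) := by
    rw [List.append_assoc, List.cons_append, List.take_append_drop]
  rw [e1, n3g_append]
  · rw [List.append_assoc, List.cons_append]
  · rw [List.length_append, List.length_cons, List.length_take]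
    omega

private theorem n3g_after (k : ℕ) (σ : List (RA M) → (H →L[ℂ] H)) (p post : List (RA M))
    (hp : k ≤ p.length) (w : RA M) :
    n3g k σ (p ++ w :: post) = σ ((p.take k ++ 1 :: p.drop k) ++ w :: post) := by
  have e1 : p ++ w :: post = p.take k ++ (p.drop k ++ w :: post) := by
    rw [← List.append_assoc, List.take_append_drop]
  rw [e1, n3g_append]
  · rw [List.append_assoc, List.cons_append]
  · rw [List.length_take]
    omega

private theorem n3g_short (k : ℕ) (σ : List (RA M) → (H →L[ℂ] H)) (l : List (RA M))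
    (hl : l.length < k) : n3g k σ l = 0 := by
  unfold n3g
  rw [if_neg (by omega)]

private theorem n3_one : ‖(1 : RA M)‖ ≤ 1 := by
  rw [← io_norm M, map_one]
  exact ContinuousLinearMap.norm_id_le

private theorem n3g_coch {n : ℕ} {C : ℝ} (hC : 0 ≤ C) {X : Submodule ℂ (H →L[ℂ] H)}
    {σ : List (RA M) → (H →L[ℂ] H)} (h : Coch X (n + 1) C σ) (k : ℕ) :
    Coch X n C (n3g k σ) where
  supp l hl := by
    by_cases hk : k ≤ l.length
    · unfold n3g
      rw [if_pos hk]
      apply h.supp
      rw [List.length_append, List.length_cons, List.length_take, List.length_drop]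
      omega
    · exact n3g_short k σ l (by omega)
  lin p post x y c := by
    by_cases hp : p.length < k
    · by_cases hl : k ≤ p.length + 1 + post.length
      · rw [n3g_before k σ p post hp hl, n3g_before k σ p post hp hl, n3g_before k σ p post hp hl]
        exact h.lin _ _ _ _ _
      · rw [n3g_short, n3g_short, n3g_short]
        · simp
        all_goals
          rw [List.length_append, List.length_cons]
          omega
    · rw [n3g_after k σ p post (by omega), n3g_after k σ p post (by omega),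
        n3g_after k σ p post (by omega)]
      exact h.lin _ _ _ _ _
  val l := by
    unfold n3g
    split_ifs
    · exact h.val _
    · exact X.zero_mem
  bd l := by
    unfold n3g
    split_ifs with hk
    · refine (h.bd _).trans ?_
      refine mul_le_mul_of_nonneg_left ?_ hC
      have e : nm l = nm (l.take k) * nm (l.drop k) := by
        rw [← nm_append, List.take_append_drop]
      rw [nm_append, nm_cons, e]
      refine mul_le_mul_of_nonneg_left ?_ (nm_nonneg _)
      calc ‖(1 : RA M)‖ * nm (l.drop k) ≤ 1 * nm (l.drop k) :=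
            mul_le_mul_of_nonneg_right n3_one (nm_nonneg _)
        _ = _ := one_mul _
    · rw [norm_zero]
      exact mul_nonneg hC (nm_nonneg _)

private theorem n3g_NAt {σ : List (RA M) → (H →L[ℂ] H)} (k j : ℕ) (hj : j < k)
    (h : NAt ξ j σ) : NAt ξ j (n3g k σ) := by
  intro p post hp C y hC hy
  by_cases hl : k ≤ p.length + 1 + post.length
  · have := h p (post.take (k - p.length - 1) ++ 1 :: post.drop (k - p.length - 1)) hp C y hC hy
    have e : (fun m => n3g k σ (p ++ y m :: post)) = fun m =>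
        σ (p ++ y m :: (post.take (k - p.length - 1) ++ 1 :: post.drop (k - p.length - 1))) := by
      funext m
      exact n3g_before k σ p post (by omega) hl (y m)
    rw [e]
    exact this
  · apply n3_wn_zero
    intro m
    apply n3g_short
    rw [List.length_append, List.length_cons]
    omega

private theorem n3_pow_sq (k : ℕ) : ((-1 : ℂ) ^ k) * ((-1 : ℂ) ^ k) = 1 := by
  rw [← mul_pow]
  simp

/-- the equation (1) -/
private theorem n3_eq1 (T : TrF M ξ) {n : ℕ} {C : ℝ} (hC : 0 ≤ C)
    {φ : List (RA M) → (H →L[ℂ] H)} (h : Coch (KK H) (n + 1) C φ)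
    (hcy : ∀ l, D (io M) φ l = 0) (k : ℕ) (hN : ∀ j < k, NAt ξ j φ) (p l : List (RA M))
    (hp : p.length = k) (a : RA M) : E (io M) (curs (sgk T k φ) p) (a :: l) = 0 := by
  obtain ⟨L, hL1, hL2⟩ := E_sgk T hC h k p l hp
  have hnorm : NormalT ξ L := by
    intro u v
    apply normal_of_seq
    intro y hy1 hy2
    have h1 := (D_near T k hN p l hp 1 y hy1 hy2).smul ((-1 : ℂ) ^ k)
    have h2 := h1 u v
    have e : (fun m => mel L u v (y m)) = fun m => (inner ℂ v (((-1 : ℂ) ^ k •
        (D (io M) φ (p ++ y m :: l) + ((-1 : ℂ) ^ k) • E (io M) (curs φ p) (y m :: l))) u) : ℂ) := by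
      funext m
      rw [mel_apply, hL1, hcy, zero_add, smul_smul, n3_pow_sq, one_smul]
    rw [e]
    exact h2
  rw [hL2, nT_of_normal T hnorm, sub_self]

/-- the equation (2) -/
private theorem n3_eq2 (T : TrF M ξ) {n : ℕ} {C : ℝ} (hC : 0 ≤ C)
    {φ : List (RA M) → (H →L[ℂ] H)} (h : Coch (KK H) (n + 1) C φ)
    (hcy : ∀ l, D (io M) φ l = 0) (k : ℕ) (hN : ∀ j < k, NAt ξ j φ) (p l : List (RA M))
    (hp : p.length = k) (b : RA M) :
    E (io M) (curs (n3g k (sgk T k φ)) p) (b :: l) = sgk T k φ (p ++ b :: l) := by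
  have h1 := n3_eq1 T hC h hcy k hN p (b :: l) hp 1
  rw [E_cons, one_mul, sub_eq_zero] at h1
  have e : (fun t => curs (sgk T k φ) p (1 :: t)) = curs (n3g k (sgk T k φ)) p := by
    funext t
    rw [curs_apply, curs_apply, n3g_append k _ p t hp]
  rw [e] at h1
  exact h1.symm

theorem nstep (T : TrF M ξ) {n : ℕ} {C : ℝ} (hC : 0 ≤ C)
    {φ : List (RA M) → (H →L[ℂ] H)} (h : Coch (KK H) (n + 1) C φ)
    (hcy : ∀ l, D (io M) φ l = 0) (k : ℕ) (hk : k ≤ n) (hN : ∀ j < k, NAt ξ j φ) :
    ∃ ψ : List (RA M) → (H →L[ℂ] H), Coch (KK H) n (2 * C) ψ ∧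
      ∀ j ≤ k, NAt ξ j (fun l => φ l - D (io M) ψ l) := by
  have hσ : Coch (KK H) (n + 1) (2 * C) (sgk T k φ) := sgk_coch T hC h k
  have hg : Coch (KK H) n (2 * C) (n3g k (sgk T k φ)) := n3g_coch (by positivity) hσ k
  have hgN : ∀ j < k, NAt ξ j (n3g k (sgk T k φ)) := fun j hj =>
    n3g_NAt k j hj (sgk_NAt T hC h k j hj (hN j hj))
  have hu : ‖(-((-1 : ℂ) ^ k))‖ = 1 := by
    rw [norm_neg, norm_pow, norm_neg, norm_one, one_pow]
  refine ⟨fun l => (-((-1 : ℂ) ^ k)) • n3g k (sgk T k φ) l, n3_coch_smul hg _ hu, ?_⟩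
  have hD : ∀ l, φ l - D (io M) (fun l => (-((-1 : ℂ) ^ k)) • n3g k (sgk T k φ) l) l =
      φ l + ((-1 : ℂ) ^ k) • D (io M) (n3g k (sgk T k φ)) l := by
    intro l
    rw [D_smul, neg_smul, sub_neg_eq_add]
  intro j hj p post hp B y hB hy
  simp only [hD]
  rcases lt_or_eq_of_le hj with hj | hj
  · exact (hN j hj p post hp B y hB hy).add
      ((NAt.D T k hgN j hj p post hp B y hB hy).smul _)
  · subst hj
    have h1 := sub_sgk_NAt T hC h j p post hp B y hB hy
    have h2 := (D_near T j hgN p post hp B y hB hy).smul ((-1 : ℂ) ^ j)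
    have h3 := h1.add h2
    have e : (fun m => φ (p ++ y m :: post) +
        ((-1 : ℂ) ^ j) • D (io M) (n3g j (sgk T j φ)) (p ++ y m :: post)) = fun m =>
        (φ (p ++ y m :: post) - sgk T j φ (p ++ y m :: post)) + ((-1 : ℂ) ^ j) •
          (D (io M) (n3g j (sgk T j φ)) (p ++ y m :: post) +
            ((-1 : ℂ) ^ j) • E (io M) (curs (n3g j (sgk T j φ)) p) (y m :: post)) := by
      funext m
      rw [n3_eq2 T hC h hcy j hN p post hp (y m), smul_add, smul_smul, n3_pow_sq, one_smul]
      abel
    rw [e]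
    exact h3

/-- the constant of the reduction to normal cocycles -/
noncomputable def KR (n : ℕ) : ℝ := (n + 1) * (2 * (2 * n + 5) ^ n)

theorem nred (T : TrF M ξ) {n : ℕ} {C : ℝ} (hC : 0 ≤ C)
    {φ : List (RA M) → (H →L[ℂ] H)} (h : Coch (KK H) (n + 1) C φ)
    (hcy : ∀ l, D (io M) φ l = 0) :
    ∃ ψ : List (RA M) → (H →L[ℂ] H), Coch (KK H) n (KR n * C) ψ ∧
      ∀ j, NAt ξ j (fun l => φ l - D (io M) ψ l) := by
  have hιle : ∀ a : RA M, ‖io M a‖ ≤ ‖a‖ := fun a => (io_norm M a).le
  have key : ∀ k : ℕ, k ≤ n + 1 → ∃ ψ : List (RA M) → (H →L[ℂ] H),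
      Coch (KK H) n ((∑ i ∈ Finset.range k, 2 * (2 * (n : ℝ) + 5) ^ i) * C) ψ ∧
      Coch (KK H) (n + 1) ((2 * (n : ℝ) + 5) ^ k * C) (fun l => φ l - D (io M) ψ l) ∧
      ∀ j < k, NAt ξ j (fun l => φ l - D (io M) ψ l) := by
    intro k
    induction k with
    | zero =>
      intro _
      refine ⟨fun _ => 0, ?_, ?_, fun j hj => absurd hj (Nat.not_lt_zero j)⟩
      · have := Coch.zero (R := RA M) (KK H) n
        simpa using this
      · have e : (fun l => φ l - D (io M) (fun _ => (0 : H →L[ℂ] H)) l) = φ := by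
          funext l
          rw [D_zero, sub_zero]
        rw [e, pow_zero, one_mul]
        exact h
    | succ k ih =>
      intro hk
      obtain ⟨ψ, hψ, hφ', hNj⟩ := ih (by omega)
      have hB : 0 ≤ (2 * (n : ℝ) + 5) ^ k * C := by positivity
      obtain ⟨ψ', hψ', hN'⟩ := nstep T hB hφ' (cocycle_sub hcy) k (by omega) hNj
      have hid : ∀ l, φ l - D (io M) (fun l => ψ l + ψ' l) l =
          (φ l - D (io M) ψ l) - D (io M) ψ' l := by
        intro l
        rw [D_add]
        abel
      refine ⟨fun l => ψ l + ψ' l, ?_, ?_, ?_⟩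
      · refine (hψ.add hψ').mono (le_of_eq ?_)
        rw [Finset.sum_range_succ]
        ring
      · simp only [hid]
        refine (hφ'.sub (hψ'.D (io M) KK_bimod hιle (by positivity))).mono (le_of_eq ?_)
        rw [pow_succ]
        ring
      · intro j hj
        simp only [hid]
        exact hN' j (by omega)
  obtain ⟨ψ, hψ, hφ', hNj⟩ := key (n + 1) le_rfl
  refine ⟨ψ, hψ.mono ?_, ?_⟩
  · refine mul_le_mul_of_nonneg_right ?_ hC
    have h1 : ∀ i ∈ Finset.range (n + 1), 2 * (2 * (n : ℝ) + 5) ^ i ≤ 2 * (2 * (n : ℝ) + 5) ^ n := by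
      intro i hi
      have hi' : i ≤ n := by
        have := Finset.mem_range.mp hi
        omega
      have hb : (1 : ℝ) ≤ 2 * (n : ℝ) + 5 := by
        have : (0 : ℝ) ≤ n := Nat.cast_nonneg n
        linarith
      exact mul_le_mul_of_nonneg_left (pow_le_pow_right₀ hb hi') (by norm_num)
    refine (Finset.sum_le_sum h1).trans (le_of_eq ?_)
    rw [Finset.sum_const, Finset.card_range, nsmul_eq_mul]
    unfold KR
    push_cast
    ring
  · intro j
    by_cases hj : j < n + 1
    · exact hNj j hj
    · intro p post hp B y hB hy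
      apply n3_wn_zero
      intro m
      apply hφ'.supp
      rw [List.length_append, List.length_cons]
      omega

end Pool.Agent.HFT
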