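import Pool.Agent.HFT.G4
import Pool.Agent.HFT.G5
import Pool.Agent.HFT.G7
import Pool.Agent.HFT.G14
import Pool.Agent.HFT.N3
import Pool.Agent.HFT.Cv

set_option autoImplicit false
set_option linter.unusedSectionVars false

/-! # Module G15 (4 points): the core theorem

`norm2_nred`: `nred` (N3) for `n = 1` and the list cochain `fl2 φ` (`fl2_coch`, `fl2_cocycle`, Cv): `ψ'` with
`Coch (KK H) 1 (KR 1 * ‖φ‖) ψ'` and `NAt ξ j (fun l => fl2 φ l - D ψ' l)`. `clm1`: `ψ₁ : RA M →L _`,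
`ψ₁ x = ψ' [x]`, `‖ψ₁‖ ≤ KR 1 * ‖φ‖`, compact valued. Let
`φ₁ x y = φ x y - (x ψ₁ y - ψ₁ (x y) + ψ₁ x y)` as a continuous bilinear map: `clm2` (Cv) for the list cochain
`l ↦ fl2 φ l - D ψ' l` (a `Coch (KK H) 2 _`, by `Coch.D`/`Coch.sub` lemmas of HK as in `nred`), or directly:
`‖φ₁‖ ≤ ‖φ‖ + 3 KR 1 ‖φ‖` (`LinearMap.mkContinuous₂`). It is compact valued, a cocycle, and normal in
each variable: `NAt ξ 0` with `p = []`, `post = [y]` and `NAt ξ 1` with `p = [x]`, `post = []`, and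
`normal_of_seq` (Fn) (`D_one` of Cv to expand `D ψ' [x, y]`).
`gcore`: `gprim` (G4) for `φ₁`: `ψ₂`; `ggauge` (G7): `s`; `ψ₃ = ψ₂ + cR s (iL M) - cL s (iL M)`
(`x ↦ ψ₂ x + x s - s x`), `‖ψ₃‖ ≤ (2 + 4 KT 1) ‖φ₁‖`, with the same coboundary `φ₁` (so `Cb ψ₃`), `HA Z ψ₃`.
`ψ₃` is normal by `prim_normal` (G5): `x ↦ x ψ₃ y - ψ₃ (x y) + ψ₃ x y = φ₁ x y` is `φ₁.flip y`.
`gall` (G14): `ψ₃` is compact valued. `η = ψ₁ + ψ₃`. -/

namespace Pool.Agent.HFT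

open Pool.Agent.HK Filter Topology

variable {H : Type} [NormedAddCommGroup H] [InnerProductSpace ℂ H] [CompleteSpace H]
variable {M : VonNeumannAlgebra H} {ξ : ℕ → H} {Z : ℕ → H →L[ℂ] H}

private theorem g15_KR : 0 ≤ KR 1 := by
  unfold KR
  positivity

private theorem g15_KT : 0 ≤ KT 1 := by
  have h1 := KN_nonneg 1
  have h2 := C1_nonneg 1
  have h3 := KH_nonneg 1
  unfold KT
  positivity

private theorem g15_sub {a b : H →L[ℂ] H} (ha : IsCompactOperator a)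
    (hb : IsCompactOperator b) : IsCompactOperator (a - b) := by
  have : (a - b) ∈ KK H := Submodule.sub_mem _ ha hb
  exact this

private theorem g15_add {a b : H →L[ℂ] H} (ha : IsCompactOperator a)
    (hb : IsCompactOperator b) : IsCompactOperator (a + b) := by
  have : (a + b) ∈ KK H := Submodule.add_mem _ ha hb
  exact this

/-- the inner derivation `x ↦ x T - T x` -/
private noncomputable def g15_ad (M : VonNeumannAlgebra H) (T : H →L[ℂ] H) :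
    RA M →L[ℂ] (H →L[ℂ] H) := cR T (iL M) - cL T (iL M)

private theorem g15_ad_apply (T : H →L[ℂ] H) (x : RA M) : g15_ad M T x = x.1 * T - T * x.1 := rfl

private theorem g15_ad_norm (T : H →L[ℂ] H) : ‖g15_ad M T‖ ≤ 2 * ‖T‖ := by
  apply ContinuousLinearMap.opNorm_le_bound _ (by positivity)
  intro x
  rw [g15_ad_apply]
  have e : ‖x.1‖ = ‖x‖ := rfl
  calc ‖x.1 * T - T * x.1‖ ≤ ‖x.1 * T‖ + ‖T * x.1‖ := norm_sub_le _ _
    _ ≤ ‖x.1‖ * ‖T‖ + ‖T‖ * ‖x.1‖ := add_le_add (norm_mul_le _ _) (norm_mul_le _ _)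
    _ = 2 * ‖T‖ * ‖x‖ := by rw [e]; ring

private theorem g15_ad_der (T : H →L[ℂ] H) (x y : RA M) :
    x.1 * g15_ad M T y - g15_ad M T (x * y) + g15_ad M T x * y.1 = 0 := by
  simp only [g15_ad_apply]
  have e : (x * y).1 = x.1 * y.1 := rfl
  rw [e]
  noncomm_ring

theorem norm2_nred (T : TrF M ξ) (φ : RA M →L[ℂ] RA M →L[ℂ] (H →L[ℂ] H))
    (hK : ∀ x y, IsCompactOperator (φ x y))
    (h : ∀ x y z, x.1 * φ y z - φ (x * y) z + φ x (y * z) - φ x y * z.1 = 0) :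
    ∃ (ψ₁ : RA M →L[ℂ] (H →L[ℂ] H)) (φ₁ : RA M →L[ℂ] RA M →L[ℂ] (H →L[ℂ] H)),
      (∀ x, IsCompactOperator (ψ₁ x)) ∧ ‖ψ₁‖ ≤ KR 1 * ‖φ‖ ∧
      (∀ x y, φ₁ x y = φ x y - (x.1 * ψ₁ y - ψ₁ (x * y) + ψ₁ x * y.1)) ∧
      ‖φ₁‖ ≤ (1 + 3 * KR 1) * ‖φ‖ ∧ (∀ y, NormalT ξ (φ₁.flip y)) ∧ ∀ x, NormalT ξ (φ₁ x) := by
  have hK0 := g15_KR
  have hF : Coch (KK H) (1 + 1) ‖φ‖ (fl2 φ) := fl2_coch φ hK
  obtain ⟨ψ', h1, h2⟩ := nred T (norm_nonneg φ) hF (fl2_cocycle φ h)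
  have hC : 0 ≤ KR 1 * ‖φ‖ := by positivity
  obtain ⟨ψ₁, e1, e2⟩ := clm1 hC h1
  have hD := hF.sub (Coch.D (io M) KK_bimod (fun a => (io_norm M a).le) hC h1)
  have hC2 : 0 ≤ ‖φ‖ + (((1 : ℕ) : ℝ) + 2) * (KR 1 * ‖φ‖) := by positivity
  obtain ⟨φ₁, f1, f2⟩ := clm2 hC2 hD
  refine ⟨ψ₁, φ₁, ?_, e2, ?_, ?_, ?_, ?_⟩
  · intro x
    rw [e1]
    exact h1.val _
  · intro x y
    rw [f1, D_one, e1, e1, e1]
    rfl
  · refine f2.trans (le_of_eq ?_)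
    push_cast
    ring
  · intro y a b
    apply normal_of_seq
    intro z hz hz0
    have h3 := h2 0 [] [y] rfl 1 z hz hz0 a b
    refine h3.congr fun m => ?_
    show (inner ℂ b ((fl2 φ [z m, y] - D (io M) ψ' [z m, y]) a) : ℂ) = inner ℂ b (φ₁ (z m) y a)
    rw [f1]
  · intro x a b
    apply normal_of_seq
    intro z hz hz0
    have h3 := h2 1 [x] [] rfl 1 z hz hz0 a b
    refine h3.congr fun m => ?_
    show (inner ℂ b ((fl2 φ [x, z m] - D (io M) ψ' [x, z m]) a) : ℂ) = inner ℂ b (φ₁ x (z m) a)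
    rw [f1]

/-- the constant -/
noncomputable def KG2 : ℝ := KR 1 + (2 + 4 * KT 1) * (1 + 3 * KR 1)

theorem KG2_nonneg : 0 ≤ KG2 := by
  have h1 := g15_KR
  have h2 := g15_KT
  unfold KG2
  positivity

theorem gcore (A : Gam M ξ Z) (φ : RA M →L[ℂ] RA M →L[ℂ] (H →L[ℂ] H))
    (hK : ∀ x y, IsCompactOperator (φ x y))
    (h : ∀ x y z, x.1 * φ y z - φ (x * y) z + φ x (y * z) - φ x y * z.1 = 0) :
    ∃ η : RA M →L[ℂ] (H →L[ℂ] H), (∀ x, IsCompactOperator (η x)) ∧ ‖η‖ ≤ KG2 * ‖φ‖ ∧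
      ∀ x y, φ x y = x.1 * η y - η (x * y) + η x * y.1 := by
  obtain ⟨ψ₁, φ₁, hψ1, hn1, he, hn2, hN1, hN2⟩ := norm2_nred A.trf φ hK h
  have hKR := g15_KR
  have hKT := g15_KT
  have hK1 : ∀ x y, IsCompactOperator (φ₁ x y) := by
    intro x y
    rw [he]
    exact g15_sub (hK x y) (g15_add (g15_sub (KK_mul x.1 _ (hψ1 y)).1 (hψ1 (x * y)))
      (KK_mul y.1 _ (hψ1 x)).2)
  have hc1 : ∀ x y z, x.1 * φ₁ y z - φ₁ (x * y) z + φ₁ x (y * z) - φ₁ x y * z.1 = 0 := by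
    intro x y z
    have e0 := h x y z
    have ea : (x * y).1 = x.1 * y.1 := rfl
    have eb : (y * z).1 = y.1 * z.1 := rfl
    have ec : ψ₁ (x * y * z) = ψ₁ (x * (y * z)) := by rw [mul_assoc]
    rw [he, he, he, he, ec, ea, eb]
    have e2 : x.1 * (φ y z - (y.1 * ψ₁ z - ψ₁ (y * z) + ψ₁ y * z.1)) -
        (φ (x * y) z - (x.1 * y.1 * ψ₁ z - ψ₁ (x * (y * z)) + ψ₁ (x * y) * z.1)) +
        (φ x (y * z) - (x.1 * ψ₁ (y * z) - ψ₁ (x * (y * z)) + ψ₁ x * (y.1 * z.1))) -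
        (φ x y - (x.1 * ψ₁ y - ψ₁ (x * y) + ψ₁ x * y.1)) * z.1 =
        x.1 * φ y z - φ (x * y) z + φ x (y * z) - φ x y * z.1 := by
      noncomm_ring
    rw [e2, e0]
  obtain ⟨ψ₂, hp1, hp2, hp3⟩ := gprim A φ₁ hK1 hN1 hN2 hc1
  obtain ⟨s, hs1, hs2⟩ := ggauge A φ₁ hK1 hc1 ψ₂ hp2
  set ψ₃ := ψ₂ + g15_ad M s with hψ3
  have hco : ∀ x y, φ₁ x y = x.1 * ψ₃ y - ψ₃ (x * y) + ψ₃ x * y.1 := by
    intro x y
    have h0 := g15_ad_der s x y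
    have e : x.1 * ψ₃ y - ψ₃ (x * y) + ψ₃ x * y.1 =
        (x.1 * ψ₂ y - ψ₂ (x * y) + ψ₂ x * y.1) +
          (x.1 * g15_ad M s y - g15_ad M s (x * y) + g15_ad M s x * y.1) := by
      rw [hψ3]
      simp only [add_apply, mul_add, add_mul]
      abel
    rw [e, h0, add_zero]
    exact hp3 x y
  have hCb : Cb ψ₃ := by
    intro x y
    rw [← hco]
    exact hK1 x y
  have hHA : HA Z ψ₃ := by
    intro m x hx
    exact hs2 m x hx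
  have hNT : NormalT ξ ψ₃ := by
    apply prim_normal A.trf
    intro y
    have e : cR (ψ₃ y) (iL M) - vR y ψ₃ + cR y.1 ψ₃ = φ₁.flip y := by
      ext1 x
      show x.1 * ψ₃ y - ψ₃ (x * y) + ψ₃ x * y.1 = φ₁ x y
      exact (hco x y).symm
    rw [e]
    exact hN1 y
  have hall := gall A ψ₃ hCb hHA hNT
  refine ⟨ψ₁ + ψ₃, ?_, ?_, ?_⟩
  · intro x
    exact g15_add (hψ1 x) (hall x)
  · have b1 : ‖ψ₃‖ ≤ (2 + 4 * KT 1) * ‖φ₁‖ := by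
      calc ‖ψ₃‖ ≤ ‖ψ₂‖ + ‖g15_ad M s‖ := norm_add_le _ _
        _ ≤ 2 * ‖φ₁‖ + 2 * (2 * KT 1 * ‖φ₁‖) := by
            have := g15_ad_norm (M := M) s
            linarith
        _ = (2 + 4 * KT 1) * ‖φ₁‖ := by ring
    have b2 : (2 + 4 * KT 1) * ‖φ₁‖ ≤ (2 + 4 * KT 1) * ((1 + 3 * KR 1) * ‖φ‖) :=
      mul_le_mul_of_nonneg_left hn2 (by positivity)
    calc ‖ψ₁ + ψ₃‖ ≤ ‖ψ₁‖ + ‖ψ₃‖ := norm_add_le _ _
      _ ≤ KR 1 * ‖φ‖ + (2 + 4 * KT 1) * ((1 + 3 * KR 1) * ‖φ‖) := by linarith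
      _ = KG2 * ‖φ‖ := by unfold KG2; ring
  · intro x y
    have e1 := he x y
    have e2 := hco x y
    have e3 : φ x y = φ₁ x y + (x.1 * ψ₁ y - ψ₁ (x * y) + ψ₁ x * y.1) := by
      rw [e1]
      abel
    rw [e3, e2]
    simp only [add_apply, mul_add, add_mul]
    abel

end Pool.Agent.HFT
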