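import Pool.Agent.HFT.G0

set_option autoImplicit false
set_option linter.unusedSectionVars false

/-! # Module G2a (3 points): the averages `Th` and `Thk`

Everything by direct computation and induction on `k` (`Thk (k+1) x = Th (m+k) (Thk k x)`).
`Th Z j x = (x + Z j x Z j)/2`. `Z j * Th Z j x = (Z j x + x Z j)/2 = Th Z j x * Z j`. The `2`-norm:
`n2 (Z j * x * Z j) ≤ n2 x` by `n2_mul_le` and `TrF.n2_mul_le'`, `‖Z j‖ ≤ 1` (`SymS.norm_le`).
`Thk_sub_le`: `Thk (k+1) x - Thk k x = (Z w Z - w)/2` with `w = Thk k x`, `Z = Z (m+k)`, and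
`Z w Z - w = (Z w - w Z) Z`; `Z w - w Z = Thk k (Z x - x Z)` because `Z` commutes with all `Z j`
(`Thk_comm_sub`), so `n2 (Z w - w Z) ≤ n2 (Z x - x Z)`. -/

namespace Pool.Agent.HFT

open Pool.Agent.HK Filter Topology

variable {H : Type} [NormedAddCommGroup H] [InnerProductSpace ℂ H] [CompleteSpace H]
variable {M : VonNeumannAlgebra H} {ξ : ℕ → H} {Z : ℕ → H →L[ℂ] H}

private theorem g2a_smul_mem (c : ℂ) {x : H →L[ℂ] H} (hx : x ∈ M) : c • x ∈ M := by
  exact M.toStarSubalgebra.smul_mem hx c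

private theorem g2a_Th_mem (S : SymS M Z) (j : ℕ) {x : H →L[ℂ] H} (hx : x ∈ M) :
    Th Z j x ∈ M := by
  unfold Th
  exact g2a_smul_mem _ (add_mem hx (mul_mem (mul_mem (S.Zm j) hx) (S.Zm j)))

private theorem g2a_Th_add (j : ℕ) (x y : H →L[ℂ] H) : Th Z j (x + y) = Th Z j x + Th Z j y := by
  unfold Th
  rw [← smul_add]
  congr 1
  noncomm_ring

private theorem g2a_Th_smul (j : ℕ) (c : ℂ) (x : H →L[ℂ] H) : Th Z j (c • x) = c • Th Z j x := by
  unfold Th
  rw [mul_smul_comm, smul_mul_assoc, ← smul_add, smul_comm]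

private theorem g2a_Th_norm (S : SymS M Z) (j : ℕ) (x : H →L[ℂ] H) : ‖Th Z j x‖ ≤ ‖x‖ := by
  unfold Th
  have h1 : ‖Z j * x * Z j‖ ≤ ‖x‖ := by
    calc ‖Z j * x * Z j‖ ≤ ‖Z j‖ * ‖x‖ * ‖Z j‖ :=
          (norm_mul_le _ _).trans (mul_le_mul_of_nonneg_right (norm_mul_le _ _) (norm_nonneg _))
      _ ≤ 1 * ‖x‖ * 1 := by
          have h := S.norm_le j
          have h0 := norm_nonneg (Z j)
          have hx := norm_nonneg x
          exact mul_le_mul (mul_le_mul_of_nonneg_right h hx) h h0 (by positivity)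
      _ = ‖x‖ := by ring
  rw [norm_smul]
  have h2 : ‖(1 / 2 : ℂ)‖ = 1 / 2 := by norm_num
  rw [h2]
  have h3 := norm_add_le x (Z j * x * Z j)
  linarith

private theorem g2a_Th_star (S : SymS M Z) (j : ℕ) (x : H →L[ℂ] H) :
    star (Th Z j x) = Th Z j (star x) := by
  unfold Th
  rw [star_smul, star_add, star_mul, star_mul, S.Zs, mul_assoc]
  congr 1
  simp

private theorem g2a_Th_n2 (T : TrF M ξ) (S : SymS M Z) (j : ℕ) {x : H →L[ℂ] H} (hx : x ∈ M) :
    n2 ξ (Th Z j x) ≤ n2 ξ x := by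
  unfold Th
  have h0 := S.norm_le j
  have h1 : n2 ξ (Z j * x * Z j) ≤ n2 ξ x := by
    have h2 := T.n2_mul_le' (mul_mem (S.Zm j) hx) (S.Zm j)
    have h3 := n2_mul_le T.summ (Z j) x
    have h4 := n2_nonneg ξ x
    have h5 := n2_nonneg ξ (Z j * x)
    have h6 := norm_nonneg (Z j)
    nlinarith
  rw [n2_smul]
  have h2 : ‖(1 / 2 : ℂ)‖ = 1 / 2 := by norm_num
  rw [h2]
  have h3 := n2_add_le T.summ x (Z j * x * Z j)
  linarith

private theorem g2a_Th_tr (T : TrF M ξ) (S : SymS M Z) (j : ℕ) {x : H →L[ℂ] H} (hx : x ∈ M) :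
    ip ξ 1 (Th Z j x) = ip ξ 1 x := by
  unfold Th
  rw [ip_smul, ip_add T.summ]
  have h1 : ip ξ 1 (Z j * x * Z j) = ip ξ 1 x := by
    have h2 := T.ip_mul_right (x := 1) (y := Z j * x) (b := Z j) (one_mem _)
      (mul_mem (S.Zm j) hx) (S.Zm j)
    rw [S.Zs, one_mul] at h2
    rw [← h2]
    have h3 := ip_mul_left ξ (Z j) (Z j) x
    have h4 : ip ξ (Z j * Z j) x = ip ξ (Z j) (star (Z j) * x) := h3
    rw [S.Zs, S.Z2] at h4
    exact h4.symm
  rw [h1]
  ring

private theorem g2a_Th_CZ (S : SymS M Z) (j : ℕ) (x : H →L[ℂ] H) :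
    Z j * Th Z j x = Th Z j x * Z j := by
  unfold Th
  rw [mul_smul_comm, smul_mul_assoc]
  congr 1
  have h := S.Z2 j
  rw [mul_add, add_mul]
  have h1 : Z j * (Z j * x * Z j) = x * Z j := by
    rw [← mul_assoc, ← mul_assoc, h, one_mul]
  have h2 : Z j * x * Z j * Z j = Z j * x := by
    rw [mul_assoc, h, mul_one]
  rw [h1, h2, add_comm]

private theorem g2a_Th_comm (j : ℕ) {c x : H →L[ℂ] H} (hc : Z j * c = c * Z j) :
    c * Th Z j x - Th Z j x * c = Th Z j (c * x - x * c) := by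
  unfold Th
  rw [mul_smul_comm, smul_mul_assoc, ← smul_sub]
  congr 1
  have h1 : c * (Z j * x * Z j) = Z j * (c * x) * Z j := by
    rw [← mul_assoc, ← mul_assoc, ← hc, mul_assoc (Z j) c x]
  have h2 : Z j * x * Z j * c = Z j * (x * c) * Z j := by
    rw [mul_assoc, hc, ← mul_assoc, mul_assoc (Z j) x c]
  rw [mul_add, add_mul, h1, h2]
  noncomm_ring

theorem Thk_mem (S : SymS M Z) (m k : ℕ) {x : H →L[ℂ] H} (hx : x ∈ M) : Thk Z m k x ∈ M := by
  induction k with
  | zero => exact hx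
  | succ k ih => exact g2a_Th_mem S _ ih

theorem Thk_add (m k : ℕ) (x y : H →L[ℂ] H) :
    Thk Z m k (x + y) = Thk Z m k x + Thk Z m k y := by
  induction k with
  | zero => rfl
  | succ k ih =>
    show Th Z (m + k) (Thk Z m k (x + y)) = Th Z (m + k) (Thk Z m k x) + Th Z (m + k) (Thk Z m k y)
    rw [ih, g2a_Th_add]

theorem Thk_smul (m k : ℕ) (c : ℂ) (x : H →L[ℂ] H) :
    Thk Z m k (c • x) = c • Thk Z m k x := by
  induction k with
  | zero => rfl
  | succ k ih =>
    show Th Z (m + k) (Thk Z m k (c • x)) = c • Th Z (m + k) (Thk Z m k x)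
    rw [ih, g2a_Th_smul]

theorem Thk_sub (m k : ℕ) (x y : H →L[ℂ] H) :
    Thk Z m k (x - y) = Thk Z m k x - Thk Z m k y := by
  have h : x - y = x + (-1 : ℂ) • y := by rw [neg_one_smul, sub_eq_add_neg]
  rw [h, Thk_add, Thk_smul, neg_one_smul, ← sub_eq_add_neg]

theorem Thk_norm (S : SymS M Z) (m k : ℕ) (x : H →L[ℂ] H) : ‖Thk Z m k x‖ ≤ ‖x‖ := by
  induction k with
  | zero => exact le_rfl
  | succ k ih => exact (g2a_Th_norm S _ _).trans ih

theorem Thk_star (S : SymS M Z) (m k : ℕ) (x : H →L[ℂ] H) :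
    star (Thk Z m k x) = Thk Z m k (star x) := by
  induction k with
  | zero => rfl
  | succ k ih =>
    show star (Th Z (m + k) (Thk Z m k x)) = Th Z (m + k) (Thk Z m k (star x))
    rw [g2a_Th_star S, ih]

theorem Thk_n2 (T : TrF M ξ) (S : SymS M Z) (m k : ℕ) {x : H →L[ℂ] H} (hx : x ∈ M) :
    n2 ξ (Thk Z m k x) ≤ n2 ξ x := by
  induction k with
  | zero => exact le_rfl
  | succ k ih => exact (g2a_Th_n2 T S _ (Thk_mem S m k hx)).trans ih

/-- the trace is preserved -/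
theorem Thk_tr (T : TrF M ξ) (S : SymS M Z) (m k : ℕ) {x : H →L[ℂ] H} (hx : x ∈ M) :
    ip ξ 1 (Thk Z m k x) = ip ξ 1 x := by
  induction k with
  | zero => rfl
  | succ k ih => exact (g2a_Th_tr T S _ (Thk_mem S m k hx)).trans ih

/-- the average commutes with the averaged positions -/
theorem Thk_CZ (S : SymS M Z) (m k j : ℕ) (h1 : m ≤ j) (h2 : j < m + k) (x : H →L[ℂ] H) :
    Z j * Thk Z m k x = Thk Z m k x * Z j := by
  induction k with
  | zero => omega
  | succ k ih =>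
    show Z j * Th Z (m + k) (Thk Z m k x) = Th Z (m + k) (Thk Z m k x) * Z j
    by_cases hj : j = m + k
    · subst hj
      exact g2a_Th_CZ S _ _
    · have h3 := ih (by omega)
      have h4 := g2a_Th_comm (Z := Z) (m + k) (c := Z j) (x := Thk Z m k x) (S.cZZ _ _)
      rw [h3, sub_self] at h4
      have h5 : Th Z (m + k) (0 : H →L[ℂ] H) = 0 := by unfold Th; simp
      rw [h5] at h4
      exact sub_eq_zero.1 h4

theorem Thk_fix (S : SymS M Z) (m k : ℕ) {x : H →L[ℂ] H}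
    (h : ∀ j, m ≤ j → j < m + k → Z j * x = x * Z j) : Thk Z m k x = x := by
  induction k with
  | zero => rfl
  | succ k ih =>
    show Th Z (m + k) (Thk Z m k x) = x
    rw [ih (fun j h1 h2 => h j h1 (by omega))]
    unfold Th
    rw [h (m + k) (by omega) (by omega), mul_assoc, S.Z2, mul_one, ← two_smul ℂ x, smul_smul]
    norm_num

/-- an operator `c` commuting with the averaged positions -/
theorem Thk_comm_sub (m k : ℕ) {c : H →L[ℂ] H} (hc : ∀ j, m ≤ j → j < m + k → Z j * c = c * Z j)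
    (x : H →L[ℂ] H) :
    c * Thk Z m k x - Thk Z m k x * c = Thk Z m k (c * x - x * c) := by
  induction k with
  | zero => rfl
  | succ k ih =>
    show c * Th Z (m + k) (Thk Z m k x) - Th Z (m + k) (Thk Z m k x) * c =
      Th Z (m + k) (Thk Z m k (c * x - x * c))
    rw [g2a_Th_comm (m + k) (hc (m + k) (by omega) (by omega)),
      ih (fun j h1 h2 => hc j h1 (by omega))]

theorem Thk_comm (m k : ℕ) {c : H →L[ℂ] H} (hc : ∀ j, m ≤ j → j < m + k → Z j * c = c * Z j)
    {x : H →L[ℂ] H} (h : c * x = x * c) : c * Thk Z m k x = Thk Z m k x * c := by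
  have h1 := Thk_comm_sub (Z := Z) m k hc x
  rw [h, sub_self] at h1
  have h2 : Thk Z m k (0 : H →L[ℂ] H) = 0 := by
    have h3 := Thk_smul (Z := Z) m k 0 (0 : H →L[ℂ] H)
    rwa [zero_smul, zero_smul] at h3
  rw [h2] at h1
  exact sub_eq_zero.1 h1

/-- distance to the average -/
theorem Thk_dist (T : TrF M ξ) (S : SymS M Z) (m k : ℕ) {x : H →L[ℂ] H} (hx : x ∈ M) :
    n2 ξ (Thk Z m k x - x) ≤
      ∑ j ∈ Finset.range k, n2 ξ (Z (m + j) * x - x * Z (m + j)) := by
  induction k with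
  | zero =>
    have h1 : Thk Z m 0 x - x = 0 := sub_self x
    rw [h1, n2_zero, Finset.sum_range_zero]
  | succ k ih =>
    rw [Finset.sum_range_succ]
    set w := Thk Z m k x with hw
    set z := Z (m + k) with hz
    have hwM : w ∈ M := Thk_mem S m k hx
    have hzM : z ∈ M := S.Zm _
    have h1 : Thk Z m (k + 1) x - x = (w - x) + (1 / 2 : ℂ) • ((z * w - w * z) * z) := by
      show Th Z (m + k) w - x = _
      unfold Th
      rw [← hz]
      have h2 : (z * w - w * z) * z = z * w * z - w := by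
        rw [sub_mul, mul_assoc w z z, S.Z2, mul_one]
      rw [h2, smul_add, smul_sub]
      have h3 : w = (1 / 2 : ℂ) • w + (1 / 2 : ℂ) • w := by
        rw [← add_smul]
        norm_num
      nth_rw 3 [h3]
      abel
    have h2 : z * w - w * z = Thk Z m k (z * x - x * z) :=
      Thk_comm_sub m k (fun j _ _ => S.cZZ _ _) x
    have h3 : n2 ξ (z * w - w * z) ≤ n2 ξ (z * x - x * z) := by
      rw [h2]
      exact Thk_n2 T S m k (sub_mem (mul_mem hzM hx) (mul_mem hx hzM))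
    have h4 : n2 ξ ((z * w - w * z) * z) ≤ n2 ξ (z * x - x * z) := by
      have h5 := T.n2_mul_le' (sub_mem (mul_mem hzM hwM) (mul_mem hwM hzM)) hzM
      have h6 : ‖z‖ ≤ 1 := S.norm_le _
      have h7 := norm_nonneg z
      have h8 := n2_nonneg ξ (z * w - w * z)
      nlinarith
    have h5 : n2 ξ ((1 / 2 : ℂ) • ((z * w - w * z) * z)) ≤ n2 ξ (z * x - x * z) := by
      rw [n2_smul]
      have h6 : ‖(1 / 2 : ℂ)‖ = 1 / 2 := by norm_num
      rw [h6]
      have h7 := n2_nonneg ξ ((z * w - w * z) * z)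
      linarith
    rw [h1]
    have h6 := n2_add_le T.summ (w - x) ((1 / 2 : ℂ) • ((z * w - w * z) * z))
    linarith

end Pool.Agent.HFT
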