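import Pool.Agent.HFT.G2a

set_option autoImplicit false
set_option linter.unusedSectionVars false

/-! # Module G2b (4 points): the ultralimit `Em` of the averages

`Em Z m x = uL (fun k => Thk Z m k x)`, bound `‖x‖` for all terms (`Thk_norm`); `uL_*` from Lim.
* `Em_mem`: `vn_mem_iff` (HK/VN1), `uL_mul_left`, `uL_mul_right`.
* `Em_CZ`: for `k > j - m` the terms commute with `Z j` (`Thk_CZ`): `uL_congr`.
* `Em_fix`: `Thk_fix`, `uL_const`.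
* `Em_n2`: a weak limit along the hyperfilter of operators with `n2 (S k) ≤ c` has `n2 ≤ c`: for a
  finite set `F` of indices `∑_F ‖L ξ i‖² = lim ∑_F ⟪L ξ i, S k ξ i⟫ ≤ (∑_F ‖L ξ i‖²)^(1/2) c`
  (Cauchy-Schwarz), so `∑_F ‖L ξ i‖² ≤ c²`; then take the supremum over `F`
  (`n2_sq`, `Real.tsum_le_of_sum_le` / `tsum_le_of_sum_le`). This is `n2_uL`.
* `Em_tendsto`: given `ε` take `y ∈ M` with `CZ Z m₀ y`, `n2 (x - y) < ε`; for `m ≥ m₀`
  `Em m y = y`, so `Em m x - x = Em m (x - y) + (y - x)`. -/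

namespace Pool.Agent.HFT

open Pool.Agent.HK Filter Topology

variable {H : Type} [NormedAddCommGroup H] [InnerProductSpace ℂ H] [CompleteSpace H]
variable {M : VonNeumannAlgebra H} {ξ : ℕ → H} {Z : ℕ → H →L[ℂ] H}

/-- the average over all positions `≥ m` -/
noncomputable def Em (Z : ℕ → H →L[ℂ] H) (m : ℕ) (x : H →L[ℂ] H) : H →L[ℂ] H :=
  uL (fun k => Thk Z m k x)

theorem n2_uL (hξ : Summable fun i => ‖ξ i‖ ^ 2) {S : ℕ → H →L[ℂ] H} {C c : ℝ} (hc : 0 ≤ c)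
    (h : ∀ k, ‖S k‖ ≤ C) (h2 : ∀ k, n2 ξ (S k) ≤ c) : n2 ξ (uL S) ≤ c := by
  unfold n2
  rw [Real.sqrt_le_iff]
  refine ⟨hc, ?_⟩
  refine (smm hξ (uL S)).tsum_le_of_sum_le fun F => ?_
  have h3 : Tendsto (fun k => ∑ i ∈ F, 2 * (inner ℂ (uL S (ξ i)) (S k (ξ i)) : ℂ).re)
      (hyperfilter ℕ : Filter ℕ)
      (𝓝 (∑ i ∈ F, 2 * (inner ℂ (uL S (ξ i)) (uL S (ξ i)) : ℂ).re)) := by
    refine tendsto_finsetSum F fun i _ => ?_
    exact ((Complex.continuous_re.tendsto _).comp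
      (uL_tendsto h (ξ i) (uL S (ξ i)))).const_mul 2
  have h4 : ∀ k, ∑ i ∈ F, 2 * (inner ℂ (uL S (ξ i)) (S k (ξ i)) : ℂ).re ≤
      ∑ i ∈ F, ‖uL S (ξ i)‖ ^ 2 + c ^ 2 := by
    intro k
    have h5 : ∑ i ∈ F, ‖S k (ξ i)‖ ^ 2 ≤ c ^ 2 := by
      have h6 : ∑ i ∈ F, ‖S k (ξ i)‖ ^ 2 ≤ n2 ξ (S k) ^ 2 := by
        rw [n2_sq]
        exact (smm hξ (S k)).sum_le_tsum F (fun i _ => by positivity)
      exact h6.trans (pow_le_pow_left₀ (n2_nonneg _ _) (h2 k) 2)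
    have h6 : ∑ i ∈ F, 2 * (inner ℂ (uL S (ξ i)) (S k (ξ i)) : ℂ).re ≤
        ∑ i ∈ F, (‖uL S (ξ i)‖ ^ 2 + ‖S k (ξ i)‖ ^ 2) := by
      refine Finset.sum_le_sum fun i _ => ?_
      have h7 : (inner ℂ (uL S (ξ i)) (S k (ξ i)) : ℂ).re ≤ ‖uL S (ξ i)‖ * ‖S k (ξ i)‖ :=
        (Complex.re_le_norm _).trans (norm_inner_le_norm _ _)
      nlinarith [sq_nonneg (‖uL S (ξ i)‖ - ‖S k (ξ i)‖)]
    rw [Finset.sum_add_distrib] at h6
    linarith
  have h5 := le_of_tendsto h3 (Filter.Eventually.of_forall h4)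
  have h6 : ∀ i, (inner ℂ (uL S (ξ i)) (uL S (ξ i)) : ℂ).re = ‖uL S (ξ i)‖ ^ 2 := by
    intro i
    rw [inner_self_eq_norm_sq_to_K]
    norm_cast
  simp only [h6] at h5
  rw [← Finset.mul_sum] at h5
  linarith

theorem uL_mem (M : VonNeumannAlgebra H) {S : ℕ → H →L[ℂ] H} {C : ℝ} (h : ∀ k, ‖S k‖ ≤ C)
    (hM : ∀ k, S k ∈ M) : uL S ∈ M := by
  rw [vn_mem_iff]
  intro y hy
  rw [← uL_mul_left h y, ← uL_mul_right h y]
  congr 1
  funext k
  exact vn_commute (hM k) hy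

private theorem g2b_bd (S : SymS M Z) (m : ℕ) (x : H →L[ℂ] H) (k : ℕ) :
    ‖Thk Z m k x‖ ≤ ‖x‖ := Thk_norm S m k x

theorem Em_mem (S : SymS M Z) (m : ℕ) {x : H →L[ℂ] H} (hx : x ∈ M) : Em Z m x ∈ M :=
  uL_mem M (fun k => g2b_bd S m x k) (fun k => Thk_mem S m k hx)

theorem Em_CZ (S : SymS M Z) (m : ℕ) (x : H →L[ℂ] H) : CZ Z m (Em Z m x) := by
  intro j hj
  unfold Em
  have hb := fun k => g2b_bd S m x k
  rw [← uL_mul_left hb (Z j), ← uL_mul_right hb (Z j)]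
  refine uL_congr (C := ‖x‖) (fun k => ?_) (fun k => ?_) (j + 1 - m) (fun k hk => ?_)
  · have h1 := norm_mul_le (Z j) (Thk Z m k x)
    have h2 := S.norm_le j
    have h3 := hb k
    have h4 := norm_nonneg (Z j)
    have h5 := norm_nonneg (Thk Z m k x)
    nlinarith
  · have h1 := norm_mul_le (Thk Z m k x) (Z j)
    have h2 := S.norm_le j
    have h3 := hb k
    have h4 := norm_nonneg (Z j)
    have h5 := norm_nonneg (Thk Z m k x)
    nlinarith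
  · exact Thk_CZ S m k j hj (by omega) x

theorem Em_fix (S : SymS M Z) {m : ℕ} {x : H →L[ℂ] H} (h : CZ Z m x) : Em Z m x = x := by
  unfold Em
  have h1 : (fun k => Thk Z m k x) = fun _ => x := by
    funext k
    exact Thk_fix S m k fun j hj _ => h j hj
  rw [h1, uL_const]

theorem Em_norm (S : SymS M Z) (m : ℕ) (x : H →L[ℂ] H) : ‖Em Z m x‖ ≤ ‖x‖ :=
  uL_norm (fun k => g2b_bd S m x k)

theorem Em_sub (S : SymS M Z) (m : ℕ) (x y : H →L[ℂ] H) :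
    Em Z m (x - y) = Em Z m x - Em Z m y := by
  unfold Em
  have hx : ∀ k, ‖Thk Z m k x‖ ≤ ‖x‖ + ‖y‖ := fun k =>
    (g2b_bd S m x k).trans (le_add_of_nonneg_right (norm_nonneg _))
  have hy : ∀ k, ‖Thk Z m k y‖ ≤ ‖x‖ + ‖y‖ := fun k =>
    (g2b_bd S m y k).trans (le_add_of_nonneg_left (norm_nonneg _))
  rw [← uL_sub hx hy]
  congr 1
  funext k
  exact Thk_sub m k x y

theorem Em_n2 (T : TrF M ξ) (S : SymS M Z) (m : ℕ) {x : H →L[ℂ] H} (hx : x ∈ M) :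
    n2 ξ (Em Z m x) ≤ n2 ξ x :=
  n2_uL T.summ (n2_nonneg _ _) (fun k => g2b_bd S m x k) (fun k => Thk_n2 T S m k hx)

theorem Em_comm (S : SymS M Z) (m : ℕ) {c : H →L[ℂ] H} (hc : CZ Z m c) {x : H →L[ℂ] H}
    (h : c * x = x * c) : c * Em Z m x = Em Z m x * c := by
  unfold Em
  have hb := fun k => g2b_bd S m x k
  rw [← uL_mul_left hb c, ← uL_mul_right hb c]
  congr 1
  funext k
  exact Thk_comm m k (fun j hj _ => hc j hj) h

private theorem g2b_CZ_mono {m n : ℕ} (h : m ≤ n) {y : H →L[ℂ] H} (hy : CZ Z m y) : CZ Z n y :=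
  fun j hj => hy j (h.trans hj)

theorem Em_tendsto (A : Gam M ξ Z) {x : H →L[ℂ] H} (hx : x ∈ M) :
    Tendsto (fun m => n2 ξ (Em Z m x - x)) atTop (𝓝 0) := by
  rw [Metric.tendsto_atTop]
  intro ε hε
  obtain ⟨m₀, y, hy, hyc, hyn⟩ := A.dense x hx (ε / 2) (by linarith)
  refine ⟨m₀, fun m hm => ?_⟩
  rw [Real.dist_eq, sub_zero, abs_of_nonneg (n2_nonneg _ _)]
  have h1 : Em Z m x - x = Em Z m (x - y) + (-(x - y)) := by
    rw [Em_sub A.sym, Em_fix A.sym (g2b_CZ_mono hm hyc)]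
    abel
  have h2 := Em_n2 A.trf A.sym m (sub_mem hx hy)
  have h3 := n2_add_le A.trf.summ (Em Z m (x - y)) (-(x - y))
  rw [n2_neg] at h3
  rw [h1]
  linarith

/-- if the commutators with `x` are summable, the averages converge to `x` -/
theorem Em_dist (T : TrF M ξ) (S : SymS M Z) (m : ℕ) {x : H →L[ℂ] H} (hx : x ∈ M) (c : ℝ)
    (hc : 0 ≤ c)
    (h : ∀ k, ∑ j ∈ Finset.range k, n2 ξ (Z (m + j) * x - x * Z (m + j)) ≤ c) :
    n2 ξ (Em Z m x - x) ≤ c := by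
  have hb : ∀ k, ‖Thk Z m k x‖ ≤ ‖x‖ := fun k => g2b_bd S m x k
  have h1 : Em Z m x - x = uL (fun k => Thk Z m k x - x) := by
    unfold Em
    rw [uL_sub (S' := fun _ => x) hb (fun _ => le_rfl), uL_const]
  rw [h1]
  refine n2_uL (C := ‖x‖ + ‖x‖) T.summ hc (fun k => ?_) (fun k => ?_)
  · exact (norm_sub_le _ _).trans (add_le_add (hb k) le_rfl)
  · exact (Thk_dist T S m k hx).trans (h k)

end Pool.Agent.HFT
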