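import Pool.Agent.HFT.Op
import Pool.Agent.HFT.Cut
import Pool.Agent.HFT.Join
import Pool.Agent.HFT.Nrm

set_option autoImplicit false
set_option linter.unusedSectionVars false

/-! # Module G3 (4 points): strong continuity of normal maps

Let `S` be normal with values in the operators, `v` a vector, `y m` bounded with `n2 (y m) → 0`. Then
`S (y m) v → 0` in norm (weakly is `NormalT.seq`).

Proof. Suppose not; after scaling (`‖y m‖ ≤ 1`) there are `c > 0` and arbitrarily large `m` with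
`‖S (y m) v‖ ≥ 2 c`. Choose `η > 0` with `‖S‖ * (2 η) * ‖v‖ ≤ c`; `TrF.cut` for `y m` and `η`: a projection `q`
with `‖y m - q (y m) q‖ ≤ 2 η`, `n2 q ≤ √2 n2 (y m)/η` small. So:
(*) for every `δ > 0` there are `x ∈ M`, a projection `q ∈ M` with `‖x‖ ≤ 1`, `q x q = x`, `n2 q ≤ δ`,
`‖S x v‖ ≥ c`.
Claim: for every `J : ℕ` and `δ > 0` there are `x`, `Q` with `‖x‖ ≤ 1`, `Q x Q = x`, `n2 Q ≤ δ` and
`J * (c/2)² ≤ ‖S x v‖²`. Induction: `J = 0` trivial (`x = 0`, `Q = 0`). Step: take `(x, Q)` for `J` and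
`δ/2`. Take `(x_k, q_k)` from (*) with `δ_k → 0`, `δ_k ≤ δ/2`. `x'_k = (1 - q_k) x (1 - q_k)`; `n2 (x'_k - x) → 0`
(`n2 (q_k x) ≤ n2 q_k ‖x‖`, ...), so `S (x'_k) v → S x v` weakly (`NormalT.seq`) and
`‖S x v‖² ≤ ‖S x v‖ liminf ‖S (x'_k) v‖`: more precisely for large `k`
`‖S (x'_k) v‖² ≥ ‖S x v‖² - (c/2)²` (if `u_k → u` weakly then `liminf ‖u_k‖ ≥ ‖u‖`: from
`‖u_k‖² ≥ 2 Re ⟪u_k, u⟫ - ‖u‖²`). By the parallelogram identity
`‖S (x' + x_k) v‖² + ‖S (x' - x_k) v‖² = 2 ‖S x' v‖² + 2 ‖S x_k v‖² ≥ 2 (‖S x v‖² - (c/2)²) + 2 c²`, so for one of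
the signs `‖S (x' ± x_k) v‖² ≥ ‖S x v‖² + (3/4) c² ≥ (J + 1)(c/2)²`. `norm_orth` with `f = q_k`:
`‖x' ± x_k‖ ≤ 1`. The new projection is `TrF.join2` of `Q` and `q_k`: `n2² ≤ δ²/4 + δ²/4 ≤ δ²`, and
`P x' P = x'` since `P Q = Q`, `P q_k = q_k` (and adjoints), `x' = (1 - q) Q x Q (1 - q)`.
For `J (c/2)² > ‖S‖² ‖v‖²` the claim is absurd. -/

namespace Pool.Agent.HFT

open Pool.Agent.HK Filter Topology

variable {H : Type} [NormedAddCommGroup H] [InnerProductSpace ℂ H] [CompleteSpace H]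
variable {M : VonNeumannAlgebra H} {ξ : ℕ → H}

private theorem G3_proj_norm {q : H →L[ℂ] H} (hq : IsStarProjection q) : ‖q‖ ≤ 1 :=
  hq.norm_le

private theorem G3_one_sub {q : H →L[ℂ] H} (hq : IsStarProjection q) :
    IsStarProjection (1 - q) := hq.one_sub

/-- the starting point (*) -/
private theorem G3_star {S : RA M →L[ℂ] (H →L[ℂ] H)} (T : TrF M ξ) (v : H)
    (y : ℕ → RA M) (hC : ∀ m, ‖y m‖ ≤ 1)
    (hy : Tendsto (fun m => n2 ξ (y m).1) atTop (𝓝 0)) (c : ℝ) (hc : 0 < c)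
    (hbig : ∃ᶠ m in atTop, 2 * c ≤ ‖S (y m) v‖) (δ : ℝ) (hδ : 0 < δ) :
    ∃ x q : RA M, IsStarProjection q.1 ∧ ‖x.1‖ ≤ 1 ∧ q.1 * x.1 * q.1 = x.1 ∧ n2 ξ q.1 ≤ δ ∧
      c ≤ ‖S x v‖ := by
  set η : ℝ := c / (2 * (‖S‖ + 1) * (‖v‖ + 1)) with hη
  have hS0 : 0 ≤ ‖S‖ := norm_nonneg _
  have hv0 : 0 ≤ ‖v‖ := norm_nonneg _
  have hηpos : 0 < η := by positivity
  have hηS : ‖S‖ * (2 * η) * ‖v‖ ≤ c := by
    have h1 : ‖S‖ * (2 * η) * ‖v‖ ≤ (‖S‖ + 1) * (2 * η) * (‖v‖ + 1) := by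
      gcongr <;> linarith
    have h2 : (‖S‖ + 1) * (2 * η) * (‖v‖ + 1) = c := by
      rw [hη]; field_simp
    linarith
  have hsmall : ∀ᶠ m in atTop, n2 ξ (y m).1 < η * δ / 2 := by
    have h3 : (0 : ℝ) < η * δ / 2 := by positivity
    exact (tendsto_order.1 hy).2 _ h3
  obtain ⟨m, hm1, hm2⟩ := (hbig.and_eventually hsmall).exists
  obtain ⟨q, hq, hq1, hq2⟩ := T.cut (y m).1 (y m).2 η hηpos
  have hqn : ‖q‖ ≤ 1 := G3_proj_norm hq.2
  have hqq : q * q = q := hq.2.isIdempotentElem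
  let Q : RA M := ⟨q, hq.1⟩
  have hn0 : 0 ≤ n2 ξ (y m).1 := n2_nonneg _ _
  have hnq : n2 ξ q ≤ δ := by
    have h4 : η ^ 2 * n2 ξ q ^ 2 ≤ η ^ 2 * δ ^ 2 := by
      have h5 : 2 * n2 ξ (y m).1 ^ 2 ≤ 2 * (η * δ / 2) ^ 2 := by
        gcongr
      nlinarith [sq_nonneg (η * δ)]
    have h6 : n2 ξ q ^ 2 ≤ δ ^ 2 := le_of_mul_le_mul_left h4 (by positivity)
    exact abs_le_of_sq_le_sq' h6 hδ.le |>.2
  refine ⟨Q * y m * Q, Q, hq.2, ?_, ?_, hnq, ?_⟩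
  · show ‖q * (y m).1 * q‖ ≤ 1
    calc ‖q * (y m).1 * q‖ ≤ ‖q * (y m).1‖ * ‖q‖ := norm_mul_le _ _
      _ ≤ (‖q‖ * ‖(y m).1‖) * ‖q‖ := by gcongr; exact norm_mul_le _ _
      _ ≤ (1 * 1) * 1 := by
          have : ‖(y m).1‖ ≤ 1 := hC m
          gcongr
      _ = 1 := by norm_num
  · show q * (q * (y m).1 * q) * q = q * (y m).1 * q
    calc q * (q * (y m).1 * q) * q = (q * q) * (y m).1 * (q * q) := by noncomm_ring
      _ = _ := by rw [hqq]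
  · have h7 : ‖S (y m - Q * y m * Q) v‖ ≤ c := by
      have h8 : ‖y m - Q * y m * Q‖ ≤ 2 * η := hq1
      calc ‖S (y m - Q * y m * Q) v‖ ≤ ‖S (y m - Q * y m * Q)‖ * ‖v‖ :=
            ContinuousLinearMap.le_opNorm _ _
        _ ≤ (‖S‖ * ‖y m - Q * y m * Q‖) * ‖v‖ := by
            gcongr; exact ContinuousLinearMap.le_opNorm _ _
        _ ≤ (‖S‖ * (2 * η)) * ‖v‖ := by gcongr
        _ ≤ c := hηS
    have h9 : S (y m) v = S (y m - Q * y m * Q) v + S (Q * y m * Q) v := by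
      rw [← add_apply, ← map_add]
      congr 2
      abel
    have h10 : ‖S (y m) v‖ ≤ ‖S (y m - Q * y m * Q) v‖ + ‖S (Q * y m * Q) v‖ := by
      rw [h9]; exact norm_add_le _ _
    linarith

private theorem G3_claim {S : RA M →L[ℂ] (H →L[ℂ] H)} (h : NormalT ξ S) (T : TrF M ξ) (v : H)
    (c : ℝ) (hc : 0 < c)
    (hstar : ∀ δ : ℝ, 0 < δ → ∃ x q : RA M, IsStarProjection q.1 ∧ ‖x.1‖ ≤ 1 ∧
      q.1 * x.1 * q.1 = x.1 ∧ n2 ξ q.1 ≤ δ ∧ c ≤ ‖S x v‖) (J : ℕ) :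
    ∀ δ : ℝ, 0 < δ → ∃ x Q : RA M, IsStarProjection Q.1 ∧ ‖x.1‖ ≤ 1 ∧
      Q.1 * x.1 * Q.1 = x.1 ∧ n2 ξ Q.1 ≤ δ ∧ J * (c / 2) ^ 2 ≤ ‖S x v‖ ^ 2 := by
  induction J with
  | zero =>
    intro δ hδ
    refine ⟨0, 0, ?_, ?_, ?_, ?_, ?_⟩
    · show IsStarProjection (0 : H →L[ℂ] H)
      exact IsStarProjection.zero _
    · show ‖(0 : H →L[ℂ] H)‖ ≤ 1
      simp
    · show (0 : H →L[ℂ] H) * 0 * 0 = 0
      simp
    · show n2 ξ (0 : H →L[ℂ] H) ≤ δ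
      rw [n2_zero]; exact hδ.le
    · simp
  | succ J ih =>
    intro δ hδ
    obtain ⟨x, Q, hQ, hx1, hQx, hnQ, hJ⟩ := ih (δ / 2) (by positivity)
    have hδk : ∀ k : ℕ, 0 < min (δ / 2) (1 / ((k : ℝ) + 1)) := fun k => by positivity
    choose xk qk hqk hxk1 hqxk hnqk hck using fun k : ℕ => hstar _ (hδk k)
    have hnq2 : ∀ k, n2 ξ (qk k).1 ≤ δ / 2 := fun k => (hnqk k).trans (min_le_left _ _)
    have hnq1 : ∀ k : ℕ, n2 ξ (qk k).1 ≤ 1 / ((k : ℝ) + 1) := fun k =>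
      (hnqk k).trans (min_le_right _ _)
    have hqn : ∀ k, ‖(qk k).1‖ ≤ 1 := fun k => G3_proj_norm (hqk k)
    have h1qn : ∀ k, ‖1 - (qk k).1‖ ≤ 1 := fun k => G3_proj_norm (G3_one_sub (hqk k))
    let x' : ℕ → RA M := fun k => (1 - qk k) * x * (1 - qk k)
    have hx'v : ∀ k, (x' k).1 = (1 - (qk k).1) * x.1 * (1 - (qk k).1) := fun k => rfl
    have hx'n : ∀ k, ‖x' k‖ ≤ 1 := by
      intro k
      show ‖(1 - (qk k).1) * x.1 * (1 - (qk k).1)‖ ≤ 1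
      calc ‖(1 - (qk k).1) * x.1 * (1 - (qk k).1)‖
          ≤ ‖(1 - (qk k).1) * x.1‖ * ‖1 - (qk k).1‖ := norm_mul_le _ _
        _ ≤ (‖1 - (qk k).1‖ * ‖x.1‖) * ‖1 - (qk k).1‖ := by gcongr; exact norm_mul_le _ _
        _ ≤ (1 * 1) * 1 := by
            have := h1qn k
            gcongr
        _ = 1 := by norm_num
    have hxM : x.1 ∈ M := x.2
    have hqM : ∀ k, (qk k).1 ∈ M := fun k => (qk k).2
    have hdiff : ∀ k, n2 ξ ((x' k).1 - x.1) ≤ 3 * (1 / ((k : ℝ) + 1)) := by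
      intro k
      have e1 : (x' k).1 - x.1 = -((qk k).1 * x.1) + (-(x.1 * (qk k).1))
          + (qk k).1 * x.1 * (qk k).1 := by
        rw [hx'v]; noncomm_ring
      have a1 : n2 ξ ((qk k).1 * x.1) ≤ n2 ξ (qk k).1 := by
        have := T.n2_mul_le' (hqM k) hxM
        have h0 := n2_nonneg ξ (qk k).1
        nlinarith
      have a2 : n2 ξ (x.1 * (qk k).1) ≤ n2 ξ (qk k).1 := by
        have := n2_mul_le T.summ x.1 (qk k).1
        have h0 := n2_nonneg ξ (qk k).1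
        nlinarith
      have a3 : n2 ξ ((qk k).1 * x.1 * (qk k).1) ≤ n2 ξ (qk k).1 := by
        have h1 := n2_mul_le T.summ ((qk k).1 * x.1) (qk k).1
        have h2 : ‖(qk k).1 * x.1‖ ≤ 1 := by
          calc ‖(qk k).1 * x.1‖ ≤ ‖(qk k).1‖ * ‖x.1‖ := norm_mul_le _ _
            _ ≤ 1 * 1 := by
                have := hqn k
                gcongr
            _ = 1 := by norm_num
        have h0 := n2_nonneg ξ (qk k).1
        nlinarith
      rw [e1]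
      have b1 := n2_add_le T.summ (-((qk k).1 * x.1) + (-(x.1 * (qk k).1)))
        ((qk k).1 * x.1 * (qk k).1)
      have b2 := n2_add_le T.summ (-((qk k).1 * x.1)) (-(x.1 * (qk k).1))
      rw [n2_neg, n2_neg] at b2
      have b3 := hnq1 k
      linarith
    have hlim0 : Tendsto (fun k => n2 ξ ((x' k).1 - x.1)) atTop (𝓝 0) := by
      refine squeeze_zero (fun k => n2_nonneg _ _) hdiff ?_
      have := (tendsto_one_div_add_atTop_nhds_zero_nat (𝕜 := ℝ)).const_mul 3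
      simpa using this
    have hw := h.seq T x' x 1 hx'n hlim0 v (S x v)
    have hw2 : Tendsto (fun k => (inner ℂ (S x v) (S (x' k) v) : ℂ).re) atTop
        (𝓝 ((inner ℂ (S x v) (S x v) : ℂ).re)) :=
      (Complex.continuous_re.tendsto _).comp hw
    have hself : (inner ℂ (S x v) (S x v) : ℂ).re = ‖S x v‖ ^ 2 := by
      have := inner_self_eq_norm_sq (𝕜 := ℂ) (S x v)
      simpa using this
    rw [hself] at hw2
    have hev : ∀ᶠ k in atTop, ‖S x v‖ ^ 2 - (c / 2) ^ 2 / 2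
        < (inner ℂ (S x v) (S (x' k) v) : ℂ).re := by
      have h3 : ‖S x v‖ ^ 2 - (c / 2) ^ 2 / 2 < ‖S x v‖ ^ 2 := by
        have : 0 < (c / 2) ^ 2 := by positivity
        linarith
      exact (tendsto_order.1 hw2).1 _ h3
    obtain ⟨k, hk⟩ := hev.exists
    have hlow : ‖S x v‖ ^ 2 - (c / 2) ^ 2 ≤ ‖S (x' k) v‖ ^ 2 := by
      have e : ‖S (x' k) v - S x v‖ ^ 2
          = ‖S (x' k) v‖ ^ 2 - 2 * (inner ℂ (S x v) (S (x' k) v) : ℂ).re + ‖S x v‖ ^ 2 := by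
        have h4 := norm_sub_sq (𝕜 := ℂ) (S (x' k) v) (S x v)
        rw [h4]
        have h5 : RCLike.re (inner ℂ (S (x' k) v) (S x v) : ℂ)
            = (inner ℂ (S x v) (S (x' k) v) : ℂ).re := by
          rw [inner_re_symm]; rfl
        rw [h5]
      nlinarith [sq_nonneg ‖S (x' k) v - S x v‖]
    -- parallelogram
    have hpar := parallelogram_law_with_norm ℂ (S (x' k) v) (S (xk k) v)
    have hck2 : c ^ 2 ≤ ‖S (xk k) v‖ ^ 2 := by
      have := hck k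
      gcongr
    -- the new projection
    obtain ⟨P, hP, hPQ, hPq, hnP, -⟩ := T.join2 (p := Q.1) (q := (qk k).1)
      ⟨Q.2, hQ⟩ ⟨(qk k).2, hqk k⟩
    have hstarP : star P = P := hP.2.isSelfAdjoint
    have hQP : Q.1 * P = Q.1 := by
      have h6 := congrArg star hPQ
      rw [star_mul, hstarP] at h6
      rwa [show star Q.1 = Q.1 from hQ.isSelfAdjoint] at h6
    have hqP : (qk k).1 * P = (qk k).1 := by
      have h6 := congrArg star hPq
      rw [star_mul, hstarP] at h6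
      rwa [show star (qk k).1 = (qk k).1 from (hqk k).isSelfAdjoint] at h6
    have hPδ : n2 ξ P ≤ δ := by
      have h7 := hnq2 k
      have h8 : n2 ξ P ^ 2 ≤ δ ^ 2 := by
        have h9 : n2 ξ Q.1 ^ 2 ≤ (δ / 2) ^ 2 := by
          have := n2_nonneg ξ Q.1
          gcongr
        have h10 : n2 ξ (qk k).1 ^ 2 ≤ (δ / 2) ^ 2 := by
          have := n2_nonneg ξ (qk k).1
          gcongr
        nlinarith [sq_nonneg δ]
      exact abs_le_of_sq_le_sq' h8 hδ.le |>.2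
    have hPx' : P * (x' k).1 * P = (x' k).1 := by
      have e1 : (x' k).1 = (Q.1 - (qk k).1 * Q.1) * x.1 * (Q.1 - Q.1 * (qk k).1) := by
        rw [hx'v]
        conv_lhs => rw [← hQx]
        noncomm_ring
      have e2 : P * (Q.1 - (qk k).1 * Q.1) = Q.1 - (qk k).1 * Q.1 := by
        rw [mul_sub, ← mul_assoc, hPQ, hPq]
      have e3 : (Q.1 - Q.1 * (qk k).1) * P = Q.1 - Q.1 * (qk k).1 := by
        rw [sub_mul, mul_assoc, hQP, hqP]
      rw [e1]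
      calc P * ((Q.1 - (qk k).1 * Q.1) * x.1 * (Q.1 - Q.1 * (qk k).1)) * P
          = (P * (Q.1 - (qk k).1 * Q.1)) * x.1 * ((Q.1 - Q.1 * (qk k).1) * P) := by
            noncomm_ring
        _ = _ := by rw [e2, e3]
    have hPxk : P * (xk k).1 * P = (xk k).1 := by
      conv_lhs => rw [← hqxk k]
      calc P * ((qk k).1 * (xk k).1 * (qk k).1) * P
          = (P * (qk k).1) * (xk k).1 * ((qk k).1 * P) := by noncomm_ring
        _ = (xk k).1 := by rw [hPq, hqP, hqxk k]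
    have hqq : (qk k).1 * (qk k).1 = (qk k).1 := (hqk k).isIdempotentElem
    have h1q : (1 - (qk k).1) * (1 - (qk k).1) = 1 - (qk k).1 :=
      (G3_one_sub (hqk k)).isIdempotentElem
    have hx'f : (1 - (qk k).1) * (x' k).1 * (1 - (qk k).1) = (x' k).1 := by
      rw [hx'v]
      calc (1 - (qk k).1) * ((1 - (qk k).1) * x.1 * (1 - (qk k).1)) * (1 - (qk k).1)
          = ((1 - (qk k).1) * (1 - (qk k).1)) * x.1 * ((1 - (qk k).1) * (1 - (qk k).1)) := by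
            noncomm_ring
        _ = _ := by rw [h1q]
    have hnplus : ‖(xk k).1 + (x' k).1‖ ≤ 1 :=
      norm_orth (hqk k) (hqxk k) hx'f (hxk1 k) (hx'n k)
    have hnminus : ‖(-(xk k).1) + (x' k).1‖ ≤ 1 := by
      refine norm_orth (hqk k) ?_ hx'f ?_ (hx'n k)
      · rw [mul_neg, neg_mul, hqxk k]
      · rw [norm_neg]; exact hxk1 k
    have hgoal : ∀ u : RA M, ‖u.1‖ ≤ 1 → P * u.1 * P = u.1 →
        ((J + 1 : ℕ) : ℝ) * (c / 2) ^ 2 ≤ ‖S u v‖ ^ 2 →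
        ∃ x Q : RA M, IsStarProjection Q.1 ∧ ‖x.1‖ ≤ 1 ∧
          Q.1 * x.1 * Q.1 = x.1 ∧ n2 ξ Q.1 ≤ δ ∧
          ((J + 1 : ℕ) : ℝ) * (c / 2) ^ 2 ≤ ‖S x v‖ ^ 2 := by
      intro u hu1 hu2 hu3
      exact ⟨u, ⟨P, hP.1⟩, hP.2, hu1, hu2, hPδ, hu3⟩
    have hplus : S (x' k + xk k) v = S (x' k) v + S (xk k) v := by
      rw [map_add, add_apply]
    have hminus : S (x' k - xk k) v = S (x' k) v - S (xk k) v := by
      rw [map_sub, sub_apply]
    have hJ1 : ((J + 1 : ℕ) : ℝ) * (c / 2) ^ 2 = J * (c / 2) ^ 2 + (c / 2) ^ 2 := by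
      push_cast; ring
    by_cases hcase : ((J + 1 : ℕ) : ℝ) * (c / 2) ^ 2 ≤ ‖S (x' k) v + S (xk k) v‖ ^ 2
    · refine hgoal (x' k + xk k) ?_ ?_ ?_
      · show ‖(x' k).1 + (xk k).1‖ ≤ 1
        rw [add_comm]; exact hnplus
      · show P * ((x' k).1 + (xk k).1) * P = (x' k).1 + (xk k).1
        rw [mul_add, add_mul, hPx', hPxk]
      · rw [hplus]; exact hcase
    · refine hgoal (x' k - xk k) ?_ ?_ ?_
      · show ‖(x' k).1 - (xk k).1‖ ≤ 1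
        have : (x' k).1 - (xk k).1 = (-(xk k).1) + (x' k).1 := by abel
        rw [this]; exact hnminus
      · show P * ((x' k).1 - (xk k).1) * P = (x' k).1 - (xk k).1
        rw [mul_sub, sub_mul, hPx', hPxk]
      · rw [hminus]
        rw [not_le, hJ1] at hcase
        rw [hJ1]
        have : (c / 2) ^ 2 = c ^ 2 / 4 := by ring
        have hc2 : 0 < c ^ 2 := by positivity
        linarith

theorem NormalT.vec {S : RA M →L[ℂ] (H →L[ℂ] H)} (h : NormalT ξ S) (T : TrF M ξ) (v : H)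
    (y : ℕ → RA M) (C : ℝ) (hC : ∀ m, ‖y m‖ ≤ C)
    (hy : Tendsto (fun m => n2 ξ (y m).1) atTop (𝓝 0)) :
    Tendsto (fun m => S (y m) v) atTop (𝓝 0) := by
  by_contra hcon
  have hcon2 : ∃ ε : ℝ, 0 < ε ∧ ∃ᶠ m in atTop, ε ≤ ‖S (y m) v‖ := by
    by_contra hno
    push Not at hno
    apply hcon
    rw [tendsto_zero_iff_norm_tendsto_zero]
    rw [Metric.tendsto_atTop]
    intro ε hε
    have h1 := hno ε hε
    obtain ⟨N, hN⟩ := eventually_atTop.1 h1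
    refine ⟨N, fun m hm => ?_⟩
    have h2 := hN m hm
    rw [Real.dist_eq, sub_zero, abs_of_nonneg (norm_nonneg _)]
    exact h2
  obtain ⟨ε, hε, hfr⟩ := hcon2
  set C' : ℝ := |C| + 1 with hC'
  have hC'pos : 0 < C' := by positivity
  have hCC' : C ≤ C' := by
    have := le_abs_self C
    linarith
  set y' : ℕ → RA M := fun m => ((1 / C' : ℝ) : ℂ) • y m with hy'
  have hcn : ‖((1 / C' : ℝ) : ℂ)‖ = 1 / C' := by
    rw [Complex.norm_real, Real.norm_eq_abs, abs_of_pos (by positivity)]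
  have h1 : ∀ m, ‖y' m‖ ≤ 1 := by
    intro m
    show ‖((1 / C' : ℝ) : ℂ) • y m‖ ≤ 1
    rw [norm_smul, hcn]
    have := hC m
    rw [div_mul_eq_mul_div, one_mul, div_le_one hC'pos]
    linarith
  have h2 : Tendsto (fun m => n2 ξ (y' m).1) atTop (𝓝 0) := by
    have e : (fun m => n2 ξ (y' m).1) = fun m => (1 / C') * n2 ξ (y m).1 := by
      funext m
      show n2 ξ (((1 / C' : ℝ) : ℂ) • (y m).1) = _
      rw [n2_smul, hcn]
    rw [e]
    simpa using hy.const_mul (1 / C')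
  set c : ℝ := ε / C' / 2 with hc
  have hcpos : 0 < c := by positivity
  have h3 : ∃ᶠ m in atTop, 2 * c ≤ ‖S (y' m) v‖ := by
    refine hfr.mono (fun m hm => ?_)
    show 2 * c ≤ ‖S (((1 / C' : ℝ) : ℂ) • y m) v‖
    rw [map_smul, smul_apply, norm_smul, hcn, hc]
    calc 2 * (ε / C' / 2) = 1 / C' * ε := by ring
      _ ≤ _ := by gcongr
  have hstar := G3_star (S := S) T v y' h1 h2 c hcpos h3
  obtain ⟨J, hJ⟩ := exists_nat_gt ((‖S‖ * ‖v‖) ^ 2 / (c / 2) ^ 2)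
  obtain ⟨x, Q, -, hx1, -, -, hx2⟩ := G3_claim h T v c hcpos hstar J 1 one_pos
  have hpos : 0 < (c / 2) ^ 2 := by positivity
  rw [div_lt_iff₀ hpos] at hJ
  have h4 : ‖S x v‖ ≤ ‖S‖ * ‖v‖ := by
    calc ‖S x v‖ ≤ ‖S x‖ * ‖v‖ := ContinuousLinearMap.le_opNorm _ _
      _ ≤ (‖S‖ * ‖x‖) * ‖v‖ := by gcongr; exact ContinuousLinearMap.le_opNorm _ _
      _ ≤ (‖S‖ * 1) * ‖v‖ := by
          have : ‖x‖ ≤ 1 := hx1
          gcongr
      _ = ‖S‖ * ‖v‖ := by ring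
  have h5 : ‖S x v‖ ^ 2 ≤ (‖S‖ * ‖v‖) ^ 2 := by gcongr
  linarith

end Pool.Agent.HFT
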