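import Pool.Agent.HFT.G3
import Pool.Agent.HFT.G0

set_option autoImplicit false
set_option linter.unusedSectionVars false

/-! # Module G4 (5 points): a primitive with values in the bounded operators

`A_j y = Z j (φ (Z j) y - φ y (Z j))`, `‖A_j y‖ ≤ 2 ‖φ‖ ‖y‖`; `ψ y = uL (fun j => A_j y)`, linear in `y`
(`uL_add`, `uL_smul`), bounded (`uL_norm`; `LinearMap.mkContinuous`).
Exact identity (`Z = Z j`, `Z² = 1`, from the cocycle identity at `(Z, x, y)`, `(x, Z, y)`, `(x, y, Z)`):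
`x A(y) - A(x y) + A(x) y = (x Z - Z x)(φ(Z, y) - φ(y, Z)) + φ(x, y) - Z φ(x, y) Z`
`  + Z φ(x Z - Z x, y) + Z φ(x, y Z - Z y)`.
Namely `x Z B - Z x B = (x Z - Z x) B` with `B y = φ(Z, y) - φ(y, Z)`, and
`x B(y) - B(x y) + B(x) y = [φ(Z, x) y - φ(Z, x y)] + [x φ(Z, y) - φ(x, Z) y] + [φ(x y, Z) - x φ(y, Z)]`
`= [Z φ(x, y) - φ(Z x, y)] + [φ(x Z, y) - φ(x, Z y)] + [φ(x, y Z) - φ(x, y) Z]`; multiply by `Z`.
Limit: `w_j = x Z j - Z j x` satisfies `‖w_j‖ ≤ 2 ‖x‖` and `n2 (w_j) → 0` (`comm_null`: given `ε` take `y ∈ M`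
commuting with `Z j` for `j ≥ m`, `n2 (x - y) < ε`; then `w_j = (x - y) Z j - Z j (x - y)` for `j ≥ m`).
* `⟪b, w_j B_j y a⟫ = ⟪w_j* b, B_j y a⟫`, `w_j* ` is again a bounded `n2`-null sequence of `M`, so
  `w_j* b → 0` (`TrF.sot`), and `B_j y a` is bounded;
* `Z j φ(x, y) Z j → 0` weakly: `Gam.kZ`;
* `⟪b, Z j (φ(w_j, y) a)⟫` is bounded by `‖b‖ ‖φ(w_j, y) a‖ → 0` by `NormalT.vec` for `φ.flip y`; in the
  same way `φ(x, w'_j) a → 0` by `NormalT.vec` for `φ x`, `w'_j = y Z j - Z j y`.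
So the right side converges weakly to `φ(x, y)`; the left side has ultralimit
`x ψ y - ψ (x y) + ψ x y` (`uL_mul_left`, `uL_mul_right`, `uL_sub`, `uL_add`); `uL_of_tendsto`. -/

namespace Pool.Agent.HFT

open Pool.Agent.HK Filter Topology

variable {H : Type} [NormedAddCommGroup H] [InnerProductSpace ℂ H] [CompleteSpace H]
variable {M : VonNeumannAlgebra H} {ξ : ℕ → H} {Z : ℕ → H →L[ℂ] H}

private theorem G4_comm_bound (S : SymS M Z) (x : H →L[ℂ] H) (j : ℕ) :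
    ‖x * Z j - Z j * x‖ ≤ 2 * ‖x‖ := by
  have hz := S.norm_le j
  calc ‖x * Z j - Z j * x‖ ≤ ‖x * Z j‖ + ‖Z j * x‖ := norm_sub_le _ _
    _ ≤ ‖x‖ * ‖Z j‖ + ‖Z j‖ * ‖x‖ := add_le_add (norm_mul_le _ _) (norm_mul_le _ _)
    _ ≤ ‖x‖ * 1 + 1 * ‖x‖ := by gcongr
    _ = 2 * ‖x‖ := by ring

theorem Gam.comm_null (A : Gam M ξ Z) {x : H →L[ℂ] H} (hx : x ∈ M) :
    Tendsto (fun j => n2 ξ (x * Z j - Z j * x)) atTop (𝓝 0) := by
  have T := A.trf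
  have hsum := T.summ
  rw [Metric.tendsto_atTop]
  intro ε hε
  obtain ⟨m, y, hy, hc, hn⟩ := A.dense x hx (ε / 2) (by positivity)
  refine ⟨m, fun j hj => ?_⟩
  have hz := A.sym.norm_le j
  have hxy : x - y ∈ M := M.toStarSubalgebra.toSubalgebra.sub_mem hx hy
  have e : x * Z j - Z j * x = (x - y) * Z j - Z j * (x - y) := by
    rw [sub_mul, mul_sub, hc j hj]
    abel
  rw [Real.dist_eq, sub_zero, abs_of_nonneg (n2_nonneg ξ _), e]
  have h1 : n2 ξ ((x - y) * Z j) ≤ n2 ξ (x - y) * ‖Z j‖ := T.n2_mul_le' hxy (A.sym.Zm j)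
  have h2 : n2 ξ (Z j * (x - y)) ≤ ‖Z j‖ * n2 ξ (x - y) := n2_mul_le hsum _ _
  have h0 := n2_nonneg ξ (x - y)
  calc n2 ξ ((x - y) * Z j - Z j * (x - y))
      ≤ n2 ξ ((x - y) * Z j) + n2 ξ (Z j * (x - y)) := n2_sub_le hsum _ _
    _ ≤ n2 ξ (x - y) * ‖Z j‖ + ‖Z j‖ * n2 ξ (x - y) := add_le_add h1 h2
    _ ≤ n2 ξ (x - y) * 1 + 1 * n2 ξ (x - y) := by gcongr
    _ < ε := by linarith

/-- the norm bound of `B_j y` -/
private theorem G4_B (S : SymS M Z) (φ : RA M →L[ℂ] RA M →L[ℂ] (H →L[ℂ] H)) (j : ℕ) (y : RA M) :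
    ‖φ (zA S j) y - φ y (zA S j)‖ ≤ 2 * ‖φ‖ * ‖y‖ := by
  have hz : ‖zA S j‖ ≤ 1 := S.norm_le j
  calc ‖φ (zA S j) y - φ y (zA S j)‖ ≤ ‖φ (zA S j) y‖ + ‖φ y (zA S j)‖ := norm_sub_le _ _
    _ ≤ ‖φ‖ * ‖zA S j‖ * ‖y‖ + ‖φ‖ * ‖y‖ * ‖zA S j‖ :=
        add_le_add (φ.le_opNorm₂ _ _) (φ.le_opNorm₂ _ _)
    _ ≤ ‖φ‖ * 1 * ‖y‖ + ‖φ‖ * ‖y‖ * 1 := by gcongr
    _ = 2 * ‖φ‖ * ‖y‖ := by ring

private theorem G4_ZB (S : SymS M Z) (φ : RA M →L[ℂ] RA M →L[ℂ] (H →L[ℂ] H)) (j : ℕ) (y : RA M) :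
    ‖Z j * (φ (zA S j) y - φ y (zA S j))‖ ≤ 2 * ‖φ‖ * ‖y‖ := by
  have hz := S.norm_le j
  calc ‖Z j * (φ (zA S j) y - φ y (zA S j))‖ ≤ ‖Z j‖ * ‖φ (zA S j) y - φ y (zA S j)‖ :=
        norm_mul_le _ _
    _ ≤ 1 * (2 * ‖φ‖ * ‖y‖) := by
        have := G4_B S φ j y
        gcongr
    _ = _ := one_mul _

/-- the algebraic identity -/
private theorem G4_id {R : Type} [Ring R] (P Y Zj f f1 f2 f3 f4 f5 f6 g1 g2 g3 g4 : R)
    (hZ : Zj * Zj = 1) (e1 : Zj * f - g1 + f3 - f5 * Y = 0)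
    (e2 : P * f1 - g2 + g3 - f6 * Y = 0) (e3 : P * f2 - f4 + g4 - f * Zj = 0) :
    P * (Zj * (f1 - f2)) - Zj * (f3 - f4) + Zj * (f5 - f6) * Y =
      (P * Zj - Zj * P) * (f1 - f2) + f - Zj * f * Zj + Zj * (g2 - g1) + Zj * (g4 - g3) := by
  have key : P * (f1 - f2) - (f3 - f4) + (f5 - f6) * Y =
      Zj * f - g1 + g2 - g3 + g4 - f * Zj := by
    rw [← sub_eq_zero]
    have h1 : P * (f1 - f2) - (f3 - f4) + (f5 - f6) * Y -
        (Zj * f - g1 + g2 - g3 + g4 - f * Zj) =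
        (P * f1 - g2 + g3 - f6 * Y) - (P * f2 - f4 + g4 - f * Zj) -
          (Zj * f - g1 + f3 - f5 * Y) := by
      rw [mul_sub, sub_mul]
      abel
    rw [h1, e1, e2, e3]
    simp
  have h2 : P * (Zj * (f1 - f2)) - Zj * (f3 - f4) + Zj * (f5 - f6) * Y =
      (P * Zj - Zj * P) * (f1 - f2) + Zj * (P * (f1 - f2) - (f3 - f4) + (f5 - f6) * Y) := by
    noncomm_ring
  have h3 : Zj * (Zj * f) = f := by rw [← mul_assoc, hZ, one_mul]
  rw [h2, key]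
  have h4 : Zj * (Zj * f - g1 + g2 - g3 + g4 - f * Zj) =
      Zj * (Zj * f) - Zj * g1 + Zj * g2 - Zj * g3 + Zj * g4 - Zj * f * Zj := by
    noncomm_ring
  rw [h4, h3, mul_sub Zj g2 g1, mul_sub Zj g4 g3]
  abel

private theorem G4_null {u : ℕ → H} (hu : Tendsto u atTop (𝓝 0)) {v : ℕ → H} {C : ℝ}
    (hv : ∀ j, ‖v j‖ ≤ C) : Tendsto (fun j => (inner ℂ (u j) (v j) : ℂ)) atTop (𝓝 0) := by
  have h1 : Tendsto (fun j => ‖u j‖ * C) atTop (𝓝 0) := by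
    have := (tendsto_norm_zero.comp hu).mul_const C
    simpa using this
  refine squeeze_zero_norm (fun j => ?_) h1
  exact (norm_inner_le_norm _ _).trans (mul_le_mul_of_nonneg_left (hv j) (norm_nonneg _))

private theorem G4_null' {u : ℕ → H} {C : ℝ} (hu : ∀ j, ‖u j‖ ≤ C) {v : ℕ → H}
    (hv : Tendsto v atTop (𝓝 0)) : Tendsto (fun j => (inner ℂ (u j) (v j) : ℂ)) atTop (𝓝 0) := by
  have h1 : Tendsto (fun j => C * ‖v j‖) atTop (𝓝 0) := by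
    have := (tendsto_norm_zero.comp hv).const_mul C
    simpa using this
  refine squeeze_zero_norm (fun j => ?_) h1
  exact (norm_inner_le_norm _ _).trans (mul_le_mul_of_nonneg_right (hu j) (norm_nonneg _))

theorem gprim (A : Gam M ξ Z) (φ : RA M →L[ℂ] RA M →L[ℂ] (H →L[ℂ] H))
    (hK : ∀ x y, IsCompactOperator (φ x y))
    (hn1 : ∀ y, NormalT ξ (φ.flip y)) (hn2 : ∀ x, NormalT ξ (φ x))
    (h : ∀ x y z, x.1 * φ y z - φ (x * y) z + φ x (y * z) - φ x y * z.1 = 0) :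
    ∃ ψ : RA M →L[ℂ] (H →L[ℂ] H), ‖ψ‖ ≤ 2 * ‖φ‖ ∧
      (∀ y, ψ y = uL (fun j => Z j * (φ (zA A.sym j) y - φ y (zA A.sym j)))) ∧
      ∀ x y, φ x y = x.1 * ψ y - ψ (x * y) + ψ x * y.1 := by
  have T := A.trf
  have S := A.sym
  have hB := G4_B A.sym φ
  have hZB := G4_ZB A.sym φ
  have hadd : ∀ y y' : RA M, uL (fun j => Z j * (φ (zA A.sym j) (y + y') - φ (y + y') (zA A.sym j))) =
      uL (fun j => Z j * (φ (zA A.sym j) y - φ y (zA A.sym j))) +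
      uL (fun j => Z j * (φ (zA A.sym j) y' - φ y' (zA A.sym j))) := by
    intro y y'
    rw [← uL_add (C := 2 * ‖φ‖ * ‖y‖ + 2 * ‖φ‖ * ‖y'‖)
      (fun k => (hZB k y).trans (le_add_of_nonneg_right (by positivity)))
      (fun k => (hZB k y').trans (le_add_of_nonneg_left (by positivity)))]
    congr 1
    funext j
    rw [map_add, map_add, ContinuousLinearMap.add_apply, ← mul_add]
    congr 1
    abel
  have hsmul : ∀ (c : ℂ) (y : RA M),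
      uL (fun j => Z j * (φ (zA A.sym j) (c • y) - φ (c • y) (zA A.sym j))) =
      c • uL (fun j => Z j * (φ (zA A.sym j) y - φ y (zA A.sym j))) := by
    intro c y
    rw [← uL_smul (C := 2 * ‖φ‖ * ‖y‖) (fun k => hZB k y)]
    congr 1
    funext j
    rw [map_smul, map_smul, ContinuousLinearMap.smul_apply, ← smul_sub, mul_smul_comm]
  let L : RA M →ₗ[ℂ] (H →L[ℂ] H) :=
    { toFun := fun y => uL (fun j => Z j * (φ (zA A.sym j) y - φ y (zA A.sym j)))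
      map_add' := hadd
      map_smul' := hsmul }
  have hL : ∀ y, ‖L y‖ ≤ 2 * ‖φ‖ * ‖y‖ := fun y => uL_norm (fun k => hZB k y)
  have hval : ∀ y, (L.mkContinuous (2 * ‖φ‖) hL) y =
      uL (fun j => Z j * (φ (zA A.sym j) y - φ y (zA A.sym j))) := fun y => rfl
  refine ⟨L.mkContinuous (2 * ‖φ‖) hL, L.mkContinuous_norm_le (by positivity) hL, hval, ?_⟩
  intro x y
  rw [hval, hval, hval]
  -- the commutators
  obtain ⟨wx, hwx⟩ : ∃ w : ℕ → RA M, ∀ j, w j = x * zA A.sym j - zA A.sym j * x := ⟨_, fun _ => rfl⟩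
  obtain ⟨wy, hwy⟩ : ∃ w : ℕ → RA M, ∀ j, w j = y * zA A.sym j - zA A.sym j * y := ⟨_, fun _ => rfl⟩
  have vx : ∀ j, (wx j).1 = x.1 * Z j - Z j * x.1 := fun j => by rw [hwx]; rfl
  have vy : ∀ j, (wy j).1 = y.1 * Z j - Z j * y.1 := fun j => by rw [hwy]; rfl
  have bx : ∀ j, ‖wx j‖ ≤ 2 * ‖x‖ := by
    intro j
    have h1 : ‖wx j‖ = ‖(wx j).1‖ := rfl
    rw [h1, vx j]
    exact G4_comm_bound A.sym x.1 j
  have by' : ∀ j, ‖wy j‖ ≤ 2 * ‖y‖ := by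
    intro j
    have h1 : ‖wy j‖ = ‖(wy j).1‖ := rfl
    rw [h1, vy j]
    exact G4_comm_bound A.sym y.1 j
  have tx : Tendsto (fun j => n2 ξ (wx j).1) atTop (𝓝 0) := by
    have := A.comm_null x.2
    refine this.congr fun j => ?_
    rw [vx j]
  have ty : Tendsto (fun j => n2 ξ (wy j).1) atTop (𝓝 0) := by
    have := A.comm_null y.2
    refine this.congr fun j => ?_
    rw [vy j]
  -- the identity
  have hid : ∀ j, x.1 * (Z j * (φ (zA A.sym j) y - φ y (zA A.sym j))) -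
      Z j * (φ (zA A.sym j) (x * y) - φ (x * y) (zA A.sym j)) +
      Z j * (φ (zA A.sym j) x - φ x (zA A.sym j)) * y.1 =
      (wx j).1 * (φ (zA A.sym j) y - φ y (zA A.sym j)) + φ x y - Z j * φ x y * Z j +
        Z j * φ (wx j) y + Z j * φ x (wy j) := by
    intro j
    have e1 := h (zA A.sym j) x y
    have e2 := h x (zA A.sym j) y
    have e3 := h x y (zA A.sym j)
    rw [zA_val] at e1 e3
    have h5 := G4_id x.1 y.1 (Z j) (φ x y) (φ (zA A.sym j) y) (φ y (zA A.sym j))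
      (φ (zA A.sym j) (x * y)) (φ (x * y) (zA A.sym j)) (φ (zA A.sym j) x) (φ x (zA A.sym j))
      (φ (zA A.sym j * x) y) (φ (x * zA A.sym j) y) (φ x (zA A.sym j * y))
      (φ x (y * zA A.sym j)) (A.sym.Z2 j) e1 e2 e3
    rw [h5, vx j, hwx, hwy, map_sub, map_sub, ContinuousLinearMap.sub_apply]
  have b1 : ∀ k, ‖x.1 * (Z k * (φ (zA A.sym k) y - φ y (zA A.sym k)))‖ ≤
      ‖x.1‖ * (2 * ‖φ‖ * ‖y‖) := fun k =>
    (norm_mul_le _ _).trans (mul_le_mul_of_nonneg_left (hZB k y) (norm_nonneg _))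
  have b2 : ∀ k, ‖Z k * (φ (zA A.sym k) (x * y) - φ (x * y) (zA A.sym k))‖ ≤
      2 * ‖φ‖ * ‖x * y‖ := fun k => hZB k (x * y)
  have b3 : ∀ k, ‖Z k * (φ (zA A.sym k) x - φ x (zA A.sym k)) * y.1‖ ≤
      2 * ‖φ‖ * ‖x‖ * ‖y.1‖ := fun k =>
    (norm_mul_le _ _).trans (mul_le_mul_of_nonneg_right (hZB k x) (norm_nonneg _))
  have p1 : (0 : ℝ) ≤ ‖x.1‖ * (2 * ‖φ‖ * ‖y‖) := by positivity
  have p2 : (0 : ℝ) ≤ 2 * ‖φ‖ * ‖x * y‖ := by positivity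
  have p3 : (0 : ℝ) ≤ 2 * ‖φ‖ * ‖x‖ * ‖y.1‖ := by positivity
  obtain ⟨C, hC⟩ : ∃ C : ℝ, C = ‖x.1‖ * (2 * ‖φ‖ * ‖y‖) + 2 * ‖φ‖ * ‖x * y‖ +
      2 * ‖φ‖ * ‖x‖ * ‖y.1‖ := ⟨_, rfl⟩
  have c1 : ∀ k, ‖x.1 * (Z k * (φ (zA A.sym k) y - φ y (zA A.sym k)))‖ ≤ C := fun k =>
    (b1 k).trans (by linarith)
  have c2 : ∀ k, ‖Z k * (φ (zA A.sym k) (x * y) - φ (x * y) (zA A.sym k))‖ ≤ C := fun k =>
    (b2 k).trans (by linarith)
  have c3 : ∀ k, ‖Z k * (φ (zA A.sym k) x - φ x (zA A.sym k)) * y.1‖ ≤ 2 * C := fun k =>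
    (b3 k).trans (by linarith)
  have c12 : ∀ k, ‖x.1 * (Z k * (φ (zA A.sym k) y - φ y (zA A.sym k))) -
      Z k * (φ (zA A.sym k) (x * y) - φ (x * y) (zA A.sym k))‖ ≤ 2 * C := fun k =>
    (norm_sub_le _ _).trans (by linarith [c1 k, c2 k])
  have hul : x.1 * uL (fun j => Z j * (φ (zA A.sym j) y - φ y (zA A.sym j))) -
      uL (fun j => Z j * (φ (zA A.sym j) (x * y) - φ (x * y) (zA A.sym j))) +
      uL (fun j => Z j * (φ (zA A.sym j) x - φ x (zA A.sym j))) * y.1 =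
      uL (fun j => x.1 * (Z j * (φ (zA A.sym j) y - φ y (zA A.sym j))) -
      Z j * (φ (zA A.sym j) (x * y) - φ (x * y) (zA A.sym j)) +
      Z j * (φ (zA A.sym j) x - φ x (zA A.sym j)) * y.1) := by
    rw [← uL_mul_left (fun k => hZB k y) x.1, ← uL_mul_right (fun k => hZB k x) y.1,
      ← uL_sub c1 c2, ← uL_add c12 c3]
  rw [hul]
  symm
  refine uL_of_tendsto (C := 2 * C + 2 * C)
    (fun k => (norm_add_le _ _).trans (add_le_add (c12 k) (c3 k))) _ ?_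
  intro a b
  have hlim : Tendsto (fun j => (inner ℂ ((star (wx j).1) b)
        ((φ (zA A.sym j) y - φ y (zA A.sym j)) a) : ℂ) + inner ℂ b (φ x y a) -
        inner ℂ b ((Z j * φ x y * Z j) a) + inner ℂ (Z j b) (φ (wx j) y a) +
        inner ℂ (Z j b) (φ x (wy j) a)) atTop (𝓝 (0 + inner ℂ b (φ x y a) - 0 + 0 + 0)) := by
    refine Tendsto.add (Tendsto.add (Tendsto.sub (Tendsto.add ?_ tendsto_const_nhds) ?_) ?_) ?_
    · refine G4_null (C := 2 * ‖φ‖ * ‖y‖ * ‖a‖) ?_ ?_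
      · refine T.sot (fun j => star (wx j).1) (fun j => star_mem (wx j).2) (2 * ‖x‖) ?_ ?_ b
        · intro j
          rw [norm_star]
          exact bx j
        · refine tx.congr fun j => ?_
          rw [T.n2_star (wx j).2]
      · intro j
        exact (ContinuousLinearMap.le_opNorm _ _).trans
          (mul_le_mul_of_nonneg_right (hB j y) (norm_nonneg _))
    · exact A.kZ (φ x y) (hK x y) a b
    · refine G4_null' (C := ‖b‖) ?_ ?_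
      · intro j
        rw [A.sym.norm_vec j b]
      · exact (hn1 y).vec T a wx (2 * ‖x‖) bx tx
    · refine G4_null' (C := ‖b‖) ?_ ?_
      · intro j
        rw [A.sym.norm_vec j b]
      · exact (hn2 x).vec T a wy (2 * ‖y‖) by' ty
  have e0 : (0 : ℂ) + inner ℂ b (φ x y a) - 0 + 0 + 0 = inner ℂ b (φ x y a) := by ring
  rw [e0] at hlim
  refine hlim.congr fun j => ?_
  rw [hid j]
  simp only [ContinuousLinearMap.add_apply, ContinuousLinearMap.sub_apply, inner_add_right,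
    inner_sub_right]
  have i1 : (inner ℂ b (((wx j).1 * (φ (zA A.sym j) y - φ y (zA A.sym j))) a) : ℂ) =
      inner ℂ ((star (wx j).1) b) ((φ (zA A.sym j) y - φ y (zA A.sym j)) a) := by
    rw [ContinuousLinearMap.star_eq_adjoint, ContinuousLinearMap.adjoint_inner_left]
    rfl
  have i2 : (inner ℂ b ((Z j * φ (wx j) y) a) : ℂ) = inner ℂ (Z j b) (φ (wx j) y a) :=
    A.sym.inner_Z j (φ (wx j) y a) b
  have i3 : (inner ℂ b ((Z j * φ x (wy j)) a) : ℂ) = inner ℂ (Z j b) (φ x (wy j) a) :=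
    A.sym.inner_Z j (φ x (wy j) a) b
  rw [i1, i2, i3]
  simp only [ContinuousLinearMap.sub_apply, inner_sub_right]

end Pool.Agent.HFT
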