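import Pool.Agent.HFT.P5
import Pool.Agent.HFT.G1
import Pool.Agent.HFT.G2b

set_option autoImplicit false
set_option linter.unusedSectionVars false

/-! # Module G8 (3 points): elements commuting with a subsequence of the `Z j`

`closure_lemma` (P5) with `D0 = gen {Z (g j)}` (G1): commutative, contained in `M`; its elements commute
with every `Z i` (`gen_comm`: the `Z`'s commute), so `ψ` is compact valued on it by `hA` (with `m = 0`).
`hess`: an operator commuting with `D0` commutes with the `Z (g j)` (`gen_sub`): `Gam.essZ`.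
`x` commutes with `D0`: `gen_comm`. `y m = Em Z m x` (`Em_mem`), commutes with `Z (g j)` (`Em_comm` with
`c = Z (g j)`), so with `D0`; `hA m` with `Em_CZ`; `Em_norm`, `Em_tendsto`. -/

namespace Pool.Agent.HFT

open Pool.Agent.HK Filter Topology

variable {H : Type} [NormedAddCommGroup H] [InnerProductSpace ℂ H] [CompleteSpace H]
variable {M : VonNeumannAlgebra H} {ξ : ℕ → H} {Z : ℕ → H →L[ℂ] H}

/-- compact valued on the elements commuting with a tail of `Z` -/
def HA (Z : ℕ → H →L[ℂ] H) (ψ : RA M →L[ℂ] (H →L[ℂ] H)) : Prop :=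
  ∀ (m : ℕ) (x : RA M), CZ Z m x.1 → IsCompactOperator (ψ x)

theorem gfree (A : Gam M ξ Z) (ψ : RA M →L[ℂ] (H →L[ℂ] H)) (hb : Cb ψ) (hA : HA Z ψ)
    (g : ℕ → ℕ) (hg : StrictMono g) (x : RA M)
    (hx : ∀ j, Z (g j) * x.1 = x.1 * Z (g j)) : IsCompactOperator (ψ x) := by
  have hS : ∀ s ∈ Set.range (fun j => Z (g j)), star s = s := by
    rintro s ⟨j, rfl⟩
    exact A.sym.Zs (g j)
  have hc : ∀ s ∈ Set.range (fun j => Z (g j)), ∀ t ∈ Set.range (fun j => Z (g j)),
      s * t = t * s := by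
    rintro s ⟨j, rfl⟩ t ⟨k, rfl⟩
    exact A.sym.cZZ (g j) (g k)
  have hM : ∀ s ∈ Set.range (fun j => Z (g j)), s ∈ M := by
    rintro s ⟨j, rfl⟩
    exact A.sym.Zm (g j)
  have hxg : ∀ d ∈ gen (Set.range (fun j => Z (g j))), d * x.1 = x.1 * d := by
    apply gen_comm hS
    rintro s ⟨j, rfl⟩
    exact hx j
  refine closure_lemma A.trf ψ hb (gen (Set.range (fun j => Z (g j)))) (gen_abelian hS hc)
    (gen_le hS hM) ?_ ?_ x hxg (fun m => ⟨Em Z m x.1, Em_mem A.sym m x.2⟩) ?_ ?_ ‖x‖ ?_ ?_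
  · intro d hd
    apply hA 0 d
    intro j _
    have h1 : ∀ d ∈ gen (Set.range (fun j => Z (g j))), d * Z j = Z j * d := by
      apply gen_comm hS
      rintro s ⟨k, rfl⟩
      exact A.sym.cZZ (g k) j
    exact (h1 d.1 hd).symm
  · intro R κ hκ hR
    exact A.essZ R κ hκ g hg (fun j => (hR (Z (g j)) (gen_sub ⟨j, rfl⟩)).symm)
  · intro m
    apply gen_comm hS
    rintro s ⟨j, rfl⟩
    exact Em_comm A.sym m (fun k _ => A.sym.cZZ k (g j)) (hx j)
  · intro m
    exact hA m _ (Em_CZ A.sym m x.1)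
  · intro m
    exact Em_norm A.sym m x.1
  · exact Em_tendsto A x.2

end Pool.Agent.HFT
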