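import Pool.Agent.HFT.Fn
import Pool.Agent.HFT.Nrm

set_option autoImplicit false
set_option linter.unusedSectionVars false

/-! # Module Good (5 points): good projections

For a bounded functional `ω` and `ε > 0` there is a projection `e` with `n2 (1 - e) ≤ ε` such
that `x ↦ ω (e x)` and `x ↦ ω (x e)` are normal.

Let `S` be the set of all `c ≥ 0` such that for some `t > 0`: `‖x‖ ≤ 1`, `n2 x ≤ t` imply
`‖ω x‖ ≤ c` (`‖ω‖ ∈ S`), and `a = sInf S ≥ 0`. So (1) for every `c > a` there is such a `t`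
(`exists_lt_of_csInf_lt`, and `S` is upward closed); (2) for `c < a`, `c ≥ 0` and all `t > 0` there is `x` with
`‖x‖ ≤ 1`, `n2 x ≤ t`, `‖ω x‖ > c`.

Case `a = 0`: by (1) `ω` is normal; `e = 1`.

Case `a > 0`. Step A: for every `m` there are `x m : RA M` and a projection `f m` with
`‖x m‖ ≤ 1`, `x m = f m * x m * f m`, `n2 (x m) ≤ 1 / (m + 1) `, `(ω (x m)).re ≥ a - K / (m + 1)`
(`K = 2 + 2 ‖ω‖`), `n2 (f m) ^ 2 ≤ ε² / 2^(m + 1)`. Proof: `η = 1 / (m + 1)` (or smaller),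
`t > 0` small, `y` from (2) with `c = a - η` (or `c = 0`, if this is negative: in any case
`‖ω y‖ ≥ a - η`), multiplied by a unimodular scalar so that `ω y = ‖ω y‖`. `TrF.cut` with `η`
gives `q` with `‖y - q y q‖ ≤ 2 η`, `η² n2 q² ≤ 2 n2 y² ≤ 2 t²`; `x m = q y q`, `f m = q`,
`(ω (q y q)).re ≥ ‖ω y‖ - 2 η ‖ω‖`, `n2 (q y q) ≤ ‖q‖ n2 (y q) ≤ n2 y ‖q‖ ≤ t`.
`f` = the join `P` of the `f m` (`TrF.joinN` with `s = ε²`), `e = 1 - f`; `f * f m = f m = f m * f`.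

Step B: `x ↦ ω (e x e)` is normal. Use `normal_of_seq`; otherwise (negate the definition of
`NormalF`) there is `b > 0` such that for all `δ > 0` there is `y`, `‖y‖ ≤ 1`, `n2 y ≤ δ`,
`‖ω (e y e)‖ > b`. By (1) take `t` for `c = a + b / 2`. Take `m` with `1 / (m + 1) ≤ t / 2`,
`K / (m + 1) ≤ b / 4` and `y` for `δ = t / 2`, multiplied by a scalar so that `ω (e y e) > b` is real.
`z = x m + e y e` has norm `≤ 1` (`norm_orth`, with `f` in the role of `f`), `n2 z ≤ t`, so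
`a + b / 2 ≥ ‖ω z‖ ≥ (ω z).re ≥ a - b / 4 + b`, a contradiction.

Step C: `x ↦ ω (e x f)` is normal: otherwise `b > 0` as before with `‖ω (e y f)‖ > b`. Put
`c = b / (2 (a + 1)) > 0`: `a √(1 + c²) ≤ a + a c² / 2 ≤ a + c b / 4`. Let `d > 0` with
`d √(1 + c²) ≤ c b / 8`. Take `t` from (1) for `a + d`, `m` with `K / (m + 1) ≤ c b / 8` and
`1 / (m + 1) ≤ t / 2`, and `y` with `n2 y ≤ t / (2 (1 + c))`, scaled by a unimodular number so that
`ω (e y f) > b` is real. `z = x m + c • e y f` satisfies `‖z‖² ≤ 1 + c²` (`norm_left`: `f x m = x m`,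
`f (e y f) = 0`), so `z / √(1 + c²)` has norm `≤ 1` and `2`-norm `≤ t`:
`|ω z| ≤ (a + d) √(1 + c²) ≤ a + 3 c b / 8`, but `(ω z).re ≥ a - c b / 8 + c b`. Contradiction.
Step D: `x ↦ ω (f x e)` is normal: the same with `norm_right`.
Then `ω (e x) = ω (e x e) + ω (e x f)`, `ω (x e) = ω (e x e) + ω (f x e)` are normal. -/

namespace Pool.Agent.HFT

open Pool.Agent.HK Filter Topology

variable {H : Type} [NormedAddCommGroup H] [InnerProductSpace ℂ H] [CompleteSpace H]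
variable {M : VonNeumannAlgebra H} {ξ : ℕ → H}

private theorem good_core (hξ : Summable fun i => ‖ξ i‖ ^ 2) {ω : RA M →L[ℂ] ℂ} {a : ℝ}
    (ha : 0 ≤ a)
    (hup : ∀ c, a < c → ∃ t, 0 < t ∧ ∀ x : RA M, ‖x‖ ≤ 1 → n2 ξ x.1 ≤ t → ‖ω x‖ ≤ c)
    (ω' : RA M →L[ℂ] ℂ) (R : RA M → RA M) (hω' : ∀ y, ω' y = ω (R y))
    (hR : ∀ y, n2 ξ (R y).1 ≤ n2 ξ y.1)
    (hX : ∀ θ, 0 < θ → ∃ x : RA M, n2 ξ x.1 ≤ θ ∧ a - θ ≤ (ω x).re ∧
      ∀ (y : RA M) (c : ℝ) (u : ℂ), ‖y‖ ≤ 1 → ‖u‖ = 1 →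
        ‖x + (c : ℂ) • (u • R y)‖ ^ 2 ≤ 1 + c ^ 2) :
    NormalF ξ ω' := by
  intro b hb
  obtain ⟨c, hc0, hac⟩ : ∃ c : ℝ, 0 < c ∧ a * c ≤ b := by
    refine ⟨b / (a + 1), by positivity, ?_⟩
    rw [mul_div_assoc', div_le_iff₀ (by positivity)]
    nlinarith
  obtain ⟨s, hs⟩ : ∃ s : ℝ, s = 1 + c ^ 2 / 2 := ⟨_, rfl⟩
  have hs1 : 1 ≤ s := by rw [hs]; nlinarith [sq_nonneg c]
  have hs0 : 0 < s := by linarith
  obtain ⟨t, ht, htt⟩ := hup (a + c * b / (4 * s)) (by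
    have : 0 < c * b / (4 * s) := by positivity
    linarith)
  obtain ⟨x, hx1, hx2, hx3⟩ := hX (min (t / 2) (c * b / 4)) (by positivity)
  have hx1' : n2 ξ x.1 ≤ t / 2 := hx1.trans (min_le_left _ _)
  have hx2' : a - c * b / 4 ≤ (ω x).re := by
    have := min_le_right (t / 2) (c * b / 4)
    linarith
  refine ⟨t / (2 * c), by positivity, fun y hy hyt => ?_⟩
  rw [hω']
  obtain ⟨u, hu, huy⟩ : ∃ u : ℂ, ‖u‖ = 1 ∧ ((‖ω (R y)‖ : ℝ) : ℂ) = u * ω (R y) :=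
    RCLike.exists_norm_eq_mul_self (ω (R y))
  have hz := hx3 y c u hy hu
  obtain ⟨z, hzdef⟩ : ∃ z : RA M, z = x + (c : ℂ) • (u • R y) := ⟨_, rfl⟩
  rw [← hzdef] at hz
  have hzs : ‖z‖ ≤ s := by
    refine le_of_sq_le_sq ?_ hs0.le
    rw [hs]
    nlinarith [sq_nonneg (c ^ 2)]
  have hzn : n2 ξ z.1 ≤ t := by
    have e1 : z.1 = x.1 + (c : ℂ) • (u • (R y).1) := by rw [hzdef]; rfl
    rw [e1]
    refine (n2_add_le hξ _ _).trans ?_
    rw [n2_smul, n2_smul, hu, one_mul, Complex.norm_real, Real.norm_of_nonneg hc0.le]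
    have h1 : c * n2 ξ (R y).1 ≤ t / 2 := by
      have := (hR y).trans hyt
      calc c * n2 ξ (R y).1 ≤ c * (t / (2 * c)) := by gcongr
        _ = t / 2 := by field_simp
    linarith
  have hsn : ‖((s⁻¹ : ℝ) : ℂ)‖ = s⁻¹ := by
    rw [Complex.norm_real, Real.norm_of_nonneg (by positivity)]
  have hw : ‖ω (((s⁻¹ : ℝ) : ℂ) • z)‖ ≤ a + c * b / (4 * s) := by
    apply htt
    · rw [norm_smul, hsn, inv_mul_le_iff₀ hs0, mul_one]
      exact hzs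
    · have e1 : (((s⁻¹ : ℝ) : ℂ) • z).1 = ((s⁻¹ : ℝ) : ℂ) • z.1 := rfl
      rw [e1, n2_smul, hsn, inv_mul_le_iff₀ hs0]
      calc n2 ξ z.1 ≤ t := hzn
        _ = 1 * t := (one_mul t).symm
        _ ≤ s * t := by gcongr
  rw [map_smul, norm_smul, hsn, inv_mul_le_iff₀ hs0] at hw
  have hre : (ω z).re ≤ ‖ω z‖ := Complex.re_le_norm _
  have hωz : (ω z).re = (ω x).re + c * ‖ω (R y)‖ := by
    rw [hzdef, map_add, map_smul, map_smul, smul_eq_mul, smul_eq_mul, ← huy, Complex.add_re,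
      ← Complex.ofReal_mul, Complex.ofReal_re]
  have h3 : s * (a + c * b / (4 * s)) = a * s + c * b / 4 := by field_simp
  rw [h3] at hw
  have h4 : c * ‖ω (R y)‖ ≤ c * b := by
    have h5 : a * s = a + a * c * c / 2 := by rw [hs]; ring
    have h6 : a * c * c ≤ b * c := by gcongr
    nlinarith
  exact le_of_mul_le_mul_left h4 hc0

private theorem good_A (T : TrF M ξ) (ω : RA M →L[ℂ] ℂ) (a : ℝ)
    (hlo : ∀ c, c < a → ∀ t, 0 < t → ∃ x : RA M, ‖x‖ ≤ 1 ∧ n2 ξ x.1 ≤ t ∧ c < ‖ω x‖)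
    (η s : ℝ) (hη : 0 < η) (hs : 0 < s) :
    ∃ x f : RA M, IsStarProjection f.1 ∧ ‖x‖ ≤ 1 ∧ f * x = x ∧ x * f = x ∧ n2 ξ x.1 ≤ η ∧
      a - (1 + 2 * ‖ω‖) * η ≤ (ω x).re ∧ n2 ξ f.1 ^ 2 ≤ s := by
  obtain ⟨y₀, hy1, hy2, hy3⟩ := hlo (a - η) (by linarith) (min η (η * Real.sqrt (s / 2)))
    (by positivity)
  obtain ⟨u, hu, huy⟩ : ∃ u : ℂ, ‖u‖ = 1 ∧ ((‖ω y₀‖ : ℝ) : ℂ) = u * ω y₀ :=
    RCLike.exists_norm_eq_mul_self (ω y₀)
  obtain ⟨y, hy⟩ : ∃ y : RA M, y = u • y₀ := ⟨_, rfl⟩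
  have hyn : ‖y‖ ≤ 1 := by rw [hy, norm_smul, hu, one_mul]; exact hy1
  have hy2' : n2 ξ y.1 ≤ min η (η * Real.sqrt (s / 2)) := by
    have e1 : y.1 = u • y₀.1 := by rw [hy]; rfl
    rw [e1, n2_smul, hu, one_mul]; exact hy2
  have hωy : (ω y).re = ‖ω y₀‖ := by
    rw [hy, map_smul, smul_eq_mul, ← huy, Complex.ofReal_re]
  obtain ⟨q, hq, hq1, hq2⟩ := T.cut y.1 y.2 η hη
  obtain ⟨f, hf⟩ : ∃ f : RA M, f.1 = q := ⟨⟨q, hq.1⟩, rfl⟩
  subst hf
  have hff : f * f = f := Subtype.ext hq.2.isIdempotentElem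
  have hfn : ‖f.1‖ ≤ 1 := IsStarProjection.norm_le _ hq.2
  have hfn' : ‖f‖ ≤ 1 := hfn
  refine ⟨f * y * f, f, hq.2, ?_, ?_, ?_, ?_, ?_, ?_⟩
  · calc ‖f * y * f‖ ≤ ‖f * y‖ * ‖f‖ := norm_mul_le _ _
      _ ≤ (‖f‖ * ‖y‖) * ‖f‖ := by gcongr; exact norm_mul_le _ _
      _ ≤ (1 * 1) * 1 := by gcongr
      _ = 1 := by norm_num
  · rw [← mul_assoc, ← mul_assoc, hff]
  · rw [mul_assoc, hff]
  · have e1 : (f * y * f).1 = (f.1 * y.1) * f.1 := rfl
    rw [e1]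
    have h1 : n2 ξ ((f.1 * y.1) * f.1) ≤ n2 ξ (f.1 * y.1) * ‖f.1‖ :=
      T.n2_mul_le' (f * y).2 f.2
    have h2 : n2 ξ (f.1 * y.1) ≤ ‖f.1‖ * n2 ξ y.1 := n2_mul_le T.summ _ _
    have h3 := n2_nonneg ξ (f.1 * y.1)
    have h4 := n2_nonneg ξ y.1
    have h5 := min_le_left η (η * Real.sqrt (s / 2))
    calc n2 ξ ((f.1 * y.1) * f.1) ≤ n2 ξ (f.1 * y.1) * ‖f.1‖ := h1
      _ ≤ n2 ξ (f.1 * y.1) * 1 := by gcongr
      _ ≤ (‖f.1‖ * n2 ξ y.1) * 1 := by gcongr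
      _ ≤ (1 * n2 ξ y.1) * 1 := by gcongr
      _ ≤ η := by linarith
  · have e1 : f * y * f = y - (y - f * y * f) := by abel
    have h1 : ‖y - f * y * f‖ ≤ 2 * η := hq1
    have h2 : ‖ω (y - f * y * f)‖ ≤ ‖ω‖ * (2 * η) :=
      (ω.le_opNorm _).trans (by gcongr)
    have h3 := Complex.re_le_norm (ω (y - f * y * f))
    rw [e1, map_sub, Complex.sub_re, hωy]
    nlinarith
  · have h5 := min_le_right η (η * Real.sqrt (s / 2))
    have h6 : n2 ξ y.1 ^ 2 ≤ (η * Real.sqrt (s / 2)) ^ 2 :=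
      pow_le_pow_left₀ (n2_nonneg _ _) (hy2'.trans h5) 2
    rw [mul_pow, Real.sq_sqrt (by positivity)] at h6
    have h7 : η ^ 2 * n2 ξ f.1 ^ 2 ≤ η ^ 2 * s := by nlinarith
    exact le_of_mul_le_mul_left h7 (by positivity)

theorem good (T : TrF M ξ) (ω : RA M →L[ℂ] ℂ) (ε : ℝ) (hε : 0 < ε) :
    ∃ e : RA M, IsStarProjection e.1 ∧ n2 ξ (1 - e.1) ≤ ε ∧ NormalF ξ (lft e ω) ∧
      NormalF ξ (rgt e ω) := by
  classical
  obtain ⟨S, hS⟩ : ∃ S : Set ℝ, S = {c | 0 ≤ c ∧ ∃ t, 0 < t ∧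
    ∀ x : RA M, ‖x‖ ≤ 1 → n2 ξ x.1 ≤ t → ‖ω x‖ ≤ c} := ⟨_, rfl⟩
  have hne : S.Nonempty := by
    refine ⟨‖ω‖, ?_⟩
    rw [hS]
    exact ⟨norm_nonneg _, 1, one_pos, fun x hx _ => (ω.le_opNorm x).trans
      (by nlinarith [norm_nonneg ω])⟩
  have hbd : BddBelow S := ⟨0, fun c hc => by rw [hS] at hc; exact hc.1⟩
  obtain ⟨a, ha⟩ : ∃ a : ℝ, a = sInf S := ⟨_, rfl⟩
  have ha0 : 0 ≤ a := by
    rw [ha]
    exact le_csInf hne fun c hc => by rw [hS] at hc; exact hc.1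
  have hup : ∀ c, a < c → ∃ t, 0 < t ∧
      ∀ x : RA M, ‖x‖ ≤ 1 → n2 ξ x.1 ≤ t → ‖ω x‖ ≤ c := by
    intro c hc
    rw [ha] at hc
    obtain ⟨c', hc', hlt⟩ := exists_lt_of_csInf_lt hne hc
    rw [hS] at hc'
    obtain ⟨_, t, ht, h⟩ := hc'
    exact ⟨t, ht, fun x hx hxt => (h x hx hxt).trans hlt.le⟩
  have hlo : ∀ c, c < a → ∀ t, 0 < t → ∃ x : RA M, ‖x‖ ≤ 1 ∧ n2 ξ x.1 ≤ t ∧ c < ‖ω x‖ := by
    intro c hc t ht
    by_contra hno
    push Not at hno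
    have h0 : 0 ≤ c := by
      have h1 := hno 0 (by rw [norm_zero]; exact zero_le_one) (by
        have e1 : (0 : RA M).1 = 0 := rfl
        rw [e1, n2_zero]; exact ht.le)
      exact (norm_nonneg _).trans h1
    have hcS : c ∈ S := by
      rw [hS]
      exact ⟨h0, t, ht, fun x hx hxt => hno x hx hxt⟩
    have := csInf_le hbd hcS
    rw [← ha] at this
    linarith
  choose x f hf hx1 hfx hxf hx2 hx3 hf2 using fun m : ℕ =>
    good_A T ω a hlo (1 / ((m : ℝ) + 1)) (ε ^ 2 * (1 / 2) ^ (m + 1)) (by positivity)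
      (by positivity)
  obtain ⟨P₀, hP, hPf, hP2, -⟩ := T.joinN (fun m => (f m).1) (fun m => ⟨(f m).2, hf m⟩) (ε ^ 2)
    (by
      intro n
      have : ∀ n : ℕ, ∑ i ∈ Finset.range n, n2 ξ (f i).1 ^ 2 ≤ ε ^ 2 * (1 - (1 / 2) ^ n) := by
        intro n
        induction n with
        | zero => simp
        | succ n ih =>
          rw [Finset.sum_range_succ]
          have h1 := hf2 n
          have h2 : ε ^ 2 * (1 - (1 / 2 : ℝ) ^ (n + 1)) =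
              ε ^ 2 * (1 - (1 / 2) ^ n) + ε ^ 2 * (1 / 2) ^ (n + 1) := by ring
          linarith
      refine (this n).trans ?_
      have h3 : (0 : ℝ) ≤ (1 / 2) ^ n := by positivity
      nlinarith [sq_nonneg ε])
  obtain ⟨P, hPP⟩ : ∃ P : RA M, P.1 = P₀ := ⟨⟨P₀, hP.1⟩, rfl⟩
  subst hPP
  have hPf' : ∀ m, P * f m = f m := fun m => Subtype.ext (hPf m)
  have hsP : star P = P := Subtype.ext hP.2.isSelfAdjoint
  have hsf : ∀ m, star (f m) = f m := fun m => Subtype.ext (hf m).isSelfAdjoint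
  have hfP' : ∀ m, f m * P = f m := by
    intro m
    have := congrArg star (hPf' m)
    rw [star_mul, hsP, hsf] at this
    exact this
  have hPi : P * P = P := Subtype.ext hP.2.isIdempotentElem
  have hPx : ∀ m, P * x m = x m := by
    intro m
    rw [← hfx m, ← mul_assoc, hPf']
  have hxP : ∀ m, x m * P = x m := by
    intro m
    calc x m * P = x m * f m * P := by rw [hxf]
      _ = x m := by rw [mul_assoc, hfP', hxf]
  have he : IsStarProjection ((1 : H →L[ℂ] H) - P.1) := hP.2.one_sub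
  have heN : ‖(1 : H →L[ℂ] H) - P.1‖ ≤ 1 := IsStarProjection.norm_le _ he
  have heN' : ‖(1 : RA M) - P‖ ≤ 1 := heN
  have hXX : ∀ θ, 0 < θ → ∃ m : ℕ, n2 ξ (x m).1 ≤ θ ∧ a - θ ≤ (ω (x m)).re := by
    intro θ hθ
    obtain ⟨K, hK⟩ : ∃ K : ℝ, K = 1 + 2 * ‖ω‖ := ⟨_, rfl⟩
    have hK0 : 1 ≤ K := by rw [hK]; nlinarith [norm_nonneg ω]
    obtain ⟨m, hm⟩ := exists_nat_one_div_lt (show 0 < θ / K by positivity)
    have h1 : K * (1 / ((m : ℝ) + 1)) ≤ θ := by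
      rw [lt_div_iff₀ (by linarith)] at hm
      linarith
    have h2 : 1 / ((m : ℝ) + 1) ≤ K * (1 / ((m : ℝ) + 1)) := by
      have : (0 : ℝ) < 1 / ((m : ℝ) + 1) := by positivity
      nlinarith
    refine ⟨m, (hx2 m).trans (h2.trans h1), ?_⟩
    have := hx3 m
    rw [← hK] at this
    linarith
  refine ⟨1 - P, he, ?_, ?_, ?_⟩
  · have e1 : (1 : H →L[ℂ] H) - (1 - P : RA M).1 = P.1 := by
      have : (1 - P : RA M).1 = 1 - P.1 := rfl
      rw [this]; abel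
    rw [e1]
    exact le_of_sq_le_sq hP2 hε.le
  · refine good_core T.summ ha0 hup _ (fun y => (1 - P) * y) (fun y => rfl) ?_ ?_
    · intro y
      have h1 : n2 ξ ((1 - P.1) * y.1) ≤ ‖1 - P.1‖ * n2 ξ y.1 := n2_mul_le T.summ _ _
      have h2 := n2_nonneg ξ y.1
      refine h1.trans ?_
      nlinarith
    · intro θ hθ
      obtain ⟨m, hm1, hm2⟩ := hXX θ hθ
      refine ⟨x m, hm1, hm2, fun y c u hy hu => ?_⟩
      have hz0 : P.1 * (u • ((1 - P) * y) : RA M).1 = 0 := by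
        have : P * (u • ((1 - P) * y) : RA M) = 0 := by
          rw [mul_smul_comm, ← mul_assoc, mul_sub, mul_one, hPi, sub_self, zero_mul, smul_zero]
        exact congrArg Subtype.val this
      have hzn : ‖(u • ((1 - P) * y) : RA M).1‖ ≤ 1 := by
        have : ‖(u • ((1 - P) * y) : RA M)‖ ≤ 1 := by
          rw [norm_smul, hu, one_mul]
          refine (norm_mul_le _ _).trans ?_
          nlinarith [norm_nonneg ((1 : RA M) - P), norm_nonneg y]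
        exact this
      exact norm_left hP.2 (congrArg Subtype.val (hPx m)) hz0 (hx1 m) hzn c
  · refine good_core T.summ ha0 hup _ (fun y => y * (1 - P)) (fun y => rfl) ?_ ?_
    · intro y
      have h1 : n2 ξ (y.1 * (1 - P.1)) ≤ n2 ξ y.1 * ‖1 - P.1‖ :=
        T.n2_mul_le' y.2 (1 - P : RA M).2
      have h2 := n2_nonneg ξ y.1
      refine h1.trans ?_
      nlinarith
    · intro θ hθ
      obtain ⟨m, hm1, hm2⟩ := hXX θ hθ
      refine ⟨x m, hm1, hm2, fun y c u hy hu => ?_⟩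
      have hz0 : (u • (y * (1 - P)) : RA M).1 * P.1 = 0 := by
        have : (u • (y * (1 - P)) : RA M) * P = 0 := by
          rw [smul_mul_assoc, mul_assoc, sub_mul, one_mul, hPi, sub_self, mul_zero, smul_zero]
        exact congrArg Subtype.val this
      have hzn : ‖(u • (y * (1 - P)) : RA M).1‖ ≤ 1 := by
        have : ‖(u • (y * (1 - P)) : RA M)‖ ≤ 1 := by
          rw [norm_smul, hu, one_mul]
          refine (norm_mul_le _ _).trans ?_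
          nlinarith [norm_nonneg ((1 : RA M) - P), norm_nonneg y]
        exact this
      exact norm_right hP.2 (congrArg Subtype.val (hxP m)) hz0 (hx1 m) hzn c

end Pool.Agent.HFT
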