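import Pool.Agent.HFT.C1
import Pool.Agent.HFT.DefsG

set_option autoImplicit false
set_option linter.unusedSectionVars false

/-! # Module K1 (3 points): the corner

As `corner_hyp` in the finished module C1 (see also `corner_tr` in N4, which gives `TrF`; import N4 if you
like). `ξ' i = Wz z (ξ i)`, `d' n = cz z (d n)`. `TrF`: as in `corner_hyp`. For `y ∈ N`:
`ez z y ∈ M`, `z * ez z y = ez z y`, `Vz z (ξ' i) = z (ξ i) = ξ i`, so
`‖(y (ξ' i))‖ = ‖(ez z y) (ξ i)‖`. `dd`: `x ∈ N`: `d n` with `∑ ‖(ez z x - d n) ξ i‖² < ε²`; `‖(x - cz z (d n)) ξ' i‖ ≤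
‖(ez z x - d n) ξ i‖` (`ez z x - z (d n) z`, `z ξ i = ξ i`, `‖z w‖ ≤ ‖w‖`), `n2 < ε` by `Real.sqrt_lt'`.
`cen`: `x ∈ N` central: `ez z x` commutes with every `y ∈ M` (`ez z x * y = ez z x * (z y z) =
ez z (x * cz z y) = ...`, `z` central), so `z * ez z x = c • z`, i.e. `ez z x = c • z = ez z (c • 1)`, apply `cz z`.
`gam`: `F' = F.image (ez z)` (classical), `ε²`: `u ∈ M` with `u* u = z = u u*`; `u' = cz z u`: `ez z u' = z u z = u`
(`z u = u u* u = u`), unitary, `ip ξ' 1 u' = ∑ ⟪ξ' i, u' ξ' i⟫ = ∑ ⟪ξ i, u ξ i⟫ = 0`;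
`ez z (u' x - x u') = u * ez z x - ez z x * u`. -/

namespace Pool.Agent.HFT

open Pool.Agent.HK Filter Topology

variable {H : Type} [NormedAddCommGroup H] [InnerProductSpace ℂ H] [CompleteSpace H]

private theorem K1_sub (z : H →L[ℂ] H) (a b : Kz z →L[ℂ] Kz z) :
    ez z (a - b) = ez z a - ez z b := by
  ext u
  show Vz z (a (Wz z u) - b (Wz z u)) = Vz z (a (Wz z u)) - Vz z (b (Wz z u))
  rw [map_sub]

private theorem K1_smul (z : H →L[ℂ] H) (r : ℂ) (a : Kz z →L[ℂ] Kz z) :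
    ez z (r • a) = r • ez z a := by
  ext u
  show Vz z (r • a (Wz z u)) = r • Vz z (a (Wz z u))
  rw [map_smul]

private theorem K1_n2 {z : H →L[ℂ] H} (hzp : IsStarProjection z) {ξ : ℕ → H}
    (hone : Summable fun i => ‖ξ i‖ ^ 2) (hzξ : ∀ i, z (ξ i) = ξ i) (x : Kz z →L[ℂ] Kz z)
    (y : H →L[ℂ] H) {ε : ℝ} (hε : 0 < ε) (hlt : ∑' i, ‖(ez z x - y) (ξ i)‖ ^ 2 < ε ^ 2) :
    n2 (fun i => Wz z (ξ i)) (x - cz z y) < ε := by
  unfold n2
  rw [Real.sqrt_lt' hε]
  have hsum : Summable fun i => ‖(ez z x - y) (ξ i)‖ ^ 2 := by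
    refine Summable.of_nonneg_of_le (fun i => by positivity) (fun i => ?_)
      (hone.mul_left (‖ez z x - y‖ ^ 2))
    calc ‖(ez z x - y) (ξ i)‖ ^ 2 ≤ (‖ez z x - y‖ * ‖ξ i‖) ^ 2 := by
          gcongr
          exact ContinuousLinearMap.le_opNorm _ _
      _ = ‖ez z x - y‖ ^ 2 * ‖ξ i‖ ^ 2 := by ring
  have hW : ‖Wz z‖ ≤ 1 := by
    unfold Wz
    rw [LinearIsometryEquiv.norm_map]
    exact Submodule.norm_subtypeL_le _
  have hle : ∀ i, ‖(x - cz z y) (Wz z (ξ i))‖ ^ 2 ≤ ‖(ez z x - y) (ξ i)‖ ^ 2 := by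
    intro i
    have h1 : (x - cz z y) (Wz z (ξ i)) = Wz z ((ez z x - y) (ξ i)) := by
      show x (Wz z (ξ i)) - Wz z (y (Vz z (Wz z (ξ i)))) =
        Wz z (Vz z (x (Wz z (ξ i))) - y (ξ i))
      rw [map_sub, WV hzp, VW hzp, hzξ]
    rw [h1]
    gcongr
    calc ‖Wz z ((ez z x - y) (ξ i))‖ ≤ ‖Wz z‖ * ‖(ez z x - y) (ξ i)‖ :=
          ContinuousLinearMap.le_opNorm _ _
      _ ≤ 1 * ‖(ez z x - y) (ξ i)‖ := by gcongr
      _ = ‖(ez z x - y) (ξ i)‖ := one_mul _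
  have hsum' : Summable fun i => ‖(x - cz z y) (Wz z (ξ i))‖ ^ 2 :=
    Summable.of_nonneg_of_le (fun i => by positivity) hle hsum
  exact lt_of_le_of_lt (hsum'.tsum_le_tsum hle hsum) hlt

theorem corner_gam (M : VonNeumannAlgebra H) (z : H →L[ℂ] H)
    (hz : IsCentralProj (M : Set (H →L[ℂ] H)) z)
    (hh : IsGammaFactor (M : Set (H →L[ℂ] H)) z) (N : VonNeumannAlgebra (Kz z))
    (hN : ∀ y, y ∈ N ↔ ez z y ∈ M) :
    ∃ (ξ : ℕ → Kz z) (d : ℕ → (Kz z →L[ℂ] Kz z)), GamF N ξ d := by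
  classical
  obtain ⟨hzM, hzp, hzc⟩ := hz
  obtain ⟨ξ, hone, hzξ, htr, hfaith, ⟨d, hdM, hdd⟩, hcen, hgam⟩ := hh
  have hzz : z * z = z := hzp.isIdempotentElem
  have hinj : ∀ a b : Kz z →L[ℂ] Kz z, ez z a = ez z b → a = b := by
    intro a b hab
    rw [← cz_ez hzp a, ← cz_ez hzp b, hab]
  have hmem : ∀ x ∈ M, cz z x ∈ N := by
    intro x hx
    rw [hN, ez_cz hzp]
    exact mul_mem (mul_mem hzM hx) hzM
  refine ⟨fun i => Wz z (ξ i), fun n => cz z (d n), ⟨⟨?_, ?_, ?_⟩, fun n => hmem _ (hdM n), ?_, ?_, ?_⟩⟩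
  · -- one
    have h1 : ∀ i, ‖Wz z (ξ i)‖ = ‖ξ i‖ := by
      intro i
      have h2 : ‖Wz z (ξ i)‖ = ‖Vz z (Wz z (ξ i))‖ := rfl
      rw [h2, VW hzp, hzξ]
    simpa only [h1] using hone
  · -- trace
    intro x hx
    have h1 := htr (ez z x) ((hN x).mp hx)
    rw [← ez_star] at h1
    exact h1
  · -- faithful
    intro x hx h0
    have h1 : ez z x = 0 := by
      refine hfaith (ez z x) ((hN x).mp hx) (z_ez hzp x).1 fun i => ?_
      show Vz z (x (Wz z (ξ i))) = 0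
      rw [h0 i, map_zero]
    rw [← cz_ez hzp x, h1]
    ext u
    show ((Wz z ((0 : H →L[ℂ] H) (Vz z u)) : Kz z) : H) = 0
    simp
  · -- dense
    intro x hx ε hε
    obtain ⟨n, hn⟩ := hdd (ez z x) ((hN x).mp hx) (ε ^ 2) (by positivity)
    exact ⟨n, K1_n2 hzp hone.summable hzξ x (d n) hε hn⟩
  · -- centre
    intro x hx hc
    obtain ⟨c, hcz⟩ := hcen (ez z x) ((hN x).mp hx) (by
      intro y hy
      have hzy : z * y = y * z := hzc y hy
      have e1 : ez z (cz z y) = z * y := by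
        rw [ez_cz hzp, mul_assoc, ← hzy, ← mul_assoc, hzz]
      have h2 := congrArg (ez z) (hc (cz z y) (hmem y hy))
      rw [ez_mul hzp, ez_mul hzp, e1] at h2
      calc ez z x * y = ez z x * z * y := by rw [(z_ez hzp x).2]
        _ = ez z x * (z * y) := by rw [mul_assoc]
        _ = z * y * ez z x := h2
        _ = y * z * ez z x := by rw [hzy]
        _ = y * (z * ez z x) := by rw [mul_assoc]
        _ = y * ez z x := by rw [(z_ez hzp x).1])
    refine ⟨c, hinj _ _ ?_⟩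
    rw [K1_smul, ez_one hzp, ← hcz, (z_ez hzp x).1]
  · -- Gamma
    intro F hF ε hε
    obtain ⟨u, huM, h1, h2, h3, h4⟩ := hgam (F.image (ez z)) (by
      intro y hy
      obtain ⟨x, hx, rfl⟩ := Finset.mem_image.mp hy
      exact (hN x).mp (hF x hx)) (ε ^ 2) (by positivity)
    have hsz : star z = z := hzp.isSelfAdjoint
    have hzu : z * u = u := by
      have h5 : (u - z * u) * star (u - z * u) = 0 := by
        rw [star_sub, star_mul, hsz]
        calc (u - z * u) * (star u - star u * z) = u * star u - u * star u * z - z * (u * star u) +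
              z * (u * star u) * z := by noncomm_ring
          _ = 0 := by
              rw [h2, hzz, hzz]
              noncomm_ring
      have h6 : u - z * u = 0 := CStarRing.mul_star_self_eq_zero_iff _ |>.mp h5
      exact (sub_eq_zero.mp h6).symm
    have huz : u * z = u := by rw [← hzc u huM, hzu]
    have heu : ez z (cz z u) = u := by rw [ez_cz hzp, hzu, huz]
    refine ⟨cz z u, hmem u huM, hinj _ _ ?_, hinj _ _ ?_, ?_, ?_⟩
    · rw [ez_mul hzp, ez_star, heu, ez_one hzp, h1]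
    · rw [ez_mul hzp, ez_star, heu, ez_one hzp, h2]
    · rw [← h3]
      unfold ip
      refine tsum_congr fun i => ?_
      have e1 : (inner ℂ ((1 : Kz z →L[ℂ] Kz z) (Wz z (ξ i))) ((cz z u) (Wz z (ξ i))) : ℂ) =
          inner ℂ (Vz z (Wz z (ξ i))) (ez z (cz z u) (ξ i)) := rfl
      rw [e1, heu, VW hzp, hzξ]
    · intro x hx
      have h5 := h4 (ez z x) (Finset.mem_image_of_mem _ hx)
      unfold n2
      rw [Real.sqrt_lt' hε]
      have e1 : ∀ i, ‖(cz z u * x - x * cz z u) (Wz z (ξ i))‖ =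
          ‖(u * ez z x - ez z x * u) (ξ i)‖ := by
        intro i
        have e2 : ‖(cz z u * x - x * cz z u) (Wz z (ξ i))‖ =
          ‖ez z (cz z u * x - x * cz z u) (ξ i)‖ := rfl
        rw [e2, K1_sub, ez_mul hzp, ez_mul hzp, heu]
      simp only [e1]
      exact h5

end Pool.Agent.HFT
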