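import Pool.Agent.HFT.X6

set_option autoImplicit false
set_option linter.unusedSectionVars false

/-! # Module X7 (4 points): property Gamma gives `Gam`

`Z` from `gseq` (X6).
* `dense`: for `x ∈ N`, `ε`: `d l` with `n2 (x - d l) < ε/2`; for `m ≥ l`
  `∑_{j<k} n2 (Z (m+j) d l - d l Z (m+j)) ≤ ∑ (1/4)^(m+j) ≤ 2 (1/4)^m`, so `y = Em Z m (d l)` (`Em_mem`, `Em_CZ`) has
  `n2 (y - d l) ≤ 2 (1/4)^m < ε/2` for large `m` (`Em_dist`, G2b).
* `wn`: suppose `⟪b, Z j a⟫` does not tend to `0`: there are `ε > 0` and a strictly increasing `g` with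
  `ε ≤ ‖⟪b, Z (g j) a⟫‖` for all `j` (`Filter.not_tendsto_iff_exists_frequently_notMem`,
  `Filter.extraction_of_frequently_atTop`). `u j = Z (g j)`: `GamF.uL_scalar` (X0) gives
  `uL u = c • 1` and `tr_uL` (`b = 1`) gives `ip ξ 1 (u j) → c` along the hyperfilter, so `c = 0` and
  `⟪b, u j a⟫ → 0` along the hyperfilter (`uL_tendsto`), contradiction. -/

namespace Pool.Agent.HFT

open Pool.Agent.HK Filter Topology

variable {H : Type} [NormedAddCommGroup H] [InnerProductSpace ℂ H] [CompleteSpace H]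
variable {N : VonNeumannAlgebra H} {ξ : ℕ → H} {d : ℕ → H →L[ℂ] H}

private theorem x7_wn (G : GamF N ξ d) {Z : ℕ → H →L[ℂ] H} (S : SymS N Z)
    (h1 : ∀ k, ∀ l ≤ k, n2 ξ (Z k * d l - d l * Z k) ≤ (1 / 4) ^ k)
    (h2 : ∀ k, ‖ip ξ 1 (Z k)‖ ≤ (1 / 4) ^ k) (a b : H) :
    Tendsto (fun j => (inner ℂ b (Z j a) : ℂ)) atTop (𝓝 0) := by
  by_contra hn
  rw [Metric.tendsto_atTop] at hn
  push Not at hn
  obtain ⟨ε, hε, hf⟩ := hn
  have hfr : ∃ᶠ n in atTop, ε ≤ dist (inner ℂ b (Z n a) : ℂ) 0 := by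
    rw [Filter.frequently_atTop]
    intro n
    obtain ⟨m, hm, hm'⟩ := hf n
    exact ⟨m, hm, hm'⟩
  obtain ⟨g, hg, hgε⟩ := Filter.extraction_of_frequently_atTop hfr
  have hgt : Tendsto g atTop atTop := hg.tendsto_atTop
  have hpow : Tendsto (fun k : ℕ => ((1 : ℝ) / 4) ^ k) atTop (𝓝 0) :=
    tendsto_pow_atTop_nhds_zero_of_lt_one (by norm_num) (by norm_num)
  have hpg : Tendsto (fun l : ℕ => ((1 : ℝ) / 4) ^ (g l)) atTop (𝓝 0) := hpow.comp hgt
  have hC : ∀ l, ‖(fun l => Z (g l)) l‖ ≤ (1 : ℝ) := fun l => S.norm_le (g l)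
  have hc : ∀ i, Tendsto (fun l => n2 ξ ((fun l => Z (g l)) l * d i - d i * (fun l => Z (g l)) l))
      atTop (𝓝 0) := by
    intro i
    refine squeeze_zero' (Eventually.of_forall fun l => n2_nonneg ξ _) ?_ hpg
    filter_upwards [eventually_ge_atTop i] with l hl
    exact h1 (g l) i (hl.trans (hg.id_le l))
  obtain ⟨c, hcu⟩ := G.uL_scalar (fun l => Z (g l)) (fun l => S.Zm (g l)) 1 hC hc
  have hle : (hyperfilter ℕ : Filter ℕ) ≤ atTop := Nat.hyperfilter_le_atTop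
  have ht := tr_uL G.trf.summ hC hcu 1
  have hone : ip ξ (1 : H →L[ℂ] H) 1 = 1 := by
    rw [ip_self G.trf.summ, G.trf.n2_one]; norm_num
  rw [hone, mul_one] at ht
  have h0 : Tendsto (fun l => ip ξ 1 ((fun l => Z (g l)) l * 1)) (hyperfilter ℕ : Filter ℕ) (𝓝 0) := by
    refine Tendsto.mono_left ?_ hle
    rw [tendsto_zero_iff_norm_tendsto_zero]
    refine squeeze_zero (fun l => norm_nonneg _) (fun l => ?_) hpg
    rw [mul_one]
    exact h2 (g l)
  have hc0 : c = 0 := tendsto_nhds_unique ht h0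
  have hlim := uL_tendsto hC a b
  rw [hcu, hc0, zero_smul] at hlim
  simp only [ContinuousLinearMap.zero_apply, inner_zero_right] at hlim
  have hev := (Metric.tendsto_nhds.1 hlim) ε hε
  obtain ⟨l, hl⟩ := hev.exists
  exact absurd (hgε l) (not_le.2 hl)

private theorem x7_geom (m k : ℕ) :
    ∑ j ∈ Finset.range k, ((1 : ℝ) / 4) ^ (m + j) ≤ 2 * (1 / 4) ^ m := by
  have h : ∑ j ∈ Finset.range k, ((1 : ℝ) / 4) ^ (m + j)
      = (1 / 4) ^ m * ∑ j ∈ Finset.range k, ((1 : ℝ) / 4) ^ j := by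
    rw [Finset.mul_sum]
    exact Finset.sum_congr rfl fun j _ => pow_add _ _ _
  have h2 : ∑ j ∈ Finset.range k, ((1 : ℝ) / 4) ^ j ≤ 2 := by
    rw [geom_sum_eq (by norm_num)]
    have : (0 : ℝ) ≤ (1 / 4) ^ k := by positivity
    rw [div_le_iff_of_neg (by norm_num)]
    linarith
  rw [h, mul_comm (2 : ℝ)]
  exact mul_le_mul_of_nonneg_left h2 (by positivity)

theorem GamF.gam' (G : GamF N ξ d) : ∃ Z : ℕ → H →L[ℂ] H, Gam N ξ Z := by
  obtain ⟨Z, S, h1, h2⟩ := gseq G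
  refine ⟨Z, G.trf, S, x7_wn G S h1 h2, ?_⟩
  intro x hx ε hε
  obtain ⟨l, hl⟩ := G.dd x hx (ε / 2) (by linarith)
  have hpow : Tendsto (fun k : ℕ => 2 * ((1 : ℝ) / 4) ^ k) atTop (𝓝 (2 * 0)) :=
    (tendsto_pow_atTop_nhds_zero_of_lt_one (by norm_num) (by norm_num)).const_mul 2
  rw [mul_zero] at hpow
  have hev : ∀ᶠ k : ℕ in atTop, 2 * ((1 : ℝ) / 4) ^ k < ε / 2 :=
    hpow.eventually (gt_mem_nhds (by linarith : (0 : ℝ) < ε / 2))
  obtain ⟨m, hm1, hm2⟩ := (hev.and (eventually_ge_atTop l)).exists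
  refine ⟨m, Em Z m (d l), Em_mem S m (G.dm l), Em_CZ S m (d l), ?_⟩
  have hd : n2 ξ (Em Z m (d l) - d l) ≤ 2 * (1 / 4) ^ m := by
    refine Em_dist G.trf S m (G.dm l) _ (by positivity) fun k => ?_
    refine le_trans (Finset.sum_le_sum fun j _ => h1 (m + j) l (by omega)) (x7_geom m k)
  have he : x - Em Z m (d l) = (x - d l) + -(Em Z m (d l) - d l) := by abel
  rw [he]
  refine lt_of_le_of_lt (n2_add_le G.trf.summ _ _) ?_
  rw [n2_neg]
  linarith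

end Pool.Agent.HFT
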