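import Pool.Agent.HFT.K1
import Pool.Agent.HFT.G15
import Pool.Agent.HFT.X7
import Pool.Agent.HFT.C2

set_option autoImplicit false
set_option linter.unusedSectionVars false

/-! # Module K2 (3 points): the piece `z` is fine

Copy the proof of `hyp_fine` (finished module C2), with `corner_gam` (K1), `GamF.gam'` (X7), `gcore`
(G15), `KG2` in place of `corner_hyp`, `core`, `KH2`. -/

namespace Pool.Agent.HFT

open Pool.Agent.HK Filter Topology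

variable {H : Type} [NormedAddCommGroup H] [InnerProductSpace ℂ H] [CompleteSpace H]

private theorem K2_ez_add (z : H →L[ℂ] H) (x y : Kz z →L[ℂ] Kz z) :
    ez z (x + y) = ez z x + ez z y := by
  ext v; simp [ez]

private theorem K2_ez_smul (z : H →L[ℂ] H) (c : ℂ) (x : Kz z →L[ℂ] Kz z) :
    ez z (c • x) = c • ez z x := by
  ext v; simp [ez]

private theorem K2_cz_add (z : H →L[ℂ] H) (x y : H →L[ℂ] H) :
    cz z (x + y) = cz z x + cz z y := by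
  ext v; simp [cz]

private theorem K2_cz_smul (z : H →L[ℂ] H) (c : ℂ) (x : H →L[ℂ] H) :
    cz z (c • x) = c • cz z x := by
  ext v; simp [cz]

private theorem K2_cz_ez_mul {z : H →L[ℂ] H} (hz : IsStarProjection z) (x : Kz z →L[ℂ] Kz z)
    (T : H →L[ℂ] H) : cz z (ez z x * T) = x * cz z T := by
  refine ContinuousLinearMap.ext fun u => ?_
  show Wz z (Vz z (x (Wz z (T (Vz z u))))) = x (Wz z (T (Vz z u)))
  rw [WV hz]

private theorem K2_cz_mul_ez {z : H →L[ℂ] H} (hz : IsStarProjection z) (x : Kz z →L[ℂ] Kz z)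
    (T : H →L[ℂ] H) : cz z (T * ez z x) = cz z T * x := by
  refine ContinuousLinearMap.ext fun u => ?_
  show Wz z (T (Vz z (x (Wz z (Vz z u))))) = Wz z (T (Vz z (x u)))
  rw [WV hz]

private theorem K2_abs (M : VonNeumannAlgebra H) (z : ZA M) (zz : H →L[ℂ] H)
    (hzz : zz = inc _ (cen_comm M) z) (hsp : IsStarProjection zz)
    (hzM : zz ∈ M) (hcm : ∀ a ∈ M, zz * a = a * zz)
    {C : ℝ} (hC : 0 ≤ C)
    {φ : List (RA M) → (H →L[ℂ] H)} (h : Coch (KK H) 2 C φ) (hcy : ∀ l, D (io M) φ l = 0)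
    (δ : ℝ) (hδ : 0 < δ)
    {L : Type} [NormedAddCommGroup L] [InnerProductSpace ℂ L] [CompleteSpace L]
    (N : VonNeumannAlgebra L) {ξ : ℕ → L} {Z : ℕ → L →L[ℂ] L} (hyp : Gam N ξ Z)
    (ee : (L →L[ℂ] L) → (H →L[ℂ] H)) (cc : (H →L[ℂ] H) → (L →L[ℂ] L))
    (hN : ∀ y, y ∈ N ↔ ee y ∈ M)
    (ez_add : ∀ x y : L →L[ℂ] L, ee (x + y) = ee x + ee y)
    (ez_smul : ∀ (c : ℂ) (x : L →L[ℂ] L), ee (c • x) = c • ee x)
    (cz_add : ∀ x y : H →L[ℂ] H, cc (x + y) = cc x + cc y)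
    (cz_smul : ∀ (c : ℂ) (x : H →L[ℂ] H), cc (c • x) = c • cc x)
    (ez_cz : ∀ x : H →L[ℂ] H, ee (cc x) = zz * x * zz)
    (ez_mul : ∀ x y : L →L[ℂ] L, ee (x * y) = ee x * ee y)
    (cz_mul : ∀ x y : H →L[ℂ] H, zz * y = y * zz → cc (x * y) = cc x * cc y)
    (z_ez : ∀ y : L →L[ℂ] L, zz * ee y = ee y ∧ ee y * zz = ee y)
    (ez_norm : ∀ y : L →L[ℂ] L, ‖ee y‖ ≤ ‖y‖) (cz_norm : ∀ x : H →L[ℂ] H, ‖cc x‖ ≤ ‖x‖)
    (ez_compact : ∀ y : L →L[ℂ] L, IsCompactOperator y → IsCompactOperator (ee y))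
    (cz_compact : ∀ x : H →L[ℂ] H, IsCompactOperator x → IsCompactOperator (cc x))
    (cz_ez_mul : ∀ (x : L →L[ℂ] L) (T : H →L[ℂ] H), cc (ee x * T) = x * cc T)
    (cz_mul_ez : ∀ (x : L →L[ℂ] L) (T : H →L[ℂ] H), cc (T * ee x) = cc T * x) :
    Fine (io M) (KK H) 1 (KG2 * C) δ φ (ic M z) := by
  obtain ⟨Φ, hΦ, hΦn⟩ := clm2 hC h
  let ezl : (L →L[ℂ] L) →ₗ[ℂ] (H →L[ℂ] H) :=
    { toFun := ee, map_add' := ez_add, map_smul' := ez_smul }
  let czl : (H →L[ℂ] H) →ₗ[ℂ] (L →L[ℂ] L) :=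
    { toFun := cc, map_add' := cz_add, map_smul' := cz_smul }
  let ezc : (L →L[ℂ] L) →L[ℂ] (H →L[ℂ] H) :=
    ezl.mkContinuous 1 (fun y => by rw [one_mul]; exact ez_norm y)
  -- the maps `j` and `k`
  let j : RA N →ₗ[ℂ] RA M :=
    { toFun := fun x => ⟨ee x.1, (hN x.1).mp x.2⟩
      map_add' := fun x y => Subtype.ext (ez_add _ _)
      map_smul' := fun c x => Subtype.ext (ez_smul _ _) }
  let k : RA M →ₗ[ℂ] RA N :=
    { toFun := fun a => ⟨cc a.1, (hN _).mpr (by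
        rw [ez_cz]
        exact mul_mem (mul_mem hzM a.2) hzM)⟩
      map_add' := fun x y => Subtype.ext (cz_add _ _)
      map_smul' := fun c x => Subtype.ext (cz_smul _ _) }
  have hj : ∀ x, (j x).1 = ee x.1 := fun x => rfl
  have hk : ∀ a, (k a).1 = cc a.1 := fun a => rfl
  have hjn : ∀ x, ‖j x‖ ≤ ‖x‖ := fun x => ez_norm x.1
  have hkn : ∀ a, ‖k a‖ ≤ ‖a‖ := fun a => cz_norm a.1
  have hjm : ∀ x y, j (x * y) = j x * j y := fun x y => Subtype.ext (ez_mul x.1 y.1)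
  have hkm : ∀ a b, k (a * b) = k a * k b := fun a b =>
    Subtype.ext (cz_mul a.1 b.1 (hcm b.1 b.2))
  have hjk : ∀ a, j (k a) = ic M z * a := by
    intro a
    apply Subtype.ext
    rw [hj, hk, ez_cz, hcm a.1 a.2, mul_assoc, hsp.isIdempotentElem.eq, ← hcm a.1 a.2, hzz]
    rfl
  let kc : RA M →L[ℂ] RA N := k.mkContinuous 1 (fun a => by rw [one_mul]; exact hkn a)
  have hkc : ∀ a, kc a = k a := fun a => rfl
  -- the cocycle on the corner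
  let f : RA N →ₗ[ℂ] RA N →ₗ[ℂ] (L →L[ℂ] L) :=
    LinearMap.mk₂ ℂ (fun x y => cc (Φ (j x) (j y)))
      (fun x y w => by
        rw [map_add, map_add]
        exact cz_add _ _)
      (fun c x y => by
        rw [map_smul, map_smul]
        exact cz_smul _ _)
      (fun x y w => by
        rw [map_add, map_add]
        exact cz_add _ _)
      (fun c x y => by
        rw [map_smul, map_smul]
        exact cz_smul _ _)
  have hf : ∀ x y, f x y = cc (Φ (j x) (j y)) := fun x y => rfl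
  have hfb : ∀ x y, ‖f x y‖ ≤ C * ‖x‖ * ‖y‖ := by
    intro x y
    rw [hf]
    calc _ ≤ ‖Φ (j x) (j y)‖ := cz_norm _
      _ ≤ ‖Φ‖ * ‖j x‖ * ‖j y‖ := ContinuousLinearMap.le_opNorm₂ _ _ _
      _ ≤ C * ‖x‖ * ‖y‖ := by
          gcongr
          · exact hjn x
          · exact hjn y
  obtain ⟨ΦN, hΦN, hΦNn⟩ : ∃ ΦN : RA N →L[ℂ] RA N →L[ℂ] (L →L[ℂ] L),
      (∀ x y, ΦN x y = cc (Φ (j x) (j y))) ∧ ‖ΦN‖ ≤ C :=
    ⟨f.mkContinuous₂ C hfb, fun x y => rfl, LinearMap.mkContinuous₂_norm_le _ hC _⟩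
  have hΦK : ∀ x y, IsCompactOperator (ΦN x y) := by
    intro x y
    rw [hΦN]
    apply cz_compact
    rw [hΦ]
    exact h.val _
  have hcz_sub : ∀ x y : H →L[ℂ] H, cc (x - y) = cc x - cc y := fun x y =>
    czl.map_sub x y
  have hez_sub : ∀ x y : L →L[ℂ] L, ee (x - y) = ee x - ee y := fun x y =>
    ezl.map_sub x y
  have hcz_zero : cc 0 = 0 := czl.map_zero
  have hΦc : ∀ x y w, x.1 * ΦN y w - ΦN (x * y) w + ΦN x (y * w) - ΦN x y * w.1 = 0 := by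
    intro x y w
    have h1 := hcy [j x, j y, j w]
    rw [D_two] at h1
    have h2 := congrArg cc h1
    rw [hcz_sub, cz_add, hcz_sub, hcz_zero, hj x, hj w, cz_ez_mul, cz_mul_ez,
      ← hjm, ← hjm, ← hΦ, ← hΦ, ← hΦ, ← hΦ] at h2
    rw [hΦN, hΦN, hΦN, hΦN]
    exact h2
  obtain ⟨η, hηK, hηn, hη⟩ := gcore hyp ΦN hΦK hΦc
  let Θ : RA M →L[ℂ] (H →L[ℂ] H) := ezc.comp (η.comp kc)
  have hΘ : ∀ a, Θ a = ee (η (k a)) := fun a => rfl
  have hΘK : ∀ a, Θ a ∈ KK H := fun a => ez_compact _ (hηK _)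
  have hηC : ‖η‖ ≤ KG2 * C := hηn.trans (mul_le_mul_of_nonneg_left hΦNn KG2_nonneg)
  have hΘn : ‖Θ‖ ≤ KG2 * C := by
    refine ContinuousLinearMap.opNorm_le_bound _ (mul_nonneg KG2_nonneg hC) fun a => ?_
    rw [hΘ]
    calc _ ≤ ‖η (k a)‖ := ez_norm _
      _ ≤ ‖η‖ * ‖k a‖ := ContinuousLinearMap.le_opNorm _ _
      _ ≤ KG2 * C * ‖a‖ := mul_le_mul hηC (hkn a) (norm_nonneg _) (mul_nonneg KG2_nonneg hC)
  have hcoch := fl1_coch Θ hΘK
  refine ⟨fl1 Θ, hcoch.mono hΘn, ?_⟩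
  have hiz : io M (ic M z) = zz := hzz.symm
  have e : (fun l => P (io M (ic M z)) (ic M z * ·) φ l - D (io M) (fl1 Θ) l) =
      fun _ => (0 : H →L[ℂ] H) := by
    funext l
    by_cases hl : l.length = 2
    · obtain ⟨a, b, rfl⟩ : ∃ a b, l = [a, b] := List.length_eq_two.mp hl
      rw [D_one]
      show io M (ic M z) * φ [ic M z * a, ic M z * b] * io M (ic M z) -
        (a.1 * Θ b - Θ (a * b) + Θ a * b.1) = 0
      rw [hiz]
      have e1 : a.1 * Θ b = ee (cc a.1 * η (k b)) := by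
        rw [hΘ, ez_mul, ez_cz, mul_assoc (zz * a.1), (z_ez _).1, hcm a.1 a.2,
          mul_assoc, (z_ez _).1]
      have e2 : Θ a * b.1 = ee (η (k a) * cc b.1) := by
        rw [hΘ, ez_mul, ez_cz, ← mul_assoc, ← mul_assoc, (z_ez _).2, mul_assoc _ b.1,
          ← hcm b.1 b.2, ← mul_assoc, (z_ez _).2]
      have e3 : ee (ΦN (k a) (k b)) = zz * φ [ic M z * a, ic M z * b] * zz := by
        rw [hΦN, ez_cz, hjk, hjk, hΦ]
      rw [e1, e2, hΘ, hkm, ← hez_sub, ← ez_add, ← e3, hη (k a) (k b), hk a, hk b, sub_self]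
    · have h1 : φ (l.map (ic M z * ·)) = 0 := h.supp _ (by simpa using hl)
      have h2 := D_supp (io M) 1 (fl1 Θ) hcoch.supp l hl
      rw [h2, sub_zero]
      show io M (ic M z) * φ (l.map (ic M z * ·)) * io M (ic M z) = 0
      rw [h1, mul_zero, zero_mul]
  rw [e]
  exact (Coch.zero _ _).mono hδ.le

theorem gam_fine (M : VonNeumannAlgebra H) (z : ZA M) (hz : Pr ((io M).comp (ic M)) z)
    (hh : IsGammaFactor (M : Set (H →L[ℂ] H)) (inc _ (cen_comm M) z)) {C : ℝ} (hC : 0 ≤ C)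
    {φ : List (RA M) → (H →L[ℂ] H)} (h : Coch (KK H) 2 C φ) (hcy : ∀ l, D (io M) φ l = 0)
    (δ : ℝ) (hδ : 0 < δ) : Fine (io M) (KK H) 1 (KG2 * C) δ φ (ic M z) := by
  obtain ⟨zz, hzz⟩ : ∃ zz : H →L[ℂ] H, zz = inc _ (cen_comm M) z := ⟨_, rfl⟩
  have hsp : IsStarProjection zz := by rw [hzz]; exact (pr_iff _ _).mp hz
  have hzM : zz ∈ M := by rw [hzz]; exact (ic M z).2
  have hcm : ∀ a ∈ M, zz * a = a * zz := fun a ha => by
    rw [hzz]; exact congrArg Subtype.val (ic_central M z ⟨a, ha⟩)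
  have hcp : IsCentralProj (M : Set (H →L[ℂ] H)) zz := ⟨hzM, hsp, hcm⟩
  rw [← hzz] at hh
  obtain ⟨N, hN⟩ := corner_vn M zz hcp
  obtain ⟨ξ, d, G⟩ := corner_gam M zz hcp hh N hN
  obtain ⟨Z, hyp⟩ := G.gam'
  exact K2_abs M z zz hzz hsp hzM hcm hC h hcy δ hδ N hyp (ez zz) (cz zz) hN
    (K2_ez_add zz) (K2_ez_smul zz) (K2_cz_add zz) (K2_cz_smul zz) (ez_cz hsp) (ez_mul hsp)
    (cz_mul hsp) (z_ez hsp) (ez_norm zz) (cz_norm zz) (ez_compact zz) (cz_compact zz)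
    (K2_cz_ez_mul hsp) (K2_cz_mul_ez hsp)

end Pool.Agent.HFT
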