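import Pool.Agent.HFT.Tr2
import Pool.Agent.HFT.Cv

set_option autoImplicit false
set_option linter.unusedSectionVars false

/-! # Module N1 (4 points): normality in a position and the coboundary

`WN F` (weakly null): `⟪b, F m a⟫ → 0` for all `a, b`. `NAt ξ i φ`: for every `p` of length `i`, every
`post` and every bounded sequence `y m` with `n2 (y m) → 0` the sequence `φ (p ++ y m :: post)` is
weakly null (normality of the cochain `φ` in the variable number `i`, counted from `0`).

`WN` is stable under sums, differences, scalars, left and right multiplication by a fixed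
operator (`⟪b, c F a⟫ = ⟪c* b, F a⟫`).

`E_wn`: if `F m t` is weakly null for every list `t` then so is `E ι (F m) l` for every `l`:
induction on `l` generalising `F` (`E_nil`, `E_one`, `E_cons`).

`E_head`: `NAt 0 ψ` implies that `E ι ψ (y m :: t)` is weakly null: `t = []`: `ψ [] * y m`,
`y m v → 0` (`TrF.sot`). `t = c :: l`: `ψ (y m * c :: l) - E ι (fun s => ψ (y m :: s)) (c :: l)`; the first
is weakly null since `y m * c` is bounded with `n2 ≤ n2 (y m) ‖c‖`, the second by `E_wn`.

`E_near`: `p.length = k`, `NAt j g` for all `j < k`: then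
`E ι g (p ++ y m :: t) - (-1)^k • E ι (curs g p) (y m :: t)` is weakly null. Induction on `p`
generalising `g`. `p = []`: zero. `p = [c]`: `E_cons`: the difference is `g (c * y m :: t)`, weakly null
by `NAt 0 g`. `p = c :: d :: p'`: `E ι g (c :: d :: (p' ++ y m :: t)) = g (c * d :: (p' ++ y m :: t)) -
E ι (fun s => g (c :: s)) (d :: (p' ++ y m :: t))`: the first is weakly null by `NAt (k - 1) g` (prefix
`c * d :: p'`), for the second use the induction hypothesis for `fun s => g (c :: s)` (`NAt j` for
`j < k - 1`) and the prefix `d :: p'`; `curs_cons`.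

`D_near`: `D ι g (p ++ y m :: t) + (-1)^k • E ι (curs g p) (y m :: t)` is weakly null. `p = []`:
`D_cons`: it equals `y m * g t` (right multiplication of `y m`: `y m (g t v) → 0`). `p = c :: p'`:
`D_cons`: `c * g (p' ++ y m :: t)` (weakly null by `NAt (k - 1)`) minus the difference of `E_near`.

`NAt.D`: for `i < k`: `D_near` for `p.length = i` and `E_head` for `curs g p` (`NAt 0 (curs g p)` is a case
of `NAt i g`). -/

namespace Pool.Agent.HFT

open Pool.Agent.HK Filter Topology

variable {H : Type} [NormedAddCommGroup H] [InnerProductSpace ℂ H] [CompleteSpace H]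
variable {M : VonNeumannAlgebra H} {ξ : ℕ → H}

/-- weakly null sequence of operators -/
def WN (F : ℕ → H →L[ℂ] H) : Prop :=
  ∀ a b : H, Tendsto (fun m => (inner ℂ b (F m a) : ℂ)) atTop (𝓝 0)

/-- normality in the variable number `i` -/
def NAt (ξ : ℕ → H) (i : ℕ) (φ : List (RA M) → (H →L[ℂ] H)) : Prop :=
  ∀ p post : List (RA M), p.length = i → ∀ (C : ℝ) (y : ℕ → RA M), (∀ m, ‖y m‖ ≤ C) →
    Tendsto (fun m => n2 ξ (y m).1) atTop (𝓝 0) → WN (fun m => φ (p ++ y m :: post))

theorem WN.add {F G : ℕ → H →L[ℂ] H} (h : WN F) (h' : WN G) : WN (fun m => F m + G m) := by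
  intro a b
  have h1 := (h a b).add (h' a b)
  rw [add_zero] at h1
  refine h1.congr fun m => ?_
  show inner ℂ b (F m a) + inner ℂ b (G m a) = inner ℂ b (F m a + G m a)
  rw [inner_add_right]

theorem WN.sub {F G : ℕ → H →L[ℂ] H} (h : WN F) (h' : WN G) : WN (fun m => F m - G m) := by
  intro a b
  have h1 := (h a b).sub (h' a b)
  rw [sub_zero] at h1
  refine h1.congr fun m => ?_
  show inner ℂ b (F m a) - inner ℂ b (G m a) = inner ℂ b (F m a - G m a)
  rw [inner_sub_right]

theorem WN.smul {F : ℕ → H →L[ℂ] H} (h : WN F) (c : ℂ) : WN (fun m => c • F m) := by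
  intro a b
  have h1 := (h a b).const_mul c
  rw [mul_zero] at h1
  refine h1.congr fun m => ?_
  show c * inner ℂ b (F m a) = inner ℂ b (c • F m a)
  rw [inner_smul_right]

theorem WN.mul_left {F : ℕ → H →L[ℂ] H} (h : WN F) (c : H →L[ℂ] H) :
    WN (fun m => c * F m) := by
  intro a b
  refine (h a (ContinuousLinearMap.adjoint c b)).congr fun m => ?_
  rw [ContinuousLinearMap.adjoint_inner_left]
  rfl

theorem WN.mul_right {F : ℕ → H →L[ℂ] H} (h : WN F) (c : H →L[ℂ] H) :
    WN (fun m => F m * c) := by
  intro a b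
  exact h (c a) b

theorem E_wn (F : ℕ → List (RA M) → (H →L[ℂ] H)) (h : ∀ t, WN (fun m => F m t))
    (l : List (RA M)) : WN (fun m => E (io M) (F m) l) := by
  induction l generalizing F with
  | nil =>
    intro a b
    simp
  | cons c l ih =>
    cases l with
    | nil =>
      have h1 := (h []).mul_right (io M c)
      simpa only [E_one] using h1
    | cons d l =>
      have h1 := (h (c * d :: l)).sub (ih (fun m s => F m (c :: s)) (fun t => h (c :: t)))
      simpa only [E_cons] using h1

private theorem N1_congr {F G : ℕ → H →L[ℂ] H} (h : WN F) (e : ∀ m, F m = G m) : WN G := by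
  intro a b
  have h1 := h a b
  refine h1.congr fun m => ?_
  rw [e m]

private theorem N1_wn_y (T : TrF M ξ) (C : ℝ) (y : ℕ → RA M) (hC : ∀ m, ‖y m‖ ≤ C)
    (hy : Tendsto (fun m => n2 ξ (y m).1) atTop (𝓝 0)) : WN (fun m => (y m).1) := by
  intro a b
  have h1 := T.sot (fun m => (y m).1) (fun m => (y m).2) C hC hy a
  have h2 := (tendsto_const_nhds (x := b) (f := atTop (α := ℕ))).inner (𝕜 := ℂ) h1
  rwa [inner_zero_right] at h2

theorem E_head (T : TrF M ξ) {ψ : List (RA M) → (H →L[ℂ] H)} (h : NAt ξ 0 ψ) (t : List (RA M))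
    (C : ℝ) (y : ℕ → RA M) (hC : ∀ m, ‖y m‖ ≤ C)
    (hy : Tendsto (fun m => n2 ξ (y m).1) atTop (𝓝 0)) :
    WN (fun m => E (io M) ψ (y m :: t)) := by
  cases t with
  | nil =>
    have h1 := (N1_wn_y T C y hC hy).mul_left (ψ [])
    refine N1_congr h1 fun m => ?_
    rw [E_one, io_apply]
  | cons c l =>
    have h1 : WN (fun m => ψ (y m * c :: l)) := by
      refine h [] l rfl (C * ‖c‖) (fun m => y m * c) (fun m => ?_) ?_
      · calc ‖y m * c‖ ≤ ‖y m‖ * ‖c‖ := norm_mul_le _ _
          _ ≤ C * ‖c‖ := by
            gcongr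
            exact hC m
      · have h2 := hy.mul_const ‖c.1‖
        rw [zero_mul] at h2
        exact squeeze_zero (fun m => n2_nonneg ξ _)
          (fun m => T.n2_mul_le' (x := (y m).1) (b := c.1) (y m).2 c.2) h2
    have h3 := h1.sub (E_wn (fun m s => ψ (y m :: s)) (fun t => h [] t rfl C y hC hy) (c :: l))
    simpa only [E_cons] using h3

private theorem N1_E_near (T : TrF M ξ) (C : ℝ) (y : ℕ → RA M) (hC : ∀ m, ‖y m‖ ≤ C)
    (hy : Tendsto (fun m => n2 ξ (y m).1) atTop (𝓝 0)) (t : List (RA M)) (p : List (RA M)) :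
    ∀ (g : List (RA M) → (H →L[ℂ] H)), (∀ j < p.length, NAt ξ j g) →
      WN (fun m => E (io M) g (p ++ y m :: t) -
        ((-1 : ℂ) ^ p.length) • E (io M) (curs g p) (y m :: t)) := by
  induction p with
  | nil =>
    intro g _ a b
    simp
  | cons c p ih =>
    intro g hg
    cases p with
    | nil =>
      have h1 : WN (fun m => g (c * y m :: t)) := by
        refine hg 0 (by simp) [] t rfl (‖c‖ * C) (fun m => c * y m) (fun m => ?_) ?_
        · calc ‖c * y m‖ ≤ ‖c‖ * ‖y m‖ := norm_mul_le _ _
            _ ≤ ‖c‖ * C := by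
              gcongr
              exact hC m
        · have h2 := hy.const_mul ‖c.1‖
          rw [mul_zero] at h2
          exact squeeze_zero (fun m => n2_nonneg ξ _)
            (fun m => n2_mul_le T.summ c.1 (y m).1) h2
      refine N1_congr h1 fun m => ?_
      have e : E (io M) g ([c] ++ y m :: t) -
          ((-1 : ℂ) ^ [c].length) • E (io M) (curs g [c]) (y m :: t) = g (c * y m :: t) := by
        rw [List.singleton_append, E_cons, curs_cons, curs_nil, List.length_singleton, pow_one,
          neg_smul, one_smul]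
        abel
      rw [e]
    | cons d p =>
      have h1 : WN (fun m => g ((c * d :: p) ++ y m :: t)) :=
        hg (p.length + 1) (by simp) (c * d :: p) t (by simp) C y hC hy
      have h2 := ih (fun s => g (c :: s)) (fun j hj => by
        intro p' post hp' C' y' hC' hy'
        exact hg (j + 1) (by simpa using hj) (c :: p') post (by simpa using hp') C' y' hC' hy')
      have h3 := h1.sub h2
      refine N1_congr h3 fun m => ?_
      have e : E (io M) g ((c :: d :: p) ++ y m :: t) -
          ((-1 : ℂ) ^ (c :: d :: p).length) • E (io M) (curs g (c :: d :: p)) (y m :: t) =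
          g ((c * d :: p) ++ y m :: t) - (E (io M) (fun s => g (c :: s)) ((d :: p) ++ y m :: t) -
          ((-1 : ℂ) ^ (d :: p).length) •
            E (io M) (curs (fun s => g (c :: s)) (d :: p)) (y m :: t)) := by
        rw [List.cons_append, List.cons_append, E_cons, curs_cons,
          show (c :: d :: p).length = (d :: p).length + 1 from rfl, pow_succ,
          mul_neg_one, neg_smul, List.cons_append]
        abel
      rw [e]

theorem D_near (T : TrF M ξ) {g : List (RA M) → (H →L[ℂ] H)} (k : ℕ) (h : ∀ j < k, NAt ξ j g)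
    (p t : List (RA M)) (hp : p.length = k)
    (C : ℝ) (y : ℕ → RA M) (hC : ∀ m, ‖y m‖ ≤ C)
    (hy : Tendsto (fun m => n2 ξ (y m).1) atTop (𝓝 0)) :
    WN (fun m => D (io M) g (p ++ y m :: t) +
      ((-1 : ℂ) ^ k) • E (io M) (curs g p) (y m :: t)) := by
  cases p with
  | nil =>
    have hk : k = 0 := by simpa using hp.symm
    subst hk
    have h1 := (N1_wn_y T C y hC hy).mul_right (g t)
    refine N1_congr h1 fun m => ?_
    rw [List.nil_append, D_cons, curs_nil, pow_zero, one_smul, sub_add_cancel, io_apply]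
  | cons c p =>
    have hk : k = p.length + 1 := by simpa using hp.symm
    subst hk
    have h1 : WN (fun m => c.1 * g (p ++ y m :: t)) :=
      (h p.length (Nat.lt_succ_self _) p t rfl C y hC hy).mul_left c.1
    have h2 := h1.sub (N1_E_near T C y hC hy t (c :: p) g h)
    refine N1_congr h2 fun m => ?_
    rw [List.cons_append, D_cons]
    have e : c.1 * g (p ++ y m :: t) - (E (io M) g (c :: (p ++ y m :: t)) -
        (-1 : ℂ) ^ (c :: p).length • E (io M) (curs g (c :: p)) (y m :: t)) =
        io M c * g (p ++ y m :: t) - E (io M) g (c :: (p ++ y m :: t)) +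
        (-1 : ℂ) ^ (p.length + 1) • E (io M) (curs g (c :: p)) (y m :: t) := by
      rw [List.length_cons, io_apply]
      abel
    rw [e]

theorem NAt.D (T : TrF M ξ) {g : List (RA M) → (H →L[ℂ] H)} (k : ℕ) (h : ∀ j < k, NAt ξ j g)
    (i : ℕ) (hi : i < k) : NAt ξ i (HK.D (io M) g) := by
  intro p post hp C y hC hy
  have h1 := D_near T i (fun j hj => h j (hj.trans hi)) p post hp C y hC hy
  have h0 : NAt ξ 0 (curs g p) := by
    intro p' post' hp' C' y' hC' hy'
    have hp'' : p' = [] := List.length_eq_zero_iff.mp hp'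
    subst hp''
    exact h i hi p post' hp C' y' hC' hy'
  have h2 := (E_head T h0 post C y hC hy).smul ((-1 : ℂ) ^ i)
  have h3 := h1.sub h2
  exact N1_congr h3 fun m => add_sub_cancel_right _ _

end Pool.Agent.HFT
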