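import Pool.Agent.HFT.NP

set_option autoImplicit false
set_option linter.unusedSectionVars false

/-! # Module Ph (4 points): pointwise limits and normal parts (a Phillips lemma)

If `ω m` is a bounded sequence of functionals with `ω m x → 0` for every `x`, then
`nP (ω m) x → 0` for every `x`.

Proof. Suppose not, for `x`: there are `c > 0` and infinitely many `m` with
`c ≤ ‖nP (ω m) x‖`. Let `e k` be the sequence of `SingF.common` for the singular functionals
`ω m - nP (ω m)` (all `m`). For every `m`: `nP (ω m) (e k x) = ω m (e k x)`, and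
`nP (ω m) (e k x) → nP (ω m) x` as `k → ∞` (`NormalF.seq` for `(1 - e k) x`:
`n2 ((1 - e k) x) = n2 (x* (1 - e k)) ≤ ‖x‖ n2 (1 - e k)`). (*)

Choose strictly increasing `m r` and `k r` (`k 0 = 0` say) inductively: given `k r`, there is `m` (larger than
the previous one) with `c ≤ ‖nP (ω m) x‖` and `‖ω m (e (k r) x)‖ ≤ c / 8` (pointwise
convergence); then by (*) there is `k (r+1) > k r` with `‖ω m (e (k (r+1)) x)‖ ≥ c / 2`. Call
this `m` `μ r`. `D r = e (k (r+1)) - e (k r)` (pairwise orthogonal projections of `M`; `e k e l = e k`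
for `k ≤ l`), `‖ω (μ r) (D r x)‖ ≥ 3 c / 8`. `vn_sum M D D` (HK/VN2) gives `A : Set ℕ → _` with
values in `M`, additive, `A {r} = D r`, `‖A S‖ ≤ 1`. Let `θ r` be unimodular with
`θ r * ω (μ r) (D r x) = ‖ω (μ r) (D r x)‖`. Apply `rosenthal_real` (HK/Ros) to
`m r S = (θ r * ω (μ r) (A S * x)).re` (bounded by `C ‖x‖`), `ε = c / 8`: an infinite `J` with
`m r J > 3 c / 8 - c / 8 = c / 4` for `r ∈ J`, so `‖ω (μ r) (A J x)‖ ≥ c / 4` for infinitely many `r`.
But `ω (μ r) (A J x) → 0` as `r → ∞` (`μ` is strictly increasing). Contradiction. -/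

namespace Pool.Agent.HFT

open Pool.Agent.HK Filter Topology

variable {H : Type} [NormedAddCommGroup H] [InnerProductSpace ℂ H] [CompleteSpace H]
variable {M : VonNeumannAlgebra H} {ξ : ℕ → H}

private theorem ph_le {e : ℕ → RA M} (hid : ∀ k, e k * e k = e k)
    (he1 : ∀ k, e k * e (k + 1) = e k) {k l : ℕ} (h : k ≤ l) : e k * e l = e k := by
  induction l, h using Nat.le_induction with
  | base => exact hid k
  | succ l h ih =>
    calc e k * e (l + 1) = (e k * e l) * e (l + 1) := by rw [ih]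
      _ = e k * (e l * e (l + 1)) := mul_assoc _ _ _
      _ = e k := by rw [he1, ih]

private theorem ph_le' {e : ℕ → RA M} (hid : ∀ k, e k * e k = e k)
    (he2 : ∀ k, e (k + 1) * e k = e k) {k l : ℕ} (h : k ≤ l) : e l * e k = e k := by
  induction l, h using Nat.le_induction with
  | base => exact hid k
  | succ l h ih =>
    calc e (l + 1) * e k = e (l + 1) * (e l * e k) := by rw [ih]
      _ = (e (l + 1) * e l) * e k := (mul_assoc _ _ _).symm
      _ = e k := by rw [he2, ih]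

private theorem ph_norm {p : H →L[ℂ] H} (hp : IsStarProjection p) : ‖p‖ ≤ 1 := by
  have h1 : ‖p‖ = ‖p‖ * ‖p‖ := by
    have h2 : ‖star p * p‖ = ‖p‖ * ‖p‖ := CStarRing.norm_star_mul_self
    rw [hp.isSelfAdjoint.star_eq, hp.isIdempotentElem.eq] at h2
    exact h2
  by_contra h
  push Not at h
  nlinarith [norm_nonneg p]

theorem ph (T : TrF M ξ) (ω : ℕ → RA M →L[ℂ] ℂ) (C : ℝ) (hC : ∀ m, ‖ω m‖ ≤ C)
    (h : ∀ x, Tendsto (fun m => ω m x) atTop (𝓝 0)) (x : RA M) :
    Tendsto (fun m => nP T (ω m) x) atTop (𝓝 0) := by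
  classical
  rw [Metric.tendsto_atTop]
  by_contra hcon
  push Not at hcon
  obtain ⟨c, hc, hc2⟩ := hcon
  simp only [dist_zero_right] at hc2
  obtain ⟨e, hep, he1, he2, het, hes⟩ :=
    SingF.common T (fun m => ω m - nP T (ω m)) (fun m => nP_sing T (ω m))
  have hid : ∀ k, e k * e k = e k := fun k => Subtype.ext (hep k).isIdempotentElem.eq
  have hsa : ∀ k, star (e k).1 = (e k).1 := fun k => (hep k).isSelfAdjoint.star_eq
  -- (*)
  have hst : ∀ m, Tendsto (fun k => ω m (e k * x)) atTop (𝓝 (nP T (ω m) x)) := by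
    intro m
    have h1 : ∀ k, ω m (e k * x) = nP T (ω m) x - nP T (ω m) ((1 - e k) * x) := by
      intro k
      have h2 : ω m (e k * x) - nP T (ω m) (e k * x) = 0 := (hes k m x).1
      rw [sub_mul, one_mul, map_sub]
      linear_combination h2
    have h3 : Tendsto (fun k => nP T (ω m) ((1 - e k) * x)) atTop (𝓝 0) := by
      refine NormalF.seq (nP_normal T (ω m)) _ ((1 : ℝ) * ‖x‖) ?_ ?_
      · intro k
        have h4 : IsStarProjection (1 - (e k).1) := (hep k).one_sub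
        have h5 : ‖(1 - e k : RA M)‖ ≤ 1 := ph_norm h4
        exact (norm_mul_le _ _).trans (mul_le_mul_of_nonneg_right h5 (norm_nonneg _))
      · have h6 : ∀ k, n2 ξ ((1 - e k) * x).1 ≤ ‖x.1‖ * n2 ξ (1 - (e k).1) := by
          intro k
          have h7 : star (((1 - e k) * x).1) = star x.1 * (1 - (e k).1) := by
            have : ((1 - e k) * x).1 = (1 - (e k).1) * x.1 := rfl
            rw [this, star_mul, star_sub, star_one, hsa]
          have h8 := T.n2_star ((1 - e k) * x).2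
          rw [← h8, h7]
          have h9 := n2_mul_le T.summ (star x.1) (1 - (e k).1)
          rwa [norm_star] at h9
        refine squeeze_zero (fun k => n2_nonneg _ _) h6 ?_
        have := het.const_mul ‖x.1‖
        rwa [mul_zero] at this
    have h10 := (tendsto_const_nhds (x := nP T (ω m) x)).sub h3
    rw [sub_zero] at h10
    exact h10.congr fun k => (h1 k).symm
  -- inductive step
  have hstep : ∀ N K : ℕ, ∃ m, N ≤ m ∧ ∃ k, K < k ∧ ‖ω m (e K * x)‖ ≤ c / 8 ∧
      c / 2 ≤ ‖ω m (e k * x)‖ := by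
    intro N K
    have h1 := (Metric.tendsto_atTop.mp (h (e K * x))) (c / 8) (by positivity)
    obtain ⟨N1, hN1⟩ := h1
    obtain ⟨m, hm1, hm2⟩ := hc2 (max N N1)
    have h2 := hN1 m ((le_max_right _ _).trans hm1)
    rw [dist_zero_right] at h2
    have h3 := (hst m).norm
    have h4 : ∀ᶠ k in atTop, c / 2 < ‖ω m (e k * x)‖ :=
      h3.eventually_const_lt (by linarith)
    obtain ⟨k, hk1, hk2⟩ := (h4.and (eventually_gt_atTop K)).exists
    exact ⟨m, (le_max_left _ _).trans hm1, k, hk2, h2.le, hk1.le⟩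
  choose f hf g hg hfg1 hfg2 using hstep
  let σ : ℕ → ℕ × ℕ := fun r => Nat.rec (0, 0) (fun _ s => (f s.1 s.2 + 1, g s.1 s.2)) r
  have hσ : ∀ r, σ (r + 1) = (f (σ r).1 (σ r).2 + 1, g (σ r).1 (σ r).2) := fun r => rfl
  let μ : ℕ → ℕ := fun r => f (σ r).1 (σ r).2
  let κ : ℕ → ℕ := fun r => (σ r).2
  have hκ : ∀ r, κ r < κ (r + 1) := fun r => by
    have := hg (σ r).1 (σ r).2
    show (σ r).2 < (σ (r + 1)).2
    rw [hσ]; exact this
  have hκm : StrictMono κ := strictMono_nat_of_lt_succ hκ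
  have hμm : StrictMono μ := by
    refine strictMono_nat_of_lt_succ fun r => ?_
    have h1 := hf (σ (r + 1)).1 (σ (r + 1)).2
    have h2 : (σ (r + 1)).1 = μ r + 1 := rfl
    have h3 : μ (r + 1) = f (σ (r + 1)).1 (σ (r + 1)).2 := rfl
    omega
  have hs1 : ∀ r, ‖ω (μ r) (e (κ r) * x)‖ ≤ c / 8 := fun r => hfg1 (σ r).1 (σ r).2
  have hs2 : ∀ r, c / 2 ≤ ‖ω (μ r) (e (κ (r + 1)) * x)‖ := fun r => hfg2 (σ r).1 (σ r).2
  let D : ℕ → RA M := fun r => e (κ (r + 1)) - e (κ r)
  have hle : ∀ {k l : ℕ}, k ≤ l → e k * e l = e k := fun h => ph_le hid he1 h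
  have hle' : ∀ {k l : ℕ}, k ≤ l → e l * e k = e k := fun h => ph_le' hid he2 h
  have hDD : ∀ r, D r * D r = D r := by
    intro r
    show (e (κ (r + 1)) - e (κ r)) * (e (κ (r + 1)) - e (κ r)) = e (κ (r + 1)) - e (κ r)
    rw [sub_mul, mul_sub, mul_sub, hid, hid, hle (hκ r).le, hle' (hκ r).le, sub_self, sub_zero]
  have hDlt : ∀ i j, i < j → D i * D j = 0 ∧ D j * D i = 0 := by
    intro i j hij
    have h1 : κ (i + 1) ≤ κ j := hκm.monotone hij
    have h2 : κ i ≤ κ j := hκm.monotone hij.le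
    have h3 : κ (i + 1) ≤ κ (j + 1) := h1.trans (hκ j).le
    have h4 : κ i ≤ κ (j + 1) := h2.trans (hκ j).le
    constructor
    · show (e (κ (i + 1)) - e (κ i)) * (e (κ (j + 1)) - e (κ j)) = 0
      rw [sub_mul, mul_sub, mul_sub, hle h1, hle h2, hle h3, hle h4]
      simp
    · show (e (κ (j + 1)) - e (κ j)) * (e (κ (i + 1)) - e (κ i)) = 0
      rw [sub_mul, mul_sub, mul_sub, hle' h1, hle' h2, hle' h3, hle' h4]
      simp
  have hDp : ∀ r, IsStarProjection (D r).1 := by
    intro r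
    refine ⟨congrArg Subtype.val (hDD r), ?_⟩
    show star ((e (κ (r + 1))).1 - (e (κ r)).1) = (e (κ (r + 1))).1 - (e (κ r)).1
    rw [star_sub, hsa, hsa]
  have hDo : ∀ i j, i ≠ j → (D i).1 * (D j).1 = 0 := by
    intro i j hij
    rcases lt_or_gt_of_ne hij with h1 | h1
    · exact congrArg Subtype.val (hDlt i j h1).1
    · exact congrArg Subtype.val (hDlt j i h1).2
  obtain ⟨A, hAM, hAadd, hAs, hAn⟩ := vn_sum M (fun r => (D r).1) (fun r => (D r).1)
    (fun r => (D r).2) hDp hDo (fun r => congrArg Subtype.val (hDD r))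
    (fun r => congrArg Subtype.val (hDD r)) (fun r => ph_norm (hDp r))
  let B : Set ℕ → RA M := fun S => ⟨A S, hAM S⟩
  have hBadd : ∀ S S', Disjoint S S' → B (S ∪ S') = B S + B S' := fun S S' hSS =>
    Subtype.ext (hAadd S S' hSS)
  have hBs : ∀ j, B {j} = D j := fun j => Subtype.ext (hAs j)
  have hBn : ∀ S, ‖B S‖ ≤ 1 := fun S => hAn S
  have hθ : ∀ r, ∃ θ : ℂ, ‖θ‖ = 1 ∧ ((‖ω (μ r) (D r * x)‖ : ℝ) : ℂ) = θ * ω (μ r) (D r * x) :=
    fun r => RCLike.exists_norm_eq_mul_self (K := ℂ) (ω (μ r) (D r * x))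
  choose θ hθ1 hθ2 using hθ
  have hb : ∀ r S, ‖θ r * ω (μ r) (B S * x)‖ ≤ C * ‖x‖ := by
    intro r S
    rw [norm_mul, hθ1, one_mul]
    refine ((ω (μ r)).le_opNorm _).trans ?_
    have h1 : ‖B S * x‖ ≤ ‖x‖ := by
      refine (norm_mul_le _ _).trans ?_
      have := mul_le_mul_of_nonneg_right (hBn S) (norm_nonneg x)
      rwa [one_mul] at this
    exact mul_le_mul (hC _) h1 (norm_nonneg _) ((norm_nonneg _).trans (hC 0))
  obtain ⟨J, hJ1, hJ2⟩ := rosenthal_real (fun r S => (θ r * ω (μ r) (B S * x)).re) (C * ‖x‖)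
    (fun r S => (Complex.abs_re_le_norm _).trans (hb r S))
    (fun r S S' hSS => by
      show (θ r * ω (μ r) (B (S ∪ S') * x)).re = _
      rw [hBadd S S' hSS, add_mul, map_add, mul_add, Complex.add_re])
    (c / 8) (by positivity)
  have hJ3 : ∀ r ∈ J, c / 4 ≤ ‖ω (μ r) (B J * x)‖ := by
    intro r hr
    have h1 := hJ2 r hr
    have h2 : (θ r * ω (μ r) (B {r} * x)).re = ‖ω (μ r) (D r * x)‖ := by
      rw [hBs, ← hθ2, Complex.ofReal_re]
    have h3 : (θ r * ω (μ r) (B J * x)).re ≤ ‖ω (μ r) (B J * x)‖ := by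
      refine (Complex.re_le_norm _).trans ?_
      rw [norm_mul, hθ1, one_mul]
    have h4 : 3 * c / 8 ≤ ‖ω (μ r) (D r * x)‖ := by
      have h5 : ω (μ r) (D r * x) = ω (μ r) (e (κ (r + 1)) * x) - ω (μ r) (e (κ r) * x) := by
        show ω (μ r) ((e (κ (r + 1)) - e (κ r)) * x) = _
        rw [sub_mul, map_sub]
      rw [h5]
      have h6 := norm_sub_norm_le (ω (μ r) (e (κ (r + 1)) * x)) (ω (μ r) (e (κ r) * x))
      have h7 := hs1 r
      have h8 := hs2 r
      linarith
    rw [h2] at h1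
    linarith
  have hfin := (h (B J * x)).comp hμm.tendsto_atTop
  obtain ⟨R, hR⟩ := (Metric.tendsto_atTop.mp hfin) (c / 4) (by positivity)
  obtain ⟨r, hrJ, hrR⟩ := hJ1.exists_gt R
  have h1 := hR r hrR.le
  rw [dist_zero_right] at h1
  exact absurd (hJ3 r hrJ) (not_le.mpr h1)

end Pool.Agent.HFT
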