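import Pool.Agent.HFT.Op
import Pool.Agent.HFT.Ph
import Pool.Agent.HFT.Onc

set_option autoImplicit false
set_option linter.unusedSectionVars false

/-! # Module OpK (1 point): the normal part of a compact valued map is compact valued

Suppose `nT T S x` is not compact: `exists_orthonormal` gives `c > 0` and an orthonormal
`f i` with `c ≤ ‖nT T S x (f i)‖`. Let `b i` be the unit vector `‖·‖⁻¹ • nT T S x (f i)`, so that
`⟪b i, nT T S x (f i)⟫ = ‖nT T S x (f i)‖ ≥ c`. `ω i = mel S (f i) (b i)`, `‖ω i‖ ≤ ‖S‖`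
(`mel_norm`), `ω i y = ⟪b i, S y (f i)⟫ → 0` as `S y` is compact (`compact_tendsto`). By `ph`:
`nP T (ω i) x → 0`, but `nP T (ω i) x = mel (nT T S) (f i) (b i) x` (`nT_mel`)
`= ⟪b i, nT T S x (f i)⟫`. Contradiction. -/

namespace Pool.Agent.HFT

open Pool.Agent.HK Filter Topology

variable {H : Type} [NormedAddCommGroup H] [InnerProductSpace ℂ H] [CompleteSpace H]
variable {M : VonNeumannAlgebra H} {ξ : ℕ → H}

theorem nT_compact (T : TrF M ξ) (S : RA M →L[ℂ] (H →L[ℂ] H))
    (h : ∀ x, IsCompactOperator (S x)) (x : RA M) : IsCompactOperator (nT T S x) := by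
  by_contra hnc
  obtain ⟨c, hc, f, hf, hcf⟩ := exists_orthonormal (nT T S x) hnc
  set g : ℕ → H := fun i => nT T S x (f i) with hg
  have hgpos : ∀ i, 0 < ‖g i‖ := fun i => lt_of_lt_of_le hc (hcf i)
  let b : ℕ → H := fun i => ((‖g i‖ : ℂ)⁻¹) • g i
  have hb : ∀ i, ‖b i‖ = 1 := by
    intro i
    have h0 : ‖g i‖ ≠ 0 := (hgpos i).ne'
    simp only [b, norm_smul, norm_inv, Complex.norm_real, norm_norm]
    exact inv_mul_cancel₀ h0
  have hin : ∀ i, ‖(inner ℂ (b i) (g i) : ℂ)‖ = ‖g i‖ := by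
    intro i
    have h0 : ‖g i‖ ≠ 0 := (hgpos i).ne'
    simp only [b, inner_smul_left, norm_mul, inner_self_eq_norm_sq_to_K]
    simp only [map_inv₀, Complex.conj_ofReal, norm_inv, Complex.norm_real, norm_norm, norm_pow,
      Complex.coe_algebraMap]
    field_simp
  have hω : ∀ i, ‖mel S (f i) (b i)‖ ≤ ‖S‖ := by
    intro i
    have h1 := mel_norm S (f i) (b i)
    rw [hb i, hf.1 i] at h1
    simpa using h1
  have hlim : ∀ y, Tendsto (fun i => mel S (f i) (b i) y) atTop (𝓝 0) := by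
    intro y
    have h1 := (compact_tendsto (S y) (h y) f hf).norm
    rw [norm_zero] at h1
    refine squeeze_zero_norm (fun i => ?_) h1
    rw [mel_apply]
    refine (norm_inner_le_norm _ _).trans ?_
    rw [hb i, one_mul]
  have h2 := (ph T (fun i => mel S (f i) (b i)) ‖S‖ hω hlim x).norm
  rw [norm_zero] at h2
  have h3 : ∀ i, c ≤ ‖nP T (mel S (f i) (b i)) x‖ := by
    intro i
    rw [← nT_mel, mel_apply]
    change c ≤ ‖(inner ℂ (b i) (g i) : ℂ)‖
    rw [hin i]
    exact hcf i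
  have h4 := ge_of_tendsto' h2 h3
  exact absurd h4 (not_le.2 hc)

end Pool.Agent.HFT
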