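import Pool.Agent.HFT.N1
import Pool.Agent.HFT.OpK

set_option autoImplicit false
set_option linter.unusedSectionVars false

/-! # Module N2 (4 points): the singular part of a cochain in one variable

`sg T φ p post x`: the singular part of `x ↦ φ (p ++ x :: post)` at `x`; `sgk T k φ` the list function
whose value at `p ++ x :: post`, `p.length = k`, is `sg T φ p post x` (zero on lists of length
`≤ k`). For a bounded cochain `φ` the map `x ↦ φ (p ++ x :: post)` is a continuous linear map `S`
with `‖S‖ ≤ C * (nm p * nm post)` (`Coch.lin`, `Coch.bd`, `nm_append`, `nm_cons`;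
`LinearMap.mkContinuous`): `exists_cu`. It is unique, so `sg_eq`: `sg T φ p post = S - nT T S`.
`sgk_append`: `List.take_left'`, `List.drop_left'`.

`sgk_coch` (`X = KK H`): `supp`: lists of length `≠ n` give `S = 0` (`nT T 0 = 0`); `val`:
`nT_compact`; `bd`: `‖S x - nT T S x‖ ≤ 2 ‖S‖ ‖x‖`; `lin`: in the position `k` clear; in a position
before `k` (the changed variable is in `p`) the map `S` depends linearly on this variable, and
`nT` is linear (`nT_add`, `nT_smul`); the same for a position after `k`.

`sgk_NAt`: `φ` normal in the position `i < k` implies that `sgk T k φ` is normal in the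
position `i`: with `p = p₁ ++ y m :: p₂` let `S_m` be the map for `y m`, `‖S_m‖` bounded,
`⟪b, S_m x a⟫ → 0` for every `x`, so `mel S_m a b` is a bounded sequence of functionals tending to
zero pointwise, and `nP T (mel S_m a b) x → 0` by `ph`. If the list is too short both sides are
trivial (`sgk = 0`).

`sub_sgk_NAt`: `φ - sgk T k φ` is `nT T S` in the position `k`: normal (`nT_normal`, `NormalF.seq`).

`E_sg`: let `G : RA M → List (RA M) → _` be such that for every `t` the map `a ↦ G a t` is a
continuous linear map `S t`. Let `G' a t = (S t - nT T (S t)) a`. Then for every `l` the map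
`a ↦ E ι (G a) l` is a continuous linear map `L` and `E ι (G' a) l = (L - nT T L) a`. Induction on `l`
generalising `G`: `[]`: `0`; `[c]`: `L = cR c (S [])`, `nT_cR`; `c :: d :: l`:
`E_cons`, `L = S (c * d :: l) - L'`, where `L'` is for `fun a t => G a (c :: t)` and `d :: l`.

`E_sgk`: let `p.length = k`. `a ↦ E ι (curs φ p) (a :: l)` is a continuous linear map `L` and
`E ι (curs (sgk T k φ) p) (a :: l) = (L - nT T L) a`. `l = []`: `φ p * a` is normal in `a`
(`normalT_cL_iL`), and `sgk T k φ p = 0`. `l = b :: l'`: `E_cons`: `φ (p ++ a b :: l') -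
E ι (fun t => φ (p ++ a :: t)) (b :: l')`: first term: `vR b S`, `nT_vR`; second: `E_sg`. -/

namespace Pool.Agent.HFT

open Pool.Agent.HK Filter Topology

variable {H : Type} [NormedAddCommGroup H] [InnerProductSpace ℂ H] [CompleteSpace H]
variable {M : VonNeumannAlgebra H} {ξ : ℕ → H}

open Classical in
/-- singular part in one variable -/
noncomputable def sg (T : TrF M ξ) (φ : List (RA M) → (H →L[ℂ] H)) (p post : List (RA M))
    (x : RA M) : H →L[ℂ] H :=
  if h : ∃ S : RA M →L[ℂ] (H →L[ℂ] H), ∀ x, S x = φ (p ++ x :: post) then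
    h.choose x - nT T h.choose x else 0

/-- singular part in the variable number `k` -/
noncomputable def sgk (T : TrF M ξ) (k : ℕ) (φ : List (RA M) → (H →L[ℂ] H))
    (l : List (RA M)) : H →L[ℂ] H :=
  match l.drop k with
  | [] => 0
  | x :: post => sg T φ (l.take k) post x

private theorem nT_zero (T : TrF M ξ) : nT T (0 : RA M →L[ℂ] (H →L[ℂ] H)) = 0 := by
  have h := nT_sub T (0 : RA M →L[ℂ] (H →L[ℂ] H)) 0
  rwa [sub_self, sub_self] at h

private theorem lin_zero {φ : List (RA M) → (H →L[ℂ] H)} (h : Lin φ) (p post : List (RA M)) :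
    φ (p ++ 0 :: post) = 0 := by
  have h1 := h p post 0 0 1
  rw [one_smul, one_smul, add_zero] at h1
  have h2 : φ (p ++ 0 :: post) + φ (p ++ 0 :: post) = φ (p ++ 0 :: post) + 0 := by
    rw [add_zero]
    exact h1.symm
  exact add_left_cancel h2

theorem exists_cu {X : Submodule ℂ (H →L[ℂ] H)} {n : ℕ} {C : ℝ} (hC : 0 ≤ C)
    {φ : List (RA M) → (H →L[ℂ] H)} (h : Coch X n C φ) (p post : List (RA M)) :
    ∃ S : RA M →L[ℂ] (H →L[ℂ] H), (∀ x, S x = φ (p ++ x :: post)) ∧
      ‖S‖ ≤ C * (nm p * nm post) := by
  let Lm : RA M →ₗ[ℂ] (H →L[ℂ] H) :=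
    { toFun := fun x => φ (p ++ x :: post)
      map_add' := by
        intro x y
        have h1 := h.lin p post x y 1
        rwa [one_smul, one_smul] at h1
      map_smul' := by
        intro c x
        have h1 := h.lin p post x 0 c
        rw [add_zero, lin_zero h.lin, add_zero] at h1
        exact h1 }
  have hb : ∀ x, ‖Lm x‖ ≤ C * (nm p * nm post) * ‖x‖ := by
    intro x
    have h1 := h.bd (p ++ x :: post)
    rw [nm_append, nm_cons] at h1
    calc ‖Lm x‖ = ‖φ (p ++ x :: post)‖ := rfl
      _ ≤ C * (nm p * (‖x‖ * nm post)) := h1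
      _ = _ := by ring
  refine ⟨Lm.mkContinuous _ hb, fun x => rfl, Lm.mkContinuous_norm_le ?_ hb⟩
  exact mul_nonneg hC (mul_nonneg (nm_nonneg _) (nm_nonneg _))

theorem sg_eq (T : TrF M ξ) (φ : List (RA M) → (H →L[ℂ] H)) (p post : List (RA M))
    (S : RA M →L[ℂ] (H →L[ℂ] H)) (hS : ∀ x, S x = φ (p ++ x :: post)) (x : RA M) :
    sg T φ p post x = S x - nT T S x := by
  have h : ∃ S : RA M →L[ℂ] (H →L[ℂ] H), ∀ x, S x = φ (p ++ x :: post) := ⟨S, hS⟩
  unfold sg
  rw [dif_pos h]
  have e : h.choose = S := by
    apply ContinuousLinearMap.ext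
    intro y
    rw [h.choose_spec y, hS y]
  rw [e]

theorem sgk_append (T : TrF M ξ) (φ : List (RA M) → (H →L[ℂ] H)) (k : ℕ) (p post : List (RA M))
    (hp : p.length = k) (x : RA M) : sgk T k φ (p ++ x :: post) = sg T φ p post x := by
  unfold sgk
  rw [List.drop_left' hp, List.take_left' hp]

theorem sgk_short (T : TrF M ξ) (φ : List (RA M) → (H →L[ℂ] H)) (k : ℕ) (l : List (RA M))
    (hl : l.length ≤ k) : sgk T k φ l = 0 := by
  unfold sgk
  rw [List.drop_eq_nil_of_le hl]

private theorem split_at {α : Type} (k : ℕ) (l : List α) (h : k < l.length) :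
    ∃ p x post, l = p ++ x :: post ∧ p.length = k := by
  refine ⟨l.take k, l[k], l.drop (k + 1), ?_, ?_⟩
  · rw [List.getElem_cons_drop, List.take_append_drop]
  · rw [List.length_take]
    omega

private theorem sgk_form (T : TrF M ξ) {X : Submodule ℂ (H →L[ℂ] H)} {n : ℕ} {C : ℝ}
    (hC : 0 ≤ C) {φ : List (RA M) → (H →L[ℂ] H)} (h : Coch X n C φ) (k : ℕ)
    (p post : List (RA M)) (hp : p.length = k) :
    ∃ S : RA M →L[ℂ] (H →L[ℂ] H), (∀ x, S x = φ (p ++ x :: post)) ∧
      ‖S‖ ≤ C * (nm p * nm post) ∧ ∀ x, sgk T k φ (p ++ x :: post) = S x - nT T S x := by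
  obtain ⟨S, hS, hn⟩ := exists_cu hC h p post
  exact ⟨S, hS, hn, fun x => by rw [sgk_append T φ k p post hp, sg_eq T φ p post S hS]⟩

theorem sgk_coch (T : TrF M ξ) {n : ℕ} {C : ℝ} (hC : 0 ≤ C)
    {φ : List (RA M) → (H →L[ℂ] H)} (h : Coch (KK H) n C φ) (k : ℕ) :
    Coch (KK H) n (2 * C) (sgk T k φ) := by
  refine ⟨?_, ?_, ?_, ?_⟩
  · intro l hl
    by_cases hk : l.length ≤ k
    · exact sgk_short T φ k l hk
    · obtain ⟨p, x, post, rfl, hp⟩ := split_at k l (by omega)
      obtain ⟨S, hS, -, hs⟩ := sgk_form T hC h k p post hp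
      have hS0 : S = 0 := by
        apply ContinuousLinearMap.ext
        intro y
        rw [hS y, h.supp]
        · rfl
        · simp only [List.length_append, List.length_cons] at hl ⊢
          exact hl
      rw [hs, hS0, nT_zero]
      simp
  · intro p post x y c
    rcases lt_trichotomy p.length k with hpk | hpk | hpk
    · by_cases hlen : p.length + 1 + post.length ≤ k
      · rw [sgk_short, sgk_short, sgk_short]
        · simp
        all_goals
          simp only [List.length_append, List.length_cons]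
          omega
      · obtain ⟨q, z, post', rfl, hq⟩ := split_at (k - (p.length + 1)) post (by omega)
        have hl : ∀ w : RA M, (p ++ w :: q).length = k := by
          intro w
          simp only [List.length_append, List.length_cons]
          omega
        have he : ∀ w v : RA M, p ++ w :: (q ++ v :: post') = (p ++ w :: q) ++ v :: post' := by
          intro w v
          simp
        obtain ⟨S, hS, -, hs⟩ := sgk_form T hC h k (p ++ (c • x + y) :: q) post' (hl _)
        obtain ⟨S1, hS1, -, hs1⟩ := sgk_form T hC h k (p ++ x :: q) post' (hl _)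
        obtain ⟨S2, hS2, -, hs2⟩ := sgk_form T hC h k (p ++ y :: q) post' (hl _)
        have e : S = c • S1 + S2 := by
          apply ContinuousLinearMap.ext
          intro v
          have h1 := h.lin p (q ++ v :: post') x y c
          rw [he, he, he, ← hS, ← hS1, ← hS2] at h1
          exact h1
        rw [he, he, he, hs, hs1, hs2, e, nT_add, nT_smul]
        simp only [ContinuousLinearMap.add_apply, ContinuousLinearMap.smul_apply, smul_sub]
        abel
    · obtain ⟨S, hS, -, hs⟩ := sgk_form T hC h k p post hpk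
      rw [hs, hs, hs]
      simp only [map_add, map_smul, smul_sub]
      abel
    · obtain ⟨p1, z, p2, rfl, hp1⟩ := split_at k p hpk
      have he : ∀ w v : RA M, (p1 ++ v :: p2) ++ w :: post = p1 ++ v :: (p2 ++ w :: post) := by
        intro w v
        simp
      obtain ⟨S, hS, -, hs⟩ := sgk_form T hC h k p1 (p2 ++ (c • x + y) :: post) hp1
      obtain ⟨S1, hS1, -, hs1⟩ := sgk_form T hC h k p1 (p2 ++ x :: post) hp1
      obtain ⟨S2, hS2, -, hs2⟩ := sgk_form T hC h k p1 (p2 ++ y :: post) hp1
      have e : S = c • S1 + S2 := by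
        apply ContinuousLinearMap.ext
        intro v
        have h1 := h.lin (p1 ++ v :: p2) post x y c
        rw [he, he, he, ← hS, ← hS1, ← hS2] at h1
        exact h1
      rw [he, he, he, hs, hs1, hs2, e, nT_add, nT_smul]
      simp only [ContinuousLinearMap.add_apply, ContinuousLinearMap.smul_apply, smul_sub]
      abel
  · intro l
    by_cases hk : l.length ≤ k
    · rw [sgk_short T φ k l hk]
      exact (KK H).zero_mem
    · obtain ⟨p, x, post, rfl, hp⟩ := split_at k l (by omega)
      obtain ⟨S, hS, -, hs⟩ := sgk_form T hC h k p post hp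
      rw [hs]
      have hc : ∀ y, IsCompactOperator (S y) := fun y => by
        rw [hS y]
        exact h.val _
      exact (KK H).sub_mem (hc x) (nT_compact T S hc x)
  · intro l
    by_cases hk : l.length ≤ k
    · rw [sgk_short T φ k l hk, norm_zero]
      have := nm_nonneg l
      positivity
    · obtain ⟨p, x, post, rfl, hp⟩ := split_at k l (by omega)
      obtain ⟨S, hS, hn, hs⟩ := sgk_form T hC h k p post hp
      rw [hs, nm_append, nm_cons]
      calc ‖S x - nT T S x‖ ≤ ‖S x‖ + ‖nT T S x‖ := norm_sub_le _ _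
        _ ≤ ‖S‖ * ‖x‖ + ‖S‖ * ‖x‖ := by
            refine add_le_add (S.le_opNorm x) (((nT T S).le_opNorm x).trans ?_)
            exact mul_le_mul_of_nonneg_right (nT_norm T S) (norm_nonneg _)
        _ = 2 * ‖S‖ * ‖x‖ := by ring
        _ ≤ 2 * (C * (nm p * nm post)) * ‖x‖ := by gcongr
        _ = _ := by ring

private theorem WN_zero : WN (fun _ : ℕ => (0 : H →L[ℂ] H)) := by
  intro a b
  simp

theorem sgk_NAt (T : TrF M ξ) {X : Submodule ℂ (H →L[ℂ] H)} {n : ℕ} {C : ℝ} (hC : 0 ≤ C)
    {φ : List (RA M) → (H →L[ℂ] H)} (h : Coch X n C φ) (k i : ℕ) (hi : i < k)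
    (hN : NAt ξ i φ) : NAt ξ i (sgk T k φ) := by
  intro p post hp C' y hy hy0
  by_cases hlen : p.length + 1 + post.length ≤ k
  · have e : (fun m => sgk T k φ (p ++ y m :: post)) = fun _ => 0 := by
      funext m
      rw [sgk_short]
      simp only [List.length_append, List.length_cons]
      omega
    rw [e]
    exact WN_zero
  · obtain ⟨q, z, post', rfl, hq⟩ := split_at (k - (p.length + 1)) post (by omega)
    have hl : ∀ w : RA M, (p ++ w :: q).length = k := by
      intro w
      simp only [List.length_append, List.length_cons]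
      omega
    have he : ∀ w v : RA M, p ++ w :: (q ++ v :: post') = (p ++ w :: q) ++ v :: post' := by
      intro w v
      simp
    choose S hS hn hs using fun m => sgk_form T hC h k (p ++ y m :: q) post' (hl (y m))
    intro a b
    have hpt : ∀ x, Tendsto (fun m => mel (S m) a b x) atTop (𝓝 0) := by
      intro x
      have h1 := hN p (q ++ x :: post') hp C' y hy hy0 a b
      refine h1.congr fun m => ?_
      change inner ℂ b (φ (p ++ y m :: (q ++ x :: post')) a) = _
      rw [mel_apply, hS, he]
    have hC' : 0 ≤ C' := (norm_nonneg _).trans (hy 0)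
    have hb : ∀ m, ‖mel (S m) a b‖ ≤ C * ((nm p * (C' * nm q)) * nm post') * (‖a‖ * ‖b‖) := by
      intro m
      refine (mel_norm (S m) a b).trans ?_
      refine mul_le_mul_of_nonneg_right ((hn m).trans ?_) (by positivity)
      rw [nm_append, nm_cons]
      have h1 := nm_nonneg p
      have h2 := nm_nonneg q
      have h3 := nm_nonneg post'
      have h4 := hy m
      gcongr
    have h2 := ph T (fun m => mel (S m) a b) _ hb hpt z
    have h3 := (hpt z).sub h2
    rw [sub_zero] at h3
    refine h3.congr fun m => ?_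
    change mel (S m) a b z - nP T (mel (S m) a b) z =
      inner ℂ b (sgk T k φ (p ++ y m :: (q ++ z :: post')) a)
    rw [he, hs, ← nT_mel, mel_apply, mel_apply, ContinuousLinearMap.sub_apply, inner_sub_right]

theorem sub_sgk_NAt (T : TrF M ξ) {X : Submodule ℂ (H →L[ℂ] H)} {n : ℕ} {C : ℝ} (hC : 0 ≤ C)
    {φ : List (RA M) → (H →L[ℂ] H)} (h : Coch X n C φ) (k : ℕ) :
    NAt ξ k (fun l => φ l - sgk T k φ l) := by
  intro p post hp C' y hy hy0 a b
  obtain ⟨S, hS, -, hs⟩ := sgk_form T hC h k p post hp
  have h1 := (nT_normal T S).seq T y 0 C' hy (by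
    refine hy0.congr fun m => ?_
    congr 1
    change (y m).1 = (y m).1 - 0
    rw [sub_zero]) a b
  rw [map_zero, ContinuousLinearMap.zero_apply, inner_zero_right] at h1
  refine h1.congr fun m => ?_
  change _ = inner ℂ b ((φ (p ++ y m :: post) - sgk T k φ (p ++ y m :: post)) a)
  rw [hs, ← hS, sub_sub_cancel]

private theorem E_sg (T : TrF M ξ) (l : List (RA M)) :
    ∀ S : List (RA M) → (RA M →L[ℂ] (H →L[ℂ] H)),
    ∃ L : RA M →L[ℂ] (H →L[ℂ] H), (∀ a, L a = E (io M) (fun t => S t a) l) ∧
      ∀ a, E (io M) (fun t => S t a - nT T (S t) a) l = L a - nT T L a := by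
  induction l with
  | nil =>
    intro S
    refine ⟨0, fun a => by simp, fun a => ?_⟩
    rw [nT_zero]
    simp
  | cons c l ih =>
    intro S
    cases l with
    | nil =>
      refine ⟨cR (io M c) (S []), fun a => by simp, fun a => ?_⟩
      rw [E_one, nT_cR, cR_apply, cR_apply, sub_mul]
    | cons d l =>
      obtain ⟨L, hL, hL'⟩ := ih (fun t => S (c :: t))
      refine ⟨S (c * d :: l) - L, fun a => ?_, fun a => ?_⟩
      · rw [E_cons, ContinuousLinearMap.sub_apply, hL]
      · rw [E_cons, nT_sub]
        have h1 := hL' a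
        rw [h1]
        simp only [ContinuousLinearMap.sub_apply]
        abel

theorem E_sgk (T : TrF M ξ) {X : Submodule ℂ (H →L[ℂ] H)} {n : ℕ} {C : ℝ} (hC : 0 ≤ C)
    {φ : List (RA M) → (H →L[ℂ] H)} (h : Coch X n C φ) (k : ℕ) (p l : List (RA M))
    (hp : p.length = k) :
    ∃ L : RA M →L[ℂ] (H →L[ℂ] H), (∀ a, L a = E (io M) (curs φ p) (a :: l)) ∧
      ∀ a, E (io M) (curs (sgk T k φ) p) (a :: l) = L a - nT T L a := by
  cases l with
  | nil =>
    refine ⟨cL (φ p) (iL M), fun a => ?_, fun a => ?_⟩
    · rw [E_one, curs_apply, List.append_nil]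
      rfl
    · rw [E_one, curs_apply, List.append_nil, sgk_short T φ k p hp.le,
        nT_of_normal T (normalT_cL_iL T (φ p)), zero_mul, sub_self]
  | cons b l =>
    choose S hS hn hs using fun t => sgk_form T hC h k p t hp
    obtain ⟨L, hL, hL'⟩ := E_sg T (b :: l) S
    refine ⟨vR b (S l) - L, fun a => ?_, fun a => ?_⟩
    · rw [E_cons, ContinuousLinearMap.sub_apply, hL, vR_apply, hS, curs_apply]
      congr 2
      funext t
      rw [hS, curs_apply]
    · rw [E_cons, curs_apply, hs]
      have e : (fun t => curs (sgk T k φ) p (a :: t)) = fun t => S t a - nT T (S t) a := by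
        funext t
        rw [curs_apply, hs]
      rw [e, hL' a, nT_sub, nT_vR]
      simp only [ContinuousLinearMap.sub_apply, vR_apply]
      abel

end Pool.Agent.HFT
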