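import Pool.Agent.HFT.C1
import Pool.Agent.HFT.Cv
import Pool.Agent.HFT.Tr2
import Pool.Agent.HFT.DefsN

set_option autoImplicit false
set_option linter.unusedSectionVars false

/-! # Module N4 (4 points): cochains of a corner

`N` is the von Neumann algebra on `Kz z` with `y ∈ N ↔ ez z y ∈ M` (module C1, `corner_vn`), `z` a
central projection of `M`. `jz : RA N → RA M`, `kz : RA M → RA N` are `ez`, `cz` (for `a ∈ M`:
`ez (cz a) = z a z = z a ∈ M`). They are linear and multiplicative (`ez_mul`, `cz_mul`), contractions,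
`kz (jz x) = x`, `jz (kz a) = z a`.
`dn φ l = cz z (φ (l.map jz))`, `up ψ l = ez z (ψ (l.map kz))`.
`dn_coch`, `up_coch`: `Coch.lin` by linearity of `jz`, `kz`, `cz`, `ez`; norms `ez_norm`, `cz_norm`,
`nm (l.map jz) ≤ nm l` (`nm_map_le` in HK/Fine with `κ = 1`); compactness `cz_compact`, `ez_compact`.
`dn_D`: `D (io N) (dn φ) l = cz z (D (io M) φ (l.map jz))`: like `D_P`, `E_P` in HK/Alg by induction on
the list (generalising `φ`), with `x * cz z T = cz z (ez z x * T)`, `cz z T * x = cz z (T * ez z x)`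
(because `Wz ∘ Vz = 1`: `x (W T V) = W V x W T V`).
`up_D`: `D (io M) (up ψ) l = ez z (D (io N) ψ (l.map kz))`, with `a * ez z y = ez z (cz z a * y)`
(`a * ez y = a z ez y = z a ez y`, and `V W a V y W = z a V y W`) and `ez z y * a = ez z (y * cz z a)`.
`up_dn`: `ez (cz T) = z T z`, `jz (kz a) = z a`.
`corner_tr`: as `corner_hyp` (C1): `ξ' i = Wz z (ξ i)`, `‖y (ξ' i)‖ = ‖ez z y (ξ i)‖` for `y ∈ N`.
`kz_sot`: `kz (a m) v = W (a m (V v))`, and `n2_tendsto` gives the `2`-norm convergence. -/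

namespace Pool.Agent.HFT

open Pool.Agent.HK Filter Topology

variable {H : Type} [NormedAddCommGroup H] [InnerProductSpace ℂ H] [CompleteSpace H]

private theorem n4_ez_lin (z : H →L[ℂ] H) (c : ℂ) (x y : Kz z →L[ℂ] Kz z) :
    ez z (c • x + y) = c • ez z x + ez z y := by
  ext v
  show Vz z ((c • x + y) (Wz z v)) = c • Vz z (x (Wz z v)) + Vz z (y (Wz z v))
  rw [← map_smul, ← map_add]
  rfl

private theorem n4_cz_lin (z : H →L[ℂ] H) (c : ℂ) (x y : H →L[ℂ] H) :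
    cz z (c • x + y) = c • cz z x + cz z y := by
  ext v
  show ((Wz z ((c • x + y) (Vz z v)) : Kz z) : H) =
    ((c • Wz z (x (Vz z v)) + Wz z (y (Vz z v)) : Kz z) : H)
  rw [← map_smul, ← map_add]
  rfl

private theorem n4_ez_sub (z : H →L[ℂ] H) (x y : Kz z →L[ℂ] Kz z) :
    ez z (x - y) = ez z x - ez z y := by
  ext v
  show Vz z ((x - y) (Wz z v)) = Vz z (x (Wz z v)) - Vz z (y (Wz z v))
  rw [← map_sub]
  rfl

private theorem n4_cz_sub (z : H →L[ℂ] H) (x y : H →L[ℂ] H) :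
    cz z (x - y) = cz z x - cz z y := by
  ext v
  show ((Wz z ((x - y) (Vz z v)) : Kz z) : H) =
    ((Wz z (x (Vz z v)) - Wz z (y (Vz z v)) : Kz z) : H)
  rw [← map_sub]
  rfl

private theorem n4_ez_zero (z : H →L[ℂ] H) : ez z 0 = 0 := by
  have h := n4_ez_sub z 0 0
  rw [sub_zero, sub_self] at h
  exact h

private theorem n4_cz_zero (z : H →L[ℂ] H) : cz z 0 = 0 := by
  have h := n4_cz_sub z 0 0
  rw [sub_zero, sub_self] at h
  exact h

private theorem n4_cz_mul_ez {z : H →L[ℂ] H} (hz : IsStarProjection z) (T : H →L[ℂ] H)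
    (y : Kz z →L[ℂ] Kz z) : cz z T * y = cz z (T * ez z y) := by
  ext v
  show ((Wz z (T (Vz z (y v))) : Kz z) : H) = ((Wz z (T (Vz z (y (Wz z (Vz z v))))) : Kz z) : H)
  rw [WV hz]

private theorem n4_ez_mul_cz {z : H →L[ℂ] H} (hz : IsStarProjection z) (T : H →L[ℂ] H)
    (y : Kz z →L[ℂ] Kz z) : y * cz z T = cz z (ez z y * T) := by
  ext v
  show ((y (Wz z (T (Vz z v))) : Kz z) : H) = ((Wz z (Vz z (y (Wz z (T (Vz z v))))) : Kz z) : H)
  rw [WV hz]

private theorem n4_nm {R S : Type} [NormedRing R] [NormedRing S] [NormedAlgebra ℂ R]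
    [NormedAlgebra ℂ S] (f : R → S)
    (hf : ∀ a, ‖f a‖ ≤ ‖a‖) (l : List R) : nm (l.map f) ≤ nm l := by
  induction l with
  | nil => simp
  | cons a t ih =>
    rw [List.map_cons, nm_cons, nm_cons]
    exact mul_le_mul (hf a) ih (nm_nonneg _) (norm_nonneg _)

section

variable {M : VonNeumannAlgebra H} {z : H →L[ℂ] H} (hz : IsCentralProj (M : Set (H →L[ℂ] H)) z)
  {N : VonNeumannAlgebra (Kz z)} (hN : ∀ y, y ∈ N ↔ ez z y ∈ M)

theorem cz_mem (hz : IsCentralProj (M : Set (H →L[ℂ] H)) z)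
    (hN : ∀ y, y ∈ N ↔ ez z y ∈ M) (a : RA M) : cz z a.1 ∈ N := by
  rw [hN, ez_cz hz.2.1]
  exact mul_mem (mul_mem hz.1 a.2) hz.1

/-- from the corner to the algebra -/
noncomputable def jz (hN : ∀ y, y ∈ N ↔ ez z y ∈ M) (x : RA N) : RA M :=
  ⟨ez z x.1, (hN x.1).mp x.2⟩

/-- from the algebra to the corner -/
noncomputable def kz (hz : IsCentralProj (M : Set (H →L[ℂ] H)) z)
    (hN : ∀ y, y ∈ N ↔ ez z y ∈ M) (a : RA M) : RA N := ⟨cz z a.1, cz_mem hz hN a⟩

/-- restriction of a cochain to the corner -/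
noncomputable def dn (hN : ∀ y, y ∈ N ↔ ez z y ∈ M) (φ : List (RA M) → (H →L[ℂ] H)) :
    List (RA N) → (Kz z →L[ℂ] Kz z) := fun l => cz z (φ (l.map (jz hN)))

/-- extension of a cochain of the corner -/
noncomputable def up (hz : IsCentralProj (M : Set (H →L[ℂ] H)) z)
    (hN : ∀ y, y ∈ N ↔ ez z y ∈ M) (ψ : List (RA N) → (Kz z →L[ℂ] Kz z)) :
    List (RA M) → (H →L[ℂ] H) := fun l => ez z (ψ (l.map (kz hz hN)))

private theorem n4_jz_lin (hN : ∀ y, y ∈ N ↔ ez z y ∈ M) (c : ℂ) (x y : RA N) :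
    jz hN (c • x + y) = c • jz hN x + jz hN y := Subtype.ext (n4_ez_lin z c x.1 y.1)

private theorem n4_kz_lin (hz : IsCentralProj (M : Set (H →L[ℂ] H)) z)
    (hN : ∀ y, y ∈ N ↔ ez z y ∈ M) (c : ℂ) (x y : RA M) :
    kz hz hN (c • x + y) = c • kz hz hN x + kz hz hN y := Subtype.ext (n4_cz_lin z c x.1 y.1)

private theorem n4_jz_mul (hz : IsCentralProj (M : Set (H →L[ℂ] H)) z)
    (hN : ∀ y, y ∈ N ↔ ez z y ∈ M) (x y : RA N) :
    jz hN (x * y) = jz hN x * jz hN y := Subtype.ext (ez_mul hz.2.1 x.1 y.1)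

private theorem n4_kz_mul (hz : IsCentralProj (M : Set (H →L[ℂ] H)) z)
    (hN : ∀ y, y ∈ N ↔ ez z y ∈ M) (x y : RA M) :
    kz hz hN (x * y) = kz hz hN x * kz hz hN y :=
  Subtype.ext (cz_mul hz.2.1 x.1 y.1 (hz.2.2 y.1 y.2))

private theorem n4_jz_norm (hN : ∀ y, y ∈ N ↔ ez z y ∈ M) (x : RA N) : ‖jz hN x‖ ≤ ‖x‖ :=
  ez_norm z x.1

private theorem n4_kz_norm (hz : IsCentralProj (M : Set (H →L[ℂ] H)) z)
    (hN : ∀ y, y ∈ N ↔ ez z y ∈ M) (x : RA M) : ‖kz hz hN x‖ ≤ ‖x‖ := cz_norm z x.1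

private theorem n4_dn_E (hz : IsCentralProj (M : Set (H →L[ℂ] H)) z)
    (hN : ∀ y, y ∈ N ↔ ez z y ∈ M) (l : List (RA N)) : ∀ φ : List (RA M) → (H →L[ℂ] H),
    E (io N) (dn hN φ) l = cz z (E (io M) φ (l.map (jz hN))) := by
  induction l with
  | nil =>
    intro φ
    rw [List.map_nil, E_nil, E_nil, n4_cz_zero]
  | cons a l ih =>
    intro φ
    cases l with
    | nil =>
      rw [List.map_cons, List.map_nil, E_one, E_one]
      exact n4_cz_mul_ez hz.2.1 (φ []) a.1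
    | cons b l =>
      rw [List.map_cons, List.map_cons, E_cons, E_cons, n4_cz_sub]
      have h1 := ih (fun t => φ (jz hN a :: t))
      rw [List.map_cons] at h1
      rw [← h1]
      have h2 : dn hN φ (a * b :: l) = cz z (φ (jz hN a * jz hN b :: l.map (jz hN))) := by
        show cz z (φ ((a * b :: l).map (jz hN))) = _
        rw [List.map_cons, n4_jz_mul hz hN]
      rw [h2]
      rfl

private theorem n4_a_ez (hz : IsCentralProj (M : Set (H →L[ℂ] H)) z)
    (hN : ∀ y, y ∈ N ↔ ez z y ∈ M) (a : RA M) (y : Kz z →L[ℂ] Kz z) :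
    a.1 * ez z y = ez z ((kz hz hN a).1 * y) ∧ ez z y * a.1 = ez z (y * (kz hz hN a).1) := by
  have h1 : ez z (kz hz hN a).1 = z * a.1 * z := ez_cz hz.2.1 a.1
  have h2 := hz.2.2 a.1 a.2
  have h3 := z_ez hz.2.1 y
  constructor
  · rw [ez_mul hz.2.1, h1, mul_assoc, h3.1, h2, mul_assoc, h3.1]
  · rw [ez_mul hz.2.1, h1, h2, mul_assoc, hz.2.1.isIdempotentElem.eq, ← h2, ← mul_assoc, h3.2]

private theorem n4_up_E (hz : IsCentralProj (M : Set (H →L[ℂ] H)) z)
    (hN : ∀ y, y ∈ N ↔ ez z y ∈ M) (l : List (RA M)) :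
    ∀ ψ : List (RA N) → (Kz z →L[ℂ] Kz z),
    E (io M) (up hz hN ψ) l = ez z (E (io N) ψ (l.map (kz hz hN))) := by
  induction l with
  | nil =>
    intro ψ
    rw [List.map_nil, E_nil, E_nil, n4_ez_zero]
  | cons a l ih =>
    intro ψ
    cases l with
    | nil =>
      rw [List.map_cons, List.map_nil, E_one, E_one]
      exact (n4_a_ez hz hN a (ψ [])).2
    | cons b l =>
      rw [List.map_cons, List.map_cons, E_cons, E_cons, n4_ez_sub]
      have h1 := ih (fun t => ψ (kz hz hN a :: t))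
      rw [List.map_cons] at h1
      rw [← h1]
      have h2 : up hz hN ψ (a * b :: l) =
          ez z (ψ (kz hz hN a * kz hz hN b :: l.map (kz hz hN))) := by
        show ez z (ψ ((a * b :: l).map (kz hz hN))) = _
        rw [List.map_cons, n4_kz_mul hz hN]
      rw [h2]
      rfl

include hz

theorem dn_coch {n : ℕ} {C : ℝ} (hC : 0 ≤ C) {φ : List (RA M) → (H →L[ℂ] H)}
    (h : Coch (KK H) n C φ) : Coch (KK (Kz z)) n C (dn hN φ) where
  supp l hl := by
    show cz z (φ (l.map (jz hN))) = 0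
    rw [h.supp _ (by simpa using hl), n4_cz_zero]
  lin p post x y c := by
    show cz z (φ ((p ++ (c • x + y) :: post).map (jz hN))) =
      c • cz z (φ ((p ++ x :: post).map (jz hN))) + cz z (φ ((p ++ y :: post).map (jz hN)))
    rw [List.map_append, List.map_append, List.map_append, List.map_cons, List.map_cons,
      List.map_cons, n4_jz_lin, h.lin, n4_cz_lin]
  val l := cz_compact z _ (h.val _)
  bd l := by
    refine (cz_norm z _).trans ((h.bd _).trans ?_)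
    exact mul_le_mul_of_nonneg_left (n4_nm _ (n4_jz_norm hN) l) hC

theorem up_coch {n : ℕ} {C : ℝ} (hC : 0 ≤ C) {ψ : List (RA N) → (Kz z →L[ℂ] Kz z)}
    (h : Coch (KK (Kz z)) n C ψ) : Coch (KK H) n C (up hz hN ψ) where
  supp l hl := by
    show ez z (ψ (l.map (kz hz hN))) = 0
    rw [h.supp _ (by simpa using hl), n4_ez_zero]
  lin p post x y c := by
    show ez z (ψ ((p ++ (c • x + y) :: post).map (kz hz hN))) =
      c • ez z (ψ ((p ++ x :: post).map (kz hz hN))) +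
        ez z (ψ ((p ++ y :: post).map (kz hz hN)))
    rw [List.map_append, List.map_append, List.map_append, List.map_cons, List.map_cons,
      List.map_cons, n4_kz_lin, h.lin, n4_ez_lin]
  val l := ez_compact z _ (h.val _)
  bd l := by
    refine (ez_norm z _).trans ((h.bd _).trans ?_)
    exact mul_le_mul_of_nonneg_left (n4_nm _ (n4_kz_norm hz hN) l) hC

theorem dn_D (φ : List (RA M) → (H →L[ℂ] H)) (l : List (RA N)) :
    D (io N) (dn hN φ) l = cz z (D (io M) φ (l.map (jz hN))) := by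
  cases l with
  | nil => rw [List.map_nil, D_nil, D_nil, n4_cz_zero]
  | cons a l =>
    rw [List.map_cons, D_cons, D_cons, n4_cz_sub, n4_dn_E hz hN, List.map_cons]
    congr 1
    exact n4_ez_mul_cz hz.2.1 _ a.1

theorem up_D (ψ : List (RA N) → (Kz z →L[ℂ] Kz z)) (l : List (RA M)) :
    D (io M) (up hz hN ψ) l = ez z (D (io N) ψ (l.map (kz hz hN))) := by
  cases l with
  | nil => rw [List.map_nil, D_nil, D_nil, n4_ez_zero]
  | cons a l =>
    rw [List.map_cons, D_cons, D_cons, n4_ez_sub, n4_up_E hz hN, List.map_cons]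
    congr 1
    exact (n4_a_ez hz hN a _).1

theorem up_dn (φ : List (RA M) → (H →L[ℂ] H)) (l : List (RA M)) :
    up hz hN (dn hN φ) l = z * φ (l.map fun a => (⟨z, hz.1⟩ : RA M) * a) * z := by
  show ez z (cz z (φ ((l.map (kz hz hN)).map (jz hN)))) = _
  rw [ez_cz hz.2.1, List.map_map]
  have h : jz hN ∘ kz hz hN = fun a => (⟨z, hz.1⟩ : RA M) * a := by
    funext a
    refine Subtype.ext ?_
    show ez z (cz z a.1) = z * a.1
    rw [ez_cz hz.2.1, hz.2.2 a.1 a.2, mul_assoc, hz.2.1.isIdempotentElem.eq]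
  rw [h]

include hN in
theorem corner_tr (ξ : ℕ → H) (h1 : HasSum (fun i => ‖ξ i‖ ^ 2) 1) (h2 : ∀ i, z (ξ i) = ξ i)
    (h3 : ∀ x ∈ M, ∑' i, ‖x (ξ i)‖ ^ 2 = ∑' i, ‖(star x) (ξ i)‖ ^ 2)
    (h4 : ∀ x ∈ M, z * x = x → (∀ i, x (ξ i) = 0) → x = 0) :
    TrF N (fun i => Wz z (ξ i)) := by
  have hV : ∀ u : Kz z, ‖Vz z u‖ = ‖u‖ := fun u => rfl
  have hW : ∀ i, ‖Wz z (ξ i)‖ = ‖ξ i‖ := by
    intro i
    rw [← hV, VW hz.2.1, h2]
  have hx : ∀ (x : Kz z →L[ℂ] Kz z) (i : ℕ), ‖x (Wz z (ξ i))‖ = ‖ez z x (ξ i)‖ :=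
    fun x i => (hV _).symm
  refine ⟨?_, ?_, ?_⟩
  · simp only [hW]
    exact h1
  · intro x hxN
    simp only [hx]
    rw [h3 (ez z x) ((hN x).mp hxN), ez_star]
  · intro x hxN h0
    have h5 : ez z x = 0 := by
      refine h4 (ez z x) ((hN x).mp hxN) (z_ez hz.2.1 x).1 fun i => ?_
      have h6 := hx x i
      rw [h0 i, norm_zero] at h6
      exact norm_eq_zero.mp h6.symm
    rw [← cz_ez hz.2.1 x, h5, n4_cz_zero]

omit hz in
theorem kz_n2 (hz : IsCentralProj (M : Set (H →L[ℂ] H)) z) (hN : ∀ y, y ∈ N ↔ ez z y ∈ M)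
    {η : ℕ → Kz z} (hη : Summable fun i => ‖η i‖ ^ 2) (a : ℕ → RA M)
    (C : ℝ) (hC : ∀ m, ‖a m‖ ≤ C) (ha : ∀ v : H, Tendsto (fun m => (a m).1 v) atTop (𝓝 0)) :
    (∀ m, ‖kz hz hN (a m)‖ ≤ C) ∧
      Tendsto (fun m => n2 η (kz hz hN (a m)).1) atTop (𝓝 0) := by
  have h1 : ∀ m, ‖kz hz hN (a m)‖ ≤ C := fun m => (n4_kz_norm hz hN (a m)).trans (hC m)
  refine ⟨h1, n2_tendsto hη (fun m => (kz hz hN (a m)).1) C h1 fun i => ?_⟩
  have h2 := ((Wz z).continuous.tendsto 0).comp (ha (Vz z (η i)))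
  rw [map_zero] at h2
  exact h2

end

end Pool.Agent.HFT
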