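import Pool.Agent.HFT.N3
import Pool.Agent.HFT.N4

set_option autoImplicit false
set_option linter.unusedSectionVars false

/-! # Module N5 (5 points): the reduction for algebras with a properly infinite and a finite part

`M`, `z` a central projection, `1 - z` properly infinite (or zero), `HasTrace M z`. Every compact
valued cocycle `φ` of degree `n + 1` is `D ψ + ν`, `ν` separately normal.

(a) As in the proof of `local_fine` / `step` (HK/LocFine), normalise with respect to the sign group of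
the central projection: `Z = ZA M`, `e : Fin 1 → ZA M := fun _ => z'` (`z' = ⟨z, _⟩`), `u = uR (ic M) e _`,
`exists_normalised`: `ψ₁`, `Coch (KK H) n (KN n * C) ψ₁`, `φB = φ - D ψ₁` is a cocycle
(`cocycle_sub`), `Coch (KK H) (n+1) (C1 n * C)`, `Van 1 φB`, `Van (ic M z') φB` (`van_of_refl`, `uR_single`).
So also `Van (1 - ic M z') φB`.
(b) `φB l = P_z φB l + P_{1-z} φB l` with `P_w φ l = w φ (w l) w` (see `hblock` in `step`: for `l = x :: t`:
`φB (x :: t) = φB (z x :: t) + φB ((1-z) x :: t)`, and `block`); both sides vanish for `l = []`.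
(c) Corner `N` of `z` (`corner_vn`): `P_z φB = up (dn φB)` (`up_dn`). If `z = 0` this is zero; take
`ν = 0`. Otherwise `corner_tr` and `nred` for `dn φB` (a cocycle by `dn_D`): `ψN` with
`Coch (KK _) n (KR n * (C1 n * C)) ψN` and `νN = dn φB - D ψN` satisfying `NAt η j νN` for all `j`.
`up (dn φB) = D (up ψN) + up νN` (`up_D`; `up` is linear). `ν = up νN`.
`ν` is normal: for `y m ∈ M`, `‖y m‖ ≤ 1`, `y m v → 0`: `kz (y m)` is bounded with `n2 → 0` (`kz_n2`), so
`νN (p.map kz ++ kz (y m) :: post.map kz)` is weakly null and so is its image under `ez`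
(`⟪b, V F W a⟫ = ⟪W b, F W a⟫`).
(d) Corner `N'` of `1 - z`: it is properly infinite: `IsPieceSum N'` with the projections `1, 0, 0, …`
(compress `v`, `w`: `cz (1-z) v`, with `star v * v = 1 - z`, `star v * w = 0`; `v = v (1 - z) = (1 - z) v`).
`hkd_vn_main` (HKD/Final2) for `dn' φB`: `ψ'`, `Coch (KK _) n (KT n * (C1 n * C) * 2) ψ'`, `D ψ' = dn' φB`, so
`P_{1-z} φB = up' (D ψ') = D (up' ψ')`.
`ψ = ψ₁ + up ψN + up' ψ'`, `φ = D ψ + ν`. Constants: `KG n` below. -/

namespace Pool.Agent.HFT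

open Pool.Agent.HK Filter Topology

variable {H : Type} [NormedAddCommGroup H] [InnerProductSpace ℂ H] [CompleteSpace H]

/-- the constant -/
noncomputable def KG (n : ℕ) : ℝ :=
  KN n + KR n * C1 n + 2 * KT n * C1 n + C1 n + (n + 2) * (KR n * C1 n)

private theorem n5_ez_add (z : H →L[ℂ] H) (a b : Kz z →L[ℂ] Kz z) :
    ez z (a + b) = ez z a + ez z b := by
  ext v
  simp [ez]

private theorem n5_cz_zero (z : H →L[ℂ] H) : cz z (0 : H →L[ℂ] H) = 0 := by
  ext v
  simp [cz]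

private theorem n5_ez_zero (z : H →L[ℂ] H) : ez z (0 : Kz z →L[ℂ] Kz z) = 0 := by
  ext v
  simp [ez]

private theorem n5_ez_inner (z : H →L[ℂ] H) (F : Kz z →L[ℂ] Kz z) (a b : H) :
    (inner ℂ b (ez z F a) : ℂ) = inner ℂ (Wz z b) (F (Wz z a)) := by
  unfold Wz
  rw [ContinuousLinearMap.adjoint_inner_left]
  rfl

private theorem n5_one_sub {M : VonNeumannAlgebra H} {z : H →L[ℂ] H}
    (hz : IsCentralProj (M : Set (H →L[ℂ] H)) z) :
    IsCentralProj (M : Set (H →L[ℂ] H)) (1 - z) := by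
  refine ⟨?_, hz.2.1.one_sub, fun a ha => ?_⟩
  · have h1 : (1 : H →L[ℂ] H) ∈ M := M.toStarSubalgebra.one_mem
    exact M.toStarSubalgebra.sub_mem h1 hz.1
  · rw [sub_mul, mul_sub, one_mul, mul_one, hz.2.2 a ha]

private theorem n5_cz_star_mul {M : VonNeumannAlgebra H} {w : H →L[ℂ] H}
    (hw : IsCentralProj (M : Set (H →L[ℂ] H)) w) {v u q : H →L[ℂ] H} (hv : v ∈ M) (hu : u ∈ M)
    (h : star v * u = q) : star (cz w v) * cz w u = cz w q := by
  have hww : w * w = w := hw.2.1.isIdempotentElem.eq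
  have hws : star w = w := hw.2.1.isSelfAdjoint
  have h1 : ez w (star (cz w v) * cz w u) = w * q * w := by
    rw [ez_mul hw.2.1, ez_star, ez_cz hw.2.1, ez_cz hw.2.1, star_mul, star_mul, hws, ← h]
    have hvw : w * star v = star v * w := hw.2.2 _ (star_mem hv)
    have huw : w * u = u * w := hw.2.2 _ hu
    calc w * (star v * w) * (w * u * w) = w * star v * (w * w) * u * w := by simp only [mul_assoc]
      _ = w * star v * (w * u) * w := by rw [hww]; simp only [mul_assoc]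
      _ = w * star v * (u * w) * w := by rw [huw]
      _ = w * (star v * u) * (w * w) := by simp only [mul_assoc]
      _ = w * (star v * u) * w := by rw [hww]
  have h2 : cz w (ez w (star (cz w v) * cz w u)) = cz w (w * q * w) := by rw [h1]
  rw [cz_ez hw.2.1] at h2
  rw [h2, ← ez_cz hw.2.1, cz_ez hw.2.1]

private theorem n5_cz_w {w : H →L[ℂ] H} (hw : IsStarProjection w) :
    cz w w = 1 := by
  have h1 : cz w (ez w (1 : Kz w →L[ℂ] Kz w)) = 1 := cz_ez hw 1
  rwa [ez_one hw] at h1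

private theorem n5_propinf {M : VonNeumannAlgebra H} {w : H →L[ℂ] H}
    (hw : IsCentralProj (M : Set (H →L[ℂ] H)) w)
    (h1 : IsPropInf (M : Set (H →L[ℂ] H)) w) (N : VonNeumannAlgebra (Kz w))
    (hN : ∀ y, y ∈ N ↔ ez w y ∈ M) : IsPieceSum N := by
  obtain ⟨v, hv, u, hu, e1, e2, e3⟩ := h1
  have hcp : ∀ q : Kz w →L[ℂ] Kz w, q = 1 ∨ q = 0 →
      IsCentralProj (N : Set (Kz w →L[ℂ] Kz w)) q := by
    rintro q (rfl | rfl)
    · exact ⟨N.toStarSubalgebra.one_mem, IsStarProjection.one _, fun a _ => by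
        rw [one_mul, mul_one]⟩
    · exact ⟨N.toStarSubalgebra.zero_mem, IsStarProjection.zero _, fun a _ => by
        rw [zero_mul, mul_zero]⟩
  refine ⟨fun j => if j = 0 then 1 else 0, fun j => hcp _ ?_, ?_, ?_, ?_⟩
  · by_cases hj : j = 0
    · exact Or.inl (if_pos hj)
    · exact Or.inr (if_neg hj)
  · intro i j hij
    by_cases hi : i = 0
    · have hj : j ≠ 0 := fun h => hij (by rw [hi, h])
      simp only [if_neg hj, mul_zero]
    · simp only [if_neg hi, zero_mul]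
  · intro x
    have h2 := hasSum_single (f := fun j : ℕ =>
      ((if j = 0 then 1 else 0 : Kz w →L[ℂ] Kz w) x)) 0 (fun j hj => by simp [hj])
    simpa using h2
  · intro j
    left
    by_cases hj : j = 0
    · simp only [if_pos hj]
      refine ⟨cz w v, cz_mem hw hN ⟨v, hv⟩, cz w u, cz_mem hw hN ⟨u, hu⟩, ?_, ?_, ?_⟩
      · rw [n5_cz_star_mul hw hv hv e1, n5_cz_w hw.2.1]
      · rw [n5_cz_star_mul hw hu hu e2, n5_cz_w hw.2.1]
      · rw [n5_cz_star_mul hw hv hu e3, n5_cz_zero]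
    · simp only [if_neg hj]
      exact ⟨0, N.toStarSubalgebra.zero_mem, 0, N.toStarSubalgebra.zero_mem, by simp, by simp,
        by simp⟩

private theorem n5_dn_cocycle {M : VonNeumannAlgebra H} {z : H →L[ℂ] H}
    (hz : IsCentralProj (M : Set (H →L[ℂ] H)) z) {N : VonNeumannAlgebra (Kz z)}
    (hN : ∀ y, y ∈ N ↔ ez z y ∈ M) {φ : List (RA M) → (H →L[ℂ] H)}
    (hcy : ∀ l, D (io M) φ l = 0) (l : List (RA N)) : D (io N) (dn hN φ) l = 0 := by
  rw [dn_D hz hN, hcy, n5_cz_zero]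

private theorem n5_KT_nonneg (n : ℕ) : 0 ≤ KT n := by
  have h1 := KN_nonneg n
  have h2 := C1_nonneg n
  have h3 : 0 ≤ KH n := by unfold KH; positivity
  unfold KT
  positivity

private theorem n5_inf (M : VonNeumannAlgebra H) (w : H →L[ℂ] H)
    (hw : IsCentralProj (M : Set (H →L[ℂ] H)) w)
    (h1 : IsPropInf (M : Set (H →L[ℂ] H)) w)
    {n : ℕ} {C : ℝ} (hC : 0 ≤ C) {φ : List (RA M) → (H →L[ℂ] H)}
    (h : Coch (KK H) (n + 1) C φ) (hcy : ∀ l, D (io M) φ l = 0) :
    ∃ ψ : List (RA M) → (H →L[ℂ] H), Coch (KK H) n (KT n * C * 2) ψ ∧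
      ∀ l, D (io M) ψ l = w * φ (l.map fun a => (⟨w, hw.1⟩ : RA M) * a) * w := by
  obtain ⟨N, hN⟩ := corner_vn M w hw
  obtain ⟨ψ, h2, h3⟩ := hkd_vn_main N (n5_propinf hw h1 N hN) (KK (Kz w)) KK_closed
    (fun x hx => hx) (fun a _ x hx => ⟨(KK_mul a x hx).1, (KK_mul a x hx).2⟩) hC
    (dn_coch hw hN hC h) (n5_dn_cocycle hw hN hcy)
  refine ⟨up hw hN ψ, up_coch hw hN (by have := n5_KT_nonneg n; positivity) h2, fun l => ?_⟩
  rw [up_D hw hN, h3, ← up_dn hw hN]
  rfl

private theorem n5_tr (M : VonNeumannAlgebra H) (z : H →L[ℂ] H)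
    (hz : IsCentralProj (M : Set (H →L[ℂ] H)) z) (h2 : HasTrace (M : Set (H →L[ℂ] H)) z)
    {n : ℕ} {C : ℝ} (hC : 0 ≤ C) {φ : List (RA M) → (H →L[ℂ] H)}
    (h : Coch (KK H) (n + 1) C φ) (hcy : ∀ l, D (io M) φ l = 0) :
    ∃ ψ ν : List (RA M) → (H →L[ℂ] H), Coch (KK H) n (KR n * C) ψ ∧
      Coch (KK H) (n + 1) (C + (n + 2) * (KR n * C)) ν ∧
      (∀ l, z * φ (l.map fun a => (⟨z, hz.1⟩ : RA M) * a) * z = D (io M) ψ l + ν l) ∧
      ∀ (p post : List (RA M)) (y : ℕ → RA M), (∀ m, ‖y m‖ ≤ 1) →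
        (∀ v : H, Tendsto (fun m => (y m).1 v) atTop (𝓝 0)) →
        WN (fun m => ν (p ++ y m :: post)) := by
  have hKR : 0 ≤ KR n := by unfold KR; positivity
  rcases h2 with h2 | ⟨ξ, k1, k2, k3, k4⟩
  · refine ⟨fun _ => 0, fun _ => 0, (Coch.zero (KK H) n).mono (by positivity),
      (Coch.zero (KK H) (n + 1)).mono (by positivity), fun l => ?_, fun p post y _ _ a b => ?_⟩
    · subst h2
      rw [D_zero]
      simp
    · simp
  · obtain ⟨N, hN⟩ := corner_vn M z hz
    have T := corner_tr (hz := hz) (hN := hN) ξ k1 k2 k3 k4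
    have hd := dn_coch hz hN hC h
    obtain ⟨ψ, h3, h4⟩ := nred T hC hd (n5_dn_cocycle hz hN hcy)
    have h5 : Coch (KK (Kz z)) (n + 1) (C + (n + 2) * (KR n * C))
        (fun l => dn hN φ l - D (io N) ψ l) :=
      hd.sub (h3.D (io N) KK_bimod (fun a => (io_norm N a).le) (by positivity))
    refine ⟨up hz hN ψ, up hz hN (fun l => dn hN φ l - D (io N) ψ l),
      up_coch hz hN (by positivity) h3, up_coch hz hN (by positivity) h5, fun l => ?_,
      fun p post y hy1 hy2 => ?_⟩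
    · rw [← up_dn hz hN, up_D hz hN]
      show ez z _ = ez z _ + ez z _
      rw [← n5_ez_add, add_sub_cancel]
    · obtain ⟨h6, h7⟩ := kz_n2 hz hN T.one.summable y 1 hy1 hy2
      have h8 := h4 _ (p.map (kz hz hN)) (post.map (kz hz hN)) rfl 1 (fun m => kz hz hN (y m)) h6 h7
      intro a b
      have h9 := h8 (Wz z a) (Wz z b)
      refine h9.congr fun m => ?_
      rw [← n5_ez_inner]
      simp only [up, List.map_append, List.map_cons]

theorem nglue (M : VonNeumannAlgebra H) (z : H →L[ℂ] H)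
    (hz : IsCentralProj (M : Set (H →L[ℂ] H)) z)
    (h1 : IsPropInf (M : Set (H →L[ℂ] H)) (1 - z)) (h2 : HasTrace (M : Set (H →L[ℂ] H)) z)
    {n : ℕ} {C : ℝ} (hC : 0 ≤ C) {φ : List (RA M) → (H →L[ℂ] H)}
    (h : Coch (KK H) (n + 1) C φ) (hcy : ∀ l, D (io M) φ l = 0) :
    ∃ ψ ν : List (RA M) → (H →L[ℂ] H), Coch (KK H) n (KG n * C) ψ ∧
      Coch (KK H) (n + 1) (KG n * C) ν ∧ (∀ l, φ l = D (io M) ψ l + ν l) ∧
      ∀ (p post : List (RA M)) (y : ℕ → RA M), (∀ m, ‖y m‖ ≤ 1) →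
        (∀ v : H, Tendsto (fun m => (y m).1 v) atTop (𝓝 0)) →
        WN (fun m => ν (p ++ y m :: post)) := by
  have hιle : ∀ a : RA M, ‖io M a‖ ≤ ‖a‖ := fun a => (io_norm M a).le
  have hKN := KN_nonneg n
  have hC1 := C1_nonneg n
  have hKR : 0 ≤ KR n := by unfold KR; positivity
  have hKT := n5_KT_nonneg n
  have hKC : 0 ≤ KN n * C := mul_nonneg hKN hC
  have hw := n5_one_sub hz
  let z' : ZA M := ⟨z, mem_cen.mpr ⟨hz.1,
    VonNeumannAlgebra.mem_commutant_iff.mpr fun g hg => (hz.2.2 g hg).symm⟩⟩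
  have hpr : Pr (inc _ (cen_comm M)) z' := (pr_iff _ _).mpr hz.2.1
  let e : Fin 1 → ZA M := fun _ => z'
  have hePr : ∀ i, Pr ((io M).comp (ic M)) (e i) := fun _ => hpr
  obtain ⟨ψ, hψ, hψv⟩ := exists_normalised (io M) (uR (ic M) e (fun i => (hePr i).1)) KK_bimod hιle
    (uR_norm (ic_norm M) (io_norm M) e hePr) n hC h hcy
  set φB : List (RA M) → (H →L[ℂ] H) := fun l => φ l - D (io M) ψ l with hφB
  have hBc : ∀ l, D (io M) φB l = 0 := cocycle_sub hcy
  have hBC : Coch (KK H) (n + 1) (C1 n * C) φB :=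
    (h.sub (hψ.D (io M) KK_bimod hιle hKC)).mono (le_of_eq (by unfold C1; ring))
  have hBv : ∀ γ, Van (uR (ic M) e (fun i => (hePr i).1) γ) φB :=
    fun γ p post => hψv p.length p rfl γ post
  have hB1 : Van 1 φB := by have := hBv 1; rwa [map_one] at this
  have hBr : Van (ic M z') φB := by
    apply van_of_refl hBC.lin hB1
    have := hBv (Pi.mulSingle 0 (-1))
    rwa [uR_single] at this
  have hBs : Van (1 - ic M z') φB := by
    intro p post
    have h3 := hBC.lin p post (ic M z') 1 (-1)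
    have h4 : (-1 : ℂ) • ic M z' + 1 = 1 - ic M z' := by
      rw [neg_one_smul]
      abel
    rw [h4, hBr p post, hB1 p post] at h3
    rw [h3]
    simp
  have hzz : ic M z' * ic M z' = ic M z' := by rw [← map_mul, hpr.1]
  have hss : (1 - ic M z') * (1 - ic M z') = 1 - ic M z' := by
    rw [mul_sub, sub_mul, sub_mul, one_mul, mul_one, one_mul, hzz]
    abel
  have hsc : ∀ a, (1 - ic M z') * a = a * (1 - ic M z') := by
    intro a
    rw [sub_mul, mul_sub, one_mul, mul_one, ic_central]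
  have hblock : ∀ l, φB l = z * φB (l.map fun a => (⟨z, hz.1⟩ : RA M) * a) * z +
      (1 - z) * φB (l.map fun a => (⟨1 - z, hw.1⟩ : RA M) * a) * (1 - z) := by
    intro l
    cases l with
    | nil =>
      have hφnil : φB [] = 0 := hBC.supp [] (by simp)
      simp [hφnil]
    | cons x t =>
      have e1 := block (io M) hBc hzz (ic_central M z') hBr x t
      have e2 := block (io M) hBc hss hsc hBs x t
      have e3 := hBC.lin [] t (ic M z' * x) ((1 - ic M z') * x) 1
      simp only [List.nil_append, one_smul] at e3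
      have e4 : ic M z' * x + (1 - ic M z') * x = x := by
        rw [← add_mul, add_sub_cancel, one_mul]
      rw [e4, e1, e2] at e3
      exact e3
  have hCC : 0 ≤ C1 n * C := mul_nonneg hC1 hC
  obtain ⟨ψA, ν, a1, a2, a3, a4⟩ := n5_tr M z hz h2 hCC hBC hBc
  obtain ⟨ψB, b1, b2⟩ := n5_inf M (1 - z) hw h1 hCC hBC hBc
  refine ⟨fun l => ψ l + ψA l + ψB l, ν, ((hψ.add a1).add b1).mono ?_, a2.mono ?_, fun l => ?_, a4⟩
  · unfold KG
    have g1 : 0 ≤ C1 n * C := hCC
    have g2 : 0 ≤ (n + 2) * (KR n * C1 n) * C := by positivity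
    nlinarith [g1, g2]
  · unfold KG
    have g1 : 0 ≤ KN n * C := hKC
    have g2 : 0 ≤ KR n * C1 n * C := by positivity
    have g3 : 0 ≤ KT n * C1 n * C := by positivity
    nlinarith [g1, g2, g3]
  · rw [D_add, D_add, b2]
    have c1 := hblock l
    rw [a3] at c1
    have c2 : φ l = φB l + D (io M) ψ l := by rw [hφB]; simp
    rw [c2, c1]
    abel

end Pool.Agent.HFT
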