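import Pool.Agent.HFT.N5
import Pool.Agent.HFT.DefsF

set_option autoImplicit false
set_option linter.unusedSectionVars false

/-! # Module N6 (3 points): final form

Translate `nglue` to functions of `n + 1` variables as in the proof of `hkd_final` (HKD/Final2) and
`NoIIOneFactorSummand.result`: `toL M φ` is the list form (`toL_coch`, `toL_cocycle`, HK/Final);
from `Ψ`, `N : List (RA M) → _` define
`ψ a = if h : ∀ j, a j ∈ M then Ψ (List.ofFn fun j => ⟨a j, h j⟩) else 0` and `ν` in the same way with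
`N`. `IsNormalCochain`: a list `List.ofFn (Function.update b i w)` is of the form `p ++ w :: post`
with `p`, `post` independent of `w` (`ofFn_update` in HK, `list_update`). The equation
`φ a = coboundary ψ a + ν a`: `D_ofFn`, `io_contr`. -/

namespace Pool.Agent.HFT

open Pool.Agent.HK Filter Topology

section

variable {H : Type} [NormedAddCommGroup H] [InnerProductSpace ℂ H] [CompleteSpace H]

open Classical in
/-- the function of `k` variables of a list function -/
private noncomputable def n6_un (M : VonNeumannAlgebra H) (k : ℕ)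
    (Ψ : List (RA M) → (H →L[ℂ] H)) : (Fin k → (H →L[ℂ] H)) → (H →L[ℂ] H) := fun a =>
  if h : ∀ j, a j ∈ M then Ψ (List.ofFn fun j => (⟨a j, h j⟩ : RA M)) else 0

private theorem n6_un_io (M : VonNeumannAlgebra H) (k : ℕ)
    (Ψ : List (RA M) → (H →L[ℂ] H)) (b : Fin k → RA M) :
    n6_un M k Ψ (fun j => io M (b j)) = Ψ (List.ofFn b) := by
  have hb : ∀ j, io M (b j) ∈ M := fun j => (b j).2
  exact dif_pos hb

private theorem n6_lift (M : VonNeumannAlgebra H) {k : ℕ} (a : Fin k → (H →L[ℂ] H))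
    (ha : ∀ j, a j ∈ M) : ∃ b : Fin k → RA M, a = fun j => io M (b j) :=
  ⟨fun j => ⟨a j, ha j⟩, rfl⟩

private theorem n6_upd (M : VonNeumannAlgebra H) {k : ℕ} (b : Fin k → RA M) (i : Fin k)
    (w : RA M) : Function.update (fun j => io M (b j)) i (io M w) =
      fun j => io M (Function.update b i w j) := by
  funext j
  by_cases hj : j = i
  · subst hj; simp
  · simp [Function.update_of_ne hj]

private theorem n6_coch (M : VonNeumannAlgebra H) {k : ℕ} {C : ℝ}
    {Ψ : List (RA M) → (H →L[ℂ] H)} (hΨ : Coch (KK H) k C Ψ) :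
    IsCochain (M : Set (H →L[ℂ] H)) (Cpt H) C (n6_un M k Ψ) := by
  refine ⟨?_, ?_, ?_⟩
  · intro a ha i x y hx hy t
    obtain ⟨b, rfl⟩ := n6_lift M a ha
    let x' : RA M := ⟨x, hx⟩
    let y' : RA M := ⟨y, hy⟩
    have ex : x = io M x' := rfl
    have ey : y = io M y' := rfl
    rw [ex, ey, ← map_smul, ← map_add, n6_upd, n6_upd, n6_upd, n6_un_io, n6_un_io, n6_un_io,
      ofFn_update, ofFn_update, ofFn_update]
    exact hΨ.lin _ _ _ _ _
  · intro a ha
    obtain ⟨b, rfl⟩ := n6_lift M a ha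
    rw [n6_un_io]
    refine (hΨ.bd _).trans (le_of_eq ?_)
    rw [nm_ofFn]
    rfl
  · intro a ha
    obtain ⟨b, rfl⟩ := n6_lift M a ha
    rw [n6_un_io]
    exact hΨ.val _

end

theorem finalN (m : ℕ) : ∃ K : ℝ,
    ∀ (H : Type) [NormedAddCommGroup H] [InnerProductSpace ℂ H] [CompleteSpace H]
      (M : VonNeumannAlgebra H) (z : H →L[ℂ] H), IsCentralProj (M : Set (H →L[ℂ] H)) z →
      IsPropInf (M : Set (H →L[ℂ] H)) (1 - z) → HasTrace (M : Set (H →L[ℂ] H)) z →
      ∀ (φ : (Fin (m + 1) → (H →L[ℂ] H)) → (H →L[ℂ] H)) (C : ℝ), 0 ≤ C →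
        IsCochain (M : Set (H →L[ℂ] H)) (Cpt H) C φ →
        CoboundaryEq (M : Set (H →L[ℂ] H)) φ (fun _ => 0) →
        ∃ (ψ : (Fin m → (H →L[ℂ] H)) → (H →L[ℂ] H))
          (ν : (Fin (m + 1) → (H →L[ℂ] H)) → (H →L[ℂ] H)),
          IsCochain (M : Set (H →L[ℂ] H)) (Cpt H) (K * C) ψ ∧
          IsCochain (M : Set (H →L[ℂ] H)) (Cpt H) (K * C) ν ∧
          IsNormalCochain (M : Set (H →L[ℂ] H)) ν ∧
          CoboundaryEq (M : Set (H →L[ℂ] H)) ψ (fun a => φ a - ν a) := by
  refine ⟨KG m, ?_⟩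
  intro H _ _ _ M z hz h1 h2 φ C hC hφ hcy
  have hch : Coch (KK H) (m + 1) C (toL M φ) :=
    toL_coch M φ (KK H) hC hφ.linear hφ.bound hφ.values
  have hcc : ∀ l, D (io M) (toL M φ) l = 0 := toL_cocycle M φ (fun a ha => by
    have h5 := hcy a ha
    unfold coboundary at h5
    convert h5 using 5)
  obtain ⟨Ψ, N, hΨ, hN, hD, hn⟩ := nglue M z hz h1 h2 hC hch hcc
  refine ⟨n6_un M m Ψ, n6_un M (m + 1) N, n6_coch M hΨ, n6_coch M hN, ?_, ?_⟩
  · intro a ha i x hx hx1 hx0 u v
    obtain ⟨b, rfl⟩ := n6_lift M a ha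
    let x' : ℕ → RA M := fun k => ⟨x k, hx k⟩
    have e : ∀ k, n6_un M (m + 1) N (Function.update (fun j => io M (b j)) i (x k)) =
        N ((List.ofFn b).take i ++ x' k :: (List.ofFn b).drop (i + 1)) := by
      intro k
      have ex : x k = io M (x' k) := rfl
      rw [ex, n6_upd, n6_un_io, ofFn_update]
    have h3 := hn ((List.ofFn b).take i) ((List.ofFn b).drop (i + 1)) x' hx1 hx0 v u
    simp only [e]
    exact h3
  · intro a ha
    obtain ⟨b, rfl⟩ := n6_lift M a ha
    have h5 := hD (List.ofFn b)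
    rw [toL_ofFn, D_ofFn] at h5
    show _ = φ (fun j => io M (b j)) - n6_un M (m + 1) N (fun j => io M (b j))
    rw [n6_un_io, h5, add_sub_cancel_right]
    unfold coboundary
    simp only [← n6_un_io, io_contr]
    rfl

end Pool.Agent.HFT
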