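import Pool.Agent.HFT.Dec

set_option autoImplicit false
set_option linter.unusedSectionVars false

/-! # Module NP (2 points): the normal part of a functional

`nP T ω` is chosen by `dec`. All properties by uniqueness: if `ω = ν + σ = ν' + σ'` with `ν, ν'`
normal and `σ, σ'` singular, then `ν - ν' = σ' - σ` is normal and singular, so zero
(`normal_sing`). `nP_add`: `nP ω + nP ω'` is normal and `(ω + ω') - (nP ω + nP ω')` is singular.
`nP_lft`: `lft y ω = lft y (nP ω) + lft y (ω - nP ω)`. -/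

namespace Pool.Agent.HFT

open Pool.Agent.HK Filter Topology

variable {H : Type} [NormedAddCommGroup H] [InnerProductSpace ℂ H] [CompleteSpace H]
variable {M : VonNeumannAlgebra H} {ξ : ℕ → H}

/-- the normal part of a functional -/
noncomputable def nP (T : TrF M ξ) (ω : RA M →L[ℂ] ℂ) : RA M →L[ℂ] ℂ := (dec T ω).choose

theorem nP_normal (T : TrF M ξ) (ω : RA M →L[ℂ] ℂ) : NormalF ξ (nP T ω) :=
  (dec T ω).choose_spec.1

theorem nP_sing (T : TrF M ξ) (ω : RA M →L[ℂ] ℂ) : SingF ξ (ω - nP T ω) :=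
  (dec T ω).choose_spec.2.1

theorem nP_norm (T : TrF M ξ) (ω : RA M →L[ℂ] ℂ) : ‖nP T ω‖ ≤ ‖ω‖ :=
  (dec T ω).choose_spec.2.2

theorem nP_eq (T : TrF M ξ) {ω ν : RA M →L[ℂ] ℂ} (h1 : NormalF ξ ν) (h2 : SingF ξ (ω - ν)) :
    nP T ω = ν := by
  have hn : NormalF ξ (nP T ω + (-1 : ℂ) • ν) := (nP_normal T ω).add (h1.smul _)
  have hs : SingF ξ (nP T ω + (-1 : ℂ) • ν) := by
    have e : nP T ω + (-1 : ℂ) • ν = (ω - ν) + (-1 : ℂ) • (ω - nP T ω) := by
      ext x
      simp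
      ring
    rw [e]
    exact h2.add T ((nP_sing T ω).smul _)
  have h0 := normal_sing T hn hs
  ext x
  have hx := congrArg (fun φ : RA M →L[ℂ] ℂ => φ x) h0
  simp only [add_apply, smul_apply, zero_apply, smul_eq_mul,
    neg_mul, one_mul] at hx
  linear_combination hx

theorem nP_of_normal (T : TrF M ξ) {ω : RA M →L[ℂ] ℂ} (h : NormalF ξ ω) : nP T ω = ω := by
  refine nP_eq T h ?_
  rw [sub_self]
  exact SingF.zero

theorem nP_of_sing (T : TrF M ξ) {ω : RA M →L[ℂ] ℂ} (h : SingF ξ ω) : nP T ω = 0 := by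
  refine nP_eq T NormalF.zero ?_
  rwa [sub_zero]

theorem nP_add (T : TrF M ξ) (ω ω' : RA M →L[ℂ] ℂ) : nP T (ω + ω') = nP T ω + nP T ω' := by
  refine nP_eq T ((nP_normal T ω).add (nP_normal T ω')) ?_
  have e : ω + ω' - (nP T ω + nP T ω') = (ω - nP T ω) + (ω' - nP T ω') := by abel
  rw [e]
  exact (nP_sing T ω).add T (nP_sing T ω')

theorem nP_smul (T : TrF M ξ) (c : ℂ) (ω : RA M →L[ℂ] ℂ) : nP T (c • ω) = c • nP T ω := by
  refine nP_eq T ((nP_normal T ω).smul c) ?_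
  have e : c • ω - c • nP T ω = c • (ω - nP T ω) := by
    ext x
    simp [mul_sub]
  rw [e]
  exact (nP_sing T ω).smul c

theorem nP_lft (T : TrF M ξ) (y : RA M) (ω : RA M →L[ℂ] ℂ) :
    nP T (lft y ω) = lft y (nP T ω) := by
  refine nP_eq T ((nP_normal T ω).lft T y) ?_
  have e : lft y ω - lft y (nP T ω) = lft y (ω - nP T ω) := by
    ext x
    simp
  rw [e]
  exact (nP_sing T ω).lft T y

theorem nP_rgt (T : TrF M ξ) (y : RA M) (ω : RA M →L[ℂ] ℂ) :
    nP T (rgt y ω) = rgt y (nP T ω) := by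
  refine nP_eq T ((nP_normal T ω).rgt T y) ?_
  have e : rgt y ω - rgt y (nP T ω) = rgt y (ω - nP T ω) := by
    ext x
    simp
  rw [e]
  exact (nP_sing T ω).rgt T y

end Pool.Agent.HFT
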