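import Pool.Agent.HFT.W2

set_option autoImplicit false
set_option linter.unusedSectionVars false

/-! # Module W4 (3 points): `Ek` is a contraction for the operator norm

Twirl at position `i`: `Θ i x = (x + X i x X i + Z i x Z i + X i Z i x Z i X i) / 4`. It is linear,
maps `M` to `M`, `‖Θ i x‖ ≤ ‖x‖` (four unitary conjugations) and `n2 (Θ i x) ≤ n2 x` for `x ∈ M`
(`n2_mul_le`, `TrF.n2_mul_le'`). For a word `w = wd s`: conjugation by `X i` multiplies it by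
`+1` or `-1` according to `i ∉ s.2` or `i ∈ s.2` (`Spin.commX`), conjugation by `Z i` similarly
with `s.1`, so `Θ i w = w` if `i ∉ s.1` and `i ∉ s.2`, and `Θ i w = 0` otherwise.
Let `A k l x` be the composition of the `Θ i`, `k ≤ i < l` (recursion on `l`:
`A k (l+1) x = Θ l (A k l x)` for `l ≥ k`; for example iterate `Θ (k + j)`, `j < n`). Then
`‖A x‖ ≤ ‖x‖`, `n2 (A x) ≤ n2 x`, and for `s ∈ Qk l`: `A k l (wd s) = wd s` if `s ∈ Qk k`, `0` if not.
So `A k l (Ek l x) = Ek k x` for `l ≥ k`, and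
`n2 (A k l x - Ek k x) = n2 (A k l (x - Ek l x)) ≤ n2 (x - Ek l x) → 0` as `l → ∞`
(`Hyp.Ek_tendsto`). `TrF.norm_le_lim` for the sequence `A k l x` (in `M`, bounded by `‖x‖`) gives
`‖Ek k x‖ ≤ ‖x‖`. `Ek_sot`: `TrF.sot` for `Ek k x - x`, bounded by `2 ‖x‖`. -/

namespace Pool.Agent.HFT

open Pool.Agent.HK Filter Topology

variable {H : Type} [NormedAddCommGroup H] [InnerProductSpace ℂ H] [CompleteSpace H]
variable {M : VonNeumannAlgebra H} {ξ : ℕ → H} {X Z : ℕ → H →L[ℂ] H}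

/-- average over conjugation by a self-adjoint unitary -/
private noncomputable def w4_av (U : H →L[ℂ] H) : (H →L[ℂ] H) →ₗ[ℂ] (H →L[ℂ] H) :=
  (2⁻¹ : ℂ) • (LinearMap.id + (LinearMap.mulLeft ℂ U).comp (LinearMap.mulRight ℂ U))

private theorem w4_av_apply (U x : H →L[ℂ] H) :
    w4_av U x = (2⁻¹ : ℂ) • (x + U * (x * U)) := rfl

private theorem w4_nU {U : H →L[ℂ] H} (h1 : star U = U) (h2 : U * U = 1) : ‖U‖ ≤ 1 := by
  refine ContinuousLinearMap.opNorm_le_bound _ zero_le_one fun v => ?_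
  have h3 : ‖U v‖ ^ 2 = ‖v‖ ^ 2 := by
    have h4 : (inner ℂ (U v) (U v) : ℂ) = inner ℂ v v := by
      have h5 := ContinuousLinearMap.adjoint_inner_left U v (U v)
      have h6 : ContinuousLinearMap.adjoint U = U := h1
      rw [h6] at h5
      rw [← h5]
      have h7 : U (U v) = v := congrArg (fun T : H →L[ℂ] H => T v) h2
      rw [h7]
    rw [inner_self_eq_norm_sq_to_K, inner_self_eq_norm_sq_to_K] at h4
    exact_mod_cast h4
  have h5 : ‖U v‖ = ‖v‖ := (pow_left_inj₀ (norm_nonneg _) (norm_nonneg _) two_ne_zero).mp h3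
  rw [h5, one_mul]

private theorem w4_av_mem (M : VonNeumannAlgebra H) {U x : H →L[ℂ] H} (hU : U ∈ M)
    (hx : x ∈ M) : w4_av U x ∈ M := by
  rw [w4_av_apply]
  exact M.toStarSubalgebra.toSubalgebra.smul_mem
    (add_mem hx (mul_mem hU (mul_mem hx hU))) _

private theorem w4_av_norm {U : H →L[ℂ] H} (h1 : star U = U) (h2 : U * U = 1)
    (x : H →L[ℂ] H) : ‖w4_av U x‖ ≤ ‖x‖ := by
  rw [w4_av_apply]
  have hU := w4_nU h1 h2
  have h3 : ‖U * (x * U)‖ ≤ ‖x‖ := by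
    calc ‖U * (x * U)‖ ≤ ‖U‖ * (‖x‖ * ‖U‖) :=
          (norm_mul_le _ _).trans (by gcongr; exact norm_mul_le _ _)
      _ ≤ 1 * (‖x‖ * 1) := by gcongr
      _ = ‖x‖ := by ring
  calc ‖(2⁻¹ : ℂ) • (x + U * (x * U))‖ = 2⁻¹ * ‖x + U * (x * U)‖ := by
        rw [norm_smul]; norm_num
    _ ≤ 2⁻¹ * (‖x‖ + ‖x‖) := by
        gcongr
        exact (norm_add_le _ _).trans (by gcongr)
    _ = ‖x‖ := by ring

private theorem w4_av_n2 (T : TrF M ξ) {U : H →L[ℂ] H} (hU : U ∈ M) (h1 : star U = U)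
    (h2 : U * U = 1) {x : H →L[ℂ] H} (hx : x ∈ M) : n2 ξ (w4_av U x) ≤ n2 ξ x := by
  rw [w4_av_apply, n2_smul]
  have hU' := w4_nU h1 h2
  have h0 := n2_nonneg ξ x
  have h3 : n2 ξ (U * (x * U)) ≤ n2 ξ x := by
    calc n2 ξ (U * (x * U)) ≤ ‖U‖ * n2 ξ (x * U) := n2_mul_le T.summ _ _
      _ ≤ ‖U‖ * (n2 ξ x * ‖U‖) := by gcongr; exact T.n2_mul_le' hx hU
      _ ≤ 1 * (n2 ξ x * 1) := by gcongr
      _ = n2 ξ x := by ring
  calc ‖(2⁻¹ : ℂ)‖ * n2 ξ (x + U * (x * U)) = 2⁻¹ * n2 ξ (x + U * (x * U)) := by norm_num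
    _ ≤ 2⁻¹ * (n2 ξ x + n2 ξ x) := by
        gcongr
        exact (n2_add_le T.summ _ _).trans (by gcongr)
    _ = n2 ξ x := by ring

private theorem w4_av_comm {U w : H →L[ℂ] H} (h2 : U * U = 1) (h : U * w = w * U) :
    w4_av U w = w := by
  rw [w4_av_apply, ← mul_assoc, h, mul_assoc, h2, mul_one, ← two_smul ℂ w, smul_smul]
  norm_num

private theorem w4_av_anti {U w : H →L[ℂ] H} (h2 : U * U = 1) (h : U * w = -(w * U)) :
    w4_av U w = 0 := by
  rw [w4_av_apply, ← mul_assoc, h, neg_mul, mul_assoc, h2, mul_one, add_neg_cancel, smul_zero]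

/-- the composition of the averages at the positions `k, …, k + n - 1` -/
private noncomputable def w4_A (X Z : ℕ → H →L[ℂ] H) (k : ℕ) :
    ℕ → ((H →L[ℂ] H) →ₗ[ℂ] (H →L[ℂ] H))
  | 0 => LinearMap.id
  | n + 1 => (w4_av (X (k + n))).comp ((w4_av (Z (k + n))).comp (w4_A X Z k n))

private theorem w4_A_succ (X Z : ℕ → H →L[ℂ] H) (k n : ℕ) (x : H →L[ℂ] H) :
    w4_A X Z k (n + 1) x = w4_av (X (k + n)) (w4_av (Z (k + n)) (w4_A X Z k n x)) := rfl

private theorem w4_A_mem (S : Spin M X Z) (k n : ℕ) {x : H →L[ℂ] H} (hx : x ∈ M) :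
    w4_A X Z k n x ∈ M := by
  induction n with
  | zero => exact hx
  | succ n ih =>
    rw [w4_A_succ]
    exact w4_av_mem M (S.Xm _) (w4_av_mem M (S.Zm _) ih)

private theorem w4_A_norm (S : Spin M X Z) (k n : ℕ) (x : H →L[ℂ] H) :
    ‖w4_A X Z k n x‖ ≤ ‖x‖ := by
  induction n with
  | zero => exact le_rfl
  | succ n ih =>
    rw [w4_A_succ]
    exact (w4_av_norm (S.Xs _) (S.X2 _) _).trans ((w4_av_norm (S.Zs _) (S.Z2 _) _).trans ih)

private theorem w4_A_n2 (T : TrF M ξ) (S : Spin M X Z) (k n : ℕ) {x : H →L[ℂ] H}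
    (hx : x ∈ M) : n2 ξ (w4_A X Z k n x) ≤ n2 ξ x := by
  induction n with
  | zero => exact le_rfl
  | succ n ih =>
    rw [w4_A_succ]
    have h1 := w4_A_mem S k n hx
    exact (w4_av_n2 T (S.Xm _) (S.Xs _) (S.X2 _) (w4_av_mem M (S.Zm _) h1)).trans
      ((w4_av_n2 T (S.Zm _) (S.Zs _) (S.Z2 _) h1).trans ih)

private theorem w4_A_wd_mem (S : Spin M X Z) (k n : ℕ) {s : Finset ℕ × Finset ℕ}
    (hs : s ∈ Qk k) : w4_A X Z k n (wd X Z s) = wd X Z s := by
  rw [mem_Qk] at hs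
  induction n with
  | zero => rfl
  | succ n ih =>
    have h1 : k + n ∉ s.1 := fun h => absurd (hs.1 _ h) (by omega)
    have h2 : k + n ∉ s.2 := fun h => absurd (hs.2 _ h) (by omega)
    rw [w4_A_succ, ih, w4_av_comm (S.Z2 _) ((S.commZ _ s).1 h1),
      w4_av_comm (S.X2 _) ((S.commX _ s).1 h2)]

private theorem w4_A_wd (S : Spin M X Z) (k n : ℕ) (s : Finset ℕ × Finset ℕ) :
    w4_A X Z k n (wd X Z s) = wd X Z s ∨ w4_A X Z k n (wd X Z s) = 0 := by
  induction n with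
  | zero => left; rfl
  | succ n ih =>
    rcases ih with ih | ih
    · rw [w4_A_succ, ih]
      by_cases h1 : k + n ∈ s.1
      · right
        rw [w4_av_anti (S.Z2 _) ((S.commZ _ s).2 h1), map_zero]
      · rw [w4_av_comm (S.Z2 _) ((S.commZ _ s).1 h1)]
        by_cases h2 : k + n ∈ s.2
        · right
          exact w4_av_anti (S.X2 _) ((S.commX _ s).2 h2)
        · left
          exact w4_av_comm (S.X2 _) ((S.commX _ s).1 h2)
    · right
      rw [w4_A_succ, ih, map_zero, map_zero]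

private theorem w4_A_wd_zero (S : Spin M X Z) (k n : ℕ) {s : Finset ℕ × Finset ℕ}
    (h : ∃ i, k ≤ i ∧ i < k + n ∧ (i ∈ s.1 ∨ i ∈ s.2)) : w4_A X Z k n (wd X Z s) = 0 := by
  induction n with
  | zero => obtain ⟨i, h1, h2, _⟩ := h; omega
  | succ n ih =>
    by_cases h' : ∃ i, k ≤ i ∧ i < k + n ∧ (i ∈ s.1 ∨ i ∈ s.2)
    · rw [w4_A_succ, ih h', map_zero, map_zero]
    · obtain ⟨i, h1, h2, h3⟩ := h
      have hi : i = k + n := by
        by_contra hne
        exact h' ⟨i, h1, by omega, h3⟩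
      subst hi
      rw [w4_A_succ]
      rcases w4_A_wd S k n s with h4 | h4
      · rw [h4]
        by_cases h5 : k + n ∈ s.1
        · rw [w4_av_anti (S.Z2 _) ((S.commZ _ s).2 h5), map_zero]
        · have h6 : k + n ∈ s.2 := h3.resolve_left h5
          rw [w4_av_comm (S.Z2 _) ((S.commZ _ s).1 h5),
            w4_av_anti (S.X2 _) ((S.commX _ s).2 h6)]
      · rw [h4, map_zero, map_zero]

private theorem w4_A_Ek (S : Spin M X Z) (ξ : ℕ → H) (k n : ℕ) (x : H →L[ℂ] H) :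
    w4_A X Z k n (Ek ξ X Z (k + n) x) = Ek ξ X Z k x := by
  unfold Ek
  rw [map_sum]
  have hsub : Qk k ⊆ Qk (k + n) := Qk_mono (Nat.le_add_right k n)
  rw [← Finset.sum_subset hsub (f := fun s => w4_A X Z k n (ip ξ (wd X Z s) x • wd X Z s))]
  · refine Finset.sum_congr rfl fun s hs => ?_
    rw [map_smul, w4_A_wd_mem S k n hs]
  · intro s hs hs'
    rw [map_smul, w4_A_wd_zero S k n, smul_zero]
    rw [mem_Qk] at hs hs'
    by_contra hcon
    push Not at hcon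
    apply hs'
    constructor
    · intro i hi
      by_contra hki
      exact (hcon i (by omega) (hs.1 i hi)).1 hi
    · intro i hi
      by_contra hki
      exact (hcon i (by omega) (hs.2 i hi)).2 hi

theorem Hyp.norm_Ek_le (A : Hyp M ξ X Z) (k : ℕ) (x : H →L[ℂ] H) (hx : x ∈ M) :
    ‖Ek ξ X Z k x‖ ≤ ‖x‖ := by
  refine A.trf.norm_le_lim (fun n => w4_A X Z k n x) (fun n => w4_A_mem A.spin k n hx) _
    (Ek_mem A.spin k x) ‖x‖ (fun n => w4_A_norm A.spin k n x) ?_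
  have h1 : Tendsto (fun n => n2 ξ (Ek ξ X Z (k + n) x - x)) atTop (𝓝 0) := by
    have h2 : Tendsto (fun n : ℕ => k + n) atTop atTop :=
      tendsto_atTop_mono (fun n => Nat.le_add_left n k) tendsto_id
    exact (A.Ek_tendsto x hx).comp h2
  refine squeeze_zero (fun n => n2_nonneg ξ _) (fun n => ?_) h1
  have h3 : w4_A X Z k n x - Ek ξ X Z k x = w4_A X Z k n (x - Ek ξ X Z (k + n) x) := by
    rw [map_sub, w4_A_Ek A.spin]
  show n2 ξ (w4_A X Z k n x - Ek ξ X Z k x) ≤ _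
  rw [h3]
  refine (w4_A_n2 A.trf A.spin k n (sub_mem hx (Ek_mem A.spin _ x))).trans ?_
  rw [← neg_sub, n2_neg]

theorem Hyp.Ek_sot (A : Hyp M ξ X Z) (x : H →L[ℂ] H) (hx : x ∈ M) (v : H) :
    Tendsto (fun k => Ek ξ X Z k x v) atTop (𝓝 (x v)) := by
  have h1 : Tendsto (fun k => (Ek ξ X Z k x - x) v) atTop (𝓝 0) := by
    refine A.trf.sot (fun k => Ek ξ X Z k x - x) (fun k => sub_mem (Ek_mem A.spin k x) hx)
      (‖x‖ + ‖x‖) (fun k => ?_) (A.Ek_tendsto x hx) v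
    exact (norm_sub_le _ _).trans (by gcongr; exact A.norm_Ek_le k x hx)
  have h2 := h1.add_const (x v)
  rw [zero_add] at h2
  refine h2.congr fun k => ?_
  show (Ek ξ X Z k x) v - x v + x v = _
  rw [sub_add_cancel]

end Pool.Agent.HFT
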