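import Pool.Agent.HFT.P1a
import Pool.Agent.HFT.W4
import Pool.Agent.HFT.Op

set_option autoImplicit false
set_option linter.unusedSectionVars false

/-! # Module P1b (4 points): every 2-cocycle with values in the bounded operators is trivial

Take `ψ₀` from `prim0` and `φ₁ x y = φ x y - (x ψ₀ y - ψ₀ (x y) + ψ₀ x y)`, a bounded bilinear map
of norm `≤ 4 ‖φ‖` (bundle it: `φ - ...`; for fixed `z` only the linear map `F z : x ↦ φ₁ x z`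
is needed: `F z = φ.flip z - cR (ψ₀ z) (iL M) + vR z ψ₀ - cR z.1 ψ₀`, linear in `z`,
`‖F z‖ ≤ 4 ‖φ‖ ‖z‖`). `φ₁` satisfies the cocycle identity and `φ₁ (w_s) y = 0`.
Cocycle identity at `(w_s, x, z)`: `φ₁ (w_s x) z = w_s φ₁ x z`, i.e. `vL (wA s) (F z) = cL (w_s) (F z)`.
`N z = nT T (F z)`: by `nT_vL`, `nT_cL`: `N z (w_s x) = w_s N z x`; `x = 1`: `N z (w_s) = w_s g z`,
`g z := N z 1`. By linearity `N z (Ek k x) = Ek k x * g z` for `x ∈ M` (`Ek` as an element of `RA M`);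
`Ek k x → x` boundedly in `2`-norm (`Hyp.norm_Ek_le`, `Hyp.Ek_tendsto`), `N z` is normal
(`nT_normal`, `NormalT.seq`) and `Ek k x v → x v` (`Hyp.Ek_sot`), so `N z x = x g z` for all `x`.
Cocycle identity `x φ₁ y z - φ₁ (x y) z + φ₁ x (y z) - φ₁ x y z = 0` as identity of maps in `x`:
`cR (φ₁ y z) (iL M) - vR y (F z) + F (y z) - cR z.1 (F y) = 0`. Apply `nT T` (`nT_add`, `nT_sub`,
`nT_of_normal (normalT_cR_iL ..)`, `nT_vR`, `nT_cR`) and evaluate at `x = 1`: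
`φ₁ y z - N z y + N (y z) 1 - N y 1 z = 0`, i.e. `φ₁ y z = y g z - g (y z) + g y z`.
`g` is linear in `z` (`nT_add`, `nT_smul`), `‖g z‖ ≤ ‖N z‖ ≤ ‖F z‖ ≤ 4 ‖φ‖ ‖z‖` (`‖1‖ ≤ 1`).
`ψ = ψ₀ + g`. -/

namespace Pool.Agent.HFT

open Pool.Agent.HK Filter Topology

variable {H : Type} [NormedAddCommGroup H] [InnerProductSpace ℂ H] [CompleteSpace H]
variable {M : VonNeumannAlgebra H} {ξ : ℕ → H} {X Z : ℕ → H →L[ℂ] H}

private noncomputable def F (φ : RA M →L[ℂ] RA M →L[ℂ] (H →L[ℂ] H)) (ψ₀ : RA M →L[ℂ] (H →L[ℂ] H))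
    (z : RA M) : RA M →L[ℂ] (H →L[ℂ] H) :=
  φ.flip z - cR (ψ₀ z) (iL M) + vR z ψ₀ - cR z.1 ψ₀

private theorem F_apply (φ : RA M →L[ℂ] RA M →L[ℂ] (H →L[ℂ] H)) (ψ₀ : RA M →L[ℂ] (H →L[ℂ] H))
    (z x : RA M) : F φ ψ₀ z x = φ x z - x.1 * ψ₀ z + ψ₀ (x * z) - ψ₀ x * z.1 := rfl

private theorem F_add (φ : RA M →L[ℂ] RA M →L[ℂ] (H →L[ℂ] H)) (ψ₀ : RA M →L[ℂ] (H →L[ℂ] H))
    (z z' : RA M) : F φ ψ₀ (z + z') = F φ ψ₀ z + F φ ψ₀ z' := by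
  refine ContinuousLinearMap.ext fun x => ?_
  rw [add_apply, F_apply, F_apply, F_apply, map_add, map_add, mul_add, mul_add,
    map_add]
  have : ((z + z' : RA M) : H →L[ℂ] H) = z.1 + z'.1 := rfl
  rw [this, mul_add]
  abel

private theorem F_smul (φ : RA M →L[ℂ] RA M →L[ℂ] (H →L[ℂ] H)) (ψ₀ : RA M →L[ℂ] (H →L[ℂ] H))
    (c : ℂ) (z : RA M) : F φ ψ₀ (c • z) = c • F φ ψ₀ z := by
  refine ContinuousLinearMap.ext fun x => ?_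
  rw [smul_apply, F_apply, F_apply, map_smul, map_smul, mul_smul_comm,
    mul_smul_comm, map_smul]
  have : ((c • z : RA M) : H →L[ℂ] H) = c • z.1 := rfl
  rw [this, mul_smul_comm, smul_sub, smul_add, smul_sub]

private theorem F_norm (φ : RA M →L[ℂ] RA M →L[ℂ] (H →L[ℂ] H)) (ψ₀ : RA M →L[ℂ] (H →L[ℂ] H))
    (h0 : ‖ψ₀‖ ≤ ‖φ‖) (z : RA M) : ‖F φ ψ₀ z‖ ≤ 4 * ‖φ‖ * ‖z‖ := by
  refine ContinuousLinearMap.opNorm_le_bound _ (by positivity) fun x => ?_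
  rw [F_apply]
  have e1 : ‖φ x z‖ ≤ ‖φ‖ * ‖x‖ * ‖z‖ := φ.le_opNorm₂ x z
  have e2 : ‖x.1 * ψ₀ z‖ ≤ ‖φ‖ * ‖x‖ * ‖z‖ := by
    calc ‖x.1 * ψ₀ z‖ ≤ ‖x.1‖ * ‖ψ₀ z‖ := norm_mul_le _ _
      _ ≤ ‖x‖ * (‖φ‖ * ‖z‖) := by
          refine mul_le_mul le_rfl ?_ (norm_nonneg _) (norm_nonneg _)
          exact (ψ₀.le_opNorm z).trans (mul_le_mul_of_nonneg_right h0 (norm_nonneg _))
      _ = ‖φ‖ * ‖x‖ * ‖z‖ := by ring
  have e3 : ‖ψ₀ (x * z)‖ ≤ ‖φ‖ * ‖x‖ * ‖z‖ := by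
    calc ‖ψ₀ (x * z)‖ ≤ ‖ψ₀‖ * ‖x * z‖ := ψ₀.le_opNorm _
      _ ≤ ‖φ‖ * (‖x‖ * ‖z‖) :=
          mul_le_mul h0 (norm_mul_le x z) (norm_nonneg (x * z)) (norm_nonneg φ)
      _ = ‖φ‖ * ‖x‖ * ‖z‖ := by ring
  have e4 : ‖ψ₀ x * z.1‖ ≤ ‖φ‖ * ‖x‖ * ‖z‖ := by
    calc ‖ψ₀ x * z.1‖ ≤ ‖ψ₀ x‖ * ‖z.1‖ := norm_mul_le _ _
      _ ≤ (‖φ‖ * ‖x‖) * ‖z‖ := by
          refine mul_le_mul ?_ le_rfl (norm_nonneg _) (by positivity)
          exact (ψ₀.le_opNorm x).trans (mul_le_mul_of_nonneg_right h0 (norm_nonneg _))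
      _ = ‖φ‖ * ‖x‖ * ‖z‖ := by ring
  have n1 := norm_sub_le (φ x z - x.1 * ψ₀ z + ψ₀ (x * z)) (ψ₀ x * z.1)
  have n2 := norm_add_le (φ x z - x.1 * ψ₀ z) (ψ₀ (x * z))
  have n3 := norm_sub_le (φ x z) (x.1 * ψ₀ z)
  have n4 : 4 * ‖φ‖ * ‖z‖ * ‖x‖ = 4 * (‖φ‖ * ‖x‖ * ‖z‖) := by ring
  rw [n4]
  linarith

private theorem F_coc (φ : RA M →L[ℂ] RA M →L[ℂ] (H →L[ℂ] H)) (ψ₀ : RA M →L[ℂ] (H →L[ℂ] H))
    (h : ∀ x y z, x.1 * φ y z - φ (x * y) z + φ x (y * z) - φ x y * z.1 = 0) (x y z : RA M) :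
    x.1 * F φ ψ₀ z y - F φ ψ₀ z (x * y) + F φ ψ₀ (y * z) x - F φ ψ₀ y x * z.1 = 0 := by
  rw [F_apply, F_apply, F_apply, F_apply]
  have e1 : ((x * y : RA M) : H →L[ℂ] H) = x.1 * y.1 := rfl
  have e2 : ((y * z : RA M) : H →L[ℂ] H) = y.1 * z.1 := rfl
  rw [e1, e2, mul_assoc x y z]
  have := h x y z
  have e3 : x.1 * (φ y z - y.1 * ψ₀ z + ψ₀ (y * z) - ψ₀ y * z.1) -
      (φ (x * y) z - x.1 * y.1 * ψ₀ z + ψ₀ (x * (y * z)) - ψ₀ (x * y) * z.1) +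
      (φ x (y * z) - x.1 * ψ₀ (y * z) + ψ₀ (x * (y * z)) - ψ₀ x * (y.1 * z.1)) -
      (φ x y - x.1 * ψ₀ y + ψ₀ (x * y) - ψ₀ x * y.1) * z.1 =
      x.1 * φ y z - φ (x * y) z + φ x (y * z) - φ x y * z.1 := by noncomm_ring
  rw [e3, this]

private theorem N_eq (A : Hyp M ξ X Z) (S : RA M →L[ℂ] (H →L[ℂ] H))
    (h : ∀ s x, S (wA A.spin s * x) = wd X Z s * S x) (x : RA M) :
    nT A.trf S x = x.1 * nT A.trf S 1 := by
  have hs : ∀ s, vL (wA A.spin s) S = cL (wd X Z s) S := fun s =>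
    ContinuousLinearMap.ext fun x => h s x
  have hN : ∀ s x, nT A.trf S (wA A.spin s * x) = wd X Z s * nT A.trf S x := by
    intro s x
    have := congrArg (fun U : RA M →L[ℂ] (H →L[ℂ] H) => U x)
      ((nT_vL A.trf (wA A.spin s) S).symm.trans
        ((congrArg (nT A.trf) (hs s)).trans (nT_cL A.trf (wd X Z s) S)))
    exact this
  have hN1 : ∀ s, nT A.trf S (wA A.spin s) = wd X Z s * nT A.trf S 1 := by
    intro s
    have := hN s 1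
    rwa [mul_one] at this
  let E : ℕ → RA M := fun k => ⟨Ek ξ X Z k x.1, Ek_mem A.spin k x.1⟩
  have hE : ∀ k, nT A.trf S (E k) = Ek ξ X Z k x.1 * nT A.trf S 1 := by
    intro k
    have e1 : E k = ∑ s ∈ Qk k, ip ξ (wd X Z s) x.1 • wA A.spin s := by
      apply Subtype.ext
      have : ((∑ s ∈ Qk k, ip ξ (wd X Z s) x.1 • wA A.spin s : RA M) : H →L[ℂ] H) =
          ∑ s ∈ Qk k, ip ξ (wd X Z s) x.1 • (wA A.spin s : H →L[ℂ] H) := by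
        rw [← iL_apply, map_sum]
        exact Finset.sum_congr rfl fun s _ => map_smul _ _ _
      rw [this]
      rfl
    rw [e1, map_sum, Ek, Finset.sum_mul]
    refine Finset.sum_congr rfl fun s _ => ?_
    rw [map_smul, hN1 s, smul_mul_assoc]
  refine ContinuousLinearMap.ext fun a => ?_
  refine ext_inner_left ℂ fun b => ?_
  have l1 := NormalT.seq (nT_normal A.trf S) A.trf E x ‖x‖
    (fun k => A.norm_Ek_le k x.1 x.2) (A.Ek_tendsto x.1 x.2) a b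
  have l2 : Tendsto (fun k => (inner ℂ b (nT A.trf S (E k) a) : ℂ)) atTop
      (𝓝 (inner ℂ b (x.1 (nT A.trf S 1 a)))) := by
    have : ∀ k, (inner ℂ b (nT A.trf S (E k) a) : ℂ) =
        inner ℂ b (Ek ξ X Z k x.1 (nT A.trf S 1 a)) := by
      intro k
      rw [hE k]
      rfl
    simp only [this]
    exact Tendsto.inner tendsto_const_nhds (A.Ek_sot x.1 x.2 _)
  exact tendsto_nhds_unique l1 l2

theorem prim (A : Hyp M ξ X Z) (φ : RA M →L[ℂ] RA M →L[ℂ] (H →L[ℂ] H))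
    (h : ∀ x y z, x.1 * φ y z - φ (x * y) z + φ x (y * z) - φ x y * z.1 = 0) :
    ∃ ψ : RA M →L[ℂ] (H →L[ℂ] H), ‖ψ‖ ≤ 5 * ‖φ‖ ∧
      ∀ x y, φ x y = x.1 * ψ y - ψ (x * y) + ψ x * y.1 := by
  obtain ⟨ψ₀, h0, h1⟩ := prim0 A.spin φ h
  have hw : ∀ s z, F φ ψ₀ z (wA A.spin s) = 0 := by
    intro s z
    rw [F_apply, h1 s z]
    have : ((wA A.spin s : RA M) : H →L[ℂ] H) = wd X Z s := rfl
    rw [this]
    abel
  have hc := F_coc φ ψ₀ h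
  have hF : ∀ z s x, F φ ψ₀ z (wA A.spin s * x) = wd X Z s * F φ ψ₀ z x := by
    intro z s x
    have := hc (wA A.spin s) x z
    rw [hw, hw, zero_mul, sub_zero, add_zero, sub_eq_zero] at this
    exact this.symm
  have hN : ∀ z x, nT A.trf (F φ ψ₀ z) x = x.1 * nT A.trf (F φ ψ₀ z) 1 :=
    fun z => N_eq A (F φ ψ₀ z) (hF z)
  have n1 : ‖(1 : RA M)‖ ≤ 1 := ContinuousLinearMap.norm_id_le
  let g : RA M →L[ℂ] (H →L[ℂ] H) := LinearMap.mkContinuous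
    { toFun := fun z => nT A.trf (F φ ψ₀ z) 1
      map_add' := fun z z' => by
        rw [F_add, nT_add]; rfl
      map_smul' := fun c z => by
        rw [F_smul, nT_smul]; rfl } (4 * ‖φ‖) (fun z => by
        have b1 := (nT A.trf (F φ ψ₀ z)).le_opNorm 1
        have b2 := nT_norm A.trf (F φ ψ₀ z)
        have b3 := F_norm φ ψ₀ h0 z
        calc ‖nT A.trf (F φ ψ₀ z) 1‖ ≤ ‖nT A.trf (F φ ψ₀ z)‖ * ‖(1 : RA M)‖ := b1
          _ ≤ ‖nT A.trf (F φ ψ₀ z)‖ * 1 := mul_le_mul_of_nonneg_left n1 (norm_nonneg _)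
          _ ≤ 4 * ‖φ‖ * ‖z‖ := by rw [mul_one]; exact b2.trans b3)
  have hg : ∀ z, g z = nT A.trf (F φ ψ₀ z) 1 := fun z => rfl
  have hg4 : ‖g‖ ≤ 4 * ‖φ‖ := LinearMap.mkContinuous_norm_le _ (by positivity) _
  have hFg : ∀ y z, F φ ψ₀ z y = y.1 * g z - g (y * z) + g y * z.1 := by
    intro y z
    have e : cR (F φ ψ₀ z y) (iL M) - vR y (F φ ψ₀ z) + F φ ψ₀ (y * z) = cR z.1 (F φ ψ₀ y) := by
      refine ContinuousLinearMap.ext fun x => ?_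
      exact sub_eq_zero.1 (hc x y z)
    have e2 := congrArg (fun U => nT A.trf U 1) e
    simp only [nT_add, nT_sub, nT_of_normal A.trf (normalT_cR_iL A.trf _), nT_vR, nT_cR] at e2
    have e3 : (1 : RA M).1 * F φ ψ₀ z y - nT A.trf (F φ ψ₀ z) (1 * y) +
        nT A.trf (F φ ψ₀ (y * z)) 1 = nT A.trf (F φ ψ₀ y) 1 * z.1 := e2
    have e4 : (1 : RA M).1 = (1 : H →L[ℂ] H) := rfl
    rw [e4, one_mul, one_mul, hN z y] at e3
    rw [hg, hg, hg, ← e3]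
    abel
  refine ⟨ψ₀ + g, ?_, fun x y => ?_⟩
  · refine (norm_add_le _ _).trans ?_
    linarith
  · have := hFg x y
    rw [F_apply] at this
    have e : φ x y = (φ x y - x.1 * ψ₀ y + ψ₀ (x * y) - ψ₀ x * y.1) +
        (x.1 * ψ₀ y - ψ₀ (x * y) + ψ₀ x * y.1) := by abel
    rw [e, this, add_apply, add_apply,
      add_apply, mul_add, add_mul]
    abel

end Pool.Agent.HFT
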