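import Pool.Agent.HFT.OpK
import Pool.Agent.HFT.Cv

set_option autoImplicit false
set_option linter.unusedSectionVars false

/-! # Module P2 (2 points): the singular part of a primitive is compact valued

`Cb ψ` says that the coboundary of `ψ` is compact valued. For fixed `y` let
`S : x ↦ x ψ y - ψ (x y) + ψ x y`, i.e. `S = cR (ψ y) (iL M) - vR y ψ + cR y.1 ψ`, compact valued.
`nT T S = cR (ψ y) (iL M) - vR y (nT T ψ) + cR y.1 (nT T ψ)` (`nT_sub`, `nT_add`, `nT_of_normal`,
`normalT_cR_iL`, `nT_vR`, `nT_cR`) is compact valued (`nT_compact`). So with `σ = ψ - nT T ψ`: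
`(S - nT T S) x = -σ (x y) + σ x y` is compact; `x = 1`: `σ 1 * y - σ y` is compact for all `y`.
Let `t = σ 1` and `κ = σ - cL t (iL M)` (`κ y = σ y - t y`), compact valued. `nT T κ = nT T ψ -
nT T (nT T ψ) - cL t (iL M) = - cL t (iL M)` (`nT_of_normal`, `nT_normal`, `normalT_cL_iL`), compact
valued by `nT_compact`: at `1`: `t` is compact. So `σ y = κ y + t y` is compact. -/

namespace Pool.Agent.HFT

open Pool.Agent.HK Filter Topology

variable {H : Type} [NormedAddCommGroup H] [InnerProductSpace ℂ H] [CompleteSpace H]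
variable {M : VonNeumannAlgebra H} {ξ : ℕ → H}

/-- the coboundary of `ψ` is compact valued -/
def Cb (ψ : RA M →L[ℂ] (H →L[ℂ] H)) : Prop :=
  ∀ x y : RA M, IsCompactOperator (x.1 * ψ y - ψ (x * y) + ψ x * y.1)

theorem sing_compact (T : TrF M ξ) (ψ : RA M →L[ℂ] (H →L[ℂ] H)) (h : Cb ψ) (y : RA M) :
    IsCompactOperator (ψ y - nT T ψ y) := by
  have h1 : ∀ y : RA M,
      IsCompactOperator ((ψ - nT T ψ + cL (nT T ψ 1) (iL M)) y) := by
    intro y
    have hS : ∀ x, IsCompactOperator ((cR (ψ y) (iL M) - vR y ψ + cR y.1 ψ) x) := by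
      intro x
      exact h x y
    have hT := nT_compact T _ hS 1
    rw [nT_add, nT_sub, nT_of_normal T (normalT_cR_iL T (ψ y)), nT_vR, nT_cR] at hT
    have e : (cR (ψ y) (iL M) - vR y (nT T ψ) + cR y.1 (nT T ψ)) 1 =
        (ψ - nT T ψ + cL (nT T ψ 1) (iL M)) y := by
      simp only [add_apply, sub_apply, cR_apply, vR_apply,
        cL_apply, iL_apply, one_mul]
      have e1 : ((1 : RA M).1 : H →L[ℂ] H) = 1 := rfl
      rw [e1, one_mul]
    rw [e] at hT
    exact hT
  have h3 := nT_compact T _ h1 1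
  rw [nT_add, nT_sub, nT_of_normal T (nT_normal T ψ), nT_of_normal T (normalT_cL_iL T _),
    sub_self, zero_add] at h3
  have h4 : IsCompactOperator (nT T ψ 1) := by
    have e : cL (nT T ψ 1) (iL M) 1 = nT T ψ 1 := by
      simp only [cL_apply, iL_apply]
      have e1 : ((1 : RA M).1 : H →L[ℂ] H) = 1 := rfl
      rw [e1, mul_one]
    rw [e] at h3
    exact h3
  have h5 : IsCompactOperator (nT T ψ 1 * y.1) := (KK_mul y.1 _ h4).2
  have h6 := (h1 y).sub h5
  have e2 : ψ y - nT T ψ y = (ψ - nT T ψ + cL (nT T ψ 1) (iL M)) y - nT T ψ 1 * y.1 := by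
    simp only [add_apply, sub_apply, cL_apply, iL_apply]
    abel
  rw [e2]
  exact h6


end Pool.Agent.HFT
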