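import Pool.Agent.HFT.P2
import Pool.Agent.HFT.H1
import Pool.Agent.HFT.Dn
import Pool.Agent.HFT.W5

set_option autoImplicit false
set_option linter.unusedSectionVars false

/-! # Module P5 (4 points): the closure lemma

`N₀ = relc M D0` (all `x ∈ M` commuting with `D0`). `hess` says: for `S` commuting with `D0` and `κ`
compact `‖S‖ ≤ ‖S + κ‖`; so a compact operator commuting with `D0` is zero (`κ = - S`).

For `u ∈ N₀` and `d ∈ D0`: modulo compact operators `ψ (d u) ≡ d ψ u + ψ d u ≡ d ψ u` (`ψ d` is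
compact) and `ψ (u d) ≡ u ψ d + ψ u d ≡ ψ u d`; `d u = u d`, so `d ψ u - ψ u d` is compact.
`ab_split`: `ψ u = θ u + κ u`, `κ u` compact, `θ u` commutes with `D0`. `θ u` is unique (a difference of
two choices is compact and commutes with `D0`), so `θ` is linear; `‖θ u‖ ≤ ‖θ u + κ u‖ = ‖ψ u‖`: a
bounded linear map on `RA N₀` (`LinearMap.mkContinuous`). For `u, v ∈ N₀`:
`θ (u v) - u θ v - θ u v` commutes with `D0` (`u, v` do) and is compact (`Cb`): zero. So `θ` is a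
bounded derivation. `θ (y m) = ψ (y m) - κ` is compact, so zero. By `der_zero` (for `N₀`,
`TrF N₀ ξ` by `TrF.mono`) `θ x = 0`, so `ψ x` is compact. -/

namespace Pool.Agent.HFT

open Pool.Agent.HK Filter Topology

variable {H : Type} [NormedAddCommGroup H] [InnerProductSpace ℂ H] [CompleteSpace H]
variable {M : VonNeumannAlgebra H} {ξ : ℕ → H}

theorem closure_lemma (T : TrF M ξ) (ψ : RA M →L[ℂ] (H →L[ℂ] H)) (h : Cb ψ)
    (D0 : VonNeumannAlgebra H) (hDc : ∀ x ∈ D0, ∀ y ∈ D0, x * y = y * x)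
    (hDM : ∀ d ∈ D0, d ∈ M)
    (hDZ : ∀ d : RA M, d.1 ∈ D0 → IsCompactOperator (ψ d))
    (hess : ∀ S κ : H →L[ℂ] H, IsCompactOperator κ → (∀ d ∈ D0, d * S = S * d) → ‖S‖ ≤ ‖S + κ‖)
    (x : RA M) (hx : ∀ d ∈ D0, d * x.1 = x.1 * d) (y : ℕ → RA M)
    (hy : ∀ m, ∀ d ∈ D0, d * (y m).1 = (y m).1 * d)
    (hyZ : ∀ m, IsCompactOperator (ψ (y m))) (C : ℝ) (hC : ∀ m, ‖y m‖ ≤ C)
    (hlim : Tendsto (fun m => n2 ξ ((y m).1 - x.1)) atTop (𝓝 0)) :
    IsCompactOperator (ψ x) := by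
  classical
  -- the relative commutant
  obtain ⟨N, hN⟩ : ∃ N, N = relc M (D0 : Set (H →L[ℂ] H)) := ⟨_, rfl⟩
  have hmem : ∀ u : H →L[ℂ] H, u ∈ N ↔ u ∈ M ∧ ∀ d ∈ D0, d * u = u * d := by
    intro u
    rw [hN, mem_relc]
    constructor
    · rintro ⟨h1, h2⟩
      exact ⟨h1, fun d hd => (h2 d hd).1⟩
    · rintro ⟨h1, h2⟩
      exact ⟨h1, fun d hd => ⟨h2 d hd, h2 _ (star_mem hd)⟩⟩
  have hNM : ∀ u ∈ N, u ∈ M := fun u hu => ((hmem u).1 hu).1
  have hNc : ∀ u ∈ N, ∀ d ∈ D0, d * u = u * d := fun u hu => ((hmem u).1 hu).2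
  -- a compact operator commuting with `D0` is zero
  have hzero : ∀ S : H →L[ℂ] H, IsCompactOperator S → (∀ d ∈ D0, d * S = S * d) → S = 0 := by
    intro S hS hc
    have h1 : IsCompactOperator (-S : H →L[ℂ] H) := (KK H).neg_mem (x := S) hS
    have h2 := hess S (-S) h1 hc
    rw [add_neg_cancel, norm_zero] at h2
    exact norm_le_zero_iff.mp h2
  let ic : RA N → RA M := fun u => ⟨u.1, hNM u.1 u.2⟩
  have icadd : ∀ u v, ic (u + v) = ic u + ic v := fun _ _ => rfl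
  have icsmul : ∀ (c : ℂ) u, ic (c • u) = c • ic u := fun _ _ => rfl
  have icmul : ∀ u v, ic (u * v) = ic u * ic v := fun _ _ => rfl
  have icval : ∀ u, (ic u).1 = u.1 := fun _ => rfl
  have icnorm : ∀ u, ‖ic u‖ = ‖u‖ := fun _ => rfl
  have hex : ∀ u : RA N, ∃ t : H →L[ℂ] H, IsCompactOperator (ψ (ic u) - t) ∧
      ∀ d ∈ D0, d * t = t * d := by
    intro u
    obtain ⟨κ, hκ, hκc⟩ := ab_split D0 hDc (ψ (ic u)) (by
      intro d hd
      have hdu : (⟨d, hDM d hd⟩ : RA M) * ic u = ic u * ⟨d, hDM d hd⟩ :=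
        Subtype.ext (hNc u.1 u.2 d hd)
      have h1 : d * ψ (ic u) - ψ (⟨d, hDM d hd⟩ * ic u) + ψ ⟨d, hDM d hd⟩ * u.1 ∈ KK H :=
        h ⟨d, hDM d hd⟩ (ic u)
      have h2 : u.1 * ψ ⟨d, hDM d hd⟩ - ψ (ic u * ⟨d, hDM d hd⟩) + ψ (ic u) * d ∈ KK H :=
        h (ic u) ⟨d, hDM d hd⟩
      have h3 : IsCompactOperator (ψ ⟨d, hDM d hd⟩) := hDZ ⟨d, hDM d hd⟩ hd
      have h4 : ψ ⟨d, hDM d hd⟩ * u.1 ∈ KK H := (KK_mul u.1 _ h3).2
      have h5 : u.1 * ψ ⟨d, hDM d hd⟩ ∈ KK H := (KK_mul u.1 _ h3).1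
      have h6 : d * ψ (ic u) - ψ (ic u) * d =
          (d * ψ (ic u) - ψ (⟨d, hDM d hd⟩ * ic u) + ψ ⟨d, hDM d hd⟩ * u.1) -
          (u.1 * ψ ⟨d, hDM d hd⟩ - ψ (ic u * ⟨d, hDM d hd⟩) + ψ (ic u) * d) -
          ψ ⟨d, hDM d hd⟩ * u.1 + u.1 * ψ ⟨d, hDM d hd⟩ := by
        rw [hdu]; abel
      show d * ψ (ic u) - ψ (ic u) * d ∈ KK H
      rw [h6]
      exact (KK H).add_mem ((KK H).sub_mem ((KK H).sub_mem h1 h2) h4) h5)
    refine ⟨ψ (ic u) - κ, ?_, hκc⟩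
    rw [sub_sub_cancel]
    exact hκ
  choose θ hθ1 hθ2 using hex
  have hθK : ∀ u, ψ (ic u) - θ u ∈ KK H := hθ1
  have huniq : ∀ (u : RA N) (t : H →L[ℂ] H), ψ (ic u) - t ∈ KK H → (∀ d ∈ D0, d * t = t * d) →
      θ u = t := by
    intro u t h1 h2
    have h3 : θ u - t = 0 := by
      apply hzero
      · show θ u - t ∈ KK H
        have h4 : θ u - t = (ψ (ic u) - t) - (ψ (ic u) - θ u) := by abel
        rw [h4]
        exact (KK H).sub_mem h1 (hθK u)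
      · intro d hd
        rw [mul_sub, sub_mul, hθ2 u d hd, h2 d hd]
    exact sub_eq_zero.mp h3
  have hadd : ∀ u v, θ (u + v) = θ u + θ v := by
    intro u v
    apply huniq
    · have h4 : ψ (ic (u + v)) - (θ u + θ v) = (ψ (ic u) - θ u) + (ψ (ic v) - θ v) := by
        rw [icadd, map_add]; abel
      rw [h4]
      exact (KK H).add_mem (hθK u) (hθK v)
    · intro d hd
      rw [mul_add, add_mul, hθ2 u d hd, hθ2 v d hd]
  have hsmul : ∀ (c : ℂ) u, θ (c • u) = c • θ u := by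
    intro c u
    apply huniq
    · have h4 : ψ (ic (c • u)) - c • θ u = c • (ψ (ic u) - θ u) := by
        rw [icsmul, map_smul, smul_sub]
      rw [h4]
      exact (KK H).smul_mem c (hθK u)
    · intro d hd
      rw [mul_smul_comm, smul_mul_assoc, hθ2 u d hd]
  have hbd : ∀ u, ‖θ u‖ ≤ ‖ψ‖ * ‖u‖ := by
    intro u
    have h1 := hess (θ u) (ψ (ic u) - θ u) (hθ1 u) (hθ2 u)
    rw [add_sub_cancel] at h1
    refine h1.trans ?_
    rw [← icnorm]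
    exact ψ.le_opNorm _
  let Θ : RA N →L[ℂ] (H →L[ℂ] H) :=
    LinearMap.mkContinuous { toFun := θ, map_add' := hadd, map_smul' := hsmul } ‖ψ‖ hbd
  have hΘ : ∀ u, Θ u = θ u := fun _ => rfl
  have hder : ∀ u v, Θ (u * v) = u.1 * Θ v + Θ u * v.1 := by
    intro u v
    rw [hΘ, hΘ, hΘ]
    apply huniq
    · have h1 : u.1 * ψ (ic v) - ψ (ic u * ic v) + ψ (ic u) * v.1 ∈ KK H := h (ic u) (ic v)
      have h2 : u.1 * (ψ (ic v) - θ v) ∈ KK H := (KK_mul u.1 _ (hθ1 v)).1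
      have h3 : (ψ (ic u) - θ u) * v.1 ∈ KK H := (KK_mul v.1 _ (hθ1 u)).2
      have h4 : ψ (ic (u * v)) - (u.1 * θ v + θ u * v.1) =
          u.1 * (ψ (ic v) - θ v) + (ψ (ic u) - θ u) * v.1 -
          (u.1 * ψ (ic v) - ψ (ic u * ic v) + ψ (ic u) * v.1) := by
        rw [icmul, mul_sub, sub_mul]; abel
      rw [h4]
      exact (KK H).sub_mem ((KK H).add_mem h2 h3) h1
    · intro d hd
      have hu := hNc u.1 u.2 d hd
      have hv := hNc v.1 v.2 d hd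
      calc d * (u.1 * θ v + θ u * v.1) = (d * u.1) * θ v + (d * θ u) * v.1 := by
            rw [mul_add, mul_assoc, mul_assoc]
        _ = u.1 * (d * θ v) + θ u * (d * v.1) := by
            rw [hu, hθ2 u d hd, mul_assoc, mul_assoc]
        _ = (u.1 * θ v + θ u * v.1) * d := by
            rw [hv, hθ2 v d hd, add_mul, mul_assoc, mul_assoc]
  have hyN : ∀ m, (y m).1 ∈ N := fun m => (hmem _).2 ⟨(y m).2, hy m⟩
  have hxN : x.1 ∈ N := (hmem _).2 ⟨x.2, hx⟩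
  have h0 : ∀ m, Θ (⟨(y m).1, hyN m⟩ : RA N) = 0 := by
    intro m
    rw [hΘ]
    apply hzero
    · have h1 := hθK ⟨(y m).1, hyN m⟩
      have h2 : ic ⟨(y m).1, hyN m⟩ = y m := rfl
      rw [h2] at h1
      have h3 : θ ⟨(y m).1, hyN m⟩ = ψ (y m) - (ψ (y m) - θ ⟨(y m).1, hyN m⟩) := by abel
      show θ ⟨(y m).1, hyN m⟩ ∈ KK H
      rw [h3]
      exact (KK H).sub_mem (hyZ m) h1
    · exact hθ2 _
  have hfin : Θ (⟨x.1, hxN⟩ : RA N) = 0 :=
    der_zero (T.mono hNM) Θ hder (fun m => ⟨(y m).1, hyN m⟩) ⟨x.1, hxN⟩ C (fun m => hC m)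
      hlim h0
  have h1 := hθK ⟨x.1, hxN⟩
  have h2 : ic ⟨x.1, hxN⟩ = x := rfl
  rw [h2, ← hΘ, hfin, sub_zero] at h1
  exact h1

/-- the compact valued set is stable under products -/
theorem Cb.mul {ψ : RA M →L[ℂ] (H →L[ℂ] H)} (h : Cb ψ) {x y : RA M}
    (hx : IsCompactOperator (ψ x)) (hy : IsCompactOperator (ψ y)) :
    IsCompactOperator (ψ (x * y)) := by
  have h1 : x.1 * ψ y - ψ (x * y) + ψ x * y.1 ∈ KK H := h x y
  have h2 : x.1 * ψ y ∈ KK H := (KK_mul x.1 (ψ y) hy).1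
  have h3 : ψ x * y.1 ∈ KK H := (KK_mul y.1 (ψ x) hx).2
  have h4 : ψ (x * y) = x.1 * ψ y + ψ x * y.1 - (x.1 * ψ y - ψ (x * y) + ψ x * y.1) := by abel
  show ψ (x * y) ∈ KK H
  rw [h4]
  exact (KK H).sub_mem ((KK H).add_mem h2 h3) h1

end Pool.Agent.HFT
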