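import Pool.Agent.HFT.P7a

set_option autoImplicit false
set_option linter.unusedSectionVars false

/-! # Module P7b (3 points): the sparse product

`t` from `Sp.exists_t`. `p j = h j * t j`, projections of `M` (`h j`, `t j` commute). For `i < j`:
`t i = t i (1 - h j)`: (`t i = t (i+1) (1 - h (i+1))`, and all the `t`, `h` commute; induction), so
`p i p j = 0`. `a j = s j * t j = p j * s j * p j` (`t j` commutes with `s j` : `Hyp.CP_comm`,
`s j` commutes with the positions `≥ n j`, `t j` with the positions `≤ n j`; and `h s h = s`), norm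
`≤ C`. `∑_{j ≤ m} a j = Bs m * t m` by induction:
`Bs (m+1) t (m+1) = Bs m (1 - h (m+1)) t (m+1) + s (m+1) t (m+1) = Bs m t m + a (m+1)`.
Similarly `∑_{j ≤ m} p j = t m` (same induction with `s j` replaced by `h j`; `h 0 = 1`).
`Y` : apply `vn_sum M p a'` with `a' j = C⁻¹ a j` (assume `C > 0`; for `C = 0` all `s j = 0` and
`Y = 0`; or replace `C` by a larger number only for existence and get the norm from the strong limit) : `A univ = C⁻¹ Y`;
by finite additivity `A univ = ∑_{j ≤ m} a' j + A {j | j > m}`. To get the strong convergence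
`Y v = lim Bs m t m v` it is simpler to use `exists_sum` (HK/VN2): `HasSum (a' j v) (T v)`,
`T ∈ M` by commuting with the commutant (as in `vn_sum`), `‖T‖ ≤ 1`.
Properties: `Y t m = Bs m t m`: `a j t m = 0` for `j > m` because `p j t m = 0`
(`t m = t m (1 - h j)`), `a j t m = a j` for `j ≤ m` (`p j ≤ t j`... : `p j t m = p j`, since
`t m = ∑_{i ≤ m} p i`). So `(Y - Bs m) = Y (1 - t m) - Bs m (1 - t m)`, and
`n2 (Y - Bs m) ≤ C ρ m + C ρ m` (`TrF.n2` facts: `n2 (x b)`, here `n2 (Y (1 - t)) ≤ ‖Y‖ n2 (1 - t)` by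
`n2_mul_le`). For an operator `R` which commutes with all `a j` : `R Y = Y R` (strong sums). -/

namespace Pool.Agent.HFT

open Pool.Agent.HK Filter Topology

variable {H : Type} [NormedAddCommGroup H] [InnerProductSpace ℂ H] [CompleteSpace H]
variable {M : VonNeumannAlgebra H} {ξ : ℕ → H} {X Z : ℕ → H →L[ℂ] H}

private theorem p7b_alg {R : Type} [Ring R] {h t : ℕ → R}
    (hc : ∀ i j, h i * h j = h j * h i) (hh : ∀ i, h i * h i = h i) (h0 : h 0 = 1)
    (tt : ∀ i, t i * t i = t i)
    (t1 : ∀ m, t m = (1 - h (m + 1)) * t (m + 1)) (t2 : ∀ m, t m = t (m + 1) * (1 - h (m + 1)))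
    (htc : ∀ m j, h j * t m = t m * h j) :
    (∀ i j, i < j → t i * h j = 0) ∧ (∀ i j, j ≤ i → t i * t j = t j) ∧
      (∀ i j, j ≤ i → t j * t i = t j) ∧ (∀ i j, i ≠ j → h i * t i * (h j * t j) = 0) ∧
      (∀ m, ∑ j ∈ Finset.range (m + 1), h j * t j = t m) := by
  have K : ∀ i j, i < j → t i * h j = 0 := by
    have K' : ∀ d i, t i * h (i + d + 1) = 0 := by
      intro d
      induction d with
      | zero =>
        intro i
        have e : t i * h (i + 1) = t (i + 1) * ((1 - h (i + 1)) * h (i + 1)) := by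
          conv_lhs => rw [t2 i]
          rw [mul_assoc]
        rw [add_zero, e, sub_mul, one_mul, hh, sub_self, mul_zero]
      | succ d ih =>
        intro i
        have e : t i * h (i + (d + 1) + 1) = (1 - h (i + 1)) * (t (i + 1) * h (i + (d + 1) + 1)) := by
          conv_lhs => rw [t1 i]
          rw [mul_assoc]
        have e2 : i + (d + 1) + 1 = i + 1 + d + 1 := by omega
        rw [e, e2, ih (i + 1), mul_zero]
    intro i j hij
    obtain ⟨d, rfl⟩ : ∃ d, j = i + d + 1 := ⟨j - i - 1, by omega⟩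
    exact K' d i
  have T : ∀ i j, j ≤ i → t i * t j = t j := by
    have T' : ∀ d j, t (j + d) * t j = t j := by
      intro d
      induction d with
      | zero => intro j; rw [add_zero]; exact tt j
      | succ d ih =>
        intro j
        have e2 : j + (d + 1) = j + 1 + d := by omega
        have e : t (j + (d + 1)) * t j = t (j + 1 + d) * t (j + 1) * (1 - h (j + 1)) := by
          rw [e2]
          conv_lhs => rw [t2 j]
          rw [mul_assoc]
        rw [e, ih (j + 1)]
        exact (t2 j).symm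
    intro i j hij
    obtain ⟨d, rfl⟩ : ∃ d, i = j + d := ⟨i - j, by omega⟩
    exact T' d j
  have T2 : ∀ i j, j ≤ i → t j * t i = t j := by
    have T' : ∀ d j, t j * t (j + d) = t j := by
      intro d
      induction d with
      | zero => intro j; rw [add_zero]; exact tt j
      | succ d ih =>
        intro j
        have e2 : j + (d + 1) = j + 1 + d := by omega
        have e : t j * t (j + (d + 1)) = (1 - h (j + 1)) * (t (j + 1) * t (j + 1 + d)) := by
          rw [e2]
          conv_lhs => rw [t1 j]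
          rw [mul_assoc]
        rw [e, ih (j + 1)]
        exact (t1 j).symm
    intro i j hij
    obtain ⟨d, rfl⟩ : ∃ d, i = j + d := ⟨i - j, by omega⟩
    exact T' d j
  refine ⟨K, T, T2, ?_, ?_⟩
  · intro i j hij
    rcases lt_or_gt_of_ne hij with hlt | hgt
    · have e : h i * t i * (h j * t j) = h i * (t i * h j) * t j := by noncomm_ring
      rw [e, K i j hlt, mul_zero, zero_mul]
    · have e : h i * t i * (h j * t j) = h i * (t i * h j) * t j := by noncomm_ring
      rw [e, ← htc i j]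
      have e2 : h i * (h j * t i) * t j = h i * h j * (t i * t j) := by noncomm_ring
      rw [e2, T i j hgt.le, hc i j, mul_assoc, htc j i, K j i hgt, mul_zero]
  · intro m
    induction m with
    | zero => simp [h0]
    | succ m ih =>
      rw [Finset.sum_range_succ, ih]
      conv_lhs => rw [t1 m]
      rw [← add_mul, sub_add_cancel, one_mul]

theorem Sp.exists_Y (A : Hyp M ξ X Z) {C : ℝ} {n : ℕ → ℕ} {h s : ℕ → RA M} {ρ : ℕ → ℝ}
    (S : Sp ξ X Z C n h s ρ) :
    ∃ (t : ℕ → RA M) (Y : RA M), (∀ m, IsStarProjection (t m).1) ∧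
      (∀ m i, i ≤ n m → CP X Z i (t m).1) ∧ (∀ m l, CP X Z (n l) (t m).1) ∧
      (∀ m j, h j * t m = t m * h j) ∧
      (∀ v : H, Tendsto (fun m => (t m).1 v) atTop (𝓝 v)) ∧
      (∀ i j, i ≠ j → h i * t i * (h j * t j) = 0) ∧
      (∀ m, ∑ j ∈ Finset.range (m + 1), h j * t j = t m) ∧
      (∀ j, s j * t j = t j * s j) ∧ ‖Y‖ ≤ C ∧
      (∀ v : H, HasSum (fun j => (s j * t j).1 v) (Y.1 v)) ∧
      (∀ m, Y * t m = Bs h s m * t m) ∧
      ∀ m, n2 ξ (Y.1 - (Bs h s m).1) ≤ 2 * C * ρ m := by
  classical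
  obtain ⟨t, htp, htρ, ht1, ht2, htC, htCn, htc, htl⟩ := S.exists_t A
  have hpid : ∀ j, h j * h j = h j := fun j => Subtype.ext (S.hp j).isIdempotentElem
  have ttid : ∀ j, t j * t j = t j := fun j => Subtype.ext (htp j).isIdempotentElem
  obtain ⟨K, T, T2, hort, hsum⟩ := p7b_alg (h := h) (t := t) (S.h_comm A) hpid S.h0 ttid ht1 ht2 htc
  have hst : ∀ j, s j * t j = t j * s j := fun j =>
    Subtype.ext (A.CP_comm (n j) (s j).1 (t j).1 (s j).2 (S.sc j) (fun i hi => htC j i hi.le))
  have hsl : ∀ j, h j * s j = s j := fun j => by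
    conv_lhs => rw [← S.hs j]
    rw [← mul_assoc, ← mul_assoc, hpid]
    exact S.hs j
  have hsr : ∀ j, s j * h j = s j := fun j => by
    conv_lhs => rw [← S.hs j]
    rw [mul_assoc, hpid]
    exact S.hs j
  have hC0 : 0 ≤ C := le_trans (norm_nonneg _) (S.sn 0)
  have htn : ∀ j, ‖t j‖ ≤ 1 := fun j => by
    have := (htp j).norm_le
    exact this
  have han : ∀ j, ‖s j * t j‖ ≤ C := fun j => by
    calc ‖s j * t j‖ ≤ ‖s j‖ * ‖t j‖ := norm_mul_le _ _
      _ ≤ C * 1 := mul_le_mul (S.sn j) (htn j) (norm_nonneg _) hC0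
      _ = C := mul_one C
  have hpa : ∀ j, h j * t j * (s j * t j) = s j * t j := fun j => by
    have e : h j * t j * (s j * t j) = h j * (t j * s j) * t j := by noncomm_ring
    rw [e, ← hst j]
    have e2 : h j * (s j * t j) * t j = (h j * s j) * (t j * t j) := by noncomm_ring
    rw [e2, hsl, ttid]
  have hap : ∀ j, s j * t j * (h j * t j) = s j * t j := fun j => by
    have e : s j * t j * (h j * t j) = s j * (t j * h j) * t j := by noncomm_ring
    rw [e, ← htc j j]
    have e2 : s j * (h j * t j) * t j = (s j * h j) * (t j * t j) := by noncomm_ring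
    rw [e2, hsr, ttid]
  have hpp : ∀ j, IsStarProjection (h j * t j).1 := fun j => by
    have h1 := S.hp j
    have h2 := htp j
    have hcm : (h j).1 * (t j).1 = (t j).1 * (h j).1 := congrArg Subtype.val (htc j j)
    refine ⟨?_, ?_⟩
    · show (h j).1 * (t j).1 * ((h j).1 * (t j).1) = (h j).1 * (t j).1
      have e : (h j).1 * (t j).1 * ((h j).1 * (t j).1) =
          (h j).1 * ((t j).1 * (h j).1) * (t j).1 := by noncomm_ring
      rw [e, ← hcm]
      have e2 : (h j).1 * ((h j).1 * (t j).1) * (t j).1 =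
          ((h j).1 * (h j).1) * ((t j).1 * (t j).1) := by noncomm_ring
      rw [e2, h1.isIdempotentElem, h2.isIdempotentElem]
    · show star ((h j).1 * (t j).1) = (h j).1 * (t j).1
      rw [star_mul, h1.isSelfAdjoint.star_eq, h2.isSelfAdjoint.star_eq, hcm]
  obtain ⟨Tt, hT1, hT2⟩ := exists_sum (fun j => (h j * t j).1)
    (fun j => ((C : ℂ)⁻¹) • (s j * t j).1) hpp
    (fun i j hij => congrArg Subtype.val (hort i j hij))
    (fun j => by
      show (h j * t j).1 * ((C : ℂ)⁻¹ • (s j * t j).1) = (C : ℂ)⁻¹ • (s j * t j).1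
      rw [mul_smul_comm]
      exact congrArg (fun z : H →L[ℂ] H => (C : ℂ)⁻¹ • z) (congrArg Subtype.val (hpa j)))
    (fun j => by
      show ((C : ℂ)⁻¹ • (s j * t j).1) * (h j * t j).1 = (C : ℂ)⁻¹ • (s j * t j).1
      rw [smul_mul_assoc]
      exact congrArg (fun z : H →L[ℂ] H => (C : ℂ)⁻¹ • z) (congrArg Subtype.val (hap j)))
    (fun j => by
      show ‖(C : ℂ)⁻¹ • (s j * t j).1‖ ≤ 1
      rw [norm_smul, norm_inv, Complex.norm_real, Real.norm_of_nonneg hC0]
      have h3 : ‖(s j * t j).1‖ ≤ C := han j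
      rcases hC0.eq_or_lt with h4 | h4
      · rw [← h4]; simp
      · rw [inv_mul_le_iff₀ h4, mul_one]; exact h3)
  have hYs : ∀ v : H, HasSum (fun j => (s j * t j).1 v) (((C : ℂ) • Tt) v) := by
    intro v
    have h1 := (hT2 v).const_smul (C : ℂ)
    have h2 : (fun j => (C : ℂ) • (((C : ℂ)⁻¹ • (s j * t j).1) v)) = fun j => (s j * t j).1 v := by
      funext j
      rcases hC0.eq_or_lt with h4 | h4
      · have h5 : (s j * t j).1 = 0 := by
          have h6 : ‖(s j * t j).1‖ ≤ C := han j
          rw [← h4] at h6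
          exact norm_le_zero_iff.mp h6
        rw [h5]; simp
      · have h5 : (C : ℂ) ≠ 0 := by exact_mod_cast h4.ne'
        show (C : ℂ) • ((C : ℂ)⁻¹ • ((s j * t j).1 v)) = _
        rw [smul_smul, mul_inv_cancel₀ h5, one_smul]
    rw [h2] at h1
    exact h1
  have hYM : (C : ℂ) • Tt ∈ M := by
    rw [vn_mem_iff]
    intro y hy
    ext x
    show y (((C : ℂ) • Tt) x) = ((C : ℂ) • Tt) (y x)
    have h1 := (hYs x).mapL y
    have h2 := hYs (y x)
    have h3 : (fun j => y ((s j * t j).1 x)) = fun j => (s j * t j).1 (y x) := by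
      funext j
      exact congrArg (fun T : H →L[ℂ] H => T x) (vn_commute (s j * t j).2 hy)
    rw [h3] at h1
    exact h1.unique h2
  have hYn : ‖(C : ℂ) • Tt‖ ≤ C := by
    rw [norm_smul, Complex.norm_real, Real.norm_of_nonneg hC0]
    calc C * ‖Tt‖ ≤ C * 1 := mul_le_mul_of_nonneg_left hT1 hC0
      _ = C := mul_one C
  have hB : ∀ m, Bs h s m * t m = ∑ j ∈ Finset.range (m + 1), s j * t j := by
    intro m
    induction m with
    | zero => simp [Bs]
    | succ m ih =>
      rw [Finset.sum_range_succ, ← ih]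
      show (Bs h s m * (1 - h (m + 1)) + s (m + 1)) * t (m + 1) = _
      rw [add_mul, mul_assoc, ← ht1 m]
  have hYt : ∀ m, (⟨(C : ℂ) • Tt, hYM⟩ : RA M) * t m = Bs h s m * t m := by
    intro m
    refine Subtype.ext ?_
    ext v
    show ((C : ℂ) • Tt) ((t m).1 v) = (Bs h s m * t m).1 v
    have h1 := hYs ((t m).1 v)
    have h2 : ∀ j, (s j * t j).1 ((t m).1 v) =
        if j ∈ Finset.range (m + 1) then (s j * t j).1 v else 0 := by
      intro j
      have h3 : (s j * t j).1 ((t m).1 v) = (s j * t j * t m).1 v := rfl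
      rw [h3]
      split_ifs with hj
      · rw [mul_assoc, T2 m j (by simpa [Nat.lt_succ_iff] using hj)]
      · have hj' : m < j := by
          simp only [Finset.mem_range] at hj
          omega
        have h4 : s j * t j * t m = 0 := by
          rw [mul_assoc, T j m hj'.le, ← hsr j, mul_assoc, htc m j, K m j hj', mul_zero]
        rw [h4]
        rfl
    have h5 : HasSum (fun j => (s j * t j).1 ((t m).1 v))
        (∑ j ∈ Finset.range (m + 1), (s j * t j).1 ((t m).1 v)) := by
      refine hasSum_sum_of_ne_finset_zero ?_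
      intro j hj
      rw [h2 j, if_neg hj]
    rw [h1.unique h5, hB m]
    have h6 : (∑ j ∈ Finset.range (m + 1), s j * t j : RA M).1 v =
        ∑ j ∈ Finset.range (m + 1), (s j * t j).1 v := by
      have h7 : (∑ j ∈ Finset.range (m + 1), s j * t j : RA M).1 =
          ∑ j ∈ Finset.range (m + 1), (s j * t j).1 := by
        exact map_sum (io M) (fun j => s j * t j) _
      rw [h7]
      exact ContinuousLinearMap.sum_apply _ _ _
    rw [h6]
    refine Finset.sum_congr rfl fun j hj => ?_
    rw [h2 j, if_pos hj]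
  refine ⟨t, ⟨(C : ℂ) • Tt, hYM⟩, htp, htC, htCn, htc, htl, hort, hsum, hst, hYn, hYs, hYt, ?_⟩
  intro m
  have hsm := A.trf.summ
  have e : ((C : ℂ) • Tt) - (Bs h s m).1 =
      ((C : ℂ) • Tt) * (1 - (t m).1) - (Bs h s m).1 * (1 - (t m).1) := by
    have e1 : ((C : ℂ) • Tt) * (t m).1 = (Bs h s m).1 * (t m).1 := congrArg Subtype.val (hYt m)
    rw [mul_sub, mul_sub, e1]
    simp
  show n2 ξ (((C : ℂ) • Tt) - (Bs h s m).1) ≤ 2 * C * ρ m
  rw [e]
  have hBn : ‖(Bs h s m).1‖ ≤ C := S.Bs_norm A m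
  have n0 := n2_nonneg ξ (1 - (t m).1)
  calc _ ≤ n2 ξ (((C : ℂ) • Tt) * (1 - (t m).1)) + n2 ξ ((Bs h s m).1 * (1 - (t m).1)) :=
        n2_sub_le hsm _ _
    _ ≤ ‖(C : ℂ) • Tt‖ * n2 ξ (1 - (t m).1) + ‖(Bs h s m).1‖ * n2 ξ (1 - (t m).1) :=
        add_le_add (n2_mul_le hsm _ _) (n2_mul_le hsm _ _)
    _ ≤ C * ρ m + C * ρ m := by
        refine add_le_add ?_ ?_
        · exact mul_le_mul hYn (htρ m) n0 hC0
        · exact mul_le_mul hBn (htρ m) n0 hC0
    _ = 2 * C * ρ m := by ring

end Pool.Agent.HFT
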