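import Pool.Agent.HFT.P6
import Pool.Agent.HFT.Op
import Pool.Agent.HFT.Cut

set_option autoImplicit false
set_option linter.unusedSectionVars false

/-! # Module P8a (5 points): one step of the gliding hump

`conj_join`: for a projection `q` commuting with the positions `≥ n` and `k < n`: the family
`w_s q w_s*`, `s ∈ Qk (k + 1)`, of projections of `F_n = relc M {X i, Z i | i ≥ n}`; a finite join `P`
with `n2 P² ≤ ∑ n2 (w_s q w_s*)² = 4^(k+1) n2 q²` (`TrF.joinN` applied in the von Neumann algebra `F_n`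
with the trace `TrF.mono`; enumerate `Qk (k+1)` and put the projection `0` for the remaining
indices; `n2 (w q w*) = n2 q` by `n2_mul_le`, `n2_mul_le'`). `q ≤ P` (`s = (∅, ∅)`). `P` commutes with
`u = X i`, `Z i`, `i ≤ k`: `u (w_s q w_s*) u* = w_{s'} q w_{s'}*` (`s' = sd s ·`, signs cancel), so the
family is invariant under conjugation by `u` (self-adjoint unitary). If `v = (1 - P) v` then
`q' v = 0` for all `q'` of the family (`q' = q' P`), so `q' u v = u (u q' u) v = 0`, so by minimality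
`P u v = 0`: `P u (1 - P) = 0`, and by adjoints `(1 - P) u P = 0`: `u P = P u`.

`hump_step`: let `L = ‖ψ‖ + 1`, `η = c / (8 L)` (so `2 η ‖ψ‖ ≤ c / 4`). Choose `m > k` with
`n2 (y - Ek m y) ≤ τ`, `τ > 0` so small that `4^(k+1) * (8 τ²) / η² ≤ δ²` (`Hyp.Ek_tendsto`).
`w = y - Ek m y`; `ψ (Ek m y)` is compact (`HW.Ek`), so `hnc` with `κ = - ψ (Ek m y)` gives a unit
vector `v ⊥ F` with `‖ψ w v‖ ≥ c`; `b = ψ w v / ‖ψ w v‖`: `⟪b, ψ w v⟫ = ‖ψ w v‖ ≥ c`.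
For `n → ∞`: `Ek n y - Ek m y → w` boundedly in `2`-norm, so (`NormalT.seq`) there is `n > m` with
`‖⟪b, ψ (Ek n y - Ek m y) v⟫‖ ≥ 3 c / 4` and also `n2 (y - Ek n y) ≤ τ`; `V = Ek n y - Ek m y`: `‖V‖ ≤ 2`,
`n2 V ≤ 2 τ`, `V` commutes with the positions `≥ n` (`Spin.Ek_CP`; words of `Qk m ⊆ Qk n`).
`TrF.cut` in the von Neumann algebra `F_n = relc M {X i, Z i | i ≥ n}` (trace by `TrF.mono`):
projection `q ∈ F_n`, `‖V - q V q‖ ≤ 2 η`, `η² n2 q² ≤ 2 (2 τ)²`. `h = P` from `conj_join`: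
`n2 h² ≤ 4^(k+1) n2 q² ≤ 4^(k+1) 8 τ² / η² ≤ δ²`. `‖⟪b, ψ (q V q) v⟫‖ ≥ 3 c / 4 - c / 4 = c / 2`.
`s ∈ {0, q V q}`: `h s h = s` (`h q = q`). The numbers
`⟪b, ψ (B (1 - h)) v⟫` and `⟪b, ψ (B (1 - h) + q V q) v⟫` differ by at least `c / 2`, so one of them
has modulus `≥ c / 4`. -/

namespace Pool.Agent.HFT

open Pool.Agent.HK Filter Topology

variable {H : Type} [NormedAddCommGroup H] [InnerProductSpace ℂ H] [CompleteSpace H]
variable {M : VonNeumannAlgebra H} {ξ : ℕ → H} {X Z : ℕ → H →L[ℂ] H}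

/-- the positions `≥ n` -/
private def posS (X Z : ℕ → H →L[ℂ] H) (n : ℕ) : Set (H →L[ℂ] H) :=
  {x | ∃ i, n ≤ i ∧ (x = X i ∨ x = Z i)}

private theorem mem_pos (S : Spin M X Z) {n : ℕ} {x : H →L[ℂ] H} :
    x ∈ relc M (posS X Z n) ↔ x ∈ M ∧ ∀ i, n ≤ i → CP X Z i x := by
  rw [mem_relc]
  constructor
  · rintro ⟨h1, h2⟩
    exact ⟨h1, fun i hi => ⟨(h2 _ ⟨i, hi, Or.inl rfl⟩).1, (h2 _ ⟨i, hi, Or.inr rfl⟩).1⟩⟩
  · rintro ⟨h1, h2⟩
    refine ⟨h1, ?_⟩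
    rintro s ⟨i, hi, rfl | rfl⟩
    · rw [S.Xs]
      exact ⟨(h2 i hi).1, (h2 i hi).1⟩
    · rw [S.Zs]
      exact ⟨(h2 i hi).2, (h2 i hi).2⟩

private theorem cp_mul {i : ℕ} {x y : H →L[ℂ] H} (hx : CP X Z i x) (hy : CP X Z i y) :
    CP X Z i (x * y) :=
  ⟨by rw [← mul_assoc, hx.1, mul_assoc, hy.1, mul_assoc],
    by rw [← mul_assoc, hx.2, mul_assoc, hy.2, mul_assoc]⟩

private theorem cp_sub {i : ℕ} {x y : H →L[ℂ] H} (hx : CP X Z i x) (hy : CP X Z i y) :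
    CP X Z i (x - y) :=
  ⟨by rw [mul_sub, sub_mul, hx.1, hy.1], by rw [mul_sub, sub_mul, hx.2, hy.2]⟩

private theorem cp_star (S : Spin M X Z) {i : ℕ} {x : H →L[ℂ] H} (hx : CP X Z i x) :
    CP X Z i (star x) := by
  constructor
  · have h := congrArg star hx.1
    rw [star_mul, star_mul, S.Xs] at h
    exact h.symm
  · have h := congrArg star hx.2
    rw [star_mul, star_mul, S.Zs] at h
    exact h.symm

private theorem cp_wd (S : Spin M X Z) {k n : ℕ} (hkn : k < n) {s : Finset ℕ × Finset ℕ}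
    (hs : s ∈ Qk (k + 1)) {i : ℕ} (hi : n ≤ i) : CP X Z i (wd X Z s) := by
  rw [mem_Qk] at hs
  constructor
  · refine (S.commX i s).1 (fun h => ?_)
    have := hs.2 i h
    omega
  · refine (S.commZ i s).1 (fun h => ?_)
    have := hs.1 i h
    omega

/-- conjugation of the projection with a word -/
private noncomputable def cj (X Z : ℕ → H →L[ℂ] H) (q : H →L[ℂ] H) (s : Finset ℕ × Finset ℕ) :
    H →L[ℂ] H := wd X Z s * q * star (wd X Z s)

private theorem cj_proj (S : Spin M X Z) {q : H →L[ℂ] H} (hq : IsStarProjection q)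
    (s : Finset ℕ × Finset ℕ) : IsStarProjection (cj X Z q s) := by
  have hu := (S.unit_wd s).1
  refine ⟨?_, ?_⟩
  · show cj X Z q s * cj X Z q s = cj X Z q s
    unfold cj
    calc wd X Z s * q * star (wd X Z s) * (wd X Z s * q * star (wd X Z s))
        = wd X Z s * q * (star (wd X Z s) * wd X Z s) * q * star (wd X Z s) := by
          simp only [mul_assoc]
      _ = wd X Z s * (q * q) * star (wd X Z s) := by rw [hu, mul_one, mul_assoc (wd X Z s) q q]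
      _ = wd X Z s * q * star (wd X Z s) := by rw [hq.isIdempotentElem.eq]
  · show star (cj X Z q s) = cj X Z q s
    unfold cj
    rw [star_mul, star_mul, star_star, hq.isSelfAdjoint.star_eq, mul_assoc]

private theorem cj_conj (S : Spin M X Z) {q : H →L[ℂ] H} (t s : Finset ℕ × Finset ℕ) :
    wd X Z t * cj X Z q s * star (wd X Z t) = cj X Z q (sd t s) := by
  obtain ⟨ε, hε, he⟩ := S.mul_wd t s
  unfold cj
  have e1 : wd X Z t * (wd X Z s * q * star (wd X Z s)) * star (wd X Z t) =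
      (wd X Z t * wd X Z s) * q * star (wd X Z t * wd X Z s) := by
    rw [star_mul]
    simp only [mul_assoc]
  rw [e1, he, star_smul]
  rcases hε with h | h
  · rw [h]
    simp only [star_one, one_smul]
  · rw [h]
    simp only [star_neg, star_one, neg_smul, one_smul, neg_mul, mul_neg, neg_neg]

private theorem cj_n2 (A : Hyp M ξ X Z) {q : H →L[ℂ] H} (hq : q ∈ M)
    (s : Finset ℕ × Finset ℕ) : n2 ξ (cj X Z q s) ≤ n2 ξ q := by
  have h1 : ‖wd X Z s‖ ≤ 1 := A.spin.norm_wd s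
  have h0 : 0 ≤ n2 ξ q := n2_nonneg ξ q
  unfold cj
  have h2 : n2 ξ (q * star (wd X Z s)) ≤ n2 ξ q * ‖star (wd X Z s)‖ :=
    A.trf.n2_mul_le' hq (star_mem (A.spin.mem_wd s))
  rw [norm_star] at h2
  have h3 : n2 ξ (wd X Z s * (q * star (wd X Z s))) ≤
      ‖wd X Z s‖ * n2 ξ (q * star (wd X Z s)) := n2_mul_le A.trf.summ _ _
  rw [mul_assoc]
  have h4 : n2 ξ (q * star (wd X Z s)) ≤ n2 ξ q :=
    h2.trans (mul_le_of_le_one_right h0 h1)
  calc n2 ξ (wd X Z s * (q * star (wd X Z s))) ≤ ‖wd X Z s‖ * n2 ξ (q * star (wd X Z s)) := h3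
    _ ≤ 1 * n2 ξ (q * star (wd X Z s)) :=
        mul_le_mul_of_nonneg_right h1 (n2_nonneg ξ _)
    _ ≤ n2 ξ q := by rw [one_mul]; exact h4

/-- a projection whose kernel is invariant under a self-adjoint operator -/
private theorem comm_of_ker {P u : H →L[ℂ] H} (hP : IsStarProjection P) (hu : star u = u)
    (h : ∀ y, P y = 0 → P (u y) = 0) : u * P = P * u := by
  have hPP := hP.isIdempotentElem.eq
  have h1 : P * u * (1 - P) = 0 := by
    apply ContinuousLinearMap.ext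
    intro v
    show P (u ((1 - P) v)) = 0
    apply h
    have : P * (1 - P) = 0 := by rw [mul_sub, mul_one, hPP, sub_self]
    exact congrArg (fun T : H →L[ℂ] H => T v) this
  have h2 : (1 - P) * (u * P) = 0 := by
    have h3 := congrArg star h1
    rw [star_mul, star_mul, star_sub, star_one, hP.isSelfAdjoint.star_eq, hu, star_zero] at h3
    exact h3
  have e1 : P * u = P * u * P := by
    rw [mul_sub, mul_one, sub_eq_zero] at h1
    exact h1
  have e2 : u * P = P * (u * P) := by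
    rw [sub_mul, one_mul, sub_eq_zero] at h2
    exact h2
  rw [e1, e2, mul_assoc]

theorem conj_join (A : Hyp M ξ X Z) (k n : ℕ) (hkn : k < n) (q : RA M)
    (hq : IsStarProjection q.1) (hc : ∀ i, n ≤ i → CP X Z i q.1) :
    ∃ h : RA M, IsStarProjection h.1 ∧ (∀ i, (i ≤ k ∨ n ≤ i) → CP X Z i h.1) ∧ h * q = q ∧
      n2 ξ h.1 ^ 2 ≤ 4 ^ (k + 1) * n2 ξ q.1 ^ 2 := by
  classical
  have hSp := A.spin
  have TF : TrF (relc M (posS X Z n)) ξ := A.trf.mono (fun x hx => ((mem_pos hSp).mp hx).1)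
  obtain ⟨N, hN⟩ : ∃ N, N = (Qk (k + 1)).card := ⟨_, rfl⟩
  have hN4 : N = 4 ^ (k + 1) := by rw [hN, card_Qk]
  obtain ⟨f, hf⟩ : ∃ f : ℕ → H →L[ℂ] H, (∀ i, (∃ s ∈ Qk (k + 1), f i = cj X Z q.1 s) ∨ f i = 0) ∧
      (∀ s ∈ Qk (k + 1), ∃ i, f i = cj X Z q.1 s) ∧ ∀ i, N ≤ i → f i = 0 := by
    let e := (Qk (k + 1)).equivFin
    refine ⟨fun i => if hi : i < (Qk (k + 1)).card then cj X Z q.1 (e.symm ⟨i, hi⟩).1 else 0,
      ?_, ?_, ?_⟩
    · intro i
      by_cases hi : i < (Qk (k + 1)).card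
      · left
        refine ⟨(e.symm ⟨i, hi⟩).1, (e.symm ⟨i, hi⟩).2, ?_⟩
        simp only [hi, dif_pos]
      · right
        simp only [hi, dif_neg, not_false_eq_true]
    · intro s hs
      refine ⟨(e ⟨s, hs⟩).1, ?_⟩
      simp only [(e ⟨s, hs⟩).2, dif_pos, Fin.eta, Equiv.symm_apply_apply]
    · intro i hi
      have : ¬ i < (Qk (k + 1)).card := by rw [← hN]; omega
      simp only [this, dif_neg, not_false_eq_true]
  obtain ⟨f1, f2, f3⟩ := hf
  have hcjF : ∀ s ∈ Qk (k + 1), PJ (relc M (posS X Z n)) (cj X Z q.1 s) := by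
    intro s hs
    refine ⟨(mem_pos hSp).mpr ⟨?_, fun i hi => ?_⟩, cj_proj hSp hq s⟩
    · exact mul_mem (mul_mem (hSp.mem_wd s) q.2) (star_mem (hSp.mem_wd s))
    · exact cp_mul (cp_mul (cp_wd hSp hkn hs hi) (hc i hi)) (cp_star hSp (cp_wd hSp hkn hs hi))
  have hfF : ∀ i, PJ (relc M (posS X Z n)) (f i) := by
    intro i
    rcases f1 i with ⟨s, hs, h⟩ | h
    · rw [h]; exact hcjF s hs
    · rw [h]
      exact ⟨zero_mem _, IsStarProjection.zero _⟩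
  have hfn : ∀ i, n2 ξ (f i) ^ 2 ≤ if i < N then n2 ξ q.1 ^ 2 else 0 := by
    intro i
    by_cases hi : i < N
    · rw [if_pos hi]
      rcases f1 i with ⟨s, hs, h⟩ | h
      · rw [h]
        exact pow_le_pow_left₀ (n2_nonneg ξ _) (cj_n2 A q.2 s) 2
      · rw [h, n2_zero, zero_pow (by norm_num)]
        positivity
    · rw [if_neg hi, f3 i (not_lt.mp hi), n2_zero]
      norm_num
  have hsum : ∀ m, ∑ i ∈ Finset.range m, n2 ξ (f i) ^ 2 ≤ 4 ^ (k + 1) * n2 ξ q.1 ^ 2 := by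
    intro m
    have hc0 : 0 ≤ n2 ξ q.1 ^ 2 := by positivity
    calc ∑ i ∈ Finset.range m, n2 ξ (f i) ^ 2
        ≤ ∑ i ∈ Finset.range m, (if i < N then n2 ξ q.1 ^ 2 else 0) :=
          Finset.sum_le_sum (fun i _ => hfn i)
      _ = ((Finset.range m).filter (fun i => i < N)).card * n2 ξ q.1 ^ 2 := by
          rw [← Finset.sum_filter, Finset.sum_const, nsmul_eq_mul]
      _ ≤ (N : ℝ) * n2 ξ q.1 ^ 2 := by
          apply mul_le_mul_of_nonneg_right _ hc0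
          have : ((Finset.range m).filter (fun i => i < N)).card ≤ N := by
            calc ((Finset.range m).filter (fun i => i < N)).card ≤ (Finset.range N).card := by
                  apply Finset.card_le_card
                  intro i hi
                  rw [Finset.mem_filter] at hi
                  exact Finset.mem_range.mpr hi.2
              _ = N := Finset.card_range N
          exact_mod_cast this
      _ = 4 ^ (k + 1) * n2 ξ q.1 ^ 2 := by rw [hN4]; push_cast; ring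
  obtain ⟨P, hPJ, hPf, hPn, hPmin⟩ := TF.joinN f hfF _ hsum
  have hPm := (mem_pos hSp).mp hPJ.1
  have hPcj : ∀ s ∈ Qk (k + 1), P * cj X Z q.1 s = cj X Z q.1 s := by
    intro s hs
    obtain ⟨i, hi⟩ := f2 s hs
    rw [← hi]
    exact hPf i
  have hcjP : ∀ s ∈ Qk (k + 1), cj X Z q.1 s * P = cj X Z q.1 s := by
    intro s hs
    have h1 := congrArg star (hPcj s hs)
    rwa [star_mul, (hcjF s hs).2.isSelfAdjoint.star_eq, hPJ.2.isSelfAdjoint.star_eq] at h1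
  have hker : ∀ t ∈ Qk (k + 1), star (wd X Z t) = wd X Z t →
      wd X Z t * P = P * wd X Z t := by
    intro t ht hst
    refine comm_of_ker hPJ.2 hst (fun y hy => hPmin _ (fun i => ?_))
    rcases f1 i with ⟨s, hs, h⟩ | h
    · rw [h]
      have h1 := cj_conj (q := q.1) hSp t s
      rw [hst] at h1
      have hu : wd X Z t * wd X Z t = 1 := by
        have := (hSp.unit_wd t).1
        rwa [hst] at this
      have h2 : cj X Z q.1 s * wd X Z t = wd X Z t * cj X Z q.1 (sd t s) := by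
        rw [← h1]
        calc cj X Z q.1 s * wd X Z t = (wd X Z t * wd X Z t) * cj X Z q.1 s * wd X Z t := by
              rw [hu, one_mul]
          _ = wd X Z t * (wd X Z t * cj X Z q.1 s * wd X Z t) := by simp only [mul_assoc]
      have h3 : cj X Z q.1 (sd t s) y = 0 := by
        have h4 := congrArg (fun T : H →L[ℂ] H => T y) (hcjP (sd t s) (sd_mem ht hs))
        have h5 : cj X Z q.1 (sd t s) (P y) = cj X Z q.1 (sd t s) y := h4
        rw [hy, map_zero] at h5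
        exact h5.symm
      have h6 : cj X Z q.1 s (wd X Z t y) = wd X Z t (cj X Z q.1 (sd t s) y) :=
        congrArg (fun T : H →L[ℂ] H => T y) h2
      rw [h6, h3, map_zero]
    · rw [h]
      rfl
  have hQX : ∀ i, i ≤ k → (({i}, ∅) : Finset ℕ × Finset ℕ) ∈ Qk (k + 1) := by
    intro i hi
    rw [mem_Qk]
    constructor
    · intro j hj
      rw [Finset.mem_singleton] at hj
      omega
    · intro j hj
      exact absurd hj (Finset.notMem_empty j)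
  have hQZ : ∀ i, i ≤ k → ((∅, {i}) : Finset ℕ × Finset ℕ) ∈ Qk (k + 1) := by
    intro i hi
    rw [mem_Qk]
    constructor
    · intro j hj
      exact absurd hj (Finset.notMem_empty j)
    · intro j hj
      rw [Finset.mem_singleton] at hj
      omega
  refine ⟨⟨P, hPm.1⟩, hPJ.2, ?_, ?_, hPn⟩
  · rintro i (hi | hi)
    · constructor
      · have h1 := hker ({i}, ∅) (hQX i hi)
        rw [wd_X] at h1
        exact h1 (hSp.Xs i)
      · have h1 := hker (∅, {i}) (hQZ i hi)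
        rw [wd_Z] at h1
        exact h1 (hSp.Zs i)
    · exact hPm.2 i hi
  · have h0 : ((∅, ∅) : Finset ℕ × Finset ℕ) ∈ Qk (k + 1) := by
      rw [mem_Qk]
      exact ⟨fun j hj => absurd hj (Finset.notMem_empty j),
        fun j hj => absurd hj (Finset.notMem_empty j)⟩
    have h1 := hPcj (∅, ∅) h0
    have h2 : cj X Z q.1 (∅, ∅) = q.1 := by
      unfold cj
      rw [wd_empty, star_one, one_mul, mul_one]
    rw [h2] at h1
    exact Subtype.ext h1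

theorem hump_step (A : Hyp M ξ X Z) (ψ : RA M →L[ℂ] (H →L[ℂ] H)) (hW : HW A.spin ψ)
    (hN : NormalT ξ ψ) (y : RA M) (hy : ‖y‖ ≤ 1) (c : ℝ) (hc : 0 < c)
    (hnc : ∀ κ : H →L[ℂ] H, IsCompactOperator κ → ∀ F : Finset H,
      ∃ v : H, ‖v‖ = 1 ∧ (∀ x ∈ F, inner ℂ x v = (0 : ℂ)) ∧ c ≤ ‖(ψ y + κ) v‖)
    (k : ℕ) (B : RA M) (F : Finset H) (δ : ℝ) (hδ : 0 < δ) :
    ∃ (n : ℕ) (h s : RA M) (v b : H), k < n ∧ IsStarProjection h.1 ∧
      (∀ i, (i ≤ k ∨ n ≤ i) → CP X Z i h.1) ∧ n2 ξ h.1 ≤ δ ∧ (∀ i, n ≤ i → CP X Z i s.1) ∧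
      h * s * h = s ∧ ‖s‖ ≤ 2 ∧ ‖v‖ = 1 ∧ ‖b‖ = 1 ∧ (∀ x ∈ F, inner ℂ x v = (0 : ℂ)) ∧
      c / 4 ≤ ‖(inner ℂ b (ψ (B * (1 - h) + s) v) : ℂ)‖ := by
  classical
  have hSp := A.spin
  obtain ⟨L, hL⟩ : ∃ L : ℝ, L = ‖ψ‖ + 1 := ⟨_, rfl⟩
  have hL0 : 0 < L := by rw [hL]; positivity
  obtain ⟨η, hη⟩ : ∃ η : ℝ, η = c / (8 * L) := ⟨_, rfl⟩
  have hη0 : 0 < η := by rw [hη]; positivity
  have hηψ : ‖ψ‖ * (2 * η) ≤ c / 4 := by
    have h1 : ‖ψ‖ ≤ L := by rw [hL]; linarith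
    have h2 : L * (2 * η) = c / 4 := by rw [hη]; field_simp; ring
    calc ‖ψ‖ * (2 * η) ≤ L * (2 * η) := mul_le_mul_of_nonneg_right h1 (by positivity)
      _ = c / 4 := h2
  obtain ⟨τ, hτ⟩ : ∃ τ : ℝ, τ = δ * η / (8 * 2 ^ (k + 1)) := ⟨_, rfl⟩
  have hτ0 : 0 < τ := by rw [hτ]; positivity
  -- the expectations as elements of the algebra
  obtain ⟨E, hE⟩ : ∃ E : ℕ → RA M, ∀ m, (E m).1 = Ek ξ X Z m y.1 :=
    ⟨fun m => ⟨Ek ξ X Z m y.1, Ek_mem hSp m y.1⟩, fun _ => rfl⟩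
  have hEt : Tendsto (fun m => n2 ξ ((E m).1 - y.1)) atTop (𝓝 0) := by
    have h1 := A.Ek_tendsto y.1 y.2
    refine h1.congr (fun m => ?_)
    rw [hE]
  have hEn : ∀ m, ‖E m‖ ≤ 1 := by
    intro m
    have h1 : ‖E m‖ = ‖(E m).1‖ := rfl
    rw [h1, hE]
    exact (A.norm_Ek_le m y.1 y.2).trans hy
  have hECP : ∀ m i, m ≤ i → CP X Z i (E m).1 := by
    intro m i hi
    rw [hE]
    exact hSp.Ek_CP m i hi y.1
  have hev : ∀ᶠ m in atTop, n2 ξ ((E m).1 - y.1) ≤ τ := hEt.eventually_le_const hτ0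
  obtain ⟨m, hm1, hm2⟩ := (hev.and (Filter.eventually_gt_atTop k)).exists
  have hEc : IsCompactOperator (ψ (E m)) :=
    hW.Ek A m (E m) (A.eq_Ek_of_CP m _ (E m).2 (fun i hi => hECP m i hi))
  obtain ⟨v, hv1, hv2, hv3⟩ := hnc (-(ψ (E m))) hEc.neg F
  obtain ⟨w, hw⟩ : ∃ w : RA M, w = y - E m := ⟨_, rfl⟩
  have hψw : ψ w = ψ y + -(ψ (E m)) := by rw [hw, map_sub, sub_eq_add_neg]
  rw [← hψw] at hv3
  have hpos : 0 < ‖ψ w v‖ := lt_of_lt_of_le hc hv3
  obtain ⟨b, hb⟩ : ∃ b : H, b = ((‖ψ w v‖⁻¹ : ℝ) : ℂ) • ψ w v := ⟨_, rfl⟩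
  have hb1 : ‖b‖ = 1 := by
    rw [hb, norm_smul, Complex.norm_real, norm_inv, norm_norm]
    exact inv_mul_cancel₀ hpos.ne'
  have hbw : ‖(inner ℂ b (ψ w v) : ℂ)‖ = ‖ψ w v‖ := by
    rw [hb, inner_smul_left, inner_self_eq_norm_sq_to_K, norm_mul]
    simp only [Complex.conj_ofReal, Complex.norm_real, norm_inv, norm_norm]
    rw [norm_pow]
    have h1 : ‖((‖ψ w v‖ : ℝ) : ℂ)‖ = ‖ψ w v‖ := by
      rw [Complex.norm_real, norm_norm]
    have h2 : (RCLike.ofReal ‖ψ w v‖ : ℂ) = ((‖ψ w v‖ : ℝ) : ℂ) := rfl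
    rw [h2, h1]
    field_simp
  -- the second index
  have hseq : Tendsto (fun j => (inner ℂ b (ψ (E j - E m) v) : ℂ)) atTop
      (𝓝 (inner ℂ b (ψ w v))) := by
    refine hN.seq A.trf (fun j => E j - E m) w 2 (fun j => ?_) ?_ v b
    · calc ‖E j - E m‖ ≤ ‖E j‖ + ‖E m‖ := norm_sub_le _ _
        _ ≤ 1 + 1 := add_le_add (hEn j) (hEn m)
        _ = 2 := by norm_num
    · refine hEt.congr (fun j => ?_)
      congr 1
      rw [hw]
      show (E j).1 - y.1 = ((E j).1 - (E m).1) - (y.1 - (E m).1)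
      abel
  have hseq2 : ∀ᶠ j in atTop, 3 * c / 4 ≤ ‖(inner ℂ b (ψ (E j - E m) v) : ℂ)‖ := by
    have h1 := hseq.norm
    have h2 : 3 * c / 4 < ‖(inner ℂ b (ψ w v) : ℂ)‖ := by
      rw [hbw]
      linarith
    exact (h1.eventually_const_lt h2).mono (fun j hj => hj.le)
  obtain ⟨n, ⟨hn1, hn2⟩, hn3⟩ := ((hseq2.and hev).and (Filter.eventually_gt_atTop m)).exists
  obtain ⟨V, hV⟩ : ∃ V : RA M, V = E n - E m := ⟨_, rfl⟩
  rw [← hV] at hn1
  have hVn : ‖V‖ ≤ 2 := by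
    rw [hV]
    calc ‖E n - E m‖ ≤ ‖E n‖ + ‖E m‖ := norm_sub_le _ _
      _ ≤ 1 + 1 := add_le_add (hEn n) (hEn m)
      _ = 2 := by norm_num
  have hV2 : n2 ξ V.1 ≤ 2 * τ := by
    have e : V.1 = ((E n).1 - y.1) - ((E m).1 - y.1) := by
      rw [hV]
      show (E n).1 - (E m).1 = _
      abel
    rw [e]
    refine (n2_sub_le A.trf.summ _ _).trans ?_
    linarith
  have hVCP : ∀ i, n ≤ i → CP X Z i V.1 := by
    intro i hi
    rw [hV]
    exact cp_sub (hECP n i hi) (hECP m i (hn3.le.trans hi))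
  have TF : TrF (relc M (posS X Z n)) ξ := A.trf.mono (fun x hx => ((mem_pos hSp).mp hx).1)
  have hVF : V.1 ∈ relc M (posS X Z n) := (mem_pos hSp).mpr ⟨V.2, hVCP⟩
  obtain ⟨q0, hq1, hq2, hq3⟩ := TF.cut V.1 hVF η hη0
  have hq0m := (mem_pos hSp).mp hq1.1
  obtain ⟨q, hq⟩ : ∃ q : RA M, q.1 = q0 := ⟨⟨q0, hq0m.1⟩, rfl⟩
  rw [← hq] at hq1 hq2 hq3 hq0m
  have hkn : k < n := hm2.trans hn3
  obtain ⟨h, h1, h2, h3, h4⟩ := conj_join A k n hkn q hq1.2 hq0m.2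
  have hqs : star q.1 = q.1 := hq1.2.isSelfAdjoint.star_eq
  have hhs : star h.1 = h.1 := h1.isSelfAdjoint.star_eq
  have h3' : q * h = q := by
    apply Subtype.ext
    have e := congrArg star (congrArg Subtype.val h3)
    have e2 : star (h.1 * q.1) = star q.1 := e
    rw [star_mul, hqs, hhs] at e2
    exact e2
  -- the size of `h`
  have hhn : n2 ξ h.1 ≤ δ := by
    have e1 : n2 ξ V.1 ^ 2 ≤ (2 * τ) ^ 2 := pow_le_pow_left₀ (n2_nonneg ξ _) hV2 2
    have e2 : η ^ 2 * n2 ξ q.1 ^ 2 ≤ 8 * τ ^ 2 := by nlinarith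
    have e3 : η ^ 2 * n2 ξ h.1 ^ 2 ≤ 4 ^ (k + 1) * (8 * τ ^ 2) := by
      calc η ^ 2 * n2 ξ h.1 ^ 2 ≤ η ^ 2 * (4 ^ (k + 1) * n2 ξ q.1 ^ 2) :=
            mul_le_mul_of_nonneg_left h4 (by positivity)
        _ = 4 ^ (k + 1) * (η ^ 2 * n2 ξ q.1 ^ 2) := by ring
        _ ≤ 4 ^ (k + 1) * (8 * τ ^ 2) := mul_le_mul_of_nonneg_left e2 (by positivity)
    have e4 : (4 : ℝ) ^ (k + 1) * (8 * τ ^ 2) = η ^ 2 * (δ ^ 2 / 8) := by
      have e5 : (4 : ℝ) ^ (k + 1) = (2 ^ (k + 1)) ^ 2 := by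
        rw [← pow_mul, mul_comm (k + 1) 2, pow_mul]
        norm_num
      rw [hτ, e5]
      field_simp
    rw [e4] at e3
    have e6 : n2 ξ h.1 ^ 2 ≤ δ ^ 2 / 8 := le_of_mul_le_mul_left e3 (by positivity)
    have e7 : n2 ξ h.1 ^ 2 ≤ δ ^ 2 := by nlinarith [sq_nonneg δ]
    exact (sq_le_sq₀ (n2_nonneg ξ _) hδ.le).mp e7
  -- the new piece
  obtain ⟨s', hs'⟩ : ∃ s' : RA M, s' = q * V * q := ⟨_, rfl⟩
  have hs1 : h * s' * h = s' := by
    rw [hs']
    calc h * (q * V * q) * h = (h * q) * V * (q * h) := by simp only [mul_assoc]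
      _ = q * V * q := by rw [h3, h3']
  have hqn : ‖q‖ ≤ 1 := IsStarProjection.norm_le q.1 hq1.2
  have hs2 : ‖s'‖ ≤ 2 := by
    rw [hs']
    calc ‖q * V * q‖ ≤ ‖q * V‖ * ‖q‖ := norm_mul_le _ _
      _ ≤ (‖q‖ * ‖V‖) * ‖q‖ := mul_le_mul_of_nonneg_right (norm_mul_le _ _) (norm_nonneg _)
      _ ≤ (1 * 2) * 1 := by
          apply mul_le_mul _ hqn (norm_nonneg _) (by norm_num)
          exact mul_le_mul hqn hVn (norm_nonneg _) (by norm_num)
      _ = 2 := by norm_num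
  have hs3 : ∀ i, n ≤ i → CP X Z i s'.1 := by
    intro i hi
    rw [hs']
    exact cp_mul (cp_mul (hq0m.2 i hi) (hVCP i hi)) (hq0m.2 i hi)
  have hβ : c / 2 ≤ ‖(inner ℂ b (ψ s' v) : ℂ)‖ := by
    have e1 : ψ s' = ψ V - ψ (V - s') := by rw [map_sub]; abel
    have e2 : (inner ℂ b (ψ s' v) : ℂ) = inner ℂ b (ψ V v) - inner ℂ b (ψ (V - s') v) := by
      rw [e1, sub_apply, inner_sub_right]
    have e3 : ‖(inner ℂ b (ψ (V - s') v) : ℂ)‖ ≤ c / 4 := by
      have e4 : ‖V - s'‖ ≤ 2 * η := by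
        rw [hs']
        exact hq2
      calc ‖(inner ℂ b (ψ (V - s') v) : ℂ)‖ ≤ ‖b‖ * ‖ψ (V - s') v‖ := norm_inner_le_norm _ _
        _ = ‖ψ (V - s') v‖ := by rw [hb1, one_mul]
        _ ≤ ‖ψ (V - s')‖ * ‖v‖ := ContinuousLinearMap.le_opNorm _ _
        _ = ‖ψ (V - s')‖ := by rw [hv1, mul_one]
        _ ≤ ‖ψ‖ * ‖V - s'‖ := ContinuousLinearMap.le_opNorm _ _
        _ ≤ ‖ψ‖ * (2 * η) := mul_le_mul_of_nonneg_left e4 (norm_nonneg _)
        _ ≤ c / 4 := hηψ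
    rw [e2]
    have e5 := norm_sub_norm_le (inner ℂ b (ψ V v) : ℂ) (inner ℂ b (ψ (V - s') v))
    linarith
  rcases le_or_gt (c / 4) ‖(inner ℂ b (ψ (B * (1 - h) + 0) v) : ℂ)‖ with hα | hα
  · refine ⟨n, h, 0, v, b, hkn, h1, h2, hhn, ?_, ?_, ?_, hv1, hb1, hv2, hα⟩
    · intro i _
      exact ⟨by show X i * 0 = 0 * X i; rw [mul_zero, zero_mul],
        by show Z i * 0 = 0 * Z i; rw [mul_zero, zero_mul]⟩
    · rw [mul_zero, zero_mul]
    · rw [norm_zero]; norm_num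
  · refine ⟨n, h, s', v, b, hkn, h1, h2, hhn, hs3, hs1, hs2, hv1, hb1, hv2, ?_⟩
    rw [add_zero] at hα
    have e1 : (inner ℂ b (ψ (B * (1 - h) + s') v) : ℂ) =
        inner ℂ b (ψ (B * (1 - h)) v) + inner ℂ b (ψ s' v) := by
      rw [map_add, add_apply, inner_add_right]
    rw [e1]
    have e2 := norm_sub_norm_le (inner ℂ b (ψ s' v) : ℂ) (-(inner ℂ b (ψ (B * (1 - h)) v)))
    rw [norm_neg, sub_neg_eq_add, add_comm (inner ℂ b (ψ s' v) : ℂ)] at e2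
    linarith

end Pool.Agent.HFT
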