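import Pool.Agent.HFT.Tr2

set_option autoImplicit false
set_option linter.unusedSectionVars false

/-! # Module Rng (3 points): left and right supports have the same trace

`x ∈ M`, `p ∈ M` a projection with `x p = x`; `r` the range projection of `x`
(`vn_range_proj M x hx`: `r ∈ M`, `IsStarProjection r`, `r * x = x`, `r v ∈ closure (range x)`).
Claim `n2 ξ r ≤ n2 ξ p`.

For `t > 0` let `k = (x x* + t)⁻¹`, an element of `M` with `(x x* + t) k = 1 = k (x x* + t)`,
`k` self-adjoint (`cfc` of `t ↦ (u + t)⁻¹` at `x x*`, `vn_cfc_mem`, as in `vn_cutoff` of `HK/VN1`;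
or: the inverse of an invertible element of `M` commutes with `M.commutant`).
Put `s = x x* k ∈ M` and `a = x* k x ∈ M`.

* Basic estimate: for a vector `v` let `y = k x v`, i.e. `x x* y + t y = x v`. Then
  `‖x* y‖² + t ‖y‖² = ⟪x x* y + t y, y⟫ = ⟪x v, y⟫ = ⟪v, x* y⟫ ≤ ‖v‖ ‖x* y‖`. So
  `‖a v‖ = ‖x* y‖ ≤ ‖v‖` (hence `‖a‖ ≤ 1`) and `t ‖y‖² ≤ ‖v‖ ‖x* y‖ - ‖x* y‖² ≤ ‖v‖²`, so
  `‖t y‖ ≤ √t ‖v‖`.
* `s x v = x v - t y`, so `‖s x v - x v‖ ≤ √t ‖v‖`: `s x v → x v` as `t → 0`.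
* `‖s‖ ≤ 1`: `s = x x* k`; for a vector `u` let `y = k u`: `x x* y + t y = u`,
  `‖x x* y‖² ≤ ‖x x* y‖² + 2 t ‖x* y‖² + t² ‖y‖² = ‖u‖²`.
* `s r = s`: `x x* r = x (r x)* = x x*`, `k` commutes with `r` (`r x x* = x x* = x x* r`, so
  `r (x x* + t) = (x x* + t) r`, multiply by `k` on both sides). So `s v = s r v`, and since
  `r v ∈ closure (range x)`, `‖s‖ ≤ 1`, `s` converges to the identity on `range x`: `s v → r v`
  for every `v` as `t → 0` (use `t = 1 / (m + 1)`).
* Trace: `ip 1 s = ip 1 (x * (x* k)) = ip (x*) (x* k)` (`ip_mul_left`) `= ip (star x)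
  (star (k x)) = ip (k x) x` (`TrF.ip_star`), which is the complex conjugate of `ip x (k x) =
  ip 1 (x* k x) = ip 1 a` (`ip_conj`, `ip_mul_left`). So `|ip 1 s| = |ip 1 a|`.
* `a = p a p` (as `x p = x`, `p x* = x*`), so `|ip 1 a| = |ip 1 (p a p)| = |ip p (a p)| ≤
  n2 p * n2 (a p) ≤ ‖a‖ n2 p ^ 2 ≤ n2 p ^ 2`.
* `ip 1 s → ip 1 r`: `|ip 1 (s - r)| ≤ n2 1 * n2 (s - r)` and `n2 (s - r) → 0` by `n2_tendsto`.
  `ip 1 r = ip 1 (r r) = ip r r = n2 r ^ 2`. So `n2 r ^ 2 = lim |ip 1 s| ≤ n2 p ^ 2`. -/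

namespace Pool.Agent.HFT

open Pool.Agent.HK Filter Topology

variable {H : Type} [NormedAddCommGroup H] [InnerProductSpace ℂ H] [CompleteSpace H]
variable {M : VonNeumannAlgebra H} {ξ : ℕ → H}

private theorem rng_estA (x : H →L[ℂ] H) (t : ℝ) (ht : 0 < t) (v y : H)
    (h : x ((star x) y) + (t : ℂ) • y = x v) :
    ‖(star x) y‖ ≤ ‖v‖ ∧ ‖(t : ℂ) • y‖ ≤ Real.sqrt t * ‖v‖ := by
  set w := (star x) y with hw
  have e0 : ∀ a : H, (inner ℂ (x a) y : ℂ) = inner ℂ a w := by
    intro a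
    rw [hw, ContinuousLinearMap.star_eq_adjoint, ContinuousLinearMap.adjoint_inner_right]
  have e1 : (inner ℂ (x w + (t : ℂ) • y) y : ℂ) = ((‖w‖ ^ 2 + t * ‖y‖ ^ 2 : ℝ) : ℂ) := by
    rw [inner_add_left, e0, inner_smul_left, inner_self_eq_norm_sq_to_K,
      inner_self_eq_norm_sq_to_K]
    simp
  have e2 : ‖w‖ ^ 2 + t * ‖y‖ ^ 2 ≤ ‖v‖ * ‖w‖ := by
    have h1 : ‖(inner ℂ (x w + (t : ℂ) • y) y : ℂ)‖ ≤ ‖v‖ * ‖w‖ := by
      rw [h, e0]; exact norm_inner_le_norm v w
    rw [e1, Complex.norm_real, Real.norm_eq_abs, abs_of_nonneg (by positivity)] at h1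
    exact h1
  have hty : 0 ≤ t * ‖y‖ ^ 2 := by positivity
  have e3 : ‖w‖ ≤ ‖v‖ := by
    by_contra hc
    have hc := not_le.mp hc
    have hwp : 0 < ‖w‖ := lt_of_le_of_lt (norm_nonneg v) hc
    nlinarith
  refine ⟨e3, ?_⟩
  have e4 : t * ‖y‖ ^ 2 ≤ ‖v‖ ^ 2 := by nlinarith [norm_nonneg v, norm_nonneg w]
  have e5 : ‖(t : ℂ) • y‖ = t * ‖y‖ := by
    rw [norm_smul, Complex.norm_real, Real.norm_eq_abs, abs_of_pos ht]
  rw [e5]
  have e6 : (Real.sqrt t * ‖v‖) ^ 2 = t * ‖v‖ ^ 2 := by rw [mul_pow, Real.sq_sqrt ht.le]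
  have e7 : (t * ‖y‖) ^ 2 ≤ (Real.sqrt t * ‖v‖) ^ 2 := by
    rw [e6]
    have : (t * ‖y‖) ^ 2 = t * (t * ‖y‖ ^ 2) := by ring
    rw [this]
    exact mul_le_mul_of_nonneg_left e4 ht.le
  exact (pow_le_pow_iff_left₀ (by positivity) (by positivity) two_ne_zero).mp e7

private theorem rng_estB (x : H →L[ℂ] H) (t : ℝ) (ht : 0 < t) (u y : H)
    (h : x ((star x) y) + (t : ℂ) • y = u) : ‖x ((star x) y)‖ ≤ ‖u‖ := by
  set w := (star x) y with hw
  have e0 : ∀ a : H, (inner ℂ (x a) y : ℂ) = inner ℂ a w := by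
    intro a
    rw [hw, ContinuousLinearMap.star_eq_adjoint, ContinuousLinearMap.adjoint_inner_right]
  have e1 : ‖u‖ ^ 2 = ‖x w‖ ^ 2 + 2 * (t * ‖w‖ ^ 2) + ‖(t : ℂ) • y‖ ^ 2 := by
    rw [← h, @norm_add_sq ℂ]
    congr 3
    rw [inner_smul_right, e0, inner_self_eq_norm_sq_to_K]
    have : (t : ℂ) * ((‖w‖ : ℂ)) ^ 2 = ((t * ‖w‖ ^ 2 : ℝ) : ℂ) := by push_cast; ring
    erw [this]
    exact Complex.ofReal_re _
  have e2 : ‖x w‖ ^ 2 ≤ ‖u‖ ^ 2 := by
    rw [e1]
    have h1 : 0 ≤ 2 * (t * ‖w‖ ^ 2) := by positivity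
    have h2 : 0 ≤ ‖(t : ℂ) • y‖ ^ 2 := by positivity
    linarith
  exact (pow_le_pow_iff_left₀ (norm_nonneg _) (norm_nonneg _) two_ne_zero).mp e2

private theorem rng_res (M : VonNeumannAlgebra H) (x : H →L[ℂ] H) (hx : x ∈ M) (t : ℝ)
    (ht : 0 < t) : ∃ k ∈ M, star k = k ∧ (x * star x + (t : ℂ) • 1) * k = 1 ∧
      k * (x * star x + (t : ℂ) • 1) = 1 := by
  set h : H →L[ℂ] H := x * star x with hdef
  have hM : h ∈ M := mul_mem hx (star_mem hx)
  have hpos : 0 ≤ h := mul_star_self_nonneg x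
  have hsa : IsSelfAdjoint h := IsSelfAdjoint.of_nonneg hpos
  have hspec : ∀ s ∈ spectrum ℝ h, 0 ≤ s := fun s hs => spectrum_nonneg_of_nonneg hpos hs
  let f : ℝ → ℝ := fun u => u + t
  let g : ℝ → ℝ := fun u => (u + t)⁻¹
  have hfc : Continuous f := by fun_prop
  have hgc : ContinuousOn g (spectrum ℝ h) := by
    apply ContinuousOn.inv₀
    · exact hfc.continuousOn
    · intro s hs
      have := hspec s hs
      positivity
  have e1 : h + (t : ℂ) • 1 = cfc f h := by
    have : cfc f h = cfc (fun u : ℝ => u) h + cfc (fun _ : ℝ => t) h :=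
      cfc_add h (fun u => u) (fun _ => t) continuous_id.continuousOn continuous_const.continuousOn
    rw [this, cfc_const t h, cfc_id' ℝ h]
    congr 1
  refine ⟨cfc g h, vn_cfc_mem M h hM g, (cfc_predicate g h : IsSelfAdjoint _), ?_, ?_⟩
  · rw [e1, ← cfc_mul f g h hfc.continuousOn hgc]
    have e2 : cfc (fun s => f s * g s) h = cfc (fun _ => (1 : ℝ)) h := by
      apply cfc_congr
      intro s hs
      have := hspec s hs
      exact mul_inv_cancel₀ (by positivity : s + t ≠ 0)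
    rw [e2, cfc_const_one ℝ h]
  · rw [e1, ← cfc_mul g f h hgc hfc.continuousOn]
    have e2 : cfc (fun s => g s * f s) h = cfc (fun _ => (1 : ℝ)) h := by
      apply cfc_congr
      intro s hs
      have := hspec s hs
      exact inv_mul_cancel₀ (by positivity : s + t ≠ 0)
    rw [e2, cfc_const_one ℝ h]

theorem TrF.rng (T : TrF M ξ) (x p : H →L[ℂ] H) (hx : x ∈ M) (hp : PJ M p) (hxp : x * p = x) :
    ∃ r, PJ M r ∧ r * x = x ∧ (∀ v, r v ∈ closure (Set.range x)) ∧ n2 ξ r ≤ n2 ξ p := by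
  have hξ := T.summ
  obtain ⟨r, hrM, hr, hrx, hrcl⟩ := vn_range_proj M x hx
  have hrs : star r = r := hr.isSelfAdjoint
  have hrr : r * r = r := hr.isIdempotentElem
  have hps : star p = p := hp.2.isSelfAdjoint
  refine ⟨r, ⟨hrM, hr⟩, hrx, hrcl, ?_⟩
  have ht : ∀ m : ℕ, (0 : ℝ) < 1 / ((m : ℝ) + 1) := fun m => by positivity
  choose k hkM hks hk1 hk2 using fun m : ℕ => rng_res M x hx (1 / ((m : ℝ) + 1)) (ht m)
  set t : ℕ → ℝ := fun m => 1 / ((m : ℝ) + 1) with htdef
  have ht' : ∀ m, 0 < t m := ht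
  -- the basic equation
  have heq : ∀ m v, x ((star x) (k m v)) + (t m : ℂ) • k m v = v := by
    intro m v
    exact congrArg (fun F : H →L[ℂ] H => F v) (hk1 m)
  have hsn : ∀ m v, ‖(x * star x * k m) v‖ ≤ ‖v‖ := fun m v =>
    rng_estB x (t m) (ht' m) v (k m v) (heq m v)
  have han : ∀ m v, ‖(star x * k m * x) v‖ ≤ ‖v‖ := fun m v =>
    (rng_estA x (t m) (ht' m) v (k m (x v)) (heq m (x v))).1
  have hs1 : ∀ m, ‖x * star x * k m‖ ≤ 1 := fun m =>
    ContinuousLinearMap.opNorm_le_bound _ zero_le_one fun v => by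
      rw [one_mul]; exact hsn m v
  have ha1 : ∀ m, ‖star x * k m * x‖ ≤ 1 := fun m =>
    ContinuousLinearMap.opNorm_le_bound _ zero_le_one fun v => by
      rw [one_mul]; exact han m v
  have hsx : ∀ m v, ‖(x * star x * k m) (x v) - x v‖ ≤ Real.sqrt (t m) * ‖v‖ := by
    intro m v
    have h1 := heq m (x v)
    have h2 : (x * star x * k m) (x v) - x v = -((t m : ℂ) • k m (x v)) := by
      have : (x * star x * k m) (x v) = x ((star x) (k m (x v))) := rfl
      rw [this]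
      rw [← eq_sub_iff_add_eq] at h1
      rw [h1]
      abel
    rw [h2, norm_neg]
    exact (rng_estA x (t m) (ht' m) v (k m (x v)) h1).2
  -- `s r = s`
  have hxr : x * star x * r = x * star x := by
    have : star x * r = star x := by
      have := congrArg star hrx
      rwa [star_mul, hrs] at this
    rw [mul_assoc, this]
  have hrx2 : r * (x * star x) = x * star x := by rw [← mul_assoc, hrx]
  have hkr : ∀ m, k m * r = r * k m := by
    intro m
    set A := x * star x + ((t m : ℝ) : ℂ) • (1 : H →L[ℂ] H) with hA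
    have hAr : A * r = r * A := by
      rw [hA, add_mul, mul_add, hxr, hrx2]
      congr 1
      rw [smul_mul_assoc, mul_smul_comm, one_mul, mul_one]
    have h1 : A * k m = 1 := hk1 m
    have h2 : k m * A = 1 := hk2 m
    calc k m * r = k m * r * (A * k m) := by rw [h1, mul_one]
      _ = k m * (r * A) * k m := by simp only [mul_assoc]
      _ = k m * (A * r) * k m := by rw [hAr]
      _ = (k m * A) * (r * k m) := by simp only [mul_assoc]
      _ = r * k m := by rw [h2, one_mul]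
  have hsr : ∀ m, x * star x * k m * r = x * star x * k m := by
    intro m
    rw [mul_assoc, hkr m, ← mul_assoc, hxr]
  -- strong convergence
  have httend : Tendsto (fun m => Real.sqrt (t m)) atTop (𝓝 0) := by
    have h1 : Tendsto t atTop (𝓝 0) := tendsto_one_div_add_atTop_nhds_zero_nat
    have := (Real.continuous_sqrt.tendsto 0).comp h1
    rwa [Real.sqrt_zero] at this
  have hconv : ∀ v, Tendsto (fun m => (x * star x * k m - r) v) atTop (𝓝 0) := by
    intro v
    rw [tendsto_zero_iff_norm_tendsto_zero, Metric.tendsto_atTop]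
    intro ε hε
    obtain ⟨w, ⟨u, rfl⟩, hu⟩ := Metric.mem_closure_iff.mp (hrcl v) (ε / 4) (by positivity)
    rw [dist_eq_norm] at hu
    have h2 : Tendsto (fun m => Real.sqrt (t m) * ‖u‖) atTop (𝓝 0) := by
      have := httend.mul_const ‖u‖
      rwa [zero_mul] at this
    obtain ⟨N, hN⟩ := Metric.tendsto_atTop.mp h2 (ε / 4) (by positivity)
    refine ⟨N, fun m hm => ?_⟩
    have h3 := hN m hm
    rw [Real.dist_eq, sub_zero, abs_of_nonneg (by positivity)] at h3
    rw [Real.dist_eq, sub_zero, abs_norm]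
    have h4 : (x * star x * k m - r) v = (x * star x * k m) (r v - x u) +
        ((x * star x * k m) (x u) - x u) + (x u - r v) := by
      have : (x * star x * k m) v = (x * star x * k m) (r v) := by
        conv_lhs => rw [← hsr m]
        rfl
      rw [sub_apply, this, map_sub]
      abel
    rw [h4]
    have h5 := norm_add₃_le (a := (x * star x * k m) (r v - x u))
      (b := (x * star x * k m) (x u) - x u) (c := x u - r v)
    have h6 := hsn m (r v - x u)
    have h7 := hsx m u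
    have h8 : ‖x u - r v‖ < ε / 4 := by rw [norm_sub_rev]; exact hu
    linarith
  have hrn : ‖r‖ ≤ 1 := hr.norm_le
  have hn2 : Tendsto (fun m => n2 ξ (x * star x * k m - r)) atTop (𝓝 0) := by
    apply n2_tendsto hξ _ 2
    · intro m
      have := norm_sub_le (x * star x * k m) r
      have := hs1 m
      linarith
    · intro i
      exact hconv (ξ i)
  -- traces
  have hlim : Tendsto (fun m => ip ξ 1 (x * star x * k m)) atTop (𝓝 (ip ξ 1 r)) := by
    rw [tendsto_iff_norm_sub_tendsto_zero]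
    refine squeeze_zero (fun m => norm_nonneg _) (g := fun m => n2 ξ (x * star x * k m - r))
      (fun m => ?_) hn2
    rw [← ip_sub hξ]
    have := ip_le hξ 1 (x * star x * k m - r)
    rwa [T.n2_one, one_mul] at this
  have hb : ∀ m, ‖ip ξ 1 (x * star x * k m)‖ ≤ n2 ξ p ^ 2 := by
    intro m
    have hkx : k m * x ∈ M := mul_mem (hkM m) hx
    have e1 : ip ξ 1 (x * star x * k m) = ip ξ (k m * x) x := by
      have h1 := ip_mul_left ξ (star x) 1 (star x * k m)
      rw [mul_one, star_star] at h1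
      rw [mul_assoc, ← h1]
      have h2 := T.ip_star hx hkx
      rw [star_mul, hks] at h2
      exact h2
    have e2 : ip ξ x (k m * x) = ip ξ 1 (star x * k m * x) := by
      have h1 := ip_mul_left ξ x 1 (k m * x)
      rw [mul_one] at h1
      rw [h1, mul_assoc]
    have e3 : ‖ip ξ 1 (x * star x * k m)‖ = ‖ip ξ 1 (star x * k m * x)‖ := by
      rw [e1, ← e2, ← ip_conj ξ x (k m * x)]
      exact RCLike.norm_conj _
    have hpx : p * star x = star x := by
      have := congrArg star hxp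
      rwa [star_mul, hps] at this
    have e4 : star x * k m * x = star p * (star x * k m * x * p) := by
      rw [hps]
      rw [mul_assoc (star x * k m) x p, hxp, ← mul_assoc, ← mul_assoc, hpx]
    have e5 : ip ξ 1 (star x * k m * x) = ip ξ p (star x * k m * x * p) := by
      have h1 := ip_mul_left ξ p 1 (star x * k m * x * p)
      rw [mul_one] at h1
      rw [h1, ← e4]
    rw [e3, e5]
    calc ‖ip ξ p (star x * k m * x * p)‖ ≤ n2 ξ p * n2 ξ (star x * k m * x * p) := ip_le hξ _ _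
      _ ≤ n2 ξ p * (‖star x * k m * x‖ * n2 ξ p) :=
        mul_le_mul_of_nonneg_left (n2_mul_le hξ _ _) (n2_nonneg ξ p)
      _ ≤ n2 ξ p * (1 * n2 ξ p) := by
        apply mul_le_mul_of_nonneg_left _ (n2_nonneg ξ p)
        exact mul_le_mul_of_nonneg_right (ha1 m) (n2_nonneg ξ p)
      _ = n2 ξ p ^ 2 := by ring
  have hfin : ‖ip ξ 1 r‖ ≤ n2 ξ p ^ 2 := le_of_tendsto hlim.norm (Eventually.of_forall hb)
  have hr2 : ip ξ 1 r = ((n2 ξ r ^ 2 : ℝ) : ℂ) := by
    rw [← ip_self hξ r]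
    have h1 := ip_mul_left ξ r 1 r
    rw [mul_one, hrs, hrr] at h1
    exact h1.symm
  rw [hr2, Complex.norm_real, Real.norm_eq_abs, abs_of_nonneg (by positivity)] at hfin
  exact (pow_le_pow_iff_left₀ (n2_nonneg ξ r) (n2_nonneg ξ p) two_ne_zero).mp hfin

end Pool.Agent.HFT
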