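import Pool.Agent.HFT.Tr1

set_option autoImplicit false
set_option linter.unusedSectionVars false

/-! # Module Spec (2 points): spectral projections

`spec`: as in `vn_cutoff` of `HK/VN1` (copy its proof). `h = star b * b`,
`f t = max 0 (1 - t / ε ^ 2)`, `e = cfc f h ∈ M` (`vn_cfc_mem`), `r₀` = range projection of `e`
(`vn_range_proj`: `r₀ ∈ M`, projection, `r₀ * e = e`, `r₀ x ∈ closure (range e)`). The proof of
`vn_cutoff` shows `‖b * r₀‖ ≤ ε`. Put `r = 1 - r₀`, so `b * (1 - r) = b * r₀`. For the second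
claim let `w = r v`: `e r₀ = e` (adjoint of `r₀ e = e`, `e` is self-adjoint), so
`e w = e r₀ w = 0` as `r₀ w = 0`. Since `f t ≥ 1 - t / ε²`, `0 = ⟪e w, w⟫ ≥ ‖w‖² - ‖b w‖² / ε²`
(`cfc_mono` or `cfc_nonneg` for `f t - (1 - t / ε²) ≥ 0` on the spectrum, as in `vn_cutoff`), so
`ε ‖w‖ ≤ ‖b w‖`.

`TrF.spec`: `ε n2 r ≤ n2 (b * r)` by `n2_le_of_vec` (with `x = r`, `y = b * r`, `c = 1 / ε`), and
`n2 (b * r) ≤ n2 b ‖r‖ ≤ n2 b` by `TrF.n2_mul_le'` (`IsStarProjection.norm_le`). -/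

namespace Pool.Agent.HFT

open Pool.Agent.HK Filter Topology

variable {H : Type} [NormedAddCommGroup H] [InnerProductSpace ℂ H] [CompleteSpace H]
variable {M : VonNeumannAlgebra H} {ξ : ℕ → H}

theorem spec (M : VonNeumannAlgebra H) (b : H →L[ℂ] H) (hb : b ∈ M) (ε : ℝ) (hε : 0 < ε) :
    ∃ r, PJ M r ∧ ‖b * (1 - r)‖ ≤ ε ∧ ∀ v : H, ε * ‖r v‖ ≤ ‖b (r v)‖ := by
  set h : H →L[ℂ] H := star b * b with hdef
  have hM : h ∈ M := mul_mem (star_mem hb) hb
  have hpos : 0 ≤ h := star_mul_self_nonneg b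
  have hsa : IsSelfAdjoint h := IsSelfAdjoint.of_nonneg hpos
  have hspec : ∀ t ∈ spectrum ℝ h, 0 ≤ t := fun t ht => spectrum_nonneg_of_nonneg hpos ht
  let f : ℝ → ℝ := fun t => max 0 (1 - t / ε ^ 2)
  have hfc : Continuous f := by fun_prop
  set e := cfc f h with hedef
  have heM : e ∈ M := vn_cfc_mem M h hM f
  have hesa : IsSelfAdjoint e := cfc_predicate f h
  obtain ⟨r, hrM, hr, hre, hrcl⟩ := vn_range_proj M e heM
  have hee : ∀ x : H, inner ℂ (h x) x = ((‖b x‖ : ℂ)) ^ 2 := by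
    intro x
    have e4 : h x = ContinuousLinearMap.adjoint b (b x) := rfl
    rw [e4, ContinuousLinearMap.adjoint_inner_left, inner_self_eq_norm_sq_to_K]
    rfl
  refine ⟨1 - r, ⟨sub_mem (one_mem M) hrM, hr.one_sub⟩, ?_, ?_⟩
  · -- the norm estimate
    rw [sub_sub_cancel]
    have hT : 0 ≤ cfc (fun t => (ε ^ 2 - t) * (f t * f t)) h := by
      apply cfc_nonneg
      intro t ht
      rcases le_or_gt t (ε ^ 2) with h1 | h1
      · have := mul_self_nonneg (f t)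
        exact mul_nonneg (by linarith) this
      · have h2 : f t = 0 := by
          simp only [f]
          apply max_eq_left
          have : 1 < t / ε ^ 2 := by
            rw [one_lt_div (by positivity)]; exact h1
          linarith
        rw [h2]; simp
    have hTeq : cfc (fun t => (ε ^ 2 - t) * (f t * f t)) h =
        (ε ^ 2 : ℝ) • (e * e) - h * (e * e) := by
      have e1 : cfc (fun t => (ε ^ 2 - t) * (f t * f t)) h =
          cfc (fun t => ε ^ 2 - t) h * cfc (fun t => f t * f t) h :=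
        cfc_mul (fun t => ε ^ 2 - t) (fun t => f t * f t) h (by fun_prop)
          (hfc.mul hfc).continuousOn
      have e2 : cfc (fun t => f t * f t) h = e * e :=
        cfc_mul f f h hfc.continuousOn hfc.continuousOn
      have e3 : cfc (fun t => ε ^ 2 - t) h = algebraMap ℝ _ (ε ^ 2) - h := by
        rw [cfc_sub (fun _ => ε ^ 2) (fun t => t) h continuous_const.continuousOn
          continuous_id.continuousOn, cfc_const (ε ^ 2) h]
        congr 1
        exact cfc_id ℝ h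
      rw [e1, e2, e3, sub_mul, Algebra.smul_def]
    rw [hTeq] at hT
    have hcomm : Commute h e := by
      have : Commute e h := (Commute.refl h).cfc_real f
      exact this.symm
    have hbe : ∀ x, ‖b (e x)‖ ≤ ε * ‖e x‖ := by
      intro x
      have h1 := (ContinuousLinearMap.nonneg_iff_isPositive _).mp hT
      have h2 := h1.re_inner_nonneg_left x
      have h3 : ((ε ^ 2 : ℝ) • (e * e) - h * (e * e)) x =
          ((ε ^ 2 : ℝ) : ℂ) • e (e x) - h (e (e x)) := rfl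
      have hadj : ∀ y z, inner ℂ (e y) z = inner ℂ y (e z) := by
        intro y z
        have h2 := ContinuousLinearMap.adjoint_inner_left e z y
        have h3 : ContinuousLinearMap.adjoint e = e := hesa.star_eq
        rw [h3] at h2
        exact h2
      have hhe : h (e (e x)) = e (h (e x)) := by
        have := congrArg (fun T : H →L[ℂ] H => T (e x)) hcomm.eq
        exact this
      rw [h3, hhe, inner_sub_left, inner_smul_left, hadj (e x) x, hadj (h (e x)) x, hee (e x),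
        inner_self_eq_norm_sq_to_K] at h2
      have h4 : (0 : ℝ) ≤ ε ^ 2 * ‖e x‖ ^ 2 - ‖b (e x)‖ ^ 2 := by
        have h5 : RCLike.re ((starRingEnd ℂ) ((ε ^ 2 : ℝ) : ℂ) * ((‖e x‖ : ℂ)) ^ 2 -
            ((‖b (e x)‖ : ℂ)) ^ 2) = ε ^ 2 * ‖e x‖ ^ 2 - ‖b (e x)‖ ^ 2 := by
          rw [Complex.conj_ofReal]
          have : (((ε ^ 2 : ℝ) : ℂ) * ((‖e x‖ : ℂ)) ^ 2 - ((‖b (e x)‖ : ℂ)) ^ 2) =
              ((ε ^ 2 * ‖e x‖ ^ 2 - ‖b (e x)‖ ^ 2 : ℝ) : ℂ) := by push_cast; ring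
          rw [this]
          exact Complex.ofReal_re _
        rw [← h5]
        exact h2
      have h5 : ‖b (e x)‖ ^ 2 ≤ (ε * ‖e x‖) ^ 2 := by rw [mul_pow]; linarith
      exact (pow_le_pow_iff_left₀ (norm_nonneg _) (by positivity) two_ne_zero).mp h5
    refine ContinuousLinearMap.opNorm_le_bound _ hε.le fun x => ?_
    have hcl : IsClosed {z : H | ‖b z‖ ≤ ε * ‖z‖} :=
      isClosed_le (b.continuous.norm) (continuous_const.mul continuous_norm)
    have h1 : r x ∈ {z : H | ‖b z‖ ≤ ε * ‖z‖} := by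
      refine closure_minimal (?_ : Set.range e ⊆ _) hcl (hrcl x)
      rintro _ ⟨z, rfl⟩
      exact hbe z
    have h2 : ‖b (r x)‖ ≤ ε * ‖r x‖ := h1
    have h3 : ‖r‖ ≤ 1 := IsStarProjection.norm_le r hr
    calc ‖(b * r) x‖ = ‖b (r x)‖ := rfl
      _ ≤ ε * ‖r x‖ := h2
      _ ≤ ε * (‖r‖ * ‖x‖) := by gcongr; exact r.le_opNorm x
      _ ≤ ε * (1 * ‖x‖) := by gcongr
      _ = ε * ‖x‖ := by ring
  · intro v
    have her : e * r = e := by
      have h1 := congrArg star hre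
      rwa [star_mul, hesa.star_eq, hr.isSelfAdjoint.star_eq] at h1
    obtain ⟨w, hw⟩ : ∃ w, w = (1 - r) v := ⟨_, rfl⟩
    rw [← hw]
    have hew : e w = 0 := by
      have h1 : e * (1 - r) = 0 := by rw [mul_sub, mul_one, her, sub_self]
      have h2 := congrArg (fun T : H →L[ℂ] H => T v) h1
      rw [hw]
      exact h2
    have hT : 0 ≤ cfc (fun t => ε ^ 2 * f t - (ε ^ 2 - t)) h := by
      apply cfc_nonneg
      intro t ht
      have h1 : 1 - t / ε ^ 2 ≤ f t := le_max_right _ _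
      have h2 : ε ^ 2 * (1 - t / ε ^ 2) ≤ ε ^ 2 * f t :=
        mul_le_mul_of_nonneg_left h1 (by positivity)
      have h3 : ε ^ 2 * (1 - t / ε ^ 2) = ε ^ 2 - t := by field_simp
      linarith
    have hTeq : cfc (fun t => ε ^ 2 * f t - (ε ^ 2 - t)) h =
        (ε ^ 2 : ℝ) • e - (algebraMap ℝ _ (ε ^ 2) - h) := by
      have e3 : cfc (fun t => ε ^ 2 - t) h = algebraMap ℝ _ (ε ^ 2) - h := by
        rw [cfc_sub (fun _ => ε ^ 2) (fun t => t) h continuous_const.continuousOn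
          continuous_id.continuousOn, cfc_const (ε ^ 2) h]
        congr 1
        exact cfc_id ℝ h
      rw [cfc_sub (fun t => ε ^ 2 * f t) (fun t => ε ^ 2 - t) h
        (continuous_const.mul hfc).continuousOn (by fun_prop), e3,
        cfc_const_mul (ε ^ 2) f h hfc.continuousOn]
    rw [hTeq] at hT
    have h1 := (ContinuousLinearMap.nonneg_iff_isPositive _).mp hT
    have h2 := h1.re_inner_nonneg_left w
    have h3 : ((ε ^ 2 : ℝ) • e - (algebraMap ℝ (H →L[ℂ] H) (ε ^ 2) - h)) w =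
        ((ε ^ 2 : ℝ) : ℂ) • e w - (((ε ^ 2 : ℝ) : ℂ) • w - h w) := rfl
    rw [h3, hew, smul_zero, zero_sub, neg_sub, inner_sub_left, inner_smul_left, hee w,
      inner_self_eq_norm_sq_to_K] at h2
    have h4 : (0 : ℝ) ≤ ‖b w‖ ^ 2 - ε ^ 2 * ‖w‖ ^ 2 := by
      have h5 : RCLike.re (((‖b w‖ : ℂ)) ^ 2 - (starRingEnd ℂ) ((ε ^ 2 : ℝ) : ℂ) *
          ((‖w‖ : ℂ)) ^ 2) = ‖b w‖ ^ 2 - ε ^ 2 * ‖w‖ ^ 2 := by
        rw [Complex.conj_ofReal]
        have : (((‖b w‖ : ℂ)) ^ 2 - ((ε ^ 2 : ℝ) : ℂ) * ((‖w‖ : ℂ)) ^ 2) =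
            ((‖b w‖ ^ 2 - ε ^ 2 * ‖w‖ ^ 2 : ℝ) : ℂ) := by push_cast; ring
        rw [this]
        exact Complex.ofReal_re _
      rw [← h5]
      exact h2
    have h5 : (ε * ‖w‖) ^ 2 ≤ ‖b w‖ ^ 2 := by rw [mul_pow]; linarith
    exact (pow_le_pow_iff_left₀ (by positivity) (norm_nonneg _) two_ne_zero).mp h5

theorem TrF.spec (T : TrF M ξ) (b : H →L[ℂ] H) (hb : b ∈ M) (ε : ℝ) (hε : 0 < ε) :
    ∃ r, PJ M r ∧ ‖b * (1 - r)‖ ≤ ε ∧ ε * n2 ξ r ≤ n2 ξ b := by
  obtain ⟨r, hr, h1, h2⟩ := Pool.Agent.HFT.spec M b hb ε hε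
  refine ⟨r, hr, h1, ?_⟩
  have h3 : n2 ξ r ≤ ε⁻¹ * n2 ξ (b * r) := by
    refine n2_le_of_vec T.summ r (b * r) ε⁻¹ (by positivity) fun i => ?_
    have h4 : ε * ‖r (ξ i)‖ ≤ ‖(b * r) (ξ i)‖ := h2 (ξ i)
    rw [inv_mul_eq_div, le_div_iff₀ hε, mul_comm]
    exact h4
  have h4 : n2 ξ (b * r) ≤ n2 ξ b * ‖r‖ := T.n2_mul_le' hb hr.1
  have h5 : ‖r‖ ≤ 1 := IsStarProjection.norm_le r hr.2
  have h6 : n2 ξ b * ‖r‖ ≤ n2 ξ b * 1 := mul_le_mul_of_nonneg_left h5 (n2_nonneg ξ b)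
  have h7 : ε * n2 ξ r ≤ n2 ξ (b * r) := by
    rw [inv_mul_eq_div, le_div_iff₀ hε, mul_comm] at h3
    exact h3
  linarith

end Pool.Agent.HFT
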