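import Pool.Agent.HFT.Defs

set_option autoImplicit false
set_option linter.unusedSectionVars false

/-! # Module Tr1 (2 points): the `2`-norm and the inner product of `L²`

All elementary. Suggestion: embed everything in the Hilbert space `lp (fun _ : ℕ => H) 2`
(`ℓ²(H)`): for `hξ : Summable (‖ξ i‖²)` every operator `x` gives the element `(x (ξ i))_i`
of `lp (fun _ : ℕ => H) 2` (membership by `‖x (ξ i)‖² ≤ ‖x‖² ‖ξ i‖²`, `memℓp_gen`), additive in
`x`; its norm is `n2 ξ x` (`lp.norm_rpow_eq_tsum`, exponent `2`) and the inner product is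
`ip ξ x y` (`lp.inner_eq_tsum`). Then the triangle inequality and Cauchy-Schwarz are the ones of
this Hilbert space. Everything may also be proved directly.

Trace facts: `TrF.n2_star` is the field `tr`. `TrF.ip_star` by polarisation: both sides of
`ip ξ (star x) (star y) = ip ξ y x` are sesquilinear in `(x, y)` in the same way and agree for
`x = y` (`ip_self`, `n2_star`); apply the case of equal arguments to `x + y`, `x + I y`.
`TrF.ip_mul_right`: `ip ξ (x * b) y = ip ξ (star y) (star b * star x)` (`ip_star`)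
`= ip ξ (b * star y) (star x)` (`ip_mul_left`) `= ip ξ x (y * star b)` (`ip_star`).
`TrF.n2_mul_le'`: `n2 (x b) = n2 (b* x*) ≤ ‖b*‖ n2 (x*)`.
`n2_le`: `‖x (ξ i)‖ ≤ ‖x‖ ‖ξ i‖` and `one`. `n2_orth`: `star p * q = 0` makes the vectors
`p (ξ i)`, `q (ξ i)` orthogonal. -/

namespace Pool.Agent.HFT

open Pool.Agent.HK Filter Topology

variable {H : Type} [NormedAddCommGroup H] [InnerProductSpace ℂ H] [CompleteSpace H]

private theorem tr1_le_of_sq {a b : ℝ} (h : a ^ 2 ≤ b ^ 2) (hb : 0 ≤ b) : a ≤ b :=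
  (le_abs_self a).trans (abs_le_of_sq_le_sq h hb)

theorem smm {ξ : ℕ → H} (hξ : Summable fun i => ‖ξ i‖ ^ 2) (x : H →L[ℂ] H) :
    Summable fun i => ‖x (ξ i)‖ ^ 2 := by
  refine Summable.of_nonneg_of_le (fun i => sq_nonneg _) (fun i => ?_) (hξ.mul_left (‖x‖ ^ 2))
  rw [← mul_pow]
  exact pow_le_pow_left₀ (norm_nonneg _) (x.le_opNorm _) 2

theorem smi {ξ : ℕ → H} (hξ : Summable fun i => ‖ξ i‖ ^ 2) (x y : H →L[ℂ] H) :
    Summable fun i => (inner ℂ (x (ξ i)) (y (ξ i)) : ℂ) := by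
  refine Summable.of_norm_bounded ((smm hξ x).add (smm hξ y)) (fun i => ?_)
  refine (norm_inner_le_norm _ _).trans ?_
  nlinarith [sq_nonneg (‖x (ξ i)‖ - ‖y (ξ i)‖), sq_nonneg ‖x (ξ i)‖, sq_nonneg ‖y (ξ i)‖]

private theorem tr1_mem {ξ : ℕ → H} (hξ : Summable fun i => ‖ξ i‖ ^ 2) (x : H →L[ℂ] H) :
    Memℓp (fun i => x (ξ i)) 2 := by
  refine memℓp_gen ?_
  have := smm hξ x
  simpa using this

private noncomputable def tr1_emb {ξ : ℕ → H} (hξ : Summable fun i => ‖ξ i‖ ^ 2)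
    (x : H →L[ℂ] H) : lp (fun _ : ℕ => H) 2 := ⟨fun i => x (ξ i), tr1_mem hξ x⟩

private theorem tr1_emb_add {ξ : ℕ → H} (hξ : Summable fun i => ‖ξ i‖ ^ 2)
    (x y : H →L[ℂ] H) : tr1_emb hξ (x + y) = tr1_emb hξ x + tr1_emb hξ y := by
  ext i
  rfl

private theorem tr1_inner {ξ : ℕ → H} (hξ : Summable fun i => ‖ξ i‖ ^ 2)
    (x y : H →L[ℂ] H) : inner ℂ (tr1_emb hξ x) (tr1_emb hξ y) = ip ξ x y := by
  rw [lp.inner_eq_tsum]
  rfl

private theorem tr1_norm {ξ : ℕ → H} (hξ : Summable fun i => ‖ξ i‖ ^ 2)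
    (x : H →L[ℂ] H) : ‖tr1_emb hξ x‖ = n2 ξ x := by
  have h1 := lp.norm_rpow_eq_tsum (p := 2) (by norm_num) (tr1_emb hξ x)
  have h2 : ‖tr1_emb hξ x‖ ^ 2 = ∑' i, ‖x (ξ i)‖ ^ 2 := by
    have h3 : (2 : ENNReal).toReal = ((2 : ℕ) : ℝ) := by norm_num
    rw [h3] at h1
    simp only [Real.rpow_natCast] at h1
    exact h1
  unfold n2
  rw [← h2, Real.sqrt_sq (norm_nonneg _)]

theorem n2_nonneg (ξ : ℕ → H) (x : H →L[ℂ] H) : 0 ≤ n2 ξ x := by
  exact Real.sqrt_nonneg _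

theorem n2_sq (ξ : ℕ → H) (x : H →L[ℂ] H) : n2 ξ x ^ 2 = ∑' i, ‖x (ξ i)‖ ^ 2 := by
  exact Real.sq_sqrt (tsum_nonneg fun i => sq_nonneg _)

theorem n2_zero (ξ : ℕ → H) : n2 ξ (0 : H →L[ℂ] H) = 0 := by
  simp [n2]

theorem n2_smul (ξ : ℕ → H) (c : ℂ) (x : H →L[ℂ] H) : n2 ξ (c • x) = ‖c‖ * n2 ξ x := by
  unfold n2
  have h : ∀ i, ‖(c • x) (ξ i)‖ ^ 2 = ‖c‖ ^ 2 * ‖x (ξ i)‖ ^ 2 := by
    intro i
    rw [ContinuousLinearMap.smul_apply, norm_smul, mul_pow]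
  simp only [h]
  rw [tsum_mul_left, Real.sqrt_mul (sq_nonneg _), Real.sqrt_sq (norm_nonneg _)]

theorem n2_neg (ξ : ℕ → H) (x : H →L[ℂ] H) : n2 ξ (-x) = n2 ξ x := by
  unfold n2
  simp only [ContinuousLinearMap.neg_apply, norm_neg]

theorem n2_add_le {ξ : ℕ → H} (hξ : Summable fun i => ‖ξ i‖ ^ 2) (x y : H →L[ℂ] H) :
    n2 ξ (x + y) ≤ n2 ξ x + n2 ξ y := by
  rw [← tr1_norm hξ, ← tr1_norm hξ, ← tr1_norm hξ, tr1_emb_add]
  exact norm_add_le _ _

theorem n2_sub_le {ξ : ℕ → H} (hξ : Summable fun i => ‖ξ i‖ ^ 2) (x y : H →L[ℂ] H) :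
    n2 ξ (x - y) ≤ n2 ξ x + n2 ξ y := by
  rw [sub_eq_add_neg]
  exact (n2_add_le hξ x (-y)).trans (by rw [n2_neg])

theorem n2_sum_le {ξ : ℕ → H} (hξ : Summable fun i => ‖ξ i‖ ^ 2) {ι : Type} (s : Finset ι)
    (x : ι → H →L[ℂ] H) : n2 ξ (∑ i ∈ s, x i) ≤ ∑ i ∈ s, n2 ξ (x i) := by
  classical
  induction s using Finset.induction_on with
  | empty => simp [n2_zero]
  | insert a s ha ih =>
    rw [Finset.sum_insert ha, Finset.sum_insert ha]
    exact (n2_add_le hξ _ _).trans (by gcongr)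

/-- one vector is controlled by the `2`-norm -/
theorem le_n2 {ξ : ℕ → H} (hξ : Summable fun i => ‖ξ i‖ ^ 2) (x : H →L[ℂ] H) (i : ℕ) :
    ‖x (ξ i)‖ ≤ n2 ξ x := by
  rw [← tr1_norm hξ]
  exact lp.norm_apply_le_norm (by norm_num) (tr1_emb hξ x) i

theorem n2_mul_le {ξ : ℕ → H} (hξ : Summable fun i => ‖ξ i‖ ^ 2) (a x : H →L[ℂ] H) :
    n2 ξ (a * x) ≤ ‖a‖ * n2 ξ x := by
  have h1 : n2 ξ (a * x) ^ 2 ≤ (‖a‖ * n2 ξ x) ^ 2 := by
    rw [n2_sq, mul_pow, n2_sq, ← tsum_mul_left]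
    refine (smm hξ (a * x)).tsum_le_tsum (fun i => ?_) ((smm hξ x).mul_left _)
    rw [← mul_pow]
    exact pow_le_pow_left₀ (norm_nonneg _) (a.le_opNorm _) 2
  exact tr1_le_of_sq h1 (mul_nonneg (norm_nonneg _) (n2_nonneg _ _))

theorem ip_self {ξ : ℕ → H} (hξ : Summable fun i => ‖ξ i‖ ^ 2) (x : H →L[ℂ] H) :
    ip ξ x x = ((n2 ξ x ^ 2 : ℝ) : ℂ) := by
  rw [n2_sq]
  unfold ip
  rw [Complex.ofReal_tsum]
  refine tsum_congr fun i => ?_
  rw [inner_self_eq_norm_sq_to_K]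
  norm_cast

theorem ip_conj (ξ : ℕ → H) (x y : H →L[ℂ] H) :
    (starRingEnd ℂ) (ip ξ x y) = ip ξ y x := by
  unfold ip
  rw [Complex.conj_tsum]
  refine tsum_congr fun i => ?_
  exact inner_conj_symm _ _

theorem ip_add {ξ : ℕ → H} (hξ : Summable fun i => ‖ξ i‖ ^ 2) (x y z : H →L[ℂ] H) :
    ip ξ x (y + z) = ip ξ x y + ip ξ x z := by
  unfold ip
  rw [← (smi hξ x y).tsum_add (smi hξ x z)]
  refine tsum_congr fun i => ?_
  rw [ContinuousLinearMap.add_apply, inner_add_right]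

theorem ip_sub {ξ : ℕ → H} (hξ : Summable fun i => ‖ξ i‖ ^ 2) (x y z : H →L[ℂ] H) :
    ip ξ x (y - z) = ip ξ x y - ip ξ x z := by
  unfold ip
  rw [← (smi hξ x y).tsum_sub (smi hξ x z)]
  refine tsum_congr fun i => ?_
  rw [ContinuousLinearMap.sub_apply, inner_sub_right]

theorem ip_smul (ξ : ℕ → H) (c : ℂ) (x y : H →L[ℂ] H) :
    ip ξ x (c • y) = c * ip ξ x y := by
  unfold ip
  rw [← tsum_mul_left]
  refine tsum_congr fun i => ?_
  rw [ContinuousLinearMap.smul_apply, inner_smul_right]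

theorem ip_sum {ξ : ℕ → H} (hξ : Summable fun i => ‖ξ i‖ ^ 2) {ι : Type} (s : Finset ι)
    (x : H →L[ℂ] H) (y : ι → H →L[ℂ] H) : ip ξ x (∑ i ∈ s, y i) = ∑ i ∈ s, ip ξ x (y i) := by
  classical
  induction s using Finset.induction_on with
  | empty => simp [ip]
  | insert a s ha ih =>
    rw [Finset.sum_insert ha, Finset.sum_insert ha, ip_add hξ, ih]

theorem ip_le {ξ : ℕ → H} (hξ : Summable fun i => ‖ξ i‖ ^ 2) (x y : H →L[ℂ] H) :
    ‖ip ξ x y‖ ≤ n2 ξ x * n2 ξ y := by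
  rw [← tr1_norm hξ, ← tr1_norm hξ, ← tr1_inner hξ]
  exact norm_inner_le_norm _ _

theorem ip_mul_left (ξ : ℕ → H) (a x y : H →L[ℂ] H) :
    ip ξ (a * x) y = ip ξ x (star a * y) := by
  unfold ip
  refine tsum_congr fun i => ?_
  rw [ContinuousLinearMap.mul_apply, ContinuousLinearMap.mul_apply,
    ContinuousLinearMap.star_eq_adjoint, ContinuousLinearMap.adjoint_inner_right]

/-- Pythagoras -/
theorem n2_pyth {ξ : ℕ → H} (hξ : Summable fun i => ‖ξ i‖ ^ 2) (x y : H →L[ℂ] H)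
    (h : ip ξ x y = 0) : n2 ξ (x + y) ^ 2 = n2 ξ x ^ 2 + n2 ξ y ^ 2 := by
  have h1 : ip ξ y x = 0 := by rw [← ip_conj, h, map_zero]
  have h2 := ip_self hξ (x + y)
  have h3 : ip ξ (x + y) (x + y) = ip ξ x x + ip ξ y y := by
    rw [ip_add hξ, ← ip_conj ξ x (x + y), ← ip_conj ξ y (x + y), ip_add hξ, ip_add hξ, h, h1,
      add_zero, zero_add, ip_conj, ip_conj]
  rw [h3, ip_self hξ, ip_self hξ] at h2
  exact_mod_cast h2.symm

theorem n2_orth {ξ : ℕ → H} (hξ : Summable fun i => ‖ξ i‖ ^ 2) (x y : H →L[ℂ] H)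
    (h : star x * y = 0) : n2 ξ (x + y) ^ 2 = n2 ξ x ^ 2 + n2 ξ y ^ 2 := by
  refine n2_pyth hξ x y ?_
  have h1 := ip_mul_left ξ x 1 y
  rw [mul_one, h] at h1
  rw [h1]
  simp [ip]

/-- if `ξ` is a square summable family, then so is `‖x (ξ i)‖` and a pointwise bound gives a
bound of the `2`-norms -/
theorem n2_le_of_vec {ξ : ℕ → H} (hξ : Summable fun i => ‖ξ i‖ ^ 2) (x y : H →L[ℂ] H) (c : ℝ)
    (hc : 0 ≤ c) (h : ∀ i, ‖x (ξ i)‖ ≤ c * ‖y (ξ i)‖) : n2 ξ x ≤ c * n2 ξ y := by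
  have h1 : n2 ξ x ^ 2 ≤ (c * n2 ξ y) ^ 2 := by
    rw [n2_sq, mul_pow, n2_sq, ← tsum_mul_left]
    refine (smm hξ x).tsum_le_tsum (fun i => ?_) ((smm hξ y).mul_left _)
    rw [← mul_pow]
    exact pow_le_pow_left₀ (norm_nonneg _) (h i) 2
  exact tr1_le_of_sq h1 (mul_nonneg hc (n2_nonneg _ _))

section tr

variable {M : VonNeumannAlgebra H} {ξ : ℕ → H}

theorem TrF.summ (T : TrF M ξ) : Summable fun i => ‖ξ i‖ ^ 2 := T.one.summable

theorem TrF.n2_one (T : TrF M ξ) : n2 ξ (1 : H →L[ℂ] H) = 1 := by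
  unfold n2
  simp only [ContinuousLinearMap.one_apply]
  rw [T.one.tsum_eq, Real.sqrt_one]

theorem TrF.n2_le (T : TrF M ξ) (x : H →L[ℂ] H) : n2 ξ x ≤ ‖x‖ := by
  have h := n2_mul_le T.summ x 1
  rwa [mul_one, T.n2_one, mul_one] at h

theorem TrF.n2_star (T : TrF M ξ) {x : H →L[ℂ] H} (hx : x ∈ M) : n2 ξ (star x) = n2 ξ x := by
  unfold n2
  rw [T.tr x hx]

private theorem tr1_smul_mem (c : ℂ) {x : H →L[ℂ] H} (hx : x ∈ M) : c • x ∈ M := by
  exact M.toStarSubalgebra.smul_mem hx c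

theorem TrF.ip_star (T : TrF M ξ) {x y : H →L[ℂ] H} (hx : x ∈ M) (hy : y ∈ M) :
    ip ξ (star x) (star y) = ip ξ y x := by
  have hs := T.summ
  have key : ∀ z ∈ M, ip ξ (star z) (star z) = ip ξ z z := by
    intro z hz
    rw [ip_self hs, ip_self hs, T.n2_star hz]
  have hadd : ∀ x y z : H →L[ℂ] H, ip ξ (x + y) z = ip ξ x z + ip ξ y z := by
    intro x y z
    rw [← ip_conj, ip_add hs, map_add, ip_conj, ip_conj]
  have hsmul : ∀ (c : ℂ) (x y : H →L[ℂ] H), ip ξ (c • x) y = (starRingEnd ℂ) c * ip ξ x y := by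
    intro c x y
    rw [← ip_conj, ip_smul, map_mul, ip_conj]
  have h1 := key (x + y) (add_mem hx hy)
  have h2 := key (x + Complex.I • y) (add_mem hx (tr1_smul_mem Complex.I hy))
  have e0 : star (Complex.I • y) = (-Complex.I) • star y := by
    rw [star_smul]
    congr 1
    simp
  rw [star_add] at h1 h2
  rw [e0] at h2
  rw [hadd, ip_add hs, ip_add hs, hadd, ip_add hs, ip_add hs, key x hx, key y hy] at h1
  rw [hadd, ip_add hs, ip_add hs, hadd, ip_add hs, ip_add hs, key x hx] at h2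
  simp only [hsmul, ip_smul, key y hy, map_neg, Complex.conj_I] at h2
  have h3 : Complex.I * Complex.I = -1 := Complex.I_mul_I
  have h4 : ip ξ (star x) (star y) + ip ξ (star y) (star x) = ip ξ x y + ip ξ y x := by
    linear_combination h1
  have h5 : -ip ξ (star x) (star y) + ip ξ (star y) (star x) = ip ξ x y - ip ξ y x := by
    have h6 : Complex.I * (-ip ξ (star x) (star y) + ip ξ (star y) (star x)) =
        Complex.I * (ip ξ x y - ip ξ y x) := by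
      linear_combination h2
    exact mul_left_cancel₀ Complex.I_ne_zero h6
  linear_combination (h4 - h5) / 2

theorem TrF.ip_mul_right (T : TrF M ξ) {x y b : H →L[ℂ] H} (hx : x ∈ M) (hy : y ∈ M)
    (hb : b ∈ M) : ip ξ (x * b) y = ip ξ x (y * star b) := by
  have hxb : x * b ∈ M := mul_mem hx hb
  have h1 : ip ξ (x * b) y = ip ξ (star y) (star (x * b)) := (T.ip_star hy hxb).symm
  have h2 : ip ξ (b * star y) (star x) = ip ξ (star y) (star b * star x) :=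
    ip_mul_left ξ b (star y) (star x)
  have h3 : ip ξ (star (y * star b)) (star x) = ip ξ x (y * star b) :=
    T.ip_star (mul_mem hy (star_mem hb)) hx
  rw [h1, star_mul, ← h2, ← h3, star_mul, star_star]

theorem TrF.n2_mul_le' (T : TrF M ξ) {x b : H →L[ℂ] H} (hx : x ∈ M) (hb : b ∈ M) :
    n2 ξ (x * b) ≤ n2 ξ x * ‖b‖ := by
  rw [← T.n2_star (mul_mem hx hb), star_mul]
  refine (n2_mul_le T.summ (star b) (star x)).trans ?_
  rw [T.n2_star hx, norm_star, mul_comm]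

theorem TrF.eq_zero (T : TrF M ξ) {x : H →L[ℂ] H} (hx : x ∈ M) (h : n2 ξ x = 0) : x = 0 := by
  refine T.faith x hx fun i => ?_
  have h1 := le_n2 T.summ x i
  rw [h] at h1
  exact norm_le_zero_iff.1 h1

theorem TrF.mono (T : TrF M ξ) {N : VonNeumannAlgebra H} (h : ∀ x ∈ N, x ∈ M) : TrF N ξ :=
  ⟨T.one, fun x hx => T.tr x (h x hx), fun x hx => T.faith x (h x hx)⟩

end tr

end Pool.Agent.HFT
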