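import Pool.Agent.HFT.W1
import Pool.Agent.HFT.Tr2

set_option autoImplicit false
set_option linter.unusedSectionVars false

/-! # Module W2 (3 points): orthonormality of the words and the projections `Ek`

`ip_wd`: `ip (wd s) (wd t) = ip 1 (star (wd s) * wd t) = ± ip 1 (wd (sd s t))` (`ip_mul_left`,
`Spin.star_wd`, `Spin.mul_wd`), and `sd s t ≠ (∅, ∅)` for `s ≠ t`; `ip 1 1 = 1`. Now `ip 1 w = 0` for a
word `w = wd u`, `u ≠ (∅, ∅)`: if `i ∈ u.1` then `Z i w Z i = - w` (`Spin.commZ`), and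
`ip 1 w = ip (Z i * Z i) w = ip (Z i) (w * Z i)` (`TrF.ip_mul_right` with `x = b = Z i`, `y = w`)
`= ip 1 (Z i * (w * Z i))` (`ip_mul_left` with `a = Z i`, `x = 1`) `= - ip 1 w`. If `i ∈ u.2` use `X i`.

`adjoin_span`: every element of `Algebra.adjoin ℂ (range X ∪ range Z)` is a finite combination of
words: `Algebra.adjoin_induction`; the set of `∑ s ∈ Qk k, c s • wd s` (some `k`, `c`) contains `1`,
`X i`, `Z i`, is closed under `+`, scalars and products (`Spin.mul_wd`); conveniently: it is the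
submodule `Submodule.span ℂ (range (wd X Z))`, a span is closed under products if products of
generators are; at the end write an element of the span as a sum over `Qk k`
(`Finsupp.mem_span_range_iff_exists_finsupp`, support inside `Qk k` for large `k`).

`Ek`: for `x` any operator, `z = x - Ek k x` satisfies `ip (wd s) z = 0` for `s ∈ Qk k` (`ip_wd`).
So for `y = ∑ s ∈ Qk k, c s • wd s`: `n2 (x - y)² = n2 (x - Ek k x)² + n2 (Ek k x - y)²`
(`n2_pyth`). Consequences: `n2_Ek_le` (`y = 0`), best approximation, and with `dense`: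
`Ek_tendsto`: for `ε` there are `k₀` and `y` in the span of `Qk k₀` with `n2 (x - y) < ε`; for `k ≥ k₀`,
`n2 (x - Ek k x) ≤ n2 (x - y)` (`Qk_mono`, extend `c` by zero). -/

namespace Pool.Agent.HFT

open Pool.Agent.HK Filter Topology

variable {H : Type} [NormedAddCommGroup H] [InnerProductSpace ℂ H] [CompleteSpace H]
variable {M : VonNeumannAlgebra H} {ξ : ℕ → H} {X Z : ℕ → H →L[ℂ] H}

private theorem W2_anti (T : TrF M ξ) {V w : H →L[ℂ] H} (hV : V ∈ M) (hs : star V = V)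
    (h2 : V * V = 1) (hw : w ∈ M) (ha : V * w = -(w * V)) : ip ξ 1 w = 0 := by
  have h1 : ip ξ 1 w = ip ξ (V * V) w := by rw [h2]
  have h3 : ip ξ (V * V) w = ip ξ V (w * V) := by
    rw [T.ip_mul_right hV hw hV, hs]
  have h4 : ip ξ V (w * V) = ip ξ 1 (V * (w * V)) := by
    have := ip_mul_left ξ V 1 (w * V)
    rw [mul_one, hs] at this
    exact this
  have h5 : V * (w * V) = (-1 : ℂ) • w := by
    have : w * V = -(V * w) := by rw [ha, neg_neg]
    rw [this, mul_neg, ← mul_assoc, h2, one_mul, neg_smul, one_smul]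
  have h6 : ip ξ 1 w = -1 * ip ξ 1 w := by
    rw [← ip_smul, ← h5, ← h4, ← h3, ← h1]
  have h7 : (2 : ℂ) * ip ξ 1 w = 0 := by linear_combination h6
  exact (mul_eq_zero.1 h7).resolve_left two_ne_zero

private theorem W2_tr (T : TrF M ξ) (S : Spin M X Z) (u : Finset ℕ × Finset ℕ)
    (hu : u ≠ (∅, ∅)) : ip ξ 1 (wd X Z u) = 0 := by
  by_cases h1 : u.1 = ∅
  · have h2 : u.2 ≠ ∅ := by
      intro h2
      exact hu (Prod.ext h1 h2)
    obtain ⟨i, hi⟩ := Finset.nonempty_iff_ne_empty.2 h2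
    exact W2_anti T (S.Xm i) (S.Xs i) (S.X2 i) (S.mem_wd u) ((S.commX i u).2 hi)
  · obtain ⟨i, hi⟩ := Finset.nonempty_iff_ne_empty.2 h1
    exact W2_anti T (S.Zm i) (S.Zs i) (S.Z2 i) (S.mem_wd u) ((S.commZ i u).2 hi)

theorem ip_wd (T : TrF M ξ) (S : Spin M X Z) (s t : Finset ℕ × Finset ℕ) :
    ip ξ (wd X Z s) (wd X Z t) = if s = t then 1 else 0 := by
  have h0 : ip ξ (wd X Z s) (wd X Z t) = ip ξ 1 (star (wd X Z s) * wd X Z t) := by
    have := ip_mul_left ξ (wd X Z s) 1 (wd X Z t)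
    rwa [mul_one] at this
  rw [h0]
  by_cases hst : s = t
  · subst hst
    rw [if_pos rfl, (S.unit_wd s).1, ip_self T.summ, T.n2_one]
    simp
  · rw [if_neg hst]
    obtain ⟨e1, -, h1⟩ := S.star_wd s
    obtain ⟨e2, -, h2⟩ := S.mul_wd s t
    rw [h1, smul_mul_assoc, h2, ip_smul, ip_smul, W2_tr T S, mul_zero, mul_zero]
    intro h3
    apply hst
    have h4 := sd_sd s t
    rw [h3, ← sd_self t, sd_sd] at h4
    exact h4.symm

theorem adjoin_span (S : Spin M X Z) (y : H →L[ℂ] H)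
    (hy : y ∈ Algebra.adjoin ℂ (Set.range X ∪ Set.range Z)) :
    ∃ (k : ℕ) (c : Finset ℕ × Finset ℕ → ℂ), y = ∑ s ∈ Qk k, c s • wd X Z s := by
  classical
  have hmul : ∀ a ∈ Submodule.span ℂ (Set.range (wd X Z)),
      ∀ b ∈ Submodule.span ℂ (Set.range (wd X Z)),
      a * b ∈ Submodule.span ℂ (Set.range (wd X Z)) := by
    intro a ha b hb
    refine Submodule.span_induction (p := fun a _ => a * b ∈ Submodule.span ℂ (Set.range (wd X Z)))
      ?_ ?_ ?_ ?_ ha
    · rintro _ ⟨s, rfl⟩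
      refine Submodule.span_induction
        (p := fun b _ => wd X Z s * b ∈ Submodule.span ℂ (Set.range (wd X Z))) ?_ ?_ ?_ ?_ hb
      · rintro _ ⟨t, rfl⟩
        obtain ⟨e, -, h⟩ := S.mul_wd s t
        rw [h]
        exact Submodule.smul_mem _ _ (Submodule.subset_span ⟨_, rfl⟩)
      · rw [mul_zero]; exact Submodule.zero_mem _
      · intro u v _ _ hu hv
        rw [mul_add]; exact Submodule.add_mem _ hu hv
      · intro c u _ hu
        rw [mul_smul_comm]; exact Submodule.smul_mem _ _ hu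
    · rw [zero_mul]; exact Submodule.zero_mem _
    · intro u v _ _ hu hv
      rw [add_mul]; exact Submodule.add_mem _ hu hv
    · intro c u _ hu
      rw [smul_mul_assoc]; exact Submodule.smul_mem _ _ hu
  have h1 : (1 : H →L[ℂ] H) ∈ Submodule.span ℂ (Set.range (wd X Z)) :=
    Submodule.subset_span ⟨(∅, ∅), wd_empty⟩
  have hspan : y ∈ Submodule.span ℂ (Set.range (wd X Z)) := by
    refine Algebra.adjoin_induction
      (p := fun y _ => y ∈ Submodule.span ℂ (Set.range (wd X Z))) ?_ ?_ ?_ ?_ hy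
    · rintro u (⟨i, rfl⟩ | ⟨i, rfl⟩)
      · exact Submodule.subset_span ⟨({i}, ∅), wd_X i⟩
      · exact Submodule.subset_span ⟨(∅, {i}), wd_Z i⟩
    · intro r
      rw [Algebra.algebraMap_eq_smul_one]
      exact Submodule.smul_mem _ _ h1
    · intro u v _ _ hu hv
      exact Submodule.add_mem _ hu hv
    · intro u v _ _ hu hv
      exact hmul u hu v hv
  obtain ⟨c, hc⟩ := (Finsupp.mem_span_range_iff_exists_finsupp).1 hspan
  choose f hf using exists_Qk
  refine ⟨c.support.sup f, fun s => c s, ?_⟩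
  rw [← hc, Finsupp.sum]
  refine Finset.sum_subset ?_ ?_
  · intro s hs
    exact Qk_mono (Finset.le_sup (f := f) hs) (hf s)
  · intro s _ hs
    rw [Finsupp.notMem_support_iff.1 hs, zero_smul]

theorem Ek_mem (S : Spin M X Z) (k : ℕ) (x : H →L[ℂ] H) : Ek ξ X Z k x ∈ M := by
  unfold Ek
  refine sum_mem fun s _ => ?_
  exact M.toStarSubalgebra.smul_mem (S.mem_wd s) _

theorem Ek_add (T : TrF M ξ) (k : ℕ) (x y : H →L[ℂ] H) :
    Ek ξ X Z k (x + y) = Ek ξ X Z k x + Ek ξ X Z k y := by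
  unfold Ek
  rw [← Finset.sum_add_distrib]
  exact Finset.sum_congr rfl fun s _ => by rw [ip_add T.summ, add_smul]

theorem Ek_smul (c : ℂ) (k : ℕ) (x : H →L[ℂ] H) :
    Ek ξ X Z k (c • x) = c • Ek ξ X Z k x := by
  unfold Ek
  rw [Finset.smul_sum]
  exact Finset.sum_congr rfl fun s _ => by rw [ip_smul, smul_smul]

theorem Ek_sub (T : TrF M ξ) (k : ℕ) (x y : H →L[ℂ] H) :
    Ek ξ X Z k (x - y) = Ek ξ X Z k x - Ek ξ X Z k y := by
  unfold Ek
  rw [← Finset.sum_sub_distrib]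
  exact Finset.sum_congr rfl fun s _ => by rw [ip_sub T.summ, sub_smul]

theorem Ek_wd (T : TrF M ξ) (S : Spin M X Z) (k : ℕ) (s : Finset ℕ × Finset ℕ) :
    Ek ξ X Z k (wd X Z s) = if s ∈ Qk k then wd X Z s else 0 := by
  classical
  unfold Ek
  simp_rw [ip_wd T S]
  simp only [ite_smul, one_smul, zero_smul]
  rw [Finset.sum_ite_eq' (Qk k) s (fun t => wd X Z t)]

theorem ip_Ek (T : TrF M ξ) (S : Spin M X Z) (k : ℕ) (x : H →L[ℂ] H) (s : Finset ℕ × Finset ℕ) :
    ip ξ (wd X Z s) (Ek ξ X Z k x) = if s ∈ Qk k then ip ξ (wd X Z s) x else 0 := by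
  classical
  unfold Ek
  rw [ip_sum T.summ]
  simp_rw [ip_smul, ip_wd T S, mul_ite, mul_one, mul_zero]
  rw [Finset.sum_ite_eq (Qk k) s (fun t => ip ξ (wd X Z t) x)]

private theorem W2_orth (T : TrF M ξ) (S : Spin M X Z) (k : ℕ) (x : H →L[ℂ] H)
    (d : Finset ℕ × Finset ℕ → ℂ) :
    ip ξ (x - Ek ξ X Z k x) (∑ s ∈ Qk k, d s • wd X Z s) = 0 := by
  rw [ip_sum T.summ]
  refine Finset.sum_eq_zero fun s hs => ?_
  rw [ip_smul, ← ip_conj, ip_sub T.summ, ip_Ek T S, if_pos hs, sub_self, map_zero, mul_zero]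

private theorem W2_best (T : TrF M ξ) (S : Spin M X Z) (k : ℕ) (x : H →L[ℂ] H)
    (d : Finset ℕ × Finset ℕ → ℂ) :
    n2 ξ (x - Ek ξ X Z k x) ≤ n2 ξ (x - ∑ s ∈ Qk k, d s • wd X Z s) := by
  have h1 : x - ∑ s ∈ Qk k, d s • wd X Z s = (x - Ek ξ X Z k x) +
      ∑ s ∈ Qk k, (ip ξ (wd X Z s) x - d s) • wd X Z s := by
    have : ∑ s ∈ Qk k, (ip ξ (wd X Z s) x - d s) • wd X Z s =
        Ek ξ X Z k x - ∑ s ∈ Qk k, d s • wd X Z s := by
      unfold Ek
      rw [← Finset.sum_sub_distrib]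
      exact Finset.sum_congr rfl fun s _ => by rw [sub_smul]
    rw [this]
    abel
  have h2 := n2_pyth T.summ (x - Ek ξ X Z k x)
    (∑ s ∈ Qk k, (ip ξ (wd X Z s) x - d s) • wd X Z s) (W2_orth T S k x _)
  rw [← h1] at h2
  have h3 : n2 ξ (x - Ek ξ X Z k x) ^ 2 ≤ n2 ξ (x - ∑ s ∈ Qk k, d s • wd X Z s) ^ 2 := by
    rw [h2]
    have := sq_nonneg (n2 ξ (∑ s ∈ Qk k, (ip ξ (wd X Z s) x - d s) • wd X Z s))
    linarith
  exact le_of_sq_le_sq h3 (n2_nonneg _ _)

theorem n2_Ek_le (T : TrF M ξ) (S : Spin M X Z) (k : ℕ) (x : H →L[ℂ] H) :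
    n2 ξ (Ek ξ X Z k x) ≤ n2 ξ x := by
  have h2 := n2_pyth T.summ (x - Ek ξ X Z k x) (Ek ξ X Z k x) (by
    have := W2_orth T S k x (fun s => ip ξ (wd X Z s) x)
    exact this)
  rw [sub_add_cancel] at h2
  have h3 : n2 ξ (Ek ξ X Z k x) ^ 2 ≤ n2 ξ x ^ 2 := by
    rw [h2]
    have := sq_nonneg (n2 ξ (x - Ek ξ X Z k x))
    linarith
  exact le_of_sq_le_sq h3 (n2_nonneg _ _)

theorem Hyp.Ek_tendsto (A : Hyp M ξ X Z) (x : H →L[ℂ] H) (hx : x ∈ M) :
    Tendsto (fun k => n2 ξ (Ek ξ X Z k x - x)) atTop (𝓝 0) := by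
  classical
  rw [Metric.tendsto_atTop]
  intro ε hε
  obtain ⟨y, hy, hxy⟩ := A.dense x hx ε hε
  obtain ⟨k0, c, rfl⟩ := adjoin_span A.spin y hy
  refine ⟨k0, fun k hk => ?_⟩
  rw [Real.dist_eq, sub_zero, abs_of_nonneg (n2_nonneg _ _)]
  have h1 : Ek ξ X Z k x - x = -(x - Ek ξ X Z k x) := by abel
  rw [h1, n2_neg]
  have h2 : ∑ s ∈ Qk k0, c s • wd X Z s =
      ∑ s ∈ Qk k, (if s ∈ Qk k0 then c s else 0) • wd X Z s := by
    symm
    rw [← Finset.sum_subset (Qk_mono hk) (f := fun s => (if s ∈ Qk k0 then c s else 0) • wd X Z s)]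
    · exact Finset.sum_congr rfl fun s hs => by simp [hs]
    · intro s _ hs
      simp [hs]
  rw [h2] at hxy
  exact (W2_best A.trf A.spin k x _).trans_lt hxy

/-- an element of `M` with zero coefficients is zero -/
theorem Hyp.eq_zero (A : Hyp M ξ X Z) (x : H →L[ℂ] H) (hx : x ∈ M)
    (h : ∀ s, ip ξ (wd X Z s) x = 0) : x = 0 := by
  have h1 : ∀ k, Ek ξ X Z k x = 0 := by
    intro k
    unfold Ek
    exact Finset.sum_eq_zero fun s _ => by rw [h s, zero_smul]
  have h2 := A.Ek_tendsto x hx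
  simp only [h1, zero_sub, n2_neg] at h2
  have h3 : n2 ξ x = 0 := tendsto_nhds_unique tendsto_const_nhds h2
  exact A.trf.eq_zero hx h3

/-- an element of `M` whose coefficients outside `Qk k` vanish is a combination of words -/
theorem Hyp.eq_Ek (A : Hyp M ξ X Z) (x : H →L[ℂ] H) (hx : x ∈ M) (k : ℕ)
    (h : ∀ s, s ∉ Qk k → ip ξ (wd X Z s) x = 0) : x = Ek ξ X Z k x := by
  have h1 := A.eq_zero (x - Ek ξ X Z k x) (sub_mem hx (Ek_mem A.spin k x)) (by
    intro s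
    rw [ip_sub A.trf.summ, ip_Ek A.trf A.spin]
    by_cases hs : s ∈ Qk k
    · rw [if_pos hs, sub_self]
    · rw [if_neg hs, sub_zero, h s hs])
  exact sub_eq_zero.1 h1

end Pool.Agent.HFT
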