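import Pool.Agent.HFT.G2b
import Pool.Agent.HFT.Dn

set_option autoImplicit false
set_option linter.unusedSectionVars false

/-! # Module X0 (4 points): central sequences of a factor

`G : GamF N ξ d` (only `trf`, `dm`, `dd`, `cen` are used here).
* `GamF.central`: `x ∈ N` commuting with all `d i` is scalar: for `y ∈ N` and `ε` take `d i` with
  `n2 (y - d i) < ε`: `x y - y x = x (y - d i) - (y - d i) x`, `n2 ≤ 2 ‖x‖ ε`, so `x y = y x`
  (`TrF.eq_zero`); `cen`.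
* `GamF.uL_scalar`: `u l ∈ N` bounded by `C`, `n2 (u l * d i - d i * u l) → 0` for all `i`. Then
  `uL u ∈ N` (`uL_mem`, G2b) and it commutes with `d i`: for bounded `w l ∈ N` with `n2 (w l) → 0` one has
  `w l v → 0` (`TrF.sot`), so `uL w = 0` (`uL_of_tendsto`, G0); `w l = u l d i - d i u l`. So `uL u = λ • 1`.
* `tr_uL`: `ip ξ 1 (u l * b) = ∑ ⟪ξ i, u l (b ξ i)⟫ → ∑ ⟪ξ i, λ b ξ i⟫` along the hyperfilter, if
  `uL u = λ • 1`: `tendsto_tsum_of_dominated_convergence` (it holds for every filter), dominated by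
  `C ‖b‖ ‖ξ i‖²`, pointwise `uL_tendsto`. (`ip ξ 1 x = ∑' ⟪ξ i, x ξ i⟫`.) -/

namespace Pool.Agent.HFT

open Pool.Agent.HK Filter Topology

variable {H : Type} [NormedAddCommGroup H] [InnerProductSpace ℂ H] [CompleteSpace H]
variable {N : VonNeumannAlgebra H} {ξ : ℕ → H} {d : ℕ → H →L[ℂ] H}

theorem GamF.central (G : GamF N ξ d) {x : H →L[ℂ] H} (hx : x ∈ N)
    (h : ∀ i, x * d i = d i * x) : ∃ c : ℂ, x = c • (1 : H →L[ℂ] H) := by
  refine G.cen x hx fun y hy => ?_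
  have hxy : x * y - y * x ∈ N := sub_mem (mul_mem hx hy) (mul_mem hy hx)
  have h0 : n2 ξ (x * y - y * x) = 0 := by
    refine le_antisymm (le_of_forall_pos_le_add fun ε hε => ?_) (n2_nonneg _ _)
    have hpos : 0 < ε / (2 * ‖x‖ + 1) := by positivity
    obtain ⟨i, hi⟩ := G.dd y hy _ hpos
    have hyd : y - d i ∈ N := sub_mem hy (G.dm i)
    have e1 : x * y - y * x = x * (y - d i) - (y - d i) * x := by
      rw [mul_sub, sub_mul, h i]
      abel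
    have e2 : n2 ξ (x * y - y * x) ≤ ‖x‖ * n2 ξ (y - d i) + n2 ξ (y - d i) * ‖x‖ := by
      rw [e1]
      exact (n2_sub_le G.trf.summ _ _).trans
        (add_le_add (n2_mul_le G.trf.summ _ _) (G.trf.n2_mul_le' hyd hx))
    have e3 : ‖x‖ * n2 ξ (y - d i) ≤ ‖x‖ * (ε / (2 * ‖x‖ + 1)) :=
      mul_le_mul_of_nonneg_left hi.le (norm_nonneg _)
    have e4 : 2 * (‖x‖ * (ε / (2 * ‖x‖ + 1))) ≤ ε := by
      have h5 : 0 < 2 * ‖x‖ + 1 := by positivity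
      have h6 : 2 * (‖x‖ * (ε / (2 * ‖x‖ + 1))) = ε * (2 * ‖x‖) / (2 * ‖x‖ + 1) := by
        field_simp
      rw [h6, div_le_iff₀ h5]
      nlinarith
    have e5 : n2 ξ (y - d i) * ‖x‖ = ‖x‖ * n2 ξ (y - d i) := mul_comm _ _
    linarith
  exact sub_eq_zero.1 (G.trf.eq_zero hxy h0)

theorem GamF.uL_scalar (G : GamF N ξ d) (u : ℕ → H →L[ℂ] H) (hu : ∀ l, u l ∈ N) (C : ℝ)
    (hC : ∀ l, ‖u l‖ ≤ C)
    (h : ∀ i, Tendsto (fun l => n2 ξ (u l * d i - d i * u l)) atTop (𝓝 0)) :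
    ∃ c : ℂ, uL u = c • (1 : H →L[ℂ] H) := by
  refine G.central (uL_mem N hC hu) fun i => ?_
  have hC0 : 0 ≤ C := (norm_nonneg _).trans (hC 0)
  have b1 : ∀ l, ‖u l * d i‖ ≤ C * ‖d i‖ := fun l =>
    (norm_mul_le _ _).trans (mul_le_mul_of_nonneg_right (hC l) (norm_nonneg _))
  have b2 : ∀ l, ‖d i * u l‖ ≤ C * ‖d i‖ := fun l => by
    rw [mul_comm C]
    exact (norm_mul_le _ _).trans (mul_le_mul_of_nonneg_left (hC l) (norm_nonneg _))
  have b3 : ∀ l, ‖u l * d i - d i * u l‖ ≤ C * ‖d i‖ + C * ‖d i‖ := fun l =>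
    (norm_sub_le _ _).trans (add_le_add (b1 l) (b2 l))
  have hm : ∀ l, u l * d i - d i * u l ∈ N := fun l =>
    sub_mem (mul_mem (hu l) (G.dm i)) (mul_mem (G.dm i) (hu l))
  have h1 := G.trf.sot (fun l => u l * d i - d i * u l) hm _ b3 (h i)
  have h2 : uL (fun l => u l * d i - d i * u l) = 0 := by
    refine uL_of_tendsto b3 0 fun a b => ?_
    have h3 := (tendsto_const_nhds (x := b)).inner (𝕜 := ℂ) (h1 a)
    exact h3
  rw [uL_sub b1 b2, uL_mul_right hC, uL_mul_left hC] at h2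
  exact sub_eq_zero.1 h2

theorem tr_uL (hξ : Summable fun i => ‖ξ i‖ ^ 2) {u : ℕ → H →L[ℂ] H} {C : ℝ}
    (hC : ∀ l, ‖u l‖ ≤ C) {c : ℂ} (h : uL u = c • (1 : H →L[ℂ] H)) (b : H →L[ℂ] H) :
    Tendsto (fun l => ip ξ 1 (u l * b)) (hyperfilter ℕ : Filter ℕ) (𝓝 (c * ip ξ 1 b)) := by
  have hC0 : 0 ≤ C := (norm_nonneg _).trans (hC 0)
  have e1 : c * ip ξ 1 b = ∑' i, c * (inner ℂ (ξ i) (b (ξ i)) : ℂ) := by
    unfold ip
    rw [← tsum_mul_left]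
    rfl
  rw [e1]
  have e2 : (fun l => ip ξ 1 (u l * b)) = fun l => ∑' i, (inner ℂ (ξ i) (u l (b (ξ i))) : ℂ) := by
    funext l
    rfl
  rw [e2]
  refine tendsto_tsum_of_dominated_convergence (bound := fun i => C * ‖b‖ * ‖ξ i‖ ^ 2)
    (hξ.mul_left _) (fun i => ?_) (Eventually.of_forall fun l i => ?_)
  · have h1 := uL_tendsto hC (b (ξ i)) (ξ i)
    rw [h] at h1
    have h2 : (inner ℂ (ξ i) ((c • (1 : H →L[ℂ] H)) (b (ξ i))) : ℂ)
        = c * (inner ℂ (ξ i) (b (ξ i)) : ℂ) := by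
      rw [smul_apply, inner_smul_right]
      rfl
    rw [h2] at h1
    exact h1
  · have h1 : ‖u l (b (ξ i))‖ ≤ C * (‖b‖ * ‖ξ i‖) :=
      ((u l).le_opNorm _).trans (mul_le_mul (hC l) (b.le_opNorm _) (norm_nonneg _) hC0)
    calc ‖(inner ℂ (ξ i) (u l (b (ξ i))) : ℂ)‖ ≤ ‖ξ i‖ * ‖u l (b (ξ i))‖ :=
          norm_inner_le_norm _ _
      _ ≤ ‖ξ i‖ * (C * (‖b‖ * ‖ξ i‖)) := mul_le_mul_of_nonneg_left h1 (norm_nonneg _)
      _ = C * ‖b‖ * ‖ξ i‖ ^ 2 := by ring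

end Pool.Agent.HFT
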