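import Pool.Agent.HFT.X0

set_option autoImplicit false
set_option linter.unusedSectionVars false

/-! # Module X1 (2 points): asymptotic independence

By contradiction: for every `l` (with `L = l`, `δ = 1/(l+1)`) there is `v l ∈ N`, `‖v l‖ ≤ 1`, with
`n2 (v l * d i - d i * v l) ≤ 1/(l+1)` for `i < l` and `ε < ‖ip ξ 1 (v l * b) - ip ξ 1 (v l) * ip ξ 1 b‖`. By
`uL_scalar` `uL v = c • 1`, by `tr_uL` (for `b` and for `1`) `ip ξ 1 (v l * b) → c ip ξ 1 b` and
`ip ξ 1 (v l) → c` (`ip ξ 1 1 = 1`: `ip_self`, `TrF.n2_one`) along the hyperfilter; the difference tends to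
`0`, contradiction (`hyperfilter ℕ` is `NeBot`). -/

namespace Pool.Agent.HFT

open Pool.Agent.HK Filter Topology

variable {H : Type} [NormedAddCommGroup H] [InnerProductSpace ℂ H] [CompleteSpace H]
variable {N : VonNeumannAlgebra H} {ξ : ℕ → H} {d : ℕ → H →L[ℂ] H}

theorem GamF.indep (G : GamF N ξ d) (b : H →L[ℂ] H) (ε : ℝ) (hε : 0 < ε) :
    ∃ (L : ℕ) (δ : ℝ), 0 < δ ∧ ∀ v ∈ N, ‖v‖ ≤ 1 →
      (∀ i < L, n2 ξ (v * d i - d i * v) ≤ δ) →
      ‖ip ξ 1 (v * b) - ip ξ 1 v * ip ξ 1 b‖ ≤ ε := by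
  by_contra hcon
  push Not at hcon
  have hpos : ∀ l : ℕ, (0 : ℝ) < 1 / ((l : ℝ) + 1) := fun l => by positivity
  choose v hvN hv1 hvd hvε using fun l : ℕ => hcon l (1 / ((l : ℝ) + 1)) (hpos l)
  have ht : ∀ i, Tendsto (fun l => n2 ξ (v l * d i - d i * v l)) atTop (𝓝 0) := by
    intro i
    refine tendsto_of_tendsto_of_tendsto_of_le_of_le' tendsto_const_nhds
      (tendsto_one_div_add_atTop_nhds_zero_nat (𝕜 := ℝ)) ?_ ?_
    · exact Eventually.of_forall fun l => Real.sqrt_nonneg _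
    · filter_upwards [eventually_gt_atTop i] with l hl
      exact hvd l i hl
  obtain ⟨c, hc⟩ := G.uL_scalar v hvN 1 hv1 ht
  have hs := G.trf.summ
  have t1 := tr_uL hs hv1 hc b
  have t2 := tr_uL hs hv1 hc (1 : H →L[ℂ] H)
  have h11 : ip ξ 1 (1 : H →L[ℂ] H) = 1 := by
    rw [ip_self hs, G.trf.n2_one]
    simp
  rw [h11, mul_one] at t2
  simp only [mul_one] at t2
  have t3 := (t1.sub (t2.mul_const (ip ξ 1 b))).norm
  rw [sub_self, norm_zero] at t3
  have : ε ≤ 0 := ge_of_tendsto t3 (Eventually.of_forall fun l => (hvε l).le)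
  exact absurd hε (not_lt.2 this)

end Pool.Agent.HFT
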