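import Pool.Agent.HFT.G1
import Pool.Agent.HFT.Tr1

set_option autoImplicit false
set_option linter.unusedSectionVars false

/-! # Module X2 (3 points): the sign of a self-adjoint contraction

`h₊ = cfc (fun t => max t 0) h`, `h₋ = cfc (fun t => max (-t) 0) h` (real functional calculus of the
self-adjoint `h`): `h = h₊ - h₋`, `h₊ h₋ = 0 = h₋ h₊`, both in `gen {h}` (`vn_cfc_mem`, HK/VN1;
`gen_sub`). `r` = range projection of `h₊` in `gen {h}` (`vn_range_proj`): `r h₊ = h₊`, and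
`h₋ r = 0` because `r x ∈ closure (range h₊)` and `h₋` vanishes on the range of `h₊`; so `r h₋ = 0` (adjoint).
`v = 2 r - 1`: self-adjoint, `v² = 1`, in `gen {h}`, `v h = 2 h₊ - h₊ + h₋ = h₊ + h₋ =: k ≥ 0`, `k² = h²`,
`h = v k`. `v - h = v (1 - k)`; `‖(1 - k) ζ‖ ≤ ‖(1 + k) (1 - k) ζ‖ = ‖(1 - h²) ζ‖` for every vector because
`‖(1 + k) w‖² = ‖w‖² + 2 ⟪w, k w⟫ + ‖k w‖² ≥ ‖w‖²`, `k` positive. So `‖(v - h) ζ‖ ≤ ‖(1 - h²) ζ‖` for all `ζ`, and
`n2 (v - h) ≤ n2 (1 - h²)` (`n2_le_of_vec` with `c = 1`). `c h = h c` implies `v c = c v`: `gen_comm`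
(`S = {h}`). -/

namespace Pool.Agent.HFT

open Pool.Agent.HK Filter Topology

variable {H : Type} [NormedAddCommGroup H] [InnerProductSpace ℂ H] [CompleteSpace H]

private theorem X2_norm {v : H →L[ℂ] H} (hs : star v = v) (hv : v * v = 1) (ζ : H) :
    ‖v ζ‖ = ‖ζ‖ := by
  have h1 : (inner ℂ (v ζ) (v ζ) : ℂ) = inner ℂ ζ ζ := by
    have h2 : (inner ℂ (v ζ) (v ζ) : ℂ) = inner ℂ ζ ((star v) (v ζ)) := by
      rw [ContinuousLinearMap.star_eq_adjoint, ContinuousLinearMap.adjoint_inner_right]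
    rw [h2, hs]
    have h3 : v (v ζ) = (v * v) ζ := rfl
    rw [h3, hv]
    rfl
  rw [inner_self_eq_norm_sq_to_K, inner_self_eq_norm_sq_to_K] at h1
  have h4 : ‖v ζ‖ ^ 2 = ‖ζ‖ ^ 2 := by exact_mod_cast h1
  exact (sq_eq_sq₀ (norm_nonneg _) (norm_nonneg _)).1 h4

private theorem X2_le {k : H →L[ℂ] H} (hk : 0 ≤ k) (w : H) : ‖w‖ ≤ ‖(1 + k) w‖ := by
  have hp : k.IsPositive := (ContinuousLinearMap.nonneg_iff_isPositive k).1 hk
  have h0 : 0 ≤ RCLike.re (inner ℂ w (k w) : ℂ) := by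
    have := hp.re_inner_nonneg_right w
    exact this
  have h1 : (1 + k) w = w + k w := rfl
  rw [h1]
  have h2 := norm_add_sq (𝕜 := ℂ) w (k w)
  have h3 : ‖w‖ ^ 2 ≤ ‖w + k w‖ ^ 2 := by
    rw [h2]
    nlinarith [sq_nonneg ‖k w‖]
  exact (sq_le_sq₀ (norm_nonneg _) (norm_nonneg _)).1 h3

theorem exists_sgn (N : VonNeumannAlgebra H) {h : H →L[ℂ] H} (hN : h ∈ N) (hs : star h = h) :
    ∃ v ∈ N, star v = v ∧ v * v = 1 ∧ (∀ ζ : H, ‖(v - h) ζ‖ ≤ ‖(1 - h * h) ζ‖) ∧
      ∀ c : H →L[ℂ] H, c * h = h * c → c * v = v * c := by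
  have hsa : IsSelfAdjoint h := hs
  have hS : ∀ s ∈ ({h} : Set (H →L[ℂ] H)), star s = s := by
    intro s hs'
    rw [Set.mem_singleton_iff.1 hs']
    exact hs
  set G : VonNeumannAlgebra H := gen {h} with hG
  have hGh : h ∈ G := gen_sub (Set.mem_singleton h)
  set hp : H →L[ℂ] H := cfc (fun t : ℝ => max t 0) h with hhp
  set hm : H →L[ℂ] H := cfc (fun t : ℝ => max (-t) 0) h with hhm
  have c1 : ContinuousOn (fun t : ℝ => max t 0) (spectrum ℝ h) := by fun_prop
  have c2 : ContinuousOn (fun t : ℝ => max (-t) 0) (spectrum ℝ h) := by fun_prop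
  have hpG : hp ∈ G := vn_cfc_mem G h hGh _
  have hmG : hm ∈ G := vn_cfc_mem G h hGh _
  have hps : star hp = hp := cfc_predicate (R := ℝ) (p := IsSelfAdjoint) _ h
  have hms : star hm = hm := cfc_predicate (R := ℝ) (p := IsSelfAdjoint) _ h
  have hp0 : 0 ≤ hp := cfc_nonneg (fun t _ => le_max_right _ _)
  have hm0 : 0 ≤ hm := cfc_nonneg (fun t _ => le_max_right _ _)
  have hdiff : h = hp - hm := by
    rw [hhp, hhm, ← cfc_sub (fun t : ℝ => max t 0) (fun t : ℝ => max (-t) 0) h c1 c2]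
    conv_lhs => rw [← cfc_id ℝ h]
    refine cfc_congr fun t _ => ?_
    simp only [id]
    rcases le_total 0 t with ht | ht
    · rw [max_eq_left ht, max_eq_right (by linarith)]; ring
    · rw [max_eq_right ht, max_eq_left (by linarith)]; ring
  have hz : ∀ t : ℝ, max (-t) 0 * max t 0 = 0 := by
    intro t
    rcases le_total 0 t with ht | ht
    · rw [max_eq_right (by linarith : -t ≤ 0), zero_mul]
    · rw [max_eq_right ht, mul_zero]
  have hmp : hm * hp = 0 := by
    rw [hhp, hhm, ← cfc_mul (fun t : ℝ => max (-t) 0) (fun t : ℝ => max t 0) h c2 c1]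
    have h1 : (fun t : ℝ => max (-t) 0 * max t 0) = fun _ => 0 := funext hz
    rw [h1]
    exact cfc_const_zero ℝ h
  have hpm : hp * hm = 0 := by
    have h1 := congrArg star hmp
    rwa [star_mul, hps, hms, star_zero] at h1
  obtain ⟨r, hrG, hr, hrp, hcl⟩ := vn_range_proj G hp hpG
  have hrs : star r = r := hr.isSelfAdjoint
  have hrr : r * r = r := hr.isIdempotentElem
  have hmr : hm * r = 0 := by
    ext x
    have h1 : r x ∈ closure (Set.range hp) := hcl x
    have h2 : closure (Set.range hp) ⊆ {y : H | hm y = 0} := by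
      refine closure_minimal ?_ (isClosed_eq hm.continuous continuous_const)
      rintro _ ⟨y, rfl⟩
      have h3 : hm (hp y) = (hm * hp) y := rfl
      show hm (hp y) = 0
      rw [h3, hmp]
      rfl
    exact h2 h1
  have hrm : r * hm = 0 := by
    have h1 := congrArg star hmr
    rwa [star_mul, hrs, hms, star_zero] at h1
  set v : H →L[ℂ] H := r + r - 1 with hv
  set k : H →L[ℂ] H := hp + hm with hk
  have hvG : v ∈ G := sub_mem (add_mem hrG hrG) (one_mem G)
  have hvs : star v = v := by rw [hv, star_sub, star_add, hrs, star_one]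
  have hvv : v * v = 1 := by
    rw [hv]
    simp only [mul_add, add_mul, mul_sub, sub_mul, hrr, mul_one, one_mul]
    abel
  have hvh : v * h = k := by
    rw [hv, hk]
    conv_lhs => rw [hdiff]
    simp only [add_mul, mul_sub, sub_mul, hrp, hrm, one_mul]
    abel
  have hvk : h = v * k := by rw [← hvh, ← mul_assoc, hvv, one_mul]
  have hkk : k * k = h * h := by
    rw [hk]
    conv_rhs => rw [hdiff]
    simp only [mul_add, add_mul, mul_sub, sub_mul, hmp, hpm]
    abel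
  have hk0 : 0 ≤ k := add_nonneg hp0 hm0
  refine ⟨v, gen_le hS (fun s hs' => by rw [Set.mem_singleton_iff.1 hs']; exact hN) v hvG, hvs,
    hvv, ?_, ?_⟩
  · intro ζ
    have h1 : (v - h) ζ = v ((1 - k) ζ) := by
      have h2 : v - h = v * (1 - k) := by
        rw [mul_sub, mul_one, ← hvk]
      rw [h2]
      rfl
    rw [h1, X2_norm hvs hvv]
    have h3 : (1 - h * h) ζ = (1 + k) ((1 - k) ζ) := by
      have h4 : 1 - h * h = (1 + k) * (1 - k) := by
        rw [← hkk]
        simp only [mul_sub, add_mul, mul_one, one_mul]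
        abel
      rw [h4]
      rfl
    rw [h3]
    exact X2_le hk0 _
  · intro c hc
    have h1 := gen_comm hS (x := c) (by
      intro s hs'
      rw [Set.mem_singleton_iff.1 hs']
      exact hc.symm) v hvG
    exact h1.symm

theorem sgn_n2 {ξ : ℕ → H} (hξ : Summable fun i => ‖ξ i‖ ^ 2) {v h : H →L[ℂ] H}
    (h1 : ∀ ζ : H, ‖(v - h) ζ‖ ≤ ‖(1 - h * h) ζ‖) : n2 ξ (v - h) ≤ n2 ξ (1 - h * h) := by
  have h2 := n2_le_of_vec hξ (v - h) (1 - h * h) 1 zero_le_one
    (fun i => by rw [one_mul]; exact h1 (ξ i))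
  rwa [one_mul] at h2

end Pool.Agent.HFT
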