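import Pool.Agent.HFT.Tr1

set_option autoImplicit false
set_option linter.unusedSectionVars false

/-! # Module X3a (3 points): commutators with functions of a self-adjoint contraction

For a polynomial `p` there is `K ≥ 0` with `n2 (p(h) x - x p(h)) ≤ K n2 (h x - x h)` for all `h, x ∈ M`,
`star h = h`, `‖h‖ ≤ 1` (`poly_comm`: induction on `p` (`Polynomial.induction_on'` or `induction_on`); for
monomials `h^(n+1) x - x h^(n+1) = h (h^n x - x h^n) + (h x - x h) h^n`, `n2_mul_le`, `TrF.n2_mul_le'`).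
Weierstrass: `p` with `|f t - p t| ≤ ε / (4 (C + 1))` on `[-1, 1]`
(`exists_polynomial_near_of_continuousOn`). `‖cfc f h - p(h)‖ ≤ ε/(4 (C+1))`: `cfc_sub`, `cfc_polynomial`
/ `cfc_aeval`..., `norm_cfc_le` (the real spectrum of `h` lies in `[-1, 1]`: `‖h‖ ≤ 1`). So
`n2 (f(h) x - x f(h)) ≤ 2 C ‖f(h) - p(h)‖ + K n2 (h x - x h) ≤ ε/2 + K δ`; take `δ = ε/(2 (K + 1))`. -/

namespace Pool.Agent.HFT

open Pool.Agent.HK Filter Topology

variable {H : Type} [NormedAddCommGroup H] [InnerProductSpace ℂ H] [CompleteSpace H]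
variable {M : VonNeumannAlgebra H} {ξ : ℕ → H}

private theorem x3a_one : ‖(1 : H →L[ℂ] H)‖ ≤ 1 := ContinuousLinearMap.norm_id_le

private theorem x3a_pow {h : H →L[ℂ] H} (hh : ‖h‖ ≤ 1) (n : ℕ) : ‖h ^ n‖ ≤ 1 := by
  induction n with
  | zero => rw [pow_zero]; exact x3a_one
  | succ n ih =>
    rw [pow_succ]
    exact (norm_mul_le _ _).trans (mul_le_one₀ ih (norm_nonneg _) hh)

private theorem x3a_mono (T : TrF M ξ) {h x : H →L[ℂ] H} (hM : h ∈ M) (hh : ‖h‖ ≤ 1) (hx : x ∈ M)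
    (n : ℕ) : n2 ξ (h ^ n * x - x * h ^ n) ≤ n * n2 ξ (h * x - x * h) := by
  induction n with
  | zero => simp [n2_zero]
  | succ n ih =>
    have h1 : h ^ (n + 1) * x - x * h ^ (n + 1) =
        h * (h ^ n * x - x * h ^ n) + (h * x - x * h) * h ^ n := by
      rw [pow_succ']
      noncomm_ring
    have hc : h * x - x * h ∈ M := sub_mem (mul_mem hM hx) (mul_mem hx hM)
    have hp : h ^ n ∈ M := pow_mem hM n
    rw [h1]
    refine (n2_add_le T.summ _ _).trans ?_
    have h2 : n2 ξ (h * (h ^ n * x - x * h ^ n)) ≤ n * n2 ξ (h * x - x * h) := by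
      refine (n2_mul_le T.summ _ _).trans ?_
      calc ‖h‖ * n2 ξ (h ^ n * x - x * h ^ n) ≤ 1 * n2 ξ (h ^ n * x - x * h ^ n) :=
            mul_le_mul_of_nonneg_right hh (n2_nonneg _ _)
        _ ≤ _ := by rw [one_mul]; exact ih
    have h3 : n2 ξ ((h * x - x * h) * h ^ n) ≤ n2 ξ (h * x - x * h) := by
      refine (T.n2_mul_le' hc hp).trans ?_
      exact mul_le_of_le_one_right (n2_nonneg _ _) (x3a_pow hh n)
    push_cast
    linarith

private theorem x3a_poly (T : TrF M ξ) (p : Polynomial ℝ) :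
    ∃ K : ℝ, 0 ≤ K ∧ ∀ h ∈ M, ‖h‖ ≤ 1 → ∀ x ∈ M,
      n2 ξ (Polynomial.aeval h p * x - x * Polynomial.aeval h p) ≤ K * n2 ξ (h * x - x * h) := by
  induction p using Polynomial.induction_on' with
  | add p q hp hq =>
    obtain ⟨K1, h1, k1⟩ := hp
    obtain ⟨K2, h2, k2⟩ := hq
    refine ⟨K1 + K2, add_nonneg h1 h2, fun h hM hh x hx => ?_⟩
    have e : Polynomial.aeval h (p + q) * x - x * Polynomial.aeval h (p + q) =
        (Polynomial.aeval h p * x - x * Polynomial.aeval h p) +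
        (Polynomial.aeval h q * x - x * Polynomial.aeval h q) := by
      rw [map_add]
      noncomm_ring
    rw [e]
    refine (n2_add_le T.summ _ _).trans ?_
    have a1 := k1 h hM hh x hx
    have a2 := k2 h hM hh x hx
    linarith
  | monomial n c =>
    refine ⟨|c| * n, by positivity, fun h hM hh x hx => ?_⟩
    have e : Polynomial.aeval h (Polynomial.monomial n c) * x -
        x * Polynomial.aeval h (Polynomial.monomial n c) = (c : ℂ) • (h ^ n * x - x * h ^ n) := by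
      rw [Polynomial.aeval_monomial, Algebra.algebraMap_eq_smul_one, smul_mul_assoc, one_mul,
        smul_mul_assoc, mul_smul_comm, ← smul_sub]
      exact (Complex.coe_smul c _).symm
    rw [e, n2_smul, Complex.norm_real, Real.norm_eq_abs, mul_assoc]
    exact mul_le_mul_of_nonneg_left (x3a_mono T hM hh hx n) (abs_nonneg _)

theorem cfc_comm (T : TrF M ξ) (f : ℝ → ℝ) (hf : Continuous f) (C ε : ℝ) (hC : 0 ≤ C)
    (hε : 0 < ε) :
    ∃ δ : ℝ, 0 < δ ∧ ∀ h ∈ M, star h = h → ‖h‖ ≤ 1 → ∀ x ∈ M, ‖x‖ ≤ C →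
      n2 ξ (h * x - x * h) ≤ δ → n2 ξ (cfc f h * x - x * cfc f h) ≤ ε := by
  have hη : 0 < ε / (4 * (C + 1)) := by positivity
  obtain ⟨p, hp⟩ := exists_polynomial_near_of_continuousOn (-1) 1 f hf.continuousOn _ hη
  obtain ⟨K, hK, hKp⟩ := x3a_poly T p
  refine ⟨ε / (2 * (K + 1)), by positivity, fun h hM hs hh x hx hxC hδ => ?_⟩
  have hsa : IsSelfAdjoint h := hs
  set P : H →L[ℂ] H := Polynomial.aeval h p with hP
  have hD : ‖cfc f h - P‖ ≤ ε / (4 * (C + 1)) := by
    have h1 : cfc f h - P = cfc (fun t => f t - p.eval t) h := by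
      rw [cfc_sub f (fun t => p.eval t) h hf.continuousOn p.continuous.continuousOn]
      rw [hP, ← cfc_polynomial p h hsa]
    rw [h1]
    refine norm_cfc_le hη.le fun t ht => ?_
    have h2 : ‖t‖ ≤ 1 := by
      refine (spectrum.norm_le_norm_mul_of_mem ht).trans ?_
      exact mul_le_one₀ hh (norm_nonneg _) x3a_one
    rw [Real.norm_eq_abs, abs_le] at h2
    have h3 := hp t ⟨h2.1, h2.2⟩
    rw [Real.norm_eq_abs, abs_sub_comm]
    exact h3.le
  have e : cfc f h * x - x * cfc f h =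
      ((cfc f h - P) * x - x * (cfc f h - P)) + (P * x - x * P) := by noncomm_ring
  rw [e]
  have b1 : n2 ξ ((cfc f h - P) * x) ≤ ε / (4 * (C + 1)) * C := by
    refine (n2_mul_le T.summ _ _).trans ?_
    exact mul_le_mul hD ((T.n2_le x).trans hxC) (n2_nonneg _ _) hη.le
  have b2 : n2 ξ (x * (cfc f h - P)) ≤ ε / (4 * (C + 1)) * C := by
    refine (n2_mul_le T.summ _ _).trans ?_
    rw [mul_comm]
    exact mul_le_mul ((T.n2_le _).trans hD) hxC (norm_nonneg _) hη.le
  have b3 : n2 ξ (P * x - x * P) ≤ K * (ε / (2 * (K + 1))) :=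
    (hKp h hM hh x hx).trans (mul_le_mul_of_nonneg_left hδ hK)
  have c1 : ε / (4 * (C + 1)) * C ≤ ε / 4 := by
    rw [div_mul_eq_mul_div, div_le_div_iff₀ (by positivity) (by norm_num)]
    nlinarith
  have c2 : K * (ε / (2 * (K + 1))) ≤ ε / 2 := by
    rw [mul_div_assoc', div_le_div_iff₀ (by positivity) (by norm_num)]
    nlinarith
  have b4 := n2_sub_le T.summ ((cfc f h - P) * x) (x * (cfc f h - P))
  have b5 := n2_add_le T.summ ((cfc f h - P) * x - x * (cfc f h - P)) (P * x - x * P)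
  linarith

end Pool.Agent.HFT
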