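import Pool.Agent.HFT.X2
import Pool.Agent.HFT.X3a

set_option autoImplicit false
set_option linter.unusedSectionVars false

/-! # Module X3b (5 points): from a self-adjoint contraction of trace zero to a symmetry

Write `τ x = Re (ip ξ 1 x)`; it is linear, `0 ≤ τ x` for positive operators `x`, so monotone:
`τ (cfc f h) ≤ τ (cfc g h)` if `f ≤ g` on `[-1, 1]` (`cfc_mono`); `n2 (x)² = τ (x* x)` (`ip_self`,
`ip_mul_left`). For `h = h₊ - h₋` (`cfc` of the positive and negative part): `τ h = 0` and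
`1/4 ≤ τ (h²) ≤ τ |h| = τ h₊ + τ h₋`, so `τ h₊ = τ h₋ ≥ 1/8`.
Take `L : ℕ`, `L > 0`, with `1/√L ≤ min (1/16) (ε/(4 (C+1)))`. Levels
`t_i = (2 i + 1)/(16 L) - 1/16`, `i < L`; `f_i t = max (-1) (min 1 (16 L (t - t_i)))`: continuous, values in
`[-1, 1]`, equal to `±1` outside the window `|t - t_i| < 1/(16 L)`. The windows are disjoint and lie in
`[-1/16, 1/16]`, so `∑_i (1 - f_i t²) ≤ 1` for all `t` (at most one nonzero term).
`δ` = minimum of the `δ`'s of `cfc_comm` (X3a) for `f_i`, `C`, `ε/2`, `i < L`.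
Given `h`: `∑_i τ (1 - f_i(h)²) ≤ 1`, so some `i` has `τ (1 - f_i(h)²) ≤ 1/L`. Put `g = f_i(h)` (self-adjoint,
`‖g‖ ≤ 1`, in `M`: `vn_cfc_mem`). `(1 - g²)² ≤ 1 - g²`, so `n2 (1 - g²)² = τ ((1 - g²)²) ≤ 1/L`.
Trace: `t₋ := max (-t) 0 ≤ (1 - f_i t)/2 + 1/16` for `t ∈ [-1, 1]` (if `t ≤ t_i - 1/(16L)` then `f_i t = -1`
and the right side is `≥ 1`; otherwise `t > -1/16` and `t₋ ≤ 1/16`); in the same way
`t₊ ≤ (1 + f_i t)/2 + 1/16`. So `1/8 ≤ (1 - τ g)/2 + 1/16` and `1/8 ≤ (1 + τ g)/2 + 1/16`: `|τ g| ≤ 7/8`.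
`v` from `exists_sgn` (X2) for `g`: `n2 (v - g) ≤ n2 (1 - g²) ≤ 1/√L`. `ip ξ 1 v` is real (`v` self-adjoint;
`ip_conj`, `ip_mul_left`) or estimate directly: `‖ip ξ 1 v‖ ≤ ‖ip ξ 1 g‖ + n2 (v - g) ≤ 7/8 + 1/16` (`ip_le`,
`TrF.n2_one`; `ip ξ 1 g` is real). Commutation: `c h = h c` implies `c g = g c` (`Commute.cfc_real`, see
`vn_cfc_mem`), so `c v = v c`. `n2 (v x - x v) ≤ n2 (g x - x g) + 2 C n2 (v - g) ≤ ε/2 + 2 C/√L ≤ ε`. -/

namespace Pool.Agent.HFT

open Pool.Agent.HK Filter Topology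

variable {H : Type} [NormedAddCommGroup H] [InnerProductSpace ℂ H] [CompleteSpace H]
variable {M : VonNeumannAlgebra H} {ξ : ℕ → H}

/-- the real part of the trace -/
private noncomputable def X3b_t (ξ : ℕ → H) (x : H →L[ℂ] H) : ℝ := (ip ξ 1 x).re

private theorem X3b_add {ξ : ℕ → H} (hξ : Summable fun i => ‖ξ i‖ ^ 2) (x y : H →L[ℂ] H) :
    X3b_t ξ (x + y) = X3b_t ξ x + X3b_t ξ y := by
  unfold X3b_t
  rw [ip_add hξ, Complex.add_re]

private theorem X3b_sub {ξ : ℕ → H} (hξ : Summable fun i => ‖ξ i‖ ^ 2) (x y : H →L[ℂ] H) :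
    X3b_t ξ (x - y) = X3b_t ξ x - X3b_t ξ y := by
  unfold X3b_t
  rw [ip_sub hξ, Complex.sub_re]

private theorem X3b_smul (ξ : ℕ → H) (c : ℝ) (x : H →L[ℂ] H) :
    X3b_t ξ (c • x) = c * X3b_t ξ x := by
  unfold X3b_t
  have h1 : (c • x : H →L[ℂ] H) = (c : ℂ) • x := (Complex.coe_smul c x).symm
  rw [h1, ip_smul, Complex.re_ofReal_mul]

private theorem X3b_sum {ξ : ℕ → H} (hξ : Summable fun i => ‖ξ i‖ ^ 2) (s : Finset ℕ)
    (y : ℕ → H →L[ℂ] H) : X3b_t ξ (∑ i ∈ s, y i) = ∑ i ∈ s, X3b_t ξ (y i) := by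
  unfold X3b_t
  rw [ip_sum hξ, Complex.re_sum]

private theorem X3b_nonneg {ξ : ℕ → H} (hξ : Summable fun i => ‖ξ i‖ ^ 2) {x : H →L[ℂ] H}
    (hx : 0 ≤ x) : 0 ≤ X3b_t ξ x := by
  unfold X3b_t ip
  rw [Complex.re_tsum (smi hξ 1 x)]
  refine tsum_nonneg fun i => ?_
  have hp : x.IsPositive := (ContinuousLinearMap.nonneg_iff_isPositive x).1 hx
  have h1 := hp.re_inner_nonneg_right (ξ i)
  exact h1

private theorem X3b_mono {ξ : ℕ → H} (hξ : Summable fun i => ‖ξ i‖ ^ 2) {x y : H →L[ℂ] H}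
    (hxy : x ≤ y) : X3b_t ξ x ≤ X3b_t ξ y := by
  have h1 := X3b_nonneg hξ (sub_nonneg.2 hxy)
  rw [X3b_sub hξ] at h1
  linarith

private theorem X3b_n2 {ξ : ℕ → H} (hξ : Summable fun i => ‖ξ i‖ ^ 2) (x : H →L[ℂ] H) :
    n2 ξ x ^ 2 = X3b_t ξ (star x * x) := by
  unfold X3b_t
  have h1 := ip_mul_left ξ x 1 x
  rw [mul_one] at h1
  rw [← h1, ip_self hξ, Complex.ofReal_re]

private theorem X3b_one (T : TrF M ξ) : X3b_t ξ (1 : H →L[ℂ] H) = 1 := by
  have h1 := X3b_n2 T.summ (1 : H →L[ℂ] H)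
  rw [T.n2_one, star_one, mul_one] at h1
  linarith

private theorem X3b_norm {ξ : ℕ → H} {g : H →L[ℂ] H} (hg : star g = g) :
    ‖ip ξ 1 g‖ = |X3b_t ξ g| := by
  have h1 : (starRingEnd ℂ) (ip ξ 1 g) = ip ξ 1 g := by
    rw [ip_conj]
    have h2 := ip_mul_left ξ g 1 1
    rw [mul_one, mul_one, hg] at h2
    exact h2
  have h3 := Complex.conj_eq_iff_real.1 h1
  obtain ⟨r, hr⟩ := h3
  unfold X3b_t
  rw [hr, Complex.norm_real, Complex.ofReal_re, Real.norm_eq_abs]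

private theorem X3b_spec (T : TrF M ξ) {h : H →L[ℂ] H} (h1 : ‖h‖ ≤ 1) {t : ℝ}
    (ht : t ∈ spectrum ℝ h) : -1 ≤ t ∧ t ≤ 1 := by
  have hne : Nontrivial H := by
    by_contra hcon
    rw [not_nontrivial_iff_subsingleton] at hcon
    have h2 := T.one.tsum_eq
    have h3 : ∀ i, ‖ξ i‖ ^ 2 = 0 := by
      intro i
      rw [Subsingleton.elim (ξ i) 0]
      simp
    simp only [h3, tsum_zero] at h2
    exact zero_ne_one h2
  have h2 : ‖t‖ ≤ ‖h‖ := spectrum.norm_le_norm_of_mem ht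
  rw [Real.norm_eq_abs] at h2
  exact abs_le.1 (h2.trans h1)

/-- the level function -/
private noncomputable def X3b_f (L i : ℕ) (t : ℝ) : ℝ :=
  max (-1) (min 1 ((L : ℝ) * (16 * t + 1) - (2 * (i : ℝ) + 1)))

private theorem X3b_cont (L i : ℕ) : Continuous (X3b_f L i) := by
  unfold X3b_f
  fun_prop

private theorem X3b_bd (L i : ℕ) (t : ℝ) : -1 ≤ X3b_f L i t ∧ X3b_f L i t ≤ 1 :=
  ⟨le_max_left _ _, max_le (by norm_num) (min_le_left _ _)⟩

private theorem X3b_low (L i : ℕ) (t : ℝ) (h : (L : ℝ) * (16 * t + 1) ≤ 2 * i) :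
    X3b_f L i t = -1 := by
  unfold X3b_f
  exact max_eq_left ((min_le_right _ _).trans (by linarith))

private theorem X3b_high (L i : ℕ) (t : ℝ) (h : 2 * (i : ℝ) + 2 ≤ (L : ℝ) * (16 * t + 1)) :
    X3b_f L i t = 1 := by
  unfold X3b_f
  rw [min_eq_left (by linarith)]
  exact max_eq_right (by norm_num)

private theorem X3b_u (L i : ℕ) (t : ℝ) : 0 ≤ 1 - X3b_f L i t ^ 2 ∧ 1 - X3b_f L i t ^ 2 ≤ 1 := by
  obtain ⟨h1, h2⟩ := X3b_bd L i t
  constructor
  · nlinarith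
  · nlinarith [sq_nonneg (X3b_f L i t)]

private theorem X3b_fsum (L : ℕ) (t : ℝ) :
    ∑ i ∈ Finset.range L, (1 - X3b_f L i t ^ 2) ≤ 1 := by
  by_cases hex : ∃ i ∈ Finset.range L, 1 - X3b_f L i t ^ 2 ≠ 0
  · obtain ⟨i, hi, hne⟩ := hex
    have hwin : ∀ j : ℕ, 1 - X3b_f L j t ^ 2 ≠ 0 →
        2 * (j : ℝ) < (L : ℝ) * (16 * t + 1) ∧ (L : ℝ) * (16 * t + 1) < 2 * (j : ℝ) + 2 := by
      intro j hj
      constructor
      · by_contra hcon
        apply hj
        rw [X3b_low L j t (not_lt.1 hcon)]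
        norm_num
      · by_contra hcon
        apply hj
        rw [X3b_high L j t (not_lt.1 hcon)]
        norm_num
    rw [Finset.sum_eq_single_of_mem i hi]
    · exact (X3b_u L i t).2
    · intro j _ hji
      by_contra hcon
      obtain ⟨a1, a2⟩ := hwin i hne
      obtain ⟨b1, b2⟩ := hwin j hcon
      rcases lt_or_gt_of_ne hji with hlt | hgt
      · have : (j : ℝ) + 1 ≤ (i : ℝ) := by exact_mod_cast hlt
        linarith
      · have : (i : ℝ) + 1 ≤ (j : ℝ) := by exact_mod_cast hgt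
        linarith
  · push Not at hex
    rw [Finset.sum_eq_zero hex]
    norm_num

private theorem X3b_neg (L i : ℕ) (hL : 0 < L) (t : ℝ) (ht : -1 ≤ t ∧ t ≤ 1) :
    max (-t) 0 ≤ 1 / 2 * (1 - X3b_f L i t) + 1 / 16 := by
  have hL' : (0 : ℝ) < L := by exact_mod_cast hL
  obtain ⟨h1, h2⟩ := X3b_bd L i t
  by_cases h : (L : ℝ) * (16 * t + 1) ≤ 2 * i
  · rw [X3b_low L i t h]
    refine max_le ?_ ?_
    · linarith [ht.1]
    · norm_num
  · have h3 : (0 : ℝ) < (L : ℝ) * (16 * t + 1) := lt_of_le_of_lt (by positivity) (not_le.1 h)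
    have h4 : 0 < 16 * t + 1 := by
      by_contra hcon
      have h5 := mul_nonpos_of_nonneg_of_nonpos hL'.le (not_lt.1 hcon)
      linarith
    refine max_le ?_ ?_
    · linarith
    · linarith

private theorem X3b_pos (L i : ℕ) (hi : i < L) (t : ℝ) (ht : -1 ≤ t ∧ t ≤ 1) :
    max t 0 ≤ 1 / 2 * (1 + X3b_f L i t) + 1 / 16 := by
  have hL' : (0 : ℝ) < L := by exact_mod_cast (Nat.zero_lt_of_lt hi)
  have hi' : (i : ℝ) + 1 ≤ L := by exact_mod_cast hi
  obtain ⟨h1, h2⟩ := X3b_bd L i t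
  by_cases h : 2 * (i : ℝ) + 2 ≤ (L : ℝ) * (16 * t + 1)
  · rw [X3b_high L i t h]
    refine max_le ?_ ?_
    · linarith [ht.2]
    · norm_num
  · have h3 : (L : ℝ) * (16 * t + 1) < L * 2 := by linarith [not_le.1 h]
    have h4 : 16 * t + 1 < 2 := lt_of_mul_lt_mul_left h3 hL'.le
    refine max_le ?_ ?_
    · linarith
    · linarith

theorem levels (T : TrF M ξ) (C ε : ℝ) (hC : 0 ≤ C) (hε : 0 < ε) :
    ∃ δ : ℝ, 0 < δ ∧ ∀ h ∈ M, star h = h → ‖h‖ ≤ 1 → ip ξ 1 h = 0 → 1 / 4 ≤ n2 ξ h ^ 2 →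
      ∃ v ∈ M, star v = v ∧ v * v = 1 ∧ ‖ip ξ 1 v‖ ≤ 15 / 16 ∧
        (∀ c : H →L[ℂ] H, c * h = h * c → c * v = v * c) ∧
        ∀ x ∈ M, ‖x‖ ≤ C → n2 ξ (h * x - x * h) ≤ δ → n2 ξ (v * x - x * v) ≤ ε := by
  have hξ := T.summ
  -- the parameters
  set η : ℝ := min (1 / 16) (ε / (4 * (C + 1))) with hη
  have hη0 : 0 < η := lt_min (by norm_num) (by positivity)
  have hη1 : η ≤ 1 / 16 := min_le_left _ _
  have hη2 : η ≤ ε / (4 * (C + 1)) := min_le_right _ _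
  obtain ⟨L, hLη⟩ : ∃ L : ℕ, 1 / η ^ 2 < (L : ℝ) := exists_nat_gt _
  have hL' : (0 : ℝ) < L := lt_trans (by positivity) hLη
  have hL : 0 < L := by exact_mod_cast hL'
  have hLi : 1 / (L : ℝ) ≤ η ^ 2 := by
    rw [div_le_iff₀ hL']
    rw [div_lt_iff₀ (by positivity)] at hLη
    linarith
  choose δ' hδ0 hδ' using fun i : ℕ => cfc_comm T (X3b_f L i) (X3b_cont L i) C (ε / 2) hC
    (by positivity)
  obtain ⟨i0, -, hi0⟩ := Finset.exists_min_image (Finset.range L) δ'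
    ⟨0, Finset.mem_range.2 hL⟩
  refine ⟨δ' i0, hδ0 i0, ?_⟩
  intro h hM hs hn1 htr hn2
  have hsa : IsSelfAdjoint h := hs
  have hspec : ∀ t ∈ spectrum ℝ h, -1 ≤ t ∧ t ≤ 1 := fun t ht => X3b_spec T hn1 ht
  -- positive and negative part
  set hp : H →L[ℂ] H := cfc (fun t : ℝ => max t 0) h with hhp
  set hm : H →L[ℂ] H := cfc (fun t : ℝ => max (-t) 0) h with hhm
  have c1 : ContinuousOn (fun t : ℝ => max t 0) (spectrum ℝ h) := by fun_prop
  have c2 : ContinuousOn (fun t : ℝ => max (-t) 0) (spectrum ℝ h) := by fun_prop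
  have hdiff : h = hp - hm := by
    rw [hhp, hhm, ← cfc_sub (fun t : ℝ => max t 0) (fun t : ℝ => max (-t) 0) h c1 c2]
    conv_lhs => rw [← cfc_id ℝ h]
    refine cfc_congr fun t _ => ?_
    simp only [id]
    rcases le_total 0 t with ht | ht
    · rw [max_eq_left ht, max_eq_right (by linarith)]; ring
    · rw [max_eq_right ht, max_eq_left (by linarith)]; ring
  have hτ0 : X3b_t ξ h = 0 := by unfold X3b_t; rw [htr, Complex.zero_re]
  have hτpm : X3b_t ξ hp = X3b_t ξ hm := by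
    have h1 := hτ0
    rw [hdiff, X3b_sub hξ] at h1
    linarith
  have hsq : h * h ≤ hp + hm := by
    have h1 : h * h = cfc (fun t : ℝ => t * t) h := by
      have h2 := cfc_mul (id : ℝ → ℝ) (id : ℝ → ℝ) h (continuousOn_id) (continuousOn_id)
      rw [cfc_id ℝ h] at h2
      exact h2.symm
    rw [h1, hhp, hhm, ← cfc_add (a := h) (fun t : ℝ => max t 0) (fun t : ℝ => max (-t) 0) c1 c2]
    refine cfc_mono (fun t ht => ?_) (by fun_prop) (c1.add c2)
    obtain ⟨a1, a2⟩ := hspec t ht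
    rcases le_total 0 t with h0 | h0
    · rw [max_eq_left h0, max_eq_right (by linarith)]; nlinarith
    · rw [max_eq_right h0, max_eq_left (by linarith)]; nlinarith
  have hτ1 : 1 / 8 ≤ X3b_t ξ hm := by
    have h1 := X3b_mono hξ hsq
    have h2 := X3b_n2 hξ h
    rw [hs] at h2
    rw [X3b_add hξ, hτpm] at h1
    linarith
  -- choice of the level
  have cf : ∀ i, ContinuousOn (X3b_f L i) (spectrum ℝ h) := fun i => (X3b_cont L i).continuousOn
  have cu : ∀ i, ContinuousOn (fun t => 1 - X3b_f L i t ^ 2) (spectrum ℝ h) := fun i =>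
    (continuous_const.sub ((X3b_cont L i).pow 2)).continuousOn
  have hone : cfc (fun _ : ℝ => (1 : ℝ)) h = 1 := cfc_const_one ℝ h
  have hsum : ∑ i ∈ Finset.range L, X3b_t ξ (cfc (fun t => 1 - X3b_f L i t ^ 2) h) ≤ 1 := by
    rw [← X3b_sum hξ]
    refine le_trans (X3b_mono hξ ?_) (X3b_one T).le
    rw [← cfc_sum (fun i t => 1 - X3b_f L i t ^ 2) h (Finset.range L) (fun i _ => cu i), ← hone]
    refine cfc_mono (fun t _ => ?_) ?_ continuousOn_const
    · rw [Finset.sum_apply]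
      exact X3b_fsum L t
    · have h3 : Continuous (fun t : ℝ => ∑ i ∈ Finset.range L, (1 - X3b_f L i t ^ 2)) :=
        continuous_finsetSum _ fun i _ => continuous_const.sub ((X3b_cont L i).pow 2)
      have h4 : (∑ i ∈ Finset.range L, fun t => 1 - X3b_f L i t ^ 2) =
          fun t : ℝ => ∑ i ∈ Finset.range L, (1 - X3b_f L i t ^ 2) := by
        funext t
        rw [Finset.sum_apply]
      rw [h4]
      exact h3.continuousOn
  obtain ⟨i, hi, hφ⟩ : ∃ i ∈ Finset.range L,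
      X3b_t ξ (cfc (fun t => 1 - X3b_f L i t ^ 2) h) ≤ 1 / (L : ℝ) := by
    refine Finset.exists_le_of_sum_le ⟨0, Finset.mem_range.2 hL⟩ ?_
    rw [Finset.sum_const, Finset.card_range, nsmul_eq_mul, mul_one_div_cancel hL'.ne']
    exact hsum
  have hiL : i < L := Finset.mem_range.1 hi
  set g : H →L[ℂ] H := cfc (X3b_f L i) h with hg
  have hgM : g ∈ M := vn_cfc_mem M h hM _
  have hgs : star g = g := cfc_predicate (R := ℝ) (p := IsSelfAdjoint) _ h
  set u : H →L[ℂ] H := cfc (fun t => 1 - X3b_f L i t ^ 2) h with hu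
  have hus : star u = u := cfc_predicate (R := ℝ) (p := IsSelfAdjoint) _ h
  have hug : 1 - g * g = u := by
    rw [hu, cfc_sub (fun _ : ℝ => (1 : ℝ)) (fun t => X3b_f L i t ^ 2) h continuousOn_const
      ((cf i).pow 2), hone]
    congr 1
    rw [hg, ← cfc_mul (X3b_f L i) (X3b_f L i) h (cf i) (cf i)]
    refine cfc_congr fun t _ => ?_
    ring
  have huu : u * u ≤ u := by
    conv_lhs => rw [hu]
    rw [← cfc_mul _ _ h (cu i) (cu i)]
    conv_rhs => rw [hu]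
    refine cfc_mono (fun t _ => ?_) ((cu i).mul (cu i)) (cu i)
    obtain ⟨a1, a2⟩ := X3b_u L i t
    nlinarith
  have hn2u : n2 ξ (1 - g * g) ≤ η := by
    rw [hug]
    have h1 := X3b_n2 hξ u
    rw [hus] at h1
    have h2 := X3b_mono hξ huu
    have h3 : n2 ξ u ^ 2 ≤ η ^ 2 := by linarith
    exact (sq_le_sq₀ (n2_nonneg _ _) hη0.le).1 h3
  -- the trace of `g`
  have hhalf : ∀ c d : ℝ, X3b_t ξ ((c • (1 : H →L[ℂ] H)) + d • g) = c + d * X3b_t ξ g := by
    intro c d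
    rw [X3b_add hξ, X3b_smul, X3b_smul, X3b_one T, mul_one]
  have haff : ∀ c d : ℝ, cfc (fun t => c + d * X3b_f L i t) h = (c • (1 : H →L[ℂ] H)) + d • g := by
    intro c d
    rw [cfc_add (a := h) (fun _ : ℝ => c) (fun t => d * X3b_f L i t) continuousOn_const
      (continuousOn_const.mul (cf i)), cfc_const_mul d (X3b_f L i) h (cf i), cfc_const c h,
      Algebra.algebraMap_eq_smul_one]
  have hup : X3b_t ξ g ≤ 7 / 8 := by
    have h1 : hm ≤ cfc (fun t => (9 / 16 : ℝ) + (-(1 / 2) : ℝ) * X3b_f L i t) h := by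
      rw [hhm]
      refine cfc_mono (fun t ht => ?_) c2 (continuousOn_const.add (continuousOn_const.mul (cf i)))
      have := X3b_neg L i hL t (hspec t ht)
      linarith
    rw [haff] at h1
    have h2 := X3b_mono hξ h1
    rw [hhalf] at h2
    linarith
  have hlo : -(7 / 8) ≤ X3b_t ξ g := by
    have h1 : hp ≤ cfc (fun t => (9 / 16 : ℝ) + (1 / 2 : ℝ) * X3b_f L i t) h := by
      rw [hhp]
      refine cfc_mono (fun t ht => ?_) c1 (continuousOn_const.add (continuousOn_const.mul (cf i)))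
      have := X3b_pos L i hiL t (hspec t ht)
      linarith
    rw [haff] at h1
    have h2 := X3b_mono hξ h1
    rw [hhalf, hτpm] at h2
    linarith
  -- the symmetry
  obtain ⟨v, hvM, hvs, hvv, hvn, hvc⟩ := exists_sgn M hgM hgs
  have hvg : n2 ξ (v - g) ≤ η := (sgn_n2 hξ hvn).trans hn2u
  refine ⟨v, hvM, hvs, hvv, ?_, ?_, ?_⟩
  · have h1 : ip ξ 1 v = ip ξ 1 g + ip ξ 1 (v - g) := by
      rw [← ip_add hξ, add_sub_cancel]
    have h2 : ‖ip ξ 1 g‖ ≤ 7 / 8 := by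
      rw [X3b_norm hgs]
      exact abs_le.2 ⟨hlo, hup⟩
    have h3 : ‖ip ξ 1 (v - g)‖ ≤ η := by
      refine (ip_le hξ 1 (v - g)).trans ?_
      rw [T.n2_one, one_mul]
      exact hvg
    rw [h1]
    refine (norm_add_le _ _).trans ?_
    linarith
  · intro c hc
    apply hvc
    have h1 : Commute h c := hc.symm
    exact (h1.cfc_real (X3b_f L i)).symm
  · intro x hxM hxC hx
    have h1 : n2 ξ (g * x - x * g) ≤ ε / 2 :=
      hδ' i h hM hs hn1 x hxM hxC (hx.trans (hi0 i hi))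
    have h2 : v * x - x * v = (g * x - x * g) + ((v - g) * x - x * (v - g)) := by
      simp only [sub_mul, mul_sub]
      abel
    rw [h2]
    refine (n2_add_le hξ _ _).trans ?_
    have h3 : n2 ξ ((v - g) * x - x * (v - g)) ≤ 2 * C * η := by
      refine (n2_sub_le hξ _ _).trans ?_
      have h4 := T.n2_mul_le' (sub_mem hvM hgM) hxM
      have h5 := n2_mul_le hξ x (v - g)
      have h6 : n2 ξ (v - g) * ‖x‖ ≤ η * C :=
        mul_le_mul hvg hxC (norm_nonneg _) hη0.le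
      have h7 : ‖x‖ * n2 ξ (v - g) ≤ C * η :=
        mul_le_mul hxC hvg (n2_nonneg _ _) hC
      linarith
    have h8 : 2 * C * η ≤ ε / 2 := by
      have h9 : 2 * C * η ≤ 2 * C * (ε / (4 * (C + 1))) :=
        mul_le_mul_of_nonneg_left hη2 (by positivity)
      refine h9.trans ?_
      rw [mul_div_assoc', div_le_iff₀ (by positivity)]
      nlinarith
    linarith

end Pool.Agent.HFT
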