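import Pool.Agent.HFT.X1
import Pool.Agent.HFT.X3b

set_option autoImplicit false
set_option linter.unusedSectionVars false

/-! # Module X4 (5 points): symmetries from property Gamma

`Fs N Z k`: `Z 0, …, Z (k-1)` are commuting symmetries of `N` (the other `Z i` are arbitrary). To use
`Thk Z 0 k` of G2a (which needs `SymS`) replace `Z i` by `1` for `i ≥ k`:
`Z' i = if i < k then Z i else 1`, `SymS N Z'`.
`half`: `u` unitary of `N` with `ip ξ 1 u = 0`; `h₁ = (u + u*)/2`, `h₂ = (u - u*)/(2 i)`: self-adjoint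
contractions of trace zero (`ip ξ 1 (star u) = conj (ip ξ 1 u) = 0`), and
`n2 (h₁)² + n2 (h₂)² = 1` (parallelogram: `n2 (u + u*)² + n2 (u - u*)² = 2 n2 (u)² + 2 n2 (u*)² = 4`), so
one of them, `h₀`, has `n2 (h₀)² ≥ 1/2`. For `x ∈ N`: `u* x - x u* = - u* (u x - x u) u*`, so
`n2 (u* x - x u*) ≤ n2 (u x - x u)` and `n2 (h₀ x - x h₀) ≤ n2 (u x - x u)`.
`gbasic`: `C` = a bound of the norms of the elements of `F`, of the `d i`, `i < L`, and of `1`, where `L`, `δ₁` are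
from `GamF.indep` (X1) for `b`, `ε`. `ε₂ = min ε δ₁`; `δ₂` from `levels` (X3b) for `C`, `ε₂`. Apply `G.gam` to
`F' = F ∪ {d i | i < L} ∪ {Z i | i < k}` and `ε₃ = min δ₂ (1/16) / ((k + 1) * (2 * C + 2))`: `u`; `half`:
`h₀`.
`h = Thk Z' 0 k h₀`: self-adjoint, `‖h‖ ≤ 1`, trace `0` (`Thk_tr`), commutes with `Z i`, `i < k`
(`Thk_CZ`), `n2 (h - h₀) ≤ ∑_{i<k} n2 (Z i h₀ - h₀ Z i) ≤ k ε₃` (`Thk_dist`) `≤ 1/16`, so
`n2 h ≥ n2 h₀ - 1/16 ≥ √(1/2) - 1/16 ≥ 1/2`; and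
`n2 (h x - x h) ≤ n2 (h₀ x - x h₀) + 2 C n2 (h - h₀) ≤ ε₃ + 2 C k ε₃ ≤ δ₂` for `x ∈ F ∪ {d i}`.
`levels`: `v`, commuting with `Z i` for `i < k`, `n2 (v x - x v) ≤ ε₂`, `‖ip ξ 1 v‖ ≤ 15/16`; `indep`:
`‖ip ξ 1 (v b)‖ ≤ ‖ip ξ 1 v‖ ‖ip ξ 1 b‖ + ε`. -/

namespace Pool.Agent.HFT

open Pool.Agent.HK Filter Topology

variable {H : Type} [NormedAddCommGroup H] [InnerProductSpace ℂ H] [CompleteSpace H]
variable {N : VonNeumannAlgebra H} {ξ : ℕ → H} {d : ℕ → H →L[ℂ] H}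

/-- `Z 0, …, Z (k-1)` are commuting symmetries of `N` -/
structure Fs (N : VonNeumannAlgebra H) (Z : ℕ → H →L[ℂ] H) (k : ℕ) : Prop where
  Zm : ∀ i < k, Z i ∈ N
  Zs : ∀ i < k, star (Z i) = Z i
  Z2 : ∀ i < k, Z i * Z i = 1
  cZZ : ∀ i < k, ∀ j < k, Z i * Z j = Z j * Z i

private theorem X4_norm_one_le : ‖(1 : H →L[ℂ] H)‖ ≤ 1 := ContinuousLinearMap.norm_id_le

private theorem X4_smul_mem (c : ℂ) {x : H →L[ℂ] H} (hx : x ∈ N) : c • x ∈ N :=
  N.toStarSubalgebra.smul_mem hx c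

private theorem X4_norm_le {u : H →L[ℂ] H} (h1 : star u * u = 1) : ‖u‖ ≤ 1 := by
  have h := CStarRing.norm_star_mul_self (x := u)
  rw [h1] at h
  have h3 : ‖u‖ * ‖u‖ ≤ 1 := h ▸ X4_norm_one_le
  nlinarith [norm_nonneg u]

private theorem X4_par {ξ : ℕ → H} (hξ : Summable fun i => ‖ξ i‖ ^ 2) (x y : H →L[ℂ] H) :
    n2 ξ (x + y) ^ 2 + n2 ξ (x - y) ^ 2 = 2 * n2 ξ x ^ 2 + 2 * n2 ξ y ^ 2 := by
  rw [n2_sq, n2_sq, n2_sq, n2_sq, ← (smm hξ (x + y)).tsum_add (smm hξ (x - y)),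
    ← tsum_mul_left, ← tsum_mul_left, ← ((smm hξ x).mul_left 2).tsum_add ((smm hξ y).mul_left 2)]
  refine tsum_congr fun i => ?_
  have h := parallelogram_law_with_norm ℂ (x (ξ i)) (y (ξ i))
  rw [ContinuousLinearMap.add_apply, ContinuousLinearMap.sub_apply]
  nlinarith [h]

private theorem X4_comm_star (T : TrF N ξ) {u x : H →L[ℂ] H} (hu : u ∈ N) (h1 : star u * u = 1)
    (h2 : u * star u = 1) (hx : x ∈ N) :
    n2 ξ (star u * x - x * star u) ≤ n2 ξ (u * x - x * u) := by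
  have hun := X4_norm_le h1
  have hus : ‖star u‖ ≤ 1 := by rwa [norm_star]
  have hsm : star u ∈ N := star_mem hu
  have e : star u * x - x * star u = -(star u * ((u * x - x * u) * star u)) := by
    have e1 : star u * ((u * x - x * u) * star u)
        = (star u * u) * x * star u - star u * x * (u * star u) := by noncomm_ring
    rw [e1, h1, h2, one_mul, mul_one]
    abel
  have hw : u * x - x * u ∈ N := sub_mem (mul_mem hu hx) (mul_mem hx hu)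
  rw [e, n2_neg]
  calc n2 ξ (star u * ((u * x - x * u) * star u))
      ≤ ‖star u‖ * n2 ξ ((u * x - x * u) * star u) := n2_mul_le T.summ _ _
    _ ≤ 1 * (n2 ξ (u * x - x * u) * ‖star u‖) := by
        refine mul_le_mul hus (T.n2_mul_le' hw hsm) (n2_nonneg _ _) zero_le_one
    _ ≤ 1 * (n2 ξ (u * x - x * u) * 1) := by
        gcongr
        exact n2_nonneg _ _
    _ = n2 ξ (u * x - x * u) := by ring

private theorem X4_cand (T : TrF N ξ) {u : H →L[ℂ] H} (hu : u ∈ N) (h1 : star u * u = 1)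
    (h2 : u * star u = 1) (h0 : ip ξ 1 u = 0) (h0' : ip ξ 1 (star u) = 0) (c : ℂ)
    (hc : ‖c‖ = 1) (s : H →L[ℂ] H) (hs : s = (c / 2) • u + (star c / 2) • star u) :
    s ∈ N ∧ star s = s ∧ ‖s‖ ≤ 1 ∧ ip ξ 1 s = 0 ∧
      ∀ x ∈ N, n2 ξ (s * x - x * s) ≤ n2 ξ (u * x - x * u) := by
  have hun := X4_norm_le h1
  have hc2 : ‖c / 2‖ = 1 / 2 := by rw [norm_div, hc]; norm_num
  have hc3 : ‖star c / 2‖ = 1 / 2 := by
    rw [norm_div, norm_star, hc]; norm_num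
  refine ⟨?_, ?_, ?_, ?_, ?_⟩
  · rw [hs]
    exact add_mem (X4_smul_mem _ hu) (X4_smul_mem _ (star_mem hu))
  · rw [hs, star_add, star_smul, star_smul, star_star, add_comm]
    congr 2
    · simp
    · simp
  · rw [hs]
    refine (norm_add_le _ _).trans ?_
    rw [norm_smul, norm_smul, norm_star, hc2, hc3]
    linarith
  · rw [hs, ip_add T.summ, ip_smul, ip_smul, h0, h0']
    ring
  · intro x hx
    have e : s * x - x * s = (c / 2) • (u * x - x * u) + (star c / 2) • (star u * x - x * star u) := by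
      rw [hs]
      simp only [add_mul, mul_add, smul_sub, smul_mul_assoc, mul_smul_comm]
      abel
    rw [e]
    refine (n2_add_le T.summ _ _).trans ?_
    rw [n2_smul, n2_smul, hc2, hc3]
    have := X4_comm_star T hu h1 h2 hx
    linarith

theorem half (T : TrF N ξ) {u : H →L[ℂ] H} (hu : u ∈ N) (h1 : star u * u = 1)
    (h2 : u * star u = 1) (h0 : ip ξ 1 u = 0) :
    ∃ h ∈ N, star h = h ∧ ‖h‖ ≤ 1 ∧ ip ξ 1 h = 0 ∧ 1 / 2 ≤ n2 ξ h ^ 2 ∧
      ∀ x ∈ N, n2 ξ (h * x - x * h) ≤ n2 ξ (u * x - x * u) := by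
  have hun := X4_norm_le h1
  have h0' : ip ξ 1 (star u) = 0 := by
    have e := ip_mul_left ξ u 1 1
    rw [mul_one, mul_one] at e
    rw [← e, ← ip_conj, h0, map_zero]
  have hn1 : 1 ≤ n2 ξ u := by
    have h := n2_mul_le T.summ (star u) u
    rw [h1, T.n2_one, norm_star] at h
    nlinarith [n2_nonneg ξ u, norm_nonneg u]
  have hn2 : 1 ≤ n2 ξ (star u) := by rw [T.n2_star hu]; exact hn1
  have hp := X4_par T.summ u (star u)
  obtain ⟨a1, a2, a3, a4, a5⟩ := X4_cand T hu h1 h2 h0 h0' 1 (by simp)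
    ((1 / 2 : ℂ) • u + (star (1 : ℂ) / 2) • star u) rfl
  obtain ⟨b1, b2, b3, b4, b5⟩ := X4_cand T hu h1 h2 h0 h0' (-Complex.I) (by simp)
    ((-Complex.I / 2 : ℂ) • u + (star (-Complex.I) / 2) • star u) rfl
  have e1 : n2 ξ ((1 / 2 : ℂ) • u + (star (1 : ℂ) / 2) • star u) = 1 / 2 * n2 ξ (u + star u) := by
    have : (1 / 2 : ℂ) • u + (star (1 : ℂ) / 2) • star u = (1 / 2 : ℂ) • (u + star u) := by
      rw [star_one, smul_add]
    rw [this, n2_smul]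
    norm_num
  have e2 : n2 ξ ((-Complex.I / 2 : ℂ) • u + (star (-Complex.I) / 2) • star u)
      = 1 / 2 * n2 ξ (u - star u) := by
    have : (-Complex.I / 2 : ℂ) • u + (star (-Complex.I) / 2) • star u
        = (-Complex.I / 2 : ℂ) • (u - star u) := by
      have : star (-Complex.I) / 2 = -(-Complex.I / 2) := by
        simp
        ring
      rw [this, smul_sub, neg_smul, sub_eq_add_neg]
    rw [this, n2_smul]
    norm_num
  by_cases hcase : 2 ≤ n2 ξ (u + star u) ^ 2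
  · refine ⟨_, a1, a2, a3, a4, ?_, a5⟩
    rw [e1]
    nlinarith
  · refine ⟨_, b1, b2, b3, b4, ?_, b5⟩
    rw [e2]
    nlinarith

theorem gbasic (G : GamF N ξ d) (Z : ℕ → H →L[ℂ] H) (k : ℕ) (S : Fs N Z k)
    (F : Finset (H →L[ℂ] H)) (hF : ∀ x ∈ F, x ∈ N) (b : H →L[ℂ] H) (hb : b ∈ N) (ε : ℝ)
    (hε : 0 < ε) :
    ∃ v ∈ N, star v = v ∧ v * v = 1 ∧ (∀ i < k, Z i * v = v * Z i) ∧
      (∀ x ∈ F, n2 ξ (v * x - x * v) ≤ ε) ∧ ‖ip ξ 1 (v * b)‖ ≤ 15 / 16 * ‖ip ξ 1 b‖ + ε := by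
  classical
  have T := G.trf
  -- the symmetries, completed by `1`
  set Z' : ℕ → H →L[ℂ] H := fun i => if i < k then Z i else 1 with hZ'
  have hZk : ∀ i < k, Z' i = Z i := fun i hi => by simp [hZ', hi]
  have hZ1 : ∀ i, ¬ i < k → Z' i = 1 := fun i hi => by simp [hZ', hi]
  have S' : SymS N Z' := by
    refine ⟨fun i => ?_, fun i => ?_, fun i => ?_, fun i j => ?_⟩
    · by_cases hi : i < k
      · rw [hZk i hi]; exact S.Zm i hi
      · rw [hZ1 i hi]; exact one_mem N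
    · by_cases hi : i < k
      · rw [hZk i hi]; exact S.Zs i hi
      · rw [hZ1 i hi, star_one]
    · by_cases hi : i < k
      · rw [hZk i hi]; exact S.Z2 i hi
      · rw [hZ1 i hi, one_mul]
    · by_cases hi : i < k
      · by_cases hj : j < k
        · rw [hZk i hi, hZk j hj]; exact S.cZZ i hi j hj
        · rw [hZ1 j hj, one_mul, mul_one]
      · rw [hZ1 i hi, one_mul, mul_one]
  obtain ⟨L, δ₁, hδ₁, hind⟩ := G.indep b ε hε
  -- the finite sets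
  set F₁ : Finset (H →L[ℂ] H) := F ∪ (Finset.range L).image d with hF₁
  set F₂ : Finset (H →L[ℂ] H) := F₁ ∪ (Finset.range k).image Z with hF₂
  have hF₁m : ∀ x ∈ F₁, x ∈ N := by
    intro x hx
    rcases Finset.mem_union.1 hx with h | h
    · exact hF x h
    · obtain ⟨i, -, rfl⟩ := Finset.mem_image.1 h
      exact G.dm i
  have hF₂m : ∀ x ∈ F₂, x ∈ N := by
    intro x hx
    rcases Finset.mem_union.1 hx with h | h
    · exact hF₁m x h
    · obtain ⟨i, hi, rfl⟩ := Finset.mem_image.1 h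
      exact S.Zm i (Finset.mem_range.1 hi)
  set C : ℝ := 1 + ∑ x ∈ F₁, ‖x‖ with hC
  have hC1 : 1 ≤ C := by
    have : 0 ≤ ∑ x ∈ F₁, ‖x‖ := Finset.sum_nonneg fun x _ => norm_nonneg x
    rw [hC]; linarith
  have hCb : ∀ x ∈ F₁, ‖x‖ ≤ C := by
    intro x hx
    have := Finset.single_le_sum (f := fun x : H →L[ℂ] H => ‖x‖) (fun y _ => norm_nonneg y) hx
    rw [hC]; linarith
  set ε₂ : ℝ := min ε δ₁ with hε₂
  have hε₂p : 0 < ε₂ := lt_min hε hδ₁
  obtain ⟨δ₂, hδ₂, hlev⟩ := levels T C ε₂ (by linarith) hε₂p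
  set m : ℝ := min δ₂ (1 / 16) with hm
  have hmp : 0 < m := lt_min hδ₂ (by norm_num)
  set D : ℝ := ((k : ℝ) + 1) * (2 * C + 2) with hD
  have hk0 : (0 : ℝ) ≤ k := Nat.cast_nonneg k
  have hDp : 0 < D := by rw [hD]; positivity
  set ε₃ : ℝ := m / D with hε₃
  have hε₃p : 0 < ε₃ := div_pos hmp hDp
  have hε₃D : ε₃ * D = m := div_mul_cancel₀ m hDp.ne'
  obtain ⟨u, hu, hu1, hu2, hu0, hucomm⟩ := G.gam F₂ hF₂m ε₃ hε₃p
  obtain ⟨h₀, hh₀, hs₀, hn₀, ht₀, hq₀, hc₀⟩ := half T hu hu1 hu2 hu0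
  have hc₀' : ∀ x ∈ F₂, n2 ξ (h₀ * x - x * h₀) ≤ ε₃ := fun x hx =>
    (hc₀ x (hF₂m x hx)).trans (hucomm x hx).le
  set h : H →L[ℂ] H := Thk Z' 0 k h₀ with hh
  have hhm : h ∈ N := Thk_mem S' 0 k hh₀
  have hhs : star h = h := by rw [hh, Thk_star S', hs₀]
  have hhn : ‖h‖ ≤ 1 := (Thk_norm S' 0 k h₀).trans hn₀
  have hht : ip ξ 1 h = 0 := by rw [hh, Thk_tr T S' 0 k hh₀, ht₀]
  have hcz : ∀ i < k, Z i * h = h * Z i := by
    intro i hi
    have := Thk_CZ S' 0 k i (Nat.zero_le _) (by omega) h₀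
    rwa [hZk i hi] at this
  have hdist : n2 ξ (h - h₀) ≤ k * ε₃ := by
    refine (Thk_dist T S' 0 k hh₀).trans ?_
    have : ∀ j ∈ Finset.range k, n2 ξ (Z' (0 + j) * h₀ - h₀ * Z' (0 + j)) ≤ ε₃ := by
      intro j hj
      have hj' := Finset.mem_range.1 hj
      rw [zero_add, hZk j hj']
      have e : Z j * h₀ - h₀ * Z j = -(h₀ * Z j - Z j * h₀) := by abel
      rw [e, n2_neg]
      exact hc₀' _ (Finset.mem_union_right _ (Finset.mem_image_of_mem _ hj))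
    refine (Finset.sum_le_sum this).trans ?_
    rw [Finset.sum_const, Finset.card_range, nsmul_eq_mul]
  have hkε : k * ε₃ ≤ 1 / 16 := by
    have h1 : k * ε₃ ≤ ε₃ * D := by
      rw [hD]
      nlinarith [mul_nonneg hk0 hε₃p.le, mul_nonneg (mul_nonneg hk0 hε₃p.le) (by linarith : (0:ℝ) ≤ C)]
    rw [hε₃D] at h1
    exact h1.trans (min_le_right _ _)
  have hnh : 1 / 4 ≤ n2 ξ h ^ 2 := by
    have h1 : n2 ξ h₀ ≤ n2 ξ h + n2 ξ (h - h₀) := by
      have e : h₀ = h - (h - h₀) := by abel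
      calc n2 ξ h₀ = n2 ξ (h - (h - h₀)) := by rw [← e]
        _ ≤ n2 ξ h + n2 ξ (h - h₀) := n2_sub_le T.summ _ _
    have h2 : n2 ξ h₀ ≤ n2 ξ h + 1 / 16 := by linarith
    have h3 := n2_nonneg ξ h
    have h4 := n2_nonneg ξ h₀
    have h5 : 1 / 2 ≤ n2 ξ h := by
      by_contra hcon
      push Not at hcon
      nlinarith
    nlinarith
  have hcomm : ∀ x ∈ F₁, n2 ξ (h * x - x * h) ≤ δ₂ := by
    intro x hx
    have hxN := hF₁m x hx
    have hxC := hCb x hx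
    have hdm : h - h₀ ∈ N := sub_mem hhm hh₀
    have e : h * x - x * h = (h₀ * x - x * h₀) + ((h - h₀) * x - x * (h - h₀)) := by
      noncomm_ring
    have h1 : n2 ξ ((h - h₀) * x) ≤ C * (k * ε₃) := by
      refine (T.n2_mul_le' hdm hxN).trans ?_
      rw [mul_comm]
      exact mul_le_mul hxC hdist (n2_nonneg _ _) (by linarith)
    have h2 : n2 ξ (x * (h - h₀)) ≤ C * (k * ε₃) := by
      refine (n2_mul_le T.summ _ _).trans ?_
      exact mul_le_mul hxC hdist (n2_nonneg _ _) (by linarith)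
    have h3 : n2 ξ (h₀ * x - x * h₀) ≤ ε₃ := hc₀' x (Finset.mem_union_left _ hx)
    have h4 : n2 ξ (h * x - x * h) ≤ ε₃ + (C * (k * ε₃) + C * (k * ε₃)) := by
      rw [e]
      refine (n2_add_le T.summ _ _).trans (add_le_add h3 ?_)
      exact (n2_sub_le T.summ _ _).trans (add_le_add h1 h2)
    have h5 : ε₃ + (C * (k * ε₃) + C * (k * ε₃)) ≤ ε₃ * D := by
      rw [hD]
      nlinarith [mul_nonneg hk0 hε₃p.le, mul_nonneg (by linarith : (0:ℝ) ≤ C) hε₃p.le]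
    rw [hε₃D] at h5
    exact h4.trans (h5.trans (min_le_left _ _))
  obtain ⟨v, hv, hvs, hv2, hvt, hvc, hvx⟩ := hlev h hhm hhs hhn hht hnh
  have hvn : ‖v‖ ≤ 1 := X4_norm_le (by rw [hvs, hv2])
  have hvF : ∀ x ∈ F₁, n2 ξ (v * x - x * v) ≤ ε₂ := fun x hx =>
    hvx x (hF₁m x hx) (hCb x hx) (hcomm x hx)
  refine ⟨v, hv, hvs, hv2, fun i hi => hvc _ (hcz i hi), fun x hx => ?_, ?_⟩
  · exact (hvF x (Finset.mem_union_left _ hx)).trans (min_le_left _ _)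
  · have h1 := hind v hv hvn (fun i hi =>
      (hvF (d i) (Finset.mem_union_right _ (Finset.mem_image_of_mem _
        (Finset.mem_range.2 hi)))).trans (min_le_right _ _))
    have h2 : ‖ip ξ 1 (v * b)‖ ≤ ‖ip ξ 1 v * ip ξ 1 b‖ + ε := by
      have e : ip ξ 1 (v * b) = ip ξ 1 v * ip ξ 1 b + (ip ξ 1 (v * b) - ip ξ 1 v * ip ξ 1 b) := by
        ring
      rw [e]
      exact (norm_add_le _ _).trans (by linarith)
    rw [norm_mul] at h2
    have h3 : ‖ip ξ 1 v‖ * ‖ip ξ 1 b‖ ≤ 15 / 16 * ‖ip ξ 1 b‖ :=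
      mul_le_mul_of_nonneg_right hvt (norm_nonneg _)
    linarith

end Pool.Agent.HFT
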