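import Pool.Agent.HFT.X4

set_option autoImplicit false
set_option linter.unusedSectionVars false

/-! # Module X5 (3 points): symmetries of small trace

Claim by induction on `r : ℕ`: for all `ε > 0` there is `w ∈ N`, `star w = w`, `w * w = 1`, commuting with `Z i`
for `i < k`, `n2 (w x - x w) ≤ ε` for `x ∈ F`, and `‖ip ξ 1 w‖ ≤ (15/16)^r + ε`. `r = 0`: `w = 1` (`ip ξ 1 1 = 1`).
Step: `w` for `r` and `ε/2`; `gbasic` (X4) for the `k + 1` symmetries `Z 0, …, Z (k-1), w`
(`Z' = Function.update Z k w`), `F`, `b = w`, `ε/2`: `v`. `w' = v * w` (`v w = w v`): symmetry,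
`‖ip ξ 1 (v w)‖ ≤ 15/16 ((15/16)^r + ε/2) + ε/2 ≤ (15/16)^(r+1) + ε`;
`v w x - x v w = v (w x - x w) + (v x - x v) w`. Finally choose `r` with `(15/16)^r ≤ ε/2`. -/

namespace Pool.Agent.HFT

open Pool.Agent.HK Filter Topology

variable {H : Type} [NormedAddCommGroup H] [InnerProductSpace ℂ H] [CompleteSpace H]
variable {N : VonNeumannAlgebra H} {ξ : ℕ → H} {d : ℕ → H →L[ℂ] H}

private theorem X5_norm {w : H →L[ℂ] H} (h1 : star w = w) (h2 : w * w = 1) : ‖w‖ ≤ 1 := by
  have h3 : ‖star w * w‖ = ‖w‖ * ‖w‖ := CStarRing.norm_star_mul_self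
  rw [h1, h2] at h3
  have h4 : ‖(1 : H →L[ℂ] H)‖ ≤ 1 := ContinuousLinearMap.norm_id_le
  nlinarith [norm_nonneg w]

private theorem X5_aux (G : GamF N ξ d) (Z : ℕ → H →L[ℂ] H) (k : ℕ) (S : Fs N Z k)
    (F : Finset (H →L[ℂ] H)) (hF : ∀ x ∈ F, x ∈ N) (r : ℕ) : ∀ ε : ℝ, 0 < ε →
    ∃ w ∈ N, star w = w ∧ w * w = 1 ∧ (∀ i < k, Z i * w = w * Z i) ∧
      (∀ x ∈ F, n2 ξ (w * x - x * w) ≤ ε) ∧ ‖ip ξ 1 w‖ ≤ (15 / 16) ^ r + ε := by
  have T := G.trf
  have hs := T.summ
  induction r with
  | zero =>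
    intro ε hε
    refine ⟨1, one_mem N, star_one _, one_mul 1, fun i _ => by rw [mul_one, one_mul], ?_, ?_⟩
    · intro x _
      rw [one_mul, mul_one, sub_self, n2_zero]
      exact hε.le
    · rw [ip_self hs, T.n2_one]
      simp
      linarith
  | succ r ih =>
    intro ε hε
    obtain ⟨w, hw, hws, hw2, hwZ, hwF, hwt⟩ := ih (ε / 2) (half_pos hε)
    have S' : Fs N (Function.update Z k w) (k + 1) := by
      have hlt : ∀ i < k + 1, i ≠ k → i < k := fun i hi hne => by omega
      refine ⟨?_, ?_, ?_, ?_⟩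
      · intro i hi
        rcases eq_or_ne i k with rfl | hne
        · rw [Function.update_self]; exact hw
        · rw [Function.update_of_ne hne]; exact S.Zm i (hlt i hi hne)
      · intro i hi
        rcases eq_or_ne i k with rfl | hne
        · rw [Function.update_self]; exact hws
        · rw [Function.update_of_ne hne]; exact S.Zs i (hlt i hi hne)
      · intro i hi
        rcases eq_or_ne i k with rfl | hne
        · rw [Function.update_self]; exact hw2
        · rw [Function.update_of_ne hne]; exact S.Z2 i (hlt i hi hne)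
      · intro i hi j hj
        rcases eq_or_ne i k with rfl | hne
        · rcases eq_or_ne j i with rfl | hne'
          · rfl
          · rw [Function.update_self, Function.update_of_ne hne']
            exact (hwZ j (hlt j hj hne')).symm
        · rcases eq_or_ne j k with rfl | hne'
          · rw [Function.update_self, Function.update_of_ne hne]
            exact hwZ i (hlt i hi hne)
          · rw [Function.update_of_ne hne, Function.update_of_ne hne']
            exact S.cZZ i (hlt i hi hne) j (hlt j hj hne')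
    obtain ⟨v, hv, hvs, hv2, hvZ, hvF, hvt⟩ := gbasic G (Function.update Z k w) (k + 1) S' F hF w hw
      (ε / 2) (half_pos hε)
    have hvw : w * v = v * w := by
      have := hvZ k (Nat.lt_succ_self k)
      rwa [Function.update_self] at this
    have hvZ' : ∀ i < k, Z i * v = v * Z i := by
      intro i hi
      have := hvZ i (by omega)
      rwa [Function.update_of_ne hi.ne] at this
    refine ⟨v * w, mul_mem hv hw, ?_, ?_, ?_, ?_, ?_⟩
    · rw [star_mul, hws, hvs, hvw]
    · calc v * w * (v * w) = v * (w * v) * w := by simp only [mul_assoc]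
        _ = v * (v * w) * w := by rw [hvw]
        _ = (v * v) * (w * w) := by simp only [mul_assoc]
        _ = 1 := by rw [hv2, hw2, one_mul]
    · intro i hi
      rw [← mul_assoc, hvZ' i hi, mul_assoc, hwZ i hi, mul_assoc]
    · intro x hx
      have hxN := hF x hx
      have e1 : v * w * x - x * (v * w) = v * (w * x - x * w) + (v * x - x * v) * w := by
        rw [mul_sub, sub_mul]
        simp only [mul_assoc]
        abel
      rw [e1]
      have h1 := n2_add_le hs (v * (w * x - x * w)) ((v * x - x * v) * w)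
      have h2 := n2_mul_le hs v (w * x - x * w)
      have h3 := T.n2_mul_le' (x := v * x - x * v) (b := w)
        (sub_mem (mul_mem hv hxN) (mul_mem hxN hv)) hw
      have h4 := X5_norm hvs hv2
      have h5 := X5_norm hws hw2
      have h6 := hwF x hx
      have h7 := hvF x hx
      have h8 := n2_nonneg ξ (w * x - x * w)
      have h9 := n2_nonneg ξ (v * x - x * v)
      nlinarith
    · calc ‖ip ξ 1 (v * w)‖ ≤ 15 / 16 * ‖ip ξ 1 w‖ + ε / 2 := hvt
        _ ≤ 15 / 16 * ((15 / 16) ^ r + ε / 2) + ε / 2 := by linarith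
        _ ≤ (15 / 16) ^ (r + 1) + ε := by
          rw [pow_succ]
          linarith

theorem gsmall (G : GamF N ξ d) (Z : ℕ → H →L[ℂ] H) (k : ℕ) (S : Fs N Z k)
    (F : Finset (H →L[ℂ] H)) (hF : ∀ x ∈ F, x ∈ N) (ε : ℝ) (hε : 0 < ε) :
    ∃ w ∈ N, star w = w ∧ w * w = 1 ∧ (∀ i < k, Z i * w = w * Z i) ∧
      (∀ x ∈ F, n2 ξ (w * x - x * w) ≤ ε) ∧ ‖ip ξ 1 w‖ ≤ ε := by
  obtain ⟨r, hr⟩ := exists_pow_lt_of_lt_one (half_pos hε) (show (15 / 16 : ℝ) < 1 by norm_num)
  obtain ⟨w, hw, hws, hw2, hwZ, hwF, hwt⟩ := X5_aux G Z k S F hF r (ε / 2) (half_pos hε)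
  refine ⟨w, hw, hws, hw2, hwZ, fun x hx => (hwF x hx).trans (by linarith), ?_⟩
  linarith

end Pool.Agent.HFT
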