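import Pool.Agent.HFT.X5

set_option autoImplicit false
set_option linter.unusedSectionVars false

/-! # Module X6 (3 points): the sequence of symmetries

Recursion with `gsmall` (X5): `Z k` for the symmetries `Z 0, …, Z (k-1)`, `F = {d 0, …, d k}`,
`ε = (1/4)^k / (k + 1)`-ish (for instance `ε = (1/4)^k`, which is `≤ 1/(k+1)`). Use a list of the previous symmetries or
strong recursion (`exists_seq_of_forall_finset_exists`, or build partial sequences
`ℕ → (H →L[ℂ] H)` with `Fs N Z k` by `Function.update`). -/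

namespace Pool.Agent.HFT

open Pool.Agent.HK Filter Topology

variable {H : Type} [NormedAddCommGroup H] [InnerProductSpace ℂ H] [CompleteSpace H]
variable {N : VonNeumannAlgebra H} {ξ : ℕ → H} {d : ℕ → H →L[ℂ] H}

private structure X6Good (N : VonNeumannAlgebra H) (ξ : ℕ → H) (d : ℕ → H →L[ℂ] H)
    (Z : ℕ → H →L[ℂ] H) (k : ℕ) : Prop where
  fs : Fs N Z k
  cm : ∀ i < k, ∀ l ≤ i, n2 ξ (Z i * d l - d l * Z i) ≤ (1 / 4) ^ i
  tr : ∀ i < k, ‖ip ξ 1 (Z i)‖ ≤ (1 / 4) ^ i

private theorem X6_zero (Z : ℕ → H →L[ℂ] H) : X6Good N ξ d Z 0 where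
  fs := ⟨fun i hi => absurd hi (Nat.not_lt_zero i), fun i hi => absurd hi (Nat.not_lt_zero i),
    fun i hi => absurd hi (Nat.not_lt_zero i), fun i hi => absurd hi (Nat.not_lt_zero i)⟩
  cm := fun i hi => absurd hi (Nat.not_lt_zero i)
  tr := fun i hi => absurd hi (Nat.not_lt_zero i)

private theorem X6_step (G : GamF N ξ d) (Z : ℕ → H →L[ℂ] H) (k : ℕ)
    (h : X6Good N ξ d Z k) :
    ∃ w : H →L[ℂ] H, X6Good N ξ d (Function.update Z k w) (k + 1) := by
  classical
  obtain ⟨w, hw, hs, h2, hc, hF, ht⟩ := gsmall G Z k h.fs ((Finset.range (k + 1)).image d)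
    (by
      intro x hx
      obtain ⟨i, _, rfl⟩ := Finset.mem_image.1 hx
      exact G.dm i) ((1 / 4) ^ k) (by positivity)
  have hlt : ∀ i < k, Function.update Z k w i = Z i := fun i hi =>
    Function.update_of_ne hi.ne _ _
  have hk : Function.update Z k w k = w := Function.update_self _ _ _
  have hcase : ∀ i < k + 1, i < k ∨ i = k := fun i hi => Nat.lt_succ_iff_lt_or_eq.1 hi
  refine ⟨w, ⟨⟨?_, ?_, ?_, ?_⟩, ?_, ?_⟩⟩
  · intro i hi
    rcases hcase i hi with h1 | h1
    · rw [hlt i h1]; exact h.fs.Zm i h1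
    · rw [h1, hk]; exact hw
  · intro i hi
    rcases hcase i hi with h1 | h1
    · rw [hlt i h1]; exact h.fs.Zs i h1
    · rw [h1, hk]; exact hs
  · intro i hi
    rcases hcase i hi with h1 | h1
    · rw [hlt i h1]; exact h.fs.Z2 i h1
    · rw [h1, hk]; exact h2
  · intro i hi j hj
    rcases hcase i hi with h1 | h1
    · rcases hcase j hj with h3 | h3
      · rw [hlt i h1, hlt j h3]; exact h.fs.cZZ i h1 j h3
      · rw [hlt i h1, h3, hk]; exact hc i h1
    · rcases hcase j hj with h3 | h3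
      · rw [hlt j h3, h1, hk]; exact (hc j h3).symm
      · rw [h1, h3]
  · intro i hi l hl
    rcases hcase i hi with h1 | h1
    · rw [hlt i h1]; exact h.cm i h1 l hl
    · subst h1
      rw [hk]
      exact hF (d l) (Finset.mem_image.2 ⟨l, Finset.mem_range.2 (Nat.lt_succ_of_le hl), rfl⟩)
  · intro i hi
    rcases hcase i hi with h1 | h1
    · rw [hlt i h1]; exact h.tr i h1
    · rw [h1, hk]; exact ht

private noncomputable def X6_seq (G : GamF N ξ d) :
    (k : ℕ) → {Z : ℕ → H →L[ℂ] H // X6Good N ξ d Z k}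
  | 0 => ⟨fun _ => 1, X6_zero _⟩
  | k + 1 => ⟨Function.update (X6_seq G k).1 k
      (X6_step G (X6_seq G k).1 k (X6_seq G k).2).choose,
      (X6_step G (X6_seq G k).1 k (X6_seq G k).2).choose_spec⟩

private theorem X6_stable (G : GamF N ξ d) (m : ℕ) :
    ∀ i < m, (X6_seq G m).1 i = (X6_seq G (i + 1)).1 i := by
  induction m with
  | zero => exact fun i hi => absurd hi (Nat.not_lt_zero i)
  | succ m ih =>
    intro i hi
    rcases Nat.lt_succ_iff_lt_or_eq.1 hi with h1 | h1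
    · rw [← ih i h1]
      change Function.update (X6_seq G m).1 m _ i = _
      exact Function.update_of_ne h1.ne _ _
    · rw [h1]

theorem gseq (G : GamF N ξ d) :
    ∃ Z : ℕ → H →L[ℂ] H, SymS N Z ∧
      (∀ k, ∀ l ≤ k, n2 ξ (Z k * d l - d l * Z k) ≤ (1 / 4) ^ k) ∧
      ∀ k, ‖ip ξ 1 (Z k)‖ ≤ (1 / 4) ^ k := by
  have hg : ∀ k m, k < m → (X6_seq G m).1 k = (X6_seq G (k + 1)).1 k :=
    fun k m h => X6_stable G m k h
  refine ⟨fun k => (X6_seq G (k + 1)).1 k, ⟨?_, ?_, ?_, ?_⟩, ?_, ?_⟩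
  · exact fun i => (X6_seq G (i + 1)).2.fs.Zm i (Nat.lt_succ_self i)
  · exact fun i => (X6_seq G (i + 1)).2.fs.Zs i (Nat.lt_succ_self i)
  · exact fun i => (X6_seq G (i + 1)).2.fs.Z2 i (Nat.lt_succ_self i)
  · intro i j
    have hi : i < max i j + 1 := Nat.lt_succ_of_le (le_max_left i j)
    have hj : j < max i j + 1 := Nat.lt_succ_of_le (le_max_right i j)
    have h := (X6_seq G (max i j + 1)).2.fs.cZZ i hi j hj
    rw [hg i _ hi, hg j _ hj] at h
    exact h
  · exact fun k l hl => (X6_seq G (k + 1)).2.cm k (Nat.lt_succ_self k) l hl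
  · exact fun k => (X6_seq G (k + 1)).2.tr k (Nat.lt_succ_self k)

end Pool.Agent.HFT
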